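import Mathlib

/-! Almost all polynomials in Waring's problem: an inequality for power sums of separated variables. -/

set_option autoImplicit false

open Finset MeasureTheory

namespace Pool.Agent.U914.WP

variable {ι : Type*} [LinearOrder ι]

/-- the sum of the integrals over the intervals -/
noncomputable def Lam (S : Finset ι) (x x' : ι → ℝ) (g : ℝ → ℝ) : ℝ := ∑ l ∈ S, ∫ u in x' l..x l, g u

omit [LinearOrder ι] in
theorem Lam_lin (S : Finset ι) (x x' : ι → ℝ) (g h : ℝ → ℝ) (hg : Continuous g) (hh : Continuous h) (z : ℝ) :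
    Lam S x x' (fun u => g u - z * h u) = Lam S x x' g - z * Lam S x x' h := by
  unfold Lam
  rw [mul_sum, ← sum_sub_distrib]
  apply sum_congr rfl
  intro l _
  have h1 : IntervalIntegrable (fun u => z * h u) volume (x' l) (x l) :=
    (continuous_const.mul hh).intervalIntegrable _ _
  show ∫ u in x' l..x l, (g u - z * h u) = _
  rw [intervalIntegral.integral_sub (hg.intervalIntegrable _ _) h1,
    intervalIntegral.integral_const_mul]

omit [LinearOrder ι] in
theorem cont_gT (T : Finset ι) (z : ι → ℝ) (n : ℕ) : Continuous fun u : ℝ => u ^ n * ∏ t ∈ T, (u - z t) := by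
  apply Continuous.mul (by fun_prop)
  apply continuous_finsetProd
  intro t _
  fun_prop

theorem Lam_bound (S : Finset ι) (x x' : ι → ℝ) (z : ι → ℝ) (E : ℝ) (T : Finset ι) : ∀ n : ℕ,
    (∀ i, n ≤ i → i ≤ n + T.card → |Lam S x x' (fun u => u ^ i)| ≤ E) →
    |Lam S x x' (fun u => u ^ n * ∏ t ∈ T, (u - z t))| ≤ E * ∏ t ∈ T, (1 + |z t|) := by
  classical
  induction T using Finset.induction_on with
  | empty =>
    intro n h
    have := h n le_rfl (by simp)
    simpa using this
  | insert t T ht ih =>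
    intro n h
    rw [card_insert_of_notMem ht] at h
    have h1 := ih (n + 1) (fun i hi hi2 => h i (by omega) (by omega))
    have h2 := ih n (fun i hi hi2 => h i (by omega) (by omega))
    have e : (fun u : ℝ => u ^ n * ∏ t ∈ insert t T, (u - z t)) =
        fun u : ℝ => (u ^ (n + 1) * ∏ t ∈ T, (u - z t)) - z t * (u ^ n * ∏ t ∈ T, (u - z t)) := by
      funext u
      rw [prod_insert ht]
      ring
    rw [e, Lam_lin S x x' _ _ (cont_gT T z (n + 1)) (cont_gT T z n), prod_insert ht]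
    calc |Lam S x x' (fun u => u ^ (n + 1) * ∏ t ∈ T, (u - z t)) -
          z t * Lam S x x' (fun u => u ^ n * ∏ t ∈ T, (u - z t))| ≤
          |Lam S x x' (fun u => u ^ (n + 1) * ∏ t ∈ T, (u - z t))| +
          |z t * Lam S x x' (fun u => u ^ n * ∏ t ∈ T, (u - z t))| := abs_sub _ _
      _ ≤ E * ∏ t ∈ T, (1 + |z t|) + |z t| * (E * ∏ t ∈ T, (1 + |z t|)) := by
          rw [abs_mul]
          exact add_le_add h1 (mul_le_mul_of_nonneg_left h2 (abs_nonneg _))
      _ = _ := by ring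

theorem int_left (p q : ℝ) (k : ℝ → ℝ) (hk : ∀ u ∈ Set.uIcc p q, 0 ≤ k u) :
    0 ≤ ∫ u in p..q, (u - p) * k u := by
  rcases le_total p q with h | h
  · apply intervalIntegral.integral_nonneg h
    intro u hu
    rw [Set.uIcc_of_le h] at hk
    exact mul_nonneg (by linarith [hu.1]) (hk u hu)
  · rw [intervalIntegral.integral_symm, neg_nonneg]
    have h1 : 0 ≤ ∫ u in q..p, -((u - p) * k u) := by
      apply intervalIntegral.integral_nonneg h
      intro u hu
      rw [Set.uIcc_of_ge h] at hk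
      have := mul_nonneg (by linarith [hu.2] : 0 ≤ p - u) (hk u hu)
      linarith
    rw [intervalIntegral.integral_neg] at h1
    linarith

theorem int_right (p q : ℝ) (k : ℝ → ℝ) (hk : ∀ u ∈ Set.uIcc p q, 0 ≤ k u) :
    0 ≤ ∫ u in p..q, (q - u) * k u := by
  rw [intervalIntegral.integral_symm]
  have h := int_left q p k (fun u hu => hk u (by rwa [Set.uIcc_comm]))
  have e : (fun u => (q - u) * k u) = fun u => -((u - q) * k u) := by
    funext u; ring
  rw [e, intervalIntegral.integral_neg, neg_neg]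
  exact h

/-- the sign of `u - v` for `u` in the `l`-th interval and `v` in the `t`-th one -/
def sg (l t : ι) : ℝ := if t < l then 1 else -1

theorem sg_sq (l t : ι) : sg l t * sg l t = 1 := by
  unfold sg
  split_ifs <;> norm_num

theorem sg_prod (l : ι) (T : Finset ι) : (∏ t ∈ T, sg l t) = 1 ∨ (∏ t ∈ T, sg l t) = -1 := by
  have h : (∏ t ∈ T, sg l t) * (∏ t ∈ T, sg l t) = 1 := by
    rw [← prod_mul_distrib]
    exact prod_eq_one fun t _ => sg_sq l t
  exact mul_self_eq_one_iff.1 h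

/-- **The inequality for one coordinate.** -/
theorem vi_aux (S : Finset ι) (l0 : ι) (hl0 : l0 ∈ S) (x x' lo hi : ι → ℝ) (A B c E : ℝ) (r : ℕ)
    (hA : 0 ≤ A) (hc : 0 ≤ c) (hE : 0 ≤ E)
    (hx : ∀ l ∈ S, lo l ≤ x l ∧ x l ≤ hi l) (hx' : ∀ l ∈ S, lo l ≤ x' l ∧ x' l ≤ hi l)
    (hlo : ∀ l ∈ S, A ≤ lo l) (hhi : ∀ l ∈ S, hi l ≤ B)
    (hsep : ∀ l ∈ S, ∀ t ∈ S, l < t → hi l + c ≤ lo t)
    (hS : ∀ i, r ≤ i → i ≤ r + (S.erase l0).card → |Lam S x x' (fun u => u ^ i)| ≤ E)
    (hle : x' l0 ≤ x l0) :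
    (x l0 - x' l0) * A ^ r * c ^ (S.erase l0).card ≤ E * (1 + B) ^ (S.erase l0).card := by
  classical
  set W : ι → ℝ := fun l => ∏ t ∈ (S.erase l0).erase l, sg l t with hW
  have hWv : ∀ l, W l = 1 ∨ W l = -1 := fun l => sg_prod l _
  set W0 : ℝ := ∏ t ∈ S.erase l0, sg l0 t with hW0
  have hW0v : W0 = 1 ∨ W0 = -1 := sg_prod l0 _
  set z : ι → ℝ := fun l => if W0 * W l = 1 then x' l else x l with hz
  have hzI : ∀ l ∈ S, lo l ≤ z l ∧ z l ≤ hi l := by
    intro l hl
    simp only [hz]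
    split_ifs
    · exact hx' l hl
    · exact hx l hl
  -- the sign of the differences
  have hdiff : ∀ l ∈ S, ∀ t ∈ S, t ≠ l → ∀ u, lo l ≤ u → u ≤ hi l → c ≤ (u - z t) * sg l t := by
    intro l hl t ht htl u hu1 hu2
    unfold sg
    obtain ⟨h1, h2⟩ := hzI t ht
    split_ifs with h
    · have := hsep t ht l hl h
      linarith
    · have h3 : l < t := lt_of_le_of_ne (not_lt.1 h) (Ne.symm htl)
      have := hsep l hl t ht h3
      linarith
  have hterm0 : (x l0 - x' l0) * (A ^ r * c ^ (S.erase l0).card) ≤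
      W0 * ∫ u in x' l0..x l0, u ^ r * ∏ t ∈ S.erase l0, (u - z t) := by
    rw [← intervalIntegral.integral_const_mul]
    have h1 : (x l0 - x' l0) * (A ^ r * c ^ (S.erase l0).card) =
        ∫ _u in x' l0..x l0, A ^ r * c ^ (S.erase l0).card := by
      rw [intervalIntegral.integral_const, smul_eq_mul]
    rw [h1]
    apply intervalIntegral.integral_mono_on hle
    · exact continuous_const.intervalIntegrable _ _
    · exact (continuous_const.mul (cont_gT (S.erase l0) z r)).intervalIntegrable _ _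
    · intro u hu
      have hu1 : lo l0 ≤ u := (hx' l0 hl0).1.trans hu.1
      have hu2 : u ≤ hi l0 := hu.2.trans (hx l0 hl0).2
      have e : W0 * (u ^ r * ∏ t ∈ S.erase l0, (u - z t)) = u ^ r * ∏ t ∈ S.erase l0, ((u - z t) * sg l0 t) := by
        rw [prod_mul_distrib, hW0]
        ring
      rw [e]
      have hAu : A ≤ u := (hlo l0 hl0).trans hu1
      apply mul_le_mul (pow_le_pow_left₀ hA hAu r) _ (by positivity) (pow_nonneg (hA.trans hAu) r)
      rw [← prod_const]
      apply prod_le_prod (fun _ _ => hc)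
      intro t ht
      exact hdiff l0 hl0 t (mem_of_mem_erase ht) (ne_of_mem_erase ht) u hu1 hu2
  have hterm : ∀ l ∈ S.erase l0, 0 ≤ W0 * ∫ u in x' l..x l, u ^ r * ∏ t ∈ S.erase l0, (u - z t) := by
    intro l hl
    have hlS := mem_of_mem_erase hl
    set kk : ℝ → ℝ := fun u => W l * (u ^ r * ∏ t ∈ (S.erase l0).erase l, (u - z t)) with hkk
    have hk0 : ∀ u, lo l ≤ u → u ≤ hi l → 0 ≤ kk u := by
      intro u hu1 hu2
      have hAu : A ≤ u := (hlo l hlS).trans hu1
      have e : kk u = u ^ r * ∏ t ∈ (S.erase l0).erase l, ((u - z t) * sg l t) := by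
        rw [prod_mul_distrib, hkk, hW]
        ring
      rw [e]
      apply mul_nonneg (pow_nonneg (hA.trans hAu) r)
      apply prod_nonneg
      intro t ht
      exact hc.trans (hdiff l hlS t (mem_of_mem_erase (mem_of_mem_erase ht)) (ne_of_mem_erase ht) u hu1 hu2)
    have hku : ∀ u ∈ Set.uIcc (x' l) (x l), 0 ≤ kk u := by
      intro u hu
      rw [Set.mem_uIcc] at hu
      rcases hu with hu | hu
      · exact hk0 u ((hx' l hlS).1.trans hu.1) (hu.2.trans (hx l hlS).2)
      · exact hk0 u ((hx l hlS).1.trans hu.1) (hu.2.trans (hx' l hlS).2)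
    have hWW : W l * W l = 1 := by
      rcases hWv l with h | h <;> rw [h] <;> norm_num
    have e1 : ∀ u, u ^ r * ∏ t ∈ S.erase l0, (u - z t) = W l * ((u - z l) * kk u) := by
      intro u
      rw [← mul_prod_erase (S.erase l0) (fun t => u - z t) hl, hkk]
      simp only
      calc u ^ r * ((u - z l) * ∏ t ∈ (S.erase l0).erase l, (u - z t)) =
            1 * (u ^ r * ((u - z l) * ∏ t ∈ (S.erase l0).erase l, (u - z t))) := by ring
        _ = (W l * W l) * (u ^ r * ((u - z l) * ∏ t ∈ (S.erase l0).erase l, (u - z t))) := by rw [hWW]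
        _ = _ := by ring
    have e2 : W0 * ∫ u in x' l..x l, u ^ r * ∏ t ∈ S.erase l0, (u - z t) =
        (W0 * W l) * ∫ u in x' l..x l, (u - z l) * kk u := by
      rw [mul_assoc]
      congr 1
      rw [← intervalIntegral.integral_const_mul]
      exact intervalIntegral.integral_congr fun u _ => e1 u
    rw [e2]
    have hcase : W0 * W l = 1 ∨ W0 * W l = -1 := by
      rcases hW0v with h | h <;> rcases hWv l with h' | h' <;> rw [h, h'] <;> norm_num
    rcases hcase with h | h
    · have hzl : z l = x' l := by simp only [hz]; rw [if_pos h]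
      rw [h, one_mul, hzl]
      exact int_left _ _ kk hku
    · have hzl : z l = x l := by
        simp only [hz]
        rw [if_neg]
        rw [h]
        norm_num
      rw [h, hzl]
      have h3 := int_right (x' l) (x l) kk hku
      have e3 : (fun u => (u - x l) * kk u) = fun u => -((x l - u) * kk u) := by
        funext u; ring
      rw [e3, intervalIntegral.integral_neg]
      linarith
  have hF : W0 * Lam S x x' (fun u => u ^ r * ∏ t ∈ S.erase l0, (u - z t)) =
      W0 * (∫ u in x' l0..x l0, u ^ r * ∏ t ∈ S.erase l0, (u - z t)) +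
        ∑ l ∈ S.erase l0, W0 * ∫ u in x' l..x l, u ^ r * ∏ t ∈ S.erase l0, (u - z t) := by
    unfold Lam
    rw [← add_sum_erase S _ hl0, mul_add, mul_sum]
  have hsum : 0 ≤ ∑ l ∈ S.erase l0, W0 * ∫ u in x' l..x l, u ^ r * ∏ t ∈ S.erase l0, (u - z t) :=
    sum_nonneg hterm
  have hb := Lam_bound S x x' z E (S.erase l0) r hS
  have habs : W0 * Lam S x x' (fun u => u ^ r * ∏ t ∈ S.erase l0, (u - z t)) ≤
      |Lam S x x' (fun u => u ^ r * ∏ t ∈ S.erase l0, (u - z t))| := by
    rcases hW0v with h | h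
    · rw [h, one_mul]; exact le_abs_self _
    · rw [h, neg_one_mul]; exact neg_le_abs _
  have hz1 : ∏ t ∈ S.erase l0, (1 + |z t|) ≤ (1 + B) ^ (S.erase l0).card := by
    rw [← prod_const]
    apply prod_le_prod (fun t _ => by positivity)
    intro t ht
    have htS := mem_of_mem_erase ht
    obtain ⟨h1, h2⟩ := hzI t htS
    have h3 := hlo t htS
    have h4 := hhi t htS
    rw [abs_of_nonneg (by linarith)]
    linarith
  calc (x l0 - x' l0) * A ^ r * c ^ (S.erase l0).card = (x l0 - x' l0) * (A ^ r * c ^ (S.erase l0).card) := by ring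
    _ ≤ W0 * Lam S x x' (fun u => u ^ r * ∏ t ∈ S.erase l0, (u - z t)) := by rw [hF]; linarith
    _ ≤ _ := habs
    _ ≤ _ := hb
    _ ≤ _ := mul_le_mul_of_nonneg_left hz1 hE

omit [LinearOrder ι] in
theorem Lam_pow (S : Finset ι) (x x' : ι → ℝ) (i : ℕ) :
    |Lam S x x' (fun u => u ^ i)| ≤ |∑ l ∈ S, (x l ^ (i + 1) - x' l ^ (i + 1))| := by
  unfold Lam
  have h : ∑ l ∈ S, ∫ u in x' l..x l, u ^ i = (∑ l ∈ S, (x l ^ (i + 1) - x' l ^ (i + 1))) / (i + 1) := by
    rw [sum_div]
    exact sum_congr rfl fun l _ => integral_pow i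
  rw [h, abs_div]
  have h1 : (1 : ℝ) ≤ |(i : ℝ) + 1| := by
    rw [abs_of_nonneg (by positivity)]
    have : (0 : ℝ) ≤ i := Nat.cast_nonneg i
    linarith
  exact div_le_self (abs_nonneg _) h1

/-- **The inequality for power sums.** -/
theorem vi (S : Finset ι) (l0 : ι) (hl0 : l0 ∈ S) (x x' lo hi : ι → ℝ) (A B c E : ℝ) (r : ℕ)
    (hA : 0 ≤ A) (hc : 0 ≤ c) (hE : 0 ≤ E)
    (hx : ∀ l ∈ S, lo l ≤ x l ∧ x l ≤ hi l) (hx' : ∀ l ∈ S, lo l ≤ x' l ∧ x' l ≤ hi l)
    (hlo : ∀ l ∈ S, A ≤ lo l) (hhi : ∀ l ∈ S, hi l ≤ B)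
    (hsep : ∀ l ∈ S, ∀ t ∈ S, l < t → hi l + c ≤ lo t)
    (hS : ∀ i, r ≤ i → i ≤ r + (S.erase l0).card → |∑ l ∈ S, (x l ^ (i + 1) - x' l ^ (i + 1))| ≤ E) :
    |x l0 - x' l0| * A ^ r * c ^ (S.erase l0).card ≤ E * (1 + B) ^ (S.erase l0).card := by
  rcases le_total (x' l0) (x l0) with h | h
  · rw [abs_of_nonneg (by linarith)]
    exact vi_aux S l0 hl0 x x' lo hi A B c E r hA hc hE hx hx' hlo hhi hsep
      (fun i h1 h2 => (Lam_pow S x x' i).trans (hS i h1 h2)) h
  · rw [abs_sub_comm, abs_of_nonneg (by linarith)]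
    refine vi_aux S l0 hl0 x' x lo hi A B c E r hA hc hE hx' hx hlo hhi hsep
      (fun i h1 h2 => (Lam_pow S x' x i).trans ?_) h
    have h3 := hS i h1 h2
    have e : ∑ l ∈ S, (x' l ^ (i + 1) - x l ^ (i + 1)) = -∑ l ∈ S, (x l ^ (i + 1) - x' l ^ (i + 1)) := by
      rw [← sum_neg_distrib]
      exact sum_congr rfl fun l _ => by ring
    rw [e, abs_neg]
    exact h3

end Pool.Agent.U914.WP
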