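import Mathlib
import Pool.Agent.U914.WP.VI

/-! Almost all polynomials in Waring's problem: the number of solutions of a system of inequalities. -/

set_option autoImplicit false

open Finset

namespace Pool.Agent.U914.WP

/-- the interval of the variable at the scale `Q` -/
def IQ (Q : ℕ) : Finset ℕ := Ico (Q + 1) (4 * Q + 1)

theorem mem_IQ (Q n : ℕ) : n ∈ IQ Q ↔ Q + 1 ≤ n ∧ n ≤ 4 * Q := by
  unfold IQ
  rw [mem_Ico]
  omega

theorem card_IQ (Q : ℕ) : (IQ Q).card = 3 * Q := by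
  unfold IQ
  rw [Nat.card_Ico]
  omega

/-- the box of the variables at the scales `8 ^ i P` -/
def box (k P : ℕ) : Finset (Fin k → ℕ) := Fintype.piFinset fun i => IQ (8 ^ (i : ℕ) * P)

/-- the power sum -/
noncomputable def ps (k j : ℕ) (x : Fin k → ℕ) : ℝ := ∑ i, (x i : ℝ) ^ j

theorem card_box_le (k P : ℕ) : ((box k P).card : ℝ) ≤ (3 * 8 ^ k * P) ^ k := by
  unfold box
  rw [Fintype.card_piFinset]
  push_cast
  calc ∏ i : Fin k, ((IQ (8 ^ (i : ℕ) * P)).card : ℝ) ≤ ∏ _i : Fin k, (3 * 8 ^ k * (P : ℝ)) := by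
        apply prod_le_prod (fun i _ => Nat.cast_nonneg _)
        intro i _
        rw [card_IQ]
        push_cast
        have h : (8 : ℝ) ^ (i : ℕ) ≤ 8 ^ k := pow_le_pow_right₀ (by norm_num) i.2.le
        have hP : (0 : ℝ) ≤ P := Nat.cast_nonneg P
        nlinarith [mul_le_mul_of_nonneg_right h hP]
    _ = _ := by simp

theorem card_le_diam (S : Finset ℕ) (R : ℝ) (hR : 0 ≤ R) (h : ∀ a ∈ S, ∀ b ∈ S, |(a : ℝ) - b| ≤ R) :
    (S.card : ℝ) ≤ 1 + R := by
  rcases S.eq_empty_or_nonempty with h0 | h0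
  · subst h0
    simp only [card_empty, Nat.cast_zero]
    linarith
  · have h1 : S ⊆ Icc (S.min' h0) (S.max' h0) := fun x hx => by
      rw [mem_Icc]
      exact ⟨S.min'_le x hx, S.le_max' x hx⟩
    have h2 := card_le_card h1
    rw [Nat.card_Icc] at h2
    have h3 : S.min' h0 ≤ S.max' h0 := S.min'_le _ (S.max'_mem h0)
    have h4 := h _ (S.max'_mem h0) _ (S.min'_mem h0)
    have h5 : (S.card : ℝ) + S.min' h0 ≤ S.max' h0 + 1 := by
      exact_mod_cast (by omega : S.card + S.min' h0 ≤ S.max' h0 + 1)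
    have h6 := le_abs_self ((S.max' h0 : ℝ) - S.min' h0)
    linarith

/-- the difference of a coordinate -/
theorem coord_diff (k r P : ℕ) (hr : r < k) (hP : 1 ≤ P) (E : ℝ) (hE : 0 ≤ E) (x x' : Fin k → ℕ)
    (hx : x ∈ box k P) (hx' : x' ∈ box k P) (hpre : ∀ i : Fin k, (i : ℕ) < r → x i = x' i)
    (hS : ∀ j, 1 ≤ j → j ≤ k → |ps k j x - ps k j x'| ≤ E) :
    |(x ⟨r, hr⟩ : ℝ) - x' ⟨r, hr⟩| ≤ (5 * 8 ^ k) ^ k * (E / (P : ℝ) ^ r) := by
  classical
  have hP0 : (1 : ℝ) ≤ P := by exact_mod_cast hP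
  have hPp : (0 : ℝ) < P := by linarith
  set l0 : Fin k := ⟨r, hr⟩ with hl0
  set S : Finset (Fin k) := univ.filter fun i => r ≤ (i : ℕ) with hSdef
  have hl0S : l0 ∈ S := by
    rw [hSdef, mem_filter]
    exact ⟨mem_univ _, le_rfl⟩
  have hcard : S.card ≤ k - r := by
    have h1 : S.card ≤ (Ico r k).card := by
      apply card_le_card_of_injOn (fun i : Fin k => (i : ℕ))
      · intro i hi
        have hi' : i ∈ S := hi
        rw [hSdef, mem_filter] at hi'
        rw [mem_coe, mem_Ico]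
        exact ⟨hi'.2, i.2⟩
      · intro i _ j _ hij
        exact Fin.ext hij
    rwa [Nat.card_Ico] at h1
  have hm : (S.erase l0).card + 1 ≤ k - r := by
    rw [card_erase_of_mem hl0S]
    have : 1 ≤ S.card := card_pos.2 ⟨l0, hl0S⟩
    omega
  have hb : ∀ (y : Fin k → ℕ), y ∈ box k P → ∀ l : Fin k, ((8 : ℝ) ^ (l : ℕ) * P ≤ y l) ∧
      ((y l : ℝ) ≤ 4 * (8 ^ (l : ℕ) * P)) := by
    intro y hy l
    unfold box at hy
    rw [Fintype.mem_piFinset] at hy
    have h1 := (mem_IQ _ _).1 (hy l)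
    constructor
    · have h2 : ((8 ^ (l : ℕ) * P + 1 : ℕ) : ℝ) ≤ (y l : ℝ) := by exact_mod_cast h1.1
      push_cast at h2
      linarith
    · exact_mod_cast h1.2
  have key := vi S l0 hl0S (fun i => (x i : ℝ)) (fun i => (x' i : ℝ)) (fun i => (8 : ℝ) ^ (i : ℕ) * P)
    (fun i => 4 * ((8 : ℝ) ^ (i : ℕ) * P)) P (4 * (8 ^ k * P)) P E r hPp.le hPp.le hE
    (fun l _ => hb x hx l) (fun l _ => hb x' hx' l) ?_ ?_ ?_ ?_
  · set m := (S.erase l0).card with hmdef
    have h1 : (1 + 4 * (8 ^ k * (P : ℝ))) ^ m ≤ (5 * 8 ^ k * P) ^ m := by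
      apply pow_le_pow_left₀ (by positivity)
      have h2 : (1 : ℝ) ≤ 8 ^ k * P := one_le_mul_of_one_le_of_one_le (one_le_pow₀ (by norm_num)) hP0
      linarith
    have h3 : ((5 : ℝ) * 8 ^ k) ^ m ≤ (5 * 8 ^ k) ^ k := by
      apply pow_le_pow_right₀ _ (by omega)
      have : (1 : ℝ) ≤ 8 ^ k := one_le_pow₀ (by norm_num)
      linarith
    have h4 : |(x l0 : ℝ) - x' l0| * (P : ℝ) ^ r * (P : ℝ) ^ m ≤ E * (5 * 8 ^ k) ^ k * (P : ℝ) ^ m := by
      refine key.trans ?_
      calc E * (1 + 4 * (8 ^ k * (P : ℝ))) ^ m ≤ E * (5 * 8 ^ k * P) ^ m := mul_le_mul_of_nonneg_left h1 hE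
        _ = E * (5 * 8 ^ k) ^ m * (P : ℝ) ^ m := by rw [mul_pow _ (P : ℝ)]; ring
        _ ≤ E * (5 * 8 ^ k) ^ k * (P : ℝ) ^ m := by
            apply mul_le_mul_of_nonneg_right _ (by positivity)
            exact mul_le_mul_of_nonneg_left h3 hE
    have h5 : |(x l0 : ℝ) - x' l0| * (P : ℝ) ^ r ≤ E * (5 * 8 ^ k) ^ k :=
      le_of_mul_le_mul_right h4 (by positivity)
    rw [← mul_div_assoc, le_div_iff₀ (by positivity)]
    linarith
  · intro l _
    have : (1 : ℝ) ≤ 8 ^ (l : ℕ) := one_le_pow₀ (by norm_num)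
    show (P : ℝ) ≤ 8 ^ (l : ℕ) * P
    nlinarith
  · intro l _
    have : (8 : ℝ) ^ (l : ℕ) ≤ 8 ^ k := pow_le_pow_right₀ (by norm_num) l.2.le
    show 4 * ((8 : ℝ) ^ (l : ℕ) * P) ≤ 4 * (8 ^ k * P)
    nlinarith [mul_le_mul_of_nonneg_right this hPp.le]
  · intro l _ t _ hlt
    show 4 * ((8 : ℝ) ^ (l : ℕ) * P) + P ≤ (8 : ℝ) ^ (t : ℕ) * P
    have h1 : (8 : ℝ) ^ ((l : ℕ) + 1) ≤ 8 ^ (t : ℕ) := pow_le_pow_right₀ (by norm_num) (by exact_mod_cast hlt)
    have h2 : (1 : ℝ) ≤ 8 ^ (l : ℕ) := one_le_pow₀ (by norm_num)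
    rw [pow_succ] at h1
    have h3 := mul_le_mul_of_nonneg_right h1 hPp.le
    have h4 := mul_le_mul_of_nonneg_right h2 hPp.le
    nlinarith
  · intro i hi1 hi2
    have h1 : ∑ l ∈ S, ((x l : ℝ) ^ (i + 1) - (x' l : ℝ) ^ (i + 1)) = ps k (i + 1) x - ps k (i + 1) x' := by
      unfold ps
      rw [← sum_sub_distrib]
      apply sum_subset (subset_univ S)
      intro l _ hl
      have h2 : (l : ℕ) < r := by
        by_contra hcon
        apply hl
        rw [hSdef, mem_filter]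
        exact ⟨mem_univ _, not_lt.1 hcon⟩
      rw [hpre l h2, sub_self]
    rw [h1]
    exact hS (i + 1) (by omega) (by omega)

/-- **The counting lemma**, for solutions with a common beginning. -/
theorem cl_aux (k : ℕ) : ∀ n ≤ k, ∃ C : ℝ, 1 ≤ C ∧ ∀ P : ℕ, 1 ≤ P → ∀ E : ℝ, 0 ≤ E → ∀ V ⊆ box k P,
    (∀ x ∈ V, ∀ x' ∈ V, ∀ i : Fin k, (i : ℕ) < k - n → x i = x' i) →
    (∀ x ∈ V, ∀ x' ∈ V, ∀ j, 1 ≤ j → j ≤ k → |ps k j x - ps k j x'| ≤ E) →
    (V.card : ℝ) ≤ C * max 1 (E / (P : ℝ) ^ (k - n)) := by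
  classical
  intro n
  induction n with
  | zero =>
    intro _
    refine ⟨1, le_rfl, fun P _ E _ V _ hpre _ => ?_⟩
    have h1 : V.card ≤ 1 := by
      rw [card_le_one]
      intro x hx x' hx'
      funext i
      exact hpre x hx x' hx' i (by have := i.2; omega)
    rw [one_mul]
    calc (V.card : ℝ) ≤ 1 := by exact_mod_cast h1
      _ ≤ _ := le_max_left _ _
  | succ n ih =>
    intro hn
    obtain ⟨C, hC, hI⟩ := ih (by omega)
    have hC0 : 0 < C := by linarith
    set K : ℝ := (5 * 8 ^ k) ^ k with hK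
    have hKp : 0 < K := by positivity
    refine ⟨C * (3 * 8 ^ k + 1 + K), ?_, fun P hP E hE V hV hpre hS => ?_⟩
    · have h8 : (1 : ℝ) ≤ 8 ^ k := one_le_pow₀ (by norm_num)
      calc (1 : ℝ) ≤ C := hC
        _ = C * 1 := (mul_one C).symm
        _ ≤ _ := mul_le_mul_of_nonneg_left (by linarith) hC0.le
    have hP0 : (1 : ℝ) ≤ P := by exact_mod_cast hP
    have hPp : (0 : ℝ) < P := by linarith
    set r := k - (n + 1) with hr
    have hrk : r < k := by omega
    have hr1 : k - n = r + 1 := by omega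
    rw [hr1] at hI
    set l0 : Fin k := ⟨r, hrk⟩ with hl0
    -- the fibres
    have hfib : ∀ b ∈ V.image (fun x => x l0), ((V.filter fun x => x l0 = b).card : ℝ) ≤
        C * max 1 (E / (P : ℝ) ^ (r + 1)) := by
      intro b _
      apply hI P hP E hE _ ((filter_subset _ _).trans hV)
      · intro x hx x' hx' i hi
        rw [mem_filter] at hx hx'
        rcases Nat.lt_succ_iff_lt_or_eq.1 hi with h | h
        · exact hpre x hx.1 x' hx'.1 i h
        · have : i = l0 := Fin.ext h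
          rw [this, hx.2, hx'.2]
      · intro x hx x' hx' j h1 h2
        rw [mem_filter] at hx hx'
        exact hS x hx.1 x' hx'.1 j h1 h2
    have hcard : (V.card : ℝ) ≤ (V.image (fun x => x l0)).card * (C * max 1 (E / (P : ℝ) ^ (r + 1))) := by
      rw [card_eq_sum_card_image (fun x => x l0) V]
      push_cast
      calc _ ≤ ∑ _b ∈ V.image (fun x => x l0), C * max 1 (E / (P : ℝ) ^ (r + 1)) := sum_le_sum hfib
        _ = _ := by rw [sum_const, nsmul_eq_mul]
    -- the image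
    have him1 : ((V.image (fun x => x l0)).card : ℝ) ≤ 3 * 8 ^ k * P := by
      have h1 : V.image (fun x => x l0) ⊆ IQ (8 ^ r * P) := by
        intro b hb
        rw [mem_image] at hb
        obtain ⟨x, hx, rfl⟩ := hb
        have h2 := hV hx
        unfold box at h2
        rw [Fintype.mem_piFinset] at h2
        exact h2 l0
      have h2 := card_le_card h1
      rw [card_IQ] at h2
      have h3 : ((V.image (fun x => x l0)).card : ℝ) ≤ 3 * (8 ^ r * P) := by exact_mod_cast h2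
      have h4 : (8 : ℝ) ^ r ≤ 8 ^ k := pow_le_pow_right₀ (by norm_num) hrk.le
      nlinarith [mul_le_mul_of_nonneg_right h4 hPp.le]
    have him2 : ((V.image (fun x => x l0)).card : ℝ) ≤ 1 + K * (E / (P : ℝ) ^ r) := by
      apply card_le_diam _ _ (by positivity)
      intro b hb b' hb'
      rw [mem_image] at hb hb'
      obtain ⟨x, hx, rfl⟩ := hb
      obtain ⟨x', hx', rfl⟩ := hb'
      exact coord_diff k r P hrk hP E hE x x' (hV hx) (hV hx') (hpre x hx x' hx')
        (hS x hx x' hx')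
    have hmax0 : (1 : ℝ) ≤ max 1 (E / (P : ℝ) ^ r) := le_max_left _ _
    have hmax1 : E / (P : ℝ) ^ r ≤ max 1 (E / (P : ℝ) ^ r) := le_max_right _ _
    rcases le_total ((P : ℝ) ^ (r + 1)) E with h | h
    · have h1 : max 1 (E / (P : ℝ) ^ (r + 1)) = E / (P : ℝ) ^ (r + 1) :=
        max_eq_right (by rw [le_div_iff₀ (by positivity)]; linarith)
      rw [h1] at hcard
      calc (V.card : ℝ) ≤ (V.image (fun x => x l0)).card * (C * (E / (P : ℝ) ^ (r + 1))) := hcard
        _ ≤ (3 * 8 ^ k * P) * (C * (E / (P : ℝ) ^ (r + 1))) :=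
            mul_le_mul_of_nonneg_right him1 (by positivity)
        _ = C * (3 * 8 ^ k) * (E / (P : ℝ) ^ r) := by rw [pow_succ]; field_simp
        _ ≤ C * (3 * 8 ^ k + 1 + K) * max 1 (E / (P : ℝ) ^ r) := by
            apply mul_le_mul _ hmax1 (by positivity) (by positivity)
            exact mul_le_mul_of_nonneg_left (by linarith) hC0.le
    · have h1 : max 1 (E / (P : ℝ) ^ (r + 1)) = 1 :=
        max_eq_left (by rw [div_le_iff₀ (by positivity)]; linarith)
      rw [h1, mul_one] at hcard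
      calc (V.card : ℝ) ≤ (V.image (fun x => x l0)).card * C := hcard
        _ ≤ (1 + K * (E / (P : ℝ) ^ r)) * C := mul_le_mul_of_nonneg_right him2 hC0.le
        _ ≤ (max 1 (E / (P : ℝ) ^ r) + K * max 1 (E / (P : ℝ) ^ r)) * C := by
            apply mul_le_mul_of_nonneg_right _ hC0.le
            exact add_le_add hmax0 (mul_le_mul_of_nonneg_left hmax1 hKp.le)
        _ = C * (1 + K) * max 1 (E / (P : ℝ) ^ r) := by ring
        _ ≤ C * (3 * 8 ^ k + 1 + K) * max 1 (E / (P : ℝ) ^ r) := by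
            apply mul_le_mul_of_nonneg_right _ (by positivity)
            apply mul_le_mul_of_nonneg_left _ hC0.le
            have : (0 : ℝ) < 3 * 8 ^ k := by positivity
            linarith

/-- **The counting lemma.** -/
theorem cl (k : ℕ) : ∃ C : ℝ, 1 ≤ C ∧ ∀ P : ℕ, 1 ≤ P → ∀ E : ℝ, 1 ≤ E → ∀ V ⊆ box k P,
    (∀ x ∈ V, ∀ x' ∈ V, ∀ j, 1 ≤ j → j ≤ k → |ps k j x - ps k j x'| ≤ E) →
    (V.card : ℝ) ≤ C * E := by
  obtain ⟨C, hC, h⟩ := cl_aux k k le_rfl
  refine ⟨C, hC, fun P hP E hE V hV hS => ?_⟩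
  have h1 := h P hP E (by linarith) V hV (fun x _ x' _ i hi => by omega) hS
  rw [Nat.sub_self, pow_zero, div_one, max_eq_right hE] at h1
  exact h1

end Pool.Agent.U914.WP
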