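import Mathlib
import Pool.Agent.U914.WP.CL

/-! Almost all polynomials in Waring's problem: the counting lemma for separated intervals of any length. -/

set_option autoImplicit false

open Finset

namespace Pool.Agent.U914.WP

/-- the box with the sides `(lo i, lo i + L]` -/
def sbx (k : ℕ) (lo : Fin k → ℕ) (L : ℕ) : Finset (Fin k → ℕ) := Fintype.piFinset fun i => Ioc (lo i) (lo i + L)

theorem mem_sbx {k : ℕ} {lo : Fin k → ℕ} {L : ℕ} {x : Fin k → ℕ} :
    x ∈ sbx k lo L ↔ ∀ i, lo i < x i ∧ x i ≤ lo i + L := by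
  unfold sbx
  rw [Fintype.mem_piFinset]
  simp only [mem_Ioc]

theorem card_sbx (k : ℕ) (lo : Fin k → ℕ) (L : ℕ) : (sbx k lo L).card = L ^ k := by
  unfold sbx
  rw [Fintype.card_piFinset]
  simp

/-- the sides are separated and of size `M` -/
def Sepd (k : ℕ) (lo : Fin k → ℕ) (L M : ℕ) : Prop :=
  1 ≤ L ∧ L ≤ M ∧ (∀ i, M ≤ lo i ∧ lo i + L ≤ 2 * M) ∧ ∀ i j, i < j → lo i + 2 * L ≤ lo j

/-- the difference of a coordinate -/
theorem coord_diff2 (k r L M : ℕ) (lo : Fin k → ℕ) (hsep : Sepd k lo L M) (hr : r < k) (E : ℝ) (hE : 0 ≤ E)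
    (x x' : Fin k → ℕ) (hx : x ∈ sbx k lo L) (hx' : x' ∈ sbx k lo L) (hpre : ∀ i : Fin k, (i : ℕ) < r → x i = x' i)
    (hS : ∀ j, 1 ≤ j → j ≤ k → |ps k j x - ps k j x'| ≤ E) :
    |(x ⟨r, hr⟩ : ℝ) - x' ⟨r, hr⟩| ≤ 3 ^ k * (E * ((M : ℝ) / L) ^ (k - r - 1) / (M : ℝ) ^ r) := by
  classical
  obtain ⟨hL1, hLM, hlo, hgap⟩ := hsep
  have hL0 : (0 : ℝ) < L := by exact_mod_cast hL1
  have hM1 : (1 : ℝ) ≤ M := by exact_mod_cast hL1.trans hLM
  have hMp : (0 : ℝ) < M := by linarith
  have hLMr : (L : ℝ) ≤ M := by exact_mod_cast hLM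
  set l0 : Fin k := ⟨r, hr⟩ with hl0
  set S : Finset (Fin k) := univ.filter fun i => r ≤ (i : ℕ) with hSdef
  have hl0S : l0 ∈ S := by
    rw [hSdef, mem_filter]
    exact ⟨mem_univ _, le_rfl⟩
  have hcard : S.card ≤ k - r := by
    have h1 : S.card ≤ (Ico r k).card := by
      apply card_le_card_of_injOn (fun i : Fin k => (i : ℕ))
      · intro i hi
        have hi' : i ∈ S := hi
        rw [hSdef, mem_filter] at hi'
        rw [mem_coe, mem_Ico]
        exact ⟨hi'.2, i.2⟩
      · intro i _ j _ hij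
        exact Fin.ext hij
    rwa [Nat.card_Ico] at h1
  have hm : (S.erase l0).card + 1 ≤ k - r := by
    rw [card_erase_of_mem hl0S]
    have : 1 ≤ S.card := card_pos.2 ⟨l0, hl0S⟩
    omega
  have hb : ∀ (y : Fin k → ℕ), y ∈ sbx k lo L → ∀ l : Fin k, ((lo l : ℝ) ≤ y l) ∧ ((y l : ℝ) ≤ lo l + L) := by
    intro y hy l
    have h1 := (mem_sbx.1 hy) l
    constructor
    · exact_mod_cast h1.1.le
    · exact_mod_cast h1.2
  have key := vi S l0 hl0S (fun i => (x i : ℝ)) (fun i => (x' i : ℝ)) (fun i => (lo i : ℝ))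
    (fun i => (lo i : ℝ) + L) M (2 * M) L E r hMp.le hL0.le hE
    (fun l _ => hb x hx l) (fun l _ => hb x' hx' l) ?_ ?_ ?_ ?_
  · set m := (S.erase l0).card with hmdef
    have h1 : (1 + 2 * (M : ℝ)) ^ m ≤ (3 * M) ^ m := by
      apply pow_le_pow_left₀ (by positivity)
      linarith
    have h3 : (3 : ℝ) ^ m ≤ 3 ^ k := pow_le_pow_right₀ (by norm_num) (by omega)
    have h4 : |(x l0 : ℝ) - x' l0| * (M : ℝ) ^ r * (L : ℝ) ^ m ≤ E * (3 ^ k * (M : ℝ) ^ m) := by
      refine key.trans ?_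
      calc E * (1 + 2 * (M : ℝ)) ^ m ≤ E * (3 * M) ^ m := mul_le_mul_of_nonneg_left h1 hE
        _ = E * (3 ^ m * (M : ℝ) ^ m) := by rw [mul_pow]
        _ ≤ _ := by
            apply mul_le_mul_of_nonneg_left _ hE
            exact mul_le_mul_of_nonneg_right h3 (by positivity)
    have h5 : |(x l0 : ℝ) - x' l0| ≤ 3 ^ k * (E * ((M : ℝ) / L) ^ m / (M : ℝ) ^ r) := by
      have e : 3 ^ k * (E * ((M : ℝ) / L) ^ m / (M : ℝ) ^ r) = E * (3 ^ k * (M : ℝ) ^ m) / ((M : ℝ) ^ r * (L : ℝ) ^ m) := by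
        rw [div_pow]
        field_simp
      rw [e, le_div_iff₀ (by positivity), ← mul_assoc]
      exact h4
    refine h5.trans ?_
    apply mul_le_mul_of_nonneg_left _ (by positivity)
    apply div_le_div_of_nonneg_right _ (by positivity)
    apply mul_le_mul_of_nonneg_left _ hE
    apply pow_le_pow_right₀ _ (by omega)
    rw [le_div_iff₀ hL0]
    linarith
  · intro l _
    have := (hlo l).1
    show (M : ℝ) ≤ lo l
    exact_mod_cast this
  · intro l _
    have := (hlo l).2
    show (lo l : ℝ) + L ≤ 2 * M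
    exact_mod_cast this
  · intro l _ t _ hlt
    have := hgap l t hlt
    show (lo l : ℝ) + L + L ≤ lo t
    have h1 : ((lo l + 2 * L : ℕ) : ℝ) ≤ lo t := by exact_mod_cast this
    push_cast at h1
    linarith
  · intro i hi1 hi2
    have h1 : ∑ l ∈ S, ((x l : ℝ) ^ (i + 1) - (x' l : ℝ) ^ (i + 1)) = ps k (i + 1) x - ps k (i + 1) x' := by
      unfold ps
      rw [← sum_sub_distrib]
      apply sum_subset (subset_univ S)
      intro l _ hl
      have h2 : (l : ℕ) < r := by
        by_contra hcon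
        apply hl
        rw [hSdef, mem_filter]
        exact ⟨mem_univ _, not_lt.1 hcon⟩
      rw [hpre l h2, sub_self]
    rw [h1]
    exact hS (i + 1) (by omega) (by omega)

/-- **The counting lemma**, for solutions with a common beginning. -/
theorem cl2_aux (k : ℕ) : ∀ n ≤ k, ∃ C : ℝ, 1 ≤ C ∧ ∀ (L M : ℕ) (lo : Fin k → ℕ), Sepd k lo L M → ∀ E : ℝ, 0 ≤ E →
    ∀ V ⊆ sbx k lo L, (∀ x ∈ V, ∀ x' ∈ V, ∀ i : Fin k, (i : ℕ) < k - n → x i = x' i) →
    (∀ x ∈ V, ∀ x' ∈ V, ∀ j, 1 ≤ j → j ≤ k → |ps k j x - ps k j x'| ≤ E) →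
    (V.card : ℝ) ≤ C * max 1 (E * ((M : ℝ) / L) ^ (n - 1) / (M : ℝ) ^ (k - n)) := by
  classical
  intro n
  induction n with
  | zero =>
    intro _
    refine ⟨1, le_rfl, fun L M lo _ E _ V _ hpre _ => ?_⟩
    have h1 : V.card ≤ 1 := by
      rw [card_le_one]
      intro x hx x' hx'
      funext i
      exact hpre x hx x' hx' i (by have := i.2; omega)
    rw [one_mul]
    calc (V.card : ℝ) ≤ 1 := by exact_mod_cast h1
      _ ≤ _ := le_max_left _ _
  | succ n ih =>
    intro hn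
    obtain ⟨C, hC, hI⟩ := ih (by omega)
    have hC0 : 0 < C := by linarith
    refine ⟨C * (2 + 3 ^ k), ?_, fun L M lo hsep E hE V hV hpre hS => ?_⟩
    · calc (1 : ℝ) ≤ C := hC
        _ = C * 1 := (mul_one C).symm
        _ ≤ _ := mul_le_mul_of_nonneg_left (by
          have : (0 : ℝ) < 3 ^ k := by positivity
          linarith) hC0.le
    have hsep' := hsep
    obtain ⟨hL1, hLM, hlo, hgap⟩ := hsep'
    have hL0 : (0 : ℝ) < L := by exact_mod_cast hL1
    have hM1 : (1 : ℝ) ≤ M := by exact_mod_cast hL1.trans hLM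
    have hMp : (0 : ℝ) < M := by linarith
    have hLMr : (L : ℝ) ≤ M := by exact_mod_cast hLM
    set lam : ℝ := (M : ℝ) / L with hlam
    have hlam1 : 1 ≤ lam := by rw [hlam, le_div_iff₀ hL0]; linarith
    have hlam0 : 0 < lam := by linarith
    set r := k - (n + 1) with hr
    have hrk : r < k := by omega
    have hr1 : k - n = r + 1 := by omega
    rw [hr1] at hI
    set l0 : Fin k := ⟨r, hrk⟩ with hl0
    set F : ℝ := E * lam ^ (n - 1) / (M : ℝ) ^ (r + 1) with hF
    -- the fibres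
    have hfib : ∀ b ∈ V.image (fun x => x l0), ((V.filter fun x => x l0 = b).card : ℝ) ≤ C * max 1 F := by
      intro b _
      apply hI L M lo hsep E hE _ ((filter_subset _ _).trans hV)
      · intro x hx x' hx' i hi
        rw [mem_filter] at hx hx'
        rcases Nat.lt_succ_iff_lt_or_eq.1 hi with h | h
        · exact hpre x hx.1 x' hx'.1 i h
        · have : i = l0 := Fin.ext h
          rw [this, hx.2, hx'.2]
      · intro x hx x' hx' j h1 h2
        rw [mem_filter] at hx hx'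
        exact hS x hx.1 x' hx'.1 j h1 h2
    have hcard : (V.card : ℝ) ≤ (V.image (fun x => x l0)).card * (C * max 1 F) := by
      rw [card_eq_sum_card_image (fun x => x l0) V]
      push_cast
      calc _ ≤ ∑ _b ∈ V.image (fun x => x l0), C * max 1 F := sum_le_sum hfib
        _ = _ := by rw [sum_const, nsmul_eq_mul]
    -- the image
    have him1 : ((V.image (fun x => x l0)).card : ℝ) ≤ L := by
      have h1 : V.image (fun x => x l0) ⊆ Ioc (lo l0) (lo l0 + L) := by
        intro b hb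
        rw [mem_image] at hb
        obtain ⟨x, hx, rfl⟩ := hb
        rw [mem_Ioc]
        exact (mem_sbx.1 (hV hx)) l0
      have h2 := card_le_card h1
      rw [Nat.card_Ioc, Nat.add_sub_cancel_left] at h2
      exact_mod_cast h2
    have hkr : k - r - 1 = n := by omega
    have him2 : ((V.image (fun x => x l0)).card : ℝ) ≤ 1 + 3 ^ k * (E * lam ^ n / (M : ℝ) ^ r) := by
      apply card_le_diam _ _ (by positivity)
      intro b hb b' hb'
      rw [mem_image] at hb hb'
      obtain ⟨x, hx, rfl⟩ := hb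
      obtain ⟨x', hx', rfl⟩ := hb'
      have := coord_diff2 k r L M lo hsep hrk E hE x x' (hV hx) (hV hx') (hpre x hx x' hx') (hS x hx x' hx')
      rw [hkr] at this
      exact this
    have e1 : n + 1 - 1 = n := by omega
    rw [e1]
    set Gq : ℝ := E * lam ^ n / (M : ℝ) ^ r with hGq
    have hG0 : 0 ≤ Gq := by positivity
    have hmax0 : (1 : ℝ) ≤ max 1 Gq := le_max_left _ _
    have hmax1 : Gq ≤ max 1 Gq := le_max_right _ _
    have h3k : (0 : ℝ) < 3 ^ k := by positivity
    rcases le_total 1 F with h | h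
    · rw [max_eq_right h] at hcard
      have hF0 : 0 ≤ F := by linarith
      have hLF : L * F ≤ Gq := by
        have e2 : L * F = E * lam ^ (n - 1) / (M : ℝ) ^ r * (L / M) := by
          rw [hF, pow_succ]
          field_simp
        have h4 : (L : ℝ) / M ≤ 1 := by rw [div_le_one hMp]; exact hLMr
        have h5 : E * lam ^ (n - 1) / (M : ℝ) ^ r ≤ Gq := by
          rw [hGq]
          apply div_le_div_of_nonneg_right _ (by positivity)
          apply mul_le_mul_of_nonneg_left _ hE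
          exact pow_le_pow_right₀ hlam1 (by omega)
        calc L * F = E * lam ^ (n - 1) / (M : ℝ) ^ r * (L / M) := e2
          _ ≤ E * lam ^ (n - 1) / (M : ℝ) ^ r * 1 := mul_le_mul_of_nonneg_left h4 (by positivity)
          _ ≤ Gq := by rw [mul_one]; exact h5
      calc (V.card : ℝ) ≤ (V.image (fun x => x l0)).card * (C * F) := hcard
        _ ≤ L * (C * F) := mul_le_mul_of_nonneg_right him1 (by positivity)
        _ = C * (L * F) := by ring
        _ ≤ C * Gq := mul_le_mul_of_nonneg_left hLF hC0.le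
        _ ≤ C * max 1 Gq := mul_le_mul_of_nonneg_left hmax1 hC0.le
        _ = C * 1 * max 1 Gq := by ring
        _ ≤ C * (2 + 3 ^ k) * max 1 Gq := by
            apply mul_le_mul_of_nonneg_right _ (by positivity)
            exact mul_le_mul_of_nonneg_left (by linarith) hC0.le
    · rw [max_eq_left h, mul_one] at hcard
      calc (V.card : ℝ) ≤ (V.image (fun x => x l0)).card * C := hcard
        _ ≤ (1 + 3 ^ k * Gq) * C := mul_le_mul_of_nonneg_right him2 hC0.le
        _ ≤ (max 1 Gq + 3 ^ k * max 1 Gq) * C := by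
            apply mul_le_mul_of_nonneg_right _ hC0.le
            exact add_le_add hmax0 (mul_le_mul_of_nonneg_left hmax1 h3k.le)
        _ = C * (1 + 3 ^ k) * max 1 Gq := by ring
        _ ≤ C * (2 + 3 ^ k) * max 1 Gq := by
            apply mul_le_mul_of_nonneg_right _ (by positivity)
            exact mul_le_mul_of_nonneg_left (by linarith) hC0.le

/-- **The counting lemma.** -/
theorem cl2 (k : ℕ) : ∃ C : ℝ, 1 ≤ C ∧ ∀ (L M : ℕ) (lo : Fin k → ℕ), Sepd k lo L M → ∀ E : ℝ, 1 ≤ E →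
    ∀ V ⊆ sbx k lo L, (∀ x ∈ V, ∀ x' ∈ V, ∀ j, 1 ≤ j → j ≤ k → |ps k j x - ps k j x'| ≤ E) →
    (V.card : ℝ) ≤ C * ((M : ℝ) / L) ^ (k - 1) * E := by
  obtain ⟨C, hC, h⟩ := cl2_aux k k le_rfl
  refine ⟨C, hC, fun L M lo hsep E hE V hV hS => ?_⟩
  have h1 := h L M lo hsep E (by linarith) V hV (fun x _ x' _ i hi => by omega) hS
  obtain ⟨hL1, hLM, -, -⟩ := hsep
  have hL0 : (0 : ℝ) < L := by exact_mod_cast hL1
  have hlam1 : 1 ≤ (M : ℝ) / L := by
    rw [le_div_iff₀ hL0, one_mul]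
    exact_mod_cast hLM
  rw [Nat.sub_self, pow_zero, div_one, max_eq_right (one_le_mul_of_one_le_of_one_le hE (one_le_pow₀ hlam1))] at h1
  calc (V.card : ℝ) ≤ C * (E * ((M : ℝ) / L) ^ (k - 1)) := h1
    _ = _ := by ring

end Pool.Agent.U914.WP
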