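import Mathlib
import Pool.Agent.U914.WP.CL
import Pool.Agent.U518.WS.G

/-! Almost all polynomials in Waring's problem: averages of Gaussian kernels. -/

set_option autoImplicit false

open Finset MeasureTheory Complex
open Pool.Agent.U518.WS (ee norm_ee ee_add ee_sub ee_sum ee_neg ee_zero continuous_ee gg gg_fourier gauss_int m1 ms gg_nonneg)

namespace Pool.Agent.U914.WP

/-- the mean square of an exponential sum with respect to a Gaussian -/
theorem mean_fourier {ι : Type*} (V : Finset ι) (y : ι → ℝ) (ρ : ℝ) (hρ : 0 < ρ) :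
    ∫⁻ β : ℝ, ENNReal.ofReal (Real.exp (-Real.pi * (ρ * β) ^ 2) * ‖∑ n ∈ V, ee (β * y n)‖ ^ 2) =
      ENNReal.ofReal (∑ n ∈ V, ∑ m ∈ V, gg ρ (y n - y m)) := by
  set f : ℝ → ℝ := fun β => Real.exp (-Real.pi * (ρ * β) ^ 2) * ‖∑ n ∈ V, ee (β * y n)‖ ^ 2 with hf
  have h1 : ∀ β, ((f β : ℝ) : ℂ) = ∑ n ∈ V, ∑ m ∈ V,
      ((Real.exp (-Real.pi * (ρ * β) ^ 2) : ℝ) : ℂ) * ee (β * (y n - y m)) := by
    intro β
    rw [hf]
    simp only
    rw [Complex.ofReal_mul, Complex.ofReal_pow, ← Complex.mul_conj', map_sum, sum_mul_sum, mul_sum]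
    apply sum_congr rfl
    intro n _
    rw [mul_sum]
    apply sum_congr rfl
    intro m _
    rw [← ee_sub]
    congr 2
    ring
  have hint : Integrable fun β => ((f β : ℝ) : ℂ) := by
    rw [funext h1]
    exact integrable_finsetSum _ fun n _ => integrable_finsetSum _ fun m _ => gauss_int ρ _ hρ
  have hint' : Integrable f := by
    have := hint.re
    simpa using this
  have h2 : ((∫ β, f β : ℝ) : ℂ) = ((∑ n ∈ V, ∑ m ∈ V, gg ρ (y n - y m) : ℝ) : ℂ) := by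
    rw [← integral_complex_ofReal, integral_congr_ae (Filter.Eventually.of_forall h1)]
    rw [integral_finsetSum _ fun n _ => integrable_finsetSum _ fun m _ => gauss_int ρ _ hρ]
    rw [Complex.ofReal_sum]
    apply sum_congr rfl
    intro n _
    rw [Complex.ofReal_sum, integral_finsetSum _ fun m _ => gauss_int ρ _ hρ]
    apply sum_congr rfl
    intro m _
    rw [gg_fourier ρ _ hρ]
  have h3 : ∫ β, f β = ∑ n ∈ V, ∑ m ∈ V, gg ρ (y n - y m) := by exact_mod_cast h2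
  rw [← h3, ofReal_integral_eq_lintegral_ofReal hint' (Filter.Eventually.of_forall fun β => by
    rw [hf]; positivity)]

theorem gg_cont (ρ : ℝ) : Continuous (gg ρ) := by
  unfold gg
  fun_prop

/-- the integral of the kernel along a line -/
theorem gg_line (ρ : ℝ) (hρ : 0 < ρ) (A v : ℝ) (hv : v ≠ 0) :
    ∫⁻ u, ENNReal.ofReal (gg ρ (A + u * v)) ∂m1 ≤ ENNReal.ofReal (1 / |v|) := by
  have hpi := Real.pi_pos
  have hv' : 0 < |v| := abs_pos.2 hv
  have h1 : ∫⁻ u, ENNReal.ofReal (gg ρ (A + u * v)) ∂m1 ≤ ∫⁻ u, ENNReal.ofReal (gg ρ (A + u * v)) :=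
    lintegral_mono' Measure.restrict_le_self le_rfl
  refine h1.trans (le_of_eq ?_)
  have hb : 0 < Real.pi * (v / ρ) ^ 2 := by positivity
  have e : ∀ u, gg ρ (A + u * v) = (1 / ρ) * Real.exp (-(Real.pi * (v / ρ) ^ 2) * (u + A / v) ^ 2) := by
    intro u
    unfold gg
    congr 2
    field_simp
    ring
  have hint : Integrable fun u => gg ρ (A + u * v) := by
    rw [funext e]
    exact ((integrable_exp_neg_mul_sq hb).comp_add_right (A / v)).const_mul _
  rw [← ofReal_integral_eq_lintegral_ofReal hint (Filter.Eventually.of_forall fun u => gg_nonneg ρ _ hρ)]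
  congr 1
  rw [funext e, integral_const_mul, integral_add_right_eq_self (fun u => Real.exp (-(Real.pi * (v / ρ) ^ 2) * u ^ 2)),
    integral_gaussian]
  have h5 : Real.pi / (Real.pi * (v / ρ) ^ 2) = (ρ / |v|) ^ 2 := by
    rw [div_pow ρ, sq_abs]
    field_simp
  rw [h5, Real.sqrt_sq (by positivity)]
  field_simp

/-- the average of the kernel, one coordinate -/
theorem avg_gg (d : ℕ) (ρ : ℝ) (hρ : 0 < ρ) (A : ℝ) (v : Fin d → ℝ) (j : Fin d) (hv : v j ≠ 0) :
    ∫⁻ t, ENNReal.ofReal (gg ρ (A + ∑ i, t i * v i)) ∂(ms d) ≤ ENNReal.ofReal (1 / |v j|) := by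
  obtain ⟨n, rfl⟩ : ∃ n, d = n + 1 := ⟨d - 1, by have := j.2; omega⟩
  have hmeas : Measurable fun t : Fin (n + 1) → ℝ => ENNReal.ofReal (gg ρ (A + ∑ i, t i * v i)) := by
    apply Continuous.measurable
    apply ENNReal.continuous_ofReal.comp
    apply (gg_cont ρ).comp
    fun_prop
  have hmp := (measurePreserving_piFinSuccAbove (fun _ : Fin (n + 1) => m1) j).symm
  rw [← hmp.lintegral_comp hmeas]
  rw [lintegral_prod_symm' (μ := m1) (ν := Measure.pi fun _ => m1) (fun z : ℝ × (Fin n → ℝ) =>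
    ENNReal.ofReal (gg ρ (A + ∑ i, (MeasurableEquiv.piFinSuccAbove (fun _ : Fin (n + 1) => ℝ) j).symm z i * v i)))
    (hmeas.comp hmp.measurable)]
  calc _ ≤ ∫⁻ _t : Fin n → ℝ, ENNReal.ofReal (1 / |v j|) ∂(Measure.pi fun _ => m1) := by
        apply lintegral_mono
        intro t
        refine le_trans (le_of_eq ?_) (gg_line ρ hρ (A + ∑ i, t i * v (j.succAbove i)) (v j) hv)
        apply lintegral_congr
        intro u
        simp only [MeasurableEquiv.piFinSuccAbove_symm_apply]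
        congr 2
        rw [Fin.sum_univ_succAbove _ j]
        simp only [Fin.insertNthEquiv, Equiv.coe_fn_mk, Fin.insertNth_apply_same, Fin.insertNth_apply_succAbove]
        ring
    _ = _ := by rw [lintegral_const, measure_univ, mul_one]

theorem gg_le (ρ : ℝ) (hρ : 0 < ρ) (y : ℝ) : gg ρ y ≤ 1 / ρ := by
  have hpi := Real.pi_pos
  unfold gg
  have h : Real.exp (-Real.pi * (y / ρ) ^ 2) ≤ 1 := by
    rw [Real.exp_le_one_iff]
    have : 0 ≤ Real.pi * (y / ρ) ^ 2 := by positivity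
    linarith
  calc 1 / ρ * Real.exp (-Real.pi * (y / ρ) ^ 2) ≤ 1 / ρ * 1 := mul_le_mul_of_nonneg_left h (by positivity)
    _ = _ := mul_one _

theorem gg_far (ρ : ℝ) (hρ : 0 < ρ) (hρ1 : ρ ≤ 1) (y L : ℝ) (hL : 0 ≤ L) (hy : L ≤ |y|) :
    gg ρ y ≤ 1 / ρ * Real.exp (-Real.pi * L ^ 2) := by
  have hpi := Real.pi_pos
  unfold gg
  apply mul_le_mul_of_nonneg_left _ (by positivity)
  apply Real.exp_le_exp.2
  have h1 : L ^ 2 ≤ y ^ 2 := by
    rw [← sq_abs y]
    exact pow_le_pow_left₀ hL hy 2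
  have h2 : y ^ 2 ≤ (y / ρ) ^ 2 := by
    rw [div_pow, le_div_iff₀ (by positivity)]
    have : ρ ^ 2 ≤ 1 := pow_le_one₀ hρ.le hρ1
    nlinarith [sq_nonneg y]
  nlinarith

theorem ae_ms (d : ℕ) : ∀ᵐ t ∂(ms d), ∀ i, t i ∈ Set.Ioc (0 : ℝ) 1 := by
  have h : ms d = (volume : Measure (Fin d → ℝ)).restrict (Set.univ.pi fun _ => Set.Ioc 0 1) := by
    rw [volume_pi, Measure.restrict_pi_pi]
  rw [h]
  have h1 := ae_restrict_mem (μ := (volume : Measure (Fin d → ℝ)))
    (MeasurableSet.univ_pi (fun _ : Fin d => measurableSet_Ioc (a := (0 : ℝ)) (b := 1)))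
  filter_upwards [h1] with t ht
  rwa [Set.mem_univ_pi] at ht

/-- **The average for one pair.** -/
theorem pair_bound (d : ℕ) (ρ : ℝ) (hρ : 0 < ρ) (hρ1 : ρ ≤ 1) (A0 M0 L : ℝ) (hL : 0 ≤ L) (hM0 : 0 ≤ M0)
    (v : Fin d → ℤ) (B : ℝ) (hA : |B| ≤ M0 * ∑ j, |(v j : ℝ)|) (Mn : ℕ) (hM : ∑ j, (v j).natAbs < 2 ^ (Mn - 1))
    (hMn : 1 ≤ Mn) :
    ∫⁻ t, ENNReal.ofReal (gg ρ (A0 + B + ∑ i, t i * (v i : ℝ))) ∂(ms d) ≤
      ENNReal.ofReal (1 / ρ * (Real.exp (-Real.pi * L ^ 2) + 2 * (d + 1) * ∑ n ∈ range Mn,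
        if (∑ j, (v j).natAbs < 2 ^ n ∧ |A0| ≤ (M0 + 1) * 2 ^ n + L) then ((1 : ℝ) / 2) ^ n else 0)) := by
  have hpi := Real.pi_pos
  set h : ℕ := ∑ j, (v j).natAbs with hh
  have hhr : (h : ℝ) = ∑ j, |(v j : ℝ)| := by
    rw [hh]
    push_cast
    apply sum_congr rfl
    intro j _
    rw [Nat.cast_natAbs, Int.cast_abs]
  have hsum0 : ∀ n ∈ range Mn, (0 : ℝ) ≤
      (if (h < 2 ^ n ∧ |A0| ≤ (M0 + 1) * 2 ^ n + L) then ((1 : ℝ) / 2) ^ n else 0) := by
    intro n _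
    split_ifs <;> positivity
  have hS0 : 0 ≤ ∑ n ∈ range Mn, (if (h < 2 ^ n ∧ |A0| ≤ (M0 + 1) * 2 ^ n + L) then ((1 : ℝ) / 2) ^ n else 0) :=
    sum_nonneg hsum0
  have hρ2 : 1 ≤ 1 / ρ := by rw [le_div_iff₀ hρ]; linarith
  have hd : (0 : ℝ) ≤ d := Nat.cast_nonneg d
  have he := Real.exp_pos (-Real.pi * L ^ 2)
  by_cases hc : |A0| ≤ (M0 + 1) * h + L
  · -- the main case
    rcases Nat.eq_zero_or_pos h with h0 | h0
    · have htriv : ∫⁻ t, ENNReal.ofReal (gg ρ (A0 + B + ∑ i, t i * (v i : ℝ))) ∂(ms d) ≤ ENNReal.ofReal (1 / ρ) := by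
        calc _ ≤ ∫⁻ _t : Fin d → ℝ, ENNReal.ofReal (1 / ρ) ∂(ms d) :=
              lintegral_mono fun t => ENNReal.ofReal_le_ofReal (gg_le ρ hρ _)
          _ = _ := by rw [lintegral_const, measure_univ, mul_one]
      refine htriv.trans (ENNReal.ofReal_le_ofReal ?_)
      have h1 : (1 : ℝ) ≤ ∑ n ∈ range Mn,
          (if (h < 2 ^ n ∧ |A0| ≤ (M0 + 1) * 2 ^ n + L) then ((1 : ℝ) / 2) ^ n else 0) := by
        refine le_trans ?_ (single_le_sum hsum0 (mem_range.2 hMn))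
        rw [if_pos]
        · simp
        · rw [h0]
          refine ⟨by norm_num, ?_⟩
          rw [h0] at hc
          simp only [Nat.cast_zero, mul_zero, zero_add] at hc
          simp only [pow_zero, mul_one]
          linarith
      have h2 : 1 / ρ * 1 ≤ 1 / ρ * (Real.exp (-Real.pi * L ^ 2) + 2 * (d + 1) * ∑ n ∈ range Mn,
          if (h < 2 ^ n ∧ |A0| ≤ (M0 + 1) * 2 ^ n + L) then ((1 : ℝ) / 2) ^ n else 0) := by
        apply mul_le_mul_of_nonneg_left _ (by positivity)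
        nlinarith
      linarith
    · -- a large coordinate
      have hhp : (0 : ℝ) < h := by exact_mod_cast h0
      obtain ⟨j, hj⟩ : ∃ j : Fin d, (h : ℝ) ≤ (d + 1) * |(v j : ℝ)| := by
        by_contra hcon
        push Not at hcon
        have h1 : ∑ j : Fin d, (d + 1) * |(v j : ℝ)| ≤ ∑ _j : Fin d, (h : ℝ) := sum_le_sum fun j _ => (hcon j).le
        rw [← mul_sum, ← hhr, sum_const, card_univ, Fintype.card_fin, nsmul_eq_mul] at h1
        linarith
      have hvj : 0 < |(v j : ℝ)| := by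
        by_contra hcon
        have h1 : |(v j : ℝ)| = 0 := le_antisymm (not_lt.1 hcon) (abs_nonneg _)
        rw [h1, mul_zero] at hj
        linarith
      set n1 := Nat.log 2 h with hn1
      have hlog1 : 2 ^ n1 ≤ h := Nat.pow_log_le_self 2 (by omega)
      have hlog2 : h < 2 ^ (n1 + 1) := Nat.lt_pow_succ_log_self (by norm_num) h
      have hn1M : n1 + 1 < Mn := by
        have h1 : 2 ^ n1 < 2 ^ (Mn - 1) := lt_of_le_of_lt hlog1 hM
        have h2 := (Nat.pow_lt_pow_iff_right (by norm_num : 1 < 2)).1 h1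
        omega
      refine (avg_gg d ρ hρ (A0 + B) (fun i => (v i : ℝ)) j (abs_pos.1 hvj)).trans (ENNReal.ofReal_le_ofReal ?_)
      have hlog1' : (2 : ℝ) ^ n1 ≤ h := by exact_mod_cast hlog1
      have h3 : 1 / |(v j : ℝ)| ≤ 2 * (d + 1) * ((1 : ℝ) / 2) ^ (n1 + 1) := by
        have e : 2 * (d + 1) * ((1 : ℝ) / 2) ^ (n1 + 1) = (d + 1) / 2 ^ n1 := by
          rw [pow_succ, one_div, inv_pow]
          field_simp
        rw [e, div_le_div_iff₀ hvj (by positivity)]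
        linarith
      have h4 : ((1 : ℝ) / 2) ^ (n1 + 1) ≤ ∑ n ∈ range Mn,
          (if (h < 2 ^ n ∧ |A0| ≤ (M0 + 1) * 2 ^ n + L) then ((1 : ℝ) / 2) ^ n else 0) := by
        refine le_trans ?_ (single_le_sum hsum0 (mem_range.2 hn1M))
        rw [if_pos]
        refine ⟨hlog2, hc.trans ?_⟩
        have h5 : (h : ℝ) ≤ 2 ^ (n1 + 1) := by exact_mod_cast hlog2.le
        have h6 : (M0 + 1) * (h : ℝ) ≤ (M0 + 1) * 2 ^ (n1 + 1) := mul_le_mul_of_nonneg_left h5 (by linarith)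
        linarith
      calc 1 / |(v j : ℝ)| ≤ 2 * (d + 1) * ((1 : ℝ) / 2) ^ (n1 + 1) := h3
        _ ≤ 2 * (d + 1) * ∑ n ∈ range Mn,
          (if (h < 2 ^ n ∧ |A0| ≤ (M0 + 1) * 2 ^ n + L) then ((1 : ℝ) / 2) ^ n else 0) :=
            mul_le_mul_of_nonneg_left h4 (by positivity)
        _ ≤ 1 * (Real.exp (-Real.pi * L ^ 2) + 2 * (d + 1) * ∑ n ∈ range Mn,
          (if (h < 2 ^ n ∧ |A0| ≤ (M0 + 1) * 2 ^ n + L) then ((1 : ℝ) / 2) ^ n else 0)) := by linarith
        _ ≤ _ := mul_le_mul_of_nonneg_right hρ2 (by positivity)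
  · -- the far case
    push Not at hc
    have h1 : ∀ᵐ t ∂(ms d), ENNReal.ofReal (gg ρ (A0 + B + ∑ i, t i * (v i : ℝ))) ≤
        ENNReal.ofReal (1 / ρ * Real.exp (-Real.pi * L ^ 2)) := by
      filter_upwards [ae_ms d] with t ht
      apply ENNReal.ofReal_le_ofReal
      apply gg_far ρ hρ hρ1 _ L hL
      have h2 : |∑ i, t i * (v i : ℝ)| ≤ h := by
        rw [hhr]
        refine (abs_sum_le_sum_abs _ _).trans (sum_le_sum fun i _ => ?_)
        rw [abs_mul]
        have h3 : |t i| ≤ 1 := by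
          rw [abs_of_pos (ht i).1]
          exact (ht i).2
        calc |t i| * |(v i : ℝ)| ≤ 1 * |(v i : ℝ)| := mul_le_mul_of_nonneg_right h3 (abs_nonneg _)
          _ = _ := one_mul _
      have h4 : |A0| ≤ |A0 + B + ∑ i, t i * (v i : ℝ)| + |B| + |∑ i, t i * (v i : ℝ)| := by
        have e : A0 = (A0 + B + ∑ i, t i * (v i : ℝ)) - B - ∑ i, t i * (v i : ℝ) := by ring
        calc |A0| = |(A0 + B + ∑ i, t i * (v i : ℝ)) - B - ∑ i, t i * (v i : ℝ)| := by rw [← e]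
          _ ≤ |(A0 + B + ∑ i, t i * (v i : ℝ)) - B| + |∑ i, t i * (v i : ℝ)| := abs_sub _ _
          _ ≤ _ := by
              have := abs_sub (A0 + B + ∑ i, t i * (v i : ℝ)) B
              linarith
      rw [← hhr] at hA
      linarith
    calc _ ≤ ∫⁻ _t : Fin d → ℝ, ENNReal.ofReal (1 / ρ * Real.exp (-Real.pi * L ^ 2)) ∂(ms d) :=
          lintegral_mono_ae h1
      _ = ENNReal.ofReal (1 / ρ * Real.exp (-Real.pi * L ^ 2)) := by
          rw [lintegral_const, measure_univ, mul_one]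
      _ ≤ _ := by
          apply ENNReal.ofReal_le_ofReal
          apply mul_le_mul_of_nonneg_left _ (by positivity)
          have : 0 ≤ 2 * ((d : ℝ) + 1) * ∑ n ∈ range Mn,
            (if (h < 2 ^ n ∧ |A0| ≤ (M0 + 1) * 2 ^ n + L) then ((1 : ℝ) / 2) ^ n else 0) := by positivity
          linarith

end Pool.Agent.U914.WP
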