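import Mathlib
import Pool.Agent.U914.WP.MV

/-! Almost all polynomials in Waring's problem: the mean value over the box. -/

set_option autoImplicit false

open Finset MeasureTheory Complex
open Pool.Agent.U518.WS (ee norm_ee ee_add ee_sub ee_sum ee_neg ee_zero continuous_ee gg gg_fourier gauss_int m1 ms gg_nonneg)

namespace Pool.Agent.U914.WP

/-- the polynomial `a x ^ (d+1) + θ_{d} x ^ d + … + θ_1 x` -/
noncomputable def pf (d : ℕ) (a : ℝ) (θ : Fin d → ℝ) (x : ℝ) : ℝ :=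
  a * x ^ (d + 1) + ∑ j : Fin d, θ j * x ^ ((j : ℕ) + 1)

/-- the sum of the values of the polynomial -/
noncomputable def Psi (s d : ℕ) (a : ℝ) (θ : Fin d → ℝ) (x : Fin s → ℕ) : ℝ := ∑ i, pf d a θ (x i)

theorem Psi_eq (s d : ℕ) (a : ℝ) (θ : Fin d → ℝ) (x : Fin s → ℕ) :
    Psi s d a θ x = a * ps s (d + 1) x + ∑ j : Fin d, θ j * ps s ((j : ℕ) + 1) x := by
  unfold Psi pf ps
  rw [sum_add_distrib, ← mul_sum]
  congr 1
  rw [sum_comm]
  exact sum_congr rfl fun j _ => by rw [mul_sum]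

/-- the power sum, an integer -/
def pz (k j : ℕ) (x : Fin k → ℕ) : ℤ := ∑ i, (x i : ℤ) ^ j

theorem pz_cast (k j : ℕ) (x : Fin k → ℕ) : ((pz k j x : ℤ) : ℝ) = ps k j x := by
  unfold pz ps
  push_cast
  rfl

theorem exp_tiny (k ν : ℕ) (hk : 1 ≤ k) :
    Real.exp (-Real.pi * ((k : ℝ) * (ν + 1)) ^ 2) ≤ 1 / ((2 ^ ν : ℕ) : ℝ) ^ k := by
  have hk0 : (1 : ℝ) ≤ k := by exact_mod_cast hk
  have hν : (0 : ℝ) ≤ ν := Nat.cast_nonneg ν
  rw [le_div_iff₀ (by positivity)]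
  have h1 : ((2 ^ ν : ℕ) : ℝ) ^ k ≤ Real.exp (Real.pi * ((k : ℝ) * (ν + 1)) ^ 2) := by
    have h2 : (2 : ℝ) ≤ Real.exp 1 := by
      have := Real.add_one_le_exp (1 : ℝ)
      linarith
    calc ((2 ^ ν : ℕ) : ℝ) ^ k = (2 : ℝ) ^ (ν * k) := by push_cast; rw [← pow_mul]
      _ ≤ (Real.exp 1) ^ (ν * k) := pow_le_pow_left₀ (by norm_num) h2 _
      _ = Real.exp ((ν : ℝ) * k) := by
          rw [← Real.exp_nat_mul]
          push_cast
          rw [mul_one]
      _ ≤ _ := by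
          apply Real.exp_le_exp.2
          have hpi := Real.pi_gt_three
          have h3 : (ν : ℝ) * k ≤ (k * (ν + 1)) ^ 2 := by nlinarith [mul_nonneg hν (by linarith : (0 : ℝ) ≤ k)]
          nlinarith [sq_nonneg ((k : ℝ) * (ν + 1))]
  calc Real.exp (-Real.pi * ((k : ℝ) * (ν + 1)) ^ 2) * ((2 ^ ν : ℕ) : ℝ) ^ k ≤
        Real.exp (-Real.pi * ((k : ℝ) * (ν + 1)) ^ 2) * Real.exp (Real.pi * ((k : ℝ) * (ν + 1)) ^ 2) :=
        mul_le_mul_of_nonneg_left h1 (Real.exp_pos _).le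
    _ = 1 := by rw [← Real.exp_add]; ring_nf; exact Real.exp_zero

/-- the number of dyadic ranges -/
def Kd (k : ℕ) : ℕ := k * k + k * (2 + 3 * k) + 1

theorem h_small (d k ν : ℕ) (hk : k = d + 1) (x y : Fin k → ℕ) (hx : x ∈ box k (2 ^ ν)) (hy : y ∈ box k (2 ^ ν)) :
    ∑ j : Fin d, (pz k ((j : ℕ) + 1) x - pz k ((j : ℕ) + 1) y).natAbs < 2 ^ (Kd k * (ν + 1) - 1) := by
  have hb : ∀ z ∈ box k (2 ^ ν), ∀ j : Fin d, pz k ((j : ℕ) + 1) z ≤ ((k * (4 * 8 ^ k * 2 ^ ν) ^ k : ℕ) : ℤ) ∧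
      0 ≤ pz k ((j : ℕ) + 1) z := by
    intro z hz j
    unfold box at hz
    rw [Fintype.mem_piFinset] at hz
    constructor
    · unfold pz
      push_cast
      calc ∑ i, (z i : ℤ) ^ ((j : ℕ) + 1) ≤ ∑ _i : Fin k, ((4 * 8 ^ k * 2 ^ ν : ℤ)) ^ k := by
            apply sum_le_sum
            intro i _
            have h1 := ((mem_IQ _ _).1 (hz i)).2
            have h2 : 8 ^ (i : ℕ) ≤ 8 ^ k := Nat.pow_le_pow_right (by norm_num) i.2.le
            have h3 : z i ≤ 4 * 8 ^ k * 2 ^ ν := by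
              refine h1.trans ?_
              rw [mul_assoc]
              exact Nat.mul_le_mul_left 4 (Nat.mul_le_mul_right _ h2)
            have h4 : 1 ≤ 4 * 8 ^ k * 2 ^ ν := Nat.one_le_iff_ne_zero.2 (by positivity)
            have h5 : z i ^ ((j : ℕ) + 1) ≤ (4 * 8 ^ k * 2 ^ ν) ^ k :=
              (Nat.pow_le_pow_left h3 _).trans (Nat.pow_le_pow_right h4 (by have := j.2; omega))
            exact_mod_cast h5
        _ = _ := by simp
    · unfold pz
      positivity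
  have h1 : ∀ j : Fin d, (pz k ((j : ℕ) + 1) x - pz k ((j : ℕ) + 1) y).natAbs ≤ k * (4 * 8 ^ k * 2 ^ ν) ^ k := by
    intro j
    have h2 := hb x hx j
    have h3 := hb y hy j
    omega
  calc ∑ j : Fin d, (pz k ((j : ℕ) + 1) x - pz k ((j : ℕ) + 1) y).natAbs ≤ ∑ _j : Fin d, k * (4 * 8 ^ k * 2 ^ ν) ^ k :=
        sum_le_sum fun j _ => h1 j
    _ = d * (k * (4 * 8 ^ k * 2 ^ ν) ^ k) := by simp
    _ < (2 ^ (k * k)) * (4 * 8 ^ k * 2 ^ ν) ^ k := by
        rw [← mul_assoc]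
        apply Nat.mul_lt_mul_of_pos_right _ (by positivity)
        calc d * k < k * k := Nat.mul_lt_mul_of_pos_right (by omega) (by omega)
          _ < 2 ^ (k * k) := Nat.lt_two_pow_self
    _ = 2 ^ (k * k + k * (2 + 3 * k + ν)) := by
        have e1 : (4 : ℕ) = 2 ^ 2 := by norm_num
        have e2 : (8 : ℕ) = 2 ^ 3 := by norm_num
        rw [e1, e2, ← pow_mul, ← pow_add, ← pow_add, ← pow_mul, ← pow_add]
        congr 1
        ring
    _ ≤ 2 ^ (Kd k * (ν + 1) - 1) := by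
        apply Nat.pow_le_pow_right (by norm_num)
        unfold Kd
        have h5 : k * k + k * (2 + 3 * k + ν) + 1 ≤ (k * k + k * (2 + 3 * k) + 1) * (ν + 1) := by nlinarith
        omega

/-- **The mean value.** -/
theorem mean_box (d : ℕ) (a : ℝ) (ha : 0 < a) (m : Fin d → ℝ) : ∃ C : ℝ, 0 < C ∧ ∀ ν : ℕ, ∀ ρ : ℝ, 0 < ρ → ρ ≤ 1 →
    ∫⁻ t, (∫⁻ β : ℝ, ENNReal.ofReal (Real.exp (-Real.pi * (ρ * β) ^ 2) *
      ‖∑ x ∈ box (d + 1) (2 ^ ν), ee (β * Psi (d + 1) d a (m + t) x)‖ ^ 2)) ∂(ms d) ≤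
      ENNReal.ofReal (C * (ν + 1) ^ 2 * ((2 ^ ν : ℕ) : ℝ) ^ (d + 1) / ρ) := by
  classical
  set k := d + 1 with hk
  obtain ⟨Cl, hCl, hcl⟩ := cl k
  set M0 : ℝ := ∑ j, |m j| with hM0
  have hM00 : 0 ≤ M0 := sum_nonneg fun _ _ => abs_nonneg _
  set b0 : ℝ := (3 * 8 ^ k) ^ k with hb0
  have hb0p : 0 < b0 := by positivity
  set G : ℝ := 1 + (M0 + 1) / a + k / a with hG
  have hGp : 0 < G := by positivity
  refine ⟨b0 ^ 2 + 2 * (d + 1) * (Kd k * (b0 * (Cl * (2 * G)))), by positivity, fun ν ρ hρ hρ1 => ?_⟩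
  have hν : (0 : ℝ) ≤ ν := Nat.cast_nonneg ν
  set P : ℕ := 2 ^ ν with hP
  have hP1 : 1 ≤ P := Nat.one_le_two_pow
  have hPr : (1 : ℝ) ≤ P := by exact_mod_cast hP1
  have hPp : (0 : ℝ) < P := by linarith
  set L : ℝ := (k : ℝ) * (ν + 1) with hL
  have hL0 : 0 ≤ L := by positivity
  set Mn : ℕ := Kd k * (ν + 1) with hMn
  have hMn1 : 1 ≤ Mn := by
    rw [hMn]
    exact Nat.mul_pos (by unfold Kd; omega) (by omega)
  set v : (Fin k → ℕ) → (Fin k → ℕ) → Fin d → ℤ := fun x y j => pz k ((j : ℕ) + 1) x - pz k ((j : ℕ) + 1) y with hv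
  set A0 : (Fin k → ℕ) → (Fin k → ℕ) → ℝ := fun x y => a * (ps k k x - ps k k y) with hA0
  set B : (Fin k → ℕ) → (Fin k → ℕ) → ℝ := fun x y => ∑ j, m j * (v x y j : ℝ) with hB
  have hdiff : ∀ t x y, Psi k d a (m + t) x - Psi k d a (m + t) y = A0 x y + B x y + ∑ i, t i * (v x y i : ℝ) := by
    intro t x y
    rw [Psi_eq, Psi_eq, hA0, hB, hv]
    simp only
    rw [add_assoc, ← sum_add_distrib]
    have e : ∀ j : Fin d, m j * ((pz k ((j : ℕ) + 1) x - pz k ((j : ℕ) + 1) y : ℤ) : ℝ) +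
        t j * ((pz k ((j : ℕ) + 1) x - pz k ((j : ℕ) + 1) y : ℤ) : ℝ) =
        (m + t) j * ps k ((j : ℕ) + 1) x - (m + t) j * ps k ((j : ℕ) + 1) y := by
      intro j
      rw [Int.cast_sub, pz_cast, pz_cast, Pi.add_apply]
      ring
    rw [sum_congr rfl fun j _ => e j, sum_sub_distrib]
    ring
  -- the integrand as a sum over pairs
  have h1 : ∀ t, ∫⁻ β : ℝ, ENNReal.ofReal (Real.exp (-Real.pi * (ρ * β) ^ 2) *
      ‖∑ x ∈ box k P, ee (β * Psi k d a (m + t) x)‖ ^ 2) =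
      ∑ x ∈ box k P, ∑ y ∈ box k P, ENNReal.ofReal (gg ρ (A0 x y + B x y + ∑ i, t i * (v x y i : ℝ))) := by
    intro t
    rw [mean_fourier (box k P) (fun x => Psi k d a (m + t) x) ρ hρ,
      ENNReal.ofReal_sum_of_nonneg fun x _ => sum_nonneg fun y _ => gg_nonneg ρ _ hρ]
    apply sum_congr rfl
    intro x _
    rw [ENNReal.ofReal_sum_of_nonneg fun y _ => gg_nonneg ρ _ hρ]
    apply sum_congr rfl
    intro y _
    rw [hdiff]
  have hmeas : ∀ x y, Measurable fun t : Fin d → ℝ =>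
      ENNReal.ofReal (gg ρ (A0 x y + B x y + ∑ i, t i * (v x y i : ℝ))) := by
    intro x y
    apply Continuous.measurable
    apply ENNReal.continuous_ofReal.comp
    apply (gg_cont ρ).comp
    fun_prop
  rw [lintegral_congr h1, lintegral_finsetSum _ fun x _ => Finset.measurable_fun_sum _ fun y _ => hmeas x y]
  -- the bound for each pair
  set ind : (Fin k → ℕ) → (Fin k → ℕ) → ℕ → ℝ := fun x y n =>
    if (∑ j, (v x y j).natAbs < 2 ^ n ∧ |A0 x y| ≤ (M0 + 1) * 2 ^ n + L) then ((1 : ℝ) / 2) ^ n else 0 with hind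
  have hind0 : ∀ x y n, 0 ≤ ind x y n := by
    intro x y n
    simp only [hind]
    split_ifs <;> positivity
  set e0 : ℝ := Real.exp (-Real.pi * L ^ 2) with he0
  have he0p : 0 < e0 := Real.exp_pos _
  have hpair : ∀ x ∈ box k P, ∀ y ∈ box k P,
      ∫⁻ t, ENNReal.ofReal (gg ρ (A0 x y + B x y + ∑ i, t i * (v x y i : ℝ))) ∂(ms d) ≤
        ENNReal.ofReal (1 / ρ * (e0 + 2 * (d + 1) * ∑ n ∈ range Mn, ind x y n)) := by
    intro x hx y hy
    apply pair_bound d ρ hρ hρ1 (A0 x y) M0 L hL0 hM00 (v x y) (B x y) _ Mn (h_small d k ν hk x y hx hy) hMn1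
    rw [hB]
    simp only
    refine (abs_sum_le_sum_abs _ _).trans ?_
    rw [mul_sum]
    apply sum_le_sum
    intro j _
    rw [abs_mul]
    apply mul_le_mul_of_nonneg_right _ (abs_nonneg _)
    exact single_le_sum (f := fun j => |m j|) (fun _ _ => abs_nonneg _) (mem_univ j)
  -- the sum over x for fixed y and n
  have hcount : ∀ y ∈ box k P, ∀ n, ∑ x ∈ box k P, ind x y n ≤ Cl * (2 * (G * (ν + 1))) := by
    intro y _ n
    set V := (box k P).filter fun x => ∑ j, (v x y j).natAbs < 2 ^ n ∧ |A0 x y| ≤ (M0 + 1) * 2 ^ n + L with hV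
    have e1 : ∑ x ∈ box k P, ind x y n = V.card * ((1 : ℝ) / 2) ^ n := by
      rw [hV, hind]
      simp only
      rw [← sum_filter, sum_const, nsmul_eq_mul]
    set E : ℝ := 2 * (2 ^ n + ((M0 + 1) * 2 ^ n + L) / a) with hE
    have hn1 : (1 : ℝ) ≤ 2 ^ n := one_le_pow₀ (by norm_num)
    have hE1 : 1 ≤ E := by
      have : 0 ≤ ((M0 + 1) * 2 ^ n + L) / a := by positivity
      rw [hE]; linarith
    have hb : ∀ x ∈ V, ∀ j, 1 ≤ j → j ≤ k → |ps k j x - ps k j y| ≤ E / 2 := by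
      intro x hx j hj1 hj2
      rw [hV, mem_filter] at hx
      obtain ⟨_, hx1, hx2⟩ := hx
      have hEe : E / 2 = 2 ^ n + ((M0 + 1) * 2 ^ n + L) / a := by rw [hE]; ring
      rw [hEe]
      rcases Nat.lt_or_ge j k with hjk | hjk
      · -- j ≤ d
        set j' : Fin d := ⟨j - 1, by omega⟩ with hj'
        have h2 : |ps k j x - ps k j y| ≤ 2 ^ n := by
          have h3 : (v x y j').natAbs ≤ ∑ j, (v x y j).natAbs :=
            single_le_sum (f := fun j => (v x y j).natAbs) (fun _ _ => Nat.zero_le _) (mem_univ j')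
          have h4 : ((v x y j' : ℤ) : ℝ) = ps k j x - ps k j y := by
            rw [hv]
            simp only
            have h5 : ((j' : Fin d) : ℕ) + 1 = j := by rw [hj']; simp; omega
            rw [h5, Int.cast_sub, pz_cast, pz_cast]
          rw [← h4, ← Int.cast_abs, Int.abs_eq_natAbs]
          have h6 : (v x y j').natAbs ≤ 2 ^ n := h3.trans hx1.le
          exact_mod_cast h6
        have : 0 ≤ ((M0 + 1) * 2 ^ n + L) / a := by positivity
        linarith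
      · have hjk' : j = k := le_antisymm hj2 hjk
        rw [hjk']
        have h2 : |A0 x y| = a * |ps k k x - ps k k y| := by
          rw [hA0]
          simp only
          rw [abs_mul, abs_of_pos ha]
        rw [h2] at hx2
        have h3 : |ps k k x - ps k k y| ≤ ((M0 + 1) * 2 ^ n + L) / a := by
          rw [le_div_iff₀ ha]
          linarith
        linarith
    have h2 : (V.card : ℝ) ≤ Cl * E := by
      apply hcl P hP1 E hE1 V (filter_subset _ _)
      intro x hx x' hx' j hj1 hj2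
      have h3 := hb x hx j hj1 hj2
      have h4 := hb x' hx' j hj1 hj2
      calc |ps k j x - ps k j x'| = |(ps k j x - ps k j y) - (ps k j x' - ps k j y)| := by ring_nf
        _ ≤ |ps k j x - ps k j y| + |ps k j x' - ps k j y| := abs_sub _ _
        _ ≤ E := by linarith
    rw [e1]
    calc (V.card : ℝ) * ((1 : ℝ) / 2) ^ n ≤ Cl * E * ((1 : ℝ) / 2) ^ n :=
          mul_le_mul_of_nonneg_right h2 (by positivity)
      _ = Cl * (2 * (1 + (M0 + 1) / a + L * ((1 : ℝ) / 2) ^ n / a)) := by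
          rw [hE, one_div, inv_pow]
          field_simp
          ring
      _ ≤ Cl * (2 * (G * (ν + 1))) := by
          apply mul_le_mul_of_nonneg_left _ (by linarith)
          apply mul_le_mul_of_nonneg_left _ (by norm_num)
          have h3 : ((1 : ℝ) / 2) ^ n ≤ 1 := pow_le_one₀ (by norm_num) (by norm_num)
          have h4 : L * ((1 : ℝ) / 2) ^ n / a ≤ L / a := by
            apply div_le_div_of_nonneg_right _ ha.le
            calc L * ((1 : ℝ) / 2) ^ n ≤ L * 1 := mul_le_mul_of_nonneg_left h3 hL0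
              _ = L := mul_one L
          have h5 : G * (ν + 1) = 1 + (M0 + 1) / a + (1 + (M0 + 1) / a) * ν + L / a := by
            rw [hG, hL]; ring
          rw [h5]
          have h6 : 0 ≤ (1 + (M0 + 1) / a) * ν := by positivity
          linarith
  -- summing up
  have hb1 : ((box k P).card : ℝ) ≤ b0 * (P : ℝ) ^ k := by
    have := card_box_le k P
    rwa [mul_pow _ (P : ℝ)] at this
  have htot : ∑ x ∈ box k P, ∑ y ∈ box k P, (1 / ρ * (e0 + 2 * (d + 1) * ∑ n ∈ range Mn, ind x y n)) ≤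
      (b0 ^ 2 + 2 * (d + 1) * (Kd k * (b0 * (Cl * (2 * G))))) * (ν + 1) ^ 2 * (P : ℝ) ^ k / ρ := by
    have e1 : ∑ x ∈ box k P, ∑ y ∈ box k P, (1 / ρ * (e0 + 2 * (d + 1) * ∑ n ∈ range Mn, ind x y n)) =
        1 / ρ * (((box k P).card : ℝ) ^ 2 * e0 + 2 * (d + 1) * ∑ n ∈ range Mn, ∑ y ∈ box k P, ∑ x ∈ box k P, ind x y n) := by
      have e2 : ∑ n ∈ range Mn, ∑ y ∈ box k P, ∑ x ∈ box k P, ind x y n =
          ∑ x ∈ box k P, ∑ y ∈ box k P, ∑ n ∈ range Mn, ind x y n := by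
        rw [sum_comm]
        rw [sum_congr rfl fun y _ => sum_comm]
        rw [sum_comm]
      rw [e2]
      simp_rw [← mul_sum, sum_add_distrib, sum_const, ← mul_sum, nsmul_eq_mul]
      ring
    rw [e1]
    have h2 : ∑ n ∈ range Mn, ∑ y ∈ box k P, ∑ x ∈ box k P, ind x y n ≤
        Mn * (b0 * (P : ℝ) ^ k * (Cl * (2 * (G * (ν + 1))))) := by
      calc _ ≤ ∑ _n ∈ range Mn, (b0 * (P : ℝ) ^ k * (Cl * (2 * (G * (ν + 1))))) := by
            apply sum_le_sum
            intro n _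
            calc ∑ y ∈ box k P, ∑ x ∈ box k P, ind x y n ≤ ∑ _y ∈ box k P, Cl * (2 * (G * (ν + 1))) :=
                  sum_le_sum fun y hy => hcount y hy n
              _ = (box k P).card * (Cl * (2 * (G * (ν + 1)))) := by rw [sum_const, nsmul_eq_mul]
              _ ≤ _ := mul_le_mul_of_nonneg_right hb1 (by positivity)
        _ = _ := by rw [sum_const, card_range, nsmul_eq_mul]
    have h3 : ((box k P).card : ℝ) ^ 2 * e0 ≤ b0 ^ 2 * (P : ℝ) ^ k := by
      have h4 : e0 ≤ 1 / (P : ℝ) ^ k := exp_tiny k ν (by omega)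
      calc ((box k P).card : ℝ) ^ 2 * e0 ≤ (b0 * (P : ℝ) ^ k) ^ 2 * (1 / (P : ℝ) ^ k) := by
            apply mul_le_mul _ h4 he0p.le (by positivity)
            exact pow_le_pow_left₀ (Nat.cast_nonneg _) hb1 2
        _ = b0 ^ 2 * (P : ℝ) ^ k := by field_simp
    have h5 : (1 : ℝ) ≤ (ν + 1) ^ 2 := one_le_pow₀ (by linarith)
    have e3 : (b0 ^ 2 + 2 * (d + 1) * (Kd k * (b0 * (Cl * (2 * G))))) * (ν + 1) ^ 2 * (P : ℝ) ^ k / ρ =
        1 / ρ * ((b0 ^ 2 + 2 * (d + 1) * (Kd k * (b0 * (Cl * (2 * G))))) * (ν + 1) ^ 2 * (P : ℝ) ^ k) := by ring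
    rw [e3]
    apply mul_le_mul_of_nonneg_left _ (by positivity)
    have h6 : (Mn : ℝ) = Kd k * (ν + 1) := by rw [hMn]; push_cast; ring
    rw [h6] at h2
    calc ((box k P).card : ℝ) ^ 2 * e0 + 2 * (d + 1) * ∑ n ∈ range Mn, ∑ y ∈ box k P, ∑ x ∈ box k P, ind x y n ≤
          b0 ^ 2 * (P : ℝ) ^ k + 2 * (d + 1) * (Kd k * (ν + 1) * (b0 * (P : ℝ) ^ k * (Cl * (2 * (G * (ν + 1)))))) :=
          add_le_add h3 (mul_le_mul_of_nonneg_left h2 (by positivity))
      _ ≤ b0 ^ 2 * (P : ℝ) ^ k * (ν + 1) ^ 2 +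
            2 * (d + 1) * (Kd k * (ν + 1) * (b0 * (P : ℝ) ^ k * (Cl * (2 * (G * (ν + 1)))))) := by
          apply add_le_add _ le_rfl
          exact le_mul_of_one_le_right (by positivity) h5
      _ = _ := by ring
  refine le_trans ?_ (ENNReal.ofReal_le_ofReal htot)
  have hnn : ∀ x y, 0 ≤ 1 / ρ * (e0 + 2 * (d + 1) * ∑ n ∈ range Mn, ind x y n) := by
    intro x y
    have : 0 ≤ ∑ n ∈ range Mn, ind x y n := sum_nonneg fun n _ => hind0 x y n
    positivity
  rw [ENNReal.ofReal_sum_of_nonneg fun x _ => sum_nonneg fun y _ => hnn x y]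
  apply sum_le_sum
  intro x hx
  rw [lintegral_finsetSum _ fun y _ => hmeas x y, ENNReal.ofReal_sum_of_nonneg fun y _ => hnn x y]
  exact sum_le_sum fun y hy => hpair x hx y hy

end Pool.Agent.U914.WP
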