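import Mathlib
import Pool.Agent.U914.WP.MB

/-! Almost all polynomials in Waring's problem: the mean square of one exponential sum. -/

set_option autoImplicit false

open Finset MeasureTheory Complex
open Pool.Agent.U518.WS (ee norm_ee ee_add ee_sub ee_sum ee_neg ee_zero continuous_ee gg m1 ms gg_nonneg sq_identity harm_le)

namespace Pool.Agent.U914.WP

/-- the exponential sum -/
noncomputable def GG (d : ℕ) (a : ℝ) (θ : Fin d → ℝ) (Q : ℕ) (β : ℝ) : ℂ := ∑ n ∈ IQ Q, ee (β * pf d a θ n)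

theorem GG_norm_le (d : ℕ) (a : ℝ) (θ : Fin d → ℝ) (Q : ℕ) (β : ℝ) : ‖GG d a θ Q β‖ ≤ 3 * Q := by
  unfold GG
  refine (norm_sum_le _ _).trans ?_
  simp [norm_ee, card_IQ]

theorem pf_cont (d : ℕ) (a : ℝ) (x : ℝ) : Continuous fun θ : Fin d → ℝ => pf d a θ x := by
  unfold pf
  fun_prop

theorem GG_continuous (d : ℕ) (a : ℝ) (Q : ℕ) : Continuous fun p : (Fin d → ℝ) × ℝ => GG d a p.1 Q p.2 := by
  unfold GG
  apply continuous_finsetSum
  intro n _
  apply continuous_ee.comp
  exact continuous_snd.mul ((pf_cont d a n).comp continuous_fst)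

theorem GG_range (d : ℕ) (a : ℝ) (θ : Fin d → ℝ) (Q : ℕ) (β : ℝ) :
    GG d a θ Q β = ∑ n ∈ range (3 * Q), ee (β * pf d a θ ((Q + 1 + n : ℕ) : ℝ)) := by
  unfold GG IQ
  rw [Finset.sum_Ico_eq_sum_range]
  rw [show 4 * Q + 1 - (Q + 1) = 3 * Q by omega]

theorem ee_int1 (b : ℝ) (hb : b ≠ 0) : ‖∫ t, ee (t * b) ∂m1‖ ≤ 1 / (Real.pi * |b|) := by
  have hpi := Real.pi_pos
  have hb' : 0 < |b| := abs_pos.2 hb
  have h1 : ∫ t, ee (t * b) ∂m1 = ∫ t in (0 : ℝ)..1, ee (t * b) := by
    rw [intervalIntegral.integral_of_le zero_le_one]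
  have hc : (((2 * Real.pi * b : ℝ) : ℂ) * I) ≠ 0 := by
    apply mul_ne_zero _ I_ne_zero
    rw [ofReal_ne_zero]
    positivity
  have h2 : ∀ t : ℝ, ee (t * b) = cexp ((((2 * Real.pi * b : ℝ) : ℂ) * I) * t) := by
    intro t
    unfold ee
    congr 1
    push_cast
    ring
  rw [h1, intervalIntegral.integral_congr (g := fun t : ℝ => cexp ((((2 * Real.pi * b : ℝ) : ℂ) * I) * t))
    fun t _ => h2 t, integral_exp_mul_complex hc, norm_div]
  have h3 : ‖(((2 * Real.pi * b : ℝ) : ℂ) * I)‖ = 2 * Real.pi * |b| := by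
    rw [norm_mul, norm_I, mul_one, norm_real, Real.norm_eq_abs, abs_mul,
      abs_of_pos (by positivity : (0 : ℝ) < 2 * Real.pi)]
  rw [h3, ← h2 1, ← h2 0]
  have h4 : ‖ee (1 * b) - ee (0 * b)‖ ≤ 2 := by
    refine (norm_sub_le _ _).trans ?_
    rw [norm_ee, norm_ee]
    norm_num
  rw [div_le_div_iff₀ (by positivity) (by positivity)]
  nlinarith [mul_le_mul_of_nonneg_right h4 (by positivity : 0 ≤ Real.pi * |b|)]

/-- the average of one term -/
theorem term_avg (d : ℕ) (hd : 1 ≤ d) (a : ℝ) (m : Fin d → ℝ) (β : ℝ) (hβ : β ≠ 0) (x y : ℝ) (hxy : x ≠ y) :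
    ‖∫ t, ee (β * pf d a (m + t) x) * (starRingEnd ℂ) (ee (β * pf d a (m + t) y)) ∂(ms d)‖ ≤
      1 / (Real.pi * |β| * |x - y|) := by
  have hpi := Real.pi_pos
  have h1 : ∀ t : Fin d → ℝ, ee (β * pf d a (m + t) x) * (starRingEnd ℂ) (ee (β * pf d a (m + t) y)) =
      ee (β * (pf d a m x - pf d a m y)) * ∏ j : Fin d, ee (t j * (β * (x ^ ((j : ℕ) + 1) - y ^ ((j : ℕ) + 1)))) := by
    intro t
    rw [← ee_sub, ← ee_sum, ← ee_add]
    congr 1
    unfold pf
    have e : ∑ j : Fin d, t j * (β * (x ^ ((j : ℕ) + 1) - y ^ ((j : ℕ) + 1))) =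
        β * (∑ j : Fin d, t j * x ^ ((j : ℕ) + 1) - ∑ j : Fin d, t j * y ^ ((j : ℕ) + 1)) := by
      rw [← sum_sub_distrib, mul_sum]
      exact sum_congr rfl fun j _ => by ring
    rw [e]
    simp only [Pi.add_apply, add_mul, sum_add_distrib]
    ring
  rw [integral_congr_ae (Filter.Eventually.of_forall h1), integral_const_mul, norm_mul, norm_ee, one_mul]
  have h2 := integral_fintype_prod_eq_prod (ι := Fin d) (μ := fun _ => m1)
    (fun (j : Fin d) (t : ℝ) => ee (t * (β * (x ^ ((j : ℕ) + 1) - y ^ ((j : ℕ) + 1)))))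
  rw [h2, norm_prod]
  set j0 : Fin d := ⟨0, hd⟩ with hj0
  rw [← mul_prod_erase univ _ (mem_univ j0)]
  have h3 : ∏ j ∈ univ.erase j0, ‖∫ t, ee (t * (β * (x ^ ((j : ℕ) + 1) - y ^ ((j : ℕ) + 1)))) ∂m1‖ ≤ 1 := by
    apply prod_le_one (fun _ _ => norm_nonneg _)
    intro j _
    refine (norm_integral_le_integral_norm _).trans ?_
    simp [norm_ee]
  have h4 : ‖∫ t, ee (t * (β * (x ^ ((j0 : ℕ) + 1) - y ^ ((j0 : ℕ) + 1)))) ∂m1‖ ≤ 1 / (Real.pi * |β| * |x - y|) := by
    have e : β * (x ^ ((j0 : ℕ) + 1) - y ^ ((j0 : ℕ) + 1)) = β * (x - y) := by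
      rw [hj0]; simp
    rw [e]
    refine (ee_int1 _ (mul_ne_zero hβ (sub_ne_zero.2 hxy))).trans (le_of_eq ?_)
    rw [abs_mul, mul_assoc]
  calc _ ≤ (1 / (Real.pi * |β| * |x - y|)) * 1 :=
        mul_le_mul h4 h3 (prod_nonneg fun _ _ => norm_nonneg _) (by positivity)
    _ = _ := mul_one _

/-- **The mean square.** -/
theorem meansq (d : ℕ) (hd : 1 ≤ d) (a : ℝ) (m : Fin d → ℝ) (Q : ℕ) (hQ : 1 ≤ Q) (β : ℝ) (hβ : β ≠ 0) :
    ∫ t, ‖GG d a (m + t) Q β‖ ^ 2 ∂(ms d) ≤ 3 * Q * (1 + (1 + Real.log (3 * Q)) / |β|) := by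
  have hpi := Real.pi_pos
  have hβ' : 0 < |β| := abs_pos.2 hβ
  have hQ0 : (1 : ℝ) ≤ Q := by exact_mod_cast hQ
  set N : ℕ := 3 * Q with hN
  have hNr : (N : ℝ) = 3 * Q := by rw [hN]; push_cast; ring
  set F : (Fin d → ℝ) → ℕ → ℂ := fun t n => ee (β * pf d a (m + t) ((Q + 1 + n : ℕ) : ℝ)) with hF
  have hFc : ∀ n, Continuous fun t => F t n := by
    intro n
    apply continuous_ee.comp
    exact continuous_const.mul ((pf_cont d a _).comp (continuous_const.add continuous_id))
  set S : (Fin d → ℝ) → ℂ := fun t => ∑ h ∈ range N, ∑ n ∈ range (N - h), F t (n + h) * (starRingEnd ℂ) (F t n) with hS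
  have hpt : ∀ t, ‖GG d a (m + t) Q β‖ ^ 2 = 2 * (S t).re - (N : ℝ) := by
    intro t
    rw [GG_range]
    exact sq_identity (F t) (fun n => norm_ee _) N
  have htc : ∀ h n, Continuous fun t => F t (n + h) * (starRingEnd ℂ) (F t n) := fun h n =>
    (hFc _).mul (Complex.continuous_conj.comp (hFc _))
  have hti : ∀ h n, Integrable (fun t => F t (n + h) * (starRingEnd ℂ) (F t n)) (ms d) := by
    intro h n
    apply Integrable.of_bound (htc h n).aestronglyMeasurable 1
    refine Filter.Eventually.of_forall fun t => ?_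
    rw [norm_mul, RCLike.norm_conj, norm_ee, norm_ee]
    norm_num
  have hSi : Integrable S (ms d) :=
    integrable_finsetSum _ fun h _ => integrable_finsetSum _ fun n _ => hti h n
  have hre : ∫ t, ‖GG d a (m + t) Q β‖ ^ 2 ∂(ms d) = 2 * (∫ t, S t ∂(ms d)).re - N := by
    have h2 : (∫ t, Complex.reCLM (S t) ∂(ms d)) = Complex.reCLM (∫ t, S t ∂(ms d)) :=
      ContinuousLinearMap.integral_comp_comm Complex.reCLM hSi
    have h3 : ∫ t, (S t).re ∂(ms d) = (∫ t, S t ∂(ms d)).re := h2
    have h4 : Integrable (fun t => 2 * (S t).re) (ms d) := (hSi.re).const_mul 2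
    rw [integral_congr_ae (Filter.Eventually.of_forall hpt), integral_sub h4 (integrable_const _),
      integral_const_mul, h3, integral_const, probReal_univ, one_smul]
  have hSint : ∫ t, S t ∂(ms d) = ∑ h ∈ range N, ∑ n ∈ range (N - h),
      ∫ t, F t (n + h) * (starRingEnd ℂ) (F t n) ∂(ms d) := by
    rw [hS, integral_finsetSum _ fun h _ => integrable_finsetSum _ fun n _ => hti h n]
    exact sum_congr rfl fun h _ => integral_finsetSum _ fun n _ => hti h n
  have hL : 0 ≤ Real.log (3 * (Q : ℝ)) := Real.log_nonneg (by linarith)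
  have hbound : (∫ t, S t ∂(ms d)).re ≤ N + N / (2 * |β|) * (1 + Real.log (3 * Q)) := by
    rw [hSint, Complex.re_sum]
    have hNpos : 0 < N := by omega
    rw [Finset.range_eq_Ico, Finset.sum_eq_sum_Ico_succ_bot hNpos]
    apply add_le_add
    · refine (Complex.re_le_norm _).trans ((norm_sum_le _ _).trans ?_)
      calc ∑ n ∈ range (N - 0), ‖∫ t, F t (n + 0) * (starRingEnd ℂ) (F t n) ∂(ms d)‖ ≤ ∑ _n ∈ range (N - 0), (1 : ℝ) := by
            apply sum_le_sum
            intro n _
            refine (norm_integral_le_integral_norm _).trans ?_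
            have : ∀ t, ‖F t (n + 0) * (starRingEnd ℂ) (F t n)‖ = 1 := fun t => by
              rw [norm_mul, RCLike.norm_conj, norm_ee, norm_ee, one_mul]
            rw [integral_congr_ae (Filter.Eventually.of_forall this)]
            simp
        _ = N := by simp
    · calc ∑ h ∈ Ico (0 + 1) N, (∑ n ∈ range (N - h), ∫ t, F t (n + h) * (starRingEnd ℂ) (F t n) ∂(ms d)).re ≤
            ∑ h ∈ Ico (0 + 1) N, N / (Real.pi * |β|) * (1 / (h : ℝ)) := by
            apply sum_le_sum
            intro h hh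
            rw [mem_Ico] at hh
            have hh0 : (0 : ℝ) < h := by exact_mod_cast (by omega : 0 < h)
            refine (Complex.re_le_norm _).trans ((norm_sum_le _ _).trans ?_)
            calc ∑ n ∈ range (N - h), ‖∫ t, F t (n + h) * (starRingEnd ℂ) (F t n) ∂(ms d)‖ ≤
                  ∑ _n ∈ range (N - h), 1 / (Real.pi * |β| * h) := by
                  apply sum_le_sum
                  intro n _
                  refine (term_avg d hd a m β hβ ((Q + 1 + (n + h) : ℕ) : ℝ) ((Q + 1 + n : ℕ) : ℝ) ?_).trans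
                    (le_of_eq ?_)
                  · intro hcon
                    have : Q + 1 + (n + h) = Q + 1 + n := by exact_mod_cast hcon
                    omega
                  · congr 2
                    push_cast
                    rw [show (Q : ℝ) + 1 + (n + h) - (Q + 1 + n) = h by ring]
                    exact abs_of_pos hh0
              _ = ((N - h : ℕ) : ℝ) * (1 / (Real.pi * |β| * h)) := by rw [sum_const, card_range, nsmul_eq_mul]
              _ ≤ N * (1 / (Real.pi * |β| * h)) := by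
                  apply mul_le_mul_of_nonneg_right _ (by positivity)
                  exact_mod_cast Nat.sub_le N h
              _ = _ := by field_simp
        _ = N / (Real.pi * |β|) * ∑ h ∈ Ico 1 N, 1 / (h : ℝ) := by rw [mul_sum]
        _ ≤ N / (2 * |β|) * (1 + Real.log (3 * Q)) := by
            have h5 := harm_le N
            rw [hNr] at h5
            have h6 : (N : ℝ) / (Real.pi * |β|) ≤ N / (2 * |β|) := by
              apply div_le_div_of_nonneg_left (Nat.cast_nonneg N) (by positivity)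
              exact mul_le_mul_of_nonneg_right (by linarith [Real.pi_gt_three]) hβ'.le
            exact mul_le_mul h6 h5 (sum_nonneg fun _ _ => by positivity) (by positivity)
  rw [hre]
  have h7 : 3 * (Q : ℝ) * (1 + (1 + Real.log (3 * Q)) / |β|) = N + 2 * (N / (2 * |β|) * (1 + Real.log (3 * Q))) := by
    rw [hNr]
    field_simp
  rw [h7]
  linarith

/-- the mean of the modulus -/
theorem meanabs (d : ℕ) (hd : 1 ≤ d) (a : ℝ) (m : Fin d → ℝ) (Q : ℕ) (hQ : 1 ≤ Q) (β : ℝ) (hβ : β ≠ 0) (R : ℝ)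
    (hR : 0 < R) :
    ∫⁻ t, ENNReal.ofReal ‖GG d a (m + t) Q β‖ ∂(ms d) ≤
      ENNReal.ofReal (R + 3 * Q * (1 + (1 + Real.log (3 * Q)) / |β|) / R) := by
  have hc : Continuous fun t : Fin d → ℝ => ‖GG d a (m + t) Q β‖ := by
    have h1 : Continuous fun t : Fin d → ℝ => (m + t, β) := by fun_prop
    exact ((GG_continuous d a Q).comp h1).norm
  have hc2 : Continuous fun t : Fin d → ℝ => ‖GG d a (m + t) Q β‖ ^ 2 := hc.pow 2
  have hi : Integrable (fun t : Fin d → ℝ => ‖GG d a (m + t) Q β‖ ^ 2) (ms d) := by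
    apply Integrable.of_bound hc2.aestronglyMeasurable ((3 * Q) ^ 2)
    refine Filter.Eventually.of_forall fun t => ?_
    rw [norm_pow, norm_norm]
    exact pow_le_pow_left₀ (norm_nonneg _) (GG_norm_le d a _ Q β) 2
  have hi2 : Integrable (fun t : Fin d → ℝ => R + ‖GG d a (m + t) Q β‖ ^ 2 / R) (ms d) :=
    (integrable_const R).add (hi.div_const R)
  calc ∫⁻ t, ENNReal.ofReal ‖GG d a (m + t) Q β‖ ∂(ms d) ≤
        ∫⁻ t, ENNReal.ofReal (R + ‖GG d a (m + t) Q β‖ ^ 2 / R) ∂(ms d) := by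
        apply lintegral_mono
        intro t
        apply ENNReal.ofReal_le_ofReal
        have h0 := norm_nonneg (GG d a (m + t) Q β)
        rcases le_total ‖GG d a (m + t) Q β‖ R with h | h
        · have : 0 ≤ ‖GG d a (m + t) Q β‖ ^ 2 / R := by positivity
          linarith
        · have : ‖GG d a (m + t) Q β‖ ≤ ‖GG d a (m + t) Q β‖ ^ 2 / R := by
            rw [le_div_iff₀ hR, sq]
            exact mul_le_mul_of_nonneg_left h h0
          linarith
    _ = ENNReal.ofReal (∫ t, (R + ‖GG d a (m + t) Q β‖ ^ 2 / R) ∂(ms d)) := by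
        rw [ofReal_integral_eq_lintegral_ofReal hi2 (Filter.Eventually.of_forall fun t => by positivity)]
    _ ≤ _ := by
        apply ENNReal.ofReal_le_ofReal
        rw [integral_add (integrable_const R) (hi.div_const R), integral_const, probReal_univ, one_smul,
          integral_div]
        have := meansq d hd a m Q hQ β hβ
        have h2 := div_le_div_of_nonneg_right this hR.le
        linarith

end Pool.Agent.U914.WP
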