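import Mathlib
import Pool.Agent.U914.WP.FM
import Pool.Agent.U914.WP.L2

/-! Almost all polynomials in Waring's problem: the mean value over full intervals. -/

set_option autoImplicit false

open Finset MeasureTheory Complex
open Pool.Agent.U518.WS (ee norm_ee ee_add ee_sub ee_sum ee_neg ee_zero continuous_ee gg gg_fourier gauss_int m1 ms gg_nonneg)

namespace Pool.Agent.U914.WP

/-- the exponential sum over any finite set -/
noncomputable def GI (d : ℕ) (a : ℝ) (θ : Fin d → ℝ) (I : Finset ℕ) (β : ℝ) : ℂ := ∑ n ∈ I, ee (β * pf d a θ n)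

theorem GI_continuous (d : ℕ) (a : ℝ) (m : Fin d → ℝ) (I : Finset ℕ) :
    Continuous fun p : (Fin d → ℝ) × ℝ => GI d a (m + p.1) I p.2 := by
  unfold GI
  apply continuous_finsetSum
  intro n _
  apply continuous_ee.comp
  exact continuous_snd.mul ((pf_cont d a n).comp (continuous_const.add continuous_fst))

/-- the tuples of separated indices -/
def Sp (k K : ℕ) : Finset (Fin k → ℕ) :=
  (Fintype.piFinset fun _ : Fin k => range K).filter fun J => ∀ i j, i < j → J i + 2 ≤ J j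

theorem mem_Sp {k K : ℕ} {J : Fin k → ℕ} : J ∈ Sp k K ↔ (∀ i, J i < K) ∧ ∀ i j, i < j → J i + 2 ≤ J j := by
  unfold Sp
  rw [mem_filter, Fintype.mem_piFinset]
  simp only [mem_range]

theorem card_Sp (k K : ℕ) : (Sp k K).card ≤ K ^ k := by
  unfold Sp
  refine (card_filter_le _ _).trans ?_
  rw [Fintype.card_piFinset]
  simp

/-- **The broad-narrow inequality.** -/
theorem broad (k K : ℕ) (hk : 1 ≤ k) (hK : 1 ≤ K) (z : ℕ → ℂ) :
    ‖∑ j ∈ range K, z j‖ ^ (2 * k) ≤ (2 * K : ℝ) ^ (2 * k) * ∑ J ∈ Sp k K, ∏ i, ‖z (J i)‖ ^ 2 +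
      (4 * k : ℝ) ^ (2 * k) * ∑ j ∈ range K, ‖z j‖ ^ (2 * k) := by
  classical
  have hKr : (1 : ℝ) ≤ K := by exact_mod_cast hK
  have hkr : (1 : ℝ) ≤ k := by exact_mod_cast hk
  set A : ℝ := ‖∑ j ∈ range K, z j‖ with hA
  have hA0 : 0 ≤ A := norm_nonneg _
  have hB0 : 0 ≤ ∑ J ∈ Sp k K, ∏ i, ‖z (J i)‖ ^ 2 := sum_nonneg fun J _ => prod_nonneg fun i _ => by positivity
  have hN0 : 0 ≤ ∑ j ∈ range K, ‖z j‖ ^ (2 * k) := sum_nonneg fun j _ => by positivity
  set big : Finset ℕ := (range K).filter fun j => A ≤ 2 * K * ‖z j‖ with hbig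
  rcases Nat.lt_or_ge (2 * k - 2) big.card with hc | hc
  · -- many large pieces
    set e := big.orderEmbOfFin (rfl : big.card = big.card) with he
    have hidx : ∀ i : Fin k, 2 * (i : ℕ) < big.card := fun i => by
      have := i.2
      omega
    set J : Fin k → ℕ := fun i => e ⟨2 * i, hidx i⟩ with hJ
    have hJbig : ∀ i, J i ∈ big := fun i => orderEmbOfFin_mem _ _ _
    have hJS : J ∈ Sp k K := by
      rw [mem_Sp]
      refine ⟨fun i => ?_, fun i j hij => ?_⟩
      · have := hJbig i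
        rw [hbig, mem_filter, mem_range] at this
        exact this.1
      · have hij' : (i : ℕ) < j := hij
        have h1 : 2 * (i : ℕ) + 1 < big.card := by
          have := hidx j
          omega
        have h2 : e ⟨2 * i, hidx i⟩ < e ⟨2 * i + 1, h1⟩ := by
          apply e.strictMono
          show 2 * (i : ℕ) < 2 * i + 1
          omega
        have h3 : e ⟨2 * i + 1, h1⟩ < e ⟨2 * j, hidx j⟩ := by
          apply e.strictMono
          show 2 * (i : ℕ) + 1 < 2 * j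
          omega
        show e ⟨2 * i, hidx i⟩ + 2 ≤ e ⟨2 * j, hidx j⟩
        omega
    have h1 : A ^ (2 * k) ≤ (2 * K : ℝ) ^ (2 * k) * ∏ i, ‖z (J i)‖ ^ 2 := by
      have e1 : A ^ (2 * k) = ∏ _i : Fin k, A ^ 2 := by
        rw [prod_const, card_univ, Fintype.card_fin, ← pow_mul]
      have e2 : (2 * K : ℝ) ^ (2 * k) * ∏ i, ‖z (J i)‖ ^ 2 = ∏ i : Fin k, (2 * K * ‖z (J i)‖) ^ 2 := by
        have e3 : ∀ i : Fin k, (2 * K * ‖z (J i)‖) ^ 2 = (2 * K : ℝ) ^ 2 * ‖z (J i)‖ ^ 2 := fun i => by ring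
        rw [prod_congr rfl fun i _ => e3 i, prod_mul_distrib, prod_const, card_univ, Fintype.card_fin, pow_mul]
      rw [e1, e2]
      apply prod_le_prod (fun i _ => by positivity)
      intro i _
      apply pow_le_pow_left₀ hA0
      have := hJbig i
      rw [hbig, mem_filter] at this
      exact this.2
    have h2 : ∏ i, ‖z (J i)‖ ^ 2 ≤ ∑ J ∈ Sp k K, ∏ i, ‖z (J i)‖ ^ 2 :=
      single_le_sum (f := fun J : Fin k → ℕ => ∏ i, ‖z (J i)‖ ^ 2) (fun J _ => prod_nonneg fun i _ => by positivity) hJS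
    have h3 := mul_le_mul_of_nonneg_left h2 (by positivity : (0 : ℝ) ≤ (2 * K : ℝ) ^ (2 * k))
    have h4 : 0 ≤ (4 * k : ℝ) ^ (2 * k) * ∑ j ∈ range K, ‖z j‖ ^ (2 * k) := by positivity
    linarith
  · -- few large pieces
    have hsplit : A ≤ A / 2 + ∑ j ∈ big, ‖z j‖ := by
      have h1 : ∑ j ∈ range K, z j = ∑ j ∈ (range K).filter (fun j => ¬ (A ≤ 2 * K * ‖z j‖)), z j + ∑ j ∈ big, z j := by
        rw [add_comm, hbig]
        exact (sum_filter_add_sum_filter_not _ _ _).symm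
      have h2 : A ≤ ‖∑ j ∈ (range K).filter (fun j => ¬ (A ≤ 2 * K * ‖z j‖)), z j‖ + ‖∑ j ∈ big, z j‖ := by
        rw [hA]
        nth_rw 1 [h1]
        exact norm_add_le _ _
      have h3 : ‖∑ j ∈ (range K).filter (fun j => ¬ (A ≤ 2 * K * ‖z j‖)), z j‖ ≤ A / 2 := by
        refine (norm_sum_le _ _).trans ?_
        calc ∑ j ∈ (range K).filter (fun j => ¬ (A ≤ 2 * K * ‖z j‖)), ‖z j‖ ≤
              ∑ _j ∈ (range K).filter (fun j => ¬ (A ≤ 2 * K * ‖z j‖)), A / (2 * K) := by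
              apply sum_le_sum
              intro j hj
              rw [mem_filter, not_le] at hj
              rw [le_div_iff₀ (by positivity)]
              linarith [hj.2]
          _ = (((range K).filter (fun j => ¬ (A ≤ 2 * K * ‖z j‖))).card : ℝ) * (A / (2 * K)) := by
              rw [sum_const, nsmul_eq_mul]
          _ ≤ K * (A / (2 * K)) := by
              apply mul_le_mul_of_nonneg_right _ (by positivity)
              have := card_filter_le (range K) (fun j => ¬ (A ≤ 2 * K * ‖z j‖))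
              rw [card_range] at this
              exact_mod_cast this
          _ = A / 2 := by field_simp
      exact h2.trans (add_le_add h3 (norm_sum_le _ _))
    rcases big.eq_empty_or_nonempty with hem | hne
    · rw [hem, sum_empty, add_zero] at hsplit
      have : A = 0 := by linarith
      rw [this, zero_pow (by omega)]
      positivity
    · obtain ⟨j0, hj0, hmax⟩ := exists_max_image big (fun j => ‖z j‖) hne
      have h1 : ∑ j ∈ big, ‖z j‖ ≤ 2 * k * ‖z j0‖ := by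
        calc ∑ j ∈ big, ‖z j‖ ≤ ∑ _j ∈ big, ‖z j0‖ := sum_le_sum hmax
          _ = (big.card : ℝ) * ‖z j0‖ := by rw [sum_const, nsmul_eq_mul]
          _ ≤ 2 * k * ‖z j0‖ := by
              apply mul_le_mul_of_nonneg_right _ (norm_nonneg _)
              exact_mod_cast (by omega : big.card ≤ 2 * k)
      have h2 : A ≤ 4 * k * ‖z j0‖ := by linarith
      have h3 : A ^ (2 * k) ≤ (4 * k : ℝ) ^ (2 * k) * ‖z j0‖ ^ (2 * k) := by
        rw [← mul_pow]
        exact pow_le_pow_left₀ hA0 h2 _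
      have h4 : ‖z j0‖ ^ (2 * k) ≤ ∑ j ∈ range K, ‖z j‖ ^ (2 * k) := by
        apply single_le_sum (f := fun j => ‖z j‖ ^ (2 * k)) (fun j _ => by positivity)
        rw [hbig, mem_filter] at hj0
        exact hj0.1
      have h5 := mul_le_mul_of_nonneg_left h4 (by positivity : (0 : ℝ) ≤ (4 * k : ℝ) ^ (2 * k))
      have h6 : 0 ≤ (2 * K : ℝ) ^ (2 * k) * ∑ J ∈ Sp k K, ∏ i, ‖z (J i)‖ ^ 2 := by positivity
      linarith

/-- the iterated integral -/
noncomputable def MI (d : ℕ) (F : (Fin d → ℝ) × ℝ → ENNReal) : ENNReal := ∫⁻ t, (∫⁻ β : ℝ, F (t, β)) ∂(ms d)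

theorem MI_mono (d : ℕ) (F G : (Fin d → ℝ) × ℝ → ENNReal) (h : ∀ p, F p ≤ G p) : MI d F ≤ MI d G :=
  lintegral_mono fun _ => lintegral_mono fun _ => h _

theorem MI_add (d : ℕ) (F G : (Fin d → ℝ) × ℝ → ENNReal) (hF : Measurable F) :
    MI d (fun p => F p + G p) = MI d F + MI d G := by
  unfold MI
  rw [← lintegral_add_left]
  · apply lintegral_congr
    intro t
    exact lintegral_add_left (hF.comp (measurable_const.prodMk measurable_id)) _
  · exact hF.lintegral_prod_right'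

theorem MI_sum {ι : Type*} (d : ℕ) (s : Finset ι) (F : ι → (Fin d → ℝ) × ℝ → ENNReal) (hF : ∀ i, Measurable (F i)) :
    MI d (fun p => ∑ i ∈ s, F i p) = ∑ i ∈ s, MI d (F i) := by
  classical
  induction s using Finset.induction_on with
  | empty => simp [MI]
  | insert i s hi ih =>
    have e : (fun p => ∑ j ∈ insert i s, F j p) = fun p => F i p + ∑ j ∈ s, F j p := by
      funext p
      rw [sum_insert hi]
    rw [e, MI_add d (F i) _ (hF i), ih, sum_insert hi]

theorem MI_const_mul (d : ℕ) (c : ENNReal) (F : (Fin d → ℝ) × ℝ → ENNReal) (hF : Measurable F) :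
    MI d (fun p => c * F p) = c * MI d F := by
  unfold MI
  rw [← lintegral_const_mul]
  · apply lintegral_congr
    intro t
    exact lintegral_const_mul _ (hF.comp (measurable_const.prodMk measurable_id))
  · exact hF.lintegral_prod_right'

/-- the integrand of the mean value over an interval -/
noncomputable def FI (d : ℕ) (a : ℝ) (m : Fin d → ℝ) (ρ : ℝ) (I : Finset ℕ) (p : (Fin d → ℝ) × ℝ) : ENNReal :=
  ENNReal.ofReal (Real.exp (-Real.pi * (ρ * p.2) ^ 2) * ‖GI d a (m + p.1) I p.2‖ ^ (2 * (d + 1)))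

theorem FI_meas (d : ℕ) (a : ℝ) (m : Fin d → ℝ) (ρ : ℝ) (I : Finset ℕ) : Measurable (FI d a m ρ I) := by
  unfold FI
  apply Continuous.measurable
  apply ENNReal.continuous_ofReal.comp
  apply Continuous.mul (by fun_prop)
  exact (GI_continuous d a m I).norm.pow _

/-- the product over separated intervals -/
noncomputable def FP (d : ℕ) (a : ℝ) (m : Fin d → ℝ) (ρ : ℝ) (lo : Fin (d + 1) → ℕ) (L : ℕ)
    (p : (Fin d → ℝ) × ℝ) : ENNReal :=
  ENNReal.ofReal (Real.exp (-Real.pi * (ρ * p.2) ^ 2) * ∏ i, ‖GI d a (m + p.1) (Ioc (lo i) (lo i + L)) p.2‖ ^ 2)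

theorem FP_meas (d : ℕ) (a : ℝ) (m : Fin d → ℝ) (ρ : ℝ) (lo : Fin (d + 1) → ℕ) (L : ℕ) :
    Measurable (FP d a m ρ lo L) := by
  unfold FP
  apply Continuous.measurable
  apply ENNReal.continuous_ofReal.comp
  apply Continuous.mul (by fun_prop)
  apply continuous_finsetProd
  intro i _
  exact (GI_continuous d a m _).norm.pow _

theorem prod_GI (k d : ℕ) (a : ℝ) (θ : Fin d → ℝ) (lo : Fin k → ℕ) (L : ℕ) (β : ℝ) :
    ∏ i : Fin k, GI d a θ (Ioc (lo i) (lo i + L)) β = ∑ x ∈ sbx k lo L, ee (β * Psi k d a θ x) := by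
  unfold GI sbx
  rw [Finset.prod_univ_sum]
  apply sum_congr rfl
  intro x _
  unfold Psi
  rw [mul_sum, ee_sum]

/-- **The mean value for separated intervals.** -/
theorem sep_mean (d : ℕ) (a : ℝ) (ha : 0 < a) (m : Fin d → ℝ) : ∃ C : ℝ, 0 < C ∧ ∀ ν : ℕ, ∀ ρ : ℝ, 0 < ρ → ρ ≤ 1 →
    ∀ (lo : Fin (d + 1) → ℕ) (L : ℕ), Sepd (d + 1) lo L (2 ^ ν) →
    MI d (FP d a m ρ lo L) ≤ ENNReal.ofReal (C * (ν + 1) ^ 2 * (L * ((2 ^ ν : ℕ) : ℝ) ^ d) / ρ) := by
  obtain ⟨C, hC, h⟩ := mean_set d a ha m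
  obtain ⟨Cl, hCl, hcl⟩ := cl2 (d + 1)
  refine ⟨C * Cl, by positivity, fun ν ρ hρ hρ1 lo L hsep => ?_⟩
  have hsep' := hsep
  obtain ⟨hL1, hLM, hlo, hgap⟩ := hsep'
  have hL0 : (0 : ℝ) < L := by exact_mod_cast hL1
  have hM0 : (0 : ℝ) < ((2 ^ ν : ℕ) : ℝ) := by positivity
  have hlam1 : 1 ≤ ((2 ^ ν : ℕ) : ℝ) / L := by
    rw [le_div_iff₀ hL0, one_mul]
    exact_mod_cast hLM
  have h1 := h ν ρ hρ hρ1 (sbx (d + 1) lo L) (fun x hx i => by
    have h2 := (mem_sbx.1 hx) i
    have h3 := (hlo i).2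
    rw [pow_succ, mul_comm]
    omega) (by
    rw [card_sbx]
    push_cast
    apply pow_le_pow_left₀ (Nat.cast_nonneg _)
    exact_mod_cast hLM) (Cl * (((2 ^ ν : ℕ) : ℝ) / L) ^ d) (one_le_mul_of_one_le_of_one_le hCl (one_le_pow₀ hlam1))
    (fun E hE V hV hS => by
      have := hcl L (2 ^ ν) lo hsep E hE V hV hS
      rwa [Nat.add_sub_cancel] at this)
  have e1 : MI d (FP d a m ρ lo L) = ∫⁻ t, (∫⁻ β : ℝ, ENNReal.ofReal (Real.exp (-Real.pi * (ρ * β) ^ 2) *
      ‖∑ x ∈ sbx (d + 1) lo L, ee (β * Psi (d + 1) d a (m + t) x)‖ ^ 2)) ∂(ms d) := by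
    unfold MI FP
    apply lintegral_congr
    intro t
    apply lintegral_congr
    intro β
    rw [← prod_GI, norm_prod, ← prod_pow]
  rw [e1]
  refine h1.trans (ENNReal.ofReal_le_ofReal (le_of_eq ?_))
  rw [card_sbx]
  push_cast
  rw [div_pow]
  field_simp
  ring

end Pool.Agent.U914.WP
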