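import Mathlib
import Pool.Agent.U914.WP.FB

/-! Almost all polynomials in Waring's problem: the recursion for the mean value over full intervals. -/

set_option autoImplicit false

open Finset MeasureTheory Complex
open Pool.Agent.U518.WS (ee norm_ee ee_add ee_sub ee_sum ee_neg ee_zero continuous_ee gg gg_fourier gauss_int m1 ms gg_nonneg)

namespace Pool.Agent.U914.WP

theorem Ioc_split (f : ℕ → ℂ) (y L K : ℕ) :
    ∑ n ∈ Ioc y (y + K * L), f n = ∑ j ∈ range K, ∑ n ∈ Ioc (y + j * L) (y + j * L + L), f n := by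
  induction K with
  | zero => simp
  | succ K ih =>
    rw [sum_range_succ, ← ih, Nat.succ_mul, ← add_assoc]
    exact (sum_Ioc_consecutive f (by omega) (by omega)).symm

/-- the mean value of one term -/
theorem one_mean (d : ℕ) (a : ℝ) (m : Fin d → ℝ) (ρ : ℝ) (hρ : 0 < ρ) (y : ℕ) :
    MI d (FI d a m ρ (Ioc y (y + 1))) = ENNReal.ofReal (1 / ρ) := by
  unfold MI FI
  have h1 : ∀ (t : Fin d → ℝ), ∫⁻ β : ℝ, ENNReal.ofReal (Real.exp (-Real.pi * (ρ * β) ^ 2) *
      ‖GI d a (m + t) (Ioc y (y + 1)) β‖ ^ (2 * (d + 1))) = ENNReal.ofReal (1 / ρ) := by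
    intro t
    have h2 := mean_fourier (Ioc y (y + 1)) (fun n => pf d a (m + t) n) ρ hρ
    have e : ∀ β : ℝ, Real.exp (-Real.pi * (ρ * β) ^ 2) * ‖GI d a (m + t) (Ioc y (y + 1)) β‖ ^ (2 * (d + 1)) =
        Real.exp (-Real.pi * (ρ * β) ^ 2) * ‖∑ n ∈ Ioc y (y + 1), ee (β * pf d a (m + t) n)‖ ^ 2 := by
      intro β
      unfold GI
      rw [Nat.Ioc_succ_singleton, sum_singleton, norm_ee, one_pow, one_pow]
    rw [lintegral_congr fun β => congrArg ENNReal.ofReal (e β), h2]
    congr 1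
    rw [Nat.Ioc_succ_singleton, sum_singleton, sum_singleton, sub_self]
    unfold gg
    simp
  simp only [h1]
  rw [lintegral_const, measure_univ, mul_one]

/-- **The recursion.** -/
theorem rec (d : ℕ) (a : ℝ) (ha : 0 < a) (m : Fin d → ℝ) (K : ℕ) (hK : 1 ≤ K) : ∃ C : ℝ, 0 < C ∧
    ∀ ν : ℕ, ∀ ρ : ℝ, 0 < ρ → ρ ≤ 1 → ∀ n y : ℕ, 2 ^ ν ≤ y → y + K ^ n ≤ 2 * 2 ^ ν →
    MI d (FI d a m ρ (Ioc y (y + K ^ n))) ≤ ENNReal.ofReal ((C * (ν + 1) ^ 2 + 1) *
      (1 + (4 * ((d + 1 : ℕ) : ℝ)) ^ (2 * (d + 1))) ^ n * ((K : ℝ) ^ n * ((2 ^ ν : ℕ) : ℝ) ^ d) / ρ) := by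
  obtain ⟨C0, hC0, hsm⟩ := sep_mean d a ha m
  set k := d + 1 with hk
  set c1 : ℝ := (2 * K : ℝ) ^ (2 * k) with hc1
  set c2 : ℝ := (4 * ((k : ℕ) : ℝ)) ^ (2 * k) with hc2
  have hKr : (1 : ℝ) ≤ K := by exact_mod_cast hK
  have hc1p : 0 < c1 := by positivity
  have hk0 : (0 : ℝ) < k := by rw [hk]; positivity
  have hc2p : 0 < c2 := by positivity
  refine ⟨c1 * (K : ℝ) ^ k * C0, by positivity, fun ν ρ hρ hρ1 n => ?_⟩
  have hM0 : (0 : ℝ) < ((2 ^ ν : ℕ) : ℝ) := by positivity
  have hM1 : (1 : ℝ) ≤ ((2 ^ ν : ℕ) : ℝ) := by exact_mod_cast Nat.one_le_two_pow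
  induction n with
  | zero =>
    intro y hy1 hy2
    rw [pow_zero, one_mean d a m ρ hρ y]
    apply ENNReal.ofReal_le_ofReal
    apply div_le_div_of_nonneg_right _ hρ.le
    rw [pow_zero, pow_zero, mul_one, one_mul]
    have h1 : (1 : ℝ) ≤ ((2 ^ ν : ℕ) : ℝ) ^ d := one_le_pow₀ hM1
    have h2 : (1 : ℝ) ≤ c1 * (K : ℝ) ^ k * C0 * (ν + 1) ^ 2 + 1 := by
      have : 0 ≤ c1 * (K : ℝ) ^ k * C0 * (ν + 1) ^ 2 := by positivity
      linarith
    exact one_le_mul_of_one_le_of_one_le h2 h1
  | succ n ih =>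
    intro y hy1 hy2
    set L := K ^ n with hL
    have hL1 : 1 ≤ L := Nat.one_le_pow _ _ hK
    have hKL : K ^ (n + 1) = K * L := by rw [pow_succ, mul_comm]
    rw [hKL] at hy2 ⊢
    set A : ℝ := (c1 * (K : ℝ) ^ k * C0 * (ν + 1) ^ 2 + 1) * (1 + c2) ^ n with hA
    set D : ℝ := (K : ℝ) ^ n * ((2 ^ ν : ℕ) : ℝ) ^ d with hD
    have hDp : 0 < D := by positivity
    -- the pointwise inequality
    have hpt : ∀ p, FI d a m ρ (Ioc y (y + K * L)) p ≤
        ∑ J ∈ Sp k K, ENNReal.ofReal c1 * FP d a m ρ (fun i => y + J i * L) L p +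
        ∑ j ∈ range K, ENNReal.ofReal c2 * FI d a m ρ (Ioc (y + j * L) (y + j * L + L)) p := by
      intro p
      have hb := broad k K (by omega) hK (fun j => GI d a (m + p.1) (Ioc (y + j * L) (y + j * L + L)) p.2)
      have e1 : GI d a (m + p.1) (Ioc y (y + K * L)) p.2 =
          ∑ j ∈ range K, GI d a (m + p.1) (Ioc (y + j * L) (y + j * L + L)) p.2 := by
        unfold GI
        exact Ioc_split _ y L K
      rw [← e1] at hb
      set g : ℝ := Real.exp (-Real.pi * (ρ * p.2) ^ 2) with hg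
      have hg0 : 0 < g := Real.exp_pos _
      have h1 : FI d a m ρ (Ioc y (y + K * L)) p ≤ ENNReal.ofReal (g * (c1 * ∑ J ∈ Sp k K,
          ∏ i, ‖GI d a (m + p.1) (Ioc (y + J i * L) (y + J i * L + L)) p.2‖ ^ 2 +
          c2 * ∑ j ∈ range K, ‖GI d a (m + p.1) (Ioc (y + j * L) (y + j * L + L)) p.2‖ ^ (2 * k))) := by
        unfold FI
        apply ENNReal.ofReal_le_ofReal
        exact mul_le_mul_of_nonneg_left hb hg0.le
      refine h1.trans (le_of_eq ?_)
      rw [mul_add, ENNReal.ofReal_add (by positivity) (by positivity)]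
      congr 1
      · rw [mul_left_comm, mul_sum, mul_sum, ENNReal.ofReal_sum_of_nonneg fun J _ => by positivity]
        apply sum_congr rfl
        intro J _
        rw [ENNReal.ofReal_mul hc1p.le]
        rfl
      · rw [mul_left_comm, mul_sum, mul_sum, ENNReal.ofReal_sum_of_nonneg fun J _ => by positivity]
        apply sum_congr rfl
        intro j _
        rw [ENNReal.ofReal_mul hc2p.le]
        rfl
    refine (MI_mono d _ _ hpt).trans ?_
    have hmP : ∀ J : Fin k → ℕ, Measurable fun p => ENNReal.ofReal c1 * FP d a m ρ (fun i => y + J i * L) L p :=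
      fun J => (FP_meas d a m ρ _ L).const_mul _
    have hmI : ∀ j : ℕ, Measurable fun p => ENNReal.ofReal c2 * FI d a m ρ (Ioc (y + j * L) (y + j * L + L)) p :=
      fun j => (FI_meas d a m ρ _).const_mul _
    rw [MI_add d _ _ (Finset.measurable_fun_sum _ fun J _ => hmP J), MI_sum d _ _ hmP, MI_sum d _ _ hmI]
    have h1 : ∑ J ∈ Sp k K, MI d (fun p => ENNReal.ofReal c1 * FP d a m ρ (fun i => y + J i * L) L p) ≤
        ENNReal.ofReal (c1 * (K : ℝ) ^ k * C0 * (ν + 1) ^ 2 * D / ρ) := by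
      calc _ ≤ ∑ _J ∈ Sp k K, ENNReal.ofReal (c1 * (C0 * (ν + 1) ^ 2 * D / ρ)) := by
            apply sum_le_sum
            intro J hJ
            rw [MI_const_mul d _ _ (FP_meas d a m ρ _ L), ENNReal.ofReal_mul hc1p.le]
            apply mul_le_mul_right
            have hJ' := mem_Sp.1 hJ
            have h2 := hsm ν ρ hρ hρ1 (fun i => y + J i * L) L (by
              refine ⟨hL1, ?_, fun i => ⟨?_, ?_⟩, fun i j hij => ?_⟩
              · have : 1 * L ≤ K * L := Nat.mul_le_mul_right _ hK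
                omega
              · show 2 ^ ν ≤ y + J i * L
                omega
              · have h3 : (J i + 1) * L ≤ K * L := Nat.mul_le_mul_right _ (hJ'.1 i)
                rw [Nat.add_mul, one_mul] at h3
                show y + J i * L + L ≤ 2 * 2 ^ ν
                omega
              · have h3 : (J i + 2) * L ≤ J j * L := Nat.mul_le_mul_right _ (hJ'.2 i j hij)
                rw [Nat.add_mul] at h3
                show y + J i * L + 2 * L ≤ y + J j * L
                omega)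
            refine h2.trans (ENNReal.ofReal_le_ofReal (le_of_eq ?_))
            rw [hD, hL]
            push_cast
            ring
        _ = ENNReal.ofReal (((Sp k K).card : ℝ) * (c1 * (C0 * (ν + 1) ^ 2 * D / ρ))) := by
            rw [sum_const, nsmul_eq_mul, ENNReal.ofReal_mul (Nat.cast_nonneg _), ENNReal.ofReal_natCast]
        _ ≤ _ := by
            apply ENNReal.ofReal_le_ofReal
            have h3 : ((Sp k K).card : ℝ) ≤ (K : ℝ) ^ k := by exact_mod_cast card_Sp k K
            calc ((Sp k K).card : ℝ) * (c1 * (C0 * (ν + 1) ^ 2 * D / ρ)) ≤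
                  (K : ℝ) ^ k * (c1 * (C0 * (ν + 1) ^ 2 * D / ρ)) := mul_le_mul_of_nonneg_right h3 (by positivity)
              _ = _ := by ring
    have h2 : ∑ j ∈ range K, MI d (fun p => ENNReal.ofReal c2 * FI d a m ρ (Ioc (y + j * L) (y + j * L + L)) p) ≤
        ENNReal.ofReal (c2 * K * (A * D / ρ)) := by
      calc _ ≤ ∑ _j ∈ range K, ENNReal.ofReal (c2 * (A * D / ρ)) := by
            apply sum_le_sum
            intro j hj
            rw [mem_range] at hj
            rw [MI_const_mul d _ _ (FI_meas d a m ρ _), ENNReal.ofReal_mul hc2p.le]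
            apply mul_le_mul_right
            apply ih (y + j * L) (by omega)
            have h3 : (j + 1) * L ≤ K * L := Nat.mul_le_mul_right _ hj
            rw [Nat.add_mul, one_mul] at h3
            omega
        _ = ENNReal.ofReal ((K : ℝ) * (c2 * (A * D / ρ))) := by
            rw [sum_const, card_range, nsmul_eq_mul, ENNReal.ofReal_mul (Nat.cast_nonneg _), ENNReal.ofReal_natCast]
        _ = _ := by
            congr 1
            ring
    refine (add_le_add h1 h2).trans ?_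
    rw [← ENNReal.ofReal_add (by positivity) (by positivity)]
    apply ENNReal.ofReal_le_ofReal
    set q : ℝ := c1 * (K : ℝ) ^ k * C0 * (ν + 1) ^ 2 with hq
    have hq0 : 0 ≤ q := by positivity
    have h3 : 1 ≤ (1 + c2) ^ n := one_le_pow₀ (by linarith)
    have h4 : q ≤ K * A := by
      calc q ≤ 1 * ((q + 1) * 1) := by linarith
        _ ≤ K * ((q + 1) * (1 + c2) ^ n) := by
            apply mul_le_mul hKr _ (by positivity) (by positivity)
            exact mul_le_mul_of_nonneg_left h3 (by positivity)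
        _ = K * A := by rw [hA]
    calc q * D / ρ + c2 * K * (A * D / ρ) = (q + c2 * (K * A)) * (D / ρ) := by ring
      _ ≤ (K * A + c2 * (K * A)) * (D / ρ) := mul_le_mul_of_nonneg_right (by linarith) (by positivity)
      _ = (q + 1) * (1 + c2) ^ (n + 1) * ((K : ℝ) ^ (n + 1) * ((2 ^ ν : ℕ) : ℝ) ^ d) / ρ := by
          rw [hA, hD, pow_succ (1 + c2), pow_succ (K : ℝ)]
          ring

end Pool.Agent.U914.WP
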