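import Mathlib
import Pool.Agent.U914.WP.FR

/-! Almost all polynomials in Waring's problem: the mean value over the full interval. -/

set_option autoImplicit false

open Finset MeasureTheory Complex
open Pool.Agent.U518.WS (ee norm_ee ee_add ee_sub ee_sum ee_neg ee_zero continuous_ee gg gg_fourier gauss_int m1 ms gg_nonneg)

namespace Pool.Agent.U914.WP

theorem pow_sum_le (q p : ℕ) (hp : 1 ≤ p) (x : ℕ → ℝ) (hx : ∀ j, 0 ≤ x j) :
    (∑ j ∈ range q, x j) ^ p ≤ (q : ℝ) ^ p * ∑ j ∈ range q, x j ^ p := by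
  rcases (range q).eq_empty_or_nonempty with h | h
  · rw [h, sum_empty, sum_empty, zero_pow (by omega), mul_zero]
  · obtain ⟨j0, hj0, hmax⟩ := exists_max_image (range q) x h
    have h1 : ∑ j ∈ range q, x j ≤ q * x j0 := by
      calc ∑ j ∈ range q, x j ≤ ∑ _j ∈ range q, x j0 := sum_le_sum hmax
        _ = _ := by rw [sum_const, card_range, nsmul_eq_mul]
    calc (∑ j ∈ range q, x j) ^ p ≤ (q * x j0) ^ p := pow_le_pow_left₀ (sum_nonneg fun j _ => hx j) h1 p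
      _ = (q : ℝ) ^ p * x j0 ^ p := by rw [mul_pow]
      _ ≤ _ := by
          apply mul_le_mul_of_nonneg_left _ (by positivity)
          exact single_le_sum (f := fun j => x j ^ p) (fun j _ => pow_nonneg (hx j) p) hj0

/-- the mean value over a union of intervals -/
theorem MI_union (d : ℕ) (a : ℝ) (m : Fin d → ℝ) (ρ : ℝ) (q : ℕ) (I : Finset ℕ) (Is : ℕ → Finset ℕ)
    (hI : ∀ f : ℕ → ℂ, ∑ n ∈ I, f n = ∑ j ∈ range q, ∑ n ∈ Is j, f n) (B : ℝ) (hB : 0 ≤ B)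
    (h : ∀ j < q, MI d (FI d a m ρ (Is j)) ≤ ENNReal.ofReal B) :
    MI d (FI d a m ρ I) ≤ ENNReal.ofReal ((q : ℝ) ^ (2 * (d + 1)) * (q * B)) := by
  have hpt : ∀ p, FI d a m ρ I p ≤
      ENNReal.ofReal ((q : ℝ) ^ (2 * (d + 1))) * ∑ j ∈ range q, FI d a m ρ (Is j) p := by
    intro p
    unfold FI
    rw [← ENNReal.ofReal_sum_of_nonneg fun j _ => by positivity, ← ENNReal.ofReal_mul (by positivity)]
    apply ENNReal.ofReal_le_ofReal
    rw [← mul_sum, mul_left_comm]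
    apply mul_le_mul_of_nonneg_left _ (Real.exp_pos _).le
    have e1 : GI d a (m + p.1) I p.2 = ∑ j ∈ range q, GI d a (m + p.1) (Is j) p.2 := by
      unfold GI
      exact hI _
    rw [e1]
    calc ‖∑ j ∈ range q, GI d a (m + p.1) (Is j) p.2‖ ^ (2 * (d + 1)) ≤
          (∑ j ∈ range q, ‖GI d a (m + p.1) (Is j) p.2‖) ^ (2 * (d + 1)) :=
          pow_le_pow_left₀ (norm_nonneg _) (norm_sum_le _ _) _
      _ ≤ _ := pow_sum_le q _ (by omega) _ fun j => norm_nonneg _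
  refine (MI_mono d _ _ hpt).trans ?_
  rw [MI_const_mul d _ _ (Finset.measurable_fun_sum _ fun j _ => FI_meas d a m ρ _),
    MI_sum d _ _ fun j => FI_meas d a m ρ _, ENNReal.ofReal_mul (by positivity)]
  apply mul_le_mul_right
  calc ∑ j ∈ range q, MI d (FI d a m ρ (Is j)) ≤ ∑ _j ∈ range q, ENNReal.ofReal B :=
        sum_le_sum fun j hj => h j (mem_range.1 hj)
    _ = _ := by
        rw [sum_const, card_range, nsmul_eq_mul, ENNReal.ofReal_mul (Nat.cast_nonneg _), ENNReal.ofReal_natCast]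

/-- the mean value over a dyadic interval -/
theorem dy_mean (d : ℕ) (a : ℝ) (ha : 0 < a) (m : Fin d → ℝ) (t : ℕ) (ht : 1 ≤ t) : ∃ C : ℝ, 1 ≤ C ∧
    ∀ ν : ℕ, ∀ ρ : ℝ, 0 < ρ → ρ ≤ 1 → MI d (FI d a m ρ (Ioc (2 ^ ν) (2 ^ (ν + 1)))) ≤
      ENNReal.ofReal (C * (ν + 1) ^ 2 * ((2 ^ ν : ℕ) : ℝ) ^ (((d + 1 : ℕ) : ℝ) + 1 / t) / ρ) := by
  set c2 : ℝ := (4 * ((d + 1 : ℕ) : ℝ)) ^ (2 * (d + 1)) with hc2
  have hc2p : 0 < c2 := by positivity
  obtain ⟨e, he⟩ : ∃ e : ℕ, 1 + c2 ≤ 2 ^ e := pow_unbounded_of_one_lt (1 + c2) (by norm_num) |>.imp fun _ h => h.le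
  set e' := e + 1 with he'
  have he2 : 1 + c2 ≤ 2 ^ e' := by
    rw [he', pow_succ]
    have : (0 : ℝ) < 2 ^ e := by positivity
    linarith
  set κ := e' * t with hκ
  have hκ1 : 1 ≤ κ := Nat.mul_pos (by omega) ht
  set K := 2 ^ κ with hK
  have hK1 : 1 ≤ K := Nat.one_le_two_pow
  obtain ⟨C, hC, hrec⟩ := rec d a ha m K hK1
  have hKr : (1 : ℝ) ≤ K := by exact_mod_cast hK1
  have htr : (0 : ℝ) < t := by exact_mod_cast ht
  refine ⟨(K : ℝ) ^ (2 * (d + 1)) * (C + 1), ?_, fun ν ρ hρ hρ1 => ?_⟩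
  · exact one_le_mul_of_one_le_of_one_le (one_le_pow₀ hKr) (by linarith)
  have hM0 : (0 : ℝ) < ((2 ^ ν : ℕ) : ℝ) := by positivity
  set n := ν / κ with hn
  set q := 2 ^ (ν % κ) with hq
  have hqK : q ≤ K := Nat.pow_le_pow_right (by norm_num) (Nat.mod_lt _ hκ1).le
  have hqM : q * K ^ n = 2 ^ ν := by
    rw [hq, hK, ← pow_mul, ← pow_add]
    congr 1
    exact Nat.mod_add_div ν κ
  have h1 := MI_union d a m ρ q (Ioc (2 ^ ν) (2 ^ (ν + 1))) (fun j => Ioc (2 ^ ν + j * K ^ n) (2 ^ ν + j * K ^ n + K ^ n))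
    (fun f => by
      have e1 : 2 ^ (ν + 1) = 2 ^ ν + q * K ^ n := by rw [hqM, pow_succ]; ring
      rw [e1]
      exact Ioc_split f _ _ _)
    ((C * (ν + 1) ^ 2 + 1) * (1 + c2) ^ n * ((K : ℝ) ^ n * ((2 ^ ν : ℕ) : ℝ) ^ d) / ρ) (by positivity)
    (fun j hj => by
      apply hrec ν ρ hρ hρ1 n (2 ^ ν + j * K ^ n) (by omega)
      have h2 : (j + 1) * K ^ n ≤ q * K ^ n := Nat.mul_le_mul_right _ hj
      rw [Nat.add_mul, one_mul, hqM] at h2
      omega)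
  refine h1.trans (ENNReal.ofReal_le_ofReal ?_)
  have hqKr : (q : ℝ) ≤ K := by exact_mod_cast hqK
  have hqMr : (q : ℝ) * (K : ℝ) ^ n = ((2 ^ ν : ℕ) : ℝ) := by exact_mod_cast hqM
  have h2 : (q : ℝ) ^ (2 * (d + 1)) ≤ (K : ℝ) ^ (2 * (d + 1)) := pow_le_pow_left₀ (Nat.cast_nonneg _) hqKr _
  have h3 : (1 + c2) ^ n ≤ ((2 ^ ν : ℕ) : ℝ) ^ ((1 : ℝ) / t) := by
    have h4 : (1 + c2) ^ n ≤ ((2 : ℝ) ^ e') ^ n := pow_le_pow_left₀ (by linarith) he2 n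
    refine h4.trans ?_
    rw [← pow_mul, ← Real.rpow_natCast 2 (e' * n)]
    push_cast
    rw [← Real.rpow_natCast 2 ν, ← Real.rpow_mul (by norm_num)]
    apply Real.rpow_le_rpow_of_exponent_le (by norm_num)
    rw [mul_one_div, le_div_iff₀ htr]
    have h5 : e' * n * t ≤ ν := by
      calc e' * n * t = κ * n := by rw [hκ]; ring
        _ ≤ ν := Nat.mul_div_le ν κ
    exact_mod_cast h5
  have h6 : C * ((ν : ℝ) + 1) ^ 2 + 1 ≤ (C + 1) * (ν + 1) ^ 2 := by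
    have : (1 : ℝ) ≤ (ν + 1) ^ 2 := one_le_pow₀ (by
      have : (0 : ℝ) ≤ ν := Nat.cast_nonneg ν
      linarith)
    linarith
  calc (q : ℝ) ^ (2 * (d + 1)) * (q * ((C * (ν + 1) ^ 2 + 1) * (1 + c2) ^ n * ((K : ℝ) ^ n * ((2 ^ ν : ℕ) : ℝ) ^ d) / ρ)) =
        (q : ℝ) ^ (2 * (d + 1)) * ((C * (ν + 1) ^ 2 + 1) * (1 + c2) ^ n * ((q * (K : ℝ) ^ n) * ((2 ^ ν : ℕ) : ℝ) ^ d) / ρ) := by
        ring
    _ = (q : ℝ) ^ (2 * (d + 1)) * ((C * (ν + 1) ^ 2 + 1) * (1 + c2) ^ n * ((2 ^ ν : ℕ) : ℝ) ^ (d + 1) / ρ) := by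
        rw [hqMr, pow_succ ((2 ^ ν : ℕ) : ℝ) d]
        ring
    _ ≤ (K : ℝ) ^ (2 * (d + 1)) * (((C + 1) * (ν + 1) ^ 2) * ((2 ^ ν : ℕ) : ℝ) ^ ((1 : ℝ) / t) *
          ((2 ^ ν : ℕ) : ℝ) ^ (d + 1) / ρ) := by
        apply mul_le_mul h2 _ (by positivity) (by positivity)
        apply div_le_div_of_nonneg_right _ hρ.le
        apply mul_le_mul_of_nonneg_right _ (by positivity)
        exact mul_le_mul h6 h3 (by positivity) (by positivity)
    _ = _ := by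
        rw [Real.rpow_add hM0, Real.rpow_natCast]
        ring

/-- **The mean value over the full interval.** -/
theorem full_mean (d : ℕ) (a : ℝ) (ha : 0 < a) (m : Fin d → ℝ) (t : ℕ) (ht : 1 ≤ t) : ∃ C : ℝ, 0 < C ∧
    ∀ ν : ℕ, ∀ ρ : ℝ, 0 < ρ → ρ ≤ 1 → MI d (FI d a m ρ (Ioc 0 (2 ^ ν))) ≤
      ENNReal.ofReal (C * (ν + 1) ^ (2 * (d + 1) + 3) * ((2 ^ ν : ℕ) : ℝ) ^ (((d + 1 : ℕ) : ℝ) + 1 / t) / ρ) := by
  obtain ⟨C, hC, h⟩ := dy_mean d a ha m t ht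
  have htr : (0 : ℝ) < t := by exact_mod_cast ht
  refine ⟨C, by linarith, fun ν ρ hρ hρ1 => ?_⟩
  set Is : ℕ → Finset ℕ := fun i => if i = 0 then Ioc 0 1 else Ioc (2 ^ (i - 1)) (2 ^ i) with hIs
  have hν : (0 : ℝ) ≤ ν := Nat.cast_nonneg ν
  have hI : ∀ f : ℕ → ℂ, ∑ n ∈ Ioc 0 (2 ^ ν), f n = ∑ j ∈ range (ν + 1), ∑ n ∈ Is j, f n := by
    intro f
    clear hν
    induction ν with
    | zero =>
      have e0 : Is 0 = Ioc 0 1 := rfl
      rw [zero_add, sum_range_one, e0, pow_zero]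
    | succ ν ih =>
      rw [sum_range_succ, ← ih]
      have e1 : Is (ν + 1) = Ioc (2 ^ ν) (2 ^ (ν + 1)) := by
        rw [hIs]
        simp
      rw [e1]
      refine (sum_Ioc_consecutive f (Nat.zero_le _) ?_).symm
      exact Nat.pow_le_pow_right (by norm_num) (by omega)
  have hX1 : (1 : ℝ) ≤ ((2 ^ ν : ℕ) : ℝ) := by exact_mod_cast Nat.one_le_two_pow
  have hexp : (0 : ℝ) ≤ ((d + 1 : ℕ) : ℝ) + 1 / t := by positivity
  set B : ℝ := C * (ν + 1) ^ 2 * ((2 ^ ν : ℕ) : ℝ) ^ (((d + 1 : ℕ) : ℝ) + 1 / t) / ρ with hB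
  have hν1 : (1 : ℝ) ≤ (ν + 1) ^ 2 := one_le_pow₀ (by linarith)
  have h1 := MI_union d a m ρ (ν + 1) (Ioc 0 (2 ^ ν)) Is hI B (by positivity) (fun j hj => by
    rcases Nat.eq_zero_or_pos j with h0 | h0
    · have e1 : Is j = Ioc 0 (0 + 1) := by rw [hIs]; simp [h0]
      rw [e1, one_mean d a m ρ hρ 0]
      apply ENNReal.ofReal_le_ofReal
      rw [hB]
      apply div_le_div_of_nonneg_right _ hρ.le
      exact one_le_mul_of_one_le_of_one_le (one_le_mul_of_one_le_of_one_le hC hν1) (Real.one_le_rpow hX1 hexp)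
    · obtain ⟨i, rfl⟩ : ∃ i, j = i + 1 := ⟨j - 1, by omega⟩
      have e1 : Is (i + 1) = Ioc (2 ^ i) (2 ^ (i + 1)) := by
        rw [hIs]
        simp
      rw [e1]
      refine (h i ρ hρ hρ1).trans (ENNReal.ofReal_le_ofReal ?_)
      rw [hB]
      apply div_le_div_of_nonneg_right _ hρ.le
      have hi : (i : ℝ) ≤ ν := by exact_mod_cast (by omega : i ≤ ν)
      have hi2 : ((2 ^ i : ℕ) : ℝ) ≤ ((2 ^ ν : ℕ) : ℝ) := by
        exact_mod_cast Nat.pow_le_pow_right (by norm_num) (by omega : i ≤ ν)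
      apply mul_le_mul
      · apply mul_le_mul_of_nonneg_left _ (by linarith)
        apply pow_le_pow_left₀ (by positivity)
        linarith
      · exact Real.rpow_le_rpow (Nat.cast_nonneg _) hi2 hexp
      · positivity
      · positivity)
  refine h1.trans (ENNReal.ofReal_le_ofReal (le_of_eq ?_))
  rw [hB]
  push_cast
  rw [pow_add ((ν : ℝ) + 1) (2 * (d + 1)) 3]
  ring

end Pool.Agent.U914.WP
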