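import Mathlib
import Pool.Agent.U914.WP.L2
import Pool.Agent.H373R2.NB.Weyl

/-! Almost all polynomials in Waring's problem: Weyl's inequality in inverse form. -/

set_option autoImplicit false

open Finset MeasureTheory
open Pool.Agent.U518.WS (ee)
open Pool.Agent.H373R2.NB (Ph IW IW_all Ph_poly)

namespace Pool.Agent.U914.WP

theorem Ph_zero (D : ℕ) : Ph D 0 (fun _ => 0) := by
  induction D with
  | zero => intro n; rfl
  | succ D ih =>
    intro h
    show Ph D (h * 0) (fun _ => 0 - 0)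
    rw [mul_zero, sub_zero]
    exact ih

theorem Ph_add (D : ℕ) : ∀ (α α' : ℝ) (φ φ' : ℕ → ℝ), Ph D α φ → Ph D α' φ' → Ph D (α + α') (fun n => φ n + φ' n) := by
  induction D with
  | zero =>
    intro α α' φ φ' h h' n
    have h1 := h n
    have h2 := h' n
    show φ n + φ' n = α + α'
    rw [h1, h2]
  | succ D ih =>
    intro α α' φ φ' h h' r
    have h1 := h r
    have h2 := h' r
    have h3 := ih _ _ _ _ h1 h2
    have e1 : (r : ℝ) * α + r * α' = r * (α + α') := by ring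
    have e2 : (fun n : ℕ => (φ (n + r) - φ n) + (φ' (n + r) - φ' n)) =
        fun n : ℕ => (φ (n + r) + φ' (n + r)) - (φ n + φ' n) := by
      funext n; ring
    rw [e1, e2] at h3
    exact h3

theorem Ph_sum {ι : Type*} (D : ℕ) (s : Finset ι) (α : ι → ℝ) (φ : ι → ℕ → ℝ) (h : ∀ i ∈ s, Ph D (α i) (φ i)) :
    Ph D (∑ i ∈ s, α i) (fun n => ∑ i ∈ s, φ i n) := by
  classical
  induction s using Finset.induction_on with
  | empty => simpa using Ph_zero D
  | insert i s hi ih =>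
    have h1 := h i (mem_insert_self i s)
    have h2 := ih fun j hj => h j (mem_insert_of_mem hj)
    have h3 := Ph_add D _ _ _ _ h1 h2
    rw [sum_insert hi]
    have e : (fun n => ∑ i ∈ insert i s, φ i n) = fun n => φ i n + ∑ i ∈ s, φ i n := by
      funext n
      rw [sum_insert hi]
    rw [e]
    exact h3

open Polynomial in
theorem Ph_mono (D j : ℕ) (hj : j ≤ D) (γ : ℝ) (c : ℕ) :
    Ph D (γ * ((D.factorial : ℝ) * (if j = D then 1 else 0))) (fun n => γ * ((c + n : ℕ) : ℝ) ^ j) := by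
  set f : ℤ[X] := (X + C (c : ℤ)) ^ j with hf
  have hdeg : f.natDegree = j := by
    rw [hf, natDegree_pow, natDegree_X_add_C, mul_one]
  have h1 := Ph_poly D f (by rw [hdeg]; exact hj) γ
  have hcoef : f.coeff D = if j = D then 1 else 0 := by
    split_ifs with h
    · have hm : f.Monic := (monic_X_add_C _).pow j
      have := hm.coeff_natDegree
      rw [hdeg, h] at this
      exact this
    · exact coeff_eq_zero_of_natDegree_lt (by rw [hdeg]; omega)
  have e1 : ((f.coeff D : ℤ) : ℝ) = if j = D then 1 else 0 := by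
    rw [hcoef]
    split_ifs <;> simp
  have e2 : (fun n : ℕ => γ * ((f.eval (n : ℤ) : ℤ) : ℝ)) = fun n : ℕ => γ * ((c + n : ℕ) : ℝ) ^ j := by
    funext n
    rw [hf]
    simp only [eval_pow, eval_add, eval_X, eval_C]
    push_cast
    rw [add_comm (n : ℝ)]
  rw [e1, e2] at h1
  exact h1

theorem Ph_pf (d : ℕ) (a : ℝ) (θ : Fin d → ℝ) (β : ℝ) (c : ℕ) :
    Ph (d + 1) (((d + 1).factorial : ℝ) * (β * a)) (fun n => β * pf d a θ ((c + n : ℕ) : ℝ)) := by
  have h1 := Ph_mono (d + 1) (d + 1) le_rfl (β * a) c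
  rw [if_pos rfl] at h1
  have h2 := Ph_sum (d + 1) (univ : Finset (Fin d))
    (fun j => β * θ j * (((d + 1).factorial : ℝ) * (if (j : ℕ) + 1 = d + 1 then 1 else 0)))
    (fun j n => β * θ j * ((c + n : ℕ) : ℝ) ^ ((j : ℕ) + 1))
    (fun j _ => Ph_mono (d + 1) ((j : ℕ) + 1) (by have := j.2; omega) (β * θ j) c)
  have h3 := Ph_add (d + 1) _ _ _ _ h1 h2
  have e0 : ∑ j : Fin d, β * θ j * (((d + 1).factorial : ℝ) * (if (j : ℕ) + 1 = d + 1 then 1 else 0)) = 0 := by
    apply sum_eq_zero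
    intro j _
    rw [if_neg (by have := j.2; omega), mul_zero, mul_zero]
  rw [e0, add_zero] at h3
  have e1 : β * a * (((d + 1).factorial : ℝ) * 1) = ((d + 1).factorial : ℝ) * (β * a) := by ring
  have e2 : (fun n : ℕ => β * a * ((c + n : ℕ) : ℝ) ^ (d + 1) + ∑ j : Fin d, β * θ j * ((c + n : ℕ) : ℝ) ^ ((j : ℕ) + 1)) =
      fun n : ℕ => β * pf d a θ ((c + n : ℕ) : ℝ) := by
    funext n
    unfold pf
    rw [mul_add, mul_sum, ← mul_assoc]
    congr 1
    exact sum_congr rfl fun j _ => by ring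
  rw [e1, e2] at h3
  exact h3

theorem ee_eq (x : ℝ) : Pool.Agent.Helper602.MK.ee x = ee x := by
  unfold Pool.Agent.Helper602.MK.ee ee
  congr 1
  push_cast
  ring

/-- **Weyl's inequality, inverse form.** -/
theorem weyl (d : ℕ) (a : ℝ) : ∃ c0 m0 : ℕ, 1 ≤ c0 ∧ ∀ (Q : ℕ) (u β : ℝ) (θ : Fin d → ℝ), 1 ≤ Q → 1 ≤ u →
    3 * (Q : ℝ) ≤ u * ‖GG d a θ Q β‖ →
    ∃ q : ℕ, 1 ≤ q ∧ (q : ℝ) ≤ c0 * u ^ m0 ∧ ∃ b : ℤ,
      |q * (((d + 1).factorial : ℝ) * (β * a)) - b| ≤ c0 * u ^ m0 / (3 * (Q : ℝ)) ^ (d + 1) := by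
  obtain ⟨c0, m0, hc0, h⟩ := IW_all (d + 1) (by omega)
  refine ⟨c0, m0, hc0, fun Q u β θ hQ hu hS => ?_⟩
  have h1 := h (3 * Q) u _ _ (by omega) hu (Ph_pf d a θ β (Q + 1)) ?_
  · obtain ⟨q, hq1, hq2, b, hb⟩ := h1
    refine ⟨q, hq1, hq2, b, ?_⟩
    push_cast at hb
    exact hb
  · push_cast
    refine hS.trans (le_of_eq ?_)
    rw [GG_range]
    congr 2
    apply sum_congr rfl
    intro n _
    rw [ee_eq]
    push_cast
    rfl

end Pool.Agent.U914.WP
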