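import Mathlib
import Pool.Agent.U914.WP.WY

/-! Almost all polynomials in Waring's problem: the major arcs. -/

set_option autoImplicit false

open Finset MeasureTheory
open Pool.Agent.U518.WS (ee m1 ms)

namespace Pool.Agent.U914.WP

/-- the neighbourhoods of the nonzero fractions with small denominators -/
def MM (g Qp R : ℝ) (M : ℤ) : Set ℝ :=
  ⋃ q ∈ Icc 1 ⌊Qp⌋₊, ⋃ b ∈ (Icc (-M) M).erase 0, Metric.closedBall ((b : ℝ) / (q * g)) (R / g)

theorem MM_meas (g Qp R : ℝ) (M : ℤ) : MeasurableSet (MM g Qp R M) := by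
  unfold MM
  refine MeasurableSet.biUnion (Set.to_countable _) fun q _ => ?_
  exact MeasurableSet.biUnion (Set.to_countable _) fun b _ => Metric.isClosed_closedBall.measurableSet

theorem MM_cover (g Qp R B : ℝ) (hg : 0 < g) (hR : 0 ≤ R) (hQp : 0 ≤ Qp) (β : ℝ) (hβ : |β| ≤ B)
    (q : ℕ) (hq1 : 1 ≤ q) (hq2 : (q : ℝ) ≤ Qp) (b : ℤ) (hb : b ≠ 0) (h : |q * (g * β) - b| ≤ R) :
    β ∈ MM g Qp R ⌊Qp * g * B + R⌋ := by
  have hq0 : (1 : ℝ) ≤ q := by exact_mod_cast hq1
  have h1 : |(b : ℝ)| ≤ Qp * g * B + R := by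
    have h2 : |(b : ℝ)| ≤ |q * (g * β)| + |q * (g * β) - b| := by
      have := abs_sub (q * (g * β)) (q * (g * β) - b)
      rwa [sub_sub_cancel] at this
    have h3 : |q * (g * β)| ≤ Qp * g * B := by
      rw [abs_mul, abs_mul, abs_of_pos hg, abs_of_nonneg (by positivity : (0 : ℝ) ≤ q)]
      calc (q : ℝ) * (g * |β|) ≤ Qp * (g * B) := by
            apply mul_le_mul hq2 (mul_le_mul_of_nonneg_left hβ hg.le) (by positivity) hQp
        _ = _ := by ring
    linarith
  unfold MM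
  rw [Set.mem_iUnion₂]
  refine ⟨q, ?_, ?_⟩
  · rw [mem_Icc]
    exact ⟨hq1, Nat.le_floor hq2⟩
  · rw [Set.mem_iUnion₂]
    refine ⟨b, ?_, ?_⟩
    · rw [mem_erase, mem_Icc]
      refine ⟨hb, ?_, ?_⟩
      · rw [neg_le]
        apply Int.le_floor.2
        push_cast
        linarith [neg_abs_le (b : ℝ), (abs_le.1 (le_refl |(b : ℝ)|)).1]
      · apply Int.le_floor.2
        linarith [le_abs_self (b : ℝ)]
    · rw [Metric.mem_closedBall, Real.dist_eq]
      have hqg : 0 < (q : ℝ) * g := by positivity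
      have e : β - (b : ℝ) / (q * g) = (q * (g * β) - b) / (q * g) := by
        field_simp
      rw [e, abs_div, abs_of_pos hqg, div_le_div_iff₀ hqg hg]
      calc |(q : ℝ) * (g * β) - b| * g ≤ R * g := mul_le_mul_of_nonneg_right h hg.le
        _ = R * (1 * g) := by ring
        _ ≤ R * (q * g) := by
            apply mul_le_mul_of_nonneg_left _ hR
            exact mul_le_mul_of_nonneg_right hq0 hg.le

theorem MM_vol (g Qp R A : ℝ) (hg : 0 < g) (hR : 0 ≤ R) (hQp : 0 ≤ Qp) (hA : 0 ≤ A) :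
    volume (MM g Qp R ⌊A⌋) ≤ ENNReal.ofReal (Qp * (2 * A + 1) * (2 * R / g)) := by
  unfold MM
  have hr : 0 ≤ 2 * R / g := by positivity
  calc volume (⋃ q ∈ Icc 1 ⌊Qp⌋₊, ⋃ b ∈ (Icc (-⌊A⌋) ⌊A⌋).erase 0, Metric.closedBall ((b : ℝ) / (q * g)) (R / g)) ≤
        ∑ q ∈ Icc 1 ⌊Qp⌋₊, volume (⋃ b ∈ (Icc (-⌊A⌋) ⌊A⌋).erase 0, Metric.closedBall ((b : ℝ) / (q * g)) (R / g)) :=
        measure_biUnion_finset_le _ _
    _ ≤ ∑ q ∈ Icc 1 ⌊Qp⌋₊, ENNReal.ofReal ((2 * A + 1) * (2 * R / g)) := by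
        apply sum_le_sum
        intro q _
        calc _ ≤ ∑ b ∈ (Icc (-⌊A⌋) ⌊A⌋).erase 0, volume (Metric.closedBall ((b : ℝ) / (q * g)) (R / g)) :=
              measure_biUnion_finset_le _ _
          _ = ∑ b ∈ (Icc (-⌊A⌋) ⌊A⌋).erase 0, ENNReal.ofReal (2 * R / g) := by
              apply sum_congr rfl
              intro b _
              rw [Real.volume_closedBall]
              congr 1
              ring
          _ = ((Icc (-⌊A⌋) ⌊A⌋).erase 0).card * ENNReal.ofReal (2 * R / g) := by rw [sum_const, nsmul_eq_mul]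
          _ ≤ ENNReal.ofReal ((2 * A + 1) * (2 * R / g)) := by
              rw [ENNReal.ofReal_mul (by positivity)]
              apply mul_le_mul_left
              rw [← ENNReal.ofReal_natCast]
              apply ENNReal.ofReal_le_ofReal
              have h1 : ((Icc (-⌊A⌋) ⌊A⌋).erase 0).card ≤ (Icc (-⌊A⌋) ⌊A⌋).card := card_erase_le
              rw [Int.card_Icc] at h1
              have h2 : (0 : ℤ) ≤ ⌊A⌋ := Int.floor_nonneg.2 hA
              have h3 : (((⌊A⌋ + 1 - -⌊A⌋).toNat : ℕ) : ℤ) = 2 * ⌊A⌋ + 1 := by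
                rw [Int.toNat_of_nonneg (by omega)]
                ring
              have h4 : (((⌊A⌋ + 1 - -⌊A⌋).toNat : ℕ) : ℝ) = 2 * (⌊A⌋ : ℝ) + 1 := by
                exact_mod_cast h3
              calc ((((Icc (-⌊A⌋) ⌊A⌋).erase 0).card : ℕ) : ℝ) ≤ (((⌊A⌋ + 1 - -⌊A⌋).toNat : ℕ) : ℝ) := by
                    exact_mod_cast h1
                _ = 2 * (⌊A⌋ : ℝ) + 1 := h4
                _ ≤ 2 * A + 1 := by linarith [Int.floor_le A]
    _ = ⌊Qp⌋₊ * ENNReal.ofReal ((2 * A + 1) * (2 * R / g)) := by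
        rw [sum_const, nsmul_eq_mul, Nat.card_Icc, Nat.add_sub_cancel]
    _ ≤ _ := by
        rw [mul_assoc Qp, ENNReal.ofReal_mul hQp]
        apply mul_le_mul_left
        rw [← ENNReal.ofReal_natCast]
        exact ENNReal.ofReal_le_ofReal (Nat.floor_le hQp)

theorem MM_lower (g Qp R : ℝ) (M : ℤ) (hg : 0 < g) (hR : R ≤ 1 / (2 * Qp)) (hQp : 0 < Qp) (β : ℝ)
    (hβ : β ∈ MM g Qp R M) : 1 / (2 * Qp * g) ≤ |β| := by
  unfold MM at hβ
  rw [Set.mem_iUnion₂] at hβ
  obtain ⟨q, hq, hβ⟩ := hβ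
  rw [Set.mem_iUnion₂] at hβ
  obtain ⟨b, hb, hβ⟩ := hβ
  rw [mem_Icc] at hq
  rw [mem_erase] at hb
  rw [Metric.mem_closedBall, Real.dist_eq] at hβ
  have hq0 : (1 : ℝ) ≤ q := by exact_mod_cast hq.1
  have hq1 : (q : ℝ) ≤ Qp := by
    have := Nat.floor_le hQp.le
    have h2 : (q : ℝ) ≤ ⌊Qp⌋₊ := by exact_mod_cast hq.2
    linarith
  have hb1 : (1 : ℝ) ≤ |(b : ℝ)| := by
    have : (1 : ℤ) ≤ |b| := Int.one_le_abs hb.1
    exact_mod_cast this
  have h1 : 1 / (Qp * g) ≤ |(b : ℝ) / (q * g)| := by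
    rw [abs_div, abs_of_pos (by positivity : (0 : ℝ) < q * g), div_le_div_iff₀ (by positivity) (by positivity)]
    have h2 : (q : ℝ) * g ≤ Qp * g := mul_le_mul_of_nonneg_right hq1 hg.le
    nlinarith [mul_le_mul_of_nonneg_right hb1 (by positivity : 0 ≤ Qp * g)]
  have h3 : |(b : ℝ) / (q * g)| ≤ |β| + |β - (b : ℝ) / (q * g)| := by
    have := abs_sub β (β - (b : ℝ) / (q * g))
    rwa [sub_sub_cancel] at this
  have h4 : R / g ≤ 1 / (2 * Qp) / g := div_le_div_of_nonneg_right hR hg.le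
  have h5 : 1 / (Qp * g) = 1 / (2 * Qp) / g + 1 / (2 * Qp * g) := by
    field_simp
    norm_num
  linarith

/-- the tail of the Gaussian -/
theorem tailint (ρ B : ℝ) (hρ : 0 < ρ) (hB : 0 ≤ B) :
    ∫⁻ β, {β : ℝ | B < |β|}.indicator (fun β => ENNReal.ofReal (Real.exp (-Real.pi * (ρ * β) ^ 2))) β ≤
      ENNReal.ofReal (2 / ρ * Real.exp (-(ρ * B) ^ 2)) := by
  have hpi := Real.pi_gt_three
  have hb : 0 < Real.pi / 2 * ρ ^ 2 := by positivity
  have hint : Integrable fun β : ℝ => Real.exp (-(Real.pi / 2 * ρ ^ 2) * β ^ 2) := integrable_exp_neg_mul_sq hb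
  calc _ ≤ ∫⁻ β, ENNReal.ofReal (Real.exp (-(ρ * B) ^ 2) * Real.exp (-(Real.pi / 2 * ρ ^ 2) * β ^ 2)) := by
        apply lintegral_mono
        intro β
        by_cases h : β ∈ {β : ℝ | B < |β|}
        · rw [Set.indicator_of_mem h]
          apply ENNReal.ofReal_le_ofReal
          rw [← Real.exp_add]
          apply Real.exp_le_exp.2
          have h1 : B < |β| := h
          have h2 : B ^ 2 ≤ β ^ 2 := by
            rw [← sq_abs β]
            exact pow_le_pow_left₀ hB h1.le 2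
          have h3 : ρ ^ 2 * B ^ 2 ≤ ρ ^ 2 * β ^ 2 := mul_le_mul_of_nonneg_left h2 (by positivity)
          have h4 : 0 ≤ ρ ^ 2 * β ^ 2 := by positivity
          nlinarith
        · rw [Set.indicator_of_notMem h]
          exact zero_le
    _ = ENNReal.ofReal (Real.exp (-(ρ * B) ^ 2) * Real.sqrt (Real.pi / (Real.pi / 2 * ρ ^ 2))) := by
        rw [← ofReal_integral_eq_lintegral_ofReal (hint.const_mul _) (Filter.Eventually.of_forall fun β => by positivity),
          integral_const_mul, integral_gaussian]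
    _ ≤ _ := by
        apply ENNReal.ofReal_le_ofReal
        rw [mul_comm (2 / ρ)]
        apply mul_le_mul_of_nonneg_left _ (Real.exp_pos _).le
        apply Real.sqrt_le_iff.2
        refine ⟨by positivity, ?_⟩
        have e : Real.pi / (Real.pi / 2 * ρ ^ 2) = 2 / ρ ^ 2 := by field_simp
        rw [e, div_pow]
        apply div_le_div_of_nonneg_right _ (by positivity)
        norm_num

end Pool.Agent.U914.WP
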