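import Mathlib
import Pool.Agent.U914.WP.MA

/-! Almost all polynomials in Waring's problem: the average of the minor arcs. -/

set_option autoImplicit false

open Finset MeasureTheory
open Pool.Agent.U518.WS (ee ee_sum m1 ms meas_T)

namespace Pool.Agent.U914.WP

/-- the exponents of the scales of the variables -/
def ef (k i : ℕ) : ℕ := if i < k then i else if i < 2 * k then i - k else 0

theorem ef_le (k i : ℕ) : ef k i ≤ k := by
  unfold ef
  split_ifs <;> omega

theorem ef_zero (k : ℕ) : ef k 0 = 0 := by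
  unfold ef
  split_ifs <;> omega

theorem prod_ef (k t : ℕ) (F : ℕ → ℝ) :
    ∏ i : Fin (2 * k + t), F (ef k i) = (∏ i : Fin k, F i) ^ 2 * F 0 ^ t := by
  have h1 := Finset.prod_range (fun i => F (ef k i)) (n := 2 * k + t)
  rw [← h1, show 2 * k + t = k + (k + t) by ring, prod_range_add, prod_range_add]
  have e1 : ∏ x ∈ range k, F (ef k x) = ∏ i : Fin k, F i := by
    rw [← Finset.prod_range (fun i => F i)]
    apply prod_congr rfl
    intro i hi
    rw [mem_range] at hi
    unfold ef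
    rw [if_pos hi]
  have e2 : ∏ x ∈ range k, F (ef k (k + x)) = ∏ i : Fin k, F i := by
    rw [← Finset.prod_range (fun i => F i)]
    apply prod_congr rfl
    intro i hi
    rw [mem_range] at hi
    unfold ef
    rw [if_neg (by omega), if_pos (by omega)]
    congr 1
    omega
  have e3 : ∏ x ∈ range t, F (ef k (k + (k + x))) = F 0 ^ t := by
    rw [← card_range t, ← prod_const, card_range]
    apply prod_congr rfl
    intro i _
    unfold ef
    rw [if_neg (by omega), if_neg (by omega)]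
  rw [e1, e2, e3]
  ring

/-- the integral over the minor arcs -/
noncomputable def XX (s d : ℕ) (a : ℝ) (P : ℕ) (ρ T : ℝ) (θ : Fin d → ℝ) : ENNReal :=
  ∫⁻ β in {β : ℝ | T ≤ |β|}, ENNReal.ofReal (Real.exp (-Real.pi * (ρ * β) ^ 2) *
    ∏ i : Fin s, ‖GG d a θ (8 ^ (ef (d + 1) i) * P) β‖)

theorem cont_XX (s d : ℕ) (a : ℝ) (P : ℕ) (ρ : ℝ) : Continuous fun p : (Fin d → ℝ) × ℝ =>
    ENNReal.ofReal (Real.exp (-Real.pi * (ρ * p.2) ^ 2) * ∏ i : Fin s, ‖GG d a p.1 (8 ^ (ef (d + 1) i) * P) p.2‖) := by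
  apply ENNReal.continuous_ofReal.comp
  apply Continuous.mul
  · fun_prop
  · apply continuous_finsetProd
    intro i _
    exact (GG_continuous d a _).norm

theorem XX_measurable (s d : ℕ) (a : ℝ) (P : ℕ) (ρ T : ℝ) : Measurable (XX s d a P ρ T) :=
  (cont_XX s d a P ρ).measurable.lintegral_prod_right'

theorem prod_box (d k : ℕ) (a : ℝ) (θ : Fin d → ℝ) (P : ℕ) (β : ℝ) :
    ∏ i : Fin k, GG d a θ (8 ^ (i : ℕ) * P) β = ∑ x ∈ box k P, ee (β * Psi k d a θ x) := by
  unfold GG box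
  rw [Finset.prod_univ_sum]
  apply sum_congr rfl
  intro x _
  unfold Psi
  rw [mul_sum, ee_sum]

/-- **The average of the minor arcs**, first form. -/
theorem ex0 (d : ℕ) (hd : 1 ≤ d) (a : ℝ) (ha : 0 < a) (m : Fin d → ℝ) (t P : ℕ) (ht : 1 ≤ t) (hP : 1 ≤ P)
    (ρ T B u Qp C1 W : ℝ) (hρ : 0 < ρ) (hT : 0 < T) (hB : 0 ≤ B) (hu : 0 < u) (hQp : 0 < Qp) (hW : 0 < W)
    (hMB : ∫⁻ t, (∫⁻ β : ℝ, ENNReal.ofReal (Real.exp (-Real.pi * (ρ * β) ^ 2) *
      ‖∑ x ∈ box (d + 1) P, ee (β * Psi (d + 1) d a (m + t) x)‖ ^ 2)) ∂(ms d) ≤ ENNReal.ofReal C1)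
    (hWe : ∀ (β : ℝ) (θ : Fin d → ℝ), 3 * (P : ℝ) ≤ u * ‖GG d a θ P β‖ →
      ∃ q : ℕ, 1 ≤ q ∧ (q : ℝ) ≤ Qp ∧ ∃ b : ℤ,
        |q * (((d + 1).factorial : ℝ) * (β * a)) - b| ≤ Qp / (3 * (P : ℝ)) ^ (d + 1))
    (hR : Qp / (3 * (P : ℝ)) ^ (d + 1) ≤ 1 / (2 * Qp))
    (hRT : Qp / (3 * (P : ℝ)) ^ (d + 1) < T * (((d + 1).factorial : ℝ) * a)) :
    ∫⁻ t', XX (2 * (d + 1) + t) d a P ρ T (m + t') ∂(ms d) ≤
      ENNReal.ofReal ((3 * (P : ℝ)) ^ t / u * C1) +
      ENNReal.ofReal (Qp * (2 * (Qp * (((d + 1).factorial : ℝ) * a) * B + Qp / (3 * (P : ℝ)) ^ (d + 1)) + 1) *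
          (2 * (Qp / (3 * (P : ℝ)) ^ (d + 1)) / (((d + 1).factorial : ℝ) * a)) *
        (((3 * 8 ^ (d + 1) * (P : ℝ)) ^ (d + 1)) ^ 2 * (3 * (P : ℝ)) ^ (t - 1) *
          (W + 3 * P * (1 + (1 + Real.log (3 * P)) * (2 * Qp * (((d + 1).factorial : ℝ) * a))) / W))) +
      ENNReal.ofReal (((3 * 8 ^ (d + 1) * (P : ℝ)) ^ (d + 1)) ^ 2 * (3 * (P : ℝ)) ^ t *
        (2 / ρ * Real.exp (-(ρ * B) ^ 2))) := by
  have hPr : (1 : ℝ) ≤ P := by exact_mod_cast hP
  have hPp : (0 : ℝ) < P := by linarith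
  set k := d + 1 with hk
  set g : ℝ := ((k.factorial : ℕ) : ℝ) * a with hg
  have hgp : 0 < g := by
    rw [hg]
    have : (0 : ℝ) < (k.factorial : ℝ) := by exact_mod_cast Nat.factorial_pos k
    positivity
  set R : ℝ := Qp / (3 * (P : ℝ)) ^ k with hRdef
  have hR0 : 0 < R := by positivity
  set K2 : ℝ := ((3 * 8 ^ k * (P : ℝ)) ^ k) ^ 2 with hK2
  have hK2p : 0 < K2 := by positivity
  set A : ℝ := Qp * g * B + R with hA
  have hA0 : 0 ≤ A := by positivity
  set MS : Set ℝ := MM g Qp R ⌊A⌋ with hMS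
  have hMSm : MeasurableSet MS := MM_meas _ _ _ _
  -- the product
  have hprod : ∀ (θ : Fin d → ℝ) (β : ℝ), ∏ i : Fin (2 * k + t), ‖GG d a θ (8 ^ (ef k i) * P) β‖ =
      ‖∑ x ∈ box k P, ee (β * Psi k d a θ x)‖ ^ 2 * ‖GG d a θ P β‖ ^ t := by
    intro θ β
    rw [prod_ef k t (fun i => ‖GG d a θ (8 ^ i * P) β‖), ← prod_box, norm_prod]
    simp
  have hSle : ∀ (θ : Fin d → ℝ) (β : ℝ), ‖∑ x ∈ box k P, ee (β * Psi k d a θ x)‖ ^ 2 ≤ K2 := by
    intro θ β
    apply pow_le_pow_left₀ (norm_nonneg _)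
    refine (norm_sum_le _ _).trans ?_
    calc ∑ x ∈ box k P, ‖ee (β * Psi k d a θ x)‖ = (box k P).card := by
          simp [Pool.Agent.U518.WS.norm_ee]
      _ ≤ _ := card_box_le k P
  have hGle : ∀ (θ : Fin d → ℝ) (β : ℝ), ‖GG d a θ P β‖ ≤ 3 * P := fun θ β => GG_norm_le d a θ P β
  -- the pointwise bound
  have hpt : ∀ (θ : Fin d → ℝ), ∀ β ∈ {β : ℝ | T ≤ |β|},
      ENNReal.ofReal (Real.exp (-Real.pi * (ρ * β) ^ 2) * ∏ i : Fin (2 * k + t), ‖GG d a θ (8 ^ (ef k i) * P) β‖) ≤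
      ENNReal.ofReal ((3 * (P : ℝ)) ^ t / u) * ENNReal.ofReal (Real.exp (-Real.pi * (ρ * β) ^ 2) *
          ‖∑ x ∈ box k P, ee (β * Psi k d a θ x)‖ ^ 2) +
        MS.indicator (fun β => ENNReal.ofReal (K2 * (3 * (P : ℝ)) ^ (t - 1)) * ENNReal.ofReal ‖GG d a θ P β‖) β +
        ENNReal.ofReal (K2 * (3 * (P : ℝ)) ^ t) *
          {β : ℝ | B < |β|}.indicator (fun β => ENNReal.ofReal (Real.exp (-Real.pi * (ρ * β) ^ 2))) β := by
    intro θ β hβ
    have hβT : T ≤ |β| := hβ
    rw [hprod]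
    set S2 : ℝ := ‖∑ x ∈ box k P, ee (β * Psi k d a θ x)‖ ^ 2 with hS2
    set G : ℝ := ‖GG d a θ P β‖ with hG
    set e0 : ℝ := Real.exp (-Real.pi * (ρ * β) ^ 2) with he0
    have hS20 : 0 ≤ S2 := by positivity
    have hG0 : 0 ≤ G := norm_nonneg _
    have he0p : 0 < e0 := Real.exp_pos _
    have he01 : e0 ≤ 1 := by
      rw [he0, Real.exp_le_one_iff]
      have := Real.pi_pos
      have h3 : 0 ≤ Real.pi * (ρ * β) ^ 2 := by positivity
      linarith
    have hGt : G ^ t = G ^ (t - 1) * G := by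
      rw [← pow_succ]
      congr 1
      omega
    have h3t : (3 * (P : ℝ)) ^ t = (3 * (P : ℝ)) ^ (t - 1) * (3 * P) := by
      rw [← pow_succ]
      congr 1
      omega
    have hGt1 : G ^ (t - 1) ≤ (3 * (P : ℝ)) ^ (t - 1) := pow_le_pow_left₀ hG0 (hGle θ β) _
    by_cases hmin : 3 * (P : ℝ) ≤ u * G
    · obtain ⟨q, hq1, hq2, b, hb⟩ := hWe β θ hmin
      have hb' : |q * (g * β) - b| ≤ R := by
        have e : (q : ℝ) * (g * β) = q * (((k.factorial : ℕ) : ℝ) * (β * a)) := by rw [hg]; ring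
        rw [e]
        exact hb
      by_cases hBβ : |β| ≤ B
      · -- the major arcs
        have hb0 : b ≠ 0 := by
          intro hcon
          rw [hcon, Int.cast_zero, sub_zero, abs_mul, abs_mul, abs_of_pos hgp] at hb'
          have hq0 : (1 : ℝ) ≤ |(q : ℝ)| := by
            rw [abs_of_nonneg (Nat.cast_nonneg q)]
            exact_mod_cast hq1
          have h1 : T * g ≤ |(q : ℝ)| * (g * |β|) := by
            calc T * g ≤ |β| * g := mul_le_mul_of_nonneg_right hβT hgp.le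
              _ = 1 * (g * |β|) := by ring
              _ ≤ _ := mul_le_mul_of_nonneg_right hq0 (by positivity)
          linarith
        have hmem : β ∈ MS := MM_cover g Qp R B hgp hR0.le hQp.le β hBβ q hq1 hq2 b hb0 hb'
        rw [Set.indicator_of_mem hmem]
        refine le_trans ?_ le_self_add
        refine le_trans ?_ le_add_self
        rw [← ENNReal.ofReal_mul (by positivity)]
        apply ENNReal.ofReal_le_ofReal
        calc e0 * (S2 * G ^ t) ≤ 1 * (K2 * ((3 * (P : ℝ)) ^ (t - 1) * G)) := by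
              apply mul_le_mul he01 _ (by positivity) (by norm_num)
              apply mul_le_mul (hSle θ β) _ (by positivity) hK2p.le
              rw [hGt]
              exact mul_le_mul_of_nonneg_right hGt1 hG0
          _ = _ := by ring
      · -- the tail
        push Not at hBβ
        have hmem : β ∈ {β : ℝ | B < |β|} := hBβ
        rw [Set.indicator_of_mem hmem]
        refine le_trans ?_ le_add_self
        rw [← ENNReal.ofReal_mul (by positivity)]
        apply ENNReal.ofReal_le_ofReal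
        have h1 : S2 * G ^ t ≤ K2 * (3 * (P : ℝ)) ^ t :=
          mul_le_mul (hSle θ β) (pow_le_pow_left₀ hG0 (hGle θ β) t) (by positivity) hK2p.le
        calc e0 * (S2 * G ^ t) ≤ e0 * (K2 * (3 * (P : ℝ)) ^ t) := mul_le_mul_of_nonneg_left h1 he0p.le
          _ = _ := by ring
    · -- the minor arcs
      push Not at hmin
      refine le_trans ?_ le_self_add
      refine le_trans ?_ le_self_add
      rw [← ENNReal.ofReal_mul (by positivity)]
      apply ENNReal.ofReal_le_ofReal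
      have h1 : G ≤ 3 * P / u := by
        rw [le_div_iff₀ hu]
        linarith
      have h2 : G ^ t ≤ (3 * (P : ℝ)) ^ t / u := by
        rw [hGt, h3t, mul_div_assoc]
        exact mul_le_mul hGt1 h1 hG0 (by positivity)
      calc e0 * (S2 * G ^ t) ≤ e0 * (S2 * ((3 * (P : ℝ)) ^ t / u)) := by
            apply mul_le_mul_of_nonneg_left _ he0p.le
            exact mul_le_mul_of_nonneg_left h2 hS20
        _ = _ := by ring
  -- measurability
  have hc1 : Continuous fun p : (Fin d → ℝ) × ℝ => ENNReal.ofReal (Real.exp (-Real.pi * (ρ * p.2) ^ 2) *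
      ‖∑ x ∈ box k P, ee (p.2 * Psi k d a (m + p.1) x)‖ ^ 2) := by
    apply ENNReal.continuous_ofReal.comp
    apply Continuous.mul
    · fun_prop
    · apply Continuous.pow
      apply Continuous.norm
      apply continuous_finsetSum
      intro x _
      apply Pool.Agent.U518.WS.continuous_ee.comp
      apply Continuous.mul continuous_snd
      unfold Psi
      apply continuous_finsetSum
      intro i _
      exact (pf_cont d a _).comp (continuous_const.add continuous_fst)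
  have hc2 : Continuous fun p : (Fin d → ℝ) × ℝ => ENNReal.ofReal ‖GG d a (m + p.1) P p.2‖ := by
    apply ENNReal.continuous_ofReal.comp
    have h1 : Continuous fun p : (Fin d → ℝ) × ℝ => (m + p.1, p.2) := by fun_prop
    exact ((GG_continuous d a P).comp h1).norm
  have hm3 : Measurable fun β : ℝ => {β : ℝ | B < |β|}.indicator (fun β => ENNReal.ofReal (Real.exp (-Real.pi * (ρ * β) ^ 2))) β := by
    apply Measurable.indicator
    · fun_prop
    · exact measurableSet_lt measurable_const continuous_abs.measurable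
  -- the integral over the frequencies
  have hβint : ∀ t' : Fin d → ℝ, XX (2 * k + t) d a P ρ T (m + t') ≤
      ENNReal.ofReal ((3 * (P : ℝ)) ^ t / u) * (∫⁻ β : ℝ, ENNReal.ofReal (Real.exp (-Real.pi * (ρ * β) ^ 2) *
          ‖∑ x ∈ box k P, ee (β * Psi k d a (m + t') x)‖ ^ 2)) +
        ENNReal.ofReal (K2 * (3 * (P : ℝ)) ^ (t - 1)) * (∫⁻ β in MS, ENNReal.ofReal ‖GG d a (m + t') P β‖) +
        ENNReal.ofReal (K2 * (3 * (P : ℝ)) ^ t) * ENNReal.ofReal (2 / ρ * Real.exp (-(ρ * B) ^ 2)) := by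
    intro t'
    have hma : Measurable fun β : ℝ => ENNReal.ofReal (Real.exp (-Real.pi * (ρ * β) ^ 2) *
          ‖∑ x ∈ box k P, ee (β * Psi k d a (m + t') x)‖ ^ 2) :=
      (hc1.comp (Continuous.prodMk continuous_const continuous_id)).measurable
    have hmb : Measurable fun β : ℝ => ENNReal.ofReal ‖GG d a (m + t') P β‖ :=
      (hc2.comp (Continuous.prodMk continuous_const continuous_id)).measurable
    unfold XX
    calc _ ≤ ∫⁻ β in {β : ℝ | T ≤ |β|}, (ENNReal.ofReal ((3 * (P : ℝ)) ^ t / u) *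
          ENNReal.ofReal (Real.exp (-Real.pi * (ρ * β) ^ 2) * ‖∑ x ∈ box k P, ee (β * Psi k d a (m + t') x)‖ ^ 2) +
        MS.indicator (fun β => ENNReal.ofReal (K2 * (3 * (P : ℝ)) ^ (t - 1)) * ENNReal.ofReal ‖GG d a (m + t') P β‖) β +
        ENNReal.ofReal (K2 * (3 * (P : ℝ)) ^ t) *
          {β : ℝ | B < |β|}.indicator (fun β => ENNReal.ofReal (Real.exp (-Real.pi * (ρ * β) ^ 2))) β) :=
          setLIntegral_mono' (meas_T T) (hpt (m + t'))
      _ ≤ ∫⁻ β, (ENNReal.ofReal ((3 * (P : ℝ)) ^ t / u) *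
          ENNReal.ofReal (Real.exp (-Real.pi * (ρ * β) ^ 2) * ‖∑ x ∈ box k P, ee (β * Psi k d a (m + t') x)‖ ^ 2) +
        MS.indicator (fun β => ENNReal.ofReal (K2 * (3 * (P : ℝ)) ^ (t - 1)) * ENNReal.ofReal ‖GG d a (m + t') P β‖) β +
        ENNReal.ofReal (K2 * (3 * (P : ℝ)) ^ t) *
          {β : ℝ | B < |β|}.indicator (fun β => ENNReal.ofReal (Real.exp (-Real.pi * (ρ * β) ^ 2))) β) :=
          setLIntegral_le_lintegral _ _
      _ = ENNReal.ofReal ((3 * (P : ℝ)) ^ t / u) * (∫⁻ β : ℝ, ENNReal.ofReal (Real.exp (-Real.pi * (ρ * β) ^ 2) *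
          ‖∑ x ∈ box k P, ee (β * Psi k d a (m + t') x)‖ ^ 2)) +
        ENNReal.ofReal (K2 * (3 * (P : ℝ)) ^ (t - 1)) * (∫⁻ β in MS, ENNReal.ofReal ‖GG d a (m + t') P β‖) +
        ENNReal.ofReal (K2 * (3 * (P : ℝ)) ^ t) *
          ∫⁻ β, {β : ℝ | B < |β|}.indicator (fun β => ENNReal.ofReal (Real.exp (-Real.pi * (ρ * β) ^ 2))) β := by
          rw [lintegral_add_right _ (hm3.const_mul _), lintegral_add_left (hma.const_mul _),
            lintegral_const_mul _ hma, lintegral_const_mul _ hm3, lintegral_indicator hMSm,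
            lintegral_const_mul _ hmb]
      _ ≤ _ := by
          apply add_le_add le_rfl
          exact mul_le_mul_right (tailint ρ B hρ hB) _
  -- the average over the parameters
  have hM1 : Measurable fun t' : Fin d → ℝ => ∫⁻ β : ℝ, ENNReal.ofReal (Real.exp (-Real.pi * (ρ * β) ^ 2) *
          ‖∑ x ∈ box k P, ee (β * Psi k d a (m + t') x)‖ ^ 2) := hc1.measurable.lintegral_prod_right'
  have hM2 : Measurable fun t' : Fin d → ℝ => ∫⁻ β in MS, ENNReal.ofReal ‖GG d a (m + t') P β‖ :=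
    hc2.measurable.lintegral_prod_right'
  have hsecond : ∫⁻ t', (∫⁻ β in MS, ENNReal.ofReal ‖GG d a (m + t') P β‖) ∂(ms d) ≤
      ENNReal.ofReal (W + 3 * P * (1 + (1 + Real.log (3 * P)) * (2 * Qp * g)) / W) * volume MS := by
    rw [lintegral_lintegral_swap hc2.measurable.aemeasurable]
    calc _ ≤ ∫⁻ _β in MS, ENNReal.ofReal (W + 3 * P * (1 + (1 + Real.log (3 * P)) * (2 * Qp * g)) / W) := by
          apply setLIntegral_mono' hMSm
          intro β hβ
          have hlow := MM_lower g Qp R ⌊A⌋ hgp hR hQp β hβ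
          have hβ0 : 0 < |β| := lt_of_lt_of_le (by positivity) hlow
          refine (meanabs d hd a m P hP β (abs_pos.1 hβ0) W hW).trans (ENNReal.ofReal_le_ofReal ?_)
          have hL : 0 ≤ Real.log (3 * (P : ℝ)) := Real.log_nonneg (by linarith)
          have h1 : (1 + Real.log (3 * P)) / |β| ≤ (1 + Real.log (3 * P)) * (2 * Qp * g) := by
            rw [div_eq_mul_one_div]
            apply mul_le_mul_of_nonneg_left _ (by linarith)
            rw [div_le_iff₀ hβ0]
            rw [div_le_iff₀ (by positivity)] at hlow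
            linarith
          have h2 : 3 * (P : ℝ) * (1 + (1 + Real.log (3 * P)) / |β|) ≤
              3 * P * (1 + (1 + Real.log (3 * P)) * (2 * Qp * g)) :=
            mul_le_mul_of_nonneg_left (by linarith) (by positivity)
          have h3 := div_le_div_of_nonneg_right h2 hW.le
          linarith
      _ = _ := by rw [setLIntegral_const]
  calc ∫⁻ t', XX (2 * k + t) d a P ρ T (m + t') ∂(ms d) ≤
      ∫⁻ t', (ENNReal.ofReal ((3 * (P : ℝ)) ^ t / u) * (∫⁻ β : ℝ, ENNReal.ofReal (Real.exp (-Real.pi * (ρ * β) ^ 2) *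
          ‖∑ x ∈ box k P, ee (β * Psi k d a (m + t') x)‖ ^ 2)) +
        ENNReal.ofReal (K2 * (3 * (P : ℝ)) ^ (t - 1)) * (∫⁻ β in MS, ENNReal.ofReal ‖GG d a (m + t') P β‖) +
        ENNReal.ofReal (K2 * (3 * (P : ℝ)) ^ t) * ENNReal.ofReal (2 / ρ * Real.exp (-(ρ * B) ^ 2))) ∂(ms d) :=
        lintegral_mono hβint
    _ = ENNReal.ofReal ((3 * (P : ℝ)) ^ t / u) * (∫⁻ t', (∫⁻ β : ℝ, ENNReal.ofReal (Real.exp (-Real.pi * (ρ * β) ^ 2) *
          ‖∑ x ∈ box k P, ee (β * Psi k d a (m + t') x)‖ ^ 2)) ∂(ms d)) +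
        ENNReal.ofReal (K2 * (3 * (P : ℝ)) ^ (t - 1)) *
          (∫⁻ t', (∫⁻ β in MS, ENNReal.ofReal ‖GG d a (m + t') P β‖) ∂(ms d)) +
        ENNReal.ofReal (K2 * (3 * (P : ℝ)) ^ t) * ENNReal.ofReal (2 / ρ * Real.exp (-(ρ * B) ^ 2)) := by
        rw [lintegral_add_right _ measurable_const, lintegral_add_left (hM1.const_mul _),
          lintegral_const_mul _ hM1, lintegral_const_mul _ hM2, lintegral_const, measure_univ, mul_one]
    _ ≤ _ := by
        apply add_le_add
        · apply add_le_add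
          · rw [ENNReal.ofReal_mul (by positivity)]
            exact mul_le_mul_right hMB _
          · have hvol := MM_vol g Qp R A hgp hR0.le hQp.le hA0
            calc _ ≤ ENNReal.ofReal (K2 * (3 * (P : ℝ)) ^ (t - 1)) *
                  (ENNReal.ofReal (W + 3 * P * (1 + (1 + Real.log (3 * P)) * (2 * Qp * g)) / W) *
                    ENNReal.ofReal (Qp * (2 * A + 1) * (2 * R / g))) := by
                  apply mul_le_mul_right
                  exact hsecond.trans (mul_le_mul_right hvol _)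
              _ ≤ _ := by
                  have hL : 0 ≤ Real.log (3 * (P : ℝ)) := Real.log_nonneg (by linarith)
                  rw [← ENNReal.ofReal_mul (by positivity), ← ENNReal.ofReal_mul (by positivity)]
                  apply ENNReal.ofReal_le_ofReal
                  apply le_of_eq
                  ring
        · rw [← ENNReal.ofReal_mul (by positivity)]

end Pool.Agent.U914.WP
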