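import Mathlib
import Pool.Agent.U914.WP.EX

/-! Almost all polynomials in Waring's problem: numerical estimates. -/

set_option autoImplicit false

open Finset MeasureTheory
open Pool.Agent.U518.WS (ee ms)

namespace Pool.Agent.U914.WP

theorem num2 (k t : ℕ) (ht : 1 ≤ t) (c0 g : ℝ) (hc0 : 1 ≤ c0) (hg : 0 < g) : ∃ C : ℝ, 0 < C ∧ ∀ p : ℝ, 1 ≤ p →
    ∀ Qp B R : ℝ, 0 < Qp → Qp ≤ c0 * p ^ ((1 : ℝ) / 32) → 0 ≤ B → B ≤ p ^ ((1 : ℝ) / 32) → R = Qp / (3 * p) ^ k →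
    R ≤ 1 →
    Qp * (2 * (Qp * g * B + R) + 1) * (2 * R / g) *
        (((3 * 8 ^ k * p) ^ k) ^ 2 * (3 * p) ^ (t - 1) *
          (p ^ ((3 : ℝ) / 4) + 3 * p * (1 + (1 + Real.log (3 * p)) * (2 * Qp * g)) / p ^ ((3 : ℝ) / 4))) ≤
      C * p ^ ((k : ℝ) + t - 1 / 8) := by
  refine ⟨(c0 * (2 * c0 * g + 3)) * (2 * c0 / g) * ((((3 * 8 ^ k) ^ k) ^ 2 * 3 ^ (t - 1)) * (4 + 210 * c0 * g)),
    by positivity, fun p hp Qp B R hQ0 hQ hB0 hB hR hR1 => ?_⟩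
  have hp0 : 0 < p := by linarith
  have hq1 : (1 : ℝ) ≤ p ^ ((1 : ℝ) / 32) := Real.one_le_rpow hp (by norm_num)
  have h16 : p ^ ((1 : ℝ) / 32) * p ^ ((1 : ℝ) / 32) = p ^ ((1 : ℝ) / 16) := by
    rw [← Real.rpow_add hp0]; norm_num
  have h16' : (1 : ℝ) ≤ p ^ ((1 : ℝ) / 16) := Real.one_le_rpow hp (by norm_num)
  have hR0 : 0 < R := by rw [hR]; positivity
  have f2 : 2 * (Qp * g * B + R) + 1 ≤ (2 * c0 * g + 3) * p ^ ((1 : ℝ) / 16) := by
    have h1 : Qp * g * B ≤ c0 * g * p ^ ((1 : ℝ) / 16) := by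
      calc Qp * g * B ≤ (c0 * p ^ ((1 : ℝ) / 32)) * g * p ^ ((1 : ℝ) / 32) := by
            apply mul_le_mul _ hB hB0 (by positivity)
            exact mul_le_mul_of_nonneg_right hQ hg.le
        _ = c0 * g * (p ^ ((1 : ℝ) / 32) * p ^ ((1 : ℝ) / 32)) := by ring
        _ = _ := by rw [h16]
    nlinarith
  have f3 : 2 * R / g ≤ (2 * c0 / g) * p ^ ((1 : ℝ) / 32 - k) := by
    have h1 : R ≤ c0 * p ^ ((1 : ℝ) / 32 - k) := by
      rw [hR, Real.rpow_sub hp0, Real.rpow_natCast, ← mul_div_assoc]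
      apply div_le_div₀ (by positivity) hQ (by positivity)
      exact pow_le_pow_left₀ hp0.le (by linarith) k
    rw [div_mul_eq_mul_div]
    apply div_le_div_of_nonneg_right _ hg.le
    linarith
  have f4 : ((3 * 8 ^ k * p) ^ k) ^ 2 * (3 * p) ^ (t - 1) =
      (((3 * 8 ^ k) ^ k) ^ 2 * 3 ^ (t - 1)) * p ^ (2 * (k : ℝ) + t - 1) := by
    have e1 : p ^ (2 * (k : ℝ) + t - 1) = (p ^ k) ^ 2 * p ^ (t - 1) := by
      rw [← Real.rpow_natCast p (t - 1), Nat.cast_sub ht, ← pow_mul, ← Real.rpow_natCast p (k * 2),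
        ← Real.rpow_add hp0]
      congr 1
      push_cast
      ring
    rw [e1, mul_pow _ p, mul_pow _ p, mul_pow _ (p ^ k)]
    ring
  have f6 : p ^ ((3 : ℝ) / 4) + 3 * p * (1 + (1 + Real.log (3 * p)) * (2 * Qp * g)) / p ^ ((3 : ℝ) / 4) ≤
      (4 + 210 * c0 * g) * p ^ ((3 : ℝ) / 4) := by
    have hlog : 1 + Real.log (3 * p) ≤ 35 * p ^ ((1 : ℝ) / 32) := by
      rw [Real.log_mul (by norm_num) hp0.ne']
      have h2 : Real.log 3 ≤ 2 := by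
        have := Real.log_le_sub_one_of_pos (by norm_num : (0 : ℝ) < 3)
        linarith
      have h3 := Real.log_le_rpow_div hp0.le (by norm_num : (0 : ℝ) < 1 / 32)
      have h4 : p ^ ((1 : ℝ) / 32) / (1 / 32) = 32 * p ^ ((1 : ℝ) / 32) := by ring
      rw [h4] at h3
      linarith
    have hlog0 : 0 ≤ 1 + Real.log (3 * p) := by
      have : 0 ≤ Real.log (3 * p) := Real.log_nonneg (by linarith)
      linarith
    have h5 : 1 + (1 + Real.log (3 * p)) * (2 * Qp * g) ≤ (1 + 70 * c0 * g) * p ^ ((1 : ℝ) / 16) := by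
      have h6 : (1 + Real.log (3 * p)) * (2 * Qp * g) ≤ 70 * c0 * g * p ^ ((1 : ℝ) / 16) := by
        calc (1 + Real.log (3 * p)) * (2 * Qp * g) ≤ (35 * p ^ ((1 : ℝ) / 32)) * (2 * (c0 * p ^ ((1 : ℝ) / 32)) * g) := by
              apply mul_le_mul hlog _ (by positivity) (by positivity)
              apply mul_le_mul_of_nonneg_right _ hg.le
              linarith
          _ = 70 * c0 * g * (p ^ ((1 : ℝ) / 32) * p ^ ((1 : ℝ) / 32)) := by ring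
          _ = _ := by rw [h16]
      nlinarith
    have h7 : 3 * p * (1 + (1 + Real.log (3 * p)) * (2 * Qp * g)) / p ^ ((3 : ℝ) / 4) ≤
        3 * (1 + 70 * c0 * g) * p ^ ((3 : ℝ) / 4) := by
      rw [div_le_iff₀ (by positivity)]
      calc 3 * p * (1 + (1 + Real.log (3 * p)) * (2 * Qp * g)) ≤ 3 * p * ((1 + 70 * c0 * g) * p ^ ((1 : ℝ) / 16)) :=
            mul_le_mul_of_nonneg_left h5 (by positivity)
        _ = 3 * (1 + 70 * c0 * g) * (p ^ (1 : ℝ) * p ^ ((1 : ℝ) / 16)) := by rw [Real.rpow_one]; ring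
        _ = 3 * (1 + 70 * c0 * g) * p ^ (1 + (1 : ℝ) / 16) := by rw [← Real.rpow_add hp0]
        _ ≤ 3 * (1 + 70 * c0 * g) * p ^ ((3 : ℝ) / 4 + 3 / 4) := by
            apply mul_le_mul_of_nonneg_left _ (by positivity)
            exact Real.rpow_le_rpow_of_exponent_le hp (by norm_num)
        _ = _ := by rw [Real.rpow_add hp0]; ring
    linarith
  have f6' : 0 ≤ p ^ ((3 : ℝ) / 4) + 3 * p * (1 + (1 + Real.log (3 * p)) * (2 * Qp * g)) / p ^ ((3 : ℝ) / 4) := by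
    have : 0 ≤ Real.log (3 * p) := Real.log_nonneg (by linarith)
    positivity
  rw [f4]
  calc Qp * (2 * (Qp * g * B + R) + 1) * (2 * R / g) *
        ((((3 * 8 ^ k) ^ k) ^ 2 * 3 ^ (t - 1)) * p ^ (2 * (k : ℝ) + t - 1) *
          (p ^ ((3 : ℝ) / 4) + 3 * p * (1 + (1 + Real.log (3 * p)) * (2 * Qp * g)) / p ^ ((3 : ℝ) / 4))) ≤
      (c0 * p ^ ((1 : ℝ) / 32)) * ((2 * c0 * g + 3) * p ^ ((1 : ℝ) / 16)) * ((2 * c0 / g) * p ^ ((1 : ℝ) / 32 - k)) *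
        ((((3 * 8 ^ k) ^ k) ^ 2 * 3 ^ (t - 1)) * p ^ (2 * (k : ℝ) + t - 1) *
          ((4 + 210 * c0 * g) * p ^ ((3 : ℝ) / 4))) := by
        apply mul_le_mul
        · apply mul_le_mul
          · exact mul_le_mul hQ f2 (by positivity) (by positivity)
          · exact f3
          · positivity
          · positivity
        · exact mul_le_mul_of_nonneg_left f6 (by positivity)
        · positivity
        · positivity
    _ = (c0 * (2 * c0 * g + 3)) * (2 * c0 / g) * ((((3 * 8 ^ k) ^ k) ^ 2 * 3 ^ (t - 1)) * (4 + 210 * c0 * g)) *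
        (p ^ ((1 : ℝ) / 32) * p ^ ((1 : ℝ) / 16) * p ^ ((1 : ℝ) / 32 - k) * p ^ (2 * (k : ℝ) + t - 1) *
          p ^ ((3 : ℝ) / 4)) := by ring
    _ = _ := by
        congr 1
        rw [← Real.rpow_add hp0, ← Real.rpow_add hp0, ← Real.rpow_add hp0, ← Real.rpow_add hp0]
        congr 1
        ring

theorem num3 (k t : ℕ) (κ : ℝ) (hκ : 0 < κ) : ∃ C : ℝ, 0 < C ∧ ∀ p : ℝ, 1 ≤ p →
    ((3 * 8 ^ k * p) ^ k) ^ 2 * (3 * p) ^ t * (2 / p ^ (-κ) * Real.exp (-(p ^ (-κ) * p ^ (2 * κ)) ^ 2)) ≤ C := by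
  obtain ⟨n, hn⟩ := exists_nat_ge ((2 * (k : ℝ) + t + κ) / (2 * κ))
  refine ⟨((3 * 8 ^ k) ^ k) ^ 2 * 3 ^ t * 2 * n.factorial, by positivity, fun p hp => ?_⟩
  have hp0 : 0 < p := by linarith
  set y : ℝ := (p ^ (-κ) * p ^ (2 * κ)) ^ 2 with hy
  have hye : y = p ^ (2 * κ) := by
    rw [hy, ← Real.rpow_add hp0, ← Real.rpow_natCast, ← Real.rpow_mul hp0.le]
    congr 1
    push_cast
    ring
  have hy0 : 0 < y := by rw [hye]; positivity
  have h1 : Real.exp (-y) ≤ n.factorial / y ^ n := by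
    rw [Real.exp_neg, inv_eq_one_div, div_le_div_iff₀ (Real.exp_pos _) (by positivity), one_mul]
    have := Real.pow_div_factorial_le_exp y hy0.le n
    rw [div_le_iff₀ (by positivity)] at this
    linarith
  have h2 : y ^ n = p ^ (2 * κ * n) := by
    rw [hye, ← Real.rpow_natCast, ← Real.rpow_mul hp0.le]
  have h3 : 2 * (k : ℝ) + t + κ ≤ 2 * κ * n := by
    rw [div_le_iff₀ (by positivity)] at hn
    linarith
  have e1 : ((3 * 8 ^ k * p) ^ k) ^ 2 * (3 * p) ^ t = ((3 * 8 ^ k) ^ k) ^ 2 * 3 ^ t * p ^ (2 * (k : ℝ) + t) := by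
    have e2 : p ^ (2 * (k : ℝ) + t) = (p ^ k) ^ 2 * p ^ t := by
      rw [← Real.rpow_natCast p t, ← pow_mul, ← Real.rpow_natCast p (k * 2), ← Real.rpow_add hp0]
      congr 1
      push_cast
      ring
    rw [e2, mul_pow _ p, mul_pow _ p, mul_pow _ (p ^ k)]
    ring
  have e3 : 2 / p ^ (-κ) = 2 * p ^ κ := by
    rw [Real.rpow_neg hp0.le, div_inv_eq_mul]
  rw [e1, e3]
  calc ((3 * 8 ^ k) ^ k) ^ 2 * 3 ^ t * p ^ (2 * (k : ℝ) + t) * (2 * p ^ κ * Real.exp (-y)) ≤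
      ((3 * 8 ^ k) ^ k) ^ 2 * 3 ^ t * p ^ (2 * (k : ℝ) + t) * (2 * p ^ κ * (n.factorial / p ^ (2 * κ * n))) := by
        rw [← h2]
        apply mul_le_mul_of_nonneg_left _ (by positivity)
        exact mul_le_mul_of_nonneg_left h1 (by positivity)
    _ = ((3 * 8 ^ k) ^ k) ^ 2 * 3 ^ t * 2 * n.factorial * (p ^ (2 * (k : ℝ) + t) * p ^ κ / p ^ (2 * κ * n)) := by ring
    _ ≤ ((3 * 8 ^ k) ^ k) ^ 2 * 3 ^ t * 2 * n.factorial * 1 := by
        apply mul_le_mul_of_nonneg_left _ (by positivity)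
        rw [← Real.rpow_add hp0, div_le_one (by positivity)]
        exact Real.rpow_le_rpow_of_exponent_le hp h3
    _ = _ := by ring

theorem nu_le (κ : ℝ) (hκ : 0 < κ) : ∃ C : ℝ, 0 < C ∧ ∀ ν : ℕ, ((ν : ℝ) + 1) ^ 2 ≤ C * ((2 ^ ν : ℕ) : ℝ) ^ κ := by
  set b : ℝ := (2 : ℝ) ^ (κ / 2) with hb
  have hb1 : 1 < b := Real.one_lt_rpow (by norm_num) (by positivity)
  set c : ℝ := min 1 (b - 1) with hc
  have hc0 : 0 < c := lt_min (by norm_num) (by linarith)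
  refine ⟨1 / c ^ 2, by positivity, fun ν => ?_⟩
  have hν : (0 : ℝ) ≤ ν := Nat.cast_nonneg ν
  have h1 : 1 + (ν : ℝ) * (b - 1) ≤ b ^ ν := by
    have := one_add_mul_le_pow (by linarith : (-2 : ℝ) ≤ b - 1) ν
    rwa [add_sub_cancel] at this
  have h2 : c * (ν + 1) ≤ b ^ ν := by
    have h3 : c ≤ 1 := min_le_left _ _
    have h4 : c ≤ b - 1 := min_le_right _ _
    nlinarith
  have h5 : (c * (ν + 1)) ^ 2 ≤ (b ^ ν) ^ 2 := pow_le_pow_left₀ (by positivity) h2 2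
  have hb2 : b ^ ν = (2 : ℝ) ^ (κ / 2 * ν) := by
    rw [hb, ← Real.rpow_natCast, ← Real.rpow_mul (by norm_num)]
  have h7 : ((2 ^ ν : ℕ) : ℝ) ^ κ = (2 : ℝ) ^ ((ν : ℝ) * κ) := by
    push_cast
    rw [← Real.rpow_natCast, ← Real.rpow_mul (by norm_num)]
  have h6 : (b ^ ν) ^ 2 = ((2 ^ ν : ℕ) : ℝ) ^ κ := by
    rw [hb2, h7, ← Real.rpow_natCast, ← Real.rpow_mul (by norm_num)]
    congr 1
    push_cast
    ring
  rw [h6, mul_pow] at h5
  rw [one_div, ← div_eq_inv_mul, le_div_iff₀ (by positivity)]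
  linarith

/-- **The average of the minor arcs.** -/
theorem ex (d : ℕ) (hd : 1 ≤ d) (a : ℝ) (ha : 0 < a) : ∃ lam : ℝ, 0 < lam ∧ lam ≤ 1 / 32 ∧ ∀ t : ℕ, 1 ≤ t →
    ∀ m : Fin d → ℝ, ∃ C : ℝ, 0 < C ∧ ∃ ν0 : ℕ, ∀ ν : ℕ, ν0 ≤ ν →
      ∫⁻ t', XX (2 * (d + 1) + t) d a (2 ^ ν) (((2 ^ ν : ℕ) : ℝ) ^ (-(lam / 8)))
        (((2 ^ ν : ℕ) : ℝ) ^ ((1 : ℝ) / 2 - ((d + 1 : ℕ) : ℝ))) (m + t') ∂(ms d) ≤
        ENNReal.ofReal (C * ((2 ^ ν : ℕ) : ℝ) ^ (((d + 1 : ℕ) : ℝ) + t - lam / 2)) := by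
  obtain ⟨c0, m0, hc0, hweyl⟩ := weyl d a
  set lam : ℝ := 1 / (32 * (m0 + 1)) with hlam
  have hlam0 : 0 < lam := by positivity
  have hm0 : (0 : ℝ) ≤ m0 := Nat.cast_nonneg m0
  have hlam1 : lam ≤ 1 / 32 := by
    rw [hlam]
    apply one_div_le_one_div_of_le (by norm_num)
    linarith
  have hlamm : lam * m0 ≤ 1 / 32 := by
    rw [hlam, one_div_mul_eq_div, div_le_div_iff₀ (by positivity) (by norm_num)]
    linarith
  refine ⟨lam, hlam0, hlam1, fun t ht m => ?_⟩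
  obtain ⟨Cm, hCm, hmean⟩ := mean_box d a ha m
  set k := d + 1 with hk
  set g : ℝ := ((k.factorial : ℕ) : ℝ) * a with hg
  have hgp : 0 < g := by
    rw [hg]
    have : (0 : ℝ) < (k.factorial : ℝ) := by exact_mod_cast Nat.factorial_pos k
    positivity
  have hc0r : (1 : ℝ) ≤ c0 := by exact_mod_cast hc0
  have hκ : 0 < lam / 8 := by positivity
  obtain ⟨C2, hC2, hn2⟩ := num2 k t ht c0 g hc0r hgp
  obtain ⟨C3, hC3, hn3⟩ := num3 k t (lam / 8) hκ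
  obtain ⟨C4, hC4, hn4⟩ := nu_le (lam / 8) hκ
  refine ⟨3 ^ t * Cm * C4 + C2 + C3, by positivity, ?_⟩
  -- eventual conditions
  have htend : Filter.Tendsto (fun ν : ℕ => ((2 ^ ν : ℕ) : ℝ)) Filter.atTop Filter.atTop :=
    tendsto_natCast_atTop_atTop.comp (tendsto_pow_atTop_atTop_of_one_lt (by norm_num : 1 < 2))
  have hev1 : ∀ᶠ ν : ℕ in Filter.atTop, ((2 ^ ν : ℕ) : ℝ) ^ (-(15 / 16 : ℝ)) ≤ 1 / (2 * c0 ^ 2) :=
    ((tendsto_rpow_neg_atTop (by norm_num : (0 : ℝ) < 15 / 16)).comp htend).eventually_le_const (by positivity)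
  have hev2 : ∀ᶠ ν : ℕ in Filter.atTop, ((2 ^ ν : ℕ) : ℝ) ^ (-(15 / 32 : ℝ)) ≤ g / (2 * c0) :=
    ((tendsto_rpow_neg_atTop (by norm_num : (0 : ℝ) < 15 / 32)).comp htend).eventually_le_const (by positivity)
  obtain ⟨ν0, hν0⟩ := Filter.eventually_atTop.1 (hev1.and hev2)
  refine ⟨ν0, fun ν hν => ?_⟩
  obtain ⟨he1, he2⟩ := hν0 ν hν
  set P : ℕ := 2 ^ ν with hP
  have hP1 : 1 ≤ P := Nat.one_le_two_pow
  set p : ℝ := (P : ℝ) with hp
  have hp1 : 1 ≤ p := by rw [hp]; exact_mod_cast hP1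
  have hp0 : 0 < p := by linarith
  set u : ℝ := p ^ lam with hu
  have hu1 : 1 ≤ u := Real.one_le_rpow hp1 hlam0.le
  set Qp : ℝ := c0 * u ^ m0 with hQp
  have hQp1 : 1 ≤ Qp := by
    rw [hQp]
    exact one_le_mul_of_one_le_of_one_le hc0r (one_le_pow₀ hu1)
  have hQple : Qp ≤ c0 * p ^ ((1 : ℝ) / 32) := by
    rw [hQp, hu, ← Real.rpow_natCast, ← Real.rpow_mul hp0.le]
    apply mul_le_mul_of_nonneg_left _ (by positivity)
    exact Real.rpow_le_rpow_of_exponent_le hp1 hlamm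
  have hpk : p ≤ (3 * p) ^ k := by
    calc p ≤ 3 * p := by linarith
      _ ≤ (3 * p) ^ k := le_self_pow₀ (by linarith) (by omega)
  have hpk' : p ^ k ≤ (3 * p) ^ k := pow_le_pow_left₀ hp0.le (by linarith) k
  have hR : Qp / (3 * p) ^ k ≤ 1 / (2 * Qp) := by
    rw [div_le_div_iff₀ (by positivity) (by positivity)]
    have h1 : Qp * (2 * Qp) ≤ 2 * c0 ^ 2 * p ^ ((1 : ℝ) / 16) := by
      calc Qp * (2 * Qp) ≤ (c0 * p ^ ((1 : ℝ) / 32)) * (2 * (c0 * p ^ ((1 : ℝ) / 32))) := by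
            apply mul_le_mul hQple _ (by positivity) (by positivity)
            linarith
        _ = 2 * c0 ^ 2 * (p ^ ((1 : ℝ) / 32) * p ^ ((1 : ℝ) / 32)) := by ring
        _ = _ := by
            rw [← Real.rpow_add hp0]
            norm_num
    have h2 : 2 * (c0 : ℝ) ^ 2 * p ^ ((1 : ℝ) / 16) ≤ p := by
      have h3 : p = p ^ ((1 : ℝ) / 16) / p ^ (-(15 / 16 : ℝ)) := by
        rw [← Real.rpow_sub hp0]
        norm_num
      have h4 : p ^ ((1 : ℝ) / 16) / (1 / (2 * (c0 : ℝ) ^ 2)) ≤ p ^ ((1 : ℝ) / 16) / p ^ (-(15 / 16 : ℝ)) :=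
        div_le_div_of_nonneg_left (by positivity) (by positivity) he1
      rw [← h3, div_div_eq_mul_div, div_one] at h4
      linarith
    linarith
  have hR1 : Qp / (3 * p) ^ k ≤ 1 := by
    refine hR.trans ?_
    rw [div_le_one (by positivity)]
    linarith
  have hT0 : 0 < p ^ ((1 : ℝ) / 2 - (k : ℝ)) := by positivity
  have hRT : Qp / (3 * p) ^ k < p ^ ((1 : ℝ) / 2 - (k : ℝ)) * g := by
    have h1 : Qp / (3 * p) ^ k ≤ c0 * p ^ ((1 : ℝ) / 32) / p ^ k := div_le_div₀ (by positivity) hQple (by positivity) hpk'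
    have h2 : c0 * p ^ ((1 : ℝ) / 32) / p ^ k = c0 * p ^ (-(15 / 32 : ℝ)) * p ^ ((1 : ℝ) / 2 - (k : ℝ)) := by
      rw [mul_assoc, ← Real.rpow_add hp0, mul_div_assoc, ← Real.rpow_natCast p k, ← Real.rpow_sub hp0]
      congr 2
      ring
    have h3 : (c0 : ℝ) * p ^ (-(15 / 32 : ℝ)) ≤ g / 2 := by
      calc (c0 : ℝ) * p ^ (-(15 / 32 : ℝ)) ≤ c0 * (g / (2 * c0)) := mul_le_mul_of_nonneg_left he2 (by positivity)
        _ = g / 2 := by field_simp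
    have h4 : (c0 : ℝ) * p ^ (-(15 / 32 : ℝ)) * p ^ ((1 : ℝ) / 2 - (k : ℝ)) ≤ g / 2 * p ^ ((1 : ℝ) / 2 - (k : ℝ)) :=
      mul_le_mul_of_nonneg_right h3 hT0.le
    have h5 : 0 < g / 2 * p ^ ((1 : ℝ) / 2 - (k : ℝ)) := by positivity
    linarith
  have hρ0 : 0 < p ^ (-(lam / 8)) := by positivity
  have hρ1 : p ^ (-(lam / 8)) ≤ 1 := Real.rpow_le_one_of_one_le_of_nonpos hp1 (by linarith)
  have hB0 : 0 ≤ p ^ (2 * (lam / 8)) := by positivity
  have hBle : p ^ (2 * (lam / 8)) ≤ p ^ ((1 : ℝ) / 32) := Real.rpow_le_rpow_of_exponent_le hp1 (by linarith)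
  have hmv := hmean ν (p ^ (-(lam / 8))) hρ0 hρ1
  have key := ex0 d hd a ha m t P ht hP1 (p ^ (-(lam / 8))) (p ^ ((1 : ℝ) / 2 - (k : ℝ))) (p ^ (2 * (lam / 8))) u Qp
    (Cm * (ν + 1) ^ 2 * p ^ k / p ^ (-(lam / 8))) (p ^ ((3 : ℝ) / 4)) hρ0 hT0 hB0 (by positivity) (by positivity)
    (by positivity) hmv (fun β θ h => hweyl P u β θ hP1 hu1 h) hR hRT
  refine key.trans ?_
  have e1 : (3 * p) ^ t / u * (Cm * (ν + 1) ^ 2 * p ^ k / p ^ (-(lam / 8))) ≤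
      3 ^ t * Cm * C4 * p ^ ((k : ℝ) + t - lam / 2) := by
    have h1 := hn4 ν
    have h2 : p ^ k / p ^ (-(lam / 8)) = p ^ ((k : ℝ) + lam / 8) := by
      rw [← Real.rpow_natCast p k, ← Real.rpow_sub hp0]
      congr 1
      ring
    have h3 : (3 * p) ^ t / u = 3 ^ t * p ^ ((t : ℝ) - lam) := by
      rw [mul_pow, hu, Real.rpow_sub hp0, Real.rpow_natCast]
      ring
    calc (3 * p) ^ t / u * (Cm * (ν + 1) ^ 2 * p ^ k / p ^ (-(lam / 8))) =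
        3 ^ t * Cm * (ν + 1) ^ 2 * (p ^ ((t : ℝ) - lam) * p ^ ((k : ℝ) + lam / 8)) := by
          rw [h3, ← h2]
          ring
      _ ≤ 3 ^ t * Cm * (C4 * p ^ (lam / 8)) * (p ^ ((t : ℝ) - lam) * p ^ ((k : ℝ) + lam / 8)) := by
          apply mul_le_mul_of_nonneg_right _ (by positivity)
          exact mul_le_mul_of_nonneg_left h1 (by positivity)
      _ = 3 ^ t * Cm * C4 * p ^ ((k : ℝ) + t - 3 * lam / 4) := by
          have : (k : ℝ) + t - 3 * lam / 4 = lam / 8 + ((t - lam) + (k + lam / 8)) := by ring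
          rw [this, Real.rpow_add hp0 (lam / 8) ((t - lam) + (k + lam / 8)),
            Real.rpow_add hp0 (t - lam) (k + lam / 8)]
          ring
      _ ≤ _ := by
          apply mul_le_mul_of_nonneg_left _ (by positivity)
          exact Real.rpow_le_rpow_of_exponent_le hp1 (by linarith)
  have e2 := hn2 p hp1 Qp (p ^ (2 * (lam / 8))) (Qp / (3 * p) ^ k) (by positivity) hQple hB0 hBle rfl hR1
  have e2' : C2 * p ^ ((k : ℝ) + t - 1 / 8) ≤ C2 * p ^ ((k : ℝ) + t - lam / 2) := by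
    apply mul_le_mul_of_nonneg_left _ hC2.le
    exact Real.rpow_le_rpow_of_exponent_le hp1 (by linarith)
  have e3 := hn3 p hp1
  have e3' : C3 ≤ C3 * p ^ ((k : ℝ) + t - lam / 2) := by
    apply le_mul_of_one_le_right hC3.le
    apply Real.one_le_rpow hp1
    have h1 : (0 : ℝ) ≤ t := Nat.cast_nonneg t
    have h2 : (1 : ℝ) ≤ k := by
      rw [hk]; push_cast
      have : (0 : ℝ) ≤ d := Nat.cast_nonneg d
      linarith
    linarith
  have hL : 0 ≤ Real.log (3 * p) := Real.log_nonneg (by linarith)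
  rw [← ENNReal.ofReal_add (by positivity) (by positivity), ← ENNReal.ofReal_add (by positivity) (by positivity)]
  apply ENNReal.ofReal_le_ofReal
  have e4 : (3 ^ t * Cm * C4 + C2 + C3) * p ^ ((k : ℝ) + t - lam / 2) = 3 ^ t * Cm * C4 * p ^ ((k : ℝ) + t - lam / 2) +
      C2 * p ^ ((k : ℝ) + t - lam / 2) + C3 * p ^ ((k : ℝ) + t - lam / 2) := by ring
  rw [e4]
  exact add_le_add (add_le_add e1 (e2.trans e2')) (e3.trans e3')

end Pool.Agent.U914.WP
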