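import Mathlib
import Pool.Agent.U914.WP.NU

/-! Almost all polynomials in Waring's problem: Borel–Cantelli, and the comparison of two scales. -/

set_option autoImplicit false

open Finset MeasureTheory Complex
open Pool.Agent.U518.WS (ee norm_ee ee_add gg gg_fourier gauss_int exp_diff meas_T gg_nonneg minorant exp_small continuous_ee ms)

namespace Pool.Agent.U914.WP

/-- **Borel–Cantelli.** -/
theorem bc {Ω : Type*} [MeasurableSpace Ω] (μ : Measure Ω) (X : ℕ → Ω → ENNReal) (hm : ∀ ν, Measurable (X ν))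
    (C E η : ℝ) (hη : 0 < η) (hC : 0 < C) (ν0 : ℕ)
    (h : ∀ ν, ν0 ≤ ν → ∫⁻ ω, X ν ω ∂μ ≤ ENNReal.ofReal (C * ((2 ^ ν : ℕ) : ℝ) ^ (E - 2 * η))) :
    ∀ᵐ ω ∂μ, ∀ᶠ ν : ℕ in Filter.atTop, X ν ω ≤ ENNReal.ofReal (((2 ^ ν : ℕ) : ℝ) ^ (E - η)) := by
  set P : ℕ → ℝ := fun ν => ((2 ^ (ν + ν0) : ℕ) : ℝ) with hPdef
  have hPp : ∀ ν, 0 < P ν := fun ν => by rw [hPdef]; positivity
  set Y : ℕ → Ω → ENNReal := fun ν ω => ENNReal.ofReal ((P ν) ^ (-(E - η))) * X (ν + ν0) ω with hY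
  have hmeas : ∀ ν, Measurable (Y ν) := fun ν => (hm _).const_mul _
  have hE : ∀ ν, ∫⁻ ω, Y ν ω ∂μ ≤ ENNReal.ofReal (C * ((2 : ℝ) ^ (-η)) ^ ν) := by
    intro ν
    rw [hY]
    simp only
    rw [lintegral_const_mul _ (hm _)]
    have h3 := h (ν + ν0) (by omega)
    calc ENNReal.ofReal ((P ν) ^ (-(E - η))) * ∫⁻ ω, X (ν + ν0) ω ∂μ ≤
          ENNReal.ofReal ((P ν) ^ (-(E - η))) * ENNReal.ofReal (C * (P ν) ^ (E - 2 * η)) :=
          mul_le_mul_right h3 _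
      _ ≤ ENNReal.ofReal (C * ((2 : ℝ) ^ (-η)) ^ ν) := by
          rw [← ENNReal.ofReal_mul (Real.rpow_pos_of_pos (hPp ν) _).le]
          apply ENNReal.ofReal_le_ofReal
          calc _ = C * ((P ν) ^ (-(E - η)) * (P ν) ^ (E - 2 * η)) := by ring
            _ = C * (P ν) ^ (-η) := by
                rw [← Real.rpow_add (hPp ν)]
                congr 2
                ring
            _ ≤ C * ((2 : ℝ) ^ (-η)) ^ ν := by
                apply mul_le_mul_of_nonneg_left _ hC.le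
                rw [hPdef]
                simp only
                push_cast
                rw [← Real.rpow_natCast, ← Real.rpow_natCast, ← Real.rpow_mul (by norm_num),
                  ← Real.rpow_mul (by norm_num)]
                apply Real.rpow_le_rpow_of_exponent_le (by norm_num)
                push_cast
                have : (0 : ℝ) ≤ ν0 := Nat.cast_nonneg ν0
                nlinarith
  have hr1 : (2 : ℝ) ^ (-η) < 1 := by
    rw [Real.rpow_neg (by norm_num)]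
    apply inv_lt_one_of_one_lt₀
    exact Real.one_lt_rpow (by norm_num) hη
  have hsum : Summable fun ν : ℕ => C * ((2 : ℝ) ^ (-η)) ^ ν :=
    (summable_geometric_of_lt_one (by positivity) hr1).mul_left C
  have htot : ∫⁻ ω, ∑' ν, Y ν ω ∂μ ≠ ⊤ := by
    rw [lintegral_tsum fun ν => (hmeas ν).aemeasurable]
    have h4 : ∑' ν, ∫⁻ ω, Y ν ω ∂μ ≤ ∑' ν, ENNReal.ofReal (C * ((2 : ℝ) ^ (-η)) ^ ν) :=
      ENNReal.tsum_le_tsum hE
    refine ne_top_of_le_ne_top ?_ h4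
    rw [← ENNReal.ofReal_tsum_of_nonneg (fun ν => by positivity) hsum]
    exact ENNReal.ofReal_ne_top
  have hae : ∀ᵐ ω ∂μ, ∑' ν, Y ν ω < ⊤ := ae_lt_top (Measurable.tsum hmeas) htot
  filter_upwards [hae] with ω hω
  have h5 := ENNReal.tendsto_cofinite_zero_of_tsum_ne_top hω.ne
  rw [Nat.cofinite_eq_atTop] at h5
  have h6 : ∀ᶠ ν in Filter.atTop, Y ν ω < 1 := h5.eventually_lt_const (by norm_num)
  obtain ⟨N, hN⟩ := Filter.eventually_atTop.1 h6
  refine Filter.eventually_atTop.2 ⟨N + ν0, fun ν' hν' => ?_⟩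
  obtain ⟨ν, rfl⟩ : ∃ ν, ν' = ν + ν0 := ⟨ν' - ν0, by omega⟩
  have h7 : ENNReal.ofReal ((P ν) ^ (-(E - η))) * X (ν + ν0) ω ≤ 1 := (hN ν (by omega)).le
  have h8 : ENNReal.ofReal ((P ν) ^ (E - η)) * ENNReal.ofReal ((P ν) ^ (-(E - η))) = 1 := by
    rw [← ENNReal.ofReal_mul (Real.rpow_pos_of_pos (hPp ν) _).le, ← Real.rpow_add (hPp ν)]
    simp
  calc X (ν + ν0) ω = ENNReal.ofReal ((P ν) ^ (E - η)) *
        (ENNReal.ofReal ((P ν) ^ (-(E - η))) * X (ν + ν0) ω) := by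
        rw [← mul_assoc, h8, one_mul]
    _ ≤ ENNReal.ofReal ((P ν) ^ (E - η)) * 1 := mul_le_mul_right h7 _
    _ = _ := by rw [mul_one]

variable {ι : Type*}

theorem count_fourier (V : Finset ι) (y : ι → ℝ) (a N : ℝ) (ha : 0 < a) :
    ((∑ n ∈ V, gg a (y n - N) : ℝ) : ℂ) =
      ∫ β : ℝ, ((Real.exp (-Real.pi * (a * β) ^ 2) : ℝ) : ℂ) * (ee (-(β * N)) * ∑ n ∈ V, ee (β * y n)) := by
  have h1 : ∀ β : ℝ, ((Real.exp (-Real.pi * (a * β) ^ 2) : ℝ) : ℂ) * (ee (-(β * N)) * ∑ n ∈ V, ee (β * y n)) =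
      ∑ n ∈ V, ((Real.exp (-Real.pi * (a * β) ^ 2) : ℝ) : ℂ) * ee (β * (y n - N)) := by
    intro β
    rw [mul_sum, mul_sum]
    apply sum_congr rfl
    intro n _
    rw [← ee_add]
    congr 2
    ring
  rw [integral_congr_ae (Filter.Eventually.of_forall h1),
    integral_finsetSum _ fun n _ => gauss_int a _ ha]
  rw [Complex.ofReal_sum]
  apply sum_congr rfl
  intro n _
  rw [gg_fourier a _ ha]

theorem count_integrable (V : Finset ι) (y : ι → ℝ) (a N : ℝ) (ha : 0 < a) :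
    Integrable fun β : ℝ => ((Real.exp (-Real.pi * (a * β) ^ 2) : ℝ) : ℂ) *
      (ee (-(β * N)) * ∑ n ∈ V, ee (β * y n)) := by
  have h1 : ∀ β : ℝ, ((Real.exp (-Real.pi * (a * β) ^ 2) : ℝ) : ℂ) * (ee (-(β * N)) * ∑ n ∈ V, ee (β * y n)) =
      ∑ n ∈ V, ((Real.exp (-Real.pi * (a * β) ^ 2) : ℝ) : ℂ) * ee (β * (y n - N)) := by
    intro β
    rw [mul_sum, mul_sum]
    apply sum_congr rfl
    intro n _
    rw [← ee_add]
    congr 2
    ring
  rw [funext h1]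
  exact integrable_finsetSum _ fun n _ => gauss_int a _ ha

/-- **Comparison of the counts at two scales.** -/
theorem compare (V : Finset ι) (y : ι → ℝ) (ρ W T N : ℝ) (hρ : 0 < ρ) (hW : ρ ≤ W) (hT : 0 < T) :
    ENNReal.ofReal |∑ n ∈ V, gg ρ (y n - N) - ∑ n ∈ V, gg W (y n - N)| ≤
      (∫⁻ β in {β : ℝ | T ≤ |β|}, ENNReal.ofReal (Real.exp (-Real.pi * (ρ * β) ^ 2) * ‖∑ n ∈ V, ee (β * y n)‖)) +
      ENNReal.ofReal (2 * Real.pi * W ^ 2 * T ^ 3 * V.card) := by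
  have hWp : 0 < W := by linarith
  have hpi := Real.pi_pos
  have hprod : ∀ β : ℝ, ‖∑ n ∈ V, ee (β * y n)‖ ≤ V.card := fun β => by
    refine (norm_sum_le _ _).trans ?_
    simp [norm_ee]
  set f : ℝ → ℂ := fun β => ((Real.exp (-Real.pi * (ρ * β) ^ 2) : ℝ) : ℂ) *
      (ee (-(β * N)) * ∑ n ∈ V, ee (β * y n)) - ((Real.exp (-Real.pi * (W * β) ^ 2) : ℝ) : ℂ) *
      (ee (-(β * N)) * ∑ n ∈ V, ee (β * y n)) with hf
  have h1 : (((∑ n ∈ V, gg ρ (y n - N) - ∑ n ∈ V, gg W (y n - N) : ℝ)) : ℂ) =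
      ∫ β, f β := by
    rw [Complex.ofReal_sub, count_fourier V y ρ N hρ, count_fourier V y W N hWp,
      ← integral_sub (count_integrable V y ρ N hρ) (count_integrable V y W N hWp)]
  have h2 : |∑ n ∈ V, gg ρ (y n - N) - ∑ n ∈ V, gg W (y n - N)| = ‖∫ β, f β‖ := by
    rw [← h1, norm_real, Real.norm_eq_abs]
  rw [h2, ofReal_norm]
  refine (enorm_integral_le_lintegral_enorm f).trans ?_
  have hnf : ∀ β, ‖f β‖ = |Real.exp (-Real.pi * (ρ * β) ^ 2) - Real.exp (-Real.pi * (W * β) ^ 2)| *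
      ‖∑ n ∈ V, ee (β * y n)‖ := by
    intro β
    have : f β = ((Real.exp (-Real.pi * (ρ * β) ^ 2) - Real.exp (-Real.pi * (W * β) ^ 2) : ℝ) : ℂ) *
        (ee (-(β * N)) * ∑ n ∈ V, ee (β * y n)) := by
      rw [hf]
      simp only
      push_cast
      ring
    rw [this, norm_mul, norm_mul, norm_ee, one_mul, norm_real, Real.norm_eq_abs]
  have hpt : ∀ β, ‖f β‖ₑ ≤ ({β : ℝ | T ≤ |β|}.indicator (fun β => ENNReal.ofReal
      (Real.exp (-Real.pi * (ρ * β) ^ 2) * ‖∑ n ∈ V, ee (β * y n)‖)) β) +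
      (Set.Icc (-T) T).indicator (fun _ => ENNReal.ofReal (Real.pi * W ^ 2 * T ^ 2 * V.card)) β := by
    intro β
    rw [← ofReal_norm, hnf]
    obtain ⟨hd1, hd2⟩ := exp_diff ρ W β T hρ hW
    rcases le_or_gt T |β| with hc | hc
    · have hmem : β ∈ {β : ℝ | T ≤ |β|} := hc
      rw [Set.indicator_of_mem hmem]
      refine le_trans ?_ le_self_add
      exact ENNReal.ofReal_le_ofReal (mul_le_mul_of_nonneg_right hd1 (norm_nonneg _))
    · have hmem : β ∈ Set.Icc (-T) T := abs_le.1 hc.le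
      rw [Set.indicator_of_mem hmem]
      refine le_trans ?_ le_add_self
      exact ENNReal.ofReal_le_ofReal (mul_le_mul (hd2 hc.le) (hprod β) (norm_nonneg _) (by positivity))
  refine (lintegral_mono hpt).trans ?_
  have hm : Measurable ({β : ℝ | T ≤ |β|}.indicator (fun β => ENNReal.ofReal
      (Real.exp (-Real.pi * (ρ * β) ^ 2) * ‖∑ n ∈ V, ee (β * y n)‖))) := by
    apply Measurable.indicator _ (meas_T T)
    apply Continuous.measurable
    apply ENNReal.continuous_ofReal.comp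
    apply Continuous.mul
    · fun_prop
    · apply Continuous.norm
      apply continuous_finsetSum
      intro n _
      exact continuous_ee.comp (by fun_prop)
  rw [lintegral_add_left hm, lintegral_indicator (meas_T T),
    lintegral_indicator_const measurableSet_Icc, Real.volume_Icc, ← ENNReal.ofReal_mul (by positivity)]
  apply le_of_eq
  congr 2
  ring

/-- the number of near solutions, in terms of the smoothed sums -/
theorem near_ge (V : Finset ι) (y : ι → ℝ) (N δ E S : ℝ) (hδ : 0 < δ) (hE : 0 ≤ E) (hS : 0 ≤ S)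
    (h1 : |∑ n ∈ V, gg (δ / 2) (y n - N) - S| ≤ E)
    (h2 : |∑ n ∈ V, gg δ (y n - N) - S| ≤ E) :
    δ * (S / 4 - E) ≤ ((V.filter fun n => |y n - N| < δ).card : ℝ) := by
  have h3 : ((V.filter fun n => |y n - N| < δ).card : ℝ) =
      ∑ n ∈ V, (if |y n - N| < δ then (1 : ℝ) else 0) := by
    rw [card_filter]
    push_cast
    rfl
  rw [h3]
  have h4 : ∑ n ∈ V, (δ / 2 * gg (δ / 2) (y n - N) -
      Real.exp (-3 * Real.pi) * (δ * gg δ (y n - N))) ≤
      ∑ n ∈ V, (if |y n - N| < δ then (1 : ℝ) else 0) :=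
    sum_le_sum fun n _ => minorant δ _ hδ
  refine le_trans ?_ h4
  rw [sum_sub_distrib, ← mul_sum, ← mul_sum, ← mul_sum]
  have h5 := (abs_le.1 h1).1
  have h6 := (abs_le.1 h2).2
  have h7 := exp_small
  have h8 := Real.exp_pos (-3 * Real.pi)
  set X1 := ∑ n ∈ V, gg (δ / 2) (y n - N)
  set X2 := ∑ n ∈ V, gg δ (y n - N)
  set e := Real.exp (-3 * Real.pi)
  have h9 : δ / 2 * (S - E) ≤ δ / 2 * X1 := mul_le_mul_of_nonneg_left (by linarith) (by positivity)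
  have h10 : e * (δ * X2) ≤ 1 / 4 * (δ * (S + E)) := by
    have h11 : e * (δ * X2) ≤ e * (δ * (S + E)) := by
      apply mul_le_mul_of_nonneg_left _ h8.le
      exact mul_le_mul_of_nonneg_left (by linarith) hδ.le
    refine h11.trans ?_
    apply mul_le_mul_of_nonneg_right h7
    positivity
  nlinarith [mul_nonneg hδ.le hE]

/-- the box of the variables of the problem -/
def bx (s k P : ℕ) : Finset (Fin s → ℕ) := Fintype.piFinset fun i => IQ (8 ^ (ef k i) * P)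

theorem card_bx_le (s k P : ℕ) : ((bx s k P).card : ℝ) ≤ (3 * 8 ^ k * P) ^ s := by
  unfold bx
  rw [Fintype.card_piFinset]
  push_cast
  calc ∏ i : Fin s, ((IQ (8 ^ (ef k i) * P)).card : ℝ) ≤ ∏ _i : Fin s, (3 * 8 ^ k * (P : ℝ)) := by
        apply prod_le_prod (fun i _ => Nat.cast_nonneg _)
        intro i _
        rw [card_IQ]
        push_cast
        have h : (8 : ℝ) ^ (ef k i) ≤ 8 ^ k := pow_le_pow_right₀ (by norm_num) (ef_le k i)
        have hP : (0 : ℝ) ≤ P := Nat.cast_nonneg P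
        nlinarith [mul_le_mul_of_nonneg_right h hP]
    _ = _ := by simp

theorem prod_bx (s d : ℕ) (a : ℝ) (θ : Fin d → ℝ) (P : ℕ) (β : ℝ) :
    ∏ i : Fin s, GG d a θ (8 ^ (ef (d + 1) i) * P) β = ∑ x ∈ bx s (d + 1) P, ee (β * Psi s d a θ x) := by
  unfold GG bx
  rw [Finset.prod_univ_sum]
  apply sum_congr rfl
  intro x _
  unfold Psi
  rw [mul_sum, Pool.Agent.U518.WS.ee_sum]

theorem XX_anti (s d : ℕ) (a : ℝ) (P : ℕ) (ρ₀ ρ T : ℝ) (θ : Fin d → ℝ) (h0 : 0 ≤ ρ₀) (h : ρ₀ ≤ ρ) :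
    XX s d a P ρ T θ ≤ XX s d a P ρ₀ T θ := by
  unfold XX
  apply lintegral_mono
  intro β
  apply ENNReal.ofReal_le_ofReal
  apply mul_le_mul_of_nonneg_right _ (prod_nonneg fun i _ => norm_nonneg _)
  apply Real.exp_le_exp.2
  have h1 : (ρ₀ * β) ^ 2 ≤ (ρ * β) ^ 2 := by
    rw [mul_pow, mul_pow]
    exact mul_le_mul_of_nonneg_right (pow_le_pow_left₀ h0 h 2) (sq_nonneg _)
  have hpi := Real.pi_pos
  nlinarith

/-- the comparison in the real numbers -/
theorem compare' (s d : ℕ) (a : ℝ) (P : ℕ) (θ : Fin d → ℝ) (ρ₀ ρ W T N B : ℝ) (h0 : 0 < ρ₀) (h : ρ₀ ≤ ρ) (hW : ρ ≤ W)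
    (hT : 0 < T) (hB : 0 ≤ B) (hX : XX s d a P ρ₀ T θ ≤ ENNReal.ofReal B) :
    |∑ n ∈ bx s (d + 1) P, gg ρ (Psi s d a θ n - N) - ∑ n ∈ bx s (d + 1) P, gg W (Psi s d a θ n - N)| ≤
      B + 2 * Real.pi * W ^ 2 * T ^ 3 * (3 * 8 ^ (d + 1) * P) ^ s := by
  have hpi := Real.pi_pos
  have hWp : 0 < W := by linarith
  have hρ : 0 < ρ := by linarith
  have h1 := compare (bx s (d + 1) P) (Psi s d a θ) ρ W T N hρ hW hT
  have h1' : (∫⁻ β in {β : ℝ | T ≤ |β|}, ENNReal.ofReal (Real.exp (-Real.pi * (ρ * β) ^ 2) *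
      ‖∑ n ∈ bx s (d + 1) P, ee (β * Psi s d a θ n)‖)) = XX s d a P ρ T θ := by
    unfold XX
    apply lintegral_congr
    intro β
    rw [← prod_bx, norm_prod]
  rw [h1'] at h1
  have h2 : 0 ≤ 2 * Real.pi * W ^ 2 * T ^ 3 * (3 * 8 ^ (d + 1) * (P : ℝ)) ^ s := by positivity
  have h4 : 2 * Real.pi * W ^ 2 * T ^ 3 * ((bx s (d + 1) P).card : ℝ) ≤
      2 * Real.pi * W ^ 2 * T ^ 3 * (3 * 8 ^ (d + 1) * (P : ℝ)) ^ s :=
    mul_le_mul_of_nonneg_left (card_bx_le s (d + 1) P) (by positivity)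
  have h3 := h1.trans (add_le_add ((XX_anti s d a P ρ₀ ρ T θ h0.le h).trans hX) (ENNReal.ofReal_le_ofReal h4))
  rw [← ENNReal.ofReal_add hB h2] at h3
  exact (ENNReal.ofReal_le_ofReal_iff (by positivity)).1 h3

end Pool.Agent.U914.WP
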