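import Mathlib
import Pool.Agent.U914.WP.WY

/-! Almost all polynomials in Waring's problem: integer parts, and the Fejér kernel. -/

set_option autoImplicit false

open Finset MeasureTheory Complex
open Pool.Agent.U518.WS (ee norm_ee ee_add ee_sub ee_sum ee_neg ee_zero continuous_ee m1 ms)
open Pool.Agent.Helper602.MK.N_J5b (KD KD_nonneg KD_double KD_far KD_add_int norm_one_sub_ee)

namespace Pool.Agent.U914.WP

theorem ee_int' (n : ℤ) : ee n = 1 := by
  rw [← ee_eq]
  exact Pool.Agent.Helper602.MK.N_J5b.ee_int n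

theorem ee_diff (x y : ℝ) : ‖ee x - ee y‖ ≤ 2 * Real.pi * |x - y| := by
  have h1 : ee x - ee y = ee x * (1 - ee (y - x)) := by
    rw [mul_sub, mul_one, ← ee_add]
    congr 2
    ring
  rw [h1, norm_mul, norm_ee, one_mul, ← ee_eq, norm_one_sub_ee]
  have h2 : |Real.sin (Real.pi * (y - x))| ≤ |Real.pi * (y - x)| := Real.abs_sin_le_abs
  rw [abs_mul, abs_of_pos Real.pi_pos, abs_sub_comm y x] at h2
  linarith

theorem int_ee_zero (m : ℤ) (hm : m ≠ 0) : ∫ v in (0 : ℝ)..1, ee (-(m * v)) = 0 := by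
  have hpi := Real.pi_pos
  have hm' : (m : ℝ) ≠ 0 := by exact_mod_cast hm
  have hc : (((2 * Real.pi * (-m) : ℝ) : ℂ) * I) ≠ 0 := by
    apply mul_ne_zero _ I_ne_zero
    rw [ofReal_ne_zero]
    have : (2 * Real.pi) ≠ 0 := by positivity
    exact mul_ne_zero this (neg_ne_zero.2 hm')
  have h2 : ∀ t : ℝ, ee (-(m * t)) = cexp ((((2 * Real.pi * (-m) : ℝ) : ℂ) * I) * t) := by
    intro t
    unfold ee
    congr 1
    push_cast
    ring
  rw [intervalIntegral.integral_congr (g := fun t : ℝ => cexp ((((2 * Real.pi * (-m) : ℝ) : ℂ) * I) * t))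
    fun t _ => h2 t, integral_exp_mul_complex hc, ← h2 1, ← h2 0]
  have e1 : ee (-((m : ℝ) * 1)) = 1 := by
    have := ee_int' (-m)
    push_cast at this
    rwa [mul_one]
  rw [e1, mul_zero, neg_zero, ee_zero, sub_self, zero_div]

/-- the coefficients of the approximation -/
noncomputable def pc (α : ℝ) (m : ℤ) : ℂ := ∫ v in (0 : ℝ)..1, ee (-(α * v)) * ee (-(m * v))

theorem pc_le (α : ℝ) (m : ℤ) : ‖pc α m‖ ≤ 1 := by
  unfold pc
  have h := intervalIntegral.norm_integral_le_of_norm_le_const (a := (0 : ℝ)) (b := 1) (C := 1)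
    (f := fun v : ℝ => ee (-(α * v)) * ee (-(m * v))) (fun v _ => by rw [norm_mul, norm_ee, norm_ee, one_mul])
  simpa using h

/-- the approximation of `ee (-α {y})` -/
noncomputable def AH (H : ℕ) (α y : ℝ) : ℂ :=
  (1 / (H : ℂ)) * ∑ h ∈ range H, ∑ h' ∈ range H, pc α ((h : ℤ) - h') * ee (((h : ℝ) - h') * y)

theorem KD_cont (H : ℕ) (y : ℝ) : Continuous fun v : ℝ => KD H (y - v) := by
  unfold KD
  apply Continuous.pow
  apply Continuous.norm
  apply continuous_finsetSum
  intro j _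
  have h : (fun v : ℝ => Pool.Agent.Helper602.MK.ee (j * (y - v))) = fun v : ℝ => ee (j * (y - v)) := by
    funext v
    exact ee_eq _
  rw [h]
  exact continuous_ee.comp (by fun_prop)

theorem KD_dbl (H : ℕ) (y v : ℝ) : ((KD H (y - v) : ℝ) : ℂ) =
    ∑ h ∈ range H, ∑ h' ∈ range H, ee (((h : ℝ) - h') * y) * ee (-((((h : ℤ) - h' : ℤ) : ℝ) * v)) := by
  rw [KD_double]
  apply sum_congr rfl
  intro h _
  apply sum_congr rfl
  intro h' _
  rw [ee_eq, ← ee_add]
  congr 1
  push_cast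
  ring

theorem AH_eq (H : ℕ) (α y : ℝ) : AH H α y = ∫ v in (0 : ℝ)..1, ee (-(α * v)) * (((KD H (y - v) / H : ℝ)) : ℂ) := by
  have hc : ∀ m : ℤ, Continuous fun v : ℝ => ee (-(α * v)) * ee (-(m * v)) := fun m =>
    (continuous_ee.comp (by fun_prop)).mul (continuous_ee.comp (by fun_prop))
  have h1 : ∀ v : ℝ, ee (-(α * v)) * (((KD H (y - v) / H : ℝ)) : ℂ) =
      ∑ h ∈ range H, ∑ h' ∈ range H, ((1 / (H : ℂ)) * ee (((h : ℝ) - h') * y)) *
        (ee (-(α * v)) * ee (-((((h : ℤ) - h' : ℤ) : ℝ) * v))) := by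
    intro v
    rw [Complex.ofReal_div, KD_dbl, Complex.ofReal_natCast, div_eq_mul_one_div, mul_comm _ (1 / (H : ℂ)), mul_sum,
      mul_sum]
    apply sum_congr rfl
    intro h _
    rw [mul_sum, mul_sum]
    apply sum_congr rfl
    intro h' _
    ring
  rw [intervalIntegral.integral_congr (g := fun v => ∑ h ∈ range H, ∑ h' ∈ range H,
    ((1 / (H : ℂ)) * ee (((h : ℝ) - h') * y)) *
        (ee (-(α * v)) * ee (-((((h : ℤ) - h' : ℤ) : ℝ) * v)))) fun v _ => h1 v]
  have hci : ∀ h h' : ℕ, Continuous fun v : ℝ => ((1 / (H : ℂ)) * ee (((h : ℝ) - h') * y)) *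
        (ee (-(α * v)) * ee (-((((h : ℤ) - h' : ℤ) : ℝ) * v))) := fun h h' => continuous_const.mul (hc _)
  rw [intervalIntegral.integral_finsetSum fun h _ => (continuous_finsetSum _ fun h' _ => hci h h').intervalIntegrable 0 1]
  unfold AH
  rw [mul_sum]
  apply sum_congr rfl
  intro h _
  rw [intervalIntegral.integral_finsetSum fun h' _ => (hci h h').intervalIntegrable 0 1, mul_sum]
  apply sum_congr rfl
  intro h' _
  rw [intervalIntegral.integral_const_mul]
  unfold pc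
  ring

theorem KD_mass (H : ℕ) (hH : 1 ≤ H) (y : ℝ) : ∫ v in (0 : ℝ)..1, KD H (y - v) / H = 1 := by
  have hH0 : (H : ℂ) ≠ 0 := by
    have : H ≠ 0 := by omega
    exact_mod_cast this
  have h0 := AH_eq H 0 y
  have e1 : ∀ v : ℝ, ee (-(0 * v)) * (((KD H (y - v) / H : ℝ)) : ℂ) = (((KD H (y - v) / H : ℝ)) : ℂ) := by
    intro v
    rw [zero_mul, neg_zero, ee_zero, one_mul]
  rw [intervalIntegral.integral_congr (g := fun v => (((KD H (y - v) / H : ℝ)) : ℂ)) fun v _ => e1 v,
    intervalIntegral.integral_ofReal] at h0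
  have h1 : ∀ m : ℤ, pc 0 m = if m = 0 then 1 else 0 := by
    intro m
    unfold pc
    have e2 : ∀ v : ℝ, ee (-(0 * v)) * ee (-(m * v)) = ee (-(m * v)) := by
      intro v
      rw [zero_mul, neg_zero, ee_zero, one_mul]
    rw [intervalIntegral.integral_congr (g := fun v : ℝ => ee (-(m * v))) fun v _ => e2 v]
    split_ifs with h
    · subst h
      simp [ee_zero]
    · exact int_ee_zero m h
  have h2 : AH H 0 y = 1 := by
    unfold AH
    have e3 : ∑ h ∈ range H, ∑ h' ∈ range H, pc 0 ((h : ℤ) - h') * ee (((h : ℝ) - h') * y) =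
        ∑ h ∈ range H, (1 : ℂ) := by
      apply sum_congr rfl
      intro h hh
      rw [sum_eq_single h]
      · rw [h1, if_pos (sub_self _), sub_self, zero_mul, ee_zero, one_mul]
      · intro h' _ hne
        rw [h1, if_neg, zero_mul]
        intro hcon
        apply hne
        omega
      · intro hcon
        exact absurd hh hcon
    rw [e3, sum_const, card_range, nsmul_eq_mul, mul_one, one_div, inv_mul_cancel₀ hH0]
  rw [h2] at h0
  exact_mod_cast h0.symm

theorem AH_le (H : ℕ) (hH : 1 ≤ H) (α y : ℝ) : ‖AH H α y‖ ≤ 1 := by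
  rw [AH_eq]
  have hH0 : (0 : ℝ) < H := by exact_mod_cast hH
  calc ‖∫ v in (0 : ℝ)..1, ee (-(α * v)) * (((KD H (y - v) / H : ℝ)) : ℂ)‖ ≤
        ∫ v in (0 : ℝ)..1, ‖ee (-(α * v)) * (((KD H (y - v) / H : ℝ)) : ℂ)‖ :=
        intervalIntegral.norm_integral_le_integral_norm zero_le_one
    _ = ∫ v in (0 : ℝ)..1, KD H (y - v) / H := by
        apply intervalIntegral.integral_congr
        intro v _
        show ‖ee (-(α * v)) * (((KD H (y - v) / H : ℝ)) : ℂ)‖ = KD H (y - v) / H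
        rw [norm_mul, norm_ee, one_mul, norm_real, Real.norm_eq_abs, abs_of_nonneg (div_nonneg (KD_nonneg _ _) hH0.le)]
    _ = 1 := KD_mass H hH y

/-- the approximation for `y` away from the integers -/
theorem AH_near (H : ℕ) (hH : 1 ≤ H) (α y η : ℝ) (hα : |α| ≤ 1 / 2) (hη : 0 < η) (h1 : η ≤ y) (h2 : y ≤ 1 - η) :
    ‖ee (-(α * y)) - AH H α y‖ ≤ Real.pi * η + 1 / (2 * H * η ^ 2) := by
  have hpi := Real.pi_pos
  have hH0 : (0 : ℝ) < H := by exact_mod_cast hH
  have hKc : Continuous fun v : ℝ => KD H (y - v) / H := (KD_cont H y).div_const _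
  have hKi : IntervalIntegrable (fun v : ℝ => KD H (y - v) / H) volume 0 1 := hKc.intervalIntegrable 0 1
  have e0 : ee (-(α * y)) = ∫ v in (0 : ℝ)..1, ee (-(α * y)) * (((KD H (y - v) / H : ℝ)) : ℂ) := by
    rw [intervalIntegral.integral_const_mul, intervalIntegral.integral_ofReal, KD_mass H hH y, Complex.ofReal_one, mul_one]
  have hc1 : Continuous fun v : ℝ => ee (-(α * y)) * (((KD H (y - v) / H : ℝ)) : ℂ) :=
    continuous_const.mul (Complex.continuous_ofReal.comp hKc)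
  have hc2 : Continuous fun v : ℝ => ee (-(α * v)) * (((KD H (y - v) / H : ℝ)) : ℂ) :=
    (continuous_ee.comp (by fun_prop)).mul (Complex.continuous_ofReal.comp hKc)
  rw [AH_eq]
  nth_rw 1 [e0]
  rw [← intervalIntegral.integral_sub (hc1.intervalIntegrable 0 1) (hc2.intervalIntegrable 0 1)]
  have hb : ∀ v ∈ Set.Ioc (0 : ℝ) 1, ‖ee (-(α * y)) * (((KD H (y - v) / H : ℝ)) : ℂ) -
      ee (-(α * v)) * (((KD H (y - v) / H : ℝ)) : ℂ)‖ ≤ Real.pi * η * (KD H (y - v) / H) + 1 / (2 * H * η ^ 2) := by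
    intro v hv
    have hK0 : 0 ≤ KD H (y - v) / H := div_nonneg (KD_nonneg _ _) hH0.le
    rw [← sub_mul, norm_mul, norm_real, Real.norm_eq_abs, abs_of_nonneg hK0]
    rcases le_or_gt |v - y| η with hc | hc
    · have h3 : ‖ee (-(α * y)) - ee (-(α * v))‖ ≤ Real.pi * η := by
        refine (ee_diff _ _).trans ?_
        have e : -(α * y) - -(α * v) = α * (v - y) := by ring
        rw [e, abs_mul]
        calc 2 * Real.pi * (|α| * |v - y|) ≤ 2 * Real.pi * (1 / 2 * η) := by
              apply mul_le_mul_of_nonneg_left _ (by positivity)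
              exact mul_le_mul hα hc (abs_nonneg _) (by norm_num)
          _ = _ := by ring
      have h4 : 0 ≤ 1 / (2 * (H : ℝ) * η ^ 2) := by positivity
      have h5 := mul_le_mul_of_nonneg_right h3 hK0
      linarith
    · have h3 : ‖ee (-(α * y)) - ee (-(α * v))‖ ≤ 2 := by
        refine (norm_sub_le _ _).trans ?_
        rw [norm_ee, norm_ee]
        norm_num
      have h4 : KD H (y - v) ≤ 1 / (4 * η ^ 2) := by
        apply KD_far H (y - v) η hη
        intro n
        rcases lt_trichotomy n 0 with hn | hn | hn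
        · have : (n : ℝ) ≤ -1 := by exact_mod_cast (by omega : n ≤ -1)
          rw [abs_of_nonneg (by linarith [hv.2])]
          linarith [hv.2]
        · rw [hn, Int.cast_zero, sub_zero, abs_sub_comm]
          exact hc.le
        · have : (1 : ℝ) ≤ n := by exact_mod_cast (by omega : 1 ≤ n)
          rw [abs_of_nonpos (by linarith [hv.1])]
          linarith [hv.1]
      have h5 : 0 ≤ Real.pi * η * (KD H (y - v) / H) := by positivity
      have h6 : KD H (y - v) / H ≤ 1 / (4 * η ^ 2) / H := div_le_div_of_nonneg_right h4 hH0.le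
      have h7 : 2 * (1 / (4 * η ^ 2) / H) = 1 / (2 * H * η ^ 2) := by field_simp; norm_num
      have h8 : ‖ee (-(α * y)) - ee (-(α * v))‖ * (KD H (y - v) / H) ≤ 2 * (1 / (4 * η ^ 2) / H) :=
        mul_le_mul h3 h6 hK0 (by norm_num)
      linarith
  have hint : IntervalIntegrable (fun v : ℝ => Real.pi * η * (KD H (y - v) / H) + 1 / (2 * H * η ^ 2)) volume 0 1 :=
    (hKi.const_mul _).add intervalIntegrable_const
  refine (intervalIntegral.norm_integral_le_of_norm_le zero_le_one (Filter.Eventually.of_forall hb) hint).trans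
    (le_of_eq ?_)
  rw [intervalIntegral.integral_add (hKi.const_mul _) intervalIntegrable_const, intervalIntegral.integral_const_mul,
    KD_mass H hH y, intervalIntegral.integral_const]
  simp

/-- the indicator of the neighbourhood of the integers -/
noncomputable def bad (η y : ℝ) : ℝ := if η ≤ Int.fract y ∧ Int.fract y ≤ 1 - η then 0 else 1

theorem AH_fract (H : ℕ) (α y : ℝ) : AH H α y = AH H α (Int.fract y) := by
  unfold AH
  congr 1
  apply sum_congr rfl
  intro h _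
  apply sum_congr rfl
  intro h' _
  congr 1
  have e : ((h : ℝ) - h') * y = ((h : ℝ) - h') * Int.fract y + ((((h : ℤ) - h') * ⌊y⌋ : ℤ) : ℝ) := by
    push_cast
    rw [← mul_add, Int.fract_add_floor]
  rw [e, ee_add, ee_int', mul_one]

theorem AH_err (H : ℕ) (hH : 1 ≤ H) (α y η : ℝ) (hα : |α| ≤ 1 / 2) (hη : 0 < η) :
    ‖ee (-(α * Int.fract y)) - AH H α y‖ ≤ Real.pi * η + 1 / (2 * H * η ^ 2) + 2 * bad η y := by
  have hH0 : (0 : ℝ) < H := by exact_mod_cast hH
  rw [AH_fract]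
  unfold bad
  split_ifs with h
  · rw [mul_zero, add_zero]
    exact AH_near H hH α _ η hα hη h.1 h.2
  · have h1 : ‖ee (-(α * Int.fract y)) - AH H α (Int.fract y)‖ ≤ 2 := by
      refine (norm_sub_le _ _).trans ?_
      rw [norm_ee]
      linarith [AH_le H hH α (Int.fract y)]
    have h2 : 0 ≤ Real.pi * η + 1 / (2 * H * η ^ 2) := by
      have := Real.pi_pos
      positivity
    linarith

/-- the exponential sum over the integer parts -/
noncomputable def SS (d : ℕ) (a : ℝ) (θ : Fin d → ℝ) (Q : ℕ) (α : ℝ) : ℂ :=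
  ∑ n ∈ IQ Q, ee (α * (⌊pf d a θ n⌋ : ℝ))

theorem SS_norm_le (d : ℕ) (a : ℝ) (θ : Fin d → ℝ) (Q : ℕ) (α : ℝ) : ‖SS d a θ Q α‖ ≤ 3 * Q := by
  unfold SS
  refine (norm_sum_le _ _).trans ?_
  simp [norm_ee, card_IQ]

/-- the number of values near the integers -/
noncomputable def Bd (d : ℕ) (a : ℝ) (θ : Fin d → ℝ) (Q : ℕ) (η : ℝ) : ℝ := ∑ n ∈ IQ Q, bad η (pf d a θ n)

theorem bad_nonneg (η y : ℝ) : 0 ≤ bad η y := by
  unfold bad
  split_ifs <;> norm_num

theorem Bd_nonneg (d : ℕ) (a : ℝ) (θ : Fin d → ℝ) (Q : ℕ) (η : ℝ) : 0 ≤ Bd d a θ Q η :=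
  sum_nonneg fun _ _ => bad_nonneg _ _

/-- **From the integer parts to the polynomial.** -/
theorem SS_le (d : ℕ) (a : ℝ) (θ : Fin d → ℝ) (Q : ℕ) (α η : ℝ) (H : ℕ) (hH : 1 ≤ H) (hα : |α| ≤ 1 / 2) (hη : 0 < η) :
    ‖SS d a θ Q α‖ ≤ (1 / (H : ℝ)) * ∑ h ∈ range H, ∑ h' ∈ range H, ‖GG d a θ Q (α + ((h : ℝ) - h'))‖ +
      3 * Q * (Real.pi * η + 1 / (2 * H * η ^ 2)) + 2 * Bd d a θ Q η := by
  have hH0 : (0 : ℝ) < H := by exact_mod_cast hH
  have h1 : SS d a θ Q α = ∑ n ∈ IQ Q, ee (α * pf d a θ n) * (ee (-(α * Int.fract (pf d a θ n))) - AH H α (pf d a θ n)) +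
      ∑ n ∈ IQ Q, ee (α * pf d a θ n) * AH H α (pf d a θ n) := by
    unfold SS
    rw [← sum_add_distrib]
    apply sum_congr rfl
    intro n _
    rw [← mul_add, sub_add_cancel, ← ee_add]
    congr 1
    have := Int.self_sub_floor (pf d a θ n)
    rw [← this]
    ring
  have h2 : ∑ n ∈ IQ Q, ee (α * pf d a θ n) * AH H α (pf d a θ n) =
      (1 / (H : ℂ)) * ∑ h ∈ range H, ∑ h' ∈ range H, pc α ((h : ℤ) - h') * GG d a θ Q (α + ((h : ℝ) - h')) := by
    unfold AH GG
    simp_rw [mul_sum]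
    rw [sum_comm]
    apply sum_congr rfl
    intro h _
    rw [sum_comm]
    apply sum_congr rfl
    intro h' _
    apply sum_congr rfl
    intro n _
    rw [add_mul, ee_add]
    ring
  have h3 : ‖(1 / (H : ℂ)) * ∑ h ∈ range H, ∑ h' ∈ range H, pc α ((h : ℤ) - h') * GG d a θ Q (α + ((h : ℝ) - h'))‖ ≤
      (1 / (H : ℝ)) * ∑ h ∈ range H, ∑ h' ∈ range H, ‖GG d a θ Q (α + ((h : ℝ) - h'))‖ := by
    rw [norm_mul, norm_div, norm_one, Complex.norm_natCast]
    apply mul_le_mul_of_nonneg_left _ (by positivity)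
    refine (norm_sum_le _ _).trans (sum_le_sum fun h _ => (norm_sum_le _ _).trans (sum_le_sum fun h' _ => ?_))
    rw [norm_mul]
    calc ‖pc α ((h : ℤ) - h')‖ * ‖GG d a θ Q (α + ((h : ℝ) - h'))‖ ≤ 1 * ‖GG d a θ Q (α + ((h : ℝ) - h'))‖ :=
          mul_le_mul_of_nonneg_right (pc_le _ _) (norm_nonneg _)
      _ = _ := one_mul _
  have h4 : ‖∑ n ∈ IQ Q, ee (α * pf d a θ n) * (ee (-(α * Int.fract (pf d a θ n))) - AH H α (pf d a θ n))‖ ≤
      3 * Q * (Real.pi * η + 1 / (2 * H * η ^ 2)) + 2 * Bd d a θ Q η := by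
    refine (norm_sum_le _ _).trans ?_
    calc ∑ n ∈ IQ Q, ‖ee (α * pf d a θ n) * (ee (-(α * Int.fract (pf d a θ n))) - AH H α (pf d a θ n))‖ ≤
          ∑ n ∈ IQ Q, (Real.pi * η + 1 / (2 * H * η ^ 2) + 2 * bad η (pf d a θ n)) := by
          apply sum_le_sum
          intro n _
          rw [norm_mul, norm_ee, one_mul]
          exact AH_err H hH α _ η hα hη
      _ = _ := by
          unfold Bd
          rw [sum_add_distrib, sum_const, card_IQ, nsmul_eq_mul, ← mul_sum]
          push_cast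
          ring
  rw [h1, h2]
  refine (norm_add_le _ _).trans ?_
  linarith

end Pool.Agent.U914.WP
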