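import Mathlib
import Pool.Agent.U914.WP.IF
import Pool.Agent.U914.WP.CP

/-! Almost all polynomials in Waring's problem: averages for the integer parts. -/

set_option autoImplicit false

open Finset MeasureTheory Complex
open Pool.Agent.U518.WS (ee norm_ee ee_add ee_sub ee_sum ee_neg ee_zero continuous_ee m1 ms gg gg_nonneg gg_fourier
  gauss_int exp_diff meas_T)

namespace Pool.Agent.U914.WP

theorem bad_meas (η : ℝ) : Measurable (bad η) := by
  unfold bad
  apply Measurable.ite _ measurable_const measurable_const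
  have h : Measurable (fun y : ℝ => Int.fract y) := measurable_fract
  exact (measurableSet_le measurable_const h).inter (measurableSet_le h measurable_const)

theorem bad_le (η y : ℝ) : bad η y ≤ 1 := by
  unfold bad
  split_ifs <;> norm_num

theorem bad_periodic (η : ℝ) : Function.Periodic (bad η) 1 := by
  intro y
  unfold bad
  rw [Int.fract_add_one]

theorem bad_intble (η a b : ℝ) : IntervalIntegrable (bad η) volume a b := by
  apply IntervalIntegrable.mono_fun' (g := fun _ => (1 : ℝ)) intervalIntegrable_const (bad_meas η).aestronglyMeasurable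
  refine Filter.Eventually.of_forall fun y => ?_
  show ‖bad η y‖ ≤ 1
  rw [Real.norm_eq_abs, abs_of_nonneg (bad_nonneg η y)]
  exact bad_le η y

theorem bad_int (η : ℝ) (h0 : 0 < η) (h1 : η ≤ 1 / 2) : ∫ y in (0 : ℝ)..1, bad η y = 2 * η := by
  rw [intervalIntegral.integral_of_le zero_le_one, integral_Ioc_eq_integral_Ioo]
  have h2 : ∫ y in Set.Ioo (0 : ℝ) 1, bad η y =
      ∫ y in Set.Ioo (0 : ℝ) 1, (1 - (Set.Icc η (1 - η)).indicator (fun _ => (1 : ℝ)) y) := by
    apply setIntegral_congr_fun measurableSet_Ioo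
    intro y hy
    have hf : Int.fract y = y := Int.fract_eq_self.2 ⟨hy.1.le, hy.2⟩
    show bad η y = 1 - (Set.Icc η (1 - η)).indicator (fun _ => (1 : ℝ)) y
    unfold bad
    rw [hf]
    by_cases h : y ∈ Set.Icc η (1 - η)
    · rw [Set.indicator_of_mem h, if_pos ⟨h.1, h.2⟩, sub_self]
    · rw [Set.indicator_of_notMem h, if_neg, sub_zero]
      intro hcon
      exact h ⟨hcon.1, hcon.2⟩
  have hi : Integrable (fun y => (Set.Icc η (1 - η)).indicator (fun _ => (1 : ℝ)) y) (volume.restrict (Set.Ioo (0 : ℝ) 1)) :=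
    (integrable_const (1 : ℝ)).indicator measurableSet_Icc
  rw [h2, integral_sub (integrable_const _) hi, integral_indicator_const _ measurableSet_Icc, integral_const]
  have h3 : (volume.restrict (Set.Ioo (0 : ℝ) 1)).real (Set.Icc η (1 - η)) = 1 - 2 * η := by
    rw [measureReal_restrict_apply measurableSet_Icc]
    have h4 : Set.Icc η (1 - η) ∩ Set.Ioo (0 : ℝ) 1 = Set.Icc η (1 - η) := by
      apply Set.inter_eq_left.2
      intro y hy
      exact ⟨by linarith [hy.1], by linarith [hy.2]⟩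
    rw [h4, Real.volume_real_Icc_of_le (by linarith)]
    ring
  rw [h3]
  simp

theorem bad_line (η A : ℝ) (h0 : 0 < η) (h1 : η ≤ 1 / 2) (x : ℕ) (hx : 1 ≤ x) :
    ∫⁻ u, ENNReal.ofReal (bad η (A + u * x)) ∂m1 ≤ ENNReal.ofReal (2 * η) := by
  have hx0 : (x : ℝ) ≠ 0 := by
    have : x ≠ 0 := by omega
    exact_mod_cast this
  have hm : Measurable fun u : ℝ => bad η (A + u * x) := (bad_meas η).comp (by fun_prop)
  have hi : Integrable (fun u : ℝ => bad η (A + u * x)) m1 := by
    apply Integrable.of_bound hm.aestronglyMeasurable 1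
    refine Filter.Eventually.of_forall fun y => ?_
    rw [Real.norm_eq_abs, abs_of_nonneg (bad_nonneg η _)]
    exact bad_le η _
  rw [← ofReal_integral_eq_lintegral_ofReal hi (Filter.Eventually.of_forall fun u => bad_nonneg η _)]
  apply ENNReal.ofReal_le_ofReal
  have h2 : ∫ u, bad η (A + u * x) ∂m1 = ∫ u in (0 : ℝ)..1, bad η (A + x * u) := by
    rw [intervalIntegral.integral_of_le zero_le_one]
    apply integral_congr_ae
    exact Filter.Eventually.of_forall fun u => by simp only [mul_comm]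
  rw [h2, intervalIntegral.integral_comp_add_mul _ hx0]
  have h3 := (bad_periodic η).intervalIntegral_add_zsmul_eq (x : ℤ) A (bad_intble η)
  have h4 : A + (x : ℤ) • (1 : ℝ) = A + x * 1 := by simp
  rw [h4] at h3
  rw [mul_zero, add_zero, h3]
  have h5 := (bad_periodic η).intervalIntegral_add_eq A 0
  rw [zero_add] at h5
  rw [h5, bad_int η h0 h1]
  simp only [zsmul_eq_mul, smul_eq_mul]
  push_cast
  rw [← mul_assoc, inv_mul_cancel₀ hx0, one_mul]

/-- the average over the parameters -/
theorem bad_avg (d : ℕ) (hd : 1 ≤ d) (a : ℝ) (m : Fin d → ℝ) (η : ℝ) (h0 : 0 < η) (h1 : η ≤ 1 / 2) (x : ℕ) (hx : 1 ≤ x) :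
    ∫⁻ t, ENNReal.ofReal (bad η (pf d a (m + t) x)) ∂(ms d) ≤ ENNReal.ofReal (2 * η) := by
  obtain ⟨n, rfl⟩ : ∃ n, d = n + 1 := ⟨d - 1, by omega⟩
  have hmeas : Measurable fun t : Fin (n + 1) → ℝ => ENNReal.ofReal (bad η (pf (n + 1) a (m + t) x)) := by
    apply ENNReal.measurable_ofReal.comp
    apply (bad_meas η).comp
    exact ((pf_cont (n + 1) a x).comp (continuous_const.add continuous_id)).measurable
  have hmp := (measurePreserving_piFinSuccAbove (fun _ : Fin (n + 1) => m1) 0).symm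
  rw [← hmp.lintegral_comp hmeas]
  rw [lintegral_prod_symm' (μ := m1) (ν := Measure.pi fun _ => m1) (fun z : ℝ × (Fin n → ℝ) =>
    ENNReal.ofReal (bad η (pf (n + 1) a (m + (MeasurableEquiv.piFinSuccAbove (fun _ : Fin (n + 1) => ℝ) 0).symm z) x)))
    (hmeas.comp hmp.measurable)]
  calc _ ≤ ∫⁻ _t : Fin n → ℝ, ENNReal.ofReal (2 * η) ∂(Measure.pi fun _ => m1) := by
        apply lintegral_mono
        intro t
        refine le_trans (le_of_eq ?_) (bad_line η (pf (n + 1) a m x + ∑ j : Fin n, t j * (x : ℝ) ^ ((j.succ : Fin (n + 1)) : ℕ).succ)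
          h0 h1 x hx)
        apply lintegral_congr
        intro u
        simp only [MeasurableEquiv.piFinSuccAbove_symm_apply]
        congr 2
        unfold pf
        simp only [Pi.add_apply, add_mul, sum_add_distrib]
        rw [Fin.sum_univ_succAbove (fun j => (Fin.insertNthEquiv (fun _ => ℝ) 0) (u, t) j * (x : ℝ) ^ ((j : ℕ) + 1)) 0]
        simp only [Fin.insertNthEquiv, Equiv.coe_fn_mk, Fin.insertNth_zero', Fin.cons_zero, Fin.cons_succ,
          Fin.zero_succAbove, Fin.val_zero, zero_add, pow_one, Nat.succ_eq_add_one]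
        ring
    _ = _ := by rw [lintegral_const, measure_univ, mul_one]

theorem Bd_meas (d : ℕ) (a : ℝ) (m : Fin d → ℝ) (Q : ℕ) (η : ℝ) : Measurable fun t : Fin d → ℝ => Bd d a (m + t) Q η := by
  unfold Bd
  apply Finset.measurable_fun_sum
  intro n _
  apply (bad_meas η).comp
  exact ((pf_cont d a n).comp (continuous_const.add continuous_id)).measurable

theorem Bd_avg (d : ℕ) (hd : 1 ≤ d) (a : ℝ) (m : Fin d → ℝ) (η : ℝ) (h0 : 0 < η) (h1 : η ≤ 1 / 2) (Q : ℕ) :
    ∫⁻ t, ENNReal.ofReal (Bd d a (m + t) Q η) ∂(ms d) ≤ ENNReal.ofReal (6 * Q * η) := by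
  have h2 : ∀ t : Fin d → ℝ, ENNReal.ofReal (Bd d a (m + t) Q η) =
      ∑ n ∈ IQ Q, ENNReal.ofReal (bad η (pf d a (m + t) n)) := by
    intro t
    unfold Bd
    rw [ENNReal.ofReal_sum_of_nonneg fun n _ => bad_nonneg η _]
  have hm : ∀ n : ℕ, Measurable fun t : Fin d → ℝ => ENNReal.ofReal (bad η (pf d a (m + t) n)) := by
    intro n
    apply ENNReal.measurable_ofReal.comp
    apply (bad_meas η).comp
    exact ((pf_cont d a n).comp (continuous_const.add continuous_id)).measurable
  rw [lintegral_congr h2, lintegral_finsetSum _ fun n _ => hm n]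
  calc ∑ n ∈ IQ Q, ∫⁻ t, ENNReal.ofReal (bad η (pf d a (m + t) n)) ∂(ms d) ≤ ∑ _n ∈ IQ Q, ENNReal.ofReal (2 * η) := by
        apply sum_le_sum
        intro n hn
        have := (mem_IQ _ _).1 hn
        exact bad_avg d hd a m η h0 h1 n (by omega)
    _ = ENNReal.ofReal (6 * Q * η) := by
        rw [sum_const, card_IQ, nsmul_eq_mul, ← ENNReal.ofReal_natCast, ← ENNReal.ofReal_mul (by positivity)]
        congr 1
        push_cast
        ring

theorem SS_meas (d : ℕ) (a : ℝ) (Q : ℕ) : Measurable fun p : (Fin d → ℝ) × ℝ => SS d a p.1 Q p.2 := by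
  unfold SS
  apply Finset.measurable_fun_sum
  intro n _
  apply continuous_ee.measurable.comp
  apply Measurable.mul measurable_snd
  have h1 : Measurable fun p : (Fin d → ℝ) × ℝ => pf d a p.1 n := ((pf_cont d a n).comp continuous_fst).measurable
  exact (measurable_from_top (f := fun n : ℤ => (n : ℝ))).comp h1.floor

/-- the sum of the integer parts -/
noncomputable def zz (s d : ℕ) (a : ℝ) (θ : Fin d → ℝ) (x : Fin s → ℕ) : ℤ := ∑ i, ⌊pf d a θ (x i)⌋

theorem zz_near (s d : ℕ) (a : ℝ) (θ : Fin d → ℝ) (x : Fin s → ℕ) :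
    (zz s d a θ x : ℝ) ≤ Psi s d a θ x ∧ Psi s d a θ x ≤ zz s d a θ x + s := by
  unfold zz Psi
  push_cast
  constructor
  · exact sum_le_sum fun i _ => Int.floor_le _
  · calc ∑ i, pf d a θ (x i) ≤ ∑ i, ((⌊pf d a θ (x i)⌋ : ℝ) + 1) :=
          sum_le_sum fun i _ => (Int.lt_floor_add_one _).le
      _ = _ := by rw [sum_add_distrib]; simp

/-- the mean square of the integer parts on a unit interval -/
theorem JJ_le (s d : ℕ) (a : ℝ) (θ : Fin d → ℝ) (V : Finset (Fin s → ℕ)) :
    ∫⁻ α in Set.Icc (-(1 / 2) : ℝ) (1 / 2), ENNReal.ofReal (‖∑ x ∈ V, ee (α * (zz s d a θ x : ℝ))‖ ^ 2) ≤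
      ENNReal.ofReal (Real.exp 1 * (2 * Real.exp (4 * Real.pi * s ^ 2))) *
        ∫⁻ β : ℝ, ENNReal.ofReal (Real.exp (-Real.pi * (1 * β) ^ 2) * ‖∑ x ∈ V, ee (β * Psi s d a θ x)‖ ^ 2) := by
  have hpi := Real.pi_pos
  have hs0 : (0 : ℝ) ≤ s := Nat.cast_nonneg s
  have h1 : ∫⁻ α in Set.Icc (-(1 / 2) : ℝ) (1 / 2), ENNReal.ofReal (‖∑ x ∈ V, ee (α * (zz s d a θ x : ℝ))‖ ^ 2) ≤
      ∫⁻ α : ℝ, ENNReal.ofReal (Real.exp 1) * ENNReal.ofReal (Real.exp (-Real.pi * (1 / 2 * α) ^ 2) *
        ‖∑ x ∈ V, ee (α * (zz s d a θ x : ℝ))‖ ^ 2) := by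
    refine le_trans (setLIntegral_mono' measurableSet_Icc ?_) (setLIntegral_le_lintegral _ _)
    intro α hα
    rw [← ENNReal.ofReal_mul (Real.exp_pos _).le]
    apply ENNReal.ofReal_le_ofReal
    rw [← mul_assoc, ← Real.exp_add]
    apply le_mul_of_one_le_left (by positivity)
    apply Real.one_le_exp
    have h2 : α ^ 2 ≤ (1 / 2) ^ 2 := by
      rw [← sq_abs α]
      exact pow_le_pow_left₀ (abs_nonneg _) (abs_le.2 ⟨by linarith [hα.1], hα.2⟩) 2
    have h3 := Real.pi_lt_four
    nlinarith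
  refine h1.trans ?_
  have hm : Measurable fun α : ℝ => ENNReal.ofReal (Real.exp (-Real.pi * (1 / 2 * α) ^ 2) *
        ‖∑ x ∈ V, ee (α * (zz s d a θ x : ℝ))‖ ^ 2) := by
    apply Continuous.measurable
    apply ENNReal.continuous_ofReal.comp
    apply Continuous.mul (by fun_prop)
    apply Continuous.pow
    apply Continuous.norm
    apply continuous_finsetSum
    intro x _
    exact continuous_ee.comp (by fun_prop)
  rw [lintegral_const_mul _ hm, mean_fourier V (fun x => (zz s d a θ x : ℝ)) (1 / 2) (by norm_num),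
    mean_fourier V (fun x => Psi s d a θ x) 1 one_pos, ENNReal.ofReal_mul (Real.exp_pos _).le, mul_assoc]
  apply mul_le_mul_right
  rw [← ENNReal.ofReal_mul (by positivity)]
  apply ENNReal.ofReal_le_ofReal
  rw [mul_sum]
  apply sum_le_sum
  intro x _
  rw [mul_sum]
  apply sum_le_sum
  intro y _
  unfold gg
  set u : ℝ := (zz s d a θ x : ℝ) - zz s d a θ y with hu
  set v : ℝ := Psi s d a θ x - Psi s d a θ y with hv
  have hx := zz_near s d a θ x
  have hy := zz_near s d a θ y
  have huv : |v - u| ≤ s := by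
    rw [abs_le]
    constructor <;> rw [hu, hv] <;> linarith [hx.1, hx.2, hy.1, hy.2]
  have h4 : v ^ 2 ≤ 2 * u ^ 2 + 2 * (s : ℝ) ^ 2 := by
    have h5 : (v - u) ^ 2 ≤ (s : ℝ) ^ 2 := by
      rw [← sq_abs]
      exact pow_le_pow_left₀ (abs_nonneg _) huv 2
    nlinarith [sq_nonneg (v - 2 * u)]
  have h6 : Real.exp (-Real.pi * (u / (1 / 2)) ^ 2) ≤
      Real.exp (4 * Real.pi * s ^ 2) * Real.exp (-Real.pi * (v / 1) ^ 2) := by
    rw [← Real.exp_add]
    apply Real.exp_le_exp.2
    have e1 : (u / (1 / 2)) ^ 2 = 4 * u ^ 2 := by ring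
    rw [e1, div_one]
    nlinarith [mul_nonneg hpi.le (sq_nonneg v)]
  calc 1 / (1 / 2) * Real.exp (-Real.pi * (u / (1 / 2)) ^ 2) = 2 * Real.exp (-Real.pi * (u / (1 / 2)) ^ 2) := by norm_num
    _ ≤ 2 * (Real.exp (4 * Real.pi * s ^ 2) * Real.exp (-Real.pi * (v / 1) ^ 2)) :=
        mul_le_mul_of_nonneg_left h6 (by norm_num)
    _ = _ := by ring

theorem int_ee_half (m : ℤ) : ∫ α : ℝ in Set.Icc (-(1 / 2) : ℝ) (1 / 2), ee (α * m) = if m = 0 then 1 else 0 := by
  rw [integral_Icc_eq_integral_Ioc, ← intervalIntegral.integral_of_le (by norm_num)]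
  split_ifs with h
  · subst h
    simp only [Int.cast_zero, mul_zero, ee_zero]
    rw [intervalIntegral.integral_const]
    norm_num
  · have hpi := Real.pi_pos
    have hm' : (m : ℝ) ≠ 0 := by exact_mod_cast h
    have hc : (((2 * Real.pi * m : ℝ) : ℂ) * I) ≠ 0 := by
      apply mul_ne_zero _ I_ne_zero
      rw [ofReal_ne_zero]
      have : (2 * Real.pi) ≠ 0 := by positivity
      exact mul_ne_zero this hm'
    have h2 : ∀ t : ℝ, ee (t * m) = cexp ((((2 * Real.pi * m : ℝ) : ℂ) * I) * t) := by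
      intro t
      unfold ee
      congr 1
      push_cast
      ring
    rw [intervalIntegral.integral_congr (g := fun t : ℝ => cexp ((((2 * Real.pi * m : ℝ) : ℂ) * I) * t))
      fun t _ => h2 t, integral_exp_mul_complex hc, ← h2, ← h2]
    have e1 : ee (1 / 2 * (m : ℝ)) = ee (-(1 / 2) * (m : ℝ)) := by
      have e2 : 1 / 2 * (m : ℝ) = -(1 / 2) * (m : ℝ) + ((m : ℤ) : ℝ) := by ring
      rw [e2, ee_add, ee_int', mul_one]
    rw [e1, sub_self, zero_div]

variable {ι : Type*}

/-- **Comparison of the number of representations of an integer with the smoothed count.** -/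
theorem compare_int (V : Finset ι) (z : ι → ℤ) (n : ℤ) (W T : ℝ) (hW : 0 < W) (hT : 0 < T) (hT1 : T ≤ 1 / 2) :
    ENNReal.ofReal |((V.filter fun x => z x = n).card : ℝ) - ∑ x ∈ V, gg W ((z x : ℝ) - n)| ≤
      (∫⁻ α in {α : ℝ | T ≤ |α|} ∩ Set.Icc (-(1 / 2) : ℝ) (1 / 2), ENNReal.ofReal ‖∑ x ∈ V, ee (α * (z x : ℝ))‖) +
      ENNReal.ofReal (2 * Real.pi * W ^ 2 * T ^ 3 * V.card) +
      ENNReal.ofReal (V.card * (2 / W * Real.exp (-(W * (1 / 2)) ^ 2))) := by
  classical
  have hpi := Real.pi_pos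
  set I0 : Set ℝ := Set.Icc (-(1 / 2) : ℝ) (1 / 2) with hI0
  set Sm : ℝ → ℂ := fun α => ∑ x ∈ V, ee (α * (z x : ℝ)) with hSm
  have hSmc : Continuous Sm := by
    apply continuous_finsetSum
    intro x _
    exact continuous_ee.comp (by fun_prop)
  have hSmle : ∀ α, ‖Sm α‖ ≤ V.card := fun α => by
    refine (norm_sum_le _ _).trans ?_
    simp [norm_ee]
  -- the exact count
  have h1 : (((V.filter fun x => z x = n).card : ℝ) : ℂ) = ∫ α, I0.indicator (fun α => ee (-(α * n)) * Sm α) α := by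
    rw [integral_indicator measurableSet_Icc]
    have e1 : ∀ α : ℝ, ee (-(α * n)) * Sm α = ∑ x ∈ V, ee (α * ((z x - n : ℤ) : ℝ)) := by
      intro α
      rw [hSm]
      simp only
      rw [mul_sum]
      apply sum_congr rfl
      intro x _
      rw [← ee_add]
      congr 1
      push_cast
      ring
    have hci : ∀ x, Continuous fun α : ℝ => ee (α * ((z x - n : ℤ) : ℝ)) := fun x => continuous_ee.comp (by fun_prop)
    rw [setIntegral_congr_fun measurableSet_Icc (g := fun α : ℝ => ∑ x ∈ V, ee (α * ((z x - n : ℤ) : ℝ))) fun α _ => e1 α,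
      integral_finsetSum _ fun x _ => (hci x).continuousOn.integrableOn_Icc]
    rw [sum_congr rfl fun x _ => int_ee_half (z x - n), card_filter]
    push_cast
    apply sum_congr rfl
    intro x _
    by_cases h : z x = n
    · rw [if_pos h, if_pos (by omega)]
      norm_num
    · rw [if_neg h, if_neg (by omega)]
      norm_num
  have h2 := count_fourier V (fun x => (z x : ℝ)) W n hW
  have hi2 := count_integrable V (fun x => (z x : ℝ)) W n hW
  have hi1 : Integrable fun α : ℝ => I0.indicator (fun α => ee (-(α * n)) * Sm α) α := by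
    rw [integrable_indicator_iff measurableSet_Icc]
    apply ContinuousOn.integrableOn_Icc
    apply Continuous.continuousOn
    exact (continuous_ee.comp (by fun_prop)).mul hSmc
  set f : ℝ → ℂ := fun α => I0.indicator (fun α => ee (-(α * n)) * Sm α) α -
    ((Real.exp (-Real.pi * (W * α) ^ 2) : ℝ) : ℂ) * (ee (-(α * n)) * Sm α) with hf
  have h3 : ((((V.filter fun x => z x = n).card : ℝ) - ∑ x ∈ V, gg W ((z x : ℝ) - n) : ℝ) : ℂ) = ∫ α, f α := by
    rw [Complex.ofReal_sub, h1, h2, ← integral_sub hi1 hi2]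
  have h4 : |((V.filter fun x => z x = n).card : ℝ) - ∑ x ∈ V, gg W ((z x : ℝ) - n)| = ‖∫ α, f α‖ := by
    rw [← h3, norm_real, Real.norm_eq_abs]
  rw [h4, ofReal_norm]
  refine (enorm_integral_le_lintegral_enorm f).trans ?_
  have hpt : ∀ α, ‖f α‖ₑ ≤ (({α : ℝ | T ≤ |α|} ∩ I0).indicator (fun α => ENNReal.ofReal ‖Sm α‖) α +
      (Set.Icc (-T) T).indicator (fun _ => ENNReal.ofReal (Real.pi * W ^ 2 * T ^ 2 * V.card)) α) +
      ENNReal.ofReal V.card *
        {α : ℝ | 1 / 2 < |α|}.indicator (fun α => ENNReal.ofReal (Real.exp (-Real.pi * (W * α) ^ 2))) α := by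
    intro α
    have he0 : 0 < Real.exp (-Real.pi * (W * α) ^ 2) := Real.exp_pos _
    have he1 : Real.exp (-Real.pi * (W * α) ^ 2) ≤ 1 := by
      rw [Real.exp_le_one_iff]
      have h3 : 0 ≤ Real.pi * (W * α) ^ 2 := by positivity
      linarith
    rw [← ofReal_norm]
    by_cases hI : α ∈ I0
    · have hfe : ‖f α‖ = (1 - Real.exp (-Real.pi * (W * α) ^ 2)) * ‖Sm α‖ := by
        have : f α = ((1 - Real.exp (-Real.pi * (W * α) ^ 2) : ℝ) : ℂ) * (ee (-(α * n)) * Sm α) := by
          rw [hf]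
          simp only
          rw [Set.indicator_of_mem hI]
          push_cast
          ring
        rw [this, norm_mul, norm_mul, norm_ee, one_mul, norm_real, Real.norm_eq_abs, abs_of_nonneg (by linarith)]
      rw [hfe]
      rcases le_or_gt T |α| with hc | hc
      · have hmem : α ∈ {α : ℝ | T ≤ |α|} ∩ I0 := ⟨hc, hI⟩
        rw [Set.indicator_of_mem hmem]
        refine le_trans ?_ le_self_add
        refine le_trans ?_ le_self_add
        apply ENNReal.ofReal_le_ofReal
        calc (1 - Real.exp (-Real.pi * (W * α) ^ 2)) * ‖Sm α‖ ≤ 1 * ‖Sm α‖ :=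
              mul_le_mul_of_nonneg_right (by linarith) (norm_nonneg _)
          _ = _ := one_mul _
      · have hmem : α ∈ Set.Icc (-T) T := abs_le.1 hc.le
        rw [Set.indicator_of_mem hmem]
        refine le_trans ?_ le_self_add
        refine le_trans ?_ le_add_self
        apply ENNReal.ofReal_le_ofReal
        apply mul_le_mul _ (hSmle α) (norm_nonneg _) (by positivity)
        have h5 := Real.add_one_le_exp (-Real.pi * (W * α) ^ 2)
        have h6 : α ^ 2 ≤ T ^ 2 := by
          rw [← sq_abs α]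
          exact pow_le_pow_left₀ (abs_nonneg _) hc.le 2
        have h7 : Real.pi * (W * α) ^ 2 ≤ Real.pi * W ^ 2 * T ^ 2 := by
          calc Real.pi * (W * α) ^ 2 = Real.pi * W ^ 2 * α ^ 2 := by ring
            _ ≤ _ := mul_le_mul_of_nonneg_left h6 (by positivity)
        linarith
    · have hfe : ‖f α‖ = Real.exp (-Real.pi * (W * α) ^ 2) * ‖Sm α‖ := by
        rw [hf]
        simp only
        rw [Set.indicator_of_notMem hI, zero_sub, norm_neg, norm_mul, norm_mul, norm_ee, one_mul, norm_real,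
          Real.norm_eq_abs, abs_of_pos he0]
      have hmem : α ∈ {α : ℝ | 1 / 2 < |α|} := by
        show 1 / 2 < |α|
        by_contra hcon
        apply hI
        have := abs_le.1 (not_lt.1 hcon)
        exact ⟨by linarith [this.1], this.2⟩
      rw [hfe, Set.indicator_of_mem hmem]
      refine le_trans ?_ le_add_self
      rw [← ENNReal.ofReal_mul (Nat.cast_nonneg _), mul_comm]
      exact ENNReal.ofReal_le_ofReal (mul_le_mul_of_nonneg_right (hSmle α) he0.le)
  refine (lintegral_mono hpt).trans ?_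
  have hm1 : Measurable (({α : ℝ | T ≤ |α|} ∩ I0).indicator (fun α => ENNReal.ofReal ‖Sm α‖)) := by
    apply Measurable.indicator _ ((meas_T T).inter measurableSet_Icc)
    exact (ENNReal.continuous_ofReal.comp hSmc.norm).measurable
  have hm2 : Measurable ((Set.Icc (-T) T).indicator (fun _ => ENNReal.ofReal (Real.pi * W ^ 2 * T ^ 2 * V.card))) :=
    measurable_const.indicator measurableSet_Icc
  have hm3 : Measurable fun α : ℝ => {α : ℝ | 1 / 2 < |α|}.indicator (fun α => ENNReal.ofReal (Real.exp (-Real.pi * (W * α) ^ 2))) α := by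
    apply Measurable.indicator
    · fun_prop
    · exact measurableSet_lt measurable_const continuous_abs.measurable
  rw [lintegral_add_right _ (hm3.const_mul _), lintegral_add_left hm1, lintegral_const_mul _ hm3,
    lintegral_indicator ((meas_T T).inter measurableSet_Icc),
    lintegral_indicator_const measurableSet_Icc, Real.volume_Icc, ← ENNReal.ofReal_mul (by positivity)]
  apply add_le_add
  · apply add_le_add le_rfl
    apply le_of_eq
    congr 1
    ring
  · rw [ENNReal.ofReal_mul (Nat.cast_nonneg _)]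
    exact mul_le_mul_right (tailint W (1 / 2) hW (by norm_num)) _

end Pool.Agent.U914.WP
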