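import Mathlib
import Pool.Agent.U914.WP.IB

/-! Almost all polynomials in Waring's problem: the arcs for the integer parts. -/

set_option autoImplicit false

open Finset MeasureTheory Complex
open Pool.Agent.U518.WS (ee norm_ee ee_add ee_sub ee_sum ee_neg ee_zero continuous_ee m1 ms meas_T)

namespace Pool.Agent.U914.WP

theorem SS_GG (d : ℕ) (a : ℝ) (θ : Fin d → ℝ) (P : ℕ) (α : ℝ) :
    ‖SS d a θ P α‖ ≤ ‖GG d a θ P α‖ + 3 * P * (2 * Real.pi * |α|) := by
  have hpi := Real.pi_pos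
  have h1 : ‖SS d a θ P α - GG d a θ P α‖ ≤ 3 * P * (2 * Real.pi * |α|) := by
    unfold SS GG
    rw [← sum_sub_distrib]
    refine (norm_sum_le _ _).trans ?_
    calc ∑ n ∈ IQ P, ‖ee (α * (⌊pf d a θ n⌋ : ℝ)) - ee (α * pf d a θ n)‖ ≤ ∑ _n ∈ IQ P, 2 * Real.pi * |α| := by
          apply sum_le_sum
          intro n _
          refine (ee_diff _ _).trans ?_
          rw [← mul_sub, abs_mul]
          have h2 : |(⌊pf d a θ n⌋ : ℝ) - pf d a θ n| ≤ 1 := by
            rw [abs_le]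
            constructor
            · linarith [Int.lt_floor_add_one (pf d a θ n)]
            · linarith [Int.floor_le (pf d a θ n)]
          calc 2 * Real.pi * (|α| * |(⌊pf d a θ n⌋ : ℝ) - pf d a θ n|) ≤ 2 * Real.pi * (|α| * 1) := by
                apply mul_le_mul_of_nonneg_left _ (by positivity)
                exact mul_le_mul_of_nonneg_left h2 (abs_nonneg _)
            _ = _ := by rw [mul_one]
      _ = _ := by rw [sum_const, card_IQ, nsmul_eq_mul]; push_cast; ring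
  have h2 : SS d a θ P α = GG d a θ P α + (SS d a θ P α - GG d a θ P α) := by ring
  rw [h2]
  exact (norm_add_le _ _).trans (by linarith)

/-- the exceptional frequencies -/
def EE (g Qp R : ℝ) (M : ℤ) (H : ℕ) : Set ℝ :=
  ⋃ h ∈ range H, ⋃ h' ∈ range H, (fun α : ℝ => α + ((h : ℝ) - h')) ⁻¹' MM g Qp R M

theorem EE_meas (g Qp R : ℝ) (M : ℤ) (H : ℕ) : MeasurableSet (EE g Qp R M H) := by
  unfold EE
  refine MeasurableSet.biUnion (Set.to_countable _) fun h _ => ?_
  refine MeasurableSet.biUnion (Set.to_countable _) fun h' _ => ?_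
  exact (MM_meas g Qp R M).preimage (by fun_prop)

theorem EE_vol (g Qp R : ℝ) (M : ℤ) (H : ℕ) :
    volume (EE g Qp R M H) ≤ ENNReal.ofReal ((H : ℝ) ^ 2) * volume (MM g Qp R M) := by
  unfold EE
  calc volume (⋃ h ∈ range H, ⋃ h' ∈ range H, (fun α : ℝ => α + ((h : ℝ) - h')) ⁻¹' MM g Qp R M) ≤
        ∑ h ∈ range H, volume (⋃ h' ∈ range H, (fun α : ℝ => α + ((h : ℝ) - h')) ⁻¹' MM g Qp R M) :=
        measure_biUnion_finset_le _ _
    _ ≤ ∑ _h ∈ range H, ∑ _h' ∈ range H, volume (MM g Qp R M) := by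
        apply sum_le_sum
        intro h _
        refine (measure_biUnion_finset_le _ _).trans (sum_le_sum fun h' _ => ?_)
        rw [measure_preimage_add_right]
    _ = _ := by
        rw [sum_const, sum_const, card_range, nsmul_eq_mul, nsmul_eq_mul, ← mul_assoc, ← ENNReal.ofReal_natCast,
          ← ENNReal.ofReal_mul (Nat.cast_nonneg _), sq]

/-- the pointwise bound off the exceptional set -/
theorem SS_minor (d : ℕ) (a : ℝ) (ha : 0 < a) (θ : Fin d → ℝ) (P : ℕ) (u Qp R w0 T η A1 : ℝ) (H : ℕ)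
    (hu : 0 < u) (hQp : 0 < Qp) (hR : 0 < R) (hH : 1 ≤ H) (hη : 0 < η)
    (hWe : ∀ β : ℝ, 3 * (P : ℝ) ≤ u * ‖GG d a θ P β‖ →
      ∃ q : ℕ, 1 ≤ q ∧ (q : ℝ) ≤ Qp ∧ ∃ b : ℤ, |q * (((d + 1).factorial : ℝ) * (β * a)) - b| ≤ R)
    (hg1 : Qp * (((d + 1).factorial : ℝ) * a) * w0 + R < 1) (hg2 : R < T * (((d + 1).factorial : ℝ) * a))
    (hg3 : R < w0 * (((d + 1).factorial : ℝ) * a)) (hw0 : 0 < w0) (hw1 : w0 ≤ 1 / 2)
    (hA1 : 3 * P / u + 3 * P * (2 * Real.pi * w0) ≤ A1)
    (hA2 : H * (3 * P / u) + 3 * P * (Real.pi * η + 1 / (2 * H * η ^ 2)) + 2 * Bd d a θ P η ≤ A1)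
    (α : ℝ) (hα1 : T ≤ |α|) (hα2 : |α| ≤ 1 / 2)
    (hα3 : w0 < |α| → α ∉ EE (((d + 1).factorial : ℝ) * a) Qp R
      ⌊Qp * (((d + 1).factorial : ℝ) * a) * (H + 1) + R⌋ H) :
    ‖SS d a θ P α‖ ≤ A1 := by
  have hpi := Real.pi_pos
  set g : ℝ := ((d + 1).factorial : ℝ) * a with hg
  have hgp : 0 < g := by
    rw [hg]
    have : (0 : ℝ) < ((d + 1).factorial : ℝ) := by exact_mod_cast Nat.factorial_pos _
    positivity
  have hWe' : ∀ β : ℝ, 3 * (P : ℝ) ≤ u * ‖GG d a θ P β‖ →
      ∃ q : ℕ, 1 ≤ q ∧ (q : ℝ) ≤ Qp ∧ ∃ b : ℤ, |q * (g * β) - b| ≤ R := by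
    intro β h
    obtain ⟨q, hq1, hq2, b, hb⟩ := hWe β h
    refine ⟨q, hq1, hq2, b, ?_⟩
    have e : (q : ℝ) * (g * β) = q * (((d + 1).factorial : ℝ) * (β * a)) := by rw [hg]; ring
    rw [e]
    exact hb
  rcases le_or_gt |α| w0 with hc | hc
  · -- small frequencies
    have h1 : ‖GG d a θ P α‖ ≤ 3 * P / u := by
      by_contra hcon
      push Not at hcon
      rw [div_lt_iff₀ hu] at hcon
      obtain ⟨q, hq1, hq2, b, hb⟩ := hWe' α (by linarith)
      have hq0 : (1 : ℝ) ≤ q := by exact_mod_cast hq1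
      have h2 : |q * (g * α)| ≤ Qp * g * w0 := by
        rw [abs_mul, abs_mul, abs_of_pos hgp, abs_of_nonneg (by positivity : (0 : ℝ) ≤ q)]
        calc (q : ℝ) * (g * |α|) ≤ Qp * (g * w0) :=
              mul_le_mul hq2 (mul_le_mul_of_nonneg_left hc hgp.le) (by positivity) hQp.le
          _ = _ := by ring
      have h3 : |(b : ℝ)| < 1 := by
        have h4 : |(b : ℝ)| ≤ |q * (g * α)| + |q * (g * α) - b| := by
          have := abs_sub (q * (g * α)) (q * (g * α) - b)
          rwa [sub_sub_cancel] at this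
        linarith
      have hb0 : b = 0 := by
        have : |b| < 1 := by exact_mod_cast h3
        exact Int.abs_lt_one_iff.1 this
      rw [hb0, Int.cast_zero, sub_zero, abs_mul, abs_mul, abs_of_pos hgp,
        abs_of_nonneg (by positivity : (0 : ℝ) ≤ q)] at hb
      have h5 : T * g ≤ q * (g * |α|) := by
        calc T * g ≤ |α| * g := mul_le_mul_of_nonneg_right hα1 hgp.le
          _ = 1 * (g * |α|) := by ring
          _ ≤ _ := mul_le_mul_of_nonneg_right hq0 (by positivity)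
      linarith
    have h2 := SS_GG d a θ P α
    have h3 : 3 * (P : ℝ) * (2 * Real.pi * |α|) ≤ 3 * P * (2 * Real.pi * w0) := by
      apply mul_le_mul_of_nonneg_left _ (by positivity)
      exact mul_le_mul_of_nonneg_left hc (by positivity)
    linarith
  · -- the other frequencies
    have hnot := hα3 hc
    have h1 : ∀ h ∈ range H, ∀ h' ∈ range H, ‖GG d a θ P (α + ((h : ℝ) - h'))‖ ≤ 3 * P / u := by
      intro h hh h' hh'
      by_contra hcon
      push Not at hcon
      rw [div_lt_iff₀ hu] at hcon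
      obtain ⟨q, hq1, hq2, b, hb⟩ := hWe' (α + ((h : ℝ) - h')) (by linarith)
      have hq0 : (1 : ℝ) ≤ q := by exact_mod_cast hq1
      rw [mem_range] at hh hh'
      have hh1 : (h : ℝ) + 1 ≤ H := by exact_mod_cast hh
      have hh1' : (h' : ℝ) + 1 ≤ H := by exact_mod_cast hh'
      have hh0 : (0 : ℝ) ≤ h := Nat.cast_nonneg h
      have hh0' : (0 : ℝ) ≤ h' := Nat.cast_nonneg h'
      have hαa := abs_le.1 hα2
      have hBd : |α + ((h : ℝ) - h')| ≤ H + 1 := by
        rw [abs_le]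
        constructor <;> linarith [hαa.1, hαa.2]
      have hlow : w0 ≤ |α + ((h : ℝ) - h')| := by
        rcases lt_trichotomy h h' with hlt | heq | hgt
        · have : (h : ℝ) + 1 ≤ h' := by exact_mod_cast hlt
          rw [abs_of_nonpos (by linarith [hαa.2])]
          linarith [hαa.2]
        · rw [heq, sub_self, add_zero]
          exact hc.le
        · have : (h' : ℝ) + 1 ≤ h := by exact_mod_cast hgt
          rw [abs_of_nonneg (by linarith [hαa.1])]
          linarith [hαa.1]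
      have hb0 : b ≠ 0 := by
        intro hcon2
        rw [hcon2, Int.cast_zero, sub_zero, abs_mul, abs_mul, abs_of_pos hgp,
          abs_of_nonneg (by positivity : (0 : ℝ) ≤ q)] at hb
        have h5 : w0 * g ≤ q * (g * |α + ((h : ℝ) - h')|) := by
          calc w0 * g ≤ |α + ((h : ℝ) - h')| * g := mul_le_mul_of_nonneg_right hlow hgp.le
            _ = 1 * (g * |α + ((h : ℝ) - h')|) := by ring
            _ ≤ _ := mul_le_mul_of_nonneg_right hq0 (by positivity)
        linarith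
      have hmem := MM_cover g Qp R (H + 1) hgp hR.le hQp.le (α + ((h : ℝ) - h')) hBd q hq1 hq2 b hb0 hb
      apply hnot
      unfold EE
      rw [Set.mem_iUnion₂]
      refine ⟨h, mem_range.2 hh, ?_⟩
      rw [Set.mem_iUnion₂]
      exact ⟨h', mem_range.2 hh', hmem⟩
    have hH0 : (0 : ℝ) < H := by exact_mod_cast hH
    have h2 : (1 / (H : ℝ)) * ∑ h ∈ range H, ∑ h' ∈ range H, ‖GG d a θ P (α + ((h : ℝ) - h'))‖ ≤ H * (3 * P / u) := by
      calc (1 / (H : ℝ)) * ∑ h ∈ range H, ∑ h' ∈ range H, ‖GG d a θ P (α + ((h : ℝ) - h'))‖ ≤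
            (1 / (H : ℝ)) * ∑ _h ∈ range H, ∑ _h' ∈ range H, 3 * P / u := by
            apply mul_le_mul_of_nonneg_left _ (by positivity)
            exact sum_le_sum fun h hh => sum_le_sum fun h' hh' => h1 h hh h' hh'
        _ = _ := by
            rw [sum_const, sum_const, card_range, nsmul_eq_mul, nsmul_eq_mul]
            field_simp
    have h3 := SS_le d a θ P α η H hH hα2 hη
    linarith

/-- the integral over the arcs for the integer parts -/
noncomputable def YY (t d : ℕ) (a : ℝ) (P : ℕ) (T : ℝ) (θ : Fin d → ℝ) : ENNReal :=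
  ∫⁻ α in {α : ℝ | T ≤ |α|} ∩ Set.Icc (-(1 / 2) : ℝ) (1 / 2),
    ENNReal.ofReal (‖∑ x ∈ box (d + 1) P, ee (α * (zz (d + 1) d a θ x : ℝ))‖ ^ 2 * ‖SS d a θ P α‖ ^ t)

/-- the mean square for the integer parts -/
noncomputable def JJ (d : ℕ) (a : ℝ) (P : ℕ) (θ : Fin d → ℝ) : ENNReal :=
  ∫⁻ α in Set.Icc (-(1 / 2) : ℝ) (1 / 2), ENNReal.ofReal (‖∑ x ∈ box (d + 1) P, ee (α * (zz (d + 1) d a θ x : ℝ))‖ ^ 2)

/-- the integral over the exceptional set -/
noncomputable def XE (d : ℕ) (a : ℝ) (P : ℕ) (E : Set ℝ) (w0 : ℝ) (θ : Fin d → ℝ) : ENNReal :=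
  ∫⁻ α in E ∩ ({α : ℝ | w0 ≤ |α|} ∩ Set.Icc (-(1 / 2) : ℝ) (1 / 2)), ENNReal.ofReal ‖SS d a θ P α‖

/-- **The deterministic bound.** -/
theorem YY_le (t d : ℕ) (ht : 1 ≤ t) (a : ℝ) (P : ℕ) (T w0 A1 : ℝ) (θ : Fin d → ℝ) (E : Set ℝ) (hE : MeasurableSet E)
    (hA1 : 0 ≤ A1)
    (h : ∀ α : ℝ, T ≤ |α| → |α| ≤ 1 / 2 → (w0 < |α| → α ∉ E) → ‖SS d a θ P α‖ ≤ A1) :
    YY t d a P T θ ≤ ENNReal.ofReal (A1 * (3 * P) ^ (t - 1)) * JJ d a P θ +
      ENNReal.ofReal (((3 * 8 ^ (d + 1) * (P : ℝ)) ^ (d + 1)) ^ 2 * (3 * P) ^ (t - 1)) * XE d a P E w0 θ := by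
  set k := d + 1 with hk
  set K2 : ℝ := ((3 * 8 ^ k * (P : ℝ)) ^ k) ^ 2 with hK2
  set I0 : Set ℝ := Set.Icc (-(1 / 2) : ℝ) (1 / 2) with hI0
  set Sq : ℝ → ℝ := fun α => ‖∑ x ∈ box k P, ee (α * (zz k d a θ x : ℝ))‖ ^ 2 with hSq
  have hSq0 : ∀ α, 0 ≤ Sq α := fun α => by positivity
  have hSqle : ∀ α, Sq α ≤ K2 := by
    intro α
    apply pow_le_pow_left₀ (norm_nonneg _)
    refine (norm_sum_le _ _).trans ?_
    calc ∑ x ∈ box k P, ‖ee (α * (zz k d a θ x : ℝ))‖ = (box k P).card := by simp [norm_ee]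
      _ ≤ _ := card_box_le k P
  have hSqm : Measurable fun α => ENNReal.ofReal (Sq α) := by
    apply Continuous.measurable
    apply ENNReal.continuous_ofReal.comp
    apply Continuous.pow
    apply Continuous.norm
    apply continuous_finsetSum
    intro x _
    exact continuous_ee.comp (by fun_prop)
  have hSm : Measurable fun α => ENNReal.ofReal ‖SS d a θ P α‖ := by
    apply ENNReal.measurable_ofReal.comp
    have h1 : Measurable fun α : ℝ => (θ, α) := measurable_const.prodMk measurable_id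
    exact ((SS_meas d a P).comp h1).norm
  set E' : Set ℝ := E ∩ ({α : ℝ | w0 ≤ |α|} ∩ I0) with hE'
  have hE'm : MeasurableSet E' := hE.inter ((meas_T w0).inter measurableSet_Icc)
  have hpt : ∀ α ∈ {α : ℝ | T ≤ |α|} ∩ I0, ENNReal.ofReal (Sq α * ‖SS d a θ P α‖ ^ t) ≤
      ENNReal.ofReal (A1 * (3 * P) ^ (t - 1)) * I0.indicator (fun α => ENNReal.ofReal (Sq α)) α +
      ENNReal.ofReal (K2 * (3 * P) ^ (t - 1)) * E'.indicator (fun α => ENNReal.ofReal ‖SS d a θ P α‖) α := by
    intro α hα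
    have hα1 : T ≤ |α| := hα.1
    have hα2 : |α| ≤ 1 / 2 := abs_le.2 ⟨by linarith [hα.2.1], hα.2.2⟩
    have hG0 : 0 ≤ ‖SS d a θ P α‖ := norm_nonneg _
    have hGt : ‖SS d a θ P α‖ ^ t = ‖SS d a θ P α‖ ^ (t - 1) * ‖SS d a θ P α‖ := by
      rw [← pow_succ]
      congr 1
      omega
    have hGt1 : ‖SS d a θ P α‖ ^ (t - 1) ≤ (3 * (P : ℝ)) ^ (t - 1) :=
      pow_le_pow_left₀ hG0 (SS_norm_le d a θ P α) _
    by_cases hc : α ∈ E'
    · rw [Set.indicator_of_mem hc]
      refine le_trans ?_ le_add_self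
      rw [← ENNReal.ofReal_mul (by positivity)]
      apply ENNReal.ofReal_le_ofReal
      rw [hGt]
      calc Sq α * (‖SS d a θ P α‖ ^ (t - 1) * ‖SS d a θ P α‖) ≤ K2 * ((3 * (P : ℝ)) ^ (t - 1) * ‖SS d a θ P α‖) := by
            apply mul_le_mul (hSqle α) _ (by positivity) (by positivity)
            exact mul_le_mul_of_nonneg_right hGt1 hG0
        _ = _ := by ring
    · have hbd : ‖SS d a θ P α‖ ≤ A1 := by
        apply h α hα1 hα2
        intro hw hmem
        exact hc ⟨hmem, hw.le, hα.2⟩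
      rw [Set.indicator_of_mem hα.2]
      refine le_trans ?_ le_self_add
      rw [← ENNReal.ofReal_mul (by positivity)]
      apply ENNReal.ofReal_le_ofReal
      rw [hGt]
      calc Sq α * (‖SS d a θ P α‖ ^ (t - 1) * ‖SS d a θ P α‖) ≤ Sq α * ((3 * (P : ℝ)) ^ (t - 1) * A1) := by
            apply mul_le_mul_of_nonneg_left _ (hSq0 α)
            exact mul_le_mul hGt1 hbd hG0 (by positivity)
        _ = _ := by ring
  unfold YY JJ XE
  calc _ ≤ ∫⁻ α in {α : ℝ | T ≤ |α|} ∩ I0,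
        (ENNReal.ofReal (A1 * (3 * P) ^ (t - 1)) * I0.indicator (fun α => ENNReal.ofReal (Sq α)) α +
      ENNReal.ofReal (K2 * (3 * P) ^ (t - 1)) * E'.indicator (fun α => ENNReal.ofReal ‖SS d a θ P α‖) α) :=
        setLIntegral_mono' ((meas_T T).inter measurableSet_Icc) hpt
    _ ≤ ∫⁻ α, (ENNReal.ofReal (A1 * (3 * P) ^ (t - 1)) * I0.indicator (fun α => ENNReal.ofReal (Sq α)) α +
      ENNReal.ofReal (K2 * (3 * P) ^ (t - 1)) * E'.indicator (fun α => ENNReal.ofReal ‖SS d a θ P α‖) α) :=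
        setLIntegral_le_lintegral _ _
    _ = _ := by
        have hm1 : Measurable (I0.indicator (fun α => ENNReal.ofReal (Sq α))) := hSqm.indicator measurableSet_Icc
        have hm2 : Measurable (E'.indicator (fun α => ENNReal.ofReal ‖SS d a θ P α‖)) := hSm.indicator hE'm
        rw [lintegral_add_left (hm1.const_mul _), lintegral_const_mul _ hm1, lintegral_const_mul _ hm2,
          lintegral_indicator measurableSet_Icc, lintegral_indicator hE'm]

/-- **The average over the exceptional set.** -/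
theorem XE_mean (d : ℕ) (hd : 1 ≤ d) (a : ℝ) (m : Fin d → ℝ) (P : ℕ) (hP : 1 ≤ P) (E : Set ℝ) (hE : MeasurableSet E)
    (w0 η W : ℝ) (H : ℕ) (hH : 1 ≤ H) (hw0 : 0 < w0) (hw1 : w0 ≤ 1 / 2) (hη : 0 < η) (hη1 : η ≤ 1 / 2) (hW : 0 < W) :
    ∫⁻ t, XE d a P E w0 (m + t) ∂(ms d) ≤
      ENNReal.ofReal (H * (W + 3 * P * (1 + (1 + Real.log (3 * P)) / w0) / W) +
        3 * P * (Real.pi * η + 1 / (2 * H * η ^ 2)) + 2 * (6 * P * η)) * volume E := by
  have hpi := Real.pi_pos
  have hPr : (1 : ℝ) ≤ P := by exact_mod_cast hP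
  have hH0 : (0 : ℝ) < H := by exact_mod_cast hH
  have hL : 0 ≤ Real.log (3 * (P : ℝ)) := Real.log_nonneg (by linarith)
  set I0 : Set ℝ := Set.Icc (-(1 / 2) : ℝ) (1 / 2) with hI0
  set E' : Set ℝ := E ∩ ({α : ℝ | w0 ≤ |α|} ∩ I0) with hE'
  have hE'm : MeasurableSet E' := hE.inter ((meas_T w0).inter measurableSet_Icc)
  set W1 : ℝ := W + 3 * P * (1 + (1 + Real.log (3 * P)) / w0) / W with hW1
  have hW1p : 0 ≤ W1 := by positivity
  have hSSm : Measurable fun p : (Fin d → ℝ) × ℝ => ENNReal.ofReal ‖SS d a (m + p.1) P p.2‖ := by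
    apply ENNReal.measurable_ofReal.comp
    have h1 : Measurable fun p : (Fin d → ℝ) × ℝ => (m + p.1, p.2) :=
      (measurable_const.add measurable_fst).prodMk measurable_snd
    exact ((SS_meas d a P).comp h1).norm
  unfold XE
  rw [lintegral_lintegral_swap hSSm.aemeasurable]
  have hαb : ∀ α ∈ E', ∫⁻ t, ENNReal.ofReal ‖SS d a (m + t) P α‖ ∂(ms d) ≤
      ENNReal.ofReal (H * W1 + 3 * P * (Real.pi * η + 1 / (2 * H * η ^ 2)) + 2 * (6 * P * η)) := by
    intro α hα
    have hαw : w0 ≤ |α| := hα.2.1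
    have hαI := hα.2.2
    have hα2 : |α| ≤ 1 / 2 := abs_le.2 ⟨by linarith [hαI.1], hαI.2⟩
    have hGm : ∀ β : ℝ, Measurable fun t : Fin d → ℝ => ENNReal.ofReal ‖GG d a (m + t) P β‖ := by
      intro β
      apply Continuous.measurable
      apply ENNReal.continuous_ofReal.comp
      have h1 : Continuous fun t : Fin d → ℝ => (m + t, β) := by fun_prop
      exact ((GG_continuous d a P).comp h1).norm
    have hG : ∀ h ∈ range H, ∀ h' ∈ range H,
        ∫⁻ t, ENNReal.ofReal ‖GG d a (m + t) P (α + ((h : ℝ) - h'))‖ ∂(ms d) ≤ ENNReal.ofReal W1 := by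
      intro h _ h' _
      have hlow : w0 ≤ |α + ((h : ℝ) - h')| := by
        have hαa := abs_le.1 hα2
        rcases lt_trichotomy h h' with hlt | heq | hgt
        · have : (h : ℝ) + 1 ≤ h' := by exact_mod_cast hlt
          rw [abs_of_nonpos (by linarith [hαa.2])]
          linarith [hαa.2]
        · rw [heq, sub_self, add_zero]
          exact hαw
        · have : (h' : ℝ) + 1 ≤ h := by exact_mod_cast hgt
          rw [abs_of_nonneg (by linarith [hαa.1])]
          linarith [hαa.1]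
      have hβ0 : 0 < |α + ((h : ℝ) - h')| := lt_of_lt_of_le hw0 hlow
      refine (meanabs d hd a m P hP _ (abs_pos.1 hβ0) W hW).trans (ENNReal.ofReal_le_ofReal ?_)
      have h1 : (1 + Real.log (3 * P)) / |α + ((h : ℝ) - h')| ≤ (1 + Real.log (3 * P)) / w0 :=
        div_le_div_of_nonneg_left (by linarith) hw0 hlow
      have h2 : 3 * (P : ℝ) * (1 + (1 + Real.log (3 * P)) / |α + ((h : ℝ) - h')|) ≤
          3 * P * (1 + (1 + Real.log (3 * P)) / w0) :=
        mul_le_mul_of_nonneg_left (by linarith) (by positivity)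
      have h3 := div_le_div_of_nonneg_right h2 hW.le
      rw [hW1]
      linarith
    have hpt : ∀ t : Fin d → ℝ, ENNReal.ofReal ‖SS d a (m + t) P α‖ ≤
        ENNReal.ofReal (1 / (H : ℝ)) * (∑ h ∈ range H, ∑ h' ∈ range H, ENNReal.ofReal ‖GG d a (m + t) P (α + ((h : ℝ) - h'))‖) +
        ENNReal.ofReal (3 * P * (Real.pi * η + 1 / (2 * H * η ^ 2))) + ENNReal.ofReal 2 * ENNReal.ofReal (Bd d a (m + t) P η) := by
      intro t
      have h1 := SS_le d a (m + t) P α η H hH hα2 hη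
      refine (ENNReal.ofReal_le_ofReal h1).trans ?_
      have hB := Bd_nonneg d a (m + t) P η
      rw [ENNReal.ofReal_add (by positivity) (by positivity), ENNReal.ofReal_add (by positivity) (by positivity),
        ENNReal.ofReal_mul (by positivity), ENNReal.ofReal_mul (by norm_num : (0 : ℝ) ≤ 2),
        ENNReal.ofReal_sum_of_nonneg fun h _ => sum_nonneg fun h' _ => norm_nonneg _]
      apply le_of_eq
      congr 3
      apply sum_congr rfl
      intro h _
      rw [ENNReal.ofReal_sum_of_nonneg fun h' _ => norm_nonneg _]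
    have hBm : Measurable fun t : Fin d → ℝ => ENNReal.ofReal (Bd d a (m + t) P η) :=
      ENNReal.measurable_ofReal.comp (Bd_meas d a m P η)
    have hGs : Measurable fun t : Fin d → ℝ =>
        ∑ h ∈ range H, ∑ h' ∈ range H, ENNReal.ofReal ‖GG d a (m + t) P (α + ((h : ℝ) - h'))‖ :=
      Finset.measurable_fun_sum _ fun h _ => Finset.measurable_fun_sum _ fun h' _ => hGm _
    calc ∫⁻ t, ENNReal.ofReal ‖SS d a (m + t) P α‖ ∂(ms d) ≤
          ∫⁻ t, (ENNReal.ofReal (1 / (H : ℝ)) * (∑ h ∈ range H, ∑ h' ∈ range H, ENNReal.ofReal ‖GG d a (m + t) P (α + ((h : ℝ) - h'))‖) +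
        ENNReal.ofReal (3 * P * (Real.pi * η + 1 / (2 * H * η ^ 2))) + ENNReal.ofReal 2 * ENNReal.ofReal (Bd d a (m + t) P η)) ∂(ms d) :=
          lintegral_mono hpt
      _ = ENNReal.ofReal (1 / (H : ℝ)) * (∑ h ∈ range H, ∑ h' ∈ range H, ∫⁻ t, ENNReal.ofReal ‖GG d a (m + t) P (α + ((h : ℝ) - h'))‖ ∂(ms d)) +
        ENNReal.ofReal (3 * P * (Real.pi * η + 1 / (2 * H * η ^ 2))) +
          ENNReal.ofReal 2 * ∫⁻ t, ENNReal.ofReal (Bd d a (m + t) P η) ∂(ms d) := by
          rw [lintegral_add_right _ (hBm.const_mul _), lintegral_add_right _ measurable_const,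
            lintegral_const_mul _ hGs, lintegral_const_mul _ hBm, lintegral_const, measure_univ, mul_one,
            lintegral_finsetSum _ fun h _ => Finset.measurable_fun_sum _ fun h' _ => hGm _]
          congr 3
          apply sum_congr rfl
          intro h _
          rw [lintegral_finsetSum _ fun h' _ => hGm _]
      _ ≤ ENNReal.ofReal (1 / (H : ℝ)) * (∑ _h ∈ range H, ∑ _h' ∈ range H, ENNReal.ofReal W1) +
        ENNReal.ofReal (3 * P * (Real.pi * η + 1 / (2 * H * η ^ 2))) +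
          ENNReal.ofReal 2 * ENNReal.ofReal (6 * P * η) := by
          apply add_le_add
          · apply add_le_add _ le_rfl
            apply mul_le_mul_right
            exact sum_le_sum fun h hh => sum_le_sum fun h' hh' => hG h hh h' hh'
          · exact mul_le_mul_right (Bd_avg d hd a m η hη hη1 P) _
      _ = _ := by
          rw [sum_const, sum_const, card_range, nsmul_eq_mul, nsmul_eq_mul, ← ENNReal.ofReal_natCast,
            ← ENNReal.ofReal_mul (by positivity), ← ENNReal.ofReal_mul (by positivity),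
            ← ENNReal.ofReal_mul (by positivity), ← ENNReal.ofReal_mul (by norm_num),
            ← ENNReal.ofReal_add (by positivity) (by positivity), ← ENNReal.ofReal_add (by positivity) (by positivity)]
          congr 3
          field_simp
  calc ∫⁻ α in E', ∫⁻ t, ENNReal.ofReal ‖SS d a (m + t) P α‖ ∂(ms d) ≤
        ∫⁻ _α in E', ENNReal.ofReal (H * W1 + 3 * P * (Real.pi * η + 1 / (2 * H * η ^ 2)) + 2 * (6 * P * η)) :=
        setLIntegral_mono' hE'm hαb
    _ = ENNReal.ofReal (H * W1 + 3 * P * (Real.pi * η + 1 / (2 * H * η ^ 2)) + 2 * (6 * P * η)) * volume E' := by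
        rw [setLIntegral_const]
    _ ≤ _ := mul_le_mul_right (measure_mono Set.inter_subset_left) _

end Pool.Agent.U914.WP
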