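import Mathlib
import Pool.Agent.U914.WP.IR

/-! Almost all polynomials in Waring's problem: the arcs are small almost surely. -/

set_option autoImplicit false

open Finset MeasureTheory
open Pool.Agent.U518.WS (ee ms)

namespace Pool.Agent.U914.WP

theorem log35 (p : ℝ) (hp : 1 ≤ p) : 1 + Real.log (3 * p) ≤ 35 * p ^ ((1 : ℝ) / 32) := by
  have hp0 : 0 < p := by linarith
  rw [Real.log_mul (by norm_num) hp0.ne']
  have h2 : Real.log 3 ≤ 2 := by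
    have := Real.log_le_sub_one_of_pos (by norm_num : (0 : ℝ) < 3)
    linarith
  have h3 := Real.log_le_rpow_div hp0.le (by norm_num : (0 : ℝ) < 1 / 32)
  have h4 : p ^ ((1 : ℝ) / 32) / (1 / 32) = 32 * p ^ ((1 : ℝ) / 32) := by ring
  have h5 : (1 : ℝ) ≤ p ^ ((1 : ℝ) / 32) := Real.one_le_rpow hp (by norm_num)
  rw [h4] at h3
  linarith

theorem X1_le (p : ℝ) (hp : 1 ≤ p) (H : ℝ) (hH1 : p ^ ((1 : ℝ) / 8) ≤ H) (hH2 : H ≤ 2 * p ^ ((1 : ℝ) / 8)) :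
    H * (p ^ ((3 : ℝ) / 4) + 3 * p * (1 + (1 + Real.log (3 * p)) / p ^ (-(1 / 64 : ℝ))) / p ^ ((3 : ℝ) / 4)) +
      3 * p * (Real.pi * p ^ (-(1 / 32 : ℝ)) + 1 / (2 * H * (p ^ (-(1 / 32 : ℝ))) ^ 2)) +
      2 * (6 * p * p ^ (-(1 / 32 : ℝ))) ≤ 245 * p ^ (1 - 1 / 32 : ℝ) := by
  have hp0 : 0 < p := by linarith
  have hlog := log35 p hp
  have hlog0 : 0 ≤ 1 + Real.log (3 * p) := by
    have : 0 ≤ Real.log (3 * p) := Real.log_nonneg (by linarith)
    linarith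
  have hHp : 0 < H := lt_of_lt_of_le (by positivity) hH1
  have hmul : ∀ x y : ℝ, p ^ x * p ^ y = p ^ (x + y) := fun x y => (Real.rpow_add hp0 x y).symm
  have hle : ∀ x y : ℝ, x ≤ y → p ^ x ≤ p ^ y := fun x y h => Real.rpow_le_rpow_of_exponent_le hp h
  have hp1 : p = p ^ (1 : ℝ) := (Real.rpow_one p).symm
  have t1 : H * (p ^ ((3 : ℝ) / 4) + 3 * p * (1 + (1 + Real.log (3 * p)) / p ^ (-(1 / 64 : ℝ))) / p ^ ((3 : ℝ) / 4)) ≤
      218 * p ^ (1 - 1 / 32 : ℝ) := by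
    have h1 : (1 + Real.log (3 * p)) / p ^ (-(1 / 64 : ℝ)) ≤ 35 * p ^ ((3 : ℝ) / 64) := by
      rw [div_le_iff₀ (by positivity)]
      calc 1 + Real.log (3 * p) ≤ 35 * p ^ ((1 : ℝ) / 32) := hlog
        _ = 35 * (p ^ ((3 : ℝ) / 64) * p ^ (-(1 / 64 : ℝ))) := by
            rw [hmul]; norm_num
        _ = _ := by ring
    have h2 : (1 : ℝ) ≤ p ^ ((3 : ℝ) / 64) := Real.one_le_rpow hp (by norm_num)
    have h3 : 3 * p * (1 + (1 + Real.log (3 * p)) / p ^ (-(1 / 64 : ℝ))) / p ^ ((3 : ℝ) / 4) ≤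
        108 * p ^ ((3 : ℝ) / 4) := by
      rw [div_le_iff₀ (by positivity)]
      calc 3 * p * (1 + (1 + Real.log (3 * p)) / p ^ (-(1 / 64 : ℝ))) ≤ 3 * p * (36 * p ^ ((3 : ℝ) / 64)) := by
            apply mul_le_mul_of_nonneg_left _ (by positivity)
            linarith
        _ = 108 * (p ^ (1 : ℝ) * p ^ ((3 : ℝ) / 64)) := by rw [← hp1]; ring
        _ = 108 * p ^ (1 + 3 / 64 : ℝ) := by rw [hmul]
        _ ≤ 108 * p ^ (3 / 4 + 3 / 4 : ℝ) := by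
            apply mul_le_mul_of_nonneg_left _ (by norm_num)
            exact hle _ _ (by norm_num)
        _ = _ := by rw [← hmul]; ring
    have h4 : 0 ≤ p ^ ((3 : ℝ) / 4) + 3 * p * (1 + (1 + Real.log (3 * p)) / p ^ (-(1 / 64 : ℝ))) / p ^ ((3 : ℝ) / 4) := by
      positivity
    calc _ ≤ 2 * p ^ ((1 : ℝ) / 8) * (p ^ ((3 : ℝ) / 4) + 108 * p ^ ((3 : ℝ) / 4)) := by
          apply mul_le_mul hH2 (by linarith) h4 (by positivity)
      _ = 218 * (p ^ ((1 : ℝ) / 8) * p ^ ((3 : ℝ) / 4)) := by ring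
      _ = 218 * p ^ (1 / 8 + 3 / 4 : ℝ) := by rw [hmul]
      _ ≤ _ := by
          apply mul_le_mul_of_nonneg_left _ (by norm_num)
          exact hle _ _ (by norm_num)
  have t2 : 3 * p * (Real.pi * p ^ (-(1 / 32 : ℝ)) + 1 / (2 * H * (p ^ (-(1 / 32 : ℝ))) ^ 2)) ≤ 15 * p ^ (1 - 1 / 32 : ℝ) := by
    have h1 : 1 / (2 * H * (p ^ (-(1 / 32 : ℝ))) ^ 2) ≤ p ^ (-(1 / 32 : ℝ)) := by
      rw [div_le_iff₀ (by positivity)]
      have h2 : (1 : ℝ) = p ^ (-(1 / 32 : ℝ)) * (p ^ ((1 : ℝ) / 8) * (p ^ (-(1 / 32 : ℝ))) ^ 2) * p ^ (-(1 / 32 : ℝ)) := by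
        rw [sq]
        simp only [hmul]
        norm_num
      have h3 : p ^ (-(1 / 32 : ℝ)) ≤ 1 := Real.rpow_le_one_of_one_le_of_nonpos hp (by norm_num)
      have h4 : 0 ≤ p ^ (-(1 / 32 : ℝ)) * (p ^ ((1 : ℝ) / 8) * (p ^ (-(1 / 32 : ℝ))) ^ 2) := by positivity
      have h5 : (1 : ℝ) ≤ p ^ (-(1 / 32 : ℝ)) * (p ^ ((1 : ℝ) / 8) * (p ^ (-(1 / 32 : ℝ))) ^ 2) := by
        calc (1 : ℝ) = p ^ (-(1 / 32 : ℝ)) * (p ^ ((1 : ℝ) / 8) * (p ^ (-(1 / 32 : ℝ))) ^ 2) * p ^ (-(1 / 32 : ℝ)) := h2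
          _ ≤ p ^ (-(1 / 32 : ℝ)) * (p ^ ((1 : ℝ) / 8) * (p ^ (-(1 / 32 : ℝ))) ^ 2) * 1 := mul_le_mul_of_nonneg_left h3 h4
          _ = _ := mul_one _
      have h6 : p ^ (-(1 / 32 : ℝ)) * (p ^ ((1 : ℝ) / 8) * (p ^ (-(1 / 32 : ℝ))) ^ 2) ≤
          p ^ (-(1 / 32 : ℝ)) * (H * (p ^ (-(1 / 32 : ℝ))) ^ 2) := by
        apply mul_le_mul_of_nonneg_left _ (by positivity)
        exact mul_le_mul_of_nonneg_right hH1 (by positivity)
      nlinarith
    have h7 : Real.pi * p ^ (-(1 / 32 : ℝ)) ≤ 4 * p ^ (-(1 / 32 : ℝ)) :=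
      mul_le_mul_of_nonneg_right Real.pi_lt_four.le (by positivity)
    calc _ ≤ 3 * p * (5 * p ^ (-(1 / 32 : ℝ))) := by
          apply mul_le_mul_of_nonneg_left _ (by positivity)
          linarith
      _ = 15 * (p ^ (1 : ℝ) * p ^ (-(1 / 32 : ℝ))) := by rw [← hp1]; ring
      _ = _ := by rw [hmul]; norm_num
  have t3 : 2 * (6 * p * p ^ (-(1 / 32 : ℝ))) = 12 * p ^ (1 - 1 / 32 : ℝ) := by
    calc 2 * (6 * p * p ^ (-(1 / 32 : ℝ))) = 12 * (p ^ (1 : ℝ) * p ^ (-(1 / 32 : ℝ))) := by rw [← hp1]; ring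
      _ = _ := by rw [hmul]; norm_num
  linarith

theorem V1_le (k : ℕ) (c0 g : ℝ) (hc0 : 1 ≤ c0) (hg : 0 < g) : ∃ C : ℝ, 0 < C ∧ ∀ p : ℝ, 1 ≤ p → ∀ Qp R H : ℝ,
    0 < Qp → Qp ≤ c0 * p ^ ((1 : ℝ) / 256) → R = Qp / (3 * p) ^ k → R ≤ 1 → 1 ≤ H → H ≤ 2 * p ^ ((1 : ℝ) / 512) →
    H ^ 2 * (Qp * (2 * (Qp * g * (H + 1) + R) + 1) * (2 * R / g)) ≤ C * p ^ ((5 : ℝ) / 256 - k) := by
  refine ⟨4 * (c0 * (6 * c0 * g + 3) * (2 * c0 / g)), by positivity, fun p hp Qp R H hQ0 hQ hR hR1 hH0 hH => ?_⟩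
  have hp0 : 0 < p := by linarith
  have hmul : ∀ x y : ℝ, p ^ x * p ^ y = p ^ (x + y) := fun x y => (Real.rpow_add hp0 x y).symm
  have hle : ∀ x y : ℝ, x ≤ y → p ^ x ≤ p ^ y := fun x y h => Real.rpow_le_rpow_of_exponent_le hp h
  have h1p : (1 : ℝ) ≤ p ^ ((1 : ℝ) / 512) := Real.one_le_rpow hp (by norm_num)
  have h1q : (1 : ℝ) ≤ p ^ ((1 : ℝ) / 128) := Real.one_le_rpow hp (by norm_num)
  have hR0 : 0 < R := by rw [hR]; positivity
  have f1 : H ^ 2 ≤ 4 * p ^ ((1 : ℝ) / 256) := by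
    calc H ^ 2 ≤ (2 * p ^ ((1 : ℝ) / 512)) ^ 2 := pow_le_pow_left₀ (by linarith) hH 2
      _ = 4 * (p ^ ((1 : ℝ) / 512) * p ^ ((1 : ℝ) / 512)) := by ring
      _ = _ := by rw [hmul]; norm_num
  have f2 : 2 * (Qp * g * (H + 1) + R) + 1 ≤ (6 * c0 * g + 3) * p ^ ((1 : ℝ) / 128) := by
    have h1 : Qp * g * (H + 1) ≤ 3 * c0 * g * p ^ ((1 : ℝ) / 128) := by
      have h2 : H + 1 ≤ 3 * p ^ ((1 : ℝ) / 512) := by linarith
      calc Qp * g * (H + 1) ≤ (c0 * p ^ ((1 : ℝ) / 256)) * g * (3 * p ^ ((1 : ℝ) / 512)) := by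
            apply mul_le_mul _ h2 (by linarith) (by positivity)
            exact mul_le_mul_of_nonneg_right hQ hg.le
        _ = 3 * c0 * g * (p ^ ((1 : ℝ) / 256) * p ^ ((1 : ℝ) / 512)) := by ring
        _ = 3 * c0 * g * p ^ (1 / 256 + 1 / 512 : ℝ) := by rw [hmul]
        _ ≤ _ := by
            apply mul_le_mul_of_nonneg_left _ (by positivity)
            exact hle _ _ (by norm_num)
    nlinarith
  have f3 : 2 * R / g ≤ (2 * c0 / g) * p ^ ((1 : ℝ) / 256 - k) := by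
    have h1 : R ≤ c0 * p ^ ((1 : ℝ) / 256 - k) := by
      rw [hR, Real.rpow_sub hp0, Real.rpow_natCast, ← mul_div_assoc]
      apply div_le_div₀ (by positivity) hQ (by positivity)
      exact pow_le_pow_left₀ hp0.le (by linarith) k
    rw [div_mul_eq_mul_div]
    apply div_le_div_of_nonneg_right _ hg.le
    linarith
  calc H ^ 2 * (Qp * (2 * (Qp * g * (H + 1) + R) + 1) * (2 * R / g)) ≤
        (4 * p ^ ((1 : ℝ) / 256)) * ((c0 * p ^ ((1 : ℝ) / 256)) * ((6 * c0 * g + 3) * p ^ ((1 : ℝ) / 128)) *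
          ((2 * c0 / g) * p ^ ((1 : ℝ) / 256 - k))) := by
        apply mul_le_mul f1 _ (by positivity) (by positivity)
        apply mul_le_mul _ f3 (by positivity) (by positivity)
        exact mul_le_mul hQ f2 (by positivity) (by positivity)
    _ = 4 * (c0 * (6 * c0 * g + 3) * (2 * c0 / g)) *
        (p ^ ((1 : ℝ) / 256) * p ^ ((1 : ℝ) / 256) * p ^ ((1 : ℝ) / 128) * p ^ ((1 : ℝ) / 256 - k)) := by ring
    _ = _ := by
        congr 1
        simp only [hmul]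
        congr 1
        ring

theorem A1_le (lam p H Bd : ℝ) (hlam : 0 < lam) (hlam1 : lam ≤ 1 / 256) (hp : 1 ≤ p)
    (hH1 : p ^ (lam / 2) ≤ H) (hH2 : H ≤ 2 * p ^ (lam / 2)) (hB : Bd ≤ p ^ (1 - lam / 16)) :
    3 * p / p ^ lam + 3 * p * (2 * Real.pi * p ^ (-(1 / 64 : ℝ))) ≤ 30 * p ^ (1 - lam / 16) ∧
    H * (3 * p / p ^ lam) + 3 * p * (Real.pi * p ^ (-(lam / 8)) + 1 / (2 * H * (p ^ (-(lam / 8))) ^ 2)) + 2 * Bd ≤
      30 * p ^ (1 - lam / 16) := by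
  have hp0 : 0 < p := by linarith
  have hmul : ∀ x y : ℝ, p ^ x * p ^ y = p ^ (x + y) := fun x y => (Real.rpow_add hp0 x y).symm
  have hle : ∀ x y : ℝ, x ≤ y → p ^ x ≤ p ^ y := fun x y h => Real.rpow_le_rpow_of_exponent_le hp h
  have hp1 : p = p ^ (1 : ℝ) := (Real.rpow_one p).symm
  have hHp : 0 < H := lt_of_lt_of_le (by positivity) hH1
  have e1 : 3 * p / p ^ lam = 3 * p ^ (1 - lam) := by
    rw [Real.rpow_sub hp0, Real.rpow_one]
    ring
  have hpi := Real.pi_lt_four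
  have hpi0 := Real.pi_pos
  constructor
  · have h1 : 3 * p * (2 * Real.pi * p ^ (-(1 / 64 : ℝ))) ≤ 24 * p ^ (1 - lam / 16) := by
      calc 3 * p * (2 * Real.pi * p ^ (-(1 / 64 : ℝ))) = 6 * Real.pi * (p ^ (1 : ℝ) * p ^ (-(1 / 64 : ℝ))) := by
            rw [← hp1]; ring
        _ = 6 * Real.pi * p ^ (1 + -(1 / 64) : ℝ) := by rw [hmul]
        _ ≤ 24 * p ^ (1 - lam / 16) := by
            apply mul_le_mul (by linarith) (hle _ _ (by linarith)) (by positivity) (by norm_num)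
    have h2 : p ^ (1 - lam) ≤ p ^ (1 - lam / 16) := hle _ _ (by linarith)
    have h8 : 0 < p ^ (1 - lam / 16) := by positivity
    rw [e1]
    linarith
  · have t1 : H * (3 * p / p ^ lam) ≤ 6 * p ^ (1 - lam / 16) := by
      rw [e1]
      calc H * (3 * p ^ (1 - lam)) ≤ (2 * p ^ (lam / 2)) * (3 * p ^ (1 - lam)) :=
            mul_le_mul_of_nonneg_right hH2 (by positivity)
        _ = 6 * (p ^ (lam / 2) * p ^ (1 - lam)) := by ring
        _ = 6 * p ^ (lam / 2 + (1 - lam)) := by rw [hmul]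
        _ ≤ _ := mul_le_mul_of_nonneg_left (hle _ _ (by linarith)) (by norm_num)
    have h1 : 1 / (2 * H * (p ^ (-(lam / 8))) ^ 2) ≤ p ^ (-(lam / 8)) := by
      rw [div_le_iff₀ (by positivity)]
      have h2 : (1 : ℝ) ≤ p ^ (-(lam / 8)) * (p ^ (lam / 2) * (p ^ (-(lam / 8))) ^ 2) := by
        rw [sq]
        simp only [hmul]
        apply Real.one_le_rpow hp
        linarith
      have h6 : p ^ (-(lam / 8)) * (p ^ (lam / 2) * (p ^ (-(lam / 8))) ^ 2) ≤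
          p ^ (-(lam / 8)) * (H * (p ^ (-(lam / 8))) ^ 2) := by
        apply mul_le_mul_of_nonneg_left _ (by positivity)
        exact mul_le_mul_of_nonneg_right hH1 (by positivity)
      nlinarith
    have t2 : 3 * p * (Real.pi * p ^ (-(lam / 8)) + 1 / (2 * H * (p ^ (-(lam / 8))) ^ 2)) ≤ 15 * p ^ (1 - lam / 16) := by
      have h7 : Real.pi * p ^ (-(lam / 8)) ≤ 4 * p ^ (-(lam / 8)) :=
        mul_le_mul_of_nonneg_right hpi.le (by positivity)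
      calc _ ≤ 3 * p * (5 * p ^ (-(lam / 8))) := by
            apply mul_le_mul_of_nonneg_left _ (by positivity)
            linarith
        _ = 15 * (p ^ (1 : ℝ) * p ^ (-(lam / 8))) := by rw [← hp1]; ring
        _ = 15 * p ^ (1 + -(lam / 8)) := by rw [hmul]
        _ ≤ _ := mul_le_mul_of_nonneg_left (hle _ _ (by linarith)) (by norm_num)
    have h8 : 0 < p ^ (1 - lam / 16) := by positivity
    linarith

/-- **The arcs for the integer parts are small almost surely.** -/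
theorem int_ae (d : ℕ) (hd : 1 ≤ d) (a : ℝ) (ha : 0 < a) : ∃ lam : ℝ, 0 < lam ∧ ∀ t : ℕ, 1 ≤ t →
    ∀ m : Fin d → ℝ, ∀ᵐ t' ∂(ms d), ∀ᶠ ν : ℕ in Filter.atTop,
      YY t d a (2 ^ ν) (((2 ^ ν : ℕ) : ℝ) ^ ((1 : ℝ) / 2 - ((d + 1 : ℕ) : ℝ))) (m + t') ≤
        ENNReal.ofReal (((2 ^ ν : ℕ) : ℝ) ^ (((d + 1 : ℕ) : ℝ) + t - lam)) := by
  obtain ⟨c0, m0, hc0, hweyl⟩ := weyl d a
  set lam : ℝ := 1 / (256 * (m0 + 1)) with hlam
  have hlam0 : 0 < lam := by positivity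
  have hm0 : (0 : ℝ) ≤ m0 := Nat.cast_nonneg m0
  have hlam1 : lam ≤ 1 / 256 := by
    rw [hlam]
    apply one_div_le_one_div_of_le (by norm_num)
    linarith
  have hlamm : lam * m0 ≤ 1 / 256 := by
    rw [hlam, one_div_mul_eq_div, div_le_div_iff₀ (by positivity) (by norm_num)]
    linarith
  refine ⟨lam / 64, by positivity, fun t ht m => ?_⟩
  obtain ⟨Cm, hCm, hmean⟩ := mean_box d a ha m
  set k := d + 1 with hk
  have hk2 : (2 : ℝ) ≤ k := by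
    have : 2 ≤ k := by omega
    exact_mod_cast this
  set g : ℝ := ((k.factorial : ℕ) : ℝ) * a with hg
  have hgp : 0 < g := by
    rw [hg]
    have : (0 : ℝ) < (k.factorial : ℝ) := by exact_mod_cast Nat.factorial_pos k
    positivity
  have hc0r : (1 : ℝ) ≤ c0 := by exact_mod_cast hc0
  have htend : Filter.Tendsto (fun ν : ℕ => ((2 ^ ν : ℕ) : ℝ)) Filter.atTop Filter.atTop :=
    tendsto_natCast_atTop_atTop.comp (tendsto_pow_atTop_atTop_of_one_lt (by norm_num : 1 < 2))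
  -- the parameters
  set pp : ℕ → ℝ := fun ν => ((2 ^ ν : ℕ) : ℝ) with hpp
  have hpp1 : ∀ ν, 1 ≤ pp ν := fun ν => by
    show (1 : ℝ) ≤ ((2 ^ ν : ℕ) : ℝ)
    exact_mod_cast Nat.one_le_two_pow
  set Qp : ℕ → ℝ := fun ν => c0 * ((pp ν) ^ lam) ^ m0 with hQp
  set R : ℕ → ℝ := fun ν => Qp ν / (3 * pp ν) ^ k with hR
  set H1 : ℕ → ℕ := fun ν => ⌈(pp ν) ^ (lam / 2)⌉₊ with hH1
  set H2 : ℕ → ℕ := fun ν => ⌈(pp ν) ^ ((1 : ℝ) / 8)⌉₊ with hH2
  set E : ℕ → Set ℝ := fun ν => EE g (Qp ν) (R ν) ⌊Qp ν * g * (H1 ν + 1) + R ν⌋ (H1 ν) with hE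
  have hQp1 : ∀ ν, 1 ≤ Qp ν := fun ν => by
    rw [hQp]
    exact one_le_mul_of_one_le_of_one_le hc0r (one_le_pow₀ (Real.one_le_rpow (hpp1 ν) hlam0.le))
  have hQple : ∀ ν, Qp ν ≤ c0 * (pp ν) ^ ((1 : ℝ) / 256) := fun ν => by
    have hp0 : 0 < pp ν := lt_of_lt_of_le one_pos (hpp1 ν)
    rw [hQp]
    simp only
    rw [← Real.rpow_natCast, ← Real.rpow_mul hp0.le]
    apply mul_le_mul_of_nonneg_left _ (by positivity)
    exact Real.rpow_le_rpow_of_exponent_le (hpp1 ν) hlamm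
  have hceil : ∀ x : ℝ, 1 ≤ x → x ≤ (⌈x⌉₊ : ℝ) ∧ (⌈x⌉₊ : ℝ) ≤ 2 * x ∧ 1 ≤ ⌈x⌉₊ := fun x hx => by
    refine ⟨Nat.le_ceil x, ?_, Nat.one_le_ceil_iff.2 (by linarith)⟩
    have := Nat.ceil_lt_add_one (by linarith : (0 : ℝ) ≤ x)
    linarith
  have hH1b : ∀ ν, (pp ν) ^ (lam / 2) ≤ (H1 ν : ℝ) ∧ (H1 ν : ℝ) ≤ 2 * (pp ν) ^ (lam / 2) ∧ 1 ≤ H1 ν := fun ν =>
    hceil _ (Real.one_le_rpow (hpp1 ν) (by positivity))
  have hH2b : ∀ ν, (pp ν) ^ ((1 : ℝ) / 8) ≤ (H2 ν : ℝ) ∧ (H2 ν : ℝ) ≤ 2 * (pp ν) ^ ((1 : ℝ) / 8) ∧ 1 ≤ H2 ν := fun ν =>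
    hceil _ (Real.one_le_rpow (hpp1 ν) (by norm_num))
  -- the first almost sure statement
  obtain ⟨C4, hC4, hn4⟩ := nu_le (lam / 64) (by positivity)
  have a1 : ∀ᵐ t' ∂(ms d), ∀ᶠ ν : ℕ in Filter.atTop, JJ d a (2 ^ ν) (m + t') ≤
      ENNReal.ofReal ((pp ν) ^ ((k : ℝ) + lam / 32 - lam / 128)) := by
    set C5 : ℝ := Real.exp 1 * (2 * Real.exp (4 * Real.pi * (k : ℝ) ^ 2)) with hC5
    have hC5p : 0 < C5 := by positivity
    have hJm : ∀ ν, Measurable fun t' : Fin d → ℝ => JJ d a (2 ^ ν) (m + t') := by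
      intro ν
      unfold JJ
      apply Measurable.lintegral_prod_right' (f := fun p : (Fin d → ℝ) × ℝ =>
        ENNReal.ofReal (‖∑ x ∈ box (d + 1) (2 ^ ν), ee (p.2 * (zz (d + 1) d a (m + p.1) x : ℝ))‖ ^ 2))
      apply ENNReal.measurable_ofReal.comp
      apply Measurable.pow_const
      apply Measurable.norm
      apply Finset.measurable_fun_sum
      intro x _
      apply Pool.Agent.U518.WS.continuous_ee.measurable.comp
      apply Measurable.mul measurable_snd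
      unfold zz
      have h1 : ∀ i : Fin (d + 1), Measurable fun p : (Fin d → ℝ) × ℝ => ⌊pf d a (m + p.1) (x i)⌋ := by
        intro i
        have h2 : Measurable fun p : (Fin d → ℝ) × ℝ => pf d a (m + p.1) (x i) :=
          ((pf_cont d a (x i)).comp (continuous_const.add continuous_fst)).measurable
        exact h2.floor
      exact (measurable_from_top (f := fun n : ℤ => (n : ℝ))).comp (Finset.measurable_fun_sum _ fun i _ => h1 i)
    refine bc (ms d) (fun ν t' => JJ d a (2 ^ ν) (m + t')) hJm (C5 * (Cm * C4)) _ (lam / 128) (by positivity)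
      (by positivity) 0 fun ν _ => ?_
    have hp0 : 0 < pp ν := lt_of_lt_of_le one_pos (hpp1 ν)
    calc ∫⁻ t', JJ d a (2 ^ ν) (m + t') ∂(ms d) ≤ ∫⁻ t', ENNReal.ofReal C5 *
          (∫⁻ β : ℝ, ENNReal.ofReal (Real.exp (-Real.pi * (1 * β) ^ 2) *
            ‖∑ x ∈ box k (2 ^ ν), ee (β * Psi k d a (m + t') x)‖ ^ 2)) ∂(ms d) :=
          lintegral_mono fun t' => JJ_le k d a (m + t') (box k (2 ^ ν))
      _ = ENNReal.ofReal C5 * ∫⁻ t', (∫⁻ β : ℝ, ENNReal.ofReal (Real.exp (-Real.pi * (1 * β) ^ 2) *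
            ‖∑ x ∈ box k (2 ^ ν), ee (β * Psi k d a (m + t') x)‖ ^ 2)) ∂(ms d) := by
          apply lintegral_const_mul'
          exact ENNReal.ofReal_ne_top
      _ ≤ ENNReal.ofReal C5 * ENNReal.ofReal (Cm * (ν + 1) ^ 2 * (pp ν) ^ k / 1) :=
          mul_le_mul_right (hmean ν 1 one_pos le_rfl) _
      _ ≤ ENNReal.ofReal (C5 * (Cm * C4) * (pp ν) ^ ((k : ℝ) + lam / 32 - 2 * (lam / 128))) := by
          rw [← ENNReal.ofReal_mul hC5p.le]
          apply ENNReal.ofReal_le_ofReal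
          have h1 := hn4 ν
          have e1 : (pp ν) ^ ((k : ℝ) + lam / 32 - 2 * (lam / 128)) = (pp ν) ^ (lam / 64) * (pp ν) ^ k := by
            rw [← Real.rpow_natCast (pp ν) k, ← Real.rpow_add hp0]
            congr 1
            ring
          rw [e1, div_one]
          calc C5 * (Cm * (ν + 1) ^ 2 * (pp ν) ^ k) = C5 * Cm * (pp ν) ^ k * (ν + 1) ^ 2 := by ring
            _ ≤ C5 * Cm * (pp ν) ^ k * (C4 * (pp ν) ^ (lam / 64)) := mul_le_mul_of_nonneg_left h1 (by positivity)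
            _ = _ := by ring
  -- the second almost sure statement
  have hevη : ∀ᶠ ν : ℕ in Filter.atTop, (pp ν) ^ (-(lam / 8)) ≤ 1 / 2 :=
    ((tendsto_rpow_neg_atTop (by positivity : (0 : ℝ) < lam / 8)).comp htend).eventually_le_const (by norm_num)
  have a2 : ∀ᵐ t' ∂(ms d), ∀ᶠ ν : ℕ in Filter.atTop,
      ENNReal.ofReal (Bd d a (m + t') (2 ^ ν) ((pp ν) ^ (-(lam / 8)))) ≤ ENNReal.ofReal ((pp ν) ^ (1 - lam / 16)) := by
    obtain ⟨ν0, hν0⟩ := Filter.eventually_atTop.1 hevη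
    refine bc (ms d) (fun ν t' => ENNReal.ofReal (Bd d a (m + t') (2 ^ ν) ((pp ν) ^ (-(lam / 8)))))
      (fun ν => ENNReal.measurable_ofReal.comp (Bd_meas d a m _ _)) 6 1 (lam / 16) (by positivity) (by norm_num) ν0
      fun ν hν => ?_
    have hp0 : 0 < pp ν := lt_of_lt_of_le one_pos (hpp1 ν)
    refine (Bd_avg d hd a m _ (by positivity) (hν0 ν hν) (2 ^ ν)).trans (ENNReal.ofReal_le_ofReal (le_of_eq ?_))
    show 6 * pp ν * (pp ν) ^ (-(lam / 8)) = 6 * (pp ν) ^ (1 - 2 * (lam / 16))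
    have e1 : (pp ν) ^ (1 - 2 * (lam / 16)) = pp ν * (pp ν) ^ (-(lam / 8)) := by
      nth_rw 2 [← Real.rpow_one (pp ν)]
      rw [← Real.rpow_add hp0]
      congr 1
      ring
    rw [e1]
    ring
  -- eventual conditions
  have hev1 : ∀ᶠ ν : ℕ in Filter.atTop, (pp ν) ^ (-(3 / 256 : ℝ)) ≤ 1 / (4 * (c0 * g)) :=
    ((tendsto_rpow_neg_atTop (by norm_num : (0 : ℝ) < 3 / 256)).comp htend).eventually_le_const (by positivity)
  have hev2 : ∀ᶠ ν : ℕ in Filter.atTop, (pp ν) ^ (-(1 / 4 : ℝ)) ≤ min (1 / (4 * (c0 : ℝ))) (g / (2 * (c0 : ℝ))) :=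
    ((tendsto_rpow_neg_atTop (by norm_num : (0 : ℝ) < 1 / 4)).comp htend).eventually_le_const
      (lt_min (by positivity) (by positivity))
  have hev3 : ∀ᶠ ν : ℕ in Filter.atTop, (pp ν) ^ (-(1 / 64 : ℝ)) ≤ 1 / 2 :=
    ((tendsto_rpow_neg_atTop (by norm_num : (0 : ℝ) < 1 / 64)).comp htend).eventually_le_const (by norm_num)
  have hRle : ∀ ν, R ν ≤ c0 * (pp ν) ^ (-(1 / 4 : ℝ)) * (pp ν) ^ ((1 : ℝ) / 2 - k) := by
    intro ν
    have hp0 : 0 < pp ν := lt_of_lt_of_le one_pos (hpp1 ν)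
    have h1 : R ν ≤ c0 * (pp ν) ^ ((1 : ℝ) / 256) / (pp ν) ^ k := by
      rw [hR]
      apply div_le_div₀ (by positivity) (hQple ν) (by positivity)
      exact pow_le_pow_left₀ hp0.le (by linarith) k
    refine h1.trans ?_
    rw [mul_assoc, ← Real.rpow_add hp0, mul_div_assoc, ← Real.rpow_natCast (pp ν) k, ← Real.rpow_sub hp0]
    apply mul_le_mul_of_nonneg_left _ (by positivity)
    exact Real.rpow_le_rpow_of_exponent_le (hpp1 ν) (by linarith)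
  have hR0 : ∀ ν, 0 < R ν := fun ν => by
    have hp0 : 0 < pp ν := lt_of_lt_of_le one_pos (hpp1 ν)
    have := hQp1 ν
    rw [hR]
    positivity
  -- the third almost sure statement
  obtain ⟨CV, hCV, hV⟩ := V1_le k c0 g hc0r hgp
  have a3 : ∀ᵐ t' ∂(ms d), ∀ᶠ ν : ℕ in Filter.atTop,
      XE d a (2 ^ ν) (E ν) ((pp ν) ^ (-(1 / 64 : ℝ))) (m + t') ≤ ENNReal.ofReal ((pp ν) ^ (1 - (k : ℝ) - 3 / 512)) := by
    obtain ⟨ν0, hν0⟩ := Filter.eventually_atTop.1 (hev2.and hev3)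
    have hev4 : ∀ᶠ ν : ℕ in Filter.atTop, (pp ν) ^ (-(1 / 32 : ℝ)) ≤ 1 / 2 :=
      ((tendsto_rpow_neg_atTop (by norm_num : (0 : ℝ) < 1 / 32)).comp htend).eventually_le_const (by norm_num)
    obtain ⟨ν1, hν1⟩ := Filter.eventually_atTop.1 hev4
    have hXm : ∀ ν, Measurable fun t' : Fin d → ℝ => XE d a (2 ^ ν) (E ν) ((pp ν) ^ (-(1 / 64 : ℝ))) (m + t') := by
      intro ν
      unfold XE
      apply Measurable.lintegral_prod_right' (f := fun p : (Fin d → ℝ) × ℝ => ENNReal.ofReal ‖SS d a (m + p.1) (2 ^ ν) p.2‖)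
      apply ENNReal.measurable_ofReal.comp
      have h1 : Measurable fun p : (Fin d → ℝ) × ℝ => (m + p.1, p.2) :=
        (measurable_const.add measurable_fst).prodMk measurable_snd
      exact ((SS_meas d a _).comp h1).norm
    refine bc (ms d) (fun ν t' => XE d a (2 ^ ν) (E ν) ((pp ν) ^ (-(1 / 64 : ℝ))) (m + t')) hXm (245 * CV) _
      (3 / 512) (by norm_num) (by positivity) (max ν0 ν1) fun ν hν => ?_
    have hp0 : 0 < pp ν := lt_of_lt_of_le one_pos (hpp1 ν)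
    obtain ⟨h2, h3⟩ := hν0 ν ((le_max_left _ _).trans hν)
    have h4 := hν1 ν ((le_max_right _ _).trans hν)
    have hR1 : R ν ≤ 1 := by
      refine (hRle ν).trans ?_
      have h5 : c0 * (pp ν) ^ (-(1 / 4 : ℝ)) ≤ 1 := by
        calc c0 * (pp ν) ^ (-(1 / 4 : ℝ)) ≤ c0 * (1 / (4 * c0)) :=
              mul_le_mul_of_nonneg_left (h2.trans (min_le_left _ _)) (by positivity)
          _ = 1 / 4 := by field_simp
          _ ≤ 1 := by norm_num
      have h6 : (pp ν) ^ ((1 : ℝ) / 2 - k) ≤ 1 := Real.rpow_le_one_of_one_le_of_nonpos (hpp1 ν) (by linarith)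
      exact mul_le_one₀ h5 (by positivity) h6
    obtain ⟨hHa, hHb, hHc⟩ := hH1b ν
    obtain ⟨hHa2, hHb2, hHc2⟩ := hH2b ν
    have hmn := XE_mean d hd a m (2 ^ ν) Nat.one_le_two_pow (E ν) (EE_meas _ _ _ _ _) ((pp ν) ^ (-(1 / 64 : ℝ)))
      ((pp ν) ^ (-(1 / 32 : ℝ))) ((pp ν) ^ ((3 : ℝ) / 4)) (H2 ν) hHc2 (by positivity) h3 (by positivity) h4 (by positivity)
    refine hmn.trans ?_
    have hX1 := X1_le (pp ν) (hpp1 ν) (H2 ν) hHa2 hHb2
    have hA0 : 0 ≤ Qp ν * g * (H1 ν + 1) + R ν := by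
      have := hQp1 ν
      have := hR0 ν
      positivity
    have hvol : volume (E ν) ≤ ENNReal.ofReal (CV * (pp ν) ^ ((5 : ℝ) / 256 - k)) := by
      calc volume (E ν) ≤ ENNReal.ofReal ((H1 ν : ℝ) ^ 2) * volume (MM g (Qp ν) (R ν) ⌊Qp ν * g * (H1 ν + 1) + R ν⌋) :=
            EE_vol _ _ _ _ _
        _ ≤ ENNReal.ofReal ((H1 ν : ℝ) ^ 2) * ENNReal.ofReal (Qp ν * (2 * (Qp ν * g * (H1 ν + 1) + R ν) + 1) * (2 * R ν / g)) :=
            mul_le_mul_right (MM_vol g (Qp ν) (R ν) _ hgp (hR0 ν).le (by linarith [hQp1 ν]) hA0) _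
        _ ≤ _ := by
            rw [← ENNReal.ofReal_mul (by positivity)]
            apply ENNReal.ofReal_le_ofReal
            apply hV (pp ν) (hpp1 ν) (Qp ν) (R ν) (H1 ν) (by linarith [hQp1 ν]) (hQple ν) rfl hR1 (by exact_mod_cast hHc)
            refine hHb.trans ?_
            apply mul_le_mul_of_nonneg_left _ (by norm_num)
            exact Real.rpow_le_rpow_of_exponent_le (hpp1 ν) (by linarith)
    calc _ ≤ ENNReal.ofReal (245 * (pp ν) ^ (1 - 1 / 32 : ℝ)) * ENNReal.ofReal (CV * (pp ν) ^ ((5 : ℝ) / 256 - k)) :=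
          mul_le_mul' (ENNReal.ofReal_le_ofReal hX1) hvol
      _ = _ := by
          rw [← ENNReal.ofReal_mul (by positivity)]
          congr 1
          calc 245 * (pp ν) ^ (1 - 1 / 32 : ℝ) * (CV * (pp ν) ^ ((5 : ℝ) / 256 - k)) =
                245 * CV * ((pp ν) ^ (1 - 1 / 32 : ℝ) * (pp ν) ^ ((5 : ℝ) / 256 - k)) := by ring
            _ = _ := by
                rw [← Real.rpow_add hp0]
                congr 2
                ring
  -- the end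
  have hev5 : ∀ᶠ ν : ℕ in Filter.atTop, (pp ν) ^ (-(lam / 64)) ≤ 1 / (2 * (30 * 3 ^ (t - 1))) :=
    ((tendsto_rpow_neg_atTop (by positivity : (0 : ℝ) < lam / 64)).comp htend).eventually_le_const (by positivity)
  have hev6 : ∀ᶠ ν : ℕ in Filter.atTop, (pp ν) ^ (-(1 / 512 : ℝ)) ≤ 1 / (2 * (((3 * 8 ^ k) ^ k) ^ 2 * 3 ^ (t - 1))) :=
    ((tendsto_rpow_neg_atTop (by norm_num : (0 : ℝ) < 1 / 512)).comp htend).eventually_le_const (by positivity)
  filter_upwards [a1, a2, a3] with t' h1 h2 h3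
  filter_upwards [h1, h2, h3, hev1, hev2, hev3, hev5, hev6] with ν h1 h2 h3 he1 he2 he3 he5 he6
  have hp0 : 0 < pp ν := lt_of_lt_of_le one_pos (hpp1 ν)
  obtain ⟨hHa, hHb, hHc⟩ := hH1b ν
  have hB : Bd d a (m + t') (2 ^ ν) ((pp ν) ^ (-(lam / 8))) ≤ (pp ν) ^ (1 - lam / 16) :=
    (ENNReal.ofReal_le_ofReal_iff (by positivity)).1 h2
  obtain ⟨hA1a, hA1b⟩ := A1_le lam (pp ν) (H1 ν) _ hlam0 hlam1 (hpp1 ν) hHa hHb hB
  set T : ℝ := (pp ν) ^ ((1 : ℝ) / 2 - (k : ℝ)) with hT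
  have hT0 : 0 < T := by positivity
  have hw0 : 0 < (pp ν) ^ (-(1 / 64 : ℝ)) := by positivity
  have hTw : T ≤ (pp ν) ^ (-(1 / 64 : ℝ)) := Real.rpow_le_rpow_of_exponent_le (hpp1 ν) (by linarith)
  have hT1 : T ≤ 1 := Real.rpow_le_one_of_one_le_of_nonpos (hpp1 ν) (by linarith)
  have hRg : R ν < T * g := by
    have h5 : c0 * (pp ν) ^ (-(1 / 4 : ℝ)) ≤ g / 2 := by
      calc c0 * (pp ν) ^ (-(1 / 4 : ℝ)) ≤ c0 * (g / (2 * c0)) :=
            mul_le_mul_of_nonneg_left (he2.trans (min_le_right _ _)) (by positivity)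
        _ = g / 2 := by field_simp
    have h6 := mul_le_mul_of_nonneg_right h5 hT0.le
    have h7 := hRle ν
    have h8 : 0 < T * g := by positivity
    have h9 : R ν ≤ g / 2 * T := h7.trans h6
    linarith
  have hR14 : R ν ≤ 1 / 4 := by
    refine (hRle ν).trans ?_
    have h5 : c0 * (pp ν) ^ (-(1 / 4 : ℝ)) ≤ 1 / 4 := by
      calc c0 * (pp ν) ^ (-(1 / 4 : ℝ)) ≤ c0 * (1 / (4 * c0)) :=
            mul_le_mul_of_nonneg_left (he2.trans (min_le_left _ _)) (by positivity)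
        _ = 1 / 4 := by field_simp
    calc c0 * (pp ν) ^ (-(1 / 4 : ℝ)) * (pp ν) ^ ((1 : ℝ) / 2 - k) ≤ 1 / 4 * 1 :=
          mul_le_mul h5 hT1 (by positivity) (by norm_num)
      _ = _ := by norm_num
  have hQg : Qp ν * g * (pp ν) ^ (-(1 / 64 : ℝ)) ≤ 1 / 4 := by
    calc Qp ν * g * (pp ν) ^ (-(1 / 64 : ℝ)) ≤ (c0 * (pp ν) ^ ((1 : ℝ) / 256)) * g * (pp ν) ^ (-(1 / 64 : ℝ)) := by
          apply mul_le_mul_of_nonneg_right _ hw0.le
          exact mul_le_mul_of_nonneg_right (hQple ν) hgp.le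
      _ = c0 * g * ((pp ν) ^ ((1 : ℝ) / 256) * (pp ν) ^ (-(1 / 64 : ℝ))) := by ring
      _ = c0 * g * (pp ν) ^ (-(3 / 256 : ℝ)) := by
          rw [← Real.rpow_add hp0]
          norm_num
      _ ≤ c0 * g * (1 / (4 * (c0 * g))) := mul_le_mul_of_nonneg_left he1 (by positivity)
      _ = 1 / 4 := by field_simp
  have hdet := YY_le t d ht a (2 ^ ν) T ((pp ν) ^ (-(1 / 64 : ℝ))) (30 * (pp ν) ^ (1 - lam / 16)) (m + t') (E ν)
    (EE_meas _ _ _ _ _) (by positivity) (fun α hα1 hα2 hα3 =>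
      SS_minor d a ha (m + t') (2 ^ ν) ((pp ν) ^ lam) (Qp ν) (R ν) ((pp ν) ^ (-(1 / 64 : ℝ))) T
        ((pp ν) ^ (-(lam / 8))) (30 * (pp ν) ^ (1 - lam / 16)) (H1 ν) (by positivity) (by linarith [hQp1 ν]) (hR0 ν)
        hHc (by positivity)
        (fun β h => hweyl (2 ^ ν) ((pp ν) ^ lam) β (m + t') Nat.one_le_two_pow (Real.one_le_rpow (hpp1 ν) hlam0.le) h)
        (by
          have : Qp ν * g * (pp ν) ^ (-(1 / 64 : ℝ)) + R ν ≤ 1 / 2 := by linarith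
          exact lt_of_le_of_lt this (by norm_num))
        hRg (lt_of_lt_of_le hRg (mul_le_mul_of_nonneg_right hTw hgp.le)) hw0 he3 hA1a hA1b α hα1 hα2 hα3)
  refine hdet.trans ?_
  calc _ ≤ ENNReal.ofReal (30 * (pp ν) ^ (1 - lam / 16) * (3 * pp ν) ^ (t - 1)) *
        ENNReal.ofReal ((pp ν) ^ ((k : ℝ) + lam / 32 - lam / 128)) +
      ENNReal.ofReal (((3 * 8 ^ k * pp ν) ^ k) ^ 2 * (3 * pp ν) ^ (t - 1)) *
        ENNReal.ofReal ((pp ν) ^ (1 - (k : ℝ) - 3 / 512)) := by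
        apply add_le_add
        · exact mul_le_mul_right h1 _
        · exact mul_le_mul_right h3 _
    _ ≤ _ := by
        rw [← ENNReal.ofReal_mul (by positivity), ← ENNReal.ofReal_mul (by positivity),
          ← ENNReal.ofReal_add (by positivity) (by positivity)]
        apply ENNReal.ofReal_le_ofReal
        have ht1 : (pp ν) ^ (t - 1) = (pp ν) ^ ((t : ℝ) - 1) := by
          rw [← Real.rpow_natCast, Nat.cast_sub ht, Nat.cast_one]
        have e1 : 30 * (pp ν) ^ (1 - lam / 16) * (3 * pp ν) ^ (t - 1) * (pp ν) ^ ((k : ℝ) + lam / 32 - lam / 128) ≤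
            (pp ν) ^ ((k : ℝ) + t - lam / 64) / 2 := by
          calc 30 * (pp ν) ^ (1 - lam / 16) * (3 * pp ν) ^ (t - 1) * (pp ν) ^ ((k : ℝ) + lam / 32 - lam / 128) =
                30 * 3 ^ (t - 1) * ((pp ν) ^ (1 - lam / 16) * (pp ν) ^ ((t : ℝ) - 1) * (pp ν) ^ ((k : ℝ) + lam / 32 - lam / 128)) := by
                rw [mul_pow, ht1]; ring
            _ = 30 * 3 ^ (t - 1) * (pp ν) ^ ((k : ℝ) + t - 5 * lam / 128) := by
                rw [← Real.rpow_add hp0, ← Real.rpow_add hp0]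
                congr 2
                ring
            _ ≤ 30 * 3 ^ (t - 1) * (pp ν) ^ ((k : ℝ) + t - lam / 64 + -(lam / 64)) := by
                apply mul_le_mul_of_nonneg_left _ (by positivity)
                exact Real.rpow_le_rpow_of_exponent_le (hpp1 ν) (by linarith)
            _ = 30 * 3 ^ (t - 1) * (pp ν) ^ (-(lam / 64)) * (pp ν) ^ ((k : ℝ) + t - lam / 64) := by
                rw [Real.rpow_add hp0]; ring
            _ ≤ 30 * 3 ^ (t - 1) * (1 / (2 * (30 * 3 ^ (t - 1)))) * (pp ν) ^ ((k : ℝ) + t - lam / 64) := by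
                apply mul_le_mul_of_nonneg_right _ (by positivity)
                exact mul_le_mul_of_nonneg_left he5 (by positivity)
            _ = _ := by field_simp
        have e2 : ((3 * 8 ^ k * pp ν) ^ k) ^ 2 * (3 * pp ν) ^ (t - 1) * (pp ν) ^ (1 - (k : ℝ) - 3 / 512) ≤
            (pp ν) ^ ((k : ℝ) + t - lam / 64) / 2 := by
          have h2k : ((pp ν) ^ k) ^ 2 = (pp ν) ^ (2 * (k : ℝ)) := by
            rw [← pow_mul, ← Real.rpow_natCast]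
            congr 1
            push_cast
            ring
          calc ((3 * 8 ^ k * pp ν) ^ k) ^ 2 * (3 * pp ν) ^ (t - 1) * (pp ν) ^ (1 - (k : ℝ) - 3 / 512) =
                ((3 * 8 ^ k) ^ k) ^ 2 * 3 ^ (t - 1) * ((pp ν) ^ (2 * (k : ℝ)) * (pp ν) ^ ((t : ℝ) - 1) *
                  (pp ν) ^ (1 - (k : ℝ) - 3 / 512)) := by
                rw [mul_pow _ (pp ν), mul_pow _ (pp ν), mul_pow _ ((pp ν) ^ k), ht1, h2k]; ring
            _ = ((3 * 8 ^ k) ^ k) ^ 2 * 3 ^ (t - 1) * (pp ν) ^ ((k : ℝ) + t - 3 / 512) := by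
                rw [← Real.rpow_add hp0, ← Real.rpow_add hp0]
                congr 2
                ring
            _ ≤ ((3 * 8 ^ k) ^ k) ^ 2 * 3 ^ (t - 1) * (pp ν) ^ ((k : ℝ) + t - lam / 64 + -(1 / 512)) := by
                apply mul_le_mul_of_nonneg_left _ (by positivity)
                exact Real.rpow_le_rpow_of_exponent_le (hpp1 ν) (by linarith)
            _ = ((3 * 8 ^ k) ^ k) ^ 2 * 3 ^ (t - 1) * (pp ν) ^ (-(1 / 512 : ℝ)) * (pp ν) ^ ((k : ℝ) + t - lam / 64) := by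
                rw [Real.rpow_add hp0]; ring
            _ ≤ ((3 * 8 ^ k) ^ k) ^ 2 * 3 ^ (t - 1) * (1 / (2 * (((3 * 8 ^ k) ^ k) ^ 2 * 3 ^ (t - 1)))) *
                  (pp ν) ^ ((k : ℝ) + t - lam / 64) := by
                apply mul_le_mul_of_nonneg_right _ (by positivity)
                exact mul_le_mul_of_nonneg_left he6 (by positivity)
            _ = _ := by field_simp
        linarith

end Pool.Agent.U914.WP
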