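import Mathlib
import Pool.Agent.U914.WP.IN

/-! Almost all polynomials in Waring's problem: the arcs for the integer parts, both bounds at each scale. -/

set_option autoImplicit false

open Finset MeasureTheory
open Pool.Agent.U518.WS (ee ms)

namespace Pool.Agent.U914.WP

/-- **The arcs for the integer parts.** -/
theorem arcs_ae (d : ℕ) (hd : 1 ≤ d) (a : ℝ) (ha : 0 < a) : ∃ lam : ℝ, 0 < lam ∧ lam ≤ 1 / 256 ∧
    ∃ E : ℕ → Set ℝ, (∀ ν, MeasurableSet (E ν)) ∧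
    ∀ m : Fin d → ℝ, ∀ᵐ t' ∂(ms d), ∀ᶠ ν : ℕ in Filter.atTop,
      (∀ α : ℝ, ((2 ^ ν : ℕ) : ℝ) ^ ((1 : ℝ) / 8 - ((d + 1 : ℕ) : ℝ)) ≤ |α| → |α| ≤ 1 / 2 →
        (((2 ^ ν : ℕ) : ℝ) ^ (-(1 / 64 : ℝ)) < |α| → α ∉ E ν) →
        ‖SS d a (m + t') (2 ^ ν) α‖ ≤ 30 * ((2 ^ ν : ℕ) : ℝ) ^ (1 - lam / 16)) ∧
      XE d a (2 ^ ν) (E ν) (((2 ^ ν : ℕ) : ℝ) ^ (-(1 / 64 : ℝ))) (m + t') ≤
        ENNReal.ofReal (((2 ^ ν : ℕ) : ℝ) ^ (1 - ((d + 1 : ℕ) : ℝ) - 3 / 512)) := by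
  obtain ⟨c0, m0, hc0, hweyl⟩ := weyl d a
  set lam : ℝ := 1 / (256 * (m0 + 1)) with hlam
  have hlam0 : 0 < lam := by positivity
  have hm0 : (0 : ℝ) ≤ m0 := Nat.cast_nonneg m0
  have hlam1 : lam ≤ 1 / 256 := by
    rw [hlam]
    apply one_div_le_one_div_of_le (by norm_num)
    linarith
  have hlamm : lam * m0 ≤ 1 / 256 := by
    rw [hlam, one_div_mul_eq_div, div_le_div_iff₀ (by positivity) (by norm_num)]
    linarith
  set k := d + 1 with hk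
  have hk2 : (2 : ℝ) ≤ k := by
    have : 2 ≤ k := by omega
    exact_mod_cast this
  set g : ℝ := ((k.factorial : ℕ) : ℝ) * a with hg
  have hgp : 0 < g := by
    rw [hg]
    have : (0 : ℝ) < (k.factorial : ℝ) := by exact_mod_cast Nat.factorial_pos k
    positivity
  have hc0r : (1 : ℝ) ≤ c0 := by exact_mod_cast hc0
  have htend : Filter.Tendsto (fun ν : ℕ => ((2 ^ ν : ℕ) : ℝ)) Filter.atTop Filter.atTop :=
    tendsto_natCast_atTop_atTop.comp (tendsto_pow_atTop_atTop_of_one_lt (by norm_num : 1 < 2))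
  -- the parameters
  set pp : ℕ → ℝ := fun ν => ((2 ^ ν : ℕ) : ℝ) with hpp
  have hpp1 : ∀ ν, 1 ≤ pp ν := fun ν => by
    show (1 : ℝ) ≤ ((2 ^ ν : ℕ) : ℝ)
    exact_mod_cast Nat.one_le_two_pow
  set Qp : ℕ → ℝ := fun ν => c0 * ((pp ν) ^ lam) ^ m0 with hQp
  set R : ℕ → ℝ := fun ν => Qp ν / (3 * pp ν) ^ k with hR
  set H1 : ℕ → ℕ := fun ν => ⌈(pp ν) ^ (lam / 2)⌉₊ with hH1
  set H2 : ℕ → ℕ := fun ν => ⌈(pp ν) ^ ((1 : ℝ) / 8)⌉₊ with hH2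
  set E : ℕ → Set ℝ := fun ν => EE g (Qp ν) (R ν) ⌊Qp ν * g * (H1 ν + 1) + R ν⌋ (H1 ν) with hE
  have hQp1 : ∀ ν, 1 ≤ Qp ν := fun ν => by
    rw [hQp]
    exact one_le_mul_of_one_le_of_one_le hc0r (one_le_pow₀ (Real.one_le_rpow (hpp1 ν) hlam0.le))
  have hQple : ∀ ν, Qp ν ≤ c0 * (pp ν) ^ ((1 : ℝ) / 256) := fun ν => by
    have hp0 : 0 < pp ν := lt_of_lt_of_le one_pos (hpp1 ν)
    rw [hQp]
    simp only
    rw [← Real.rpow_natCast, ← Real.rpow_mul hp0.le]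
    apply mul_le_mul_of_nonneg_left _ (by positivity)
    exact Real.rpow_le_rpow_of_exponent_le (hpp1 ν) hlamm
  have hceil : ∀ x : ℝ, 1 ≤ x → x ≤ (⌈x⌉₊ : ℝ) ∧ (⌈x⌉₊ : ℝ) ≤ 2 * x ∧ 1 ≤ ⌈x⌉₊ := fun x hx => by
    refine ⟨Nat.le_ceil x, ?_, Nat.one_le_ceil_iff.2 (by linarith)⟩
    have := Nat.ceil_lt_add_one (by linarith : (0 : ℝ) ≤ x)
    linarith
  have hH1b : ∀ ν, (pp ν) ^ (lam / 2) ≤ (H1 ν : ℝ) ∧ (H1 ν : ℝ) ≤ 2 * (pp ν) ^ (lam / 2) ∧ 1 ≤ H1 ν := fun ν =>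
    hceil _ (Real.one_le_rpow (hpp1 ν) (by positivity))
  have hH2b : ∀ ν, (pp ν) ^ ((1 : ℝ) / 8) ≤ (H2 ν : ℝ) ∧ (H2 ν : ℝ) ≤ 2 * (pp ν) ^ ((1 : ℝ) / 8) ∧ 1 ≤ H2 ν := fun ν =>
    hceil _ (Real.one_le_rpow (hpp1 ν) (by norm_num))
  refine ⟨lam, hlam0, hlam1, E, fun ν => EE_meas _ _ _ _ _, fun m => ?_⟩
  -- the second almost sure statement
  have hevη : ∀ᶠ ν : ℕ in Filter.atTop, (pp ν) ^ (-(lam / 8)) ≤ 1 / 2 :=
    ((tendsto_rpow_neg_atTop (by positivity : (0 : ℝ) < lam / 8)).comp htend).eventually_le_const (by norm_num)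
  have a2 : ∀ᵐ t' ∂(ms d), ∀ᶠ ν : ℕ in Filter.atTop,
      ENNReal.ofReal (Bd d a (m + t') (2 ^ ν) ((pp ν) ^ (-(lam / 8)))) ≤ ENNReal.ofReal ((pp ν) ^ (1 - lam / 16)) := by
    obtain ⟨ν0, hν0⟩ := Filter.eventually_atTop.1 hevη
    refine bc (ms d) (fun ν t' => ENNReal.ofReal (Bd d a (m + t') (2 ^ ν) ((pp ν) ^ (-(lam / 8)))))
      (fun ν => ENNReal.measurable_ofReal.comp (Bd_meas d a m _ _)) 6 1 (lam / 16) (by positivity) (by norm_num) ν0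
      fun ν hν => ?_
    have hp0 : 0 < pp ν := lt_of_lt_of_le one_pos (hpp1 ν)
    refine (Bd_avg d hd a m _ (by positivity) (hν0 ν hν) (2 ^ ν)).trans (ENNReal.ofReal_le_ofReal (le_of_eq ?_))
    show 6 * pp ν * (pp ν) ^ (-(lam / 8)) = 6 * (pp ν) ^ (1 - 2 * (lam / 16))
    have e1 : (pp ν) ^ (1 - 2 * (lam / 16)) = pp ν * (pp ν) ^ (-(lam / 8)) := by
      nth_rw 2 [← Real.rpow_one (pp ν)]
      rw [← Real.rpow_add hp0]
      congr 1
      ring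
    rw [e1]
    ring
  -- eventual conditions
  have hev1 : ∀ᶠ ν : ℕ in Filter.atTop, (pp ν) ^ (-(3 / 256 : ℝ)) ≤ 1 / (4 * (c0 * g)) :=
    ((tendsto_rpow_neg_atTop (by norm_num : (0 : ℝ) < 3 / 256)).comp htend).eventually_le_const (by positivity)
  have hev2 : ∀ᶠ ν : ℕ in Filter.atTop, (pp ν) ^ (-(1 / 16 : ℝ)) ≤ min (1 / (4 * (c0 : ℝ))) (g / (2 * (c0 : ℝ))) :=
    ((tendsto_rpow_neg_atTop (by norm_num : (0 : ℝ) < 1 / 16)).comp htend).eventually_le_const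
      (lt_min (by positivity) (by positivity))
  have hev3 : ∀ᶠ ν : ℕ in Filter.atTop, (pp ν) ^ (-(1 / 64 : ℝ)) ≤ 1 / 2 :=
    ((tendsto_rpow_neg_atTop (by norm_num : (0 : ℝ) < 1 / 64)).comp htend).eventually_le_const (by norm_num)
  have hRle : ∀ ν, R ν ≤ c0 * (pp ν) ^ (-(1 / 16 : ℝ)) * (pp ν) ^ ((1 : ℝ) / 8 - k) := by
    intro ν
    have hp0 : 0 < pp ν := lt_of_lt_of_le one_pos (hpp1 ν)
    have h1 : R ν ≤ c0 * (pp ν) ^ ((1 : ℝ) / 256) / (pp ν) ^ k := by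
      rw [hR]
      apply div_le_div₀ (by positivity) (hQple ν) (by positivity)
      exact pow_le_pow_left₀ hp0.le (by linarith) k
    refine h1.trans ?_
    rw [mul_assoc, ← Real.rpow_add hp0, mul_div_assoc, ← Real.rpow_natCast (pp ν) k, ← Real.rpow_sub hp0]
    apply mul_le_mul_of_nonneg_left _ (by positivity)
    exact Real.rpow_le_rpow_of_exponent_le (hpp1 ν) (by linarith)
  have hR0 : ∀ ν, 0 < R ν := fun ν => by
    have hp0 : 0 < pp ν := lt_of_lt_of_le one_pos (hpp1 ν)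
    have := hQp1 ν
    rw [hR]
    positivity
  -- the third almost sure statement
  obtain ⟨CV, hCV, hV⟩ := V1_le k c0 g hc0r hgp
  have a3 : ∀ᵐ t' ∂(ms d), ∀ᶠ ν : ℕ in Filter.atTop,
      XE d a (2 ^ ν) (E ν) ((pp ν) ^ (-(1 / 64 : ℝ))) (m + t') ≤ ENNReal.ofReal ((pp ν) ^ (1 - (k : ℝ) - 3 / 512)) := by
    obtain ⟨ν0, hν0⟩ := Filter.eventually_atTop.1 (hev2.and hev3)
    have hev4 : ∀ᶠ ν : ℕ in Filter.atTop, (pp ν) ^ (-(1 / 32 : ℝ)) ≤ 1 / 2 :=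
      ((tendsto_rpow_neg_atTop (by norm_num : (0 : ℝ) < 1 / 32)).comp htend).eventually_le_const (by norm_num)
    obtain ⟨ν1, hν1⟩ := Filter.eventually_atTop.1 hev4
    have hXm : ∀ ν, Measurable fun t' : Fin d → ℝ => XE d a (2 ^ ν) (E ν) ((pp ν) ^ (-(1 / 64 : ℝ))) (m + t') := by
      intro ν
      unfold XE
      apply Measurable.lintegral_prod_right' (f := fun p : (Fin d → ℝ) × ℝ => ENNReal.ofReal ‖SS d a (m + p.1) (2 ^ ν) p.2‖)
      apply ENNReal.measurable_ofReal.comp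
      have h1 : Measurable fun p : (Fin d → ℝ) × ℝ => (m + p.1, p.2) :=
        (measurable_const.add measurable_fst).prodMk measurable_snd
      exact ((SS_meas d a _).comp h1).norm
    refine bc (ms d) (fun ν t' => XE d a (2 ^ ν) (E ν) ((pp ν) ^ (-(1 / 64 : ℝ))) (m + t')) hXm (245 * CV) _
      (3 / 512) (by norm_num) (by positivity) (max ν0 ν1) fun ν hν => ?_
    have hp0 : 0 < pp ν := lt_of_lt_of_le one_pos (hpp1 ν)
    obtain ⟨h2, h3⟩ := hν0 ν ((le_max_left _ _).trans hν)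
    have h4 := hν1 ν ((le_max_right _ _).trans hν)
    have hR1 : R ν ≤ 1 := by
      refine (hRle ν).trans ?_
      have h5 : c0 * (pp ν) ^ (-(1 / 16 : ℝ)) ≤ 1 := by
        calc c0 * (pp ν) ^ (-(1 / 16 : ℝ)) ≤ c0 * (1 / (4 * c0)) :=
              mul_le_mul_of_nonneg_left (h2.trans (min_le_left _ _)) (by positivity)
          _ = 1 / 4 := by field_simp
          _ ≤ 1 := by norm_num
      have h6 : (pp ν) ^ ((1 : ℝ) / 8 - k) ≤ 1 := Real.rpow_le_one_of_one_le_of_nonpos (hpp1 ν) (by linarith)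
      exact mul_le_one₀ h5 (by positivity) h6
    obtain ⟨hHa, hHb, hHc⟩ := hH1b ν
    obtain ⟨hHa2, hHb2, hHc2⟩ := hH2b ν
    have hmn := XE_mean d hd a m (2 ^ ν) Nat.one_le_two_pow (E ν) (EE_meas _ _ _ _ _) ((pp ν) ^ (-(1 / 64 : ℝ)))
      ((pp ν) ^ (-(1 / 32 : ℝ))) ((pp ν) ^ ((3 : ℝ) / 4)) (H2 ν) hHc2 (by positivity) h3 (by positivity) h4 (by positivity)
    refine hmn.trans ?_
    have hX1 := X1_le (pp ν) (hpp1 ν) (H2 ν) hHa2 hHb2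
    have hA0 : 0 ≤ Qp ν * g * (H1 ν + 1) + R ν := by
      have := hQp1 ν
      have := hR0 ν
      positivity
    have hvol : volume (E ν) ≤ ENNReal.ofReal (CV * (pp ν) ^ ((5 : ℝ) / 256 - k)) := by
      calc volume (E ν) ≤ ENNReal.ofReal ((H1 ν : ℝ) ^ 2) * volume (MM g (Qp ν) (R ν) ⌊Qp ν * g * (H1 ν + 1) + R ν⌋) :=
            EE_vol _ _ _ _ _
        _ ≤ ENNReal.ofReal ((H1 ν : ℝ) ^ 2) * ENNReal.ofReal (Qp ν * (2 * (Qp ν * g * (H1 ν + 1) + R ν) + 1) * (2 * R ν / g)) :=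
            mul_le_mul_right (MM_vol g (Qp ν) (R ν) _ hgp (hR0 ν).le (by linarith [hQp1 ν]) hA0) _
        _ ≤ _ := by
            rw [← ENNReal.ofReal_mul (by positivity)]
            apply ENNReal.ofReal_le_ofReal
            apply hV (pp ν) (hpp1 ν) (Qp ν) (R ν) (H1 ν) (by linarith [hQp1 ν]) (hQple ν) rfl hR1 (by exact_mod_cast hHc)
            refine hHb.trans ?_
            apply mul_le_mul_of_nonneg_left _ (by norm_num)
            exact Real.rpow_le_rpow_of_exponent_le (hpp1 ν) (by linarith)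
    calc _ ≤ ENNReal.ofReal (245 * (pp ν) ^ (1 - 1 / 32 : ℝ)) * ENNReal.ofReal (CV * (pp ν) ^ ((5 : ℝ) / 256 - k)) :=
          mul_le_mul' (ENNReal.ofReal_le_ofReal hX1) hvol
      _ = _ := by
          rw [← ENNReal.ofReal_mul (by positivity)]
          congr 1
          calc 245 * (pp ν) ^ (1 - 1 / 32 : ℝ) * (CV * (pp ν) ^ ((5 : ℝ) / 256 - k)) =
                245 * CV * ((pp ν) ^ (1 - 1 / 32 : ℝ) * (pp ν) ^ ((5 : ℝ) / 256 - k)) := by ring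
            _ = _ := by
                rw [← Real.rpow_add hp0]
                congr 2
                ring
  -- the end
  filter_upwards [a2, a3] with t' h2 h3
  filter_upwards [h2, h3, hev1, hev2, hev3] with ν h2 h3 he1 he2 he3
  have hp0 : 0 < pp ν := lt_of_lt_of_le one_pos (hpp1 ν)
  obtain ⟨hHa, hHb, hHc⟩ := hH1b ν
  have hB : Bd d a (m + t') (2 ^ ν) ((pp ν) ^ (-(lam / 8))) ≤ (pp ν) ^ (1 - lam / 16) :=
    (ENNReal.ofReal_le_ofReal_iff (by positivity)).1 h2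
  obtain ⟨hA1a, hA1b⟩ := A1_le lam (pp ν) (H1 ν) _ hlam0 hlam1 (hpp1 ν) hHa hHb hB
  set T : ℝ := (pp ν) ^ ((1 : ℝ) / 8 - (k : ℝ)) with hT
  have hT0 : 0 < T := by positivity
  have hw0 : 0 < (pp ν) ^ (-(1 / 64 : ℝ)) := by positivity
  have hTw : T ≤ (pp ν) ^ (-(1 / 64 : ℝ)) := Real.rpow_le_rpow_of_exponent_le (hpp1 ν) (by linarith)
  have hT1 : T ≤ 1 := Real.rpow_le_one_of_one_le_of_nonpos (hpp1 ν) (by linarith)
  have hRg : R ν < T * g := by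
    have h5 : c0 * (pp ν) ^ (-(1 / 16 : ℝ)) ≤ g / 2 := by
      calc c0 * (pp ν) ^ (-(1 / 16 : ℝ)) ≤ c0 * (g / (2 * c0)) :=
            mul_le_mul_of_nonneg_left (he2.trans (min_le_right _ _)) (by positivity)
        _ = g / 2 := by field_simp
    have h6 := mul_le_mul_of_nonneg_right h5 hT0.le
    have h7 := hRle ν
    have h8 : 0 < T * g := by positivity
    have h9 : R ν ≤ g / 2 * T := h7.trans h6
    linarith
  have hR14 : R ν ≤ 1 / 4 := by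
    refine (hRle ν).trans ?_
    have h5 : c0 * (pp ν) ^ (-(1 / 16 : ℝ)) ≤ 1 / 4 := by
      calc c0 * (pp ν) ^ (-(1 / 16 : ℝ)) ≤ c0 * (1 / (4 * c0)) :=
            mul_le_mul_of_nonneg_left (he2.trans (min_le_left _ _)) (by positivity)
        _ = 1 / 4 := by field_simp
    calc c0 * (pp ν) ^ (-(1 / 16 : ℝ)) * (pp ν) ^ ((1 : ℝ) / 8 - k) ≤ 1 / 4 * 1 :=
          mul_le_mul h5 hT1 (by positivity) (by norm_num)
      _ = _ := by norm_num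
  have hQg : Qp ν * g * (pp ν) ^ (-(1 / 64 : ℝ)) ≤ 1 / 4 := by
    calc Qp ν * g * (pp ν) ^ (-(1 / 64 : ℝ)) ≤ (c0 * (pp ν) ^ ((1 : ℝ) / 256)) * g * (pp ν) ^ (-(1 / 64 : ℝ)) := by
          apply mul_le_mul_of_nonneg_right _ hw0.le
          exact mul_le_mul_of_nonneg_right (hQple ν) hgp.le
      _ = c0 * g * ((pp ν) ^ ((1 : ℝ) / 256) * (pp ν) ^ (-(1 / 64 : ℝ))) := by ring
      _ = c0 * g * (pp ν) ^ (-(3 / 256 : ℝ)) := by
          rw [← Real.rpow_add hp0]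
          norm_num
      _ ≤ c0 * g * (1 / (4 * (c0 * g))) := mul_le_mul_of_nonneg_left he1 (by positivity)
      _ = 1 / 4 := by field_simp
  refine ⟨fun α hα1 hα2 hα3 => ?_, h3⟩
  exact SS_minor d a ha (m + t') (2 ^ ν) ((pp ν) ^ lam) (Qp ν) (R ν) ((pp ν) ^ (-(1 / 64 : ℝ))) T
        ((pp ν) ^ (-(lam / 8))) (30 * (pp ν) ^ (1 - lam / 16)) (H1 ν) (by positivity) (by linarith [hQp1 ν]) (hR0 ν)
        hHc (by positivity)
        (fun β h => hweyl (2 ^ ν) ((pp ν) ^ lam) β (m + t') Nat.one_le_two_pow (Real.one_le_rpow (hpp1 ν) hlam0.le) h)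
        (by
          have : Qp ν * g * (pp ν) ^ (-(1 / 64 : ℝ)) + R ν ≤ 1 / 2 := by linarith
          exact lt_of_le_of_lt this (by norm_num))
        hRg (lt_of_lt_of_le hRg (mul_le_mul_of_nonneg_right hTw hgp.le)) hw0 he3 hA1a hA1b α hα1 hα2 hα3

end Pool.Agent.U914.WP
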