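import Mathlib
import Pool.Agent.U914.WP.GA
import Pool.Agent.U914.WP.FD

/-! Almost all polynomials in Waring's problem: the mean value for the integer parts over the full interval. -/

set_option autoImplicit false

open Finset MeasureTheory Complex
open Pool.Agent.U518.WS (ee norm_ee ee_add ee_sub ee_sum ee_neg ee_zero continuous_ee m1 ms gg gg_nonneg meas_T)

namespace Pool.Agent.U914.WP

/-- the exponential sum of the integer parts over the full interval -/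
noncomputable def SF (d : ℕ) (a : ℝ) (θ : Fin d → ℝ) (P : ℕ) (α : ℝ) : ℂ :=
  ∑ n ∈ Ioc 0 P, ee (α * (⌊pf d a θ n⌋ : ℝ))

/-- the full box -/
def fbx (s P : ℕ) : Finset (Fin s → ℕ) := Fintype.piFinset fun _ => Ioc 0 P

theorem mem_fbx {s P : ℕ} {x : Fin s → ℕ} : x ∈ fbx s P ↔ ∀ i, 1 ≤ x i ∧ x i ≤ P := by
  unfold fbx
  rw [Fintype.mem_piFinset]
  apply forall_congr'
  intro i
  rw [mem_Ioc]
  omega

theorem SF_norm_le (d : ℕ) (a : ℝ) (θ : Fin d → ℝ) (P : ℕ) (α : ℝ) : ‖SF d a θ P α‖ ≤ P := by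
  unfold SF
  refine (norm_sum_le _ _).trans ?_
  simp [norm_ee]

theorem SF_pow (s d : ℕ) (a : ℝ) (θ : Fin d → ℝ) (P : ℕ) (α : ℝ) :
    SF d a θ P α ^ s = ∑ x ∈ fbx s P, ee (α * (zz s d a θ x : ℝ)) := by
  have h : SF d a θ P α ^ s = ∏ _i : Fin s, SF d a θ P α := by simp
  rw [h]
  unfold SF fbx
  rw [Finset.prod_univ_sum]
  apply sum_congr rfl
  intro x _
  unfold zz
  push_cast
  rw [mul_sum, ee_sum]

theorem GI_pow (s d : ℕ) (a : ℝ) (θ : Fin d → ℝ) (P : ℕ) (β : ℝ) :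
    GI d a θ (Ioc 0 P) β ^ s = ∑ x ∈ fbx s P, ee (β * Psi s d a θ x) := by
  have h : GI d a θ (Ioc 0 P) β ^ s = ∏ _i : Fin s, GI d a θ (Ioc 0 P) β := by simp
  rw [h]
  unfold GI fbx
  rw [Finset.prod_univ_sum]
  apply sum_congr rfl
  intro x _
  unfold Psi
  rw [mul_sum, ee_sum]

theorem nu_q (q : ℕ) (κ : ℝ) (hκ : 0 < κ) : ∃ C : ℝ, 0 < C ∧ ∀ ν : ℕ, ((ν : ℝ) + 1) ^ q ≤ C * ((2 ^ ν : ℕ) : ℝ) ^ κ := by
  obtain ⟨C, hC, h⟩ := nu_le (κ / (q + 1)) (by positivity)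
  refine ⟨C ^ (q + 1), by positivity, fun ν => ?_⟩
  have hν : (0 : ℝ) ≤ ν := Nat.cast_nonneg ν
  calc ((ν : ℝ) + 1) ^ q ≤ ((ν : ℝ) + 1) ^ (2 * (q + 1)) := pow_le_pow_right₀ (by linarith) (by omega)
    _ = (((ν : ℝ) + 1) ^ 2) ^ (q + 1) := by rw [pow_mul]
    _ ≤ (C * ((2 ^ ν : ℕ) : ℝ) ^ (κ / (q + 1))) ^ (q + 1) := pow_le_pow_left₀ (by positivity) (h ν) _
    _ = _ := by
        rw [mul_pow, ← Real.rpow_natCast (((2 ^ ν : ℕ) : ℝ) ^ (κ / (q + 1))), ← Real.rpow_mul (Nat.cast_nonneg _)]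
        congr 2
        push_cast
        field_simp

/-- the mean value for the integer parts -/
noncomputable def KK (d : ℕ) (a : ℝ) (P : ℕ) (θ : Fin d → ℝ) : ENNReal :=
  ∫⁻ α in Set.Icc (-(1 / 2) : ℝ) (1 / 2), ENNReal.ofReal (‖SF d a θ P α‖ ^ (2 * (d + 1)))

theorem KK_meas (d : ℕ) (a : ℝ) (P : ℕ) (m : Fin d → ℝ) : Measurable fun t' : Fin d → ℝ => KK d a P (m + t') := by
  unfold KK
  apply Measurable.lintegral_prod_right' (f := fun p : (Fin d → ℝ) × ℝ =>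
    ENNReal.ofReal (‖SF d a (m + p.1) P p.2‖ ^ (2 * (d + 1))))
  apply ENNReal.measurable_ofReal.comp
  apply Measurable.pow_const
  apply Measurable.norm
  unfold SF
  apply Finset.measurable_fun_sum
  intro n _
  apply continuous_ee.measurable.comp
  apply Measurable.mul measurable_snd
  have h2 : Measurable fun p : (Fin d → ℝ) × ℝ => pf d a (m + p.1) n :=
    ((pf_cont d a n).comp (continuous_const.add continuous_fst)).measurable
  exact (measurable_from_top (f := fun n : ℤ => (n : ℝ))).comp h2.floor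

theorem KK_le (d : ℕ) (a : ℝ) (m : Fin d → ℝ) (P : ℕ) (t' : Fin d → ℝ) : KK d a P (m + t') ≤
    ENNReal.ofReal (Real.exp 1 * (2 * Real.exp (4 * Real.pi * ((d + 1 : ℕ) : ℝ) ^ 2))) *
      ∫⁻ β : ℝ, FI d a m 1 (Ioc 0 P) (t', β) := by
  have h := JJ_le (d + 1) d a (m + t') (fbx (d + 1) P)
  unfold KK FI
  have e1 : ∀ α : ℝ, ‖SF d a (m + t') P α‖ ^ (2 * (d + 1)) =
      ‖∑ x ∈ fbx (d + 1) P, ee (α * (zz (d + 1) d a (m + t') x : ℝ))‖ ^ 2 := by
    intro α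
    rw [← SF_pow, norm_pow, ← pow_mul, mul_comm]
  have e2 : ∀ β : ℝ, ‖GI d a (m + t') (Ioc 0 P) β‖ ^ (2 * (d + 1)) =
      ‖∑ x ∈ fbx (d + 1) P, ee (β * Psi (d + 1) d a (m + t') x)‖ ^ 2 := by
    intro β
    rw [← GI_pow, norm_pow, ← pow_mul, mul_comm]
  simp only [e1, e2]
  exact h

/-- **The mean value for the integer parts.** -/
theorem KK_ae (d : ℕ) (a : ℝ) (ha : 0 < a) (ε : ℝ) (hε : 0 < ε) (m : Fin d → ℝ) :
    ∀ᵐ t' ∂(ms d), ∀ᶠ ν : ℕ in Filter.atTop,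
      KK d a (2 ^ ν) (m + t') ≤ ENNReal.ofReal (((2 ^ ν : ℕ) : ℝ) ^ (((d + 1 : ℕ) : ℝ) + ε)) := by
  obtain ⟨t, ht⟩ := exists_nat_gt (4 / ε)
  have ht0 : (0 : ℝ) < t := lt_trans (by positivity) ht
  have ht1 : 1 ≤ t := by
    have : 0 < t := by exact_mod_cast ht0
    omega
  have htε : (1 : ℝ) / t ≤ ε / 4 := by
    rw [div_lt_iff₀ hε] at ht
    rw [div_le_iff₀ ht0]
    nlinarith
  obtain ⟨C, hC, hmean⟩ := full_mean d a ha m t ht1
  obtain ⟨Cn, hCn, hnu⟩ := nu_q (2 * (d + 1) + 3) (ε / 4) (by positivity)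
  set C5 : ℝ := Real.exp 1 * (2 * Real.exp (4 * Real.pi * ((d + 1 : ℕ) : ℝ) ^ 2)) with hC5
  have hC5p : 0 < C5 := by positivity
  have hb := bc (ms d) (fun ν t' => KK d a (2 ^ ν) (m + t')) (fun ν => KK_meas d a _ m) (C5 * (C * Cn))
    (((d + 1 : ℕ) : ℝ) + ε + ε / 4) (ε / 4) (by positivity) (by positivity) 0 (fun ν _ => by
      have hp1 : (1 : ℝ) ≤ ((2 ^ ν : ℕ) : ℝ) := by exact_mod_cast Nat.one_le_two_pow
      have hp0 : (0 : ℝ) < ((2 ^ ν : ℕ) : ℝ) := by linarith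
      calc ∫⁻ t', KK d a (2 ^ ν) (m + t') ∂(ms d) ≤
            ∫⁻ t', ENNReal.ofReal C5 * (∫⁻ β : ℝ, FI d a m 1 (Ioc 0 (2 ^ ν)) (t', β)) ∂(ms d) :=
            lintegral_mono fun t' => KK_le d a m (2 ^ ν) t'
        _ = ENNReal.ofReal C5 * MI d (FI d a m 1 (Ioc 0 (2 ^ ν))) := by
            unfold MI
            exact lintegral_const_mul' _ _ ENNReal.ofReal_ne_top
        _ ≤ ENNReal.ofReal C5 * ENNReal.ofReal (C * (ν + 1) ^ (2 * (d + 1) + 3) *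
              ((2 ^ ν : ℕ) : ℝ) ^ (((d + 1 : ℕ) : ℝ) + 1 / t) / 1) :=
            mul_le_mul_right (hmean ν 1 one_pos le_rfl) _
        _ ≤ _ := by
            rw [← ENNReal.ofReal_mul hC5p.le]
            apply ENNReal.ofReal_le_ofReal
            rw [div_one]
            calc C5 * (C * (ν + 1) ^ (2 * (d + 1) + 3) * ((2 ^ ν : ℕ) : ℝ) ^ (((d + 1 : ℕ) : ℝ) + 1 / t)) ≤
                  C5 * (C * (Cn * ((2 ^ ν : ℕ) : ℝ) ^ (ε / 4)) * ((2 ^ ν : ℕ) : ℝ) ^ (((d + 1 : ℕ) : ℝ) + ε / 4)) := by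
                  apply mul_le_mul_of_nonneg_left _ hC5p.le
                  apply mul_le_mul _ _ (by positivity) (by positivity)
                  · exact mul_le_mul_of_nonneg_left (hnu ν) hC.le
                  · exact Real.rpow_le_rpow_of_exponent_le hp1 (by linarith)
              _ = C5 * (C * Cn) * (((2 ^ ν : ℕ) : ℝ) ^ (ε / 4) * ((2 ^ ν : ℕ) : ℝ) ^ (((d + 1 : ℕ) : ℝ) + ε / 4)) := by ring
              _ ≤ C5 * (C * Cn) * ((2 ^ ν : ℕ) : ℝ) ^ (((d + 1 : ℕ) : ℝ) + ε + ε / 4 - 2 * (ε / 4)) := by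
                  apply mul_le_mul_of_nonneg_left _ (by positivity)
                  rw [← Real.rpow_add hp0]
                  exact Real.rpow_le_rpow_of_exponent_le hp1 (by linarith))
  filter_upwards [hb] with t' h
  filter_upwards [h] with ν h
  rwa [add_sub_cancel_right] at h

end Pool.Agent.U914.WP
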