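import Mathlib
import Pool.Agent.U914.WP.GB

/-! Almost all polynomials in Waring's problem: the minor arcs over the full interval. -/

set_option autoImplicit false

open Finset MeasureTheory Complex
open Pool.Agent.U518.WS (ee norm_ee ee_add ee_sub ee_sum ee_neg ee_zero continuous_ee m1 ms gg gg_nonneg meas_T)

namespace Pool.Agent.U914.WP

theorem SF_split (d : ℕ) (a : ℝ) (θ : Fin d → ℝ) (ν : ℕ) (α : ℝ) (I : ℕ) (hI : 2 * I ≤ ν) :
    SF d a θ (2 ^ ν) α = ∑ i ∈ range I, SS d a θ (2 ^ (ν - 2 * (i + 1))) α + SF d a θ (2 ^ (ν - 2 * I)) α := by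
  induction I with
  | zero => simp
  | succ I ih =>
    rw [ih (by omega), sum_range_succ, add_assoc]
    congr 1
    unfold SF SS IQ
    have e1 : 4 * 2 ^ (ν - 2 * (I + 1)) = 2 ^ (ν - 2 * I) := by
      have : ν - 2 * I = ν - 2 * (I + 1) + 2 := by omega
      rw [this, pow_add]
      ring
    rw [e1]
    have e2 : Ico (2 ^ (ν - 2 * (I + 1)) + 1) (2 ^ (ν - 2 * I) + 1) = Ioc (2 ^ (ν - 2 * (I + 1))) (2 ^ (ν - 2 * I)) := by
      ext x
      rw [mem_Ico, mem_Ioc]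
      omega
    rw [e2, add_comm]
    refine (sum_Ioc_consecutive _ (Nat.zero_le _) ?_).symm
    exact Nat.pow_le_pow_right (by norm_num) (by omega)

/-- the integral over the arcs -/
noncomputable def Ym (s d : ℕ) (a : ℝ) (P : ℕ) (T : ℝ) (θ : Fin d → ℝ) : ENNReal :=
  ∫⁻ α in {α : ℝ | T ≤ |α|} ∩ Set.Icc (-(1 / 2) : ℝ) (1 / 2), ENNReal.ofReal (‖SF d a θ P α‖ ^ s)

theorem SF_cont (d : ℕ) (a : ℝ) (θ : Fin d → ℝ) (P : ℕ) : Continuous fun α : ℝ => SF d a θ P α := by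
  unfold SF
  apply continuous_finsetSum
  intro x _
  exact continuous_ee.comp (by fun_prop)

/-- **The deterministic bound over the full interval.** -/
theorem Ym_le (s d : ℕ) (hs : 2 * (d + 1) + 1 ≤ s) (a : ℝ) (ν I : ℕ) (hI : 2 * I ≤ ν) (θ : Fin d → ℝ) (T : ℝ)
    (w : ℕ → ℝ) (E : ℕ → Set ℝ) (hE : ∀ i, MeasurableSet (E i)) (A : ℕ → ℝ) (hA : ∀ i, 0 ≤ A i)
    (h : ∀ i < I, ∀ α : ℝ, T ≤ |α| → |α| ≤ 1 / 2 → (w i < |α| → α ∉ E i) →
      ‖SS d a θ (2 ^ (ν - 2 * (i + 1))) α‖ ≤ A i) :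
    Ym s d a (2 ^ ν) T θ ≤
      ENNReal.ofReal ((∑ i ∈ range I, A i + ((2 ^ (ν - 2 * I) : ℕ) : ℝ)) * ((2 ^ ν : ℕ) : ℝ) ^ (s - 1 - 2 * (d + 1))) *
        KK d a (2 ^ ν) θ +
      ENNReal.ofReal (((2 ^ ν : ℕ) : ℝ) ^ (s - 1)) *
        ∑ i ∈ range I, XE d a (2 ^ (ν - 2 * (i + 1))) (E i) (w i) θ := by
  set P : ℕ := 2 ^ ν with hP
  set I0 : Set ℝ := Set.Icc (-(1 / 2) : ℝ) (1 / 2) with hI0
  set E' : ℕ → Set ℝ := fun i => E i ∩ ({α : ℝ | w i ≤ |α|} ∩ I0) with hE'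
  have hE'm : ∀ i, MeasurableSet (E' i) := fun i => (hE i).inter ((meas_T (w i)).inter measurableSet_Icc)
  set At : ℝ := ∑ i ∈ range I, A i + ((2 ^ (ν - 2 * I) : ℕ) : ℝ) with hAt
  have hAt0 : 0 ≤ At := add_nonneg (sum_nonneg fun i _ => hA i) (Nat.cast_nonneg _)
  set Sm : ℕ → ℝ → ENNReal := fun i α => ENNReal.ofReal ‖SS d a θ (2 ^ (ν - 2 * (i + 1))) α‖ with hSm
  have hSmm : ∀ i, Measurable (Sm i) := by
    intro i
    apply ENNReal.measurable_ofReal.comp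
    have h1 : Measurable fun α : ℝ => (θ, α) := measurable_const.prodMk measurable_id
    exact ((SS_meas d a _).comp h1).norm
  have hFm : Measurable fun α => ENNReal.ofReal (‖SF d a θ P α‖ ^ (2 * (d + 1))) := by
    apply Continuous.measurable
    apply ENNReal.continuous_ofReal.comp
    exact (SF_cont d a θ P).norm.pow _
  have hind : ∀ i, Measurable ((E' i).indicator (Sm i)) := fun i => (hSmm i).indicator (hE'm i)
  have hpt : ∀ α ∈ {α : ℝ | T ≤ |α|} ∩ I0, ENNReal.ofReal (‖SF d a θ P α‖ ^ s) ≤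
      ENNReal.ofReal (At * (P : ℝ) ^ (s - 1 - 2 * (d + 1))) *
        I0.indicator (fun α => ENNReal.ofReal (‖SF d a θ P α‖ ^ (2 * (d + 1)))) α +
      ENNReal.ofReal ((P : ℝ) ^ (s - 1)) * ∑ i ∈ range I, (E' i).indicator (Sm i) α := by
    intro α hα
    have hα1 : T ≤ |α| := hα.1
    have hα2 : |α| ≤ 1 / 2 := abs_le.2 ⟨by linarith [hα.2.1], hα.2.2⟩
    have hF0 : 0 ≤ ‖SF d a θ P α‖ := norm_nonneg _
    have h1 : ENNReal.ofReal ‖SF d a θ P α‖ ≤ ENNReal.ofReal At + ∑ i ∈ range I, (E' i).indicator (Sm i) α := by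
      have h2 : ‖SF d a θ P α‖ ≤ ∑ i ∈ range I, ‖SS d a θ (2 ^ (ν - 2 * (i + 1))) α‖ + ((2 ^ (ν - 2 * I) : ℕ) : ℝ) := by
        rw [hP, SF_split d a θ ν α I hI]
        refine (norm_add_le _ _).trans (add_le_add (norm_sum_le _ _) ?_)
        exact SF_norm_le d a θ _ α
      refine (ENNReal.ofReal_le_ofReal h2).trans ?_
      rw [ENNReal.ofReal_add (sum_nonneg fun i _ => norm_nonneg _) (Nat.cast_nonneg _),
        ENNReal.ofReal_sum_of_nonneg fun i _ => norm_nonneg _, hAt,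
        ENNReal.ofReal_add (sum_nonneg fun i _ => hA i) (Nat.cast_nonneg _),
        ENNReal.ofReal_sum_of_nonneg fun i _ => hA i]
      have h3 : ∑ i ∈ range I, ENNReal.ofReal ‖SS d a θ (2 ^ (ν - 2 * (i + 1))) α‖ ≤
          ∑ i ∈ range I, ENNReal.ofReal (A i) + ∑ i ∈ range I, (E' i).indicator (Sm i) α := by
        rw [← sum_add_distrib]
        apply sum_le_sum
        intro i hi
        by_cases hc : α ∈ E' i
        · rw [Set.indicator_of_mem hc]
          exact le_add_self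
        · refine le_trans ?_ le_self_add
          apply ENNReal.ofReal_le_ofReal
          apply h i (mem_range.1 hi) α hα1 hα2
          intro hw hmem
          exact hc ⟨hmem, hw.le, hα.2⟩
      calc _ ≤ ∑ i ∈ range I, ENNReal.ofReal (A i) + ∑ i ∈ range I, (E' i).indicator (Sm i) α +
            ENNReal.ofReal ((2 ^ (ν - 2 * I) : ℕ) : ℝ) := add_le_add h3 le_rfl
        _ = _ := by rw [add_right_comm]
    have h4 : ‖SF d a θ P α‖ ^ s = ‖SF d a θ P α‖ ^ (s - 1) * ‖SF d a θ P α‖ := by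
      rw [← pow_succ]
      congr 1
      omega
    have h5 : ‖SF d a θ P α‖ ^ (s - 1) ≤ (P : ℝ) ^ (s - 1) := pow_le_pow_left₀ hF0 (SF_norm_le d a θ P α) _
    have h6 : ‖SF d a θ P α‖ ^ (s - 1) ≤ (P : ℝ) ^ (s - 1 - 2 * (d + 1)) * ‖SF d a θ P α‖ ^ (2 * (d + 1)) := by
      have e1 : ‖SF d a θ P α‖ ^ (s - 1) = ‖SF d a θ P α‖ ^ (s - 1 - 2 * (d + 1)) * ‖SF d a θ P α‖ ^ (2 * (d + 1)) := by
        rw [← pow_add]
        congr 1
        omega
      rw [e1]
      exact mul_le_mul_of_nonneg_right (pow_le_pow_left₀ hF0 (SF_norm_le d a θ P α) _) (by positivity)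
    rw [h4, ENNReal.ofReal_mul (by positivity)]
    calc _ ≤ ENNReal.ofReal (‖SF d a θ P α‖ ^ (s - 1)) *
          (ENNReal.ofReal At + ∑ i ∈ range I, (E' i).indicator (Sm i) α) := mul_le_mul_right h1 _
      _ = ENNReal.ofReal At * ENNReal.ofReal (‖SF d a θ P α‖ ^ (s - 1)) +
          ENNReal.ofReal (‖SF d a θ P α‖ ^ (s - 1)) * ∑ i ∈ range I, (E' i).indicator (Sm i) α := by
          rw [mul_add, mul_comm (ENNReal.ofReal At)]
      _ ≤ _ := by
          apply add_le_add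
          · rw [Set.indicator_of_mem hα.2, ENNReal.ofReal_mul hAt0, mul_assoc]
            apply mul_le_mul_right
            rw [← ENNReal.ofReal_mul (by positivity)]
            exact ENNReal.ofReal_le_ofReal h6
          · exact mul_le_mul_left (ENNReal.ofReal_le_ofReal h5) _
  unfold Ym KK XE
  calc _ ≤ ∫⁻ α in {α : ℝ | T ≤ |α|} ∩ I0,
        (ENNReal.ofReal (At * (P : ℝ) ^ (s - 1 - 2 * (d + 1))) *
        I0.indicator (fun α => ENNReal.ofReal (‖SF d a θ P α‖ ^ (2 * (d + 1)))) α +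
      ENNReal.ofReal ((P : ℝ) ^ (s - 1)) * ∑ i ∈ range I, (E' i).indicator (Sm i) α) :=
        setLIntegral_mono' ((meas_T T).inter measurableSet_Icc) hpt
    _ ≤ ∫⁻ α, (ENNReal.ofReal (At * (P : ℝ) ^ (s - 1 - 2 * (d + 1))) *
        I0.indicator (fun α => ENNReal.ofReal (‖SF d a θ P α‖ ^ (2 * (d + 1)))) α +
      ENNReal.ofReal ((P : ℝ) ^ (s - 1)) * ∑ i ∈ range I, (E' i).indicator (Sm i) α) :=
        setLIntegral_le_lintegral _ _
    _ = _ := by
        have hm1 : Measurable (I0.indicator (fun α => ENNReal.ofReal (‖SF d a θ P α‖ ^ (2 * (d + 1))))) :=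
          hFm.indicator measurableSet_Icc
        rw [lintegral_add_left (hm1.const_mul _), lintegral_const_mul _ hm1,
          lintegral_const_mul _ (Finset.measurable_fun_sum _ fun i _ => hind i),
          lintegral_finsetSum _ fun i _ => hind i,
          lintegral_indicator measurableSet_Icc]
        congr 2
        apply sum_congr rfl
        intro i _
        rw [lintegral_indicator (hE'm i)]

/-- **The minor arcs for the integer parts, over the full interval.** -/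
theorem minor_ae (d : ℕ) (hd : 1 ≤ d) (a : ℝ) (ha : 0 < a) : ∃ κ : ℝ, 0 < κ ∧ κ ≤ 1 / 100 ∧
    ∀ m : Fin d → ℝ, ∀ᵐ t' ∂(ms d), ∀ s : ℕ, 2 * (d + 1) + 1 ≤ s → ∀ᶠ ν : ℕ in Filter.atTop,
      Ym s d a (2 ^ ν) (((2 ^ ν : ℕ) : ℝ) ^ ((1 : ℝ) / 4 - ((d + 1 : ℕ) : ℝ))) (m + t') ≤
        ENNReal.ofReal (((2 ^ ν : ℕ) : ℝ) ^ ((s : ℝ) - ((d + 1 : ℕ) : ℝ) - κ)) := by
  obtain ⟨lam, hlam0, hlam1, E, hE, harc⟩ := arcs_ae d hd a ha
  set k : ℕ := d + 1 with hk
  have hk2 : (2 : ℝ) ≤ k := by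
    have : 2 ≤ k := by omega
    exact_mod_cast this
  obtain ⟨N, hN⟩ := exists_nat_ge (1024 * (k : ℝ) + 32 / lam)
  have h32 : 0 < 32 / lam := by positivity
  have hN0 : (0 : ℝ) < N := by linarith
  have hNk : 1024 * (k : ℝ) ≤ N := by linarith
  have hNl : 32 / lam ≤ N := by linarith
  set δ : ℝ := 2 / N with hδ
  have hδ0 : 0 < δ := by positivity
  have hδk : δ * k ≤ 1 / 512 := by
    rw [hδ, div_mul_eq_mul_div, div_le_div_iff₀ hN0 (by norm_num)]
    linarith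
  have hδ1 : δ ≤ 1 / 1024 := by nlinarith
  have hδl : δ ≤ lam / 16 := by
    rw [div_le_iff₀ hlam0] at hNl
    rw [hδ, div_le_div_iff₀ hN0 (by norm_num)]
    linarith
  refine ⟨δ / 4, by positivity, by linarith, fun m => ?_⟩
  obtain ⟨Cn, hCn, hnu⟩ := nu_q 1 (δ / 4) (by positivity)
  have htend : Filter.Tendsto (fun ν : ℕ => ((2 ^ ν : ℕ) : ℝ)) Filter.atTop Filter.atTop :=
    tendsto_natCast_atTop_atTop.comp (tendsto_pow_atTop_atTop_of_one_lt (by norm_num : 1 < 2))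
  have hev : ∀ᶠ ν : ℕ in Filter.atTop, (((2 ^ ν : ℕ) : ℝ)) ^ (-(δ / 4)) ≤ 1 / (35 * Cn) :=
    ((tendsto_rpow_neg_atTop (by positivity : (0 : ℝ) < δ / 4)).comp htend).eventually_le_const (by positivity)
  filter_upwards [harc m, KK_ae d a ha (δ / 4) (by positivity) m] with t' harc hKK
  intro s hs
  obtain ⟨ν0, hν0⟩ := Filter.eventually_atTop.1 harc
  filter_upwards [hKK, hev, Filter.eventually_ge_atTop (2 * ν0)] with ν hKK hev hν
  set I : ℕ := ν / N with hI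
  have hN4 : 4 ≤ N := by
    have : (4 : ℝ) ≤ N := by linarith
    exact_mod_cast this
  have hI4 : I * 4 ≤ ν := by
    calc I * 4 ≤ I * N := Nat.mul_le_mul_left _ hN4
      _ ≤ ν := Nat.div_mul_le_self ν N
  have hI2 : 2 * I ≤ ν := by omega
  set p : ℝ := ((2 ^ ν : ℕ) : ℝ) with hp
  have hp1 : 1 ≤ p := by
    rw [hp]
    exact_mod_cast Nat.one_le_two_pow
  have hp0 : 0 < p := by linarith
  have hpν : p = (2 : ℝ) ^ (ν : ℝ) := by rw [hp, Real.rpow_natCast]; push_cast; rfl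
  have hIr : (I : ℝ) * N ≤ ν := by exact_mod_cast Nat.div_mul_le_self ν N
  have hIr2 : (ν : ℝ) < (I + 1) * N := by
    have := Nat.lt_div_mul_add (a := ν) (b := N) (by omega)
    have h2 : (ν : ℝ) < (I : ℝ) * N + N := by exact_mod_cast this
    linarith
  have hδν1 : 2 * (I : ℝ) ≤ δ * ν := by
    rw [hδ, div_mul_eq_mul_div, le_div_iff₀ hN0]
    linarith
  have hδν2 : δ * ν ≤ 2 * I + 2 := by
    rw [hδ, div_mul_eq_mul_div, div_le_iff₀ hN0]
    linarith
  -- the sizes of the scales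
  have hlow : ∀ i < I, p ^ (1 - δ) ≤ ((2 ^ (ν - 2 * (i + 1)) : ℕ) : ℝ) := by
    intro i hi
    rw [hpν, ← Real.rpow_mul (by norm_num)]
    push_cast
    rw [← Real.rpow_natCast, Nat.cast_sub (by omega)]
    apply Real.rpow_le_rpow_of_exponent_le (by norm_num)
    have hi' : ((i : ℝ) + 1) ≤ I := by exact_mod_cast hi
    push_cast
    nlinarith
  have hhigh : ∀ i, ((2 ^ (ν - 2 * (i + 1)) : ℕ) : ℝ) ≤ p := by
    intro i
    rw [hp]
    exact_mod_cast Nat.pow_le_pow_right (by norm_num) (by omega)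
  have hrest : ((2 ^ (ν - 2 * I) : ℕ) : ℝ) ≤ 4 * p ^ (1 - δ) := by
    have e1 : (4 : ℝ) = (2 : ℝ) ^ (2 : ℝ) := by norm_num
    rw [hpν, ← Real.rpow_mul (by norm_num), e1, ← Real.rpow_add (by norm_num)]
    push_cast
    rw [← Real.rpow_natCast, Nat.cast_sub hI2]
    apply Real.rpow_le_rpow_of_exponent_le (by norm_num)
    push_cast
    linarith
  have hgood : ∀ i < I, ν0 ≤ ν - 2 * (i + 1) := fun i hi => by omega
  have hT : ∀ i < I, (((2 ^ (ν - 2 * (i + 1)) : ℕ) : ℝ)) ^ ((1 : ℝ) / 8 - (k : ℝ)) ≤ p ^ ((1 : ℝ) / 4 - (k : ℝ)) := by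
    intro i hi
    calc (((2 ^ (ν - 2 * (i + 1)) : ℕ) : ℝ)) ^ ((1 : ℝ) / 8 - (k : ℝ)) ≤ (p ^ (1 - δ)) ^ ((1 : ℝ) / 8 - (k : ℝ)) :=
          Real.rpow_le_rpow_of_nonpos (by positivity) (hlow i hi) (by linarith)
      _ = p ^ ((1 - δ) * ((1 : ℝ) / 8 - (k : ℝ))) := by rw [← Real.rpow_mul hp0.le]
      _ ≤ _ := Real.rpow_le_rpow_of_exponent_le hp1 (by nlinarith)
  have hmain := Ym_le s d hs a ν I hI2 (m + t') (p ^ ((1 : ℝ) / 4 - (k : ℝ)))
    (fun i => (((2 ^ (ν - 2 * (i + 1)) : ℕ) : ℝ)) ^ (-(1 / 64 : ℝ))) (fun i => E (ν - 2 * (i + 1)))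
    (fun i => hE _) (fun i => 30 * (((2 ^ (ν - 2 * (i + 1)) : ℕ) : ℝ)) ^ (1 - lam / 16)) (fun i => by positivity)
    (fun i hi α hα1 hα2 hα3 => (hν0 _ (hgood i hi)).1 α ((hT i hi).trans hα1) hα2 hα3)
  refine hmain.trans ?_
  have hAsum : ∑ i ∈ range I, 30 * (((2 ^ (ν - 2 * (i + 1)) : ℕ) : ℝ)) ^ (1 - lam / 16) + ((2 ^ (ν - 2 * I) : ℕ) : ℝ) ≤
      34 * ((ν : ℝ) + 1) * p ^ (1 - δ) := by
    have h1 : ∀ i ∈ range I, 30 * (((2 ^ (ν - 2 * (i + 1)) : ℕ) : ℝ)) ^ (1 - lam / 16) ≤ 30 * p ^ (1 - δ) := by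
      intro i _
      apply mul_le_mul_of_nonneg_left _ (by norm_num)
      calc (((2 ^ (ν - 2 * (i + 1)) : ℕ) : ℝ)) ^ (1 - lam / 16) ≤ p ^ (1 - lam / 16) :=
            Real.rpow_le_rpow (Nat.cast_nonneg _) (hhigh i) (by linarith)
        _ ≤ _ := Real.rpow_le_rpow_of_exponent_le hp1 (by linarith)
    have h2 := sum_le_sum h1
    rw [sum_const, card_range, nsmul_eq_mul] at h2
    have h3 : (I : ℝ) ≤ ν := by
      have : I ≤ ν := by omega
      exact_mod_cast this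
    have h4 : 0 < p ^ (1 - δ) := by positivity
    have h5 : (I : ℝ) * (30 * p ^ (1 - δ)) ≤ ν * (30 * p ^ (1 - δ)) := mul_le_mul_of_nonneg_right h3 (by positivity)
    have h6 : (0 : ℝ) ≤ ν := Nat.cast_nonneg ν
    nlinarith [mul_nonneg h6 h4.le]
  have hXsum : ∑ i ∈ range I, XE d a (2 ^ (ν - 2 * (i + 1))) (E (ν - 2 * (i + 1)))
      ((((2 ^ (ν - 2 * (i + 1)) : ℕ) : ℝ)) ^ (-(1 / 64 : ℝ))) (m + t') ≤
      ENNReal.ofReal (((ν : ℝ) + 1) * p ^ (1 - (k : ℝ) - 1 / 256)) := by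
    calc _ ≤ ∑ _i ∈ range I, ENNReal.ofReal (p ^ (1 - (k : ℝ) - 1 / 256)) := by
          apply sum_le_sum
          intro i hi
          rw [mem_range] at hi
          refine (hν0 _ (hgood i hi)).2.trans (ENNReal.ofReal_le_ofReal ?_)
          calc (((2 ^ (ν - 2 * (i + 1)) : ℕ) : ℝ)) ^ (1 - (k : ℝ) - 3 / 512) ≤ (p ^ (1 - δ)) ^ (1 - (k : ℝ) - 3 / 512) :=
                Real.rpow_le_rpow_of_nonpos (by positivity) (hlow i hi) (by linarith)
            _ = p ^ ((1 - δ) * (1 - (k : ℝ) - 3 / 512)) := by rw [← Real.rpow_mul hp0.le]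
            _ ≤ _ := Real.rpow_le_rpow_of_exponent_le hp1 (by nlinarith)
      _ = ENNReal.ofReal ((I : ℝ) * p ^ (1 - (k : ℝ) - 1 / 256)) := by
          rw [sum_const, card_range, nsmul_eq_mul, ENNReal.ofReal_mul (Nat.cast_nonneg _), ENNReal.ofReal_natCast]
      _ ≤ _ := by
          apply ENNReal.ofReal_le_ofReal
          apply mul_le_mul_of_nonneg_right _ (by positivity)
          have h3 : (I : ℝ) ≤ ν := by
            have : I ≤ ν := by omega
            exact_mod_cast this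
          linarith
  have hs1 : p ^ (s - 1) = p ^ ((s : ℝ) - 1) := by
    rw [← Real.rpow_natCast, Nat.cast_sub (by omega), Nat.cast_one]
  have hs2 : p ^ (s - 1 - 2 * (d + 1)) = p ^ ((s : ℝ) - 1 - 2 * k) := by
    rw [← Real.rpow_natCast, Nat.cast_sub (by omega), Nat.cast_sub (by omega)]
    push_cast
    rw [hk]
    push_cast
    rfl
  have hnu' : (ν : ℝ) + 1 ≤ Cn * p ^ (δ / 4) := by
    have := hnu ν
    rwa [pow_one] at this
  calc _ ≤ ENNReal.ofReal (34 * ((ν : ℝ) + 1) * p ^ (1 - δ) * p ^ (s - 1 - 2 * (d + 1))) *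
          ENNReal.ofReal (p ^ ((k : ℝ) + δ / 4)) +
        ENNReal.ofReal (p ^ (s - 1)) * ENNReal.ofReal (((ν : ℝ) + 1) * p ^ (1 - (k : ℝ) - 1 / 256)) := by
        apply add_le_add
        · apply mul_le_mul' _ hKK
          apply ENNReal.ofReal_le_ofReal
          exact mul_le_mul_of_nonneg_right hAsum (by positivity)
        · exact mul_le_mul_right hXsum _
    _ ≤ _ := by
        rw [← ENNReal.ofReal_mul (by positivity), ← ENNReal.ofReal_mul (by positivity),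
          ← ENNReal.ofReal_add (by positivity) (by positivity)]
        apply ENNReal.ofReal_le_ofReal
        rw [hs1, hs2]
        have hmul : ∀ x y : ℝ, p ^ x * p ^ y = p ^ (x + y) := fun x y => (Real.rpow_add hp0 x y).symm
        calc _ = ((ν : ℝ) + 1) * (34 * (p ^ (1 - δ) * p ^ ((s : ℝ) - 1 - 2 * k) * p ^ ((k : ℝ) + δ / 4)) +
              p ^ ((s : ℝ) - 1) * p ^ (1 - (k : ℝ) - 1 / 256)) := by ring
          _ ≤ ((ν : ℝ) + 1) * (34 * p ^ ((s : ℝ) - k - 3 * δ / 4) + p ^ ((s : ℝ) - k - 3 * δ / 4)) := by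
              apply mul_le_mul_of_nonneg_left _ (by positivity)
              simp only [hmul]
              apply add_le_add
              · apply mul_le_mul_of_nonneg_left _ (by norm_num)
                exact Real.rpow_le_rpow_of_exponent_le hp1 (by linarith)
              · exact Real.rpow_le_rpow_of_exponent_le hp1 (by linarith)
          _ = ((ν : ℝ) + 1) * (35 * p ^ ((s : ℝ) - k - 3 * δ / 4)) := by ring
          _ ≤ (Cn * p ^ (δ / 4)) * (35 * p ^ ((s : ℝ) - k - 3 * δ / 4)) :=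
              mul_le_mul_of_nonneg_right hnu' (by positivity)
          _ = 35 * Cn * (p ^ (-(δ / 4)) * p ^ ((s : ℝ) - k - δ / 4)) := by
              rw [hmul]
              calc _ = 35 * Cn * (p ^ (δ / 4) * p ^ ((s : ℝ) - k - 3 * δ / 4)) := by ring
                _ = _ := by
                    rw [hmul]
                    congr 2
                    ring
          _ ≤ 35 * Cn * (1 / (35 * Cn) * p ^ ((s : ℝ) - k - δ / 4)) := by
              apply mul_le_mul_of_nonneg_left _ (by positivity)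
              exact mul_le_mul_of_nonneg_right hev (by positivity)
          _ = p ^ ((s : ℝ) - k - δ / 4) := by field_simp

end Pool.Agent.U914.WP
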