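import Mathlib
import Pool.Agent.U914.WP.GC

/-! Almost all polynomials in Waring's problem: the number of representations is locally constant. -/

set_option autoImplicit false

open Finset MeasureTheory Complex
open Pool.Agent.U518.WS (ee norm_ee ee_add ee_sub ee_sum ee_neg ee_zero continuous_ee m1 ms gg gg_nonneg meas_T)

namespace Pool.Agent.U914.WP

/-- the exact count as an integral -/
theorem count_z {ι : Type*} (V : Finset ι) (z : ι → ℤ) (n : ℤ) :
    (((V.filter fun x => z x = n).card : ℝ) : ℂ) =
      ∫ α in Set.Icc (-(1 / 2) : ℝ) (1 / 2), ee (-(α * n)) * ∑ x ∈ V, ee (α * (z x : ℝ)) := by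
  classical
  have e1 : ∀ α : ℝ, ee (-(α * n)) * ∑ x ∈ V, ee (α * (z x : ℝ)) = ∑ x ∈ V, ee (α * ((z x - n : ℤ) : ℝ)) := by
    intro α
    rw [mul_sum]
    apply sum_congr rfl
    intro x _
    rw [← ee_add]
    congr 1
    push_cast
    ring
  have hci : ∀ x, Continuous fun α : ℝ => ee (α * ((z x - n : ℤ) : ℝ)) := fun x => continuous_ee.comp (by fun_prop)
  rw [setIntegral_congr_fun measurableSet_Icc (g := fun α : ℝ => ∑ x ∈ V, ee (α * ((z x - n : ℤ) : ℝ))) fun α _ => e1 α,
    integral_finsetSum _ fun x _ => (hci x).continuousOn.integrableOn_Icc]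
  rw [sum_congr rfl fun x _ => int_ee_half (z x - n), card_filter]
  push_cast
  apply sum_congr rfl
  intro x _
  by_cases h : z x = n
  · rw [if_pos h, if_pos (by omega)]
    norm_num
  · rw [if_neg h, if_neg (by omega)]
    norm_num

/-- **The number of representations is locally constant.** -/
theorem local_const (s d : ℕ) (a : ℝ) (P : ℕ) (θ : Fin d → ℝ) (T B H : ℝ) (hT : 0 < T) (hB : 0 ≤ B)
    (hY : Ym s d a P T θ ≤ ENNReal.ofReal B) (n n' : ℤ) (h : |(n' : ℝ) - n| ≤ H) :
    |(((fbx s P).filter fun x => zz s d a θ x = n').card : ℝ) - ((fbx s P).filter fun x => zz s d a θ x = n).card| ≤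
      2 * B + (P : ℝ) ^ s * (2 * Real.pi * T * H) * (2 * T) := by
  have hpi := Real.pi_pos
  have hH : 0 ≤ H := (abs_nonneg _).trans h
  set I0 : Set ℝ := Set.Icc (-(1 / 2) : ℝ) (1 / 2) with hI0
  set R : ℤ → ℝ := fun n => (((fbx s P).filter fun x => zz s d a θ x = n).card : ℝ) with hR
  have hRe : ∀ n : ℤ, ((R n : ℝ) : ℂ) = ∫ α in I0, ee (-(α * n)) * SF d a θ P α ^ s := by
    intro n
    rw [hR]
    simp only
    rw [count_z (fbx s P) (zz s d a θ) n]
    apply setIntegral_congr_fun measurableSet_Icc
    intro α _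
    simp only
    rw [SF_pow]
  have hint : ∀ n : ℤ, IntegrableOn (fun α : ℝ => ee (-(α * n)) * SF d a θ P α ^ s) I0 := by
    intro n
    apply ContinuousOn.integrableOn_Icc
    apply Continuous.continuousOn
    exact (continuous_ee.comp (by fun_prop)).mul ((SF_cont d a θ P).pow s)
  have hdiff : ((R n' - R n : ℝ) : ℂ) = ∫ α in I0, (ee (-(α * n')) - ee (-(α * n))) * SF d a θ P α ^ s := by
    rw [ofReal_sub, hRe, hRe, ← integral_sub (hint n') (hint n)]
    apply integral_congr_ae
    exact Filter.Eventually.of_forall fun α => by simp only; ring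
  have hfin : ENNReal.ofReal |R n' - R n| ≤ ENNReal.ofReal (2 * B + (P : ℝ) ^ s * (2 * Real.pi * T * H) * (2 * T)) := by
    have h1 : ENNReal.ofReal |R n' - R n| = ‖∫ α in I0, (ee (-(α * n')) - ee (-(α * n))) * SF d a θ P α ^ s‖ₑ := by
      rw [← hdiff, ← ofReal_norm, norm_real, Real.norm_eq_abs]
    rw [h1]
    refine (enorm_integral_le_lintegral_enorm _).trans ?_
    have hpt : ∀ α ∈ I0, ‖(ee (-(α * n')) - ee (-(α * n))) * SF d a θ P α ^ s‖ₑ ≤
        ENNReal.ofReal 2 * ({α : ℝ | T ≤ |α|} ∩ I0).indicator (fun α => ENNReal.ofReal (‖SF d a θ P α‖ ^ s)) α +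
        (Set.Icc (-T) T).indicator (fun _ => ENNReal.ofReal ((P : ℝ) ^ s * (2 * Real.pi * T * H))) α := by
      intro α hα
      rw [← ofReal_norm, norm_mul, norm_pow]
      rcases le_or_gt T |α| with hc | hc
      · have hmem : α ∈ {α : ℝ | T ≤ |α|} ∩ I0 := ⟨hc, hα⟩
        rw [Set.indicator_of_mem hmem]
        refine le_trans ?_ le_self_add
        rw [← ENNReal.ofReal_mul (by norm_num)]
        apply ENNReal.ofReal_le_ofReal
        apply mul_le_mul_of_nonneg_right _ (by positivity)
        refine (norm_sub_le _ _).trans ?_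
        rw [norm_ee, norm_ee]
        norm_num
      · have hmem : α ∈ Set.Icc (-T) T := abs_le.1 hc.le
        rw [Set.indicator_of_mem hmem]
        refine le_trans ?_ le_add_self
        apply ENNReal.ofReal_le_ofReal
        rw [mul_comm]
        apply mul_le_mul _ _ (norm_nonneg _) (by positivity)
        · exact pow_le_pow_left₀ (norm_nonneg _) (SF_norm_le d a θ P α) s
        · refine (ee_diff _ _).trans ?_
          have e1 : -(α * n') - -(α * n) = -(α * ((n' : ℝ) - n)) := by ring
          rw [e1, abs_neg, abs_mul, mul_assoc (2 * Real.pi)]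
          exact mul_le_mul_of_nonneg_left (mul_le_mul hc.le h (abs_nonneg _) hT.le) (by positivity)
    refine (setLIntegral_mono' measurableSet_Icc hpt).trans ?_
    refine (setLIntegral_le_lintegral _ _).trans ?_
    have hm1 : Measurable (({α : ℝ | T ≤ |α|} ∩ I0).indicator (fun α => ENNReal.ofReal (‖SF d a θ P α‖ ^ s))) := by
      apply Measurable.indicator _ ((meas_T T).inter measurableSet_Icc)
      exact (ENNReal.continuous_ofReal.comp ((SF_cont d a θ P).norm.pow s)).measurable
    rw [lintegral_add_left (hm1.const_mul _), lintegral_const_mul _ hm1,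
      lintegral_indicator ((meas_T T).inter measurableSet_Icc), lintegral_indicator_const measurableSet_Icc,
      Real.volume_Icc, ← ENNReal.ofReal_mul (by positivity)]
    calc _ ≤ ENNReal.ofReal 2 * ENNReal.ofReal B + ENNReal.ofReal ((P : ℝ) ^ s * (2 * Real.pi * T * H) * (T - -T)) := by
          apply add_le_add _ le_rfl
          exact mul_le_mul_right hY _
      _ = _ := by
          rw [← ENNReal.ofReal_mul (by norm_num), ← ENNReal.ofReal_add (by positivity)]
          · congr 1
            ring
          · have : 0 ≤ T - -T := by linarith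
            positivity
  exact (ENNReal.ofReal_le_ofReal_iff (by positivity)).1 hfin

/-- averaging over a window -/
theorem window {ι : Type*} (V : Finset ι) (z : ι → ℤ) (n : ℤ) (h : ℕ) (hh : 1 ≤ h) (D : ℝ)
    (hD : ∀ j < h, |((V.filter fun x => z x = n + j).card : ℝ) - (V.filter fun x => z x = n).card| ≤ D) :
    |((V.filter fun x => z x = n).card : ℝ) - ((V.filter fun x => n ≤ z x ∧ z x < n + h).card : ℝ) / h| ≤ D := by
  classical
  have hhr : (0 : ℝ) < h := by exact_mod_cast hh
  have h1 : ((V.filter fun x => n ≤ z x ∧ z x < n + h).card : ℝ) =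
      ∑ j ∈ range h, ((V.filter fun x => z x = n + j).card : ℝ) := by
    have h2 : (V.filter fun x => n ≤ z x ∧ z x < n + h) = (range h).biUnion fun j => V.filter fun x => z x = n + j := by
      ext x
      simp only [mem_filter, mem_biUnion, mem_range]
      constructor
      · rintro ⟨hx, h3, h4⟩
        refine ⟨(z x - n).toNat, by omega, hx, by omega⟩
      · rintro ⟨j, hj, hx, h3⟩
        exact ⟨hx, by omega, by omega⟩
    rw [h2, card_biUnion]
    · push_cast
      rfl
    · intro i _ j _ hij
      rw [Function.onFun, disjoint_filter]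
      intro x _ h3 h4
      apply hij
      omega
  have h5 : ((V.filter fun x => z x = n).card : ℝ) - ((V.filter fun x => n ≤ z x ∧ z x < n + h).card : ℝ) / h =
      -(∑ j ∈ range h, (((V.filter fun x => z x = n + j).card : ℝ) - (V.filter fun x => z x = n).card)) / h := by
    rw [h1, sum_sub_distrib, sum_const, card_range, nsmul_eq_mul]
    field_simp
    ring
  rw [h5, abs_div, abs_neg, abs_of_pos hhr, div_le_iff₀ hhr]
  calc |∑ j ∈ range h, (((V.filter fun x => z x = n + j).card : ℝ) - (V.filter fun x => z x = n).card)| ≤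
        ∑ j ∈ range h, |((V.filter fun x => z x = n + j).card : ℝ) - (V.filter fun x => z x = n).card| :=
        abs_sum_le_sum_abs _ _
    _ ≤ ∑ _j ∈ range h, D := sum_le_sum fun j hj => hD j (mem_range.1 hj)
    _ = _ := by rw [sum_const, card_range, nsmul_eq_mul, mul_comm]

end Pool.Agent.U914.WP
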