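import Mathlib
import Pool.Agent.U914.WP.GE

/-! Almost all polynomials in Waring's problem: lattice points in the positive part of a ball. -/

set_option autoImplicit false

open Finset MeasureTheory

namespace Pool.Agent.U914.WP

/-- the volume of the positive part of the unit ball -/
noncomputable def VB (k s : ℕ) : ℝ := Real.Gamma (1 / (k : ℝ) + 1) ^ s / Real.Gamma ((s : ℝ) / k + 1)

theorem VB_pos (k s : ℕ) : 0 < VB k s := by
  unfold VB
  have h1 : 0 < Real.Gamma (1 / (k : ℝ) + 1) := Real.Gamma_pos_of_pos (by positivity)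
  have h2 : 0 < Real.Gamma ((s : ℝ) / k + 1) := Real.Gamma_pos_of_pos (by positivity)
  positivity

/-- the number of points of the box in the ball -/
noncomputable def LC (k s P : ℕ) (r : ℝ) : ℕ := ((fbx s P).filter fun x => ∑ i, (x i : ℝ) ^ k ≤ r ^ k).card

def Dl (x : ℕ) : Set ℝ := {u : ℝ | (x : ℝ) - 1 < |u| ∧ |u| ≤ x}

def Dc (x : ℕ) : Set ℝ := {u : ℝ | (x : ℝ) - 1 ≤ |u| ∧ |u| ≤ x}

theorem Dl_meas (x : ℕ) : MeasurableSet (Dl x) := by
  unfold Dl
  exact (measurableSet_lt measurable_const continuous_abs.measurable).inter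
    (measurableSet_le continuous_abs.measurable measurable_const)

theorem Dl_vol (x : ℕ) (hx : 1 ≤ x) : volume (Dl x) = 2 := by
  have hx1 : (1 : ℝ) ≤ x := by exact_mod_cast hx
  have h1 : Dl x = Set.Ico (-(x : ℝ)) (-((x : ℝ) - 1)) ∪ Set.Ioc ((x : ℝ) - 1) x := by
    ext u
    unfold Dl
    simp only [Set.mem_setOf_eq, Set.mem_union, Set.mem_Ico, Set.mem_Ioc]
    constructor
    · rintro ⟨h2, h3⟩
      rcases le_total 0 u with h0 | h0
      · rw [abs_of_nonneg h0] at h2 h3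
        exact Or.inr ⟨h2, h3⟩
      · rw [abs_of_nonpos h0] at h2 h3
        exact Or.inl ⟨by linarith, by linarith⟩
    · rintro (⟨h2, h3⟩ | ⟨h2, h3⟩)
      · rw [abs_of_nonpos (by linarith)]
        exact ⟨by linarith, by linarith⟩
      · rw [abs_of_nonneg (by linarith)]
        exact ⟨h2, h3⟩
  rw [h1, measure_union _ measurableSet_Ioc, Real.volume_Ico, Real.volume_Ioc]
  · have e1 : -((x : ℝ) - 1) - -(x : ℝ) = 1 := by ring
    have e2 : (x : ℝ) - (x - 1) = 1 := by ring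
    rw [e1, e2, ENNReal.ofReal_one, one_add_one_eq_two]
  · rw [Set.disjoint_left]
    intro u h2 h3
    rw [Set.mem_Ico] at h2
    rw [Set.mem_Ioc] at h3
    linarith

theorem Dc_vol (x : ℕ) : volume (Dc x) ≤ 2 := by
  have h1 : Dc x ⊆ Set.Icc (-(x : ℝ)) (-((x : ℝ) - 1)) ∪ Set.Icc ((x : ℝ) - 1) x := by
    intro u hu
    obtain ⟨h2, h3⟩ := hu
    rcases le_total 0 u with h0 | h0
    · rw [abs_of_nonneg h0] at h2 h3
      exact Or.inr ⟨h2, h3⟩
    · rw [abs_of_nonpos h0] at h2 h3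
      exact Or.inl ⟨by linarith, by linarith⟩
  refine (measure_mono h1).trans ((measure_union_le _ _).trans ?_)
  rw [Real.volume_Icc, Real.volume_Icc]
  have e1 : -((x : ℝ) - 1) - -(x : ℝ) = 1 := by ring
  have e2 : (x : ℝ) - (x - 1) = 1 := by ring
  rw [e1, e2, ENNReal.ofReal_one, one_add_one_eq_two]

/-- the ball -/
def Bl (k s : ℕ) (r : ℝ) : Set (Fin s → ℝ) := {u | (∑ i, |u i| ^ (k : ℝ)) ^ (1 / (k : ℝ)) ≤ r}

theorem Bl_vol (k s : ℕ) (hk : 1 ≤ k) (hs : 1 ≤ s) (r : ℝ) (hr : 0 ≤ r) :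
    volume (Bl k s r) = ENNReal.ofReal (2 ^ s * (VB k s * r ^ s)) := by
  haveI : Nonempty (Fin s) := ⟨⟨0, by omega⟩⟩
  unfold Bl
  rw [MeasureTheory.volume_sum_rpow_le (ι := Fin s) (by exact_mod_cast hk) r, Fintype.card_fin, ← ENNReal.ofReal_pow hr,
    ← ENNReal.ofReal_mul (by positivity)]
  congr 1
  unfold VB
  rw [mul_pow]
  ring

theorem mem_Bl (k s : ℕ) (hk : 1 ≤ k) (r : ℝ) (hr : 0 ≤ r) (u : Fin s → ℝ) : u ∈ Bl k s r ↔ ∑ i, |u i| ^ k ≤ r ^ k := by
  unfold Bl
  simp only [Set.mem_setOf_eq, Real.rpow_natCast]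
  have hS : 0 ≤ ∑ i, |u i| ^ k := sum_nonneg fun i _ => by positivity
  rw [one_div]
  constructor
  · intro h
    have h1 := pow_le_pow_left₀ (by positivity) h k
    rwa [Real.rpow_inv_natCast_pow hS (by omega)] at h1
  · intro h
    have h1 := Real.rpow_le_rpow hS h (by positivity : (0 : ℝ) ≤ (k : ℝ)⁻¹)
    rwa [Real.pow_rpow_inv_natCast hr (by omega)] at h1

theorem LC_le (k s P : ℕ) (hk : 1 ≤ k) (hs : 1 ≤ s) (r : ℝ) (hr : 0 ≤ r) : (LC k s P r : ℝ) ≤ VB k s * r ^ s := by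
  classical
  set V := (fbx s P).filter fun x => ∑ i, (x i : ℝ) ^ k ≤ r ^ k with hV
  have h1 : volume (⋃ x ∈ V, Set.univ.pi fun i => Dl (x i)) = ∑ x ∈ V, volume (Set.univ.pi fun i => Dl (x i)) := by
    apply measure_biUnion_finset
    · intro x _ y _ hxy
      rw [Function.onFun, Set.disjoint_univ_pi]
      obtain ⟨i, hi⟩ := Function.ne_iff.1 hxy
      refine ⟨i, ?_⟩
      rw [Set.disjoint_left]
      rintro u ⟨h2, h3⟩ ⟨h4, h5⟩
      rcases lt_or_gt_of_ne hi with hlt | hlt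
      · have : (x i : ℝ) + 1 ≤ y i := by exact_mod_cast hlt
        linarith
      · have : (y i : ℝ) + 1 ≤ x i := by exact_mod_cast hlt
        linarith
    · intro x _
      exact MeasurableSet.univ_pi fun i => Dl_meas _
  have h2 : ∑ x ∈ V, volume (Set.univ.pi fun i => Dl (x i)) = ENNReal.ofReal (2 ^ s * (V.card : ℝ)) := by
    have h3 : ∀ x ∈ V, volume (Set.univ.pi fun i => Dl (x i)) = 2 ^ s := by
      intro x hx
      rw [volume_pi_pi]
      have h4 := mem_fbx.1 (mem_filter.1 hx).1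
      rw [prod_congr rfl fun i _ => Dl_vol (x i) (h4 i).1]
      simp
    rw [sum_congr rfl h3, sum_const, nsmul_eq_mul, ENNReal.ofReal_mul (by positivity), ENNReal.ofReal_natCast,
      ENNReal.ofReal_pow (by norm_num), mul_comm]
    norm_num
  have h3 : (⋃ x ∈ V, Set.univ.pi fun i => Dl (x i)) ⊆ Bl k s r := by
    intro u hu
    rw [Set.mem_iUnion₂] at hu
    obtain ⟨x, hx, hu⟩ := hu
    rw [Set.mem_univ_pi] at hu
    rw [mem_Bl k s hk r hr]
    refine le_trans (sum_le_sum fun i _ => ?_) (mem_filter.1 hx).2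
    exact pow_le_pow_left₀ (abs_nonneg _) (hu i).2 k
  have h4 := measure_mono (μ := volume) h3
  rw [h1, h2, Bl_vol k s hk hs r hr] at h4
  have h5 : 0 ≤ 2 ^ s * (VB k s * r ^ s) := by
    have := VB_pos k s
    positivity
  have h6 := (ENNReal.ofReal_le_ofReal_iff h5).1 h4
  exact le_of_mul_le_mul_left h6 (by positivity)

theorem LC_ge (k s P : ℕ) (hk : 1 ≤ k) (hs : 1 ≤ s) (r : ℝ) (hr : 0 ≤ r) (hP : r + s ≤ P) :
    VB k s * r ^ s ≤ (LC k s P (r + s) : ℝ) := by
  classical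
  set V := (fbx s P).filter fun x => ∑ i, (x i : ℝ) ^ k ≤ (r + s) ^ k with hV
  have hkr : (1 : ℝ) ≤ k := by exact_mod_cast hk
  have hsr : (1 : ℝ) ≤ s := by exact_mod_cast hs
  have h3 : Bl k s r ⊆ ⋃ x ∈ V, Set.univ.pi fun i => Dc (x i) := by
    intro u hu
    rw [Set.mem_iUnion₂]
    set x : Fin s → ℕ := fun i => max 1 ⌈|u i|⌉₊ with hx
    have hx1 : ∀ i, |u i| ≤ x i := fun i => by
      refine (Nat.le_ceil _).trans ?_
      rw [hx]
      exact_mod_cast le_max_right _ _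
    have hx2 : ∀ i, (x i : ℝ) ≤ |u i| + 1 := fun i => by
      rw [hx]
      simp only
      rcases le_total 1 ⌈|u i|⌉₊ with h0 | h0
      · rw [max_eq_right h0]
        exact (Nat.ceil_lt_add_one (abs_nonneg _)).le
      · rw [max_eq_left h0]
        push_cast
        linarith [abs_nonneg (u i)]
    have hmink : ∑ i, (x i : ℝ) ^ k ≤ (r + s) ^ k := by
      have h4 := Real.Lp_add_le (univ : Finset (Fin s)) (fun i => |u i|) (fun _ => (1 : ℝ)) hkr
      have h5 : (∑ i : Fin s, |(|u i|)| ^ (k : ℝ)) ^ (1 / (k : ℝ)) ≤ r := by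
        simp only [abs_abs]
        exact hu
      have h6 : (∑ _i : Fin s, |(1 : ℝ)| ^ (k : ℝ)) ^ (1 / (k : ℝ)) ≤ s := by
        simp only [abs_one, Real.one_rpow, sum_const, card_univ, Fintype.card_fin, nsmul_eq_mul, mul_one]
        calc (s : ℝ) ^ (1 / (k : ℝ)) ≤ (s : ℝ) ^ (1 : ℝ) := by
              apply Real.rpow_le_rpow_of_exponent_le hsr
              rw [div_le_one (by linarith)]
              exact hkr
          _ = s := Real.rpow_one _
      have h7 : (∑ i : Fin s, |(|u i|) + 1| ^ (k : ℝ)) ^ (1 / (k : ℝ)) ≤ r + s := by linarith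
      have h8 : 0 ≤ ∑ i : Fin s, |(|u i|) + 1| ^ k := sum_nonneg fun i _ => by positivity
      simp only [Real.rpow_natCast] at h7
      have h9 := pow_le_pow_left₀ (by positivity) h7 k
      rw [one_div, Real.rpow_inv_natCast_pow h8 (by omega)] at h9
      refine le_trans (sum_le_sum fun i _ => ?_) h9
      apply pow_le_pow_left₀ (Nat.cast_nonneg _)
      rw [abs_of_nonneg (by positivity)]
      exact hx2 i
    refine ⟨x, ?_, ?_⟩
    · rw [hV, mem_filter, mem_fbx]
      refine ⟨fun i => ⟨le_max_left _ _, ?_⟩, hmink⟩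
      have h4 : (x i : ℝ) ^ k ≤ (P : ℝ) ^ k := by
        calc (x i : ℝ) ^ k ≤ ∑ j, (x j : ℝ) ^ k := single_le_sum (f := fun j => (x j : ℝ) ^ k) (fun j _ => by positivity) (mem_univ i)
          _ ≤ (r + s) ^ k := hmink
          _ ≤ _ := pow_le_pow_left₀ (by positivity) hP k
      have h5 := le_of_pow_le_pow_left₀ (by omega : k ≠ 0) (Nat.cast_nonneg _) h4
      exact_mod_cast h5
    · rw [Set.mem_univ_pi]
      intro i
      exact ⟨by linarith [hx2 i], hx1 i⟩
  have h4 := measure_mono (μ := volume) h3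
  rw [Bl_vol k s hk hs r hr] at h4
  have h5 : volume (⋃ x ∈ V, Set.univ.pi fun i => Dc (x i)) ≤ ENNReal.ofReal (2 ^ s * (V.card : ℝ)) := by
    calc _ ≤ ∑ x ∈ V, volume (Set.univ.pi fun i => Dc (x i)) := measure_biUnion_finset_le _ _
      _ ≤ ∑ _x ∈ V, 2 ^ s := by
          apply sum_le_sum
          intro x _
          rw [volume_pi_pi]
          refine (prod_le_prod' fun i _ => Dc_vol (x i)).trans ?_
          simp
      _ = _ := by
          rw [sum_const, nsmul_eq_mul, ENNReal.ofReal_mul (by positivity), ENNReal.ofReal_natCast,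
            ENNReal.ofReal_pow (by norm_num), mul_comm]
          norm_num
  have h6 := (ENNReal.ofReal_le_ofReal_iff (by positivity)).1 (h4.trans h5)
  exact le_of_mul_le_mul_left h6 (by positivity)

/-- **The number of lattice points.** -/
theorem LC_near (k s P : ℕ) (hk : 1 ≤ k) (hs : 1 ≤ s) (r : ℝ) (hr : (s : ℝ) ≤ r) (hP : r ≤ P) :
    |(LC k s P r : ℝ) - VB k s * r ^ s| ≤ VB k s * ((s : ℝ) ^ 2 * r ^ (s - 1)) := by
  have hsr : (1 : ℝ) ≤ s := by exact_mod_cast hs
  have hr0 : 0 < r := by linarith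
  have hV := VB_pos k s
  have h1 := LC_le k s P hk hs r hr0.le
  have h2 := LC_ge k s P hk hs (r - s) (by linarith) (by linarith)
  rw [sub_add_cancel] at h2
  have h3 : r ^ s - (s : ℝ) ^ 2 * r ^ (s - 1) ≤ (r - s) ^ s := by
    have h4 := one_add_mul_le_pow (a := -(s / r)) (by
      have : (s : ℝ) / r ≤ 1 := by
        rw [div_le_one hr0]
        exact hr
      linarith) s
    have h5 : (r - s) ^ s = r ^ s * (1 + -(s / r)) ^ s := by
      rw [← mul_pow]
      congr 1
      field_simp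
      ring
    rw [h5]
    have h6 := mul_le_mul_of_nonneg_left h4 (by positivity : 0 ≤ r ^ s)
    refine le_trans (le_of_eq ?_) h6
    have h7 : r ^ s = r ^ (s - 1) * r := by
      rw [← pow_succ]
      congr 1
      omega
    rw [h7]
    field_simp
    ring
  have h8 := mul_le_mul_of_nonneg_left h3 hV.le
  have h9 : 0 ≤ VB k s * ((s : ℝ) ^ 2 * r ^ (s - 1)) := by positivity
  rw [abs_le]
  constructor
  · nlinarith
  · linarith

end Pool.Agent.U914.WP
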