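import Mathlib
import Pool.Agent.U914.WP.GF

/-! Almost all polynomials in Waring's problem: the main term. -/

set_option autoImplicit false

open Finset MeasureTheory

namespace Pool.Agent.U914.WP

theorem zz_near2 (s d : ℕ) (a : ℝ) (θ : Fin d → ℝ) (P : ℕ) (hP : 1 ≤ P) (x : Fin s → ℕ) (hx : x ∈ fbx s P) :
    |(zz s d a θ x : ℝ) - a * ∑ i, (x i : ℝ) ^ (d + 1)| ≤ s * (∑ j, |θ j| + 1) * (P : ℝ) ^ d := by
  have hPr : (1 : ℝ) ≤ P := by exact_mod_cast hP
  have h1 := zz_near s d a θ x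
  have h2 : Psi s d a θ x = a * ∑ i, (x i : ℝ) ^ (d + 1) + ∑ i, ∑ j : Fin d, θ j * (x i : ℝ) ^ ((j : ℕ) + 1) := by
    unfold Psi pf
    rw [sum_add_distrib, mul_sum]
  have h3 : |∑ i, ∑ j : Fin d, θ j * (x i : ℝ) ^ ((j : ℕ) + 1)| ≤ s * (∑ j, |θ j|) * (P : ℝ) ^ d := by
    calc |∑ i, ∑ j : Fin d, θ j * (x i : ℝ) ^ ((j : ℕ) + 1)| ≤ ∑ i, ∑ j : Fin d, |θ j * (x i : ℝ) ^ ((j : ℕ) + 1)| :=
          (abs_sum_le_sum_abs _ _).trans (sum_le_sum fun i _ => abs_sum_le_sum_abs _ _)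
      _ ≤ ∑ _i : Fin s, ∑ j : Fin d, |θ j| * (P : ℝ) ^ d := by
          apply sum_le_sum
          intro i _
          apply sum_le_sum
          intro j _
          rw [abs_mul]
          apply mul_le_mul_of_nonneg_left _ (abs_nonneg _)
          have h4 := (mem_fbx.1 hx i).2
          rw [abs_of_nonneg (by positivity)]
          calc (x i : ℝ) ^ ((j : ℕ) + 1) ≤ (P : ℝ) ^ ((j : ℕ) + 1) :=
                pow_le_pow_left₀ (Nat.cast_nonneg _) (by exact_mod_cast h4) _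
            _ ≤ _ := pow_le_pow_right₀ hPr (by have := j.2; omega)
      _ = _ := by
          rw [sum_const, card_univ, Fintype.card_fin, nsmul_eq_mul, ← sum_mul, mul_assoc]
  have h4 : (s : ℝ) ≤ s * (P : ℝ) ^ d := by
    have h5 : (1 : ℝ) ≤ (P : ℝ) ^ d := one_le_pow₀ hPr
    have h6 : (0 : ℝ) ≤ s := Nat.cast_nonneg s
    nlinarith
  have h7 := abs_le.1 h3
  rw [abs_le]
  constructor <;> linarith [h1.1, h1.2, h7.1, h7.2]

theorem mv (σ x y : ℝ) (hσ : 1 ≤ σ) (hx : 0 < x) (hy : 0 ≤ y) : x ^ σ + σ * x ^ (σ - 1) * (y - x) ≤ y ^ σ := by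
  have h1 : -1 ≤ y / x - 1 := by
    have : 0 ≤ y / x := by positivity
    linarith
  have h2 := one_add_mul_self_le_rpow_one_add h1 hσ
  have e1 : 1 + (y / x - 1) = y / x := by ring
  rw [e1, Real.div_rpow hy hx.le] at h2
  have hxs : 0 < x ^ σ := by positivity
  rw [le_div_iff₀ hxs] at h2
  refine le_trans (le_of_eq ?_) h2
  rw [Real.rpow_sub_one hx.ne']
  field_simp

/-- the number of lattice points, in terms of the value -/
theorem LC_y (k s P : ℕ) (hk : 1 ≤ k) (hs : 1 ≤ s) (a : ℝ) (ha : 0 < a) (y : ℝ) (hy : a * (s : ℝ) ^ k ≤ y)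
    (hyP : y ≤ a * (P : ℝ) ^ k) :
    |(((fbx s P).filter fun x => a * ∑ i, (x i : ℝ) ^ k ≤ y).card : ℝ) - VB k s * (y / a) ^ ((s : ℝ) / k)| ≤
      VB k s * ((s : ℝ) ^ 2 * (P : ℝ) ^ (s - 1)) := by
  have hsr : (1 : ℝ) ≤ s := by exact_mod_cast hs
  have hy0 : 0 < y := lt_of_lt_of_le (by positivity) hy
  have hya : 0 < y / a := by positivity
  set r : ℝ := (y / a) ^ ((k : ℝ)⁻¹) with hr
  have hr0 : 0 < r := by positivity
  have hrk : r ^ k = y / a := Real.rpow_inv_natCast_pow hya.le (by omega)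
  have h1 : ((fbx s P).filter fun x => a * ∑ i, (x i : ℝ) ^ k ≤ y).card = LC k s P r := by
    unfold LC
    congr 1
    apply filter_congr
    intro x _
    rw [hrk, le_div_iff₀ ha, mul_comm]
  have hsr2 : (s : ℝ) ≤ r := by
    apply le_of_pow_le_pow_left₀ (by omega : k ≠ 0) hr0.le
    rw [hrk, le_div_iff₀ ha, mul_comm]
    exact hy
  have hrP : r ≤ P := by
    apply le_of_pow_le_pow_left₀ (by omega : k ≠ 0) (Nat.cast_nonneg _)
    rw [hrk, div_le_iff₀ ha, mul_comm]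
    exact hyP
  have h2 := LC_near k s P hk hs r hsr2 hrP
  have h3 : r ^ s = (y / a) ^ ((s : ℝ) / k) := by
    rw [hr, ← Real.rpow_natCast, ← Real.rpow_mul hya.le]
    congr 1
    rw [div_eq_inv_mul]
  rw [h1, ← h3]
  refine h2.trans ?_
  apply mul_le_mul_of_nonneg_left _ (VB_pos k s).le
  apply mul_le_mul_of_nonneg_left _ (by positivity)
  exact pow_le_pow_left₀ hr0.le hrP _

/-- **The main term.** -/
theorem main_term (s d : ℕ) (a : ℝ) (ha : 0 < a) (θ : Fin d → ℝ) (hs : d + 1 ≤ s) (P h n : ℕ) (hh : 1 ≤ h)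
    (C : ℝ) (hC : 0 ≤ C)
    (hCz : ∀ x ∈ fbx s P, |(zz s d a θ x : ℝ) - a * ∑ i, (x i : ℝ) ^ (d + 1)| ≤ C)
    (hC1 : 2 * C + 1 ≤ h) (hn0 : (h : ℝ) + C + 1 ≤ n / 2) (hn1 : 2 * (n : ℝ) ≤ a * (P : ℝ) ^ (d + 1))
    (hn2 : 2 * (a * (s : ℝ) ^ (d + 1)) ≤ n) :
    |(((fbx s P).filter fun x => (n : ℤ) ≤ zz s d a θ x ∧ zz s d a θ x < (n : ℤ) + h).card : ℝ) / h -
        VB (d + 1) s * (((s : ℝ) / ((d + 1 : ℕ) : ℝ)) / a ^ ((s : ℝ) / ((d + 1 : ℕ) : ℝ))) *
          (n : ℝ) ^ ((s : ℝ) / ((d + 1 : ℕ) : ℝ) - 1)| ≤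
      VB (d + 1) s * (((s : ℝ) / ((d + 1 : ℕ) : ℝ)) / a ^ ((s : ℝ) / ((d + 1 : ℕ) : ℝ))) *
          (n : ℝ) ^ ((s : ℝ) / ((d + 1 : ℕ) : ℝ) - 1) *
        ((2 * C + 1) / h + 2 * (s * 2 ^ ((s : ℝ) / ((d + 1 : ℕ) : ℝ))) * ((h + C + 1) / n)) +
      2 * (VB (d + 1) s * ((s : ℝ) ^ 2 * (P : ℝ) ^ (s - 1))) / h := by
  classical
  set k : ℕ := d + 1 with hk
  set σ : ℝ := (s : ℝ) / (k : ℝ) with hσ
  have hk0 : (0 : ℝ) < k := by
    have : 0 < k := by omega
    exact_mod_cast this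
  have hk1 : (1 : ℝ) ≤ k := by
    have : 1 ≤ k := by omega
    exact_mod_cast this
  have hσ1 : 1 ≤ σ := by
    rw [hσ, le_div_iff₀ hk0, one_mul]
    exact_mod_cast hs
  have hσs : σ ≤ s := by
    rw [hσ]
    exact div_le_self (Nat.cast_nonneg _) hk1
  have hV := VB_pos k s
  have hhr : (1 : ℝ) ≤ h := by exact_mod_cast hh
  have hn3 : (0 : ℝ) < n := by linarith
  set Wn : ℝ := (((fbx s P).filter fun x => (n : ℤ) ≤ zz s d a θ x ∧ zz s d a θ x < (n : ℤ) + h).card : ℝ) with hWn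
  set E : ℝ := VB k s * ((s : ℝ) ^ 2 * (P : ℝ) ^ (s - 1)) with hE
  have hE0 : 0 ≤ E := by positivity
  set N : ℝ → ℝ := fun y => (((fbx s P).filter fun x => a * ∑ i, (x i : ℝ) ^ k ≤ y).card : ℝ) with hN
  have hs1 : 1 ≤ s := by omega
  have hNy : ∀ y : ℝ, (n : ℝ) / 2 ≤ y → y ≤ 2 * n → |N y - VB k s * (y / a) ^ σ| ≤ E := by
    intro y hy1 hy2
    exact LC_y k s P (by omega) hs1 a ha y (by linarith) (by linarith)
  -- upper bound
  have hup : Wn + N (n - C - 1) ≤ N (n + h + C) := by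
    rw [hWn, hN]
    simp only
    have h1 : Disjoint ((fbx s P).filter fun x => (n : ℤ) ≤ zz s d a θ x ∧ zz s d a θ x < (n : ℤ) + h)
        ((fbx s P).filter fun x => a * ∑ i, (x i : ℝ) ^ k ≤ n - C - 1) := by
      rw [disjoint_filter]
      rintro x hx ⟨h2, h3⟩ h4
      have h5 := abs_le.1 (hCz x hx)
      have h6 : (n : ℝ) ≤ zz s d a θ x := by exact_mod_cast h2
      linarith [h5.1, h5.2]
    rw [← Nat.cast_add, ← card_union_of_disjoint h1]
    apply Nat.cast_le.2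
    apply card_le_card
    intro x hx
    rw [mem_union, mem_filter, mem_filter] at hx
    rw [mem_filter]
    rcases hx with ⟨hx, h2, h3⟩ | ⟨hx, h4⟩
    · refine ⟨hx, ?_⟩
      have h5 := abs_le.1 (hCz x hx)
      have h6 : (zz s d a θ x : ℝ) < n + h := by exact_mod_cast h3
      linarith [h5.1, h5.2]
    · exact ⟨hx, by linarith⟩
  have hlo : N (n + h - C - 1) ≤ Wn + N (n + C) := by
    rw [hWn, hN]
    simp only
    suffices hsub : ((fbx s P).filter fun x => a * ∑ i, (x i : ℝ) ^ k ≤ n + h - C - 1) ⊆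
        ((fbx s P).filter fun x => (n : ℤ) ≤ zz s d a θ x ∧ zz s d a θ x < (n : ℤ) + h) ∪
        ((fbx s P).filter fun x => a * ∑ i, (x i : ℝ) ^ k ≤ n + C) by
      have h1 := (card_le_card hsub).trans (card_union_le _ _)
      exact_mod_cast h1
    intro x hx
    rw [mem_filter] at hx
    rw [mem_union, mem_filter, mem_filter]
    obtain ⟨hx, h2⟩ := hx
    have h5 := abs_le.1 (hCz x hx)
    rcases le_or_gt (a * ∑ i, (x i : ℝ) ^ k) ((n : ℝ) + C) with hc | hc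
    · exact Or.inr ⟨hx, hc⟩
    · left
      refine ⟨hx, ?_, ?_⟩
      · have h6 : (n : ℝ) < zz s d a θ x := by linarith [h5.1, h5.2]
        have h7 : (n : ℤ) < zz s d a θ x := by exact_mod_cast h6
        exact h7.le
      · have h6 : (zz s d a θ x : ℝ) < n + h := by linarith [h5.1, h5.2]
        exact_mod_cast h6
  have e1 := abs_le.1 (hNy (n - C - 1) (by linarith) (by linarith))
  have e2 := abs_le.1 (hNy (n + h + C) (by linarith) (by linarith))
  have e3 := abs_le.1 (hNy (n + h - C - 1) (by linarith) (by linarith))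
  have e4 := abs_le.1 (hNy (n + C) (by linarith) (by linarith))
  have haσ : 0 < a ^ σ := by positivity
  have hdiv : ∀ y : ℝ, 0 ≤ y → (y / a) ^ σ = y ^ σ / a ^ σ := fun y hy => Real.div_rpow hy ha.le σ
  rw [hdiv _ (by linarith)] at e1 e2 e3 e4
  set n' : ℝ := (n : ℝ) with hn'
  set h' : ℝ := (h : ℝ) with hh'
  have hnσ : 0 < n' ^ (σ - 1) := by positivity
  set Vs : ℝ := VB k s * (σ / a ^ σ) * n' ^ (σ - 1) with hVs
  have hVs0 : 0 < Vs := by positivity
  set u : ℝ := (2 * C + 1) / h' with hu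
  have hh0 : 0 < h' := by linarith
  have hu0 : 0 ≤ u := by positivity
  have hu1 : u ≤ 1 := by
    rw [hu, div_le_one hh0]
    exact hC1
  set t : ℝ := (h' + C + 1) / n' with ht
  have ht0 : 0 ≤ t := by positivity
  have ht1 : t ≤ 1 := by
    rw [ht, div_le_one hn3]
    linarith
  set K : ℝ := s * 2 ^ σ with hK
  have hK0 : 0 ≤ K := by positivity
  -- the upper estimate for the power
  have hpu : (n' + h' + C) ^ (σ - 1) ≤ n' ^ (σ - 1) * (1 + K * t) := by
    have h1 : n' + h' + C ≤ n' * (1 + t) := by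
      rw [ht, mul_add, mul_div_cancel₀ _ hn3.ne']
      linarith
    have h2 : (n' + h' + C) ^ (σ - 1) ≤ n' ^ (σ - 1) * (1 + t) ^ (σ - 1) := by
      rw [← Real.mul_rpow hn3.le (by linarith)]
      exact Real.rpow_le_rpow (by linarith) h1 (by linarith)
    refine h2.trans ?_
    apply mul_le_mul_of_nonneg_left _ hnσ.le
    have h3 := mv σ (1 + t) 1 hσ1 (by linarith) (by norm_num)
    rw [Real.one_rpow] at h3
    have h4 : (1 + t) ^ (σ - 1) ≤ 2 ^ σ := by
      calc (1 + t) ^ (σ - 1) ≤ (2 : ℝ) ^ (σ - 1) := Real.rpow_le_rpow (by linarith) (by linarith) (by linarith)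
        _ ≤ _ := Real.rpow_le_rpow_of_exponent_le (by norm_num) (by linarith)
    have h5 : σ * (1 + t) ^ (σ - 1) ≤ s * 2 ^ σ :=
      mul_le_mul hσs h4 (by positivity) (by positivity)
    have h6 := mul_le_mul_of_nonneg_right h5 ht0
    have h7 : (1 + t) ^ (σ - 1) ≤ (1 + t) ^ σ := Real.rpow_le_rpow_of_exponent_le (by linarith) (by linarith)
    rw [hK]
    linarith
  have hup2 : Wn ≤ VB k s / a ^ σ * ((n' + h' + C) ^ σ - (n' - C - 1) ^ σ) + 2 * E := by
    have : VB k s / a ^ σ * ((n' + h' + C) ^ σ - (n' - C - 1) ^ σ) =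
        VB k s * ((n' + h' + C) ^ σ / a ^ σ) - VB k s * ((n' - C - 1) ^ σ / a ^ σ) := by ring
    linarith [e1.1, e1.2, e2.1, e2.2]
  have hlo2 : VB k s / a ^ σ * ((n' + h' - C - 1) ^ σ - (n' + C) ^ σ) - 2 * E ≤ Wn := by
    have : VB k s / a ^ σ * ((n' + h' - C - 1) ^ σ - (n' + C) ^ σ) =
        VB k s * ((n' + h' - C - 1) ^ σ / a ^ σ) - VB k s * ((n' + C) ^ σ / a ^ σ) := by ring
    linarith [e3.1, e3.2, e4.1, e4.2]
  have hup3 : (n' + h' + C) ^ σ - (n' - C - 1) ^ σ ≤ σ * (n' ^ (σ - 1) * (1 + K * t)) * (h' * (1 + u)) := by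
    have h1 := mv σ (n' + h' + C) (n' - C - 1) (by linarith) (by linarith) (by linarith)
    have h2 : h' * (1 + u) = h' + 2 * C + 1 := by
      rw [hu, mul_add, mul_div_cancel₀ _ hh0.ne']
      ring
    have h3 : σ * (n' + h' + C) ^ (σ - 1) * (h' + 2 * C + 1) ≤ σ * (n' ^ (σ - 1) * (1 + K * t)) * (h' + 2 * C + 1) := by
      apply mul_le_mul_of_nonneg_right _ (by linarith)
      exact mul_le_mul_of_nonneg_left hpu (by linarith)
    rw [h2]
    linarith
  have hlo3 : σ * n' ^ (σ - 1) * (h' * (1 - u)) ≤ (n' + h' - C - 1) ^ σ - (n' + C) ^ σ := by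
    have h1 := mv σ (n' + C) (n' + h' - C - 1) (by linarith) (by linarith) (by linarith)
    have h2 : h' * (1 - u) = h' - 2 * C - 1 := by
      rw [hu, mul_sub, mul_div_cancel₀ _ hh0.ne']
      ring
    have h3 : σ * n' ^ (σ - 1) * (h' - 2 * C - 1) ≤ σ * (n' + C) ^ (σ - 1) * (h' - 2 * C - 1) := by
      apply mul_le_mul_of_nonneg_right _ (by linarith)
      apply mul_le_mul_of_nonneg_left _ (by linarith)
      exact Real.rpow_le_rpow hn3.le (by linarith) (by linarith)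
    rw [h2]
    linarith
  have hVa : 0 < VB k s / a ^ σ := by positivity
  have hW1 : Wn / h' ≤ Vs * ((1 + K * t) * (1 + u)) + 2 * E / h' := by
    rw [div_le_iff₀ hh0, add_mul, div_mul_cancel₀ _ hh0.ne']
    refine hup2.trans ?_
    have h1 := mul_le_mul_of_nonneg_left hup3 hVa.le
    have h2 : VB k s / a ^ σ * (σ * (n' ^ (σ - 1) * (1 + K * t)) * (h' * (1 + u))) = Vs * ((1 + K * t) * (1 + u)) * h' := by
      rw [hVs]
      ring
    linarith
  have hW2 : Vs * (1 - u) - 2 * E / h' ≤ Wn / h' := by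
    rw [le_div_iff₀ hh0, sub_mul, div_mul_cancel₀ _ hh0.ne']
    refine le_trans ?_ hlo2
    have h1 := mul_le_mul_of_nonneg_left hlo3 hVa.le
    have h2 : VB k s / a ^ σ * (σ * n' ^ (σ - 1) * (h' * (1 - u))) = Vs * (1 - u) * h' := by
      rw [hVs]
      ring
    linarith
  have hKt : 0 ≤ K * t := by positivity
  have h71 : K * t * u ≤ K * t * 1 := mul_le_mul_of_nonneg_left hu1 hKt
  have h7 : (1 + K * t) * (1 + u) ≤ 1 + u + 2 * K * t := by linarith
  have h8 := mul_le_mul_of_nonneg_left h7 hVs0.le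
  rw [abs_le]
  constructor
  · have h9 : 0 ≤ Vs * (2 * K * t) := by positivity
    linarith
  · linarith

end Pool.Agent.U914.WP
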