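import Mathlib
import Pool.Agent.U914.WP.CP

/-! Almost all polynomials in Waring's problem: the smoothed count at a large scale. -/

set_option autoImplicit false

open Finset MeasureTheory
open Pool.Agent.U518.WS (gg gg_nonneg gg_lower pow_sub_le pow_sub_ge)

namespace Pool.Agent.U914.WP

/-- **The number of solutions in a thick shell.** -/
theorem shell_count (r k P A w : ℕ) (hk : 1 ≤ k) (hP : 8 ≤ P) (hw : w ≤ P)
    (hA : 4 * (r * k * (4 * 8 ^ k) ^ (k - 1)) * A ≤ P) (hAP : A ≤ P)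
    (Z : ℝ) (hZ1 : 3 / 2 * (P : ℝ) ≤ Z) (hZ2 : Z ≤ 3 * P) :
    A ^ r * w ≤ ((bx (r + 1) k P).filter fun x =>
      |∑ i, (x i : ℝ) ^ k - ∑ i : Fin (r + 1), ((8 : ℝ) ^ (ef k i) * Z) ^ k| ≤ k * (4 * P) ^ (k - 1) * w).card := by
  have hP0 : (8 : ℝ) ≤ P := by exact_mod_cast hP
  obtain ⟨q, rfl⟩ : ∃ q, k = q + 1 := ⟨k - 1, by omega⟩
  have hZ0 : 0 ≤ Z := by linarith
  have hAP' : (A : ℝ) ≤ P := by exact_mod_cast hAP
  have hw' : (w : ℝ) ≤ P := by exact_mod_cast hw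
  set E : Fin (r + 1) → ℝ := fun i => (8 : ℝ) ^ (ef (q + 1) i) with hE
  have hE1 : ∀ i, 1 ≤ E i := fun i => one_le_pow₀ (by norm_num)
  have hE2 : ∀ i, E i ≤ 8 ^ (q + 1) := fun i => pow_le_pow_right₀ (by norm_num) (ef_le _ _)
  have hE0 : E 0 = 1 := by
    simp only [hE]
    rw [show ((0 : Fin (r + 1)) : ℕ) = 0 from rfl, ef_zero, pow_zero]
  -- the starting points
  set m : Fin r → ℕ := fun i => ⌈E i.succ * Z⌉₊ with hm
  set J : Fin r → Finset ℕ := fun i => Ico (m i) (m i + A) with hJ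
  have hv : ∀ i, ∀ n ∈ J i, E i.succ * Z ≤ (n : ℝ) ∧ (n : ℝ) ≤ E i.succ * Z + A := by
    intro i n hn
    rw [hJ] at hn
    simp only [mem_Ico] at hn
    have h1 : E i.succ * Z ≤ (m i : ℝ) := Nat.le_ceil _
    have h2 : (m i : ℝ) < E i.succ * Z + 1 := by
      apply Nat.ceil_lt_add_one
      have := hE1 i.succ
      positivity
    have h3 : (m i : ℝ) ≤ n := by exact_mod_cast hn.1
    have h4 : (n : ℝ) + 1 ≤ m i + A := by exact_mod_cast hn.2
    constructor <;> linarith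
  -- the remaining number
  set M : (Fin r → ℕ) → ℝ := fun b => ∑ i : Fin (r + 1), (E i * Z) ^ (q + 1) - ∑ i, (b i : ℝ) ^ (q + 1) with hM
  set R : (Fin r → ℕ) → ℝ := fun b => (M b) ^ (((q + 1 : ℕ) : ℝ)⁻¹) with hR
  have hMe : ∀ b, M b = Z ^ (q + 1) - ∑ i : Fin r, ((b i : ℝ) ^ (q + 1) - (E i.succ * Z) ^ (q + 1)) := by
    intro b
    simp only [hM]
    rw [Fin.sum_univ_succ, hE0, one_mul, sum_sub_distrib]
    ring
  have hMb : ∀ b ∈ Fintype.piFinset J, (5 / 4 * (P : ℝ)) ^ (q + 1) ≤ M b ∧ M b ≤ Z ^ (q + 1) := by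
    intro b hb
    rw [Fintype.mem_piFinset] at hb
    have h1 : ∀ i, 0 ≤ (b i : ℝ) ^ (q + 1) - (E i.succ * Z) ^ (q + 1) ∧
        (b i : ℝ) ^ (q + 1) - (E i.succ * Z) ^ (q + 1) ≤ (q + 1) * (4 * 8 ^ (q + 1) * P) ^ q * A := by
      intro i
      obtain ⟨h2, h3⟩ := hv i (b i) (hb i)
      have hEZ : 0 ≤ E i.succ * Z := mul_nonneg (by linarith [hE1 i.succ]) hZ0
      have h20 := pow_le_pow_left₀ hEZ h2 (q + 1)
      refine ⟨by linarith, ?_⟩
      have h4 := pow_sub_le q _ (E i.succ * Z) hEZ h2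
      have h51 : (b i : ℝ) ≤ 4 * 8 ^ (q + 1) * P := by
        have h52 : E i.succ * Z ≤ 8 ^ (q + 1) * (3 * P) := mul_le_mul (hE2 i.succ) hZ2 hZ0 (by positivity)
        have h53 : (P : ℝ) ≤ 8 ^ (q + 1) * P := le_mul_of_one_le_left (by linarith) (one_le_pow₀ (by norm_num))
        linarith
      have h5 : (b i : ℝ) ^ q ≤ (4 * 8 ^ (q + 1) * (P : ℝ)) ^ q :=
        pow_le_pow_left₀ (Nat.cast_nonneg _) h51 q
      refine h4.trans ?_
      apply mul_le_mul _ (by linarith) (by linarith) (by positivity)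
      exact mul_le_mul_of_nonneg_left h5 (by positivity)
    have h7 : 0 ≤ ∑ i : Fin r, ((b i : ℝ) ^ (q + 1) - (E i.succ * Z) ^ (q + 1)) := sum_nonneg fun i _ => (h1 i).1
    have h8 : ∑ i : Fin r, ((b i : ℝ) ^ (q + 1) - (E i.succ * Z) ^ (q + 1)) ≤
        (r : ℝ) * ((q + 1) * (4 * 8 ^ (q + 1) * P) ^ q * A) := by
      calc _ ≤ ∑ _i : Fin r, ((q + 1) * (4 * 8 ^ (q + 1) * (P : ℝ)) ^ q * A) := sum_le_sum fun i _ => (h1 i).2
        _ = _ := by rw [sum_const, card_univ, Fintype.card_fin, nsmul_eq_mul]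
    have h9 : (r : ℝ) * ((q + 1) * (4 * 8 ^ (q + 1) * P) ^ q * A) ≤ P ^ (q + 1) / 4 := by
      have h10 : (4 * (r * (q + 1) * (4 * 8 ^ (q + 1)) ^ q) * A : ℝ) ≤ P := by
        have := hA
        rw [Nat.add_sub_cancel] at this
        exact_mod_cast this
      have h11 : (0 : ℝ) ≤ (P : ℝ) ^ q := by positivity
      have h12 := mul_le_mul_of_nonneg_right h10 h11
      rw [mul_pow _ (P : ℝ) q]
      calc (r : ℝ) * ((q + 1) * ((4 * 8 ^ (q + 1)) ^ q * (P : ℝ) ^ q) * A) =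
            (4 * (r * (q + 1) * (4 * 8 ^ (q + 1)) ^ q) * A) * (P : ℝ) ^ q / 4 := by
            ring
        _ ≤ P * (P : ℝ) ^ q / 4 := by linarith
        _ = _ := by ring
    rw [hMe]
    constructor
    · have h14 := pow_sub_ge q (5 / 4 * (P : ℝ)) (1 / 4 * P) (by linarith) (by linarith)
      have h15 : (3 / 2 * (P : ℝ)) ^ (q + 1) ≤ Z ^ (q + 1) := pow_le_pow_left₀ (by linarith) hZ1 _
      have h16 : 5 / 4 * (P : ℝ) + 1 / 4 * P = 3 / 2 * P := by ring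
      rw [h16] at h14
      have h17 : (P : ℝ) ^ (q + 1) / 4 ≤ 1 / 4 * P * (5 / 4 * P) ^ q := by
        have h18 : (P : ℝ) ^ q ≤ (5 / 4 * P) ^ q := pow_le_pow_left₀ (by linarith) (by linarith) q
        calc (P : ℝ) ^ (q + 1) / 4 = 1 / 4 * P * P ^ q := by ring
          _ ≤ _ := mul_le_mul_of_nonneg_left h18 (by linarith)
      linarith
    · linarith
  have hRb : ∀ b ∈ Fintype.piFinset J, R b ^ (q + 1) = M b ∧ 5 / 4 * (P : ℝ) ≤ R b ∧ R b ≤ Z := by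
    intro b hb
    obtain ⟨h1, h2⟩ := hMb b hb
    have hM0 : 0 ≤ M b := le_trans (by positivity) h1
    have h3 : R b ^ (q + 1) = M b := by
      rw [hR]
      exact Real.rpow_inv_natCast_pow hM0 (by omega)
    have h4 : 0 ≤ R b := Real.rpow_nonneg hM0 _
    refine ⟨h3, ?_, ?_⟩
    · by_contra hcon
      push Not at hcon
      have := pow_lt_pow_left₀ hcon h4 (by omega : q + 1 ≠ 0)
      linarith
    · by_contra hcon
      push Not at hcon
      have := pow_lt_pow_left₀ hcon hZ0 (by omega : q + 1 ≠ 0)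
      linarith
  -- the injection
  set m0 : (Fin r → ℕ) → ℕ := fun b => ⌈R b⌉₊ with hm0
  have hcard : (Fintype.piFinset J ×ˢ range w).card = A ^ r * w := by
    rw [card_product, Fintype.card_piFinset, card_range]
    congr 1
    rw [hJ]
    simp
  rw [← hcard]
  apply card_le_card_of_injOn (fun p : (Fin r → ℕ) × ℕ => (Fin.cons (m0 p.1 + p.2) p.1 : Fin (r + 1) → ℕ))
  · rintro ⟨b, j⟩ hp
    rw [coe_product, Set.mem_prod] at hp
    obtain ⟨hb, hj⟩ := hp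
    have hb' : b ∈ Fintype.piFinset J := hb
    have hj' : j < w := mem_range.1 hj
    obtain ⟨hR1, hR2, hR3⟩ := hRb b hb'
    have h1 : R b ≤ (m0 b : ℝ) := Nat.le_ceil _
    have h2 : (m0 b : ℝ) < R b + 1 := by
      apply Nat.ceil_lt_add_one
      linarith
    have h3 : (j : ℝ) + 1 ≤ w := by exact_mod_cast hj'
    set v : ℝ := ((m0 b + j : ℕ) : ℝ) with hvdef
    have hv1 : R b ≤ v := by rw [hvdef]; push_cast; linarith [Nat.cast_nonneg (α := ℝ) j]
    have hv2 : v ≤ R b + w := by rw [hvdef]; push_cast; linarith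
    rw [mem_coe, mem_filter]
    constructor
    · unfold bx
      rw [Fintype.mem_piFinset]
      intro i
      refine Fin.cases ?_ (fun i => ?_) i
      · show m0 b + j ∈ IQ (8 ^ (ef (q + 1) ((0 : Fin (r + 1)) : ℕ)) * P)
        rw [show ((0 : Fin (r + 1)) : ℕ) = 0 from rfl, ef_zero, pow_zero, one_mul, mem_IQ]
        have h4 : ((P + 1 : ℕ) : ℝ) ≤ ((m0 b + j : ℕ) : ℝ) := by
          rw [← hvdef]; push_cast; linarith
        have h5 : ((m0 b + j : ℕ) : ℝ) ≤ ((4 * P : ℕ) : ℝ) := by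
          rw [← hvdef]; push_cast; linarith
        exact ⟨by exact_mod_cast h4, by exact_mod_cast h5⟩
      · show b i ∈ IQ (8 ^ (ef (q + 1) ((i.succ : Fin (r + 1)) : ℕ)) * P)
        rw [mem_IQ]
        rw [Fintype.mem_piFinset] at hb'
        obtain ⟨h5, h6⟩ := hv i (b i) (hb' i)
        have hEi := hE1 i.succ
        have hEe : ((8 ^ (ef (q + 1) ((i.succ : Fin (r + 1)) : ℕ)) : ℕ) : ℝ) = E i.succ := by
          simp only [hE]
          push_cast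
          rfl
        set Ei : ℝ := E i.succ with hEidef
        have hEP : (8 : ℝ) ≤ Ei * P := by nlinarith
        have h7 : 3 / 2 * (Ei * P) ≤ Ei * Z := by nlinarith
        have h8 : Ei * Z ≤ 3 * (Ei * P) := by nlinarith
        have h9 : (P : ℝ) ≤ Ei * P := le_mul_of_one_le_left (by linarith) hEi
        constructor
        · have h10 : ((8 ^ (ef (q + 1) ((i.succ : Fin (r + 1)) : ℕ)) * P + 1 : ℕ) : ℝ) ≤ ((b i : ℕ) : ℝ) := by
            rw [Nat.cast_add, Nat.cast_mul, hEe, Nat.cast_one]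
            linarith
          exact_mod_cast h10
        · have h10 : ((b i : ℕ) : ℝ) ≤ ((4 * (8 ^ (ef (q + 1) ((i.succ : Fin (r + 1)) : ℕ)) * P) : ℕ) : ℝ) := by
            rw [Nat.cast_mul, Nat.cast_mul, hEe, Nat.cast_ofNat]
            linarith
          exact_mod_cast h10
    · have h7 : ∑ i, (((Fin.cons (m0 b + j) b : Fin (r + 1) → ℕ) i : ℕ) : ℝ) ^ (q + 1) -
          ∑ i : Fin (r + 1), ((8 : ℝ) ^ (ef (q + 1) i) * Z) ^ (q + 1) = v ^ (q + 1) - R b ^ (q + 1) := by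
        rw [hR1]
        rw [Fin.sum_univ_succ (fun i => (((Fin.cons (m0 b + j) b : Fin (r + 1) → ℕ) i : ℕ) : ℝ) ^ (q + 1))]
        simp only [Fin.cons_zero, Fin.cons_succ]
        simp only [hM]
        ring
      rw [h7, Nat.add_sub_cancel]
      have hR0 : 0 ≤ R b := by linarith
      have h8 := pow_sub_le q v (R b) hR0 hv1
      have h9 : R b ^ (q + 1) ≤ v ^ (q + 1) := pow_le_pow_left₀ hR0 hv1 _
      rw [abs_of_nonneg (by linarith)]
      refine h8.trans ?_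
      have h10 : v ^ q ≤ (4 * (P : ℝ)) ^ q := pow_le_pow_left₀ (by linarith) (by linarith) q
      push_cast
      apply mul_le_mul _ (by linarith) (by linarith) (by positivity)
      exact mul_le_mul_of_nonneg_left h10 (by positivity)
  · rintro ⟨b, j⟩ _ ⟨b', j'⟩ _ he
    simp only at he
    have h1 : b = b' := by
      have := congrArg Fin.tail he
      simpa using this
    subst h1
    have h2 := congrFun he 0
    simp only [Fin.cons_zero] at h2
    have : j = j' := by omega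
    rw [this]

/-- the lower-order terms -/
theorem lower_terms (s d P : ℕ) (hP : 1 ≤ P) (a : ℝ) (θ : Fin d → ℝ) (M1 : ℝ) (hM1 : ∑ j, |θ j| ≤ M1)
    (x : Fin s → ℕ) (hx : x ∈ bx s (d + 1) P) :
    |Psi s d a θ x - a * ∑ i, (x i : ℝ) ^ (d + 1)| ≤ s * (M1 * (4 * 8 ^ (d + 1) * P) ^ d) := by
  have hPr : (1 : ℝ) ≤ P := by exact_mod_cast hP
  unfold bx at hx
  rw [Fintype.mem_piFinset] at hx
  have e : Psi s d a θ x - a * ∑ i, (x i : ℝ) ^ (d + 1) = ∑ i, ∑ j : Fin d, θ j * (x i : ℝ) ^ ((j : ℕ) + 1) := by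
    unfold Psi pf
    rw [sum_add_distrib, mul_sum]
    ring
  rw [e]
  calc |∑ i, ∑ j : Fin d, θ j * (x i : ℝ) ^ ((j : ℕ) + 1)| ≤ ∑ i, |∑ j : Fin d, θ j * (x i : ℝ) ^ ((j : ℕ) + 1)| :=
        abs_sum_le_sum_abs _ _
    _ ≤ ∑ _i : Fin s, M1 * (4 * 8 ^ (d + 1) * (P : ℝ)) ^ d := by
        apply sum_le_sum
        intro i _
        have hxi := (mem_IQ _ _).1 (hx i)
        have h1 : (1 : ℝ) ≤ x i := by
          have : 1 ≤ x i := by omega
          exact_mod_cast this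
        have h2 : (x i : ℝ) ≤ 4 * 8 ^ (d + 1) * P := by
          have h3 : 8 ^ (ef (d + 1) i) ≤ 8 ^ (d + 1) := Nat.pow_le_pow_right (by norm_num) (ef_le _ _)
          have h4 : x i ≤ 4 * 8 ^ (d + 1) * P := by
            refine hxi.2.trans ?_
            rw [mul_assoc]
            exact Nat.mul_le_mul_left 4 (Nat.mul_le_mul_right _ h3)
          exact_mod_cast h4
        calc |∑ j : Fin d, θ j * (x i : ℝ) ^ ((j : ℕ) + 1)| ≤ ∑ j : Fin d, |θ j * (x i : ℝ) ^ ((j : ℕ) + 1)| :=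
              abs_sum_le_sum_abs _ _
          _ ≤ ∑ j : Fin d, |θ j| * (4 * 8 ^ (d + 1) * (P : ℝ)) ^ d := by
              apply sum_le_sum
              intro j _
              rw [abs_mul, abs_of_nonneg (by positivity : (0 : ℝ) ≤ (x i : ℝ) ^ ((j : ℕ) + 1))]
              apply mul_le_mul_of_nonneg_left _ (abs_nonneg _)
              calc (x i : ℝ) ^ ((j : ℕ) + 1) ≤ (x i : ℝ) ^ d := pow_le_pow_right₀ h1 (by have := j.2; omega)
                _ ≤ _ := pow_le_pow_left₀ (by linarith) h2 d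
          _ = (∑ j : Fin d, |θ j|) * (4 * 8 ^ (d + 1) * (P : ℝ)) ^ d := by rw [sum_mul]
          _ ≤ _ := mul_le_mul_of_nonneg_right hM1 (by positivity)
    _ = _ := by rw [sum_const, card_univ, Fintype.card_fin, nsmul_eq_mul]

/-- **The lower bound for the smoothed count.** -/
theorem smooth_lower (r d P A w : ℕ) (hP : 8 ≤ P) (hw : w ≤ P) (hw1 : 1 ≤ w)
    (hA : 4 * (r * (d + 1) * (4 * 8 ^ (d + 1)) ^ d) * A ≤ P) (hAP : A ≤ P) (a : ℝ) (ha : 0 < a)
    (θ : Fin d → ℝ) (M1 : ℝ) (hM1 : ∑ j, |θ j| ≤ M1)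
    (hwM : ((r + 1 : ℕ) : ℝ) * (M1 * (4 * 8 ^ (d + 1)) ^ d) ≤ w)
    (Z : ℝ) (hZ1 : 3 / 2 * (P : ℝ) ≤ Z) (hZ2 : Z ≤ 3 * P) :
    Real.exp (-Real.pi) * (A : ℝ) ^ r / ((a * ((d + 1 : ℕ) * 4 ^ d) + 1) * (P : ℝ) ^ d) ≤
      ∑ x ∈ bx (r + 1) (d + 1) P, gg ((a * ((d + 1 : ℕ) * 4 ^ d) + 1) * (P : ℝ) ^ d * w)
        (Psi (r + 1) d a θ x - a * ∑ i : Fin (r + 1), ((8 : ℝ) ^ (ef (d + 1) i) * Z) ^ (d + 1)) := by
  have hP0 : (8 : ℝ) ≤ P := by exact_mod_cast hP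
  have hw0 : (1 : ℝ) ≤ w := by exact_mod_cast hw1
  set K : ℝ := a * ((d + 1 : ℕ) * 4 ^ d) + 1 with hK
  have hKp : 0 < K := by positivity
  set W : ℝ := K * (P : ℝ) ^ d * w with hW
  have hWp : 0 < W := by positivity
  set N : ℝ := a * ∑ i : Fin (r + 1), ((8 : ℝ) ^ (ef (d + 1) i) * Z) ^ (d + 1) with hN
  have h1 := shell_count r (d + 1) P A w (by omega) hP hw (by rw [Nat.add_sub_cancel]; exact hA) hAP Z hZ1 hZ2
  rw [Nat.add_sub_cancel] at h1
  set V := (bx (r + 1) (d + 1) P).filter fun x =>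
      |∑ i, (x i : ℝ) ^ (d + 1) - ∑ i : Fin (r + 1), ((8 : ℝ) ^ (ef (d + 1) i) * Z) ^ (d + 1)| ≤
        ((d + 1 : ℕ) : ℝ) * (4 * P) ^ d * w with hV
  have h2 : ((A ^ r * w : ℕ) : ℝ) ≤ (V.card : ℝ) := Nat.cast_le.2 h1
  have hVN : ∀ x ∈ V, |Psi (r + 1) d a θ x - N| ≤ W := by
    intro x hx
    rw [hV, mem_filter] at hx
    have h3 := lower_terms (r + 1) d P (by omega) a θ M1 hM1 x hx.1
    have h4 : |a * ∑ i, (x i : ℝ) ^ (d + 1) - N| ≤ a * (((d + 1 : ℕ) : ℝ) * (4 * P) ^ d * w) := by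
      rw [hN, ← mul_sub, abs_mul, abs_of_pos ha]
      exact mul_le_mul_of_nonneg_left hx.2 ha.le
    have h5 : |Psi (r + 1) d a θ x - N| ≤ |Psi (r + 1) d a θ x - a * ∑ i, (x i : ℝ) ^ (d + 1)| +
        |a * ∑ i, (x i : ℝ) ^ (d + 1) - N| := by
      have := abs_add_le (Psi (r + 1) d a θ x - a * ∑ i, (x i : ℝ) ^ (d + 1)) (a * ∑ i, (x i : ℝ) ^ (d + 1) - N)
      rwa [sub_add_sub_cancel] at this
    have h6 : ((r + 1 : ℕ) : ℝ) * (M1 * (4 * 8 ^ (d + 1) * P) ^ d) ≤ w * (P : ℝ) ^ d := by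
      rw [mul_pow _ (P : ℝ)]
      calc ((r + 1 : ℕ) : ℝ) * (M1 * ((4 * 8 ^ (d + 1)) ^ d * (P : ℝ) ^ d)) =
            (((r + 1 : ℕ) : ℝ) * (M1 * (4 * 8 ^ (d + 1)) ^ d)) * (P : ℝ) ^ d := by ring
        _ ≤ _ := mul_le_mul_of_nonneg_right hwM (by positivity)
    have h7 : W = a * (((d + 1 : ℕ) : ℝ) * (4 * P) ^ d * w) + w * (P : ℝ) ^ d := by
      rw [hW, hK, mul_pow 4 (P : ℝ)]
      ring
    rw [h7]
    linarith
  calc Real.exp (-Real.pi) * (A : ℝ) ^ r / (K * (P : ℝ) ^ d) =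
        ((A ^ r * w : ℕ) : ℝ) * (Real.exp (-Real.pi) / W) := by
        rw [hW]; push_cast; field_simp
    _ ≤ (V.card : ℝ) * (Real.exp (-Real.pi) / W) :=
        mul_le_mul_of_nonneg_right h2 (by positivity)
    _ = ∑ x ∈ V, Real.exp (-Real.pi) / W := by
        rw [sum_const, nsmul_eq_mul]
    _ ≤ ∑ x ∈ V, gg W (Psi (r + 1) d a θ x - N) :=
        sum_le_sum fun x hx => gg_lower W _ hWp (hVN x hx)
    _ ≤ _ := sum_le_sum_of_subset_of_nonneg (filter_subset _ _) fun n _ _ => gg_nonneg W _ hWp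

end Pool.Agent.U914.WP
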