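import Mathlib
import Pool.Agent.U914.WP.IN
import Pool.Agent.U914.WP.SH

/-! Almost all polynomials in Waring's problem: the number of representations by integer parts. -/

set_option autoImplicit false

open Finset MeasureTheory Complex
open Pool.Agent.U518.WS (ee ee_sum gg gg_nonneg gg_lower ms)

namespace Pool.Agent.U914.WP

theorem prod_bx_z (s d : ℕ) (a : ℝ) (θ : Fin d → ℝ) (P : ℕ) (α : ℝ) :
    ∏ i : Fin s, SS d a θ (8 ^ (ef (d + 1) i) * P) α = ∑ x ∈ bx s (d + 1) P, ee (α * (zz s d a θ x : ℝ)) := by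
  unfold SS bx
  rw [Finset.prod_univ_sum]
  apply sum_congr rfl
  intro x _
  unfold zz
  push_cast
  rw [mul_sum, ee_sum]

theorem prod_box_z (d k : ℕ) (a : ℝ) (θ : Fin d → ℝ) (P : ℕ) (α : ℝ) :
    ∏ i : Fin k, SS d a θ (8 ^ (i : ℕ) * P) α = ∑ x ∈ box k P, ee (α * (zz k d a θ x : ℝ)) := by
  unfold SS box
  rw [Finset.prod_univ_sum]
  apply sum_congr rfl
  intro x _
  unfold zz
  push_cast
  rw [mul_sum, ee_sum]

theorem bx_norm (d t : ℕ) (a : ℝ) (θ : Fin d → ℝ) (P : ℕ) (α : ℝ) :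
    ‖∑ x ∈ bx (2 * (d + 1) + t) (d + 1) P, ee (α * (zz (2 * (d + 1) + t) d a θ x : ℝ))‖ =
      ‖∑ x ∈ box (d + 1) P, ee (α * (zz (d + 1) d a θ x : ℝ))‖ ^ 2 * ‖SS d a θ P α‖ ^ t := by
  rw [← prod_bx_z, norm_prod, prod_ef (d + 1) t (fun i => ‖SS d a θ (8 ^ i * P) α‖), ← prod_box_z, norm_prod]
  simp

theorem bx_norm1 (d : ℕ) (a : ℝ) (θ : Fin d → ℝ) (P : ℕ) (α : ℝ) :
    ‖∑ x ∈ bx (d + 2) (d + 1) P, ee (α * (zz (d + 2) d a θ x : ℝ))‖ =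
      ‖∑ x ∈ box (d + 1) P, ee (α * (zz (d + 1) d a θ x : ℝ))‖ * ‖SS d a θ P α‖ := by
  rw [← prod_bx_z, norm_prod, ← prod_box_z, norm_prod]
  rw [Fin.prod_univ_castSucc]
  congr 1
  · apply prod_congr rfl
    intro i _
    have : ef (d + 1) ((Fin.castSucc i : Fin (d + 2)) : ℕ) = (i : ℕ) := by
      unfold ef
      rw [Fin.val_castSucc, if_pos i.2]
    rw [this]
  · have : ef (d + 1) ((Fin.last (d + 1) : Fin (d + 2)) : ℕ) = 0 := by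
      unfold ef
      rw [Fin.val_last, if_neg (by omega), if_pos (by omega)]
      omega
    rw [this, pow_zero, one_mul]

/-- the number of solutions in the shell, for the integer parts -/
theorem smooth_lower_z (r d P A w : ℕ) (hP : 8 ≤ P) (hw : w ≤ P) (hw1 : 1 ≤ w)
    (hA : 4 * (r * (d + 1) * (4 * 8 ^ (d + 1)) ^ d) * A ≤ P) (hAP : A ≤ P) (a : ℝ) (ha : 0 < a)
    (θ : Fin d → ℝ) (M1 : ℝ) (hM1 : ∑ j, |θ j| ≤ M1)
    (hwM : ((r + 1 : ℕ) : ℝ) * (M1 * (4 * 8 ^ (d + 1)) ^ d) + (r + 1 : ℕ) ≤ w)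
    (Z : ℝ) (hZ1 : 3 / 2 * (P : ℝ) ≤ Z) (hZ2 : Z ≤ 3 * P) :
    Real.exp (-Real.pi) * (A : ℝ) ^ r / ((a * ((d + 1 : ℕ) * 4 ^ d) + 1) * (P : ℝ) ^ d) ≤
      ∑ x ∈ bx (r + 1) (d + 1) P, gg ((a * ((d + 1 : ℕ) * 4 ^ d) + 1) * (P : ℝ) ^ d * w)
        ((zz (r + 1) d a θ x : ℝ) - a * ∑ i : Fin (r + 1), ((8 : ℝ) ^ (ef (d + 1) i) * Z) ^ (d + 1)) := by
  have hP0 : (8 : ℝ) ≤ P := by exact_mod_cast hP
  have hw0 : (1 : ℝ) ≤ w := by exact_mod_cast hw1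
  set K : ℝ := a * ((d + 1 : ℕ) * 4 ^ d) + 1 with hK
  have hKp : 0 < K := by positivity
  set W : ℝ := K * (P : ℝ) ^ d * w with hW
  have hWp : 0 < W := by positivity
  set N : ℝ := a * ∑ i : Fin (r + 1), ((8 : ℝ) ^ (ef (d + 1) i) * Z) ^ (d + 1) with hN
  have h1 := shell_count r (d + 1) P A w (by omega) hP hw (by rw [Nat.add_sub_cancel]; exact hA) hAP Z hZ1 hZ2
  rw [Nat.add_sub_cancel] at h1
  set V := (bx (r + 1) (d + 1) P).filter fun x =>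
      |∑ i, (x i : ℝ) ^ (d + 1) - ∑ i : Fin (r + 1), ((8 : ℝ) ^ (ef (d + 1) i) * Z) ^ (d + 1)| ≤
        ((d + 1 : ℕ) : ℝ) * (4 * P) ^ d * w with hV
  have h2 : ((A ^ r * w : ℕ) : ℝ) ≤ (V.card : ℝ) := Nat.cast_le.2 h1
  have hVN : ∀ x ∈ V, |(zz (r + 1) d a θ x : ℝ) - N| ≤ W := by
    intro x hx
    rw [hV, mem_filter] at hx
    have h3 := lower_terms (r + 1) d P (by omega) a θ M1 hM1 x hx.1
    have h4 : |a * ∑ i, (x i : ℝ) ^ (d + 1) - N| ≤ a * (((d + 1 : ℕ) : ℝ) * (4 * P) ^ d * w) := by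
      rw [hN, ← mul_sub, abs_mul, abs_of_pos ha]
      exact mul_le_mul_of_nonneg_left hx.2 ha.le
    have hz := zz_near (r + 1) d a θ x
    have h5 : |(zz (r + 1) d a θ x : ℝ) - N| ≤ |(zz (r + 1) d a θ x : ℝ) - Psi (r + 1) d a θ x| +
        |Psi (r + 1) d a θ x - a * ∑ i, (x i : ℝ) ^ (d + 1)| + |a * ∑ i, (x i : ℝ) ^ (d + 1) - N| := by
      have h6 := abs_add_le ((zz (r + 1) d a θ x : ℝ) - Psi (r + 1) d a θ x) (Psi (r + 1) d a θ x - N)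
      rw [sub_add_sub_cancel] at h6
      have h7 := abs_add_le (Psi (r + 1) d a θ x - a * ∑ i, (x i : ℝ) ^ (d + 1)) (a * ∑ i, (x i : ℝ) ^ (d + 1) - N)
      rw [sub_add_sub_cancel] at h7
      linarith
    have h8 : |(zz (r + 1) d a θ x : ℝ) - Psi (r + 1) d a θ x| ≤ ((r + 1 : ℕ) : ℝ) := by
      rw [abs_le]
      constructor <;> linarith [hz.1, hz.2, (Nat.cast_nonneg (r + 1) : (0 : ℝ) ≤ ((r + 1 : ℕ) : ℝ))]
    have h6 : ((r + 1 : ℕ) : ℝ) * (M1 * (4 * 8 ^ (d + 1) * P) ^ d) + ((r + 1 : ℕ) : ℝ) ≤ w * (P : ℝ) ^ d := by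
      have hPd : (1 : ℝ) ≤ (P : ℝ) ^ d := one_le_pow₀ (by linarith)
      rw [mul_pow _ (P : ℝ)]
      calc ((r + 1 : ℕ) : ℝ) * (M1 * ((4 * 8 ^ (d + 1)) ^ d * (P : ℝ) ^ d)) + ((r + 1 : ℕ) : ℝ) ≤
            ((r + 1 : ℕ) : ℝ) * (M1 * ((4 * 8 ^ (d + 1)) ^ d * (P : ℝ) ^ d)) + ((r + 1 : ℕ) : ℝ) * (P : ℝ) ^ d := by
            apply add_le_add le_rfl
            exact le_mul_of_one_le_right (Nat.cast_nonneg _) hPd
        _ = (((r + 1 : ℕ) : ℝ) * (M1 * (4 * 8 ^ (d + 1)) ^ d) + ((r + 1 : ℕ) : ℝ)) * (P : ℝ) ^ d := by ring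
        _ ≤ _ := mul_le_mul_of_nonneg_right hwM (by positivity)
    have h7 : W = a * (((d + 1 : ℕ) : ℝ) * (4 * P) ^ d * w) + w * (P : ℝ) ^ d := by
      rw [hW, hK, mul_pow 4 (P : ℝ)]
      ring
    rw [h7]
    linarith
  calc Real.exp (-Real.pi) * (A : ℝ) ^ r / (K * (P : ℝ) ^ d) =
        ((A ^ r * w : ℕ) : ℝ) * (Real.exp (-Real.pi) / W) := by
        rw [hW]; push_cast; field_simp
    _ ≤ (V.card : ℝ) * (Real.exp (-Real.pi) / W) :=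
        mul_le_mul_of_nonneg_right h2 (by positivity)
    _ = ∑ x ∈ V, Real.exp (-Real.pi) / W := by
        rw [sum_const, nsmul_eq_mul]
    _ ≤ ∑ x ∈ V, gg W ((zz (r + 1) d a θ x : ℝ) - N) :=
        sum_le_sum fun x hx => gg_lower W _ hWp (hVN x hx)
    _ ≤ _ := sum_le_sum_of_subset_of_nonneg (filter_subset _ _) fun n _ _ => gg_nonneg W _ hWp

/-- **The smoothed count and the parameters for one scale.** -/
theorem smooth_z (d : ℕ) (a : ℝ) (ha : 0 < a) (s : ℕ) (hs : 2 ≤ s) :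
    ∃ c0 : ℝ, 0 < c0 ∧ ∃ K : ℝ, 1 ≤ K ∧ ∀ M1 : ℝ, ∃ P0 : ℕ, ∀ P : ℕ, P0 ≤ P → ∀ θ : Fin d → ℝ, ∑ j, |θ j| ≤ M1 →
      ∃ W : ℝ, (P : ℝ) ^ d ≤ W ∧ W ≤ K * (P : ℝ) ^ (d : ℝ) * (P : ℝ) ^ ((1 : ℝ) / 8) ∧
      ∀ Z : ℝ, 3 / 2 * (P : ℝ) ≤ Z → Z ≤ 3 * P →
        c0 * (P : ℝ) ^ ((s : ℝ) - ((d + 1 : ℕ) : ℝ)) ≤
          ∑ x ∈ bx s (d + 1) P, gg W ((zz s d a θ x : ℝ) - a * ∑ i : Fin s, ((8 : ℝ) ^ (ef (d + 1) i) * Z) ^ (d + 1)) := by
  obtain ⟨r, rfl⟩ : ∃ r, s = r + 1 := ⟨s - 1, by omega⟩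
  have hr : 1 ≤ r := by omega
  set k := d + 1 with hk
  set D : ℕ := 4 * (r * k * (4 * 8 ^ k) ^ d) with hD
  have hDpos : 0 < D := by rw [hD]; positivity
  have hD0 : (0 : ℝ) < D := by exact_mod_cast hDpos
  set K : ℝ := a * ((k : ℕ) * 4 ^ d) + 1 with hK
  have hKp : 0 < K := by positivity
  have hK1 : 1 ≤ K := by
    have : 0 ≤ a * ((k : ℕ) * 4 ^ d) := by positivity
    rw [hK]; linarith
  set c0 : ℝ := Real.exp (-Real.pi) / ((2 * D) ^ r * K) with hc0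
  have hc0p : 0 < c0 := by positivity
  refine ⟨c0, hc0p, K, hK1, fun M1 => ?_⟩
  have hev3 : ∀ᶠ P : ℕ in Filter.atTop, ((r + 1 : ℕ) : ℝ) * (M1 * (4 * 8 ^ k) ^ d) + ((r + 1 : ℕ) : ℝ) + 1 ≤
      (P : ℝ) ^ ((1 : ℝ) / 8) :=
    ((tendsto_rpow_atTop (by norm_num : (0 : ℝ) < 1 / 8)).comp
      tendsto_natCast_atTop_atTop).eventually_ge_atTop _
  obtain ⟨P0, hP0⟩ := Filter.eventually_atTop.1
    (hev3.and ((Filter.eventually_ge_atTop 8).and (Filter.eventually_ge_atTop (2 * D))))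
  refine ⟨P0, fun P hP θ hθ => ?_⟩
  obtain ⟨he3, hP8, hPD⟩ := hP0 P hP
  have hPr : (8 : ℝ) ≤ P := by exact_mod_cast hP8
  have hPp : (0 : ℝ) < P := by linarith
  have hP1 : (1 : ℝ) ≤ P := by linarith
  set w : ℕ := ⌊(P : ℝ) ^ ((1 : ℝ) / 8)⌋₊ with hw
  have hwle : (w : ℝ) ≤ (P : ℝ) ^ ((1 : ℝ) / 8) := Nat.floor_le (by positivity)
  have hwM : ((r + 1 : ℕ) : ℝ) * (M1 * (4 * 8 ^ k) ^ d) + ((r + 1 : ℕ) : ℝ) ≤ w := by
    have := Nat.lt_floor_add_one ((P : ℝ) ^ ((1 : ℝ) / 8))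
    rw [← hw] at this
    linarith
  have hw1 : 1 ≤ w := by
    rw [hw, Nat.one_le_floor_iff]
    exact Real.one_le_rpow hP1 (by norm_num)
  have hwP : w ≤ P := by
    have : (w : ℝ) ≤ P := hwle.trans (by
      calc (P : ℝ) ^ ((1 : ℝ) / 8) ≤ (P : ℝ) ^ (1 : ℝ) := Real.rpow_le_rpow_of_exponent_le hP1 (by norm_num)
        _ = P := Real.rpow_one _)
    exact_mod_cast this
  have hw0 : (1 : ℝ) ≤ w := by exact_mod_cast hw1
  have hPd0 : (0 : ℝ) ≤ (P : ℝ) ^ d := by positivity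
  refine ⟨K * (P : ℝ) ^ d * w, ?_, ?_, fun Z hZ1 hZ2 => ?_⟩
  · calc (P : ℝ) ^ d = 1 * (P : ℝ) ^ d * 1 := by ring
      _ ≤ K * (P : ℝ) ^ d * w := by
          apply mul_le_mul (mul_le_mul_of_nonneg_right hK1 hPd0) hw0 (by norm_num) (by positivity)
  · rw [Real.rpow_natCast]
    exact mul_le_mul_of_nonneg_left hwle (by positivity)
  · set Q : ℝ := (P : ℝ) ^ ((((r + 1 : ℕ) : ℝ)) - k) with hQ
    have hQp : 0 < Q := Real.rpow_pos_of_pos hPp _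
    have hkr : (k : ℝ) = d + 1 := by rw [hk]; push_cast; ring
    set A : ℕ := P / D with hA
    have hA1 : D * A ≤ P := Nat.mul_div_le P D
    have hA2 : A ≤ P := Nat.div_le_self P D
    have hA3 : (P : ℝ) / (2 * D) ≤ A := by
      have h1 : P < D * (A + 1) := by
        rw [hA]
        exact Nat.lt_mul_div_succ P hDpos
      have h2 : (P : ℝ) < D * (A + 1) := by exact_mod_cast h1
      have h3 : (2 * (D : ℝ)) ≤ P := by exact_mod_cast hPD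
      rw [div_le_iff₀ (by positivity)]
      nlinarith
    have hlow := smooth_lower_z r d P A w hP8 hwP hw1 (by rw [← hk, ← hD]; exact hA1) hA2 a ha θ M1 hθ hwM Z hZ1 hZ2
    refine le_trans ?_ hlow
    have h4 : ((P : ℝ) / (2 * D)) ^ r ≤ (A : ℝ) ^ r := pow_le_pow_left₀ (by positivity) hA3 r
    have h5 : Q = (P : ℝ) ^ r / (P : ℝ) ^ d := by
      rw [hQ, ← Real.rpow_natCast, ← Real.rpow_natCast, ← Real.rpow_sub hPp, hkr]
      congr 1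
      push_cast
      ring
    calc c0 * Q = Real.exp (-Real.pi) * ((P : ℝ) / (2 * D)) ^ r / (K * (P : ℝ) ^ d) := by
          rw [h5, hc0, div_pow]
          field_simp
      _ ≤ _ := by
          apply div_le_div_of_nonneg_right _ (by positivity)
          exact mul_le_mul_of_nonneg_left h4 (Real.exp_pos _).le

/-- the Gaussian tail is negligible -/
theorem tail_small (k s : ℕ) (c : ℝ) (hc : 0 < c) : ∀ᶠ P : ℕ in Filter.atTop, ∀ W : ℝ, (P : ℝ) ≤ W →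
    (3 * 8 ^ k * (P : ℝ)) ^ s * (2 / W * Real.exp (-(W * (1 / 2)) ^ 2)) ≤ c * (P : ℝ) ^ (-(1 : ℝ)) := by
  set C : ℝ := (3 * 8 ^ k) ^ s * (2 * ((s.succ.factorial : ℝ) * 4 ^ (s + 1))) with hC
  have hCp : 0 < C := by positivity
  have hev : ∀ᶠ P : ℕ in Filter.atTop, (P : ℝ) ^ (-(1 : ℝ)) ≤ c / C :=
    ((tendsto_rpow_neg_atTop (by norm_num : (0 : ℝ) < 1)).comp tendsto_natCast_atTop_atTop).eventually_le_const
      (by positivity)
  filter_upwards [hev, Filter.eventually_ge_atTop 1] with P he hP1 W hW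
  have hPr : (1 : ℝ) ≤ P := by exact_mod_cast hP1
  have hPp : (0 : ℝ) < P := by linarith
  have hWp : 0 < W := by linarith
  set y : ℝ := (W * (1 / 2)) ^ 2 with hy
  have hy1 : (P : ℝ) ^ 2 / 4 ≤ y := by
    have : (P : ℝ) ^ 2 ≤ W ^ 2 := pow_le_pow_left₀ hPp.le hW 2
    rw [hy]; nlinarith
  have hy0 : 0 < y := lt_of_lt_of_le (by positivity) hy1
  have h1 : Real.exp (-y) ≤ (s + 1).factorial / y ^ (s + 1) := by
    rw [Real.exp_neg, inv_eq_one_div, div_le_div_iff₀ (Real.exp_pos _) (by positivity), one_mul]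
    have := Real.pow_div_factorial_le_exp y hy0.le (s + 1)
    rw [div_le_iff₀ (by positivity)] at this
    linarith
  have h2 : ((s + 1).factorial : ℝ) / y ^ (s + 1) ≤ (s + 1).factorial * 4 ^ (s + 1) / ((P : ℝ) ^ 2) ^ (s + 1) := by
    rw [div_le_div_iff₀ (by positivity) (by positivity)]
    have h3 : ((P : ℝ) ^ 2 / 4) ^ (s + 1) ≤ y ^ (s + 1) := pow_le_pow_left₀ (by positivity) hy1 _
    rw [div_pow, div_le_iff₀ (by positivity)] at h3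
    nlinarith [mul_le_mul_of_nonneg_left h3 (by positivity : (0 : ℝ) ≤ (s + 1).factorial)]
  have h4 : 2 / W ≤ 2 := by
    rw [div_le_iff₀ hWp]
    linarith
  calc (3 * 8 ^ k * (P : ℝ)) ^ s * (2 / W * Real.exp (-y)) ≤
        (3 * 8 ^ k * (P : ℝ)) ^ s * (2 * ((s + 1).factorial * 4 ^ (s + 1) / ((P : ℝ) ^ 2) ^ (s + 1))) := by
        apply mul_le_mul_of_nonneg_left _ (by positivity)
        exact mul_le_mul h4 (h1.trans h2) (Real.exp_pos _).le (by norm_num)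
    _ = C * ((P : ℝ) ^ s / ((P : ℝ) ^ 2) ^ (s + 1)) := by
        rw [hC, mul_pow _ (P : ℝ)]
        ring
    _ ≤ C * ((P : ℝ) ^ (-(1 : ℝ)) * (P : ℝ) ^ (-(1 : ℝ))) := by
        apply mul_le_mul_of_nonneg_left _ hCp.le
        rw [Real.rpow_neg_one, ← mul_inv, ← one_div, div_le_div_iff₀ (by positivity) (by positivity), one_mul,
          ← pow_mul, ← sq, ← pow_add]
        exact pow_le_pow_right₀ hPr (by omega)
    _ ≤ C * (c / C * (P : ℝ) ^ (-(1 : ℝ))) := by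
        apply mul_le_mul_of_nonneg_left _ hCp.le
        exact mul_le_mul_of_nonneg_right he (by positivity)
    _ = _ := by field_simp

/-- **The core estimate for one scale, integer parts.** -/
theorem core_z (d t : ℕ) (hd : 1 ≤ d) (ht : 1 ≤ t) (a : ℝ) (ha : 0 < a) (η : ℝ) (hη : 0 < η) :
    ∃ c : ℝ, 0 < c ∧ ∀ M1 : ℝ, ∃ P0 : ℕ, ∀ P : ℕ, P0 ≤ P → ∀ θ : Fin d → ℝ, ∑ j, |θ j| ≤ M1 →
      YY t d a P ((P : ℝ) ^ ((1 : ℝ) / 2 - ((d + 1 : ℕ) : ℝ))) θ ≤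
        ENNReal.ofReal ((P : ℝ) ^ (((d + 1 : ℕ) : ℝ) + t - η)) →
      ∀ Z : ℝ, 3 / 2 * (P : ℝ) ≤ Z → Z ≤ 3 * P → ∀ n : ℤ,
        (n : ℝ) = a * ∑ i : Fin (2 * (d + 1) + t), ((8 : ℝ) ^ (ef (d + 1) i) * Z) ^ (d + 1) →
        c * (P : ℝ) ^ (((d + 1 : ℕ) : ℝ) + t) ≤
          (((bx (2 * (d + 1) + t) (d + 1) P).filter fun x => zz (2 * (d + 1) + t) d a θ x = n).card : ℝ) := by
  have hpi := Real.pi_pos
  set s := 2 * (d + 1) + t with hs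
  obtain ⟨c0, hc0, K, hK1, hsm⟩ := smooth_z d a ha s (by omega)
  set k := d + 1 with hk
  have hkr : (k : ℝ) = d + 1 := by rw [hk]; push_cast; ring
  have hsr : (s : ℝ) = 2 * k + t := by rw [hs]; push_cast; ring
  set C2 : ℝ := 2 * Real.pi * K ^ 2 * (3 * 8 ^ k) ^ s with hC2
  have hC2p : 0 < C2 := by positivity
  refine ⟨c0 / 4, by positivity, fun M1 => ?_⟩
  obtain ⟨P1, hP1⟩ := hsm M1
  have hev1 : ∀ᶠ P : ℕ in Filter.atTop, (P : ℝ) ^ (-η) ≤ c0 / 4 :=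
    ((tendsto_rpow_neg_atTop hη).comp tendsto_natCast_atTop_atTop).eventually_le_const (by positivity)
  have hev2 : ∀ᶠ P : ℕ in Filter.atTop, (P : ℝ) ^ (-(1 / 4 : ℝ)) ≤ c0 / (4 * C2) :=
    ((tendsto_rpow_neg_atTop (by norm_num : (0 : ℝ) < 1 / 4)).comp
      tendsto_natCast_atTop_atTop).eventually_le_const (by positivity)
  obtain ⟨P0, hP0⟩ := Filter.eventually_atTop.1
    ((hev1.and hev2).and ((tail_small k s (c0 / 4) (by positivity)).and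
      ((Filter.eventually_ge_atTop 8).and (Filter.eventually_ge_atTop P1))))
  refine ⟨P0, fun P hP θ hθ hY Z hZ1 hZ2 n hn => ?_⟩
  obtain ⟨⟨he1, he2⟩, he3, hP8, hPP1⟩ := hP0 P hP
  have hPr : (8 : ℝ) ≤ P := by exact_mod_cast hP8
  have hPp : (0 : ℝ) < P := by linarith
  have hPr1 : (1 : ℝ) ≤ P := by linarith
  obtain ⟨W, hW1, hW2, hlow⟩ := hP1 P hPP1 θ hθ
  have hS := hlow Z hZ1 hZ2
  rw [← hn] at hS
  have hPd : (P : ℝ) ≤ (P : ℝ) ^ d := le_self_pow₀ hPr1 (by omega)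
  have hWP : (P : ℝ) ≤ W := hPd.trans hW1
  have hWp : 0 < W := by linarith
  set T : ℝ := (P : ℝ) ^ ((1 : ℝ) / 2 - (k : ℝ)) with hT
  have hTp : 0 < T := Real.rpow_pos_of_pos hPp _
  have hk2 : (2 : ℝ) ≤ k := by
    have : 2 ≤ k := by omega
    exact_mod_cast this
  have hT1 : T ≤ 1 / 2 := by
    have h1 : T ≤ (P : ℝ) ^ (-(1 : ℝ)) := Real.rpow_le_rpow_of_exponent_le hPr1 (by linarith)
    rw [Real.rpow_neg_one] at h1
    have h2 : ((P : ℝ))⁻¹ ≤ (2 : ℝ)⁻¹ := inv_anti₀ (by norm_num) (by linarith)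
    linarith
  have hcmp := compare_int (bx s k P) (fun x => zz s d a θ x) n W T hWp hTp hT1
  have hYe : (∫⁻ α in {α : ℝ | T ≤ |α|} ∩ Set.Icc (-(1 / 2) : ℝ) (1 / 2),
      ENNReal.ofReal ‖∑ x ∈ bx s k P, ee (α * (zz s d a θ x : ℝ))‖) = YY t d a P T θ := by
    unfold YY
    apply lintegral_congr
    intro α
    rw [hs, hk, bx_norm d t a θ P α]
  rw [hYe] at hcmp
  set Q : ℝ := (P : ℝ) ^ ((k : ℝ) + t) with hQ
  have hQp : 0 < Q := Real.rpow_pos_of_pos hPp _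
  have hQs : (P : ℝ) ^ ((s : ℝ) - (k : ℝ)) = Q := by
    rw [hQ, hsr]
    congr 1
    ring
  rw [hQs] at hS
  have hcard := card_bx_le s k P
  -- the three errors
  have hE1 : (P : ℝ) ^ ((k : ℝ) + t - η) ≤ c0 / 4 * Q := by
    have : (P : ℝ) ^ ((k : ℝ) + t - η) = (P : ℝ) ^ (-η) * Q := by
      rw [hQ, ← Real.rpow_add hPp]
      congr 1
      ring
    rw [this]
    exact mul_le_mul_of_nonneg_right he1 hQp.le
  have hE2 : 2 * Real.pi * W ^ 2 * T ^ 3 * ((bx s k P).card : ℝ) ≤ c0 / 4 * Q := by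
    have h4 : W ^ 2 ≤ K ^ 2 * (((P : ℝ) ^ (d : ℝ)) ^ 2 * (P : ℝ) ^ ((1 : ℝ) / 4)) := by
      have h5 : ((P : ℝ) ^ ((1 : ℝ) / 8)) ^ 2 = (P : ℝ) ^ ((1 : ℝ) / 4) := by
        rw [← Real.rpow_natCast, ← Real.rpow_mul hPp.le]
        congr 1
        push_cast
        norm_num
      calc W ^ 2 ≤ (K * (P : ℝ) ^ (d : ℝ) * (P : ℝ) ^ ((1 : ℝ) / 8)) ^ 2 := pow_le_pow_left₀ hWp.le hW2 2
        _ = K ^ 2 * (((P : ℝ) ^ (d : ℝ)) ^ 2 * ((P : ℝ) ^ ((1 : ℝ) / 8)) ^ 2) := by ring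
        _ = _ := by rw [h5]
    have h5 : ((P : ℝ) ^ (d : ℝ)) ^ 2 * (P : ℝ) ^ ((1 : ℝ) / 4) * T ^ 3 * (P : ℝ) ^ s =
        (P : ℝ) ^ (-(1 / 4 : ℝ)) * Q := by
      rw [hT, hQ, ← Real.rpow_natCast, ← Real.rpow_natCast, ← Real.rpow_natCast, ← Real.rpow_mul hPp.le,
        ← Real.rpow_mul hPp.le, ← Real.rpow_add hPp, ← Real.rpow_add hPp, ← Real.rpow_add hPp,
        ← Real.rpow_add hPp, hsr, hkr]
      congr 1
      push_cast
      ring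
    calc 2 * Real.pi * W ^ 2 * T ^ 3 * ((bx s k P).card : ℝ) ≤
          2 * Real.pi * (K ^ 2 * (((P : ℝ) ^ (d : ℝ)) ^ 2 * (P : ℝ) ^ ((1 : ℝ) / 4))) * T ^ 3 * (3 * 8 ^ k * P) ^ s := by
          apply mul_le_mul _ hcard (Nat.cast_nonneg _) (by positivity)
          apply mul_le_mul_of_nonneg_right _ (by positivity)
          exact mul_le_mul_of_nonneg_left h4 (by positivity)
      _ = C2 * (((P : ℝ) ^ (d : ℝ)) ^ 2 * (P : ℝ) ^ ((1 : ℝ) / 4) * T ^ 3 * (P : ℝ) ^ s) := by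
          rw [hC2, mul_pow _ (P : ℝ)]
          ring
      _ = C2 * ((P : ℝ) ^ (-(1 / 4 : ℝ)) * Q) := by rw [h5]
      _ ≤ C2 * (c0 / (4 * C2) * Q) := by
          apply mul_le_mul_of_nonneg_left _ hC2p.le
          exact mul_le_mul_of_nonneg_right he2 hQp.le
      _ = c0 / 4 * Q := by field_simp
  have hE3 : ((bx s k P).card : ℝ) * (2 / W * Real.exp (-(W * (1 / 2)) ^ 2)) ≤ c0 / 4 * Q := by
    have h1 := he3 W hWP
    have h2 : ((bx s k P).card : ℝ) * (2 / W * Real.exp (-(W * (1 / 2)) ^ 2)) ≤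
        (3 * 8 ^ k * P) ^ s * (2 / W * Real.exp (-(W * (1 / 2)) ^ 2)) :=
      mul_le_mul_of_nonneg_right hcard (by positivity)
    have h3 : (P : ℝ) ^ (-(1 : ℝ)) ≤ Q := Real.rpow_le_rpow_of_exponent_le hPr1 (by
      have : (0 : ℝ) ≤ t := Nat.cast_nonneg t
      linarith)
    exact h2.trans (h1.trans (mul_le_mul_of_nonneg_left h3 (by positivity)))
  have h6 := hcmp.trans (add_le_add (add_le_add hY (ENNReal.ofReal_le_ofReal hE2)) (ENNReal.ofReal_le_ofReal hE3))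
  rw [← ENNReal.ofReal_add (by positivity) (by positivity), ← ENNReal.ofReal_add (by positivity) (by positivity)] at h6
  have h7 := (ENNReal.ofReal_le_ofReal_iff (by positivity)).1 h6
  have h8 := (abs_le.1 h7).1
  linarith

end Pool.Agent.U914.WP
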