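import Mathlib
import Pool.Agent.U914.WP.IC

/-! Almost all polynomials in Waring's problem, integer parts: the theorem. -/

set_option autoImplicit false

open Finset MeasureTheory
open Pool.Agent.U518.WS (ms)

namespace Pool.Agent.U914.WP

/-- from a property of almost every point of each unit cube to almost every point -/
theorem ae_cubes (d : ℕ) (p : (Fin d → ℝ) → Prop)
    (h : ∀ m : Fin d → ℝ, ∀ᵐ t : Fin d → ℝ, (∀ i, t i ∈ Set.Ioc (0 : ℝ) 1) → p (m + t)) : ∀ᵐ θ : Fin d → ℝ, p θ := by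
  have h1 : ∀ m : Fin d → ℤ, ∀ᵐ θ : Fin d → ℝ, (∀ i, (θ - fun i => (m i : ℝ)) i ∈ Set.Ioc (0 : ℝ) 1) →
      p ((fun i => (m i : ℝ)) + (θ - fun i => (m i : ℝ))) := fun m =>
    (measurePreserving_sub_right (volume : Measure (Fin d → ℝ)) (fun i => (m i : ℝ))).quasiMeasurePreserving.ae
      (h fun i => (m i : ℝ))
  rw [← ae_all_iff] at h1
  filter_upwards [h1] with θ hθ
  set m : Fin d → ℤ := fun i => ⌈θ i⌉ - 1 with hm
  have hmem : ∀ i, (θ - fun i => (m i : ℝ)) i ∈ Set.Ioc (0 : ℝ) 1 := by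
    intro i
    simp only [Pi.sub_apply, hm]
    have h2 := Int.le_ceil (θ i)
    have h3 := Int.ceil_lt_add_one (θ i)
    push_cast
    constructor <;> linarith
  have h2 := hθ m hmem
  rw [add_sub_cancel] at h2
  exact h2

/-- a scale for each large number -/
theorem scale (k s : ℕ) (hk : 2 ≤ k) (hs : 1 ≤ s) (a : ℝ) (ha : 0 < a) (ν1 : ℕ) (N : ℝ)
    (hN : a * (∑ i : Fin s, ((8 : ℝ) ^ (ef k i)) ^ k) * (3 * 2 ^ ν1) ^ k ≤ N) :
    ∃ ν : ℕ, ν1 ≤ ν ∧ ∃ Z : ℝ, 3 / 2 * (((2 ^ ν : ℕ) : ℝ)) ≤ Z ∧ Z ≤ 3 * ((2 ^ ν : ℕ) : ℝ) ∧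
      a * ∑ i : Fin s, ((8 : ℝ) ^ (ef k i) * Z) ^ k = N ∧
      Z = (N / (a * ∑ i : Fin s, ((8 : ℝ) ^ (ef k i)) ^ k)) ^ ((k : ℝ)⁻¹) := by
  set S8 : ℝ := ∑ i : Fin s, ((8 : ℝ) ^ (ef k i)) ^ k with hS8
  have hS8p : 0 < S8 := by
    have : Nonempty (Fin s) := ⟨⟨0, by omega⟩⟩
    exact sum_pos (fun i _ => by positivity) univ_nonempty
  have haS : 0 < a * S8 := by positivity
  have hNp : 0 < N := lt_of_lt_of_le (by positivity) hN
  set Z : ℝ := (N / (a * S8)) ^ ((k : ℝ)⁻¹) with hZ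
  have hZ0 : 0 ≤ Z := by positivity
  have hZk : Z ^ k = N / (a * S8) := Real.rpow_inv_natCast_pow (by positivity) (by omega)
  have hNZ : a * S8 * Z ^ k = N := by rw [hZk]; field_simp
  have hNZ' : a * ∑ i : Fin s, ((8 : ℝ) ^ (ef k i) * Z) ^ k = N := by
    rw [← hNZ, hS8, mul_assoc, sum_mul]
    congr 1
    exact sum_congr rfl fun i _ => by rw [mul_pow _ Z]
  have hZge : 3 * (2 : ℝ) ^ ν1 ≤ Z := by
    by_contra hcon
    push Not at hcon
    have h1 := pow_lt_pow_left₀ hcon hZ0 (by omega : k ≠ 0)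
    have h2 : a * S8 * Z ^ k < a * S8 * (3 * 2 ^ ν1) ^ k := mul_lt_mul_of_pos_left h1 haS
    linarith
  have h2ν1 : (1 : ℝ) ≤ 2 ^ ν1 := one_le_pow₀ (by norm_num)
  obtain ⟨ν, hνa, hνb⟩ := exists_nat_pow_near (x := Z * (2 / 3)) (y := 2) (by linarith) (by norm_num)
  have hν : ν1 ≤ ν := by
    have h1 : (2 : ℝ) ^ ν1 < 2 ^ (ν + 1) := by linarith
    have h2 : ν1 < ν + 1 := (pow_lt_pow_iff_right₀ (by norm_num : (1 : ℝ) < 2)).1 h1
    omega
  have hPr : ((2 ^ ν : ℕ) : ℝ) = 2 ^ ν := by push_cast; rfl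
  refine ⟨ν, hν, Z, ?_, ?_, hNZ', rfl⟩
  · rw [hPr]; linarith
  · rw [hPr]; rw [pow_succ] at hνb; linarith

/-- **Integer parts.** For almost all polynomials, every large natural number has at least `c n ^ (s/k - 1)`
representations as a sum of `s` integer parts of values of the polynomial. -/
theorem main_z (d : ℕ) (hd : 1 ≤ d) (a : ℝ) (ha : 0 < a) (s : ℕ) (hs : 2 * (d + 1) + 1 ≤ s) :
    ∃ c : ℝ, 0 < c ∧ ∀ᵐ θ : Fin d → ℝ, ∀ᶠ n : ℕ in Filter.atTop, ∃ A : Finset (Fin s → ℕ),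
      (∀ x ∈ A, (∀ i, c * (n : ℝ) ^ ((1 : ℝ) / ((d + 1 : ℕ) : ℝ)) ≤ x i) ∧ ∑ i, ⌊pf d a θ (x i)⌋ = (n : ℤ)) ∧
        c * (n : ℝ) ^ ((s : ℝ) / ((d + 1 : ℕ) : ℝ) - 1) ≤ (A.card : ℝ) := by
  obtain ⟨lam, hlam0, hex⟩ := int_ae d hd a ha
  set k := d + 1 with hk
  have hk2 : 2 ≤ k := by omega
  have hkr : (2 : ℝ) ≤ k := by exact_mod_cast hk2
  obtain ⟨t0, rfl⟩ : ∃ t0, s = 2 * k + t0 := ⟨s - 2 * k, by omega⟩
  have ht0 : 1 ≤ t0 := by omega
  have ht0r : (1 : ℝ) ≤ t0 := by exact_mod_cast ht0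
  obtain ⟨c, hc, hcore⟩ := core_z d t0 hd ht0 a ha lam hlam0
  set s := 2 * k + t0 with hsdef
  have hsr : (s : ℝ) = 2 * k + t0 := by rw [hsdef]; push_cast; ring
  set S8 : ℝ := ∑ i : Fin s, ((8 : ℝ) ^ (ef k i)) ^ k with hS8
  have hS8p : 0 < S8 := by
    have : Nonempty (Fin s) := ⟨⟨0, by omega⟩⟩
    exact sum_pos (fun i _ => by positivity) univ_nonempty
  have haS : 0 < a * S8 := by positivity
  set cc : ℝ := c * ((1 / 3 : ℝ) ^ ((s : ℝ) - k) * (1 / (a * S8)) ^ ((s : ℝ) / k - 1)) with hcc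
  set c1 : ℝ := 1 / 3 * (1 / (a * S8)) ^ ((1 : ℝ) / k) with hc1
  have hccp : 0 < cc := by positivity
  have hc1p : 0 < c1 := by positivity
  refine ⟨min cc c1, lt_min hccp hc1p, ae_cubes d _ fun m => ?_⟩
  have hms : ms d = (volume : Measure (Fin d → ℝ)).restrict (Set.univ.pi fun _ => Set.Ioc 0 1) := by
    rw [volume_pi, Measure.restrict_pi_pi]
  have hae := hex t0 ht0 m
  rw [hms, ae_restrict_iff' (MeasurableSet.univ_pi fun _ => measurableSet_Ioc)] at hae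
  filter_upwards [hae] with t ht hcube
  have ht' := ht (by rw [Set.mem_univ_pi]; exact hcube)
  set M1 : ℝ := ∑ j, |m j| + d with hM1
  have hθM : ∑ j, |(m + t) j| ≤ M1 := by
    calc ∑ j, |(m + t) j| ≤ ∑ j, (|m j| + 1) := by
          apply sum_le_sum
          intro j _
          rw [Pi.add_apply]
          refine (abs_add_le _ _).trans ?_
          have h1 := hcube j
          rw [abs_of_pos h1.1]
          linarith [h1.2]
      _ = _ := by rw [sum_add_distrib]; simp [hM1]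
  obtain ⟨P0, hP0⟩ := hcore M1
  have hev2 : ∀ᶠ ν : ℕ in Filter.atTop, P0 ≤ 2 ^ ν :=
    (tendsto_pow_atTop_atTop_of_one_lt (by norm_num : 1 < 2)).eventually_ge_atTop _
  obtain ⟨ν1, hν1⟩ := Filter.eventually_atTop.1 (ht'.and hev2)
  have hevn : ∀ᶠ n : ℕ in Filter.atTop, a * S8 * (3 * 2 ^ ν1) ^ k ≤ (n : ℝ) :=
    tendsto_natCast_atTop_atTop.eventually_ge_atTop _
  filter_upwards [hevn] with n hn
  have hNp : (0 : ℝ) < n := lt_of_lt_of_le (by positivity) hn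
  obtain ⟨ν, hν, Z, hZ1, hZ2, hNZ, hZ⟩ := scale k s hk2 (by omega) a ha ν1 n hn
  obtain ⟨hX, hmax⟩ := hν1 ν hν
  set P : ℕ := 2 ^ ν with hPdef
  have hPp : (0 : ℝ) < P := by
    have : 0 < P := by rw [hPdef]; positivity
    exact_mod_cast this
  have hZ0 : 0 ≤ Z := by linarith
  have hres := hP0 P hmax (m + t) hθM hX Z hZ1 hZ2 (n : ℤ) (by push_cast; exact hNZ.symm)
  refine ⟨(bx s k P).filter fun x => zz s d a (m + t) x = (n : ℤ), ?_, ?_⟩
  · intro x hx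
    rw [mem_filter] at hx
    refine ⟨fun i => ?_, hx.2⟩
    have h1 := hx.1
    unfold bx at h1
    rw [Fintype.mem_piFinset] at h1
    have h2 := (mem_IQ _ _).1 (h1 i)
    have h3 : P ≤ x i := by
      have : 1 * P ≤ 8 ^ (ef k i) * P := Nat.mul_le_mul_right _ (Nat.one_le_pow _ _ (by norm_num))
      omega
    have h4 : (P : ℝ) ≤ x i := by exact_mod_cast h3
    refine le_trans ?_ h4
    have h5 : Z / 3 ≤ P := by linarith
    refine le_trans ?_ h5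
    have h6 : Z = (1 / (a * S8)) ^ ((1 : ℝ) / k) * (n : ℝ) ^ ((1 : ℝ) / k) := by
      rw [hZ, ← Real.mul_rpow (by positivity) hNp.le, one_div (k : ℝ)]
      congr 1
      ring
    calc min cc c1 * (n : ℝ) ^ ((1 : ℝ) / k) ≤ c1 * (n : ℝ) ^ ((1 : ℝ) / k) :=
          mul_le_mul_of_nonneg_right (min_le_right _ _) (by positivity)
      _ = Z / 3 := by rw [h6, hc1]; ring
  · refine le_trans (mul_le_mul_of_nonneg_right (min_le_left _ _) (by positivity)) ?_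
    refine le_trans ?_ hres
    have hsk : (s : ℝ) - k = (k : ℝ) + t0 := by rw [hsr]; ring
    have h1 : (Z / 3) ^ ((k : ℝ) + t0) ≤ (P : ℝ) ^ ((k : ℝ) + t0) :=
      Real.rpow_le_rpow (by positivity) (by linarith) (by linarith)
    have h2 : (Z / 3) ^ ((s : ℝ) - k) = (1 / 3 : ℝ) ^ ((s : ℝ) - k) * (1 / (a * S8)) ^ ((s : ℝ) / k - 1) *
        (n : ℝ) ^ ((s : ℝ) / k - 1) := by
      have h3 : Z / 3 = 1 / 3 * Z := by ring
      rw [h3, Real.mul_rpow (by norm_num) hZ0, mul_assoc]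
      congr 1
      rw [← Real.mul_rpow (by positivity) hNp.le, hZ, ← Real.rpow_mul (by positivity)]
      have h4 : (n : ℝ) / (a * S8) = 1 / (a * S8) * n := by ring
      rw [h4]
      congr 1
      field_simp
    calc cc * (n : ℝ) ^ ((s : ℝ) / k - 1) = c * ((1 / 3 : ℝ) ^ ((s : ℝ) - k) * (1 / (a * S8)) ^ ((s : ℝ) / k - 1) *
        (n : ℝ) ^ ((s : ℝ) / k - 1)) := by rw [hcc]; ring
      _ = c * (Z / 3) ^ ((s : ℝ) - k) := by rw [h2]
      _ = c * (Z / 3) ^ ((k : ℝ) + t0) := by rw [hsk]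
      _ ≤ _ := mul_le_mul_of_nonneg_left h1 hc.le

end Pool.Agent.U914.WP
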