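import Mathlib
import Pool.Agent.U914.WP.IB

/-! Sums of `k` integer parts: the upper bound for the density, for every polynomial. -/

set_option autoImplicit false

open Finset

namespace Pool.Agent.U914.WP

/-- the polynomial grows at least as its main term -/
theorem pf_growth (d : ℕ) (a : ℝ) (ha : 0 < a) (θ : Fin d → ℝ) (ε : ℝ) (hε : 0 < ε) :
    ∃ B : ℝ, 0 ≤ B ∧ ∀ x : ℕ, (1 - ε) * a * (x : ℝ) ^ (d + 1) - B ≤ pf d a θ x := by
  set M : ℝ := ∑ j, |θ j| with hM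
  have hM0 : 0 ≤ M := sum_nonneg fun _ _ => abs_nonneg _
  have hea : 0 < ε * a := by positivity
  refine ⟨M * (M / (ε * a)) ^ d, by positivity, fun x => ?_⟩
  have hx0 : (0 : ℝ) ≤ x := Nat.cast_nonneg x
  have hlow : ∀ j : Fin d, -(|θ j| * (x : ℝ) ^ d) ≤ θ j * (x : ℝ) ^ ((j : ℕ) + 1) := by
    intro j
    have h1 : (x : ℝ) ^ ((j : ℕ) + 1) ≤ (x : ℝ) ^ d := by
      rcases Nat.eq_zero_or_pos x with h0 | h0
      · subst h0
        have h2 : (j : ℕ) + 1 ≠ 0 := by omega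
        have h3 : d ≠ 0 := by have := j.2; omega
        simp [h3]
      · exact pow_le_pow_right₀ (by exact_mod_cast h0) (by have := j.2; omega)
    have h2 : |θ j * (x : ℝ) ^ ((j : ℕ) + 1)| ≤ |θ j| * (x : ℝ) ^ d := by
      rw [abs_mul, abs_of_nonneg (by positivity : (0 : ℝ) ≤ (x : ℝ) ^ ((j : ℕ) + 1))]
      exact mul_le_mul_of_nonneg_left h1 (abs_nonneg _)
    linarith [(abs_le.1 h2).1]
  have hsum : -(M * (x : ℝ) ^ d) ≤ ∑ j : Fin d, θ j * (x : ℝ) ^ ((j : ℕ) + 1) := by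
    rw [hM, sum_mul, ← sum_neg_distrib]
    exact sum_le_sum fun j _ => hlow j
  have hkey : M * (x : ℝ) ^ d ≤ ε * a * (x : ℝ) ^ (d + 1) + M * (M / (ε * a)) ^ d := by
    rcases le_or_gt (x : ℝ) (M / (ε * a)) with hc | hc
    · have h1 : M * (x : ℝ) ^ d ≤ M * (M / (ε * a)) ^ d :=
        mul_le_mul_of_nonneg_left (pow_le_pow_left₀ hx0 hc d) hM0
      have h2 : 0 ≤ ε * a * (x : ℝ) ^ (d + 1) := by positivity
      linarith
    · rw [div_lt_iff₀ hea] at hc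
      have h1 : M * (x : ℝ) ^ d ≤ x * (ε * a) * (x : ℝ) ^ d := mul_le_mul_of_nonneg_right hc.le (by positivity)
      have h2 : x * (ε * a) * (x : ℝ) ^ d = ε * a * (x : ℝ) ^ (d + 1) := by ring
      have h3 : 0 ≤ M * (M / (ε * a)) ^ d := by positivity
      linarith
  unfold pf
  have h4 : (1 - ε) * a * (x : ℝ) ^ (d + 1) = a * (x : ℝ) ^ (d + 1) - ε * a * (x : ℝ) ^ (d + 1) := by ring
  linarith

/-- the number of values of a symmetric function -/
theorem sym_count (k m : ℕ) (g : ℕ → ℤ) (S : Set ℕ)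
    (hS : ∀ n ∈ S, ∃ x : Fin k → ℕ, (∀ i, x i < m) ∧ ∑ i, g (x i) = (n : ℤ)) :
    S.ncard ≤ Nat.multichoose m k := by
  classical
  set F : Sym (Fin m) k → ℤ := fun s => (Multiset.map (fun y : Fin m => g (y : ℕ)) (s : Multiset (Fin m))).sum with hF
  have h1 : (fun n : ℕ => (n : ℤ)) '' S ⊆ ↑((univ : Finset (Sym (Fin m) k)).image F) := by
    rintro z ⟨n, hn, rfl⟩
    obtain ⟨x, hx, hsum⟩ := hS n hn
    rw [mem_coe, mem_image]
    refine ⟨⟨(univ : Finset (Fin k)).val.map fun i => (⟨x i, hx i⟩ : Fin m), by simp⟩, mem_univ _, ?_⟩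
    rw [hF]
    simp only [Sym.coe_mk, Multiset.map_map, Function.comp_def]
    exact hsum
  have h2 := Set.ncard_le_ncard h1 (finite_toSet _)
  rw [Set.ncard_image_of_injective _ Nat.cast_injective, Set.ncard_coe_finset] at h2
  refine h2.trans (card_image_le.trans (le_of_eq ?_))
  rw [card_univ, Sym.card_sym_eq_multichoose, Fintype.card_fin]

/-- **The density of the sums of `k` integer parts is at most `1/(a k!)`.** -/
theorem upper_k (d : ℕ) (a : ℝ) (ha : 0 < a) (θ : Fin d → ℝ) (ρ : ℝ)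
    (hρ : 1 / (a * ((d + 1).factorial : ℝ)) < ρ) : ∀ᶠ X : ℕ in Filter.atTop,
      (({n : ℕ | n ≤ X ∧ ∃ x : Fin (d + 1) → ℕ, ∑ i, ⌊pf d a θ (x i)⌋ = (n : ℤ)}.ncard : ℕ) : ℝ) ≤ ρ * X := by
  set k := d + 1 with hk
  have hkr : (0 : ℝ) < k := by rw [hk]; positivity
  have hf : (0 : ℝ) < (k.factorial : ℝ) := by positivity
  have hρ0 : 0 < ρ := lt_trans (by positivity) hρ
  -- the choice of `ε`
  obtain ⟨ε, hε0, hε1, hε⟩ : ∃ ε : ℝ, 0 < ε ∧ ε < 1 ∧ 1 / ((1 - ε) * a * (k.factorial : ℝ)) < ρ := by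
    have h1 : Filter.Tendsto (fun ε : ℝ => 1 / ((1 - ε) * a * (k.factorial : ℝ))) (nhdsWithin 0 (Set.Ioi 0))
        (nhds (1 / ((1 - 0) * a * (k.factorial : ℝ)))) := by
      apply Filter.Tendsto.mono_left _ nhdsWithin_le_nhds
      apply ContinuousAt.tendsto
      apply ContinuousAt.div continuousAt_const (by fun_prop)
      rw [sub_zero, one_mul]
      positivity
    rw [sub_zero, one_mul] at h1
    have h2 := h1.eventually_lt_const hρ
    have h3 : ∀ᶠ ε : ℝ in nhdsWithin 0 (Set.Ioi 0), ε ∈ Set.Ioo (0 : ℝ) 1 := Ioo_mem_nhdsGT one_pos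
    obtain ⟨ε, h4, h5⟩ := (h2.and h3).exists
    exact ⟨ε, h5.1, h5.2, h4⟩
  obtain ⟨B, hB, hgrow⟩ := pf_growth d a ha θ ε hε0
  have he : 0 < (1 - ε) * a := mul_pos (by linarith) ha
  set E : ℝ := 1 / ((1 - ε) * a) with hE
  have hE0 : 0 < E := by positivity
  -- the limit
  have hlim : Filter.Tendsto (fun X : ℕ => ((E * (1 + (k * (B + 1)) / X)) ^ ((1 : ℝ) / k) + k / (X : ℝ) ^ ((1 : ℝ) / k)) ^ k /
      (k.factorial : ℝ)) Filter.atTop (nhds (((E * (1 + 0)) ^ ((1 : ℝ) / k) + 0) ^ k / (k.factorial : ℝ))) := by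
    have hc1 : Filter.Tendsto (fun X : ℕ => (k * (B + 1)) / (X : ℝ)) Filter.atTop (nhds 0) :=
      Filter.Tendsto.div_atTop tendsto_const_nhds tendsto_natCast_atTop_atTop
    have hc2 : Filter.Tendsto (fun X : ℕ => (k : ℝ) / (X : ℝ) ^ ((1 : ℝ) / k)) Filter.atTop (nhds 0) :=
      Filter.Tendsto.div_atTop tendsto_const_nhds
        ((tendsto_rpow_atTop (by positivity)).comp tendsto_natCast_atTop_atTop)
    apply Filter.Tendsto.div_const
    apply Filter.Tendsto.pow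
    apply Filter.Tendsto.add _ hc2
    apply Filter.Tendsto.rpow_const
    · exact (tendsto_const_nhds.add hc1).const_mul E
    · exact Or.inr (by positivity)
  have hval : ((E * (1 + 0)) ^ ((1 : ℝ) / k) + 0) ^ k / (k.factorial : ℝ) = 1 / ((1 - ε) * a * (k.factorial : ℝ)) := by
    rw [add_zero, add_zero, mul_one, ← Real.rpow_natCast (E ^ ((1 : ℝ) / k)), ← Real.rpow_mul hE0.le,
      one_div_mul_cancel hkr.ne', Real.rpow_one, hE]
    field_simp
  rw [hval] at hlim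
  have hev := hlim.eventually_lt_const hε
  filter_upwards [hev, Filter.eventually_ge_atTop 1] with X hX hX1
  have hXr : (1 : ℝ) ≤ X := by exact_mod_cast hX1
  have hX0 : (0 : ℝ) < X := by linarith
  set y : ℝ := E * (X + k * (B + 1)) with hy
  have hy0 : 0 < y := by positivity
  set m : ℕ := ⌊y ^ ((1 : ℝ) / k)⌋₊ + 1 with hm
  have hcount := sym_count k m (fun x => ⌊pf d a θ x⌋)
    {n : ℕ | n ≤ X ∧ ∃ x : Fin k → ℕ, ∑ i, ⌊pf d a θ (x i)⌋ = (n : ℤ)} (by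
      rintro n ⟨hnX, x, hx⟩
      refine ⟨x, fun i => ?_, hx⟩
      have hsumf : ∑ j, pf d a θ (x j) ≤ X + k := by
        have h1 : ∑ j, pf d a θ (x j) ≤ ∑ j, ((⌊pf d a θ (x j)⌋ : ℝ) + 1) :=
          sum_le_sum fun j _ => (Int.lt_floor_add_one _).le
        rw [sum_add_distrib] at h1
        have h2 : ∑ j, (⌊pf d a θ (x j)⌋ : ℝ) = n := by
          have := congrArg (fun z : ℤ => (z : ℝ)) hx
          push_cast at this
          exact this
        rw [h2] at h1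
        have h3 : (n : ℝ) ≤ X := by exact_mod_cast hnX
        have h4 : ∑ _j : Fin k, (1 : ℝ) = k := by simp
        linarith
      have h5 : ∑ j, ((1 - ε) * a * (x j : ℝ) ^ (d + 1) - B) ≤ X + k :=
        (sum_le_sum fun j _ => hgrow (x j)).trans hsumf
      rw [sum_sub_distrib] at h5
      have h6 : ∑ _j : Fin k, B = k * B := by simp
      rw [h6] at h5
      have h7 : (1 - ε) * a * (x i : ℝ) ^ (d + 1) ≤ ∑ j, (1 - ε) * a * (x j : ℝ) ^ (d + 1) :=
        single_le_sum (f := fun j => (1 - ε) * a * (x j : ℝ) ^ (d + 1)) (fun j _ => by positivity) (mem_univ i)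
      have h8 : (x i : ℝ) ^ k ≤ y := by
        rw [hy, hE, one_div, inv_mul_eq_div, le_div_iff₀ he]
        nlinarith [h5, h7]
      have h9 : (x i : ℝ) ≤ y ^ ((1 : ℝ) / k) := by
        calc (x i : ℝ) = ((x i : ℝ) ^ k) ^ ((1 : ℝ) / k) := by
              rw [one_div, Real.pow_rpow_inv_natCast (Nat.cast_nonneg _) (by omega)]
          _ ≤ _ := Real.rpow_le_rpow (by positivity) h8 (by positivity)
      have h10 : x i ≤ ⌊y ^ ((1 : ℝ) / k)⌋₊ := Nat.le_floor h9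
      omega)
  have h1 : (({n : ℕ | n ≤ X ∧ ∃ x : Fin k → ℕ, ∑ i, ⌊pf d a θ (x i)⌋ = (n : ℤ)}.ncard : ℕ) : ℝ) ≤
      ((m + k - 1 : ℕ) : ℝ) ^ k / (k.factorial : ℝ) := by
    have h2 : (({n : ℕ | n ≤ X ∧ ∃ x : Fin k → ℕ, ∑ i, ⌊pf d a θ (x i)⌋ = (n : ℤ)}.ncard : ℕ) : ℝ) ≤
        (Nat.multichoose m k : ℝ) := by exact_mod_cast hcount
    refine h2.trans ?_
    rw [Nat.multichoose_eq]
    exact Nat.choose_le_pow_div _ _
  refine h1.trans ?_
  have h3 : ((m + k - 1 : ℕ) : ℝ) ≤ y ^ ((1 : ℝ) / k) + k := by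
    have h4 : m + k - 1 = ⌊y ^ ((1 : ℝ) / k)⌋₊ + k := by omega
    rw [h4]
    push_cast
    have := Nat.floor_le (by positivity : 0 ≤ y ^ ((1 : ℝ) / k))
    linarith
  have hXk : 0 < (X : ℝ) ^ ((1 : ℝ) / k) := by positivity
  have h5 : y ^ ((1 : ℝ) / k) + k = (X : ℝ) ^ ((1 : ℝ) / k) *
      ((E * (1 + (k * (B + 1)) / X)) ^ ((1 : ℝ) / k) + k / (X : ℝ) ^ ((1 : ℝ) / k)) := by
    rw [mul_add, ← Real.mul_rpow hX0.le (by positivity)]
    congr 1
    · rw [hy]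
      congr 1
      field_simp
    · field_simp
  have h6 : ((X : ℝ) ^ ((1 : ℝ) / k)) ^ k = X := by
    rw [← Real.rpow_natCast, ← Real.rpow_mul hX0.le, one_div_mul_cancel hkr.ne', Real.rpow_one]
  calc ((m + k - 1 : ℕ) : ℝ) ^ k / (k.factorial : ℝ) ≤ (y ^ ((1 : ℝ) / k) + k) ^ k / (k.factorial : ℝ) := by
        apply div_le_div_of_nonneg_right _ hf.le
        exact pow_le_pow_left₀ (Nat.cast_nonneg _) h3 k
    _ = X * (((E * (1 + (k * (B + 1)) / X)) ^ ((1 : ℝ) / k) + k / (X : ℝ) ^ ((1 : ℝ) / k)) ^ k / (k.factorial : ℝ)) := by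
        rw [h5, mul_pow, h6, mul_div_assoc]
    _ ≤ X * ρ := mul_le_mul_of_nonneg_left hX.le hX0.le
    _ = _ := mul_comm _ _

end Pool.Agent.U914.WP
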