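import Mathlib
import Pool.Agent.U914.WP.GG
import Pool.Agent.U914.WP.IM
import Pool.Agent.U914.WP.IU

/-! Almost all polynomials in Waring's problem: the asymptotic formula. -/

set_option autoImplicit false

open Finset MeasureTheory
open Pool.Agent.U518.WS (ms)

namespace Pool.Agent.U914.WP

/-- the constant of the asymptotic formula -/
noncomputable def SB (d s : ℕ) (a : ℝ) : ℝ :=
  VB (d + 1) s * (((s : ℝ) / ((d + 1 : ℕ) : ℝ)) / a ^ ((s : ℝ) / ((d + 1 : ℕ) : ℝ)))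

/-- **The asymptotic formula at one scale.** -/
theorem main_scale (s d : ℕ) (a : ℝ) (ha : 0 < a) (θ : Fin d → ℝ) (hs : 2 * (d + 1) + 1 ≤ s) (κ : ℝ)
    (hκ : 0 < κ) (hκ1 : κ ≤ 1 / 100) : ∃ C0 : ℝ, 0 < C0 ∧ ∀ᶠ ν : ℕ in Filter.atTop, ∀ n : ℕ,
      a * (((2 ^ ν : ℕ) : ℝ) / 2) ^ (d + 1) ≤ 2 * n → 2 * (n : ℝ) ≤ a * ((2 ^ ν : ℕ) : ℝ) ^ (d + 1) →
      Ym s d a (2 ^ ν) (((2 ^ ν : ℕ) : ℝ) ^ ((1 : ℝ) / 4 - ((d + 1 : ℕ) : ℝ))) θ ≤
        ENNReal.ofReal (((2 ^ ν : ℕ) : ℝ) ^ ((s : ℝ) - ((d + 1 : ℕ) : ℝ) - κ)) →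
      |(((fbx s (2 ^ ν)).filter fun x => zz s d a θ x = (n : ℤ)).card : ℝ) -
          SB d s a * (n : ℝ) ^ ((s : ℝ) / ((d + 1 : ℕ) : ℝ) - 1)| ≤
        C0 * ((2 ^ ν : ℕ) : ℝ) ^ ((s : ℝ) - ((d + 1 : ℕ) : ℝ) - κ) := by
  set k : ℕ := d + 1 with hk
  have hkd : (k : ℝ) = d + 1 := by rw [hk]; push_cast; ring
  have hd0 : (0 : ℝ) ≤ d := Nat.cast_nonneg d
  have hk1 : (1 : ℝ) ≤ k := by linarith
  have hk0 : (0 : ℝ) < k := by linarith
  set σ : ℝ := (s : ℝ) / (k : ℝ) with hσ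
  have hσ2 : 2 ≤ σ := by
    rw [hσ, le_div_iff₀ hk0]
    have : 2 * k ≤ s := by omega
    exact_mod_cast this
  have hkσ : (k : ℝ) * (σ - 1) = s - k := by
    rw [hσ]
    field_simp
  set C1 : ℝ := s * (∑ j, |θ j| + 1) with hC1
  have hC10 : 0 ≤ C1 := by
    have : 0 ≤ ∑ j, |θ j| := sum_nonneg fun _ _ => abs_nonneg _
    positivity
  have hV := VB_pos k s
  have haσ : 0 < a ^ σ := by positivity
  have hSB : SB d s a = VB k s * (σ / a ^ σ) := rfl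
  set C2 : ℝ := VB k s * (σ / a ^ σ) * a ^ (σ - 1) with hC2
  have hC20 : 0 < C2 := by positivity
  set K : ℝ := s * 2 ^ σ with hK
  have hK0 : 0 ≤ K := by positivity
  set C3 : ℝ := (3 + C1) * 2 ^ (k + 1) / a with hC3
  have hC30 : 0 < C3 := by positivity
  have htend : Filter.Tendsto (fun ν : ℕ => ((2 ^ ν : ℕ) : ℝ)) Filter.atTop Filter.atTop :=
    tendsto_natCast_atTop_atTop.comp (tendsto_pow_atTop_atTop_of_one_lt (by norm_num : 1 < 2))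
  have hev1 : ∀ᶠ ν : ℕ in Filter.atTop, ((2 ^ ν : ℕ) : ℝ) ^ (-(1 / 16 : ℝ)) ≤ 1 / (2 * C1 + 1) :=
    ((tendsto_rpow_neg_atTop (by norm_num : (0 : ℝ) < 1 / 16)).comp htend).eventually_le_const (by positivity)
  have hev2 : ∀ᶠ ν : ℕ in Filter.atTop, ((2 ^ ν : ℕ) : ℝ) ^ (-(15 / 16 : ℝ)) ≤ 1 / (2 * C3) :=
    ((tendsto_rpow_neg_atTop (by norm_num : (0 : ℝ) < 15 / 16)).comp htend).eventually_le_const (by positivity)
  have hev3 : ∀ᶠ ν : ℕ in Filter.atTop, 8 * (s : ℝ) ≤ ((2 ^ ν : ℕ) : ℝ) := htend.eventually_ge_atTop _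
  refine ⟨2 + 64 * Real.pi + (C2 * ((2 * C1 + 1) + 2 * K * C3) + 2 * (VB k s * (s : ℝ) ^ 2)), by positivity, ?_⟩
  filter_upwards [hev1, hev2, hev3] with ν he1 he2 he3 n hn1 hn2 hY
  set P : ℕ := 2 ^ ν with hP
  set p : ℝ := (P : ℝ) with hp
  have hpi := Real.pi_pos
  have hP1 : 1 ≤ P := Nat.one_le_two_pow
  have hp1 : 1 ≤ p := by
    rw [hp]
    exact_mod_cast hP1
  have hp0 : 0 < p := by linarith
  have hmul : ∀ x y : ℝ, p ^ x * p ^ y = p ^ (x + y) := fun x y => (Real.rpow_add hp0 x y).symm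
  have hle : ∀ x y : ℝ, x ≤ y → p ^ x ≤ p ^ y := fun x y h => Real.rpow_le_rpow_of_exponent_le hp1 h
  have hpd : p ^ d = p ^ (d : ℝ) := (Real.rpow_natCast p d).symm
  have hpk : p ^ k = p ^ (k : ℝ) := (Real.rpow_natCast p k).symm
  set X : ℝ := p ^ ((d : ℝ) + 1 / 16) with hX
  have hX1 : 1 ≤ X := Real.one_le_rpow hp1 (by positivity)
  set h : ℕ := ⌈X⌉₊ with hh
  have hhX : X ≤ h := Nat.le_ceil X
  have hhX2 : (h : ℝ) ≤ 2 * X := by
    have := Nat.ceil_lt_add_one (by linarith : (0 : ℝ) ≤ X)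
    linarith
  have hh1 : 1 ≤ h := Nat.one_le_ceil_iff.2 (by linarith)
  have hh0 : (0 : ℝ) < h := by linarith
  set C : ℝ := C1 * p ^ d with hC
  have hC0 : 0 ≤ C := by positivity
  have hpd1 : 1 ≤ p ^ d := one_le_pow₀ hp1
  have hpdX : p ^ d ≤ X := by
    rw [hpd, hX]
    exact hle _ _ (by linarith)
  -- the first ratio
  have hr1 : 2 * C + 1 ≤ (2 * C1 + 1) * p ^ (-(1 / 16 : ℝ)) * X := by
    have e1 : p ^ (-(1 / 16 : ℝ)) * X = p ^ d := by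
      rw [hX, hmul, hpd]
      congr 1
      ring
    rw [mul_assoc, e1, hC]
    nlinarith
  have hr1' : (2 * C1 + 1) * p ^ (-(1 / 16 : ℝ)) ≤ 1 := by
    have := mul_le_mul_of_nonneg_left he1 (by positivity : 0 ≤ 2 * C1 + 1)
    rwa [mul_one_div_cancel (by positivity)] at this
  have hCh : 2 * C + 1 ≤ h := by
    have h1 := mul_le_mul_of_nonneg_right hr1' (by linarith : (0 : ℝ) ≤ X)
    linarith
  have hu : (2 * C + 1) / h ≤ (2 * C1 + 1) * p ^ (-(1 / 16 : ℝ)) := by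
    rw [div_le_iff₀ hh0]
    exact hr1.trans (mul_le_mul_of_nonneg_left hhX (by positivity))
  -- the second ratio
  have hnlow : a * p ^ k ≤ 2 ^ (k + 1) * n := by
    rw [div_pow, ← mul_div_assoc, div_le_iff₀ (by positivity)] at hn1
    calc a * p ^ k ≤ 2 * n * 2 ^ k := hn1
      _ = _ := by ring
  have hXn : (3 + C1) * X ≤ C3 * p ^ (-(15 / 16 : ℝ)) * n := by
    have e1 : X = p ^ (-(15 / 16 : ℝ)) * p ^ k := by
      rw [hX, hpk, hmul, hkd]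
      congr 1
      ring
    rw [e1, hC3]
    have h1 := mul_le_mul_of_nonneg_left hnlow (by positivity : 0 ≤ (3 + C1) * p ^ (-(15 / 16 : ℝ)) / a)
    calc (3 + C1) * (p ^ (-(15 / 16 : ℝ)) * p ^ k) = (3 + C1) * p ^ (-(15 / 16 : ℝ)) / a * (a * p ^ k) := by
          field_simp
      _ ≤ (3 + C1) * p ^ (-(15 / 16 : ℝ)) / a * (2 ^ (k + 1) * n) := h1
      _ = _ := by ring
  have hn0 : (0 : ℝ) < n := by
    have h1 : 0 < a * p ^ k := by positivity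
    have h2 : (0 : ℝ) < 2 ^ (k + 1) := by positivity
    by_contra hcon
    push Not at hcon
    have : (2 : ℝ) ^ (k + 1) * n ≤ 0 := mul_nonpos_of_nonneg_of_nonpos h2.le hcon
    linarith
  have hsum : (h : ℝ) + C + 1 ≤ (3 + C1) * X := by
    have h1 : C ≤ C1 * X := mul_le_mul_of_nonneg_left hpdX hC10
    linarith
  have hr2 : C3 * p ^ (-(15 / 16 : ℝ)) ≤ 1 / 2 := by
    have := mul_le_mul_of_nonneg_left he2 hC30.le
    refine this.trans (le_of_eq ?_)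
    field_simp
  have hhn : (h : ℝ) + C + 1 ≤ n / 2 := by
    have h1 := mul_le_mul_of_nonneg_right hr2 hn0.le
    linarith
  have ht : ((h : ℝ) + C + 1) / n ≤ C3 * p ^ (-(15 / 16 : ℝ)) := by
    rw [div_le_iff₀ hn0]
    linarith
  have hns : 2 * (a * (s : ℝ) ^ k) ≤ n := by
    have h1 : (8 * (s : ℝ)) ^ k ≤ p ^ k := pow_le_pow_left₀ (by positivity) he3 k
    rw [mul_pow] at h1
    have h2 : (2 : ℝ) ^ (k + 2) ≤ 8 ^ k := by
      have e1 : (8 : ℝ) ^ k = 2 ^ (3 * k) := by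
        rw [pow_mul]
        norm_num
      rw [e1]
      exact pow_le_pow_right₀ (by norm_num) (by omega)
    have h3 : (2 : ℝ) ^ (k + 2) * (s : ℝ) ^ k ≤ p ^ k := (mul_le_mul_of_nonneg_right h2 (by positivity)).trans h1
    have h4 := mul_le_mul_of_nonneg_left h3 ha.le
    have h5 : 2 ^ (k + 1) * (2 * (a * (s : ℝ) ^ k)) ≤ 2 ^ (k + 1) * (n : ℝ) := by
      calc 2 ^ (k + 1) * (2 * (a * (s : ℝ) ^ k)) = a * (2 ^ (k + 2) * (s : ℝ) ^ k) := by ring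
        _ ≤ a * p ^ k := h4
        _ ≤ _ := hnlow
    exact le_of_mul_le_mul_left h5 (by positivity)
  have hmain := main_term s d a ha θ (by omega) P h n hh1 C hC0 (fun x hx => by
    rw [hC, hC1]
    exact zz_near2 s d a θ P hP1 x hx) hCh hhn hn2 hns
  -- the local constancy
  set Z : ℝ := p ^ ((s : ℝ) - k - κ) with hZ
  have hZ0 : 0 < Z := by positivity
  have hloc : ∀ j < h, |(((fbx s P).filter fun x => zz s d a θ x = (n : ℤ) + j).card : ℝ) -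
      ((fbx s P).filter fun x => zz s d a θ x = (n : ℤ)).card| ≤ (2 + 64 * Real.pi) * Z := by
    intro j hj
    have h1 := local_const s d a P θ (p ^ ((1 : ℝ) / 4 - (k : ℝ))) Z (2 * X) (by positivity) hZ0.le hY (n : ℤ) ((n : ℤ) + j) (by
      push_cast
      rw [add_sub_cancel_left, abs_of_nonneg (Nat.cast_nonneg j)]
      have : (j : ℝ) ≤ h := by exact_mod_cast hj.le
      linarith)
    refine h1.trans ?_
    have e1 : (P : ℝ) ^ s = p ^ (s : ℝ) := (Real.rpow_natCast p s).symm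
    have e2 : (P : ℝ) ^ s * (2 * Real.pi * p ^ ((1 : ℝ) / 4 - (k : ℝ)) * (2 * X)) * (2 * p ^ ((1 : ℝ) / 4 - (k : ℝ))) =
        8 * Real.pi * p ^ ((s : ℝ) - k - 7 / 16) := by
      rw [e1, hX]
      calc _ = 8 * Real.pi * (p ^ (s : ℝ) * p ^ ((1 : ℝ) / 4 - (k : ℝ)) * p ^ ((d : ℝ) + 1 / 16) * p ^ ((1 : ℝ) / 4 - (k : ℝ))) := by ring
        _ = _ := by
            simp only [hmul]
            congr 2
            rw [hkd]
            ring
    rw [e2]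
    have h2 : p ^ ((s : ℝ) - k - 7 / 16) ≤ Z := hle _ _ (by linarith)
    have h3 : 8 * Real.pi * p ^ ((s : ℝ) - k - 7 / 16) ≤ 8 * Real.pi * Z := mul_le_mul_of_nonneg_left h2 (by positivity)
    have h4 : 0 ≤ Real.pi * Z := by positivity
    nlinarith
  have hwin := window (fbx s P) (zz s d a θ) (n : ℤ) h hh1 _ hloc
  -- the error of the main term
  have hns1 : (n : ℝ) ^ (σ - 1) ≤ a ^ (σ - 1) * p ^ ((s : ℝ) - k) := by
    have h1 : (n : ℝ) ≤ a * p ^ k := by linarith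
    calc (n : ℝ) ^ (σ - 1) ≤ (a * p ^ k) ^ (σ - 1) := Real.rpow_le_rpow hn0.le h1 (by linarith)
      _ = a ^ (σ - 1) * p ^ ((s : ℝ) - k) := by
          rw [Real.mul_rpow ha.le (by positivity), hpk, ← Real.rpow_mul hp0.le, hkσ]
  have hVs : VB k s * (σ / a ^ σ) * (n : ℝ) ^ (σ - 1) ≤ C2 * p ^ ((s : ℝ) - k) := by
    have h1 := mul_le_mul_of_nonneg_left hns1 (by positivity : 0 ≤ VB k s * (σ / a ^ σ))
    rw [hC2]
    linarith
  have hrat : (2 * C + 1) / h + 2 * K * ((h + C + 1) / n) ≤ ((2 * C1 + 1) + 2 * K * C3) * p ^ (-(1 / 16 : ℝ)) := by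
    have h1 : p ^ (-(15 / 16 : ℝ)) ≤ p ^ (-(1 / 16 : ℝ)) := hle _ _ (by norm_num)
    have h2 : 2 * K * ((h + C + 1) / n) ≤ 2 * K * (C3 * p ^ (-(1 / 16 : ℝ))) := by
      apply mul_le_mul_of_nonneg_left _ (by positivity)
      exact ht.trans (mul_le_mul_of_nonneg_left h1 hC30.le)
    linarith
  have hE : 2 * (VB k s * ((s : ℝ) ^ 2 * (P : ℝ) ^ (s - 1))) / h ≤ 2 * (VB k s * (s : ℝ) ^ 2) * p ^ ((s : ℝ) - k - 1 / 16) := by
    rw [div_le_iff₀ hh0]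
    have e1 : (P : ℝ) ^ (s - 1) = p ^ ((s : ℝ) - k - 1 / 16) * X := by
      rw [hX, hmul, ← Real.rpow_natCast, Nat.cast_sub (by omega)]
      congr 1
      rw [hkd]
      push_cast
      ring
    rw [e1]
    have h1 : p ^ ((s : ℝ) - k - 1 / 16) * X ≤ p ^ ((s : ℝ) - k - 1 / 16) * h := mul_le_mul_of_nonneg_left hhX (by positivity)
    have h2 := mul_le_mul_of_nonneg_left h1 (by positivity : 0 ≤ 2 * (VB k s * (s : ℝ) ^ 2))
    linarith
  have hp16 : p ^ ((s : ℝ) - k - 1 / 16) ≤ Z := hle _ _ (by linarith)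
  have hfin : VB k s * (σ / a ^ σ) * (n : ℝ) ^ (σ - 1) * ((2 * C + 1) / h + 2 * K * ((h + C + 1) / n)) +
      2 * (VB k s * ((s : ℝ) ^ 2 * (P : ℝ) ^ (s - 1))) / h ≤
      (C2 * ((2 * C1 + 1) + 2 * K * C3) + 2 * (VB k s * (s : ℝ) ^ 2)) * Z := by
    have h0 : 0 ≤ (2 * C + 1) / h + 2 * K * ((h + C + 1) / n) := by positivity
    have h1 : VB k s * (σ / a ^ σ) * (n : ℝ) ^ (σ - 1) * ((2 * C + 1) / h + 2 * K * ((h + C + 1) / n)) ≤
        C2 * p ^ ((s : ℝ) - k) * (((2 * C1 + 1) + 2 * K * C3) * p ^ (-(1 / 16 : ℝ))) :=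
      mul_le_mul hVs hrat h0 (by positivity)
    have h2 : C2 * p ^ ((s : ℝ) - k) * (((2 * C1 + 1) + 2 * K * C3) * p ^ (-(1 / 16 : ℝ))) =
        C2 * ((2 * C1 + 1) + 2 * K * C3) * p ^ ((s : ℝ) - k - 1 / 16) := by
      have : p ^ ((s : ℝ) - k - 1 / 16) = p ^ ((s : ℝ) - k) * p ^ (-(1 / 16 : ℝ)) := by
        rw [hmul]
        congr 1
      rw [this]
      ring
    have h3 : C2 * ((2 * C1 + 1) + 2 * K * C3) * p ^ ((s : ℝ) - k - 1 / 16) ≤ C2 * ((2 * C1 + 1) + 2 * K * C3) * Z :=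
      mul_le_mul_of_nonneg_left hp16 (by positivity)
    have h4 : 2 * (VB k s * (s : ℝ) ^ 2) * p ^ ((s : ℝ) - k - 1 / 16) ≤ 2 * (VB k s * (s : ℝ) ^ 2) * Z :=
      mul_le_mul_of_nonneg_left hp16 (by positivity)
    linarith
  rw [hSB]
  have htri := abs_sub_le (((fbx s P).filter fun x => zz s d a θ x = (n : ℤ)).card : ℝ)
    ((((fbx s P).filter fun x => (n : ℤ) ≤ zz s d a θ x ∧ zz s d a θ x < (n : ℤ) + h).card : ℝ) / h)
    (VB k s * (σ / a ^ σ) * (n : ℝ) ^ (σ - 1))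
  refine htri.trans ?_
  calc _ ≤ (2 + 64 * Real.pi) * Z + (C2 * ((2 * C1 + 1) + 2 * K * C3) + 2 * (VB k s * (s : ℝ) ^ 2)) * Z :=
        add_le_add hwin (hmain.trans hfin)
    _ = _ := by ring

end Pool.Agent.U914.WP
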