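import Mathlib
import Pool.Agent.U914.WP.GH

/-! Almost all polynomials in Waring's problem: the asymptotic formula for every large number. -/

set_option autoImplicit false

open Finset MeasureTheory
open Pool.Agent.U518.WS (ms)

namespace Pool.Agent.U914.WP

/-- a dyadic scale for each number -/
theorem scale2 (k : ℕ) (hk : 1 ≤ k) (a : ℝ) (ha : 0 < a) (ν1 : ℕ) (n : ℝ) (hn : a * (2 ^ ν1) ^ k ≤ 2 * n) :
    ∃ ν : ℕ, ν1 ≤ ν ∧ a * (((2 ^ ν : ℕ) : ℝ) / 2) ^ k ≤ 2 * n ∧ 2 * n ≤ a * ((2 ^ ν : ℕ) : ℝ) ^ k := by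
  have hn0 : 0 < n := by
    have : 0 < a * (2 ^ ν1) ^ k := by positivity
    linarith
  set X : ℝ := (2 * n / a) ^ ((k : ℝ)⁻¹) with hX
  have hX0 : 0 ≤ X := by positivity
  have hXk : X ^ k = 2 * n / a := Real.rpow_inv_natCast_pow (by positivity) (by omega)
  have haX : a * X ^ k = 2 * n := by rw [hXk]; field_simp
  have hX1 : (2 : ℝ) ^ ν1 ≤ X := by
    apply le_of_pow_le_pow_left₀ (by omega : k ≠ 0) hX0
    have : a * (2 ^ ν1) ^ k ≤ a * X ^ k := by rw [haX]; exact hn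
    exact le_of_mul_le_mul_left this ha
  have h1 : (1 : ℝ) ≤ 2 ^ ν1 := one_le_pow₀ (by norm_num)
  obtain ⟨μ, hμ1, hμ2⟩ := exists_nat_pow_near (x := X) (y := 2) (by linarith) (by norm_num)
  have hμ : ν1 ≤ μ + 1 := by
    have h2 : (2 : ℝ) ^ ν1 < 2 ^ (μ + 1) := by linarith
    have h3 : ν1 < μ + 1 := (pow_lt_pow_iff_right₀ (by norm_num : (1 : ℝ) < 2)).1 h2
    omega
  refine ⟨μ + 1, hμ, ?_, ?_⟩
  · rw [← haX]
    apply mul_le_mul_of_nonneg_left _ ha.le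
    apply pow_le_pow_left₀ (by positivity)
    push_cast
    rw [pow_succ]
    linarith
  · rw [← haX]
    apply mul_le_mul_of_nonneg_left _ ha.le
    apply pow_le_pow_left₀ hX0
    push_cast
    exact hμ2.le

/-- the number of representations with positive variables -/
noncomputable def rz (s d : ℕ) (a : ℝ) (θ : Fin d → ℝ) (n : ℕ) : ℕ :=
  {x : Fin s → ℕ | (∀ i, 0 < x i) ∧ ∑ i, ⌊pf d a θ (x i)⌋ = (n : ℤ)}.ncard

theorem rz_eq (s d : ℕ) (hs : 1 ≤ s) (a : ℝ) (ha : 0 < a) (θ : Fin d → ℝ) : ∀ᶠ n : ℕ in Filter.atTop, ∀ P : ℕ,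
    2 * (n : ℝ) ≤ a * (P : ℝ) ^ (d + 1) →
    rz s d a θ n = ((fbx s P).filter fun x => zz s d a θ x = (n : ℤ)).card := by
  obtain ⟨B, hB, hg⟩ := pf_growth d a ha θ (1 / 4) (by norm_num)
  have hev : ∀ᶠ n : ℕ in Filter.atTop, 2 * (s * (B + 1)) ≤ (n : ℝ) := tendsto_natCast_atTop_atTop.eventually_ge_atTop _
  filter_upwards [hev] with n hn P hP
  unfold rz
  rw [← Set.ncard_coe_finset]
  congr 1
  ext x
  simp only [coe_filter, mem_fbx, Set.mem_ofPred_eq]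
  constructor
  · rintro ⟨h1, h2⟩
    refine ⟨fun i => ⟨h1 i, ?_⟩, h2⟩
    have h3 : ∑ j, ((1 - 1 / 4) * a * (x j : ℝ) ^ (d + 1)) ≤ n + s * (B + 1) := by
      have h4 : ∀ j, (1 - 1 / 4) * a * (x j : ℝ) ^ (d + 1) ≤ (⌊pf d a θ (x j)⌋ : ℝ) + (B + 1) := by
        intro j
        have h5 := hg (x j)
        have h6 := (Int.lt_floor_add_one (pf d a θ (x j))).le
        linarith
      calc _ ≤ ∑ j, ((⌊pf d a θ (x j)⌋ : ℝ) + (B + 1)) := sum_le_sum fun j _ => h4 j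
        _ = ((∑ j, ⌊pf d a θ (x j)⌋ : ℤ) : ℝ) + s * (B + 1) := by
            rw [sum_add_distrib, sum_const, card_univ, Fintype.card_fin, nsmul_eq_mul]
            push_cast
            ring
        _ = _ := by rw [h2]; push_cast; ring
    have h4 : (1 - 1 / 4) * a * (x i : ℝ) ^ (d + 1) ≤ n + s * (B + 1) :=
      (single_le_sum (f := fun j => (1 - 1 / 4) * a * (x j : ℝ) ^ (d + 1)) (fun j _ => by
        have : 0 ≤ a * (x j : ℝ) ^ (d + 1) := by positivity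
        show 0 ≤ (1 - 1 / 4) * a * (x j : ℝ) ^ (d + 1)
        linarith) (mem_univ i)).trans h3
    have h5 : a * (x i : ℝ) ^ (d + 1) ≤ a * (P : ℝ) ^ (d + 1) := by linarith
    have h6 := le_of_pow_le_pow_left₀ (by omega : d + 1 ≠ 0) (Nat.cast_nonneg _) (le_of_mul_le_mul_left h5 ha)
    exact_mod_cast h6
  · rintro ⟨h1, h2⟩
    exact ⟨fun i => (h1 i).1, h2⟩

/-- **The asymptotic formula.** For almost all polynomials, the number of representations of `n` as a sum of `s`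
integer parts of values at positive integers is given by the expected main term, with a power saving. -/
theorem asym (d : ℕ) (hd : 1 ≤ d) (a : ℝ) (ha : 0 < a) : ∃ τ : ℝ, 0 < τ ∧ ∀ᵐ θ : Fin d → ℝ, ∀ s : ℕ,
    2 * (d + 1) + 1 ≤ s → ∀ᶠ n : ℕ in Filter.atTop,
      |(rz s d a θ n : ℝ) - SB d s a * (n : ℝ) ^ ((s : ℝ) / ((d + 1 : ℕ) : ℝ) - 1)| ≤
        (n : ℝ) ^ ((s : ℝ) / ((d + 1 : ℕ) : ℝ) - 1 - τ) := by
  obtain ⟨κ, hκ0, hκ1, hminor⟩ := minor_ae d hd a ha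
  set k : ℕ := d + 1 with hk
  have hk2 : (2 : ℝ) ≤ k := by
    have : 2 ≤ k := by omega
    exact_mod_cast this
  have hk0 : (0 : ℝ) < k := by linarith
  refine ⟨κ / (2 * k), by positivity, ae_cubes d _ fun m => ?_⟩
  have hms : ms d = (volume : Measure (Fin d → ℝ)).restrict (Set.univ.pi fun _ => Set.Ioc 0 1) := by
    rw [volume_pi, Measure.restrict_pi_pi]
  have hae := hminor m
  rw [hms, ae_restrict_iff' (MeasurableSet.univ_pi fun _ => measurableSet_Ioc)] at hae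
  filter_upwards [hae] with t ht hcube
  have ht' := ht (by rw [Set.mem_univ_pi]; exact hcube)
  intro s hs
  obtain ⟨C0, hC0, hsc⟩ := main_scale s d a ha (m + t) hs κ hκ0 hκ1
  obtain ⟨ν1, hν1⟩ := Filter.eventually_atTop.1 ((ht' s hs).and hsc)
  set σ : ℝ := (s : ℝ) / (k : ℝ) with hσ
  have hsk : (0 : ℝ) ≤ (s : ℝ) - k - κ := by
    have h1 : (2 * k + 1 : ℝ) ≤ s := by exact_mod_cast hs
    linarith
  set c5 : ℝ := 2 * (2 / a) ^ ((k : ℝ)⁻¹) with hc5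
  have hc50 : 0 < c5 := by positivity
  have hev1 : ∀ᶠ n : ℕ in Filter.atTop, a * (2 ^ ν1) ^ k ≤ (n : ℝ) := tendsto_natCast_atTop_atTop.eventually_ge_atTop _
  have hev2 : ∀ᶠ n : ℕ in Filter.atTop, (n : ℝ) ^ (-(κ / (2 * k))) ≤ 1 / (C0 * c5 ^ ((s : ℝ) - k - κ)) :=
    ((tendsto_rpow_neg_atTop (by positivity : (0 : ℝ) < κ / (2 * k))).comp
      tendsto_natCast_atTop_atTop).eventually_le_const (by positivity)
  filter_upwards [hev1, hev2, rz_eq s d (by omega) a ha (m + t)] with n hn1 hn2 hrz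
  have hn0 : (0 : ℝ) < n := lt_of_lt_of_le (by positivity) hn1
  obtain ⟨ν, hν, hs1, hs2⟩ := scale2 k (by omega) a ha ν1 n (by linarith)
  obtain ⟨hY, hS⟩ := hν1 ν hν
  rw [hrz (2 ^ ν) hs2]
  refine (hS n hs1 hs2 hY).trans ?_
  set p : ℝ := ((2 ^ ν : ℕ) : ℝ) with hp
  have hp0 : 0 < p := by positivity
  have hpn : p ≤ c5 * (n : ℝ) ^ ((k : ℝ)⁻¹) := by
    have h1 : (p / 2) ^ k ≤ 2 * n / a := by
      rw [le_div_iff₀ ha, mul_comm]
      exact hs1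
    have h2 := Real.rpow_le_rpow (by positivity) h1 (by positivity : (0 : ℝ) ≤ (k : ℝ)⁻¹)
    rw [Real.pow_rpow_inv_natCast (by positivity) (by omega)] at h2
    have h3 : 2 * (n : ℝ) / a = 2 / a * n := by ring
    rw [h3, Real.mul_rpow (by positivity) hn0.le] at h2
    rw [hc5]
    linarith
  have h4 : p ^ ((s : ℝ) - k - κ) ≤ c5 ^ ((s : ℝ) - k - κ) * (n : ℝ) ^ (σ - 1 - κ / k) := by
    calc p ^ ((s : ℝ) - k - κ) ≤ (c5 * (n : ℝ) ^ ((k : ℝ)⁻¹)) ^ ((s : ℝ) - k - κ) := Real.rpow_le_rpow hp0.le hpn hsk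
      _ = c5 ^ ((s : ℝ) - k - κ) * (n : ℝ) ^ (σ - 1 - κ / k) := by
          rw [Real.mul_rpow hc50.le (by positivity), ← Real.rpow_mul hn0.le]
          congr 2
          rw [hσ]
          field_simp
  calc C0 * p ^ ((s : ℝ) - k - κ) ≤ C0 * (c5 ^ ((s : ℝ) - k - κ) * (n : ℝ) ^ (σ - 1 - κ / k)) :=
        mul_le_mul_of_nonneg_left h4 hC0.le
    _ = C0 * c5 ^ ((s : ℝ) - k - κ) * (n : ℝ) ^ (-(κ / (2 * k))) * (n : ℝ) ^ (σ - 1 - κ / (2 * k)) := by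
        rw [mul_assoc (C0 * c5 ^ ((s : ℝ) - k - κ)), ← Real.rpow_add hn0, mul_assoc]
        congr 3
        field_simp
        ring
    _ ≤ C0 * c5 ^ ((s : ℝ) - k - κ) * (1 / (C0 * c5 ^ ((s : ℝ) - k - κ))) * (n : ℝ) ^ (σ - 1 - κ / (2 * k)) := by
        apply mul_le_mul_of_nonneg_right _ (by positivity)
        exact mul_le_mul_of_nonneg_left hn2 (by positivity)
    _ = _ := by
        rw [mul_one_div_cancel (by positivity), one_mul]

/-- the constant in terms of the Gamma function -/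
theorem SB_eq (d s : ℕ) (hs : 1 ≤ s) (a : ℝ) (ha : 0 < a) :
    SB d s a = Real.Gamma (1 + 1 / ((d + 1 : ℕ) : ℝ)) ^ s /
      (Real.Gamma ((s : ℝ) / ((d + 1 : ℕ) : ℝ)) * a ^ ((s : ℝ) / ((d + 1 : ℕ) : ℝ))) := by
  unfold SB VB
  have hk0 : (0 : ℝ) < ((d + 1 : ℕ) : ℝ) := by positivity
  have hs0 : (0 : ℝ) < s := by exact_mod_cast hs
  have hσ : 0 < (s : ℝ) / ((d + 1 : ℕ) : ℝ) := by positivity
  rw [Real.Gamma_add_one hσ.ne', add_comm (1 / ((d + 1 : ℕ) : ℝ)) 1]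
  have hG : 0 < Real.Gamma ((s : ℝ) / ((d + 1 : ℕ) : ℝ)) := Real.Gamma_pos_of_pos hσ
  have haσ : 0 < a ^ ((s : ℝ) / ((d + 1 : ℕ) : ℝ)) := by positivity
  field_simp

end Pool.Agent.U914.WP
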