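import Mathlib
import Pool.Agent.U914.WP.IM

/-! Almost all polynomials in Waring's problem, integer parts: Bessel's inequality and the exceptional set. -/

set_option autoImplicit false

open Finset MeasureTheory Complex
open Pool.Agent.U518.WS (ee norm_ee ee_add ee_sub ee_sum ee_neg ee_zero continuous_ee gg gg_nonneg ms meas_T)

namespace Pool.Agent.U914.WP

/-- the Fourier coefficient on the unit interval -/
noncomputable def fc (G : ℝ → ℂ) (n : ℤ) : ℂ := ∫ α : ℝ in Set.Icc (-(1 / 2) : ℝ) (1 / 2), ee (-(α * n)) * G α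

theorem bessel (J : Finset ℤ) (G : ℝ → ℂ) (hG : Continuous G) :
    ∑ n ∈ J, ‖fc G n‖ ^ 2 ≤ ∫ α : ℝ in Set.Icc (-(1 / 2) : ℝ) (1 / 2), ‖G α‖ ^ 2 := by
  set I0 : Set ℝ := Set.Icc (-(1 / 2) : ℝ) (1 / 2) with hI0
  set F : ℝ → ℂ := fun α => ∑ n ∈ J, fc G n * ee (α * n) with hF
  have hFc : Continuous F := continuous_finsetSum _ fun n _ => continuous_const.mul (continuous_ee.comp (by fun_prop))
  set S : ℝ := ∑ n ∈ J, ‖fc G n‖ ^ 2 with hS
  have hconj : ∀ α, (starRingEnd ℂ) (F α) = ∑ n ∈ J, (starRingEnd ℂ) (fc G n) * ee (-(α * n)) := by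
    intro α
    rw [hF]
    simp only
    rw [map_sum]
    apply sum_congr rfl
    intro n _
    rw [map_mul, ee_neg]
  have hfF : ∀ n ∈ J, fc F n = fc G n := by
    intro n hn
    unfold fc
    have e1 : ∀ α : ℝ, ee (-(α * n)) * F α = ∑ m ∈ J, fc G m * ee (α * ((m - n : ℤ) : ℝ)) := by
      intro α
      rw [hF]
      simp only
      rw [mul_sum]
      apply sum_congr rfl
      intro m _
      rw [mul_left_comm, ← ee_add]
      congr 2
      push_cast
      ring
    have hci : ∀ m : ℤ, Continuous fun α : ℝ => fc G m * ee (α * ((m - n : ℤ) : ℝ)) := fun m =>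
      continuous_const.mul (continuous_ee.comp (by fun_prop))
    rw [setIntegral_congr_fun measurableSet_Icc (g := fun α : ℝ => ∑ m ∈ J, fc G m * ee (α * ((m - n : ℤ) : ℝ)))
      fun α _ => e1 α, integral_finsetSum _ fun m _ => (hci m).continuousOn.integrableOn_Icc, sum_eq_single n]
    · rw [integral_const_mul, int_ee_half, sub_self, if_pos rfl, mul_one]
      rfl
    · intro m _ hmn
      rw [integral_const_mul, int_ee_half, if_neg (by omega), mul_zero]
    · intro h
      exact absurd hn h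
  have hinner : ∀ g : ℝ → ℂ, Continuous g → ∫ α in I0, g α * (starRingEnd ℂ) (F α) =
      ∑ n ∈ J, (starRingEnd ℂ) (fc G n) * fc g n := by
    intro g hg
    have e1 : ∀ α, g α * (starRingEnd ℂ) (F α) = ∑ n ∈ J, (starRingEnd ℂ) (fc G n) * (ee (-(α * n)) * g α) := by
      intro α
      rw [hconj, mul_sum]
      apply sum_congr rfl
      intro n _
      ring
    have hci : ∀ n : ℤ, Continuous fun α : ℝ => (starRingEnd ℂ) (fc G n) * (ee (-(α * n)) * g α) := fun n =>
      continuous_const.mul ((continuous_ee.comp (by fun_prop)).mul hg)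
    rw [setIntegral_congr_fun measurableSet_Icc (g := fun α : ℝ => ∑ n ∈ J, (starRingEnd ℂ) (fc G n) *
      (ee (-(α * n)) * g α)) fun α _ => e1 α, integral_finsetSum _ fun m _ => (hci m).continuousOn.integrableOn_Icc]
    apply sum_congr rfl
    intro n _
    rw [integral_const_mul]
    rfl
  have hsq : ∀ z : ℂ, (starRingEnd ℂ) z * z = ((‖z‖ ^ 2 : ℝ) : ℂ) := fun z => by
    rw [mul_comm, Complex.mul_conj, Complex.normSq_eq_norm_sq]
  have hGF : ∫ α in I0, G α * (starRingEnd ℂ) (F α) = (S : ℂ) := by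
    rw [hinner G hG, hS, Complex.ofReal_sum]
    exact sum_congr rfl fun n _ => hsq _
  have hFF : ∫ α in I0, F α * (starRingEnd ℂ) (F α) = (S : ℂ) := by
    rw [hinner F hFc, hS, Complex.ofReal_sum]
    apply sum_congr rfl
    intro n hn
    rw [hfF n hn]
    exact hsq _
  have hFF' : ∫ α in I0, ‖F α‖ ^ 2 = S := by
    have e1 : ∀ α, F α * (starRingEnd ℂ) (F α) = ((‖F α‖ ^ 2 : ℝ) : ℂ) := fun α => by rw [mul_comm]; exact hsq _
    rw [setIntegral_congr_fun measurableSet_Icc (g := fun α : ℝ => ((‖F α‖ ^ 2 : ℝ) : ℂ)) fun α _ => e1 α] at hFF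
    have h2 : ∫ α in I0, ((‖F α‖ ^ 2 : ℝ) : ℂ) = ((∫ α in I0, ‖F α‖ ^ 2 : ℝ) : ℂ) := integral_ofReal
    rw [h2] at hFF
    exact_mod_cast hFF
  have hiG : IntegrableOn (fun α => ‖G α‖ ^ 2) I0 := (hG.norm.pow 2).continuousOn.integrableOn_Icc
  have hiF : IntegrableOn (fun α => ‖F α‖ ^ 2) I0 := (hFc.norm.pow 2).continuousOn.integrableOn_Icc
  have h5 : S ≤ ∫ α in I0, (‖G α‖ ^ 2 + ‖F α‖ ^ 2) / 2 := by
    have h6 : ‖∫ α in I0, G α * (starRingEnd ℂ) (F α)‖ = S := by
      rw [hGF, norm_real, Real.norm_eq_abs, abs_of_nonneg]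
      exact sum_nonneg fun n _ => by positivity
    calc S = ‖∫ α in I0, G α * (starRingEnd ℂ) (F α)‖ := h6.symm
      _ ≤ ∫ α in I0, (‖G α‖ ^ 2 + ‖F α‖ ^ 2) / 2 := by
          apply norm_integral_le_of_norm_le
          · exact (hiG.add hiF).div_const 2
          · refine Filter.Eventually.of_forall fun α => ?_
            rw [norm_mul, RCLike.norm_conj]
            nlinarith [sq_nonneg (‖G α‖ - ‖F α‖)]
  rw [integral_div, integral_add hiG hiF, hFF'] at h5
  linarith

variable {ι : Type*}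

/-- the exponential sum without its main part -/
noncomputable def GM (V : Finset ι) (z : ι → ℤ) (W : ℝ) (α : ℝ) : ℂ :=
  ((1 - Real.exp (-Real.pi * (W * α) ^ 2) : ℝ) : ℂ) * ∑ x ∈ V, ee (α * (z x : ℝ))

theorem GM_cont (V : Finset ι) (z : ι → ℤ) (W : ℝ) : Continuous (GM V z W) := by
  unfold GM
  apply Continuous.mul
  · exact Complex.continuous_ofReal.comp (by fun_prop)
  · exact continuous_finsetSum _ fun x _ => continuous_ee.comp (by fun_prop)

/-- **The deviation is a Fourier coefficient.** -/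
theorem dev_eq (V : Finset ι) (z : ι → ℤ) (n : ℤ) (W : ℝ) (hW : 0 < W) :
    |((V.filter fun x => z x = n).card : ℝ) - ∑ x ∈ V, gg W ((z x : ℝ) - n)| ≤
      ‖fc (GM V z W) n‖ + V.card * (2 / W * Real.exp (-(W * (1 / 2)) ^ 2)) := by
  classical
  have hpi := Real.pi_pos
  set I0 : Set ℝ := Set.Icc (-(1 / 2) : ℝ) (1 / 2) with hI0
  set Sm : ℝ → ℂ := fun α => ∑ x ∈ V, ee (α * (z x : ℝ)) with hSm
  have hSmc : Continuous Sm := by
    apply continuous_finsetSum
    intro x _
    exact continuous_ee.comp (by fun_prop)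
  have hSmle : ∀ α, ‖Sm α‖ ≤ V.card := fun α => by
    refine (norm_sum_le _ _).trans ?_
    simp [norm_ee]
  -- the exact count
  have h1 : (((V.filter fun x => z x = n).card : ℝ) : ℂ) = ∫ α in I0, ee (-(α * n)) * Sm α := by
    have e1 : ∀ α : ℝ, ee (-(α * n)) * Sm α = ∑ x ∈ V, ee (α * ((z x - n : ℤ) : ℝ)) := by
      intro α
      rw [hSm]
      simp only
      rw [mul_sum]
      apply sum_congr rfl
      intro x _
      rw [← ee_add]
      congr 1
      push_cast
      ring
    have hci : ∀ x, Continuous fun α : ℝ => ee (α * ((z x - n : ℤ) : ℝ)) := fun x => continuous_ee.comp (by fun_prop)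
    rw [setIntegral_congr_fun measurableSet_Icc (g := fun α : ℝ => ∑ x ∈ V, ee (α * ((z x - n : ℤ) : ℝ))) fun α _ => e1 α,
      integral_finsetSum _ fun x _ => (hci x).continuousOn.integrableOn_Icc]
    rw [sum_congr rfl fun x _ => int_ee_half (z x - n), card_filter]
    push_cast
    apply sum_congr rfl
    intro x _
    by_cases h : z x = n
    · rw [if_pos h, if_pos (by omega)]
      norm_num
    · rw [if_neg h, if_neg (by omega)]
      norm_num
  have h2 := count_fourier V (fun x => (z x : ℝ)) W n hW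
  have hi2 := count_integrable V (fun x => (z x : ℝ)) W n hW
  set g : ℝ → ℂ := fun β : ℝ => ((Real.exp (-Real.pi * (W * β) ^ 2) : ℝ) : ℂ) * (ee (-(β * n)) * Sm β) with hg
  have h3 := integral_add_compl (measurableSet_Icc : MeasurableSet I0) hi2
  have hi1 : IntegrableOn (fun α : ℝ => ee (-(α * n)) * Sm α) I0 := by
    apply ContinuousOn.integrableOn_Icc
    exact ((continuous_ee.comp (by fun_prop)).mul hSmc).continuousOn
  have h4 : fc (GM V z W) n = (((V.filter fun x => z x = n).card : ℝ) : ℂ) - ∫ α in I0, g α := by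
    rw [h1, ← integral_sub hi1 hi2.integrableOn]
    unfold fc GM
    apply setIntegral_congr_fun measurableSet_Icc
    intro α _
    simp only [hg, hSm]
    push_cast
    ring
  have h5 : ((((V.filter fun x => z x = n).card : ℝ) - ∑ x ∈ V, gg W ((z x : ℝ) - n) : ℝ) : ℂ) =
      fc (GM V z W) n - ∫ α in I0ᶜ, g α := by
    rw [h4, Complex.ofReal_sub, h2, ← h3]
    ring
  have h6 : ‖∫ α in I0ᶜ, g α‖ ≤ V.card * (2 / W * Real.exp (-(W * (1 / 2)) ^ 2)) := by
    have h7 : ‖∫ α in I0ᶜ, g α‖ₑ ≤ ENNReal.ofReal (V.card * (2 / W * Real.exp (-(W * (1 / 2)) ^ 2))) := by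
      refine (enorm_integral_le_lintegral_enorm _).trans ?_
      have hm3 : Measurable fun α : ℝ => {α : ℝ | 1 / 2 < |α|}.indicator (fun α => ENNReal.ofReal (Real.exp (-Real.pi * (W * α) ^ 2))) α := by
        apply Measurable.indicator
        · fun_prop
        · exact measurableSet_lt measurable_const continuous_abs.measurable
      calc ∫⁻ α in I0ᶜ, ‖g α‖ₑ ≤ ∫⁻ α in I0ᶜ, ENNReal.ofReal V.card *
            {α : ℝ | 1 / 2 < |α|}.indicator (fun α => ENNReal.ofReal (Real.exp (-Real.pi * (W * α) ^ 2))) α := by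
            apply setLIntegral_mono' measurableSet_Icc.compl
            intro α hα
            have hmem : α ∈ {α : ℝ | 1 / 2 < |α|} := by
              show 1 / 2 < |α|
              by_contra hcon
              apply hα
              have := abs_le.1 (not_lt.1 hcon)
              exact ⟨by linarith [this.1], this.2⟩
            rw [Set.indicator_of_mem hmem, ← ofReal_norm, ← ENNReal.ofReal_mul (Nat.cast_nonneg _), mul_comm]
            apply ENNReal.ofReal_le_ofReal
            rw [hg]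
            simp only
            rw [norm_mul, norm_mul, norm_ee, one_mul, norm_real, Real.norm_eq_abs, abs_of_pos (Real.exp_pos _)]
            exact mul_le_mul_of_nonneg_left (hSmle α) (Real.exp_pos _).le
        _ ≤ ∫⁻ α, ENNReal.ofReal V.card *
            {α : ℝ | 1 / 2 < |α|}.indicator (fun α => ENNReal.ofReal (Real.exp (-Real.pi * (W * α) ^ 2))) α :=
            setLIntegral_le_lintegral _ _
        _ ≤ _ := by
            rw [lintegral_const_mul _ hm3, ENNReal.ofReal_mul (Nat.cast_nonneg _)]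
            exact mul_le_mul_right (tailint W (1 / 2) hW (by norm_num)) _
    rw [← ofReal_norm] at h7
    exact (ENNReal.ofReal_le_ofReal_iff (by positivity)).1 h7
  have h8 : |((V.filter fun x => z x = n).card : ℝ) - ∑ x ∈ V, gg W ((z x : ℝ) - n)| =
      ‖fc (GM V z W) n - ∫ α in I0ᶜ, g α‖ := by
    rw [← h5, norm_real, Real.norm_eq_abs]
  rw [h8]
  refine (norm_sub_le _ _).trans ?_
  linarith

/-- **The mean square of the deviation.** -/
theorem dev_sq (V : Finset ι) (z : ι → ℤ) (W T B : ℝ) (hW : 0 < W) (hT : 0 < T) (hB : 0 ≤ B)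
    (h : (∫⁻ α in {α : ℝ | T ≤ |α|} ∩ Set.Icc (-(1 / 2) : ℝ) (1 / 2),
      ENNReal.ofReal (‖∑ x ∈ V, ee (α * (z x : ℝ))‖ ^ 2)) ≤ ENNReal.ofReal B) (J : Finset ℤ) :
    ∑ n ∈ J, ‖fc (GM V z W) n‖ ^ 2 ≤ B + 2 * Real.pi ^ 2 * W ^ 4 * T ^ 5 * (V.card : ℝ) ^ 2 := by
  have hpi := Real.pi_pos
  refine (bessel J _ (GM_cont V z W)).trans ?_
  set I0 : Set ℝ := Set.Icc (-(1 / 2) : ℝ) (1 / 2) with hI0
  have hSmc : Continuous fun α : ℝ => ∑ x ∈ V, ee (α * (z x : ℝ)) := by
    apply continuous_finsetSum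
    intro x _
    exact continuous_ee.comp (by fun_prop)
  have hSmle : ∀ α : ℝ, ‖∑ x ∈ V, ee (α * (z x : ℝ))‖ ≤ V.card := fun α => by
    refine (norm_sum_le _ _).trans ?_
    simp [norm_ee]
  have h1 : ∫ α in I0, ‖GM V z W α‖ ^ 2 = (∫⁻ α in I0, ENNReal.ofReal (‖GM V z W α‖ ^ 2)).toReal := by
    rw [integral_eq_lintegral_of_nonneg_ae (Filter.Eventually.of_forall fun α => by positivity)]
    exact ((GM_cont V z W).norm.pow 2).aestronglyMeasurable
  rw [h1]
  apply ENNReal.toReal_le_of_le_ofReal (by positivity)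
  have hpt : ∀ α ∈ I0, ENNReal.ofReal (‖GM V z W α‖ ^ 2) ≤
      {α : ℝ | T ≤ |α|}.indicator (fun α : ℝ => ENNReal.ofReal (‖∑ x ∈ V, ee (α * (z x : ℝ))‖ ^ 2)) α +
      (Set.Icc (-T) T).indicator (fun _ => ENNReal.ofReal (Real.pi ^ 2 * W ^ 4 * T ^ 4 * (V.card : ℝ) ^ 2)) α := by
    intro α _
    have he0 : 0 < Real.exp (-Real.pi * (W * α) ^ 2) := Real.exp_pos _
    have he1 : Real.exp (-Real.pi * (W * α) ^ 2) ≤ 1 := by
      rw [Real.exp_le_one_iff]
      have h3 : 0 ≤ Real.pi * (W * α) ^ 2 := by positivity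
      linarith
    have hn : ‖GM V z W α‖ = (1 - Real.exp (-Real.pi * (W * α) ^ 2)) * ‖∑ x ∈ V, ee (α * (z x : ℝ))‖ := by
      unfold GM
      rw [norm_mul, norm_real, Real.norm_eq_abs, abs_of_nonneg (by linarith)]
    rcases le_or_gt T |α| with hc | hc
    · rw [Set.indicator_of_mem (show α ∈ {α : ℝ | T ≤ |α|} from hc)]
      refine le_trans ?_ le_self_add
      apply ENNReal.ofReal_le_ofReal
      apply pow_le_pow_left₀ (norm_nonneg _)
      rw [hn]
      calc (1 - Real.exp (-Real.pi * (W * α) ^ 2)) * ‖∑ x ∈ V, ee (α * (z x : ℝ))‖ ≤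
            1 * ‖∑ x ∈ V, ee (α * (z x : ℝ))‖ := mul_le_mul_of_nonneg_right (by linarith) (norm_nonneg _)
        _ = _ := one_mul _
    · rw [Set.indicator_of_mem (show α ∈ Set.Icc (-T) T from abs_le.1 hc.le)]
      refine le_trans ?_ le_add_self
      apply ENNReal.ofReal_le_ofReal
      have h5 := Real.add_one_le_exp (-Real.pi * (W * α) ^ 2)
      have h6 : α ^ 2 ≤ T ^ 2 := by
        rw [← sq_abs α]
        exact pow_le_pow_left₀ (abs_nonneg _) hc.le 2
      have h7 : Real.pi * (W * α) ^ 2 ≤ Real.pi * W ^ 2 * T ^ 2 := by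
        calc Real.pi * (W * α) ^ 2 = Real.pi * W ^ 2 * α ^ 2 := by ring
          _ ≤ _ := mul_le_mul_of_nonneg_left h6 (by positivity)
      have h8 : ‖GM V z W α‖ ≤ Real.pi * W ^ 2 * T ^ 2 * V.card := by
        rw [hn]
        exact mul_le_mul (by linarith) (hSmle α) (norm_nonneg _) (by positivity)
      calc ‖GM V z W α‖ ^ 2 ≤ (Real.pi * W ^ 2 * T ^ 2 * V.card) ^ 2 := pow_le_pow_left₀ (norm_nonneg _) h8 2
        _ = _ := by ring
  calc ∫⁻ α in I0, ENNReal.ofReal (‖GM V z W α‖ ^ 2) ≤ ∫⁻ α in I0,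
        ({α : ℝ | T ≤ |α|}.indicator (fun α : ℝ => ENNReal.ofReal (‖∑ x ∈ V, ee (α * (z x : ℝ))‖ ^ 2)) α +
      (Set.Icc (-T) T).indicator (fun _ => ENNReal.ofReal (Real.pi ^ 2 * W ^ 4 * T ^ 4 * (V.card : ℝ) ^ 2)) α) :=
        setLIntegral_mono' measurableSet_Icc hpt
    _ = (∫⁻ α in {α : ℝ | T ≤ |α|} ∩ I0, ENNReal.ofReal (‖∑ x ∈ V, ee (α * (z x : ℝ))‖ ^ 2)) +
        ∫⁻ α in I0, (Set.Icc (-T) T).indicator (fun _ => ENNReal.ofReal (Real.pi ^ 2 * W ^ 4 * T ^ 4 * (V.card : ℝ) ^ 2)) α := by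
        rw [lintegral_add_right _ (measurable_const.indicator measurableSet_Icc), lintegral_indicator (meas_T T),
          Measure.restrict_restrict (meas_T T)]
    _ ≤ ENNReal.ofReal B + ENNReal.ofReal (2 * Real.pi ^ 2 * W ^ 4 * T ^ 5 * (V.card : ℝ) ^ 2) := by
        apply add_le_add h
        refine (setLIntegral_le_lintegral _ _).trans ?_
        rw [lintegral_indicator_const measurableSet_Icc, Real.volume_Icc, ← ENNReal.ofReal_mul (by positivity)]
        apply ENNReal.ofReal_le_ofReal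
        apply le_of_eq
        ring
    _ = _ := by rw [← ENNReal.ofReal_add hB (by positivity)]

end Pool.Agent.U914.WP
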