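import Mathlib
import Pool.Agent.U914.WP.GJ
import Pool.Agent.U914.WP.IA

/-! Almost all polynomials in Waring's problem: the mean square of the number of representations. -/

set_option autoImplicit false

open Finset MeasureTheory Complex
open Pool.Agent.U518.WS (ee norm_ee ee_add ee_sub ee_sum ee_neg ee_zero continuous_ee m1 ms meas_T)

namespace Pool.Agent.U914.WP

/-- from the unit cubes to almost all parameters -/
theorem ae_par (d : ℕ) (p : (Fin d → ℝ) → Prop) (h : ∀ m : Fin d → ℝ, ∀ᵐ t' ∂(ms d), p (m + t')) :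
    ∀ᵐ θ : Fin d → ℝ, p θ := by
  apply ae_cubes d
  intro m
  have hms : ms d = (volume : Measure (Fin d → ℝ)).restrict (Set.univ.pi fun _ => Set.Ioc 0 1) := by
    rw [volume_pi, Measure.restrict_pi_pi]
  have hae := h m
  rw [hms, ae_restrict_iff' (MeasurableSet.univ_pi fun _ => measurableSet_Ioc)] at hae
  filter_upwards [hae] with t ht hcube
  exact ht (by rw [Set.mem_univ_pi]; exact hcube)

theorem KK_all (d : ℕ) (a : ℝ) (ha : 0 < a) : ∀ᵐ θ : Fin d → ℝ, ∀ ε : ℝ, 0 < ε → ∀ᶠ ν : ℕ in Filter.atTop,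
    KK d a (2 ^ ν) θ ≤ ENNReal.ofReal (((2 ^ ν : ℕ) : ℝ) ^ (((d + 1 : ℕ) : ℝ) + ε)) := by
  have h1 : ∀ᵐ θ : Fin d → ℝ, ∀ m : ℕ, ∀ᶠ ν : ℕ in Filter.atTop,
      KK d a (2 ^ ν) θ ≤ ENNReal.ofReal (((2 ^ ν : ℕ) : ℝ) ^ (((d + 1 : ℕ) : ℝ) + 1 / (m + 1))) := by
    rw [ae_all_iff]
    intro m
    apply ae_par
    intro m'
    exact KK_ae d a ha (1 / (m + 1)) (by positivity) m'
  filter_upwards [h1] with θ h ε hε
  obtain ⟨m, hm⟩ := exists_nat_one_div_lt hε
  filter_upwards [h m] with ν hν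
  refine hν.trans (ENNReal.ofReal_le_ofReal ?_)
  apply Real.rpow_le_rpow_of_exponent_le
  · exact_mod_cast Nat.one_le_two_pow
  · linarith

/-- the moments -/
noncomputable def KL (l d : ℕ) (a : ℝ) (P : ℕ) (θ : Fin d → ℝ) : ENNReal :=
  ∫⁻ α in Set.Icc (-(1 / 2) : ℝ) (1 / 2), ENNReal.ofReal (‖SF d a θ P α‖ ^ (2 * l))

theorem KL_le (l d : ℕ) (a : ℝ) (P : ℕ) (hP : 1 ≤ P) (θ : Fin d → ℝ) (ε : ℝ) (hε : 0 ≤ ε)
    (h : KK d a P θ ≤ ENNReal.ofReal ((P : ℝ) ^ (((d + 1 : ℕ) : ℝ) + ε))) :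
    KL l d a P θ ≤ ENNReal.ofReal (2 * (P : ℝ) ^ (max (l : ℝ) (2 * l - ((d + 1 : ℕ) : ℝ)) + ε)) := by
  set k : ℕ := d + 1 with hk
  set I0 : Set ℝ := Set.Icc (-(1 / 2) : ℝ) (1 / 2) with hI0
  have hp1 : (1 : ℝ) ≤ P := by exact_mod_cast hP
  have hp0 : (0 : ℝ) < P := by linarith
  have hFm : Measurable fun α => ENNReal.ofReal (‖SF d a θ P α‖ ^ (2 * k)) := by
    apply Continuous.measurable
    apply ENNReal.continuous_ofReal.comp
    exact (SF_cont d a θ P).norm.pow _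
  have hKK : KK d a P θ = ∫⁻ α in I0, ENNReal.ofReal (‖SF d a θ P α‖ ^ (2 * k)) := rfl
  unfold KL
  rcases le_total k l with hl | hl
  · have hpt : ∀ α : ℝ, ENNReal.ofReal (‖SF d a θ P α‖ ^ (2 * l)) ≤
        ENNReal.ofReal ((P : ℝ) ^ (2 * l - 2 * k)) * ENNReal.ofReal (‖SF d a θ P α‖ ^ (2 * k)) := by
      intro α
      rw [← ENNReal.ofReal_mul (by positivity)]
      apply ENNReal.ofReal_le_ofReal
      have e1 : ‖SF d a θ P α‖ ^ (2 * l) = ‖SF d a θ P α‖ ^ (2 * l - 2 * k) * ‖SF d a θ P α‖ ^ (2 * k) := by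
        rw [← pow_add]
        congr 1
        omega
      rw [e1]
      exact mul_le_mul_of_nonneg_right (pow_le_pow_left₀ (norm_nonneg _) (SF_norm_le d a θ P α) _) (by positivity)
    calc _ ≤ ∫⁻ α in I0, ENNReal.ofReal ((P : ℝ) ^ (2 * l - 2 * k)) * ENNReal.ofReal (‖SF d a θ P α‖ ^ (2 * k)) :=
          lintegral_mono hpt
      _ = ENNReal.ofReal ((P : ℝ) ^ (2 * l - 2 * k)) * KK d a P θ := by
          rw [lintegral_const_mul _ hFm, hKK]
      _ ≤ ENNReal.ofReal ((P : ℝ) ^ (2 * l - 2 * k)) * ENNReal.ofReal ((P : ℝ) ^ ((k : ℝ) + ε)) := mul_le_mul_right h _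
      _ ≤ _ := by
          rw [← ENNReal.ofReal_mul (by positivity)]
          apply ENNReal.ofReal_le_ofReal
          rw [← Real.rpow_natCast, ← Real.rpow_add hp0, Nat.cast_sub (by omega)]
          push_cast
          have h1 : (P : ℝ) ^ (2 * (l : ℝ) - 2 * k + (k + ε)) ≤ (P : ℝ) ^ (max (l : ℝ) (2 * l - k) + ε) := by
            apply Real.rpow_le_rpow_of_exponent_le hp1
            have := le_max_right (l : ℝ) (2 * l - k)
            linarith
          have h2 : 0 ≤ (P : ℝ) ^ (max (l : ℝ) (2 * l - k) + ε) := by positivity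
          linarith
  · have hlam : (0 : ℝ) < (P : ℝ) ^ ((1 : ℝ) / 2) := by positivity
    have hpt : ∀ α : ℝ, ENNReal.ofReal (‖SF d a θ P α‖ ^ (2 * l)) ≤ ENNReal.ofReal ((P : ℝ) ^ (l : ℝ)) +
        ENNReal.ofReal ((P : ℝ) ^ ((l : ℝ) - k)) * ENNReal.ofReal (‖SF d a θ P α‖ ^ (2 * k)) := by
      intro α
      rw [← ENNReal.ofReal_mul (by positivity), ← ENNReal.ofReal_add (by positivity) (by positivity)]
      apply ENNReal.ofReal_le_ofReal
      set t : ℝ := ‖SF d a θ P α‖ with ht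
      have ht0 : 0 ≤ t := norm_nonneg _
      rcases le_total (t ^ 2) P with hc | hc
      · have h1 : t ^ (2 * l) ≤ (P : ℝ) ^ (l : ℝ) := by
          rw [pow_mul, Real.rpow_natCast]
          exact pow_le_pow_left₀ (by positivity) hc l
        have h2 : 0 ≤ (P : ℝ) ^ ((l : ℝ) - k) * t ^ (2 * k) := by positivity
        linarith
      · have h1 : t ^ (2 * l) ≤ (P : ℝ) ^ ((l : ℝ) - k) * t ^ (2 * k) := by
          have e1 : t ^ (2 * k) = (t ^ 2) ^ (k - l) * t ^ (2 * l) := by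
            rw [← pow_mul, ← pow_add]
            congr 1
            omega
          have h3 : (P : ℝ) ^ (k - l) ≤ (t ^ 2) ^ (k - l) := pow_le_pow_left₀ hp0.le hc _
          have e2 : (P : ℝ) ^ ((l : ℝ) - k) * (P : ℝ) ^ (k - l) = 1 := by
            rw [← Real.rpow_natCast (P : ℝ) (k - l), ← Real.rpow_add hp0, Nat.cast_sub hl]
            have : (l : ℝ) - k + (k - l) = 0 := by ring
            rw [this, Real.rpow_zero]
          calc t ^ (2 * l) = (P : ℝ) ^ ((l : ℝ) - k) * (P : ℝ) ^ (k - l) * t ^ (2 * l) := by rw [e2, one_mul]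
            _ ≤ (P : ℝ) ^ ((l : ℝ) - k) * (t ^ 2) ^ (k - l) * t ^ (2 * l) := by
                apply mul_le_mul_of_nonneg_right _ (by positivity)
                exact mul_le_mul_of_nonneg_left h3 (by positivity)
            _ = _ := by rw [e1]; ring
        have h2 : 0 ≤ (P : ℝ) ^ (l : ℝ) := by positivity
        linarith
    calc _ ≤ ∫⁻ α in I0, (ENNReal.ofReal ((P : ℝ) ^ (l : ℝ)) +
          ENNReal.ofReal ((P : ℝ) ^ ((l : ℝ) - k)) * ENNReal.ofReal (‖SF d a θ P α‖ ^ (2 * k))) := lintegral_mono hpt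
      _ = ENNReal.ofReal ((P : ℝ) ^ (l : ℝ)) + ENNReal.ofReal ((P : ℝ) ^ ((l : ℝ) - k)) * KK d a P θ := by
          rw [lintegral_add_left measurable_const, lintegral_const_mul _ hFm, hKK, setLIntegral_const, hI0,
            Real.volume_Icc]
          norm_num
      _ ≤ ENNReal.ofReal ((P : ℝ) ^ (l : ℝ)) + ENNReal.ofReal ((P : ℝ) ^ ((l : ℝ) - k)) *
            ENNReal.ofReal ((P : ℝ) ^ ((k : ℝ) + ε)) := add_le_add le_rfl (mul_le_mul_right h _)
      _ ≤ _ := by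
          rw [← ENNReal.ofReal_mul (by positivity), ← ENNReal.ofReal_add (by positivity) (by positivity),
            ← Real.rpow_add hp0]
          apply ENNReal.ofReal_le_ofReal
          have h0 := le_max_left (l : ℝ) (2 * l - k)
          have h1 : (P : ℝ) ^ (l : ℝ) ≤ (P : ℝ) ^ (max (l : ℝ) (2 * l - k) + ε) :=
            Real.rpow_le_rpow_of_exponent_le hp1 (by linarith)
          have h2 : (P : ℝ) ^ ((l : ℝ) - k + (k + ε)) ≤ (P : ℝ) ^ (max (l : ℝ) (2 * l - k) + ε) :=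
            Real.rpow_le_rpow_of_exponent_le hp1 (by linarith)
          linarith

/-- the mean square of the number of representations in a box -/
theorem sq_box (l d : ℕ) (a : ℝ) (P : ℕ) (θ : Fin d → ℝ) (J : Finset ℤ) :
    ENNReal.ofReal (∑ n ∈ J, (((fbx l P).filter fun x => zz l d a θ x = n).card : ℝ) ^ 2) ≤ KL l d a P θ := by
  have h1 := bessel J (fun α => SF d a θ P α ^ l) ((SF_cont d a θ P).pow l)
  have h2 : ∀ n : ℤ, ‖fc (fun α => SF d a θ P α ^ l) n‖ = (((fbx l P).filter fun x => zz l d a θ x = n).card : ℝ) := by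
    intro n
    have h3 := count_z (fbx l P) (zz l d a θ) n
    have h4 : fc (fun α => SF d a θ P α ^ l) n = (((((fbx l P).filter fun x => zz l d a θ x = n).card : ℝ)) : ℂ) := by
      rw [h3]
      unfold fc
      apply setIntegral_congr_fun measurableSet_Icc
      intro α _
      simp only
      rw [SF_pow]
    rw [h4, norm_real, Real.norm_of_nonneg (Nat.cast_nonneg _)]
  simp only [h2] at h1
  refine (ENNReal.ofReal_le_ofReal h1).trans ?_
  unfold KL
  rw [ofReal_integral_eq_lintegral_ofReal]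
  · apply le_of_eq
    apply lintegral_congr
    intro α
    congr 1
    rw [norm_pow, ← pow_mul, mul_comm]
  · exact (((SF_cont d a θ P).pow l).norm.pow 2).continuousOn.integrableOn_Icc
  · exact Filter.Eventually.of_forall fun α => by positivity

/-- **The mean square of the number of representations.** -/
theorem mean_sq (d : ℕ) (a : ℝ) (ha : 0 < a) : ∀ᵐ θ : Fin d → ℝ, ∀ l : ℕ, 1 ≤ l → ∀ ε : ℝ, 0 < ε →
    ∀ᶠ X : ℕ in Filter.atTop, ∑ n ∈ Icc 1 X, (rz l d a θ n : ℝ) ^ 2 ≤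
      (X : ℝ) ^ (max ((l : ℝ) / ((d + 1 : ℕ) : ℝ)) (2 * l / ((d + 1 : ℕ) : ℝ) - 1) + ε) := by
  filter_upwards [KK_all d a ha] with θ hθ l hl ε hε
  set k : ℕ := d + 1 with hk
  have hk0 : (0 : ℝ) < k := by positivity
  have hk1 : (1 : ℝ) ≤ k := by
    have : 1 ≤ k := by omega
    exact_mod_cast this
  have hl1 : (1 : ℝ) ≤ l := by exact_mod_cast hl
  obtain ⟨n0, hn0⟩ := Filter.eventually_atTop.1 (rz_eq l d hl a ha θ)
  obtain ⟨ν1, hν1⟩ := Filter.eventually_atTop.1 (hθ (ε / 2) (by positivity))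
  set M : ℝ := max (l : ℝ) (2 * l - k) with hM
  have hM1 : 1 ≤ M := hl1.trans (le_max_left _ _)
  set c5 : ℝ := 2 * (2 / a) ^ ((k : ℝ)⁻¹) with hc5
  have hc50 : 0 < c5 := by positivity
  set A : ℝ := ∑ n ∈ range n0, (rz l d a θ n : ℝ) ^ 2 with hA
  have hA0 : 0 ≤ A := sum_nonneg fun n _ => by positivity
  set C : ℝ := A + 2 * c5 ^ (M + ε / 2) with hC
  have hC0 : 0 < C := by positivity
  have hev1 : ∀ᶠ X : ℕ in Filter.atTop, a * (2 ^ ν1) ^ k ≤ (X : ℝ) := tendsto_natCast_atTop_atTop.eventually_ge_atTop _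
  have hev2 : ∀ᶠ X : ℕ in Filter.atTop, (X : ℝ) ^ (-(ε / 2)) ≤ 1 / C :=
    ((tendsto_rpow_neg_atTop (by positivity : (0 : ℝ) < ε / 2)).comp
      tendsto_natCast_atTop_atTop).eventually_le_const (by positivity)
  filter_upwards [hev1, hev2, Filter.eventually_ge_atTop 1] with X hX1 hX2 hX3
  have hXr : (1 : ℝ) ≤ X := by exact_mod_cast hX3
  have hX0 : (0 : ℝ) < X := by linarith
  obtain ⟨ν, hν, hs1, hs2⟩ := scale2 k (by omega) a ha ν1 X (by linarith)
  have hKL := KL_le l d a (2 ^ ν) Nat.one_le_two_pow θ (ε / 2) (by positivity) (hν1 ν hν)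
  set p : ℝ := ((2 ^ ν : ℕ) : ℝ) with hp
  have hp0 : 0 < p := by positivity
  have hpn : p ≤ c5 * (X : ℝ) ^ ((k : ℝ)⁻¹) := by
    have h1 : (p / 2) ^ k ≤ 2 * X / a := by
      rw [le_div_iff₀ ha, mul_comm]
      exact hs1
    have h2 := Real.rpow_le_rpow (by positivity) h1 (by positivity : (0 : ℝ) ≤ (k : ℝ)⁻¹)
    rw [Real.pow_rpow_inv_natCast (by positivity) (by omega)] at h2
    have h3 : 2 * (X : ℝ) / a = 2 / a * X := by ring
    rw [h3, Real.mul_rpow (by positivity) hX0.le] at h2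
    rw [hc5]
    linarith
  -- the numbers from `n0` on
  have h1 : ∑ n ∈ (Icc 1 X).filter (fun n => n0 ≤ n), (rz l d a θ n : ℝ) ^ 2 ≤ 2 * p ^ (M + ε / 2) := by
    have h2 : ∀ n ∈ (Icc 1 X).filter (fun n => n0 ≤ n), (rz l d a θ n : ℝ) ^ 2 =
        (((fbx l (2 ^ ν)).filter fun x => zz l d a θ x = (n : ℤ)).card : ℝ) ^ 2 := by
      intro n hn
      rw [mem_filter, mem_Icc] at hn
      rw [hn0 n hn.2 (2 ^ ν)]
      refine le_trans ?_ hs2
      have : (n : ℝ) ≤ X := by exact_mod_cast hn.1.2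
      linarith
    rw [sum_congr rfl h2]
    have h3 := (sq_box l d a (2 ^ ν) θ (((Icc 1 X).filter (fun n => n0 ≤ n)).image fun n : ℕ => (n : ℤ))).trans hKL
    rw [sum_image (fun x _ y _ h => by exact_mod_cast h)] at h3
    exact (ENNReal.ofReal_le_ofReal_iff (by positivity)).1 h3
  have h2 : ∑ n ∈ (Icc 1 X).filter (fun n => ¬ n0 ≤ n), (rz l d a θ n : ℝ) ^ 2 ≤ A := by
    rw [hA]
    apply sum_le_sum_of_subset_of_nonneg
    · intro n hn
      rw [mem_filter, mem_Icc] at hn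
      rw [mem_range]
      omega
    · intro n _ _
      positivity
  have h3 : p ^ (M + ε / 2) ≤ c5 ^ (M + ε / 2) * (X : ℝ) ^ (M / k + ε / 2) := by
    calc p ^ (M + ε / 2) ≤ (c5 * (X : ℝ) ^ ((k : ℝ)⁻¹)) ^ (M + ε / 2) := Real.rpow_le_rpow hp0.le hpn (by linarith)
      _ = c5 ^ (M + ε / 2) * (X : ℝ) ^ ((k : ℝ)⁻¹ * (M + ε / 2)) := by
          rw [Real.mul_rpow hc50.le (by positivity), ← Real.rpow_mul hX0.le]
      _ ≤ _ := by
          apply mul_le_mul_of_nonneg_left _ (by positivity)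
          apply Real.rpow_le_rpow_of_exponent_le hXr
          have h4 : (k : ℝ)⁻¹ ≤ 1 := inv_le_one_of_one_le₀ hk1
          have h5 : (k : ℝ)⁻¹ * (ε / 2) ≤ 1 * (ε / 2) := mul_le_mul_of_nonneg_right h4 (by positivity)
          have h6 : (k : ℝ)⁻¹ * M = M / k := by rw [mul_comm, div_eq_mul_inv]
          rw [mul_add, h6]
          linarith
  have hMk : M / k = max ((l : ℝ) / k) (2 * l / k - 1) := by
    rw [hM, ← max_div_div_right hk0.le]
    congr 1
    field_simp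
  have h4 : (1 : ℝ) ≤ (X : ℝ) ^ (M / k + ε / 2) := Real.one_le_rpow hXr (by positivity)
  calc ∑ n ∈ Icc 1 X, (rz l d a θ n : ℝ) ^ 2 =
        ∑ n ∈ (Icc 1 X).filter (fun n => n0 ≤ n), (rz l d a θ n : ℝ) ^ 2 +
        ∑ n ∈ (Icc 1 X).filter (fun n => ¬ n0 ≤ n), (rz l d a θ n : ℝ) ^ 2 :=
        (sum_filter_add_sum_filter_not _ _ _).symm
    _ ≤ 2 * (c5 ^ (M + ε / 2) * (X : ℝ) ^ (M / k + ε / 2)) + A * (X : ℝ) ^ (M / k + ε / 2) := by
        apply add_le_add
        · exact h1.trans (mul_le_mul_of_nonneg_left h3 (by norm_num))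
        · exact h2.trans (le_mul_of_one_le_right hA0 h4)
    _ = C * (X : ℝ) ^ (-(ε / 2)) * (X : ℝ) ^ (M / k + ε) := by
        rw [mul_assoc C, ← Real.rpow_add hX0, hC]
        have : -(ε / 2) + (M / k + ε) = M / k + ε / 2 := by ring
        rw [this]
        ring
    _ ≤ C * (1 / C) * (X : ℝ) ^ (M / k + ε) := by
        apply mul_le_mul_of_nonneg_right _ (by positivity)
        exact mul_le_mul_of_nonneg_left hX2 hC0.le
    _ = (X : ℝ) ^ (max ((l : ℝ) / k) (2 * l / k - 1) + ε) := by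
        rw [mul_one_div_cancel hC0.ne', one_mul, hMk]

end Pool.Agent.U914.WP
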