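import Mathlib
import Pool.Agent.U914.WP.GK

/-! Almost all polynomials in Waring's problem: exponential sums over arbitrary sets. -/

set_option autoImplicit false

open Finset MeasureTheory Complex
open Pool.Agent.U518.WS (ee norm_ee ee_add ee_sub ee_sum ee_neg ee_zero continuous_ee m1 ms gg gg_nonneg meas_T)

namespace Pool.Agent.U914.WP

/-- the exponential sum of the integer parts over a set -/
noncomputable def SA (d : ℕ) (a : ℝ) (θ : Fin d → ℝ) (B : Finset ℕ) (α : ℝ) : ℂ :=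
  ∑ n ∈ B, ee (α * (⌊pf d a θ n⌋ : ℝ))

theorem SA_cont (d : ℕ) (a : ℝ) (θ : Fin d → ℝ) (B : Finset ℕ) : Continuous fun α : ℝ => SA d a θ B α := by
  unfold SA
  apply continuous_finsetSum
  intro x _
  exact continuous_ee.comp (by fun_prop)

theorem SA_norm_le (d : ℕ) (a : ℝ) (θ : Fin d → ℝ) (B : Finset ℕ) (α : ℝ) : ‖SA d a θ B α‖ ≤ B.card := by
  unfold SA
  refine (norm_sum_le _ _).trans ?_
  simp [norm_ee]

theorem SA_pow (s d : ℕ) (a : ℝ) (θ : Fin d → ℝ) (B : Finset ℕ) (α : ℝ) :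
    SA d a θ B α ^ s = ∑ x ∈ Fintype.piFinset fun _ : Fin s => B, ee (α * (zz s d a θ x : ℝ)) := by
  have h : SA d a θ B α ^ s = ∏ _i : Fin s, SA d a θ B α := by simp
  rw [h]
  unfold SA
  rw [Finset.prod_univ_sum]
  apply sum_congr rfl
  intro x _
  unfold zz
  push_cast
  rw [mul_sum, ee_sum]

theorem SA_prod (s d : ℕ) (a : ℝ) (θ : Fin d → ℝ) (B : Fin s → Finset ℕ) (α : ℝ) :
    ∏ i, SA d a θ (B i) α = ∑ x ∈ Fintype.piFinset B, ee (α * (zz s d a θ x : ℝ)) := by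
  unfold SA
  rw [Finset.prod_univ_sum]
  apply sum_congr rfl
  intro x _
  unfold zz
  push_cast
  rw [mul_sum, ee_sum]

/-- the mean square of an exponential sum with integer frequencies -/
theorem pars {ι : Type*} (V : Finset ι) (z : ι → ℤ) :
    ∫⁻ α in Set.Icc (-(1 / 2) : ℝ) (1 / 2), ENNReal.ofReal (‖∑ x ∈ V, ee (α * (z x : ℝ))‖ ^ 2) =
      ENNReal.ofReal ((((V ×ˢ V).filter fun p => z p.1 = z p.2).card : ℕ) : ℝ) := by
  classical
  have hcont : Continuous fun α : ℝ => ‖∑ x ∈ V, ee (α * (z x : ℝ))‖ ^ 2 := by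
    apply Continuous.pow
    apply Continuous.norm
    apply continuous_finsetSum
    intro x _
    exact continuous_ee.comp (by fun_prop)
  rw [← ofReal_integral_eq_lintegral_ofReal hcont.continuousOn.integrableOn_Icc
    (Filter.Eventually.of_forall fun α => by positivity)]
  congr 1
  have h1 : ∀ α : ℝ, (((‖∑ x ∈ V, ee (α * (z x : ℝ))‖ ^ 2 : ℝ)) : ℂ) =
      ∑ p ∈ V ×ˢ V, ee (α * ((z p.1 - z p.2 : ℤ) : ℝ)) := by
    intro α
    have h2 := Complex.mul_conj (∑ x ∈ V, ee (α * (z x : ℝ)))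
    rw [Complex.normSq_eq_norm_sq] at h2
    rw [← h2, map_sum, sum_mul_sum, sum_product]
    apply sum_congr rfl
    intro x _
    apply sum_congr rfl
    intro y _
    have h3 : (starRingEnd ℂ) (ee (α * (z y : ℝ))) = ee (-(α * (z y : ℝ))) := by
      unfold Pool.Agent.U518.WS.ee
      rw [← Complex.exp_conj]
      congr 1
      rw [map_mul, conj_ofReal, conj_I]
      push_cast
      ring
    rw [h3, ← ee_add]
    congr 1
    push_cast
    ring
  have h4 : (((∫ α in Set.Icc (-(1 / 2) : ℝ) (1 / 2), ‖∑ x ∈ V, ee (α * (z x : ℝ))‖ ^ 2 : ℝ)) : ℂ) =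
      ((((((V ×ˢ V).filter fun p => z p.1 = z p.2).card : ℕ) : ℝ)) : ℂ) := by
    rw [← integral_complex_ofReal]
    rw [setIntegral_congr_fun measurableSet_Icc fun α _ => h1 α]
    have hci : ∀ p : ι × ι, Continuous fun α : ℝ => ee (α * ((z p.1 - z p.2 : ℤ) : ℝ)) :=
      fun p => continuous_ee.comp (by fun_prop)
    rw [integral_finsetSum _ fun p _ => (hci p).continuousOn.integrableOn_Icc,
      sum_congr rfl fun p _ => int_ee_half (z p.1 - z p.2), card_filter]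
    push_cast
    apply sum_congr rfl
    intro p _
    by_cases h : z p.1 = z p.2
    · rw [if_pos h, if_pos (by omega)]
      norm_num
    · rw [if_neg h, if_neg (by omega)]
      norm_num
  exact_mod_cast h4

/-- **Monotonicity.** The mean value over a set is at most the mean value over the interval. -/
theorem KB_le (d : ℕ) (a : ℝ) (θ : Fin d → ℝ) (P : ℕ) (B : Finset ℕ) (hB : B ⊆ Ioc 0 P) :
    ∫⁻ α in Set.Icc (-(1 / 2) : ℝ) (1 / 2), ENNReal.ofReal (‖SA d a θ B α‖ ^ (2 * (d + 1))) ≤ KK d a P θ := by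
  unfold KK
  have e1 : ∀ α : ℝ, ‖SA d a θ B α‖ ^ (2 * (d + 1)) =
      ‖∑ x ∈ Fintype.piFinset fun _ : Fin (d + 1) => B, ee (α * (zz (d + 1) d a θ x : ℝ))‖ ^ 2 := by
    intro α
    rw [← SA_pow, norm_pow, ← pow_mul, mul_comm]
  have e2 : ∀ α : ℝ, ‖SF d a θ P α‖ ^ (2 * (d + 1)) =
      ‖∑ x ∈ fbx (d + 1) P, ee (α * (zz (d + 1) d a θ x : ℝ))‖ ^ 2 := by
    intro α
    rw [← SF_pow, norm_pow, ← pow_mul, mul_comm]
  simp only [e1, e2]
  rw [pars, pars]
  apply ENNReal.ofReal_le_ofReal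
  have h : ((Fintype.piFinset fun _ : Fin (d + 1) => B) ×ˢ (Fintype.piFinset fun _ : Fin (d + 1) => B)).filter
        (fun p => zz (d + 1) d a θ p.1 = zz (d + 1) d a θ p.2) ⊆
      (fbx (d + 1) P ×ˢ fbx (d + 1) P).filter (fun p => zz (d + 1) d a θ p.1 = zz (d + 1) d a θ p.2) := by
    apply filter_subset_filter
    have h2 : (Fintype.piFinset fun _ : Fin (d + 1) => B) ⊆ fbx (d + 1) P := by
      unfold fbx
      exact Fintype.piFinset_subset _ _ fun _ => hB
    exact product_subset_product h2 h2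
  exact_mod_cast card_le_card h

theorem prod_le_sum_pow (t : ℕ) (ht : 1 ≤ t) (x : Fin t → ℝ) (hx : ∀ i, 0 ≤ x i) : ∏ i, x i ≤ ∑ i, x i ^ t := by
  obtain ⟨i0, _, hi0⟩ := exists_max_image (univ : Finset (Fin t)) x ⟨⟨0, ht⟩, mem_univ _⟩
  calc ∏ i, x i ≤ ∏ _i : Fin t, x i0 := prod_le_prod (fun i _ => hx i) fun i hi => hi0 i hi
    _ = x i0 ^ t := by simp
    _ ≤ _ := single_le_sum (f := fun i => x i ^ t) (fun i _ => pow_nonneg (hx i) t) (mem_univ i0)

/-- the integral over the arcs, for arbitrary sets -/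
noncomputable def Yb (d : ℕ) (a : ℝ) (P : ℕ) (T : ℝ) (θ : Fin d → ℝ) (B : Fin (2 * (d + 1)) → Finset ℕ) : ENNReal :=
  ∫⁻ α in {α : ℝ | T ≤ |α|} ∩ Set.Icc (-(1 / 2) : ℝ) (1 / 2),
    ENNReal.ofReal ((∏ i, ‖SA d a θ (B i) α‖) * ‖SF d a θ P α‖)

/-- **The deterministic bound for arbitrary sets.** -/
theorem Yb_le (d : ℕ) (a : ℝ) (ν I : ℕ) (hI : 2 * I ≤ ν) (θ : Fin d → ℝ) (T : ℝ)
    (w : ℕ → ℝ) (E : ℕ → Set ℝ) (hE : ∀ i, MeasurableSet (E i)) (A : ℕ → ℝ) (hA : ∀ i, 0 ≤ A i)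
    (h : ∀ i < I, ∀ α : ℝ, T ≤ |α| → |α| ≤ 1 / 2 → (w i < |α| → α ∉ E i) →
      ‖SS d a θ (2 ^ (ν - 2 * (i + 1))) α‖ ≤ A i)
    (B : Fin (2 * (d + 1)) → Finset ℕ) (hB : ∀ i, B i ⊆ Ioc 0 (2 ^ ν)) :
    Yb d a (2 ^ ν) T θ B ≤
      ENNReal.ofReal (∑ i ∈ range I, A i + ((2 ^ (ν - 2 * I) : ℕ) : ℝ)) *
        (((2 * (d + 1) : ℕ) : ENNReal) * KK d a (2 ^ ν) θ) +
      ENNReal.ofReal (((2 ^ ν : ℕ) : ℝ) ^ (2 * (d + 1))) *
        ∑ i ∈ range I, XE d a (2 ^ (ν - 2 * (i + 1))) (E i) (w i) θ := by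
  set P : ℕ := 2 ^ ν with hP
  set I0 : Set ℝ := Set.Icc (-(1 / 2) : ℝ) (1 / 2) with hI0
  set E' : ℕ → Set ℝ := fun i => E i ∩ ({α : ℝ | w i ≤ |α|} ∩ I0) with hE'
  have hE'm : ∀ i, MeasurableSet (E' i) := fun i => (hE i).inter ((meas_T (w i)).inter measurableSet_Icc)
  set At : ℝ := ∑ i ∈ range I, A i + ((2 ^ (ν - 2 * I) : ℕ) : ℝ) with hAt
  have hAt0 : 0 ≤ At := add_nonneg (sum_nonneg fun i _ => hA i) (Nat.cast_nonneg _)
  set Sm : ℕ → ℝ → ENNReal := fun i α => ENNReal.ofReal ‖SS d a θ (2 ^ (ν - 2 * (i + 1))) α‖ with hSm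
  have hSmm : ∀ i, Measurable (Sm i) := by
    intro i
    apply ENNReal.measurable_ofReal.comp
    have h1 : Measurable fun α : ℝ => (θ, α) := measurable_const.prodMk measurable_id
    exact ((SS_meas d a _).comp h1).norm
  set Fb : Fin (2 * (d + 1)) → ℝ → ENNReal := fun i α => ENNReal.ofReal (‖SA d a θ (B i) α‖ ^ (2 * (d + 1))) with hFb
  have hFm : ∀ i, Measurable (Fb i) := by
    intro i
    apply Continuous.measurable
    apply ENNReal.continuous_ofReal.comp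
    exact (SA_cont d a θ (B i)).norm.pow _
  have hind : ∀ i, Measurable ((E' i).indicator (Sm i)) := fun i => (hSmm i).indicator (hE'm i)
  have hcard : ∀ i, ((B i).card : ℝ) ≤ P := by
    intro i
    have h1 := card_le_card (hB i)
    rw [Nat.card_Ioc, Nat.sub_zero] at h1
    exact_mod_cast h1
  have hpt : ∀ α ∈ {α : ℝ | T ≤ |α|} ∩ I0, ENNReal.ofReal ((∏ i, ‖SA d a θ (B i) α‖) * ‖SF d a θ P α‖) ≤
      ENNReal.ofReal At * ∑ i, I0.indicator (Fb i) α +
      ENNReal.ofReal ((P : ℝ) ^ (2 * (d + 1))) * ∑ i ∈ range I, (E' i).indicator (Sm i) α := by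
    intro α hα
    have hα1 : T ≤ |α| := hα.1
    have hα2 : |α| ≤ 1 / 2 := abs_le.2 ⟨by linarith [hα.2.1], hα.2.2⟩
    have hF0 : 0 ≤ ‖SF d a θ P α‖ := norm_nonneg _
    have hprod0 : 0 ≤ ∏ i, ‖SA d a θ (B i) α‖ := prod_nonneg fun i _ => norm_nonneg _
    have h1 : ENNReal.ofReal ‖SF d a θ P α‖ ≤ ENNReal.ofReal At + ∑ i ∈ range I, (E' i).indicator (Sm i) α := by
      have h2 : ‖SF d a θ P α‖ ≤ ∑ i ∈ range I, ‖SS d a θ (2 ^ (ν - 2 * (i + 1))) α‖ + ((2 ^ (ν - 2 * I) : ℕ) : ℝ) := by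
        rw [hP, SF_split d a θ ν α I hI]
        refine (norm_add_le _ _).trans (add_le_add (norm_sum_le _ _) ?_)
        exact SF_norm_le d a θ _ α
      refine (ENNReal.ofReal_le_ofReal h2).trans ?_
      rw [ENNReal.ofReal_add (sum_nonneg fun i _ => norm_nonneg _) (Nat.cast_nonneg _),
        ENNReal.ofReal_sum_of_nonneg fun i _ => norm_nonneg _, hAt,
        ENNReal.ofReal_add (sum_nonneg fun i _ => hA i) (Nat.cast_nonneg _),
        ENNReal.ofReal_sum_of_nonneg fun i _ => hA i]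
      have h3 : ∑ i ∈ range I, ENNReal.ofReal ‖SS d a θ (2 ^ (ν - 2 * (i + 1))) α‖ ≤
          ∑ i ∈ range I, ENNReal.ofReal (A i) + ∑ i ∈ range I, (E' i).indicator (Sm i) α := by
        rw [← sum_add_distrib]
        apply sum_le_sum
        intro i hi
        by_cases hc : α ∈ E' i
        · rw [Set.indicator_of_mem hc]
          exact le_add_self
        · refine le_trans ?_ le_self_add
          apply ENNReal.ofReal_le_ofReal
          apply h i (mem_range.1 hi) α hα1 hα2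
          intro hw hmem
          exact hc ⟨hmem, hw.le, hα.2⟩
      calc _ ≤ ∑ i ∈ range I, ENNReal.ofReal (A i) + ∑ i ∈ range I, (E' i).indicator (Sm i) α +
            ENNReal.ofReal ((2 ^ (ν - 2 * I) : ℕ) : ℝ) := add_le_add h3 le_rfl
        _ = _ := by rw [add_right_comm]
    have h5 : ∏ i, ‖SA d a θ (B i) α‖ ≤ (P : ℝ) ^ (2 * (d + 1)) := by
      calc ∏ i, ‖SA d a θ (B i) α‖ ≤ ∏ _i : Fin (2 * (d + 1)), (P : ℝ) :=
            prod_le_prod (fun i _ => norm_nonneg _) fun i _ => (SA_norm_le d a θ (B i) α).trans (hcard i)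
        _ = _ := by simp
    have h6 : ENNReal.ofReal (∏ i, ‖SA d a θ (B i) α‖) ≤ ∑ i, I0.indicator (Fb i) α := by
      have h7 := prod_le_sum_pow (2 * (d + 1)) (by omega) (fun i => ‖SA d a θ (B i) α‖) fun i => norm_nonneg _
      refine (ENNReal.ofReal_le_ofReal h7).trans ?_
      rw [ENNReal.ofReal_sum_of_nonneg fun i _ => by positivity]
      apply sum_le_sum
      intro i _
      rw [Set.indicator_of_mem hα.2]
    rw [ENNReal.ofReal_mul hprod0]
    calc _ ≤ ENNReal.ofReal (∏ i, ‖SA d a θ (B i) α‖) *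
          (ENNReal.ofReal At + ∑ i ∈ range I, (E' i).indicator (Sm i) α) := mul_le_mul_right h1 _
      _ = ENNReal.ofReal At * ENNReal.ofReal (∏ i, ‖SA d a θ (B i) α‖) +
          ENNReal.ofReal (∏ i, ‖SA d a θ (B i) α‖) * ∑ i ∈ range I, (E' i).indicator (Sm i) α := by
          rw [mul_add, mul_comm (ENNReal.ofReal At)]
      _ ≤ _ := by
          apply add_le_add
          · exact mul_le_mul_right h6 _
          · exact mul_le_mul_left (ENNReal.ofReal_le_ofReal h5) _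
  have hKB : ∑ i, ∫⁻ α in I0, Fb i α ≤ ((2 * (d + 1) : ℕ) : ENNReal) * KK d a P θ := by
    calc ∑ i, ∫⁻ α in I0, Fb i α ≤ ∑ _i : Fin (2 * (d + 1)), KK d a P θ :=
          sum_le_sum fun i _ => KB_le d a θ P (B i) (hB i)
      _ = _ := by rw [sum_const, card_univ, Fintype.card_fin, nsmul_eq_mul]
  unfold Yb XE
  calc _ ≤ ∫⁻ α in {α : ℝ | T ≤ |α|} ∩ I0,
        (ENNReal.ofReal At * ∑ i, I0.indicator (Fb i) α +
      ENNReal.ofReal ((P : ℝ) ^ (2 * (d + 1))) * ∑ i ∈ range I, (E' i).indicator (Sm i) α) :=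
        setLIntegral_mono' ((meas_T T).inter measurableSet_Icc) hpt
    _ ≤ ∫⁻ α, (ENNReal.ofReal At * ∑ i, I0.indicator (Fb i) α +
      ENNReal.ofReal ((P : ℝ) ^ (2 * (d + 1))) * ∑ i ∈ range I, (E' i).indicator (Sm i) α) :=
        setLIntegral_le_lintegral _ _
    _ = ENNReal.ofReal At * (∑ i, ∫⁻ α in I0, Fb i α) +
      ENNReal.ofReal ((P : ℝ) ^ (2 * (d + 1))) * ∑ i ∈ range I, ∫⁻ α in E' i, Sm i α := by
        have hm1 : ∀ i, Measurable (I0.indicator (Fb i)) := fun i => (hFm i).indicator measurableSet_Icc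
        rw [lintegral_add_left ((Finset.measurable_fun_sum _ fun i _ => hm1 i).const_mul _),
          lintegral_const_mul _ (Finset.measurable_fun_sum _ fun i _ => hm1 i),
          lintegral_const_mul _ (Finset.measurable_fun_sum _ fun i _ => hind i),
          lintegral_finsetSum _ fun i _ => hind i, lintegral_finsetSum _ fun i _ => hm1 i]
        rw [sum_congr rfl fun i _ => lintegral_indicator (μ := volume) measurableSet_Icc (Fb i),
          sum_congr rfl fun i _ => lintegral_indicator (μ := volume) (hE'm i) (Sm i)]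
    _ ≤ ENNReal.ofReal At * (((2 * (d + 1) : ℕ) : ENNReal) * KK d a P θ) +
      ENNReal.ofReal ((P : ℝ) ^ (2 * (d + 1))) * ∑ i ∈ range I, ∫⁻ α in E' i, Sm i α :=
        add_le_add (mul_le_mul_right hKB _) le_rfl

end Pool.Agent.U914.WP
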