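import Mathlib
import Pool.Agent.U914.WP.HA

/-! Almost all polynomials in Waring's problem: the minor arcs for arbitrary sets. -/

set_option autoImplicit false

open Finset MeasureTheory Complex
open Pool.Agent.U518.WS (ee norm_ee ee_add ee_sub ee_sum ee_neg ee_zero continuous_ee m1 ms gg gg_nonneg meas_T)

namespace Pool.Agent.U914.WP

/-- **The minor arcs for arbitrary sets.** -/
theorem minorb_ae (d : ℕ) (hd : 1 ≤ d) (a : ℝ) (ha : 0 < a) : ∃ κ : ℝ, 0 < κ ∧ κ ≤ 1 / 100 ∧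
    ∀ m : Fin d → ℝ, ∀ᵐ t' ∂(ms d), ∀ᶠ ν : ℕ in Filter.atTop,
      ∀ B : Fin (2 * (d + 1)) → Finset ℕ, (∀ i, B i ⊆ Ioc 0 (2 ^ ν)) →
      Yb d a (2 ^ ν) (((2 ^ ν : ℕ) : ℝ) ^ ((1 : ℝ) / 4 - ((d + 1 : ℕ) : ℝ))) (m + t') B ≤
        ENNReal.ofReal (((2 ^ ν : ℕ) : ℝ) ^ (((d + 1 : ℕ) : ℝ) + 1 - κ)) := by
  obtain ⟨lam, hlam0, hlam1, E, hE, harc⟩ := arcs_ae d hd a ha
  set k : ℕ := d + 1 with hk
  have hk2 : (2 : ℝ) ≤ k := by
    have : 2 ≤ k := by omega
    exact_mod_cast this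
  obtain ⟨N, hN⟩ := exists_nat_ge (1024 * (k : ℝ) + 32 / lam)
  have h32 : 0 < 32 / lam := by positivity
  have hN0 : (0 : ℝ) < N := by linarith
  have hNk : 1024 * (k : ℝ) ≤ N := by linarith
  have hNl : 32 / lam ≤ N := by linarith
  set δ : ℝ := 2 / N with hδ
  have hδ0 : 0 < δ := by positivity
  have hδk : δ * k ≤ 1 / 512 := by
    rw [hδ, div_mul_eq_mul_div, div_le_div_iff₀ hN0 (by norm_num)]
    linarith
  have hδ1 : δ ≤ 1 / 1024 := by nlinarith
  have hδl : δ ≤ lam / 16 := by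
    rw [div_le_iff₀ hlam0] at hNl
    rw [hδ, div_le_div_iff₀ hN0 (by norm_num)]
    linarith
  refine ⟨δ / 4, by positivity, by linarith, fun m => ?_⟩
  obtain ⟨Cn, hCn, hnu⟩ := nu_q 1 (δ / 4) (by positivity)
  have htend : Filter.Tendsto (fun ν : ℕ => ((2 ^ ν : ℕ) : ℝ)) Filter.atTop Filter.atTop :=
    tendsto_natCast_atTop_atTop.comp (tendsto_pow_atTop_atTop_of_one_lt (by norm_num : 1 < 2))
  have hev : ∀ᶠ ν : ℕ in Filter.atTop, (((2 ^ ν : ℕ) : ℝ)) ^ (-(δ / 4)) ≤ 1 / (35 * Cn * (2 * k)) :=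
    ((tendsto_rpow_neg_atTop (by positivity : (0 : ℝ) < δ / 4)).comp htend).eventually_le_const (by positivity)
  filter_upwards [harc m, KK_ae d a ha (δ / 4) (by positivity) m] with t' harc hKK
  obtain ⟨ν0, hν0⟩ := Filter.eventually_atTop.1 harc
  filter_upwards [hKK, hev, Filter.eventually_ge_atTop (2 * ν0)] with ν hKK hev hν
  intro B hB
  set I : ℕ := ν / N with hI
  have hN4 : 4 ≤ N := by
    have : (4 : ℝ) ≤ N := by linarith
    exact_mod_cast this
  have hI4 : I * 4 ≤ ν := by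
    calc I * 4 ≤ I * N := Nat.mul_le_mul_left _ hN4
      _ ≤ ν := Nat.div_mul_le_self ν N
  have hI2 : 2 * I ≤ ν := by omega
  set p : ℝ := ((2 ^ ν : ℕ) : ℝ) with hp
  have hp1 : 1 ≤ p := by
    rw [hp]
    exact_mod_cast Nat.one_le_two_pow
  have hp0 : 0 < p := by linarith
  have hpν : p = (2 : ℝ) ^ (ν : ℝ) := by rw [hp, Real.rpow_natCast]; push_cast; rfl
  have hIr : (I : ℝ) * N ≤ ν := by exact_mod_cast Nat.div_mul_le_self ν N
  have hIr2 : (ν : ℝ) < (I + 1) * N := by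
    have := Nat.lt_div_mul_add (a := ν) (b := N) (by omega)
    have h2 : (ν : ℝ) < (I : ℝ) * N + N := by exact_mod_cast this
    linarith
  have hδν1 : 2 * (I : ℝ) ≤ δ * ν := by
    rw [hδ, div_mul_eq_mul_div, le_div_iff₀ hN0]
    linarith
  have hδν2 : δ * ν ≤ 2 * I + 2 := by
    rw [hδ, div_mul_eq_mul_div, div_le_iff₀ hN0]
    linarith
  -- the sizes of the scales
  have hlow : ∀ i < I, p ^ (1 - δ) ≤ ((2 ^ (ν - 2 * (i + 1)) : ℕ) : ℝ) := by
    intro i hi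
    rw [hpν, ← Real.rpow_mul (by norm_num)]
    push_cast
    rw [← Real.rpow_natCast, Nat.cast_sub (by omega)]
    apply Real.rpow_le_rpow_of_exponent_le (by norm_num)
    have hi' : ((i : ℝ) + 1) ≤ I := by exact_mod_cast hi
    push_cast
    nlinarith
  have hhigh : ∀ i, ((2 ^ (ν - 2 * (i + 1)) : ℕ) : ℝ) ≤ p := by
    intro i
    rw [hp]
    exact_mod_cast Nat.pow_le_pow_right (by norm_num) (by omega)
  have hrest : ((2 ^ (ν - 2 * I) : ℕ) : ℝ) ≤ 4 * p ^ (1 - δ) := by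
    have e1 : (4 : ℝ) = (2 : ℝ) ^ (2 : ℝ) := by norm_num
    rw [hpν, ← Real.rpow_mul (by norm_num), e1, ← Real.rpow_add (by norm_num)]
    push_cast
    rw [← Real.rpow_natCast, Nat.cast_sub hI2]
    apply Real.rpow_le_rpow_of_exponent_le (by norm_num)
    push_cast
    linarith
  have hgood : ∀ i < I, ν0 ≤ ν - 2 * (i + 1) := fun i hi => by omega
  have hT : ∀ i < I, (((2 ^ (ν - 2 * (i + 1)) : ℕ) : ℝ)) ^ ((1 : ℝ) / 8 - (k : ℝ)) ≤ p ^ ((1 : ℝ) / 4 - (k : ℝ)) := by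
    intro i hi
    calc (((2 ^ (ν - 2 * (i + 1)) : ℕ) : ℝ)) ^ ((1 : ℝ) / 8 - (k : ℝ)) ≤ (p ^ (1 - δ)) ^ ((1 : ℝ) / 8 - (k : ℝ)) :=
          Real.rpow_le_rpow_of_nonpos (by positivity) (hlow i hi) (by linarith)
      _ = p ^ ((1 - δ) * ((1 : ℝ) / 8 - (k : ℝ))) := by rw [← Real.rpow_mul hp0.le]
      _ ≤ _ := Real.rpow_le_rpow_of_exponent_le hp1 (by nlinarith)
  have hmain := Yb_le d a ν I hI2 (m + t') (p ^ ((1 : ℝ) / 4 - (k : ℝ)))
    (fun i => (((2 ^ (ν - 2 * (i + 1)) : ℕ) : ℝ)) ^ (-(1 / 64 : ℝ))) (fun i => E (ν - 2 * (i + 1)))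
    (fun i => hE _) (fun i => 30 * (((2 ^ (ν - 2 * (i + 1)) : ℕ) : ℝ)) ^ (1 - lam / 16)) (fun i => by positivity)
    (fun i hi α hα1 hα2 hα3 => (hν0 _ (hgood i hi)).1 α ((hT i hi).trans hα1) hα2 hα3) B hB
  refine hmain.trans ?_
  have hAsum : ∑ i ∈ range I, 30 * (((2 ^ (ν - 2 * (i + 1)) : ℕ) : ℝ)) ^ (1 - lam / 16) + ((2 ^ (ν - 2 * I) : ℕ) : ℝ) ≤
      34 * ((ν : ℝ) + 1) * p ^ (1 - δ) := by
    have h1 : ∀ i ∈ range I, 30 * (((2 ^ (ν - 2 * (i + 1)) : ℕ) : ℝ)) ^ (1 - lam / 16) ≤ 30 * p ^ (1 - δ) := by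
      intro i _
      apply mul_le_mul_of_nonneg_left _ (by norm_num)
      calc (((2 ^ (ν - 2 * (i + 1)) : ℕ) : ℝ)) ^ (1 - lam / 16) ≤ p ^ (1 - lam / 16) :=
            Real.rpow_le_rpow (Nat.cast_nonneg _) (hhigh i) (by linarith)
        _ ≤ _ := Real.rpow_le_rpow_of_exponent_le hp1 (by linarith)
    have h2 := sum_le_sum h1
    rw [sum_const, card_range, nsmul_eq_mul] at h2
    have h3 : (I : ℝ) ≤ ν := by
      have : I ≤ ν := by omega
      exact_mod_cast this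
    have h4 : 0 < p ^ (1 - δ) := by positivity
    have h5 : (I : ℝ) * (30 * p ^ (1 - δ)) ≤ ν * (30 * p ^ (1 - δ)) := mul_le_mul_of_nonneg_right h3 (by positivity)
    have h6 : (0 : ℝ) ≤ ν := Nat.cast_nonneg ν
    nlinarith [mul_nonneg h6 h4.le]
  have hXsum : ∑ i ∈ range I, XE d a (2 ^ (ν - 2 * (i + 1))) (E (ν - 2 * (i + 1)))
      ((((2 ^ (ν - 2 * (i + 1)) : ℕ) : ℝ)) ^ (-(1 / 64 : ℝ))) (m + t') ≤
      ENNReal.ofReal (((ν : ℝ) + 1) * p ^ (1 - (k : ℝ) - 1 / 256)) := by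
    calc _ ≤ ∑ _i ∈ range I, ENNReal.ofReal (p ^ (1 - (k : ℝ) - 1 / 256)) := by
          apply sum_le_sum
          intro i hi
          rw [mem_range] at hi
          refine (hν0 _ (hgood i hi)).2.trans (ENNReal.ofReal_le_ofReal ?_)
          calc (((2 ^ (ν - 2 * (i + 1)) : ℕ) : ℝ)) ^ (1 - (k : ℝ) - 3 / 512) ≤ (p ^ (1 - δ)) ^ (1 - (k : ℝ) - 3 / 512) :=
                Real.rpow_le_rpow_of_nonpos (by positivity) (hlow i hi) (by linarith)
            _ = p ^ ((1 - δ) * (1 - (k : ℝ) - 3 / 512)) := by rw [← Real.rpow_mul hp0.le]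
            _ ≤ _ := Real.rpow_le_rpow_of_exponent_le hp1 (by nlinarith)
      _ = ENNReal.ofReal ((I : ℝ) * p ^ (1 - (k : ℝ) - 1 / 256)) := by
          rw [sum_const, card_range, nsmul_eq_mul, ENNReal.ofReal_mul (Nat.cast_nonneg _), ENNReal.ofReal_natCast]
      _ ≤ _ := by
          apply ENNReal.ofReal_le_ofReal
          apply mul_le_mul_of_nonneg_right _ (by positivity)
          have h3 : (I : ℝ) ≤ ν := by
            have : I ≤ ν := by omega
            exact_mod_cast this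
          linarith
  have hs1 : p ^ (2 * (d + 1)) = p ^ (2 * (k : ℝ)) := by
    rw [← Real.rpow_natCast]
    push_cast
    rw [hk]
    push_cast
    rfl
  have h2k : ((2 * (d + 1) : ℕ) : ENNReal) = ENNReal.ofReal (2 * (k : ℝ)) := by
    rw [← ENNReal.ofReal_natCast]
    congr 1
    rw [hk]
    push_cast
    ring
  have hnu' : (ν : ℝ) + 1 ≤ Cn * p ^ (δ / 4) := by
    have := hnu ν
    rwa [pow_one] at this
  calc _ ≤ ENNReal.ofReal (34 * ((ν : ℝ) + 1) * p ^ (1 - δ)) *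
          (ENNReal.ofReal (2 * (k : ℝ)) * ENNReal.ofReal (p ^ ((k : ℝ) + δ / 4))) +
        ENNReal.ofReal (p ^ (2 * (d + 1))) * ENNReal.ofReal (((ν : ℝ) + 1) * p ^ (1 - (k : ℝ) - 1 / 256)) := by
        apply add_le_add
        · apply mul_le_mul'
          · exact ENNReal.ofReal_le_ofReal hAsum
          · rw [h2k]
            exact mul_le_mul_right hKK _
        · exact mul_le_mul_right hXsum _
    _ ≤ _ := by
        rw [← ENNReal.ofReal_mul (by positivity), ← ENNReal.ofReal_mul (by positivity),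
          ← ENNReal.ofReal_mul (by positivity), ← ENNReal.ofReal_add (by positivity) (by positivity)]
        apply ENNReal.ofReal_le_ofReal
        rw [hs1]
        have hmul : ∀ x y : ℝ, p ^ x * p ^ y = p ^ (x + y) := fun x y => (Real.rpow_add hp0 x y).symm
        have h2k1 : (1 : ℝ) ≤ 2 * k := by linarith
        calc _ = ((ν : ℝ) + 1) * (34 * (2 * k) * (p ^ (1 - δ) * p ^ ((k : ℝ) + δ / 4)) +
              p ^ (2 * (k : ℝ)) * p ^ (1 - (k : ℝ) - 1 / 256)) := by ring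
          _ ≤ ((ν : ℝ) + 1) * (34 * (2 * k) * p ^ ((k : ℝ) + 1 - 3 * δ / 4) +
              (2 * k) * p ^ ((k : ℝ) + 1 - 3 * δ / 4)) := by
              apply mul_le_mul_of_nonneg_left _ (by positivity)
              simp only [hmul]
              apply add_le_add
              · apply mul_le_mul_of_nonneg_left _ (by positivity)
                exact Real.rpow_le_rpow_of_exponent_le hp1 (by linarith)
              · have h1 : p ^ (2 * (k : ℝ) + (1 - (k : ℝ) - 1 / 256)) ≤ p ^ ((k : ℝ) + 1 - 3 * δ / 4) :=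
                  Real.rpow_le_rpow_of_exponent_le hp1 (by linarith)
                have h2 : 0 ≤ p ^ ((k : ℝ) + 1 - 3 * δ / 4) := by positivity
                nlinarith
          _ = ((ν : ℝ) + 1) * (35 * (2 * k) * p ^ ((k : ℝ) + 1 - 3 * δ / 4)) := by ring
          _ ≤ (Cn * p ^ (δ / 4)) * (35 * (2 * k) * p ^ ((k : ℝ) + 1 - 3 * δ / 4)) :=
              mul_le_mul_of_nonneg_right hnu' (by positivity)
          _ = 35 * Cn * (2 * k) * (p ^ (-(δ / 4)) * p ^ ((k : ℝ) + 1 - δ / 4)) := by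
              rw [hmul]
              calc _ = 35 * Cn * (2 * k) * (p ^ (δ / 4) * p ^ ((k : ℝ) + 1 - 3 * δ / 4)) := by ring
                _ = _ := by
                    rw [hmul]
                    congr 2
                    ring
          _ ≤ 35 * Cn * (2 * k) * (1 / (35 * Cn * (2 * k)) * p ^ ((k : ℝ) + 1 - δ / 4)) := by
              apply mul_le_mul_of_nonneg_left _ (by positivity)
              exact mul_le_mul_of_nonneg_right hev (by positivity)
          _ = p ^ ((k : ℝ) + 1 - δ / 4) := by field_simp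

end Pool.Agent.U914.WP
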