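import Mathlib
import Pool.Agent.U914.WP.HB

/-! Almost all polynomials in Waring's problem: local constancy for arbitrary sets, and the count in one variable. -/

set_option autoImplicit false

open Finset MeasureTheory Complex
open Pool.Agent.U518.WS (ee norm_ee ee_add ee_sub ee_sum ee_neg ee_zero continuous_ee m1 ms gg gg_nonneg meas_T)

namespace Pool.Agent.U914.WP

/-- arbitrary sets and the full interval -/
def hb (d P : ℕ) (B : Fin (2 * (d + 1)) → Finset ℕ) : Finset ((Fin (2 * (d + 1)) → ℕ) × ℕ) :=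
  Fintype.piFinset B ×ˢ Ioc 0 P

/-- the sum of the integer parts -/
noncomputable def hz (d : ℕ) (a : ℝ) (θ : Fin d → ℝ) (p : (Fin (2 * (d + 1)) → ℕ) × ℕ) : ℤ :=
  zz (2 * (d + 1)) d a θ p.1 + ⌊pf d a θ p.2⌋

theorem hz_sum (d : ℕ) (a : ℝ) (θ : Fin d → ℝ) (P : ℕ) (B : Fin (2 * (d + 1)) → Finset ℕ) (α : ℝ) :
    (∏ i, SA d a θ (B i) α) * SF d a θ P α = ∑ p ∈ hb d P B, ee (α * (hz d a θ p : ℝ)) := by
  rw [SA_prod]
  unfold SF hb
  rw [sum_mul_sum, sum_product]
  apply sum_congr rfl
  intro x _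
  apply sum_congr rfl
  intro y _
  rw [← ee_add]
  congr 1
  unfold hz
  push_cast
  ring

/-- **Local constancy for arbitrary sets.** -/
theorem local_constB (d : ℕ) (a : ℝ) (P : ℕ) (θ : Fin d → ℝ) (T Bd H : ℝ) (hT : 0 < T) (hB0 : 0 ≤ Bd)
    (B : Fin (2 * (d + 1)) → Finset ℕ) (hB : ∀ i, B i ⊆ Ioc 0 P)
    (hY : Yb d a P T θ B ≤ ENNReal.ofReal Bd) (n n' : ℤ) (h : |(n' : ℝ) - n| ≤ H) :
    |(((hb d P B).filter fun x => hz d a θ x = n').card : ℝ) - ((hb d P B).filter fun x => hz d a θ x = n).card| ≤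
      2 * Bd + (P : ℝ) ^ (2 * (d + 1) + 1) * (2 * Real.pi * T * H) * (2 * T) := by
  have hpi := Real.pi_pos
  have hH : 0 ≤ H := (abs_nonneg _).trans h
  set I0 : Set ℝ := Set.Icc (-(1 / 2) : ℝ) (1 / 2) with hI0
  set F : ℝ → ℂ := fun α => (∏ i, SA d a θ (B i) α) * SF d a θ P α with hF
  have hFc : Continuous F := by
    rw [hF]
    exact (continuous_finsetProd _ fun i _ => SA_cont d a θ (B i)).mul (SF_cont d a θ P)
  have hFn : ∀ α, ‖F α‖ = (∏ i, ‖SA d a θ (B i) α‖) * ‖SF d a θ P α‖ := by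
    intro α
    rw [hF]
    simp only
    rw [norm_mul, norm_prod]
  have hFle : ∀ α, ‖F α‖ ≤ (P : ℝ) ^ (2 * (d + 1) + 1) := by
    intro α
    rw [hFn, pow_succ]
    apply mul_le_mul _ (SF_norm_le d a θ P α) (norm_nonneg _) (by positivity)
    calc ∏ i, ‖SA d a θ (B i) α‖ ≤ ∏ _i : Fin (2 * (d + 1)), (P : ℝ) := by
          apply prod_le_prod (fun i _ => norm_nonneg _)
          intro i _
          refine (SA_norm_le d a θ (B i) α).trans ?_
          have h1 := card_le_card (hB i)
          rw [Nat.card_Ioc, Nat.sub_zero] at h1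
          exact_mod_cast h1
      _ = _ := by simp
  set R : ℤ → ℝ := fun n => (((hb d P B).filter fun x => hz d a θ x = n).card : ℝ) with hR
  have hRe : ∀ n : ℤ, ((R n : ℝ) : ℂ) = ∫ α in I0, ee (-(α * n)) * F α := by
    intro n
    rw [hR]
    simp only
    rw [count_z (hb d P B) (hz d a θ) n]
    apply setIntegral_congr_fun measurableSet_Icc
    intro α _
    simp only
    rw [hF]
    simp only
    rw [hz_sum]
  have hint : ∀ n : ℤ, IntegrableOn (fun α : ℝ => ee (-(α * n)) * F α) I0 := by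
    intro n
    apply ContinuousOn.integrableOn_Icc
    apply Continuous.continuousOn
    exact (continuous_ee.comp (by fun_prop)).mul hFc
  have hdiff : ((R n' - R n : ℝ) : ℂ) = ∫ α in I0, (ee (-(α * n')) - ee (-(α * n))) * F α := by
    rw [ofReal_sub, hRe, hRe, ← integral_sub (hint n') (hint n)]
    apply integral_congr_ae
    exact Filter.Eventually.of_forall fun α => by simp only; ring
  have hfin : ENNReal.ofReal |R n' - R n| ≤
      ENNReal.ofReal (2 * Bd + (P : ℝ) ^ (2 * (d + 1) + 1) * (2 * Real.pi * T * H) * (2 * T)) := by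
    have h1 : ENNReal.ofReal |R n' - R n| = ‖∫ α in I0, (ee (-(α * n')) - ee (-(α * n))) * F α‖ₑ := by
      rw [← hdiff, ← ofReal_norm, norm_real, Real.norm_eq_abs]
    rw [h1]
    refine (enorm_integral_le_lintegral_enorm _).trans ?_
    have hpt : ∀ α ∈ I0, ‖(ee (-(α * n')) - ee (-(α * n))) * F α‖ₑ ≤
        ENNReal.ofReal 2 * ({α : ℝ | T ≤ |α|} ∩ I0).indicator
          (fun α => ENNReal.ofReal ((∏ i, ‖SA d a θ (B i) α‖) * ‖SF d a θ P α‖)) α +
        (Set.Icc (-T) T).indicator (fun _ => ENNReal.ofReal ((P : ℝ) ^ (2 * (d + 1) + 1) * (2 * Real.pi * T * H))) α := by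
      intro α hα
      rw [← ofReal_norm, norm_mul]
      rcases le_or_gt T |α| with hc | hc
      · have hmem : α ∈ {α : ℝ | T ≤ |α|} ∩ I0 := ⟨hc, hα⟩
        rw [Set.indicator_of_mem hmem]
        refine le_trans ?_ le_self_add
        rw [← ENNReal.ofReal_mul (by norm_num), ← hFn]
        apply ENNReal.ofReal_le_ofReal
        apply mul_le_mul_of_nonneg_right _ (norm_nonneg _)
        refine (norm_sub_le _ _).trans ?_
        rw [norm_ee, norm_ee]
        norm_num
      · have hmem : α ∈ Set.Icc (-T) T := abs_le.1 hc.le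
        rw [Set.indicator_of_mem hmem]
        refine le_trans ?_ le_add_self
        apply ENNReal.ofReal_le_ofReal
        rw [mul_comm]
        apply mul_le_mul (hFle α) _ (norm_nonneg _) (by positivity)
        refine (ee_diff _ _).trans ?_
        have e1 : -(α * n') - -(α * n) = -(α * ((n' : ℝ) - n)) := by ring
        rw [e1, abs_neg, abs_mul, mul_assoc (2 * Real.pi)]
        exact mul_le_mul_of_nonneg_left (mul_le_mul hc.le h (abs_nonneg _) hT.le) (by positivity)
    refine (setLIntegral_mono' measurableSet_Icc hpt).trans ?_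
    refine (setLIntegral_le_lintegral _ _).trans ?_
    have hm1 : Measurable (({α : ℝ | T ≤ |α|} ∩ I0).indicator
        (fun α => ENNReal.ofReal ((∏ i, ‖SA d a θ (B i) α‖) * ‖SF d a θ P α‖))) := by
      apply Measurable.indicator _ ((meas_T T).inter measurableSet_Icc)
      simp only [← hFn]
      exact (ENNReal.continuous_ofReal.comp hFc.norm).measurable
    rw [lintegral_add_left (hm1.const_mul _), lintegral_const_mul _ hm1,
      lintegral_indicator ((meas_T T).inter measurableSet_Icc), lintegral_indicator_const measurableSet_Icc,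
      Real.volume_Icc, ← ENNReal.ofReal_mul (by positivity)]
    calc _ ≤ ENNReal.ofReal 2 * ENNReal.ofReal Bd +
          ENNReal.ofReal ((P : ℝ) ^ (2 * (d + 1) + 1) * (2 * Real.pi * T * H) * (T - -T)) := by
          apply add_le_add _ le_rfl
          exact mul_le_mul_right hY _
      _ = _ := by
          rw [← ENNReal.ofReal_mul (by norm_num), ← ENNReal.ofReal_add (by positivity)]
          · congr 1
            ring
          · have : 0 ≤ T - -T := by linarith
            positivity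
  exact (ENNReal.ofReal_le_ofReal_iff (by positivity)).1 hfin

/-- the inverse of `a x^k` -/
noncomputable def ps1 (k : ℕ) (a t : ℝ) : ℝ := (t / a) ^ ((k : ℝ)⁻¹)

/-- its derivative -/
noncomputable def rh (k : ℕ) (a t : ℝ) : ℝ := ps1 k a t / (k * t)

theorem ps1_nonneg (k : ℕ) (a t : ℝ) (ha : 0 < a) (ht : 0 ≤ t) : 0 ≤ ps1 k a t := by
  unfold ps1
  positivity

theorem ps1_pos (k : ℕ) (a t : ℝ) (ha : 0 < a) (ht : 0 < t) : 0 < ps1 k a t := by
  unfold ps1
  positivity

theorem ps1_pow (k : ℕ) (hk : 1 ≤ k) (a t : ℝ) (ha : 0 < a) (ht : 0 ≤ t) : a * ps1 k a t ^ k = t := by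
  unfold ps1
  rw [Real.rpow_inv_natCast_pow (by positivity) (by omega)]
  field_simp

theorem ps1_mono (k : ℕ) (a t t' : ℝ) (ha : 0 < a) (ht : 0 ≤ t) (h : t ≤ t') : ps1 k a t ≤ ps1 k a t' := by
  unfold ps1
  apply Real.rpow_le_rpow (by positivity) _ (by positivity)
  exact div_le_div_of_nonneg_right h ha.le

theorem rh_pos (k : ℕ) (hk : 1 ≤ k) (a t : ℝ) (ha : 0 < a) (ht : 0 < t) : 0 < rh k a t := by
  unfold rh
  have := ps1_pos k a t ha ht
  have hk0 : (0 : ℝ) < k := by exact_mod_cast hk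
  positivity

/-- concavity -/
theorem conc (k : ℕ) (hk : 1 ≤ k) (a x y : ℝ) (ha : 0 < a) (hx : 0 < x) (hy : 0 ≤ y) :
    ps1 k a y ≤ ps1 k a x + rh k a x * (y - x) := by
  have hk0 : (0 : ℝ) < k := by exact_mod_cast hk
  have hk1 : (1 : ℝ) ≤ k := by exact_mod_cast hk
  have h1 : -1 ≤ y / x - 1 := by
    have : 0 ≤ y / x := by positivity
    linarith
  have h2 := rpow_one_add_le_one_add_mul_self h1 (by positivity : (0 : ℝ) ≤ (k : ℝ)⁻¹) (inv_le_one_of_one_le₀ hk1)
  have e1 : 1 + (y / x - 1) = y / x := by ring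
  rw [e1] at h2
  have h3 : ps1 k a y = ps1 k a x * (y / x) ^ ((k : ℝ)⁻¹) := by
    unfold ps1
    rw [← Real.mul_rpow (by positivity) (by positivity)]
    congr 1
    field_simp
  rw [h3]
  have h4 : ps1 k a x + rh k a x * (y - x) = ps1 k a x * (1 + (k : ℝ)⁻¹ * (y / x - 1)) := by
    unfold rh
    field_simp
  rw [h4]
  exact mul_le_mul_of_nonneg_left h2 (ps1_nonneg k a x ha hx.le)

/-- the derivative changes slowly -/
theorem rh_slow (k : ℕ) (hk : 1 ≤ k) (a x y : ℝ) (ha : 0 < a) (hx : 0 < x) (hxy : x ≤ y) :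
    rh k a x ≤ rh k a y * (y / x) := by
  have hk0 : (0 : ℝ) < k := by exact_mod_cast hk
  have hy : 0 < y := by linarith
  have h1 := ps1_mono k a x y ha hx.le hxy
  have h2 : rh k a y * (y / x) = ps1 k a y / (k * x) := by
    unfold rh
    field_simp
  rw [h2]
  unfold rh
  exact div_le_div_of_nonneg_right h1 (by positivity)

/-- **The count in one variable.** -/
theorem onevar (k : ℕ) (hk : 1 ≤ k) (a : ℝ) (ha : 0 < a) (P h : ℕ) (g : ℕ → ℤ) (n' : ℤ) (M E : ℝ) (hE : 0 ≤ E)
    (hg : ∀ x ∈ Ioc 0 P, |(g x : ℝ) - n' - (a * (x : ℝ) ^ k - M)| ≤ E) (hM : 0 < M) (hEM : 2 * E ≤ M)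
    (hhM : (h : ℝ) + 2 * E ≤ 2 * M) (hEh : 2 * E ≤ h) (hP : M + h - E ≤ a * (P : ℝ) ^ k) :
    |(((Ioc 0 P).filter fun x => n' ≤ g x ∧ g x < n' + h).card : ℝ) - h * rh k a M| ≤
      1 + rh k a M * (6 * E + (h : ℝ) ^ 2 / M) := by
  have hk0 : (0 : ℝ) < k := by exact_mod_cast hk
  have hkne : k ≠ 0 := by omega
  have hh0 : (0 : ℝ) ≤ h := Nat.cast_nonneg h
  have hρ := rh_pos k hk a M ha hM
  set S := (Ioc 0 P).filter fun x => n' ≤ g x ∧ g x < n' + h with hS
  -- upper bound
  have hup : (S.card : ℝ) ≤ 1 + rh k a (M - E) * (h + 2 * E) := by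
    set u1 := ps1 k a (M - E) with hu1
    set u2 := ps1 k a (M + h + E) with hu2
    have h10 : 0 ≤ u1 := ps1_nonneg k a _ ha (by linarith)
    have h20 : 0 ≤ u2 := ps1_nonneg k a _ ha (by linarith)
    have h12 : u1 ≤ u2 := ps1_mono k a _ _ ha (by linarith) (by linarith)
    have e1 : a * u1 ^ k = M - E := ps1_pow k hk a _ ha (by linarith)
    have e2 : a * u2 ^ k = M + h + E := ps1_pow k hk a _ ha (by linarith)
    have hsub : S ⊆ Icc ⌈u1⌉₊ ⌊u2⌋₊ := by
      intro x hx
      rw [hS, mem_filter] at hx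
      obtain ⟨hx1, hx2, hx3⟩ := hx
      have h4 := abs_le.1 (hg x hx1)
      have h5 : (n' : ℝ) ≤ g x := by exact_mod_cast hx2
      have h6 : (g x : ℝ) ≤ n' + h := by exact_mod_cast hx3.le
      rw [mem_Icc]
      constructor
      · rw [Nat.ceil_le]
        apply le_of_pow_le_pow_left₀ hkne (Nat.cast_nonneg _)
        have : a * u1 ^ k ≤ a * (x : ℝ) ^ k := by rw [e1]; linarith [h4.1, h4.2]
        exact le_of_mul_le_mul_left this ha
      · rw [Nat.le_floor_iff h20]
        apply le_of_pow_le_pow_left₀ hkne h20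
        have : a * (x : ℝ) ^ k ≤ a * u2 ^ k := by rw [e2]; linarith [h4.1, h4.2]
        exact le_of_mul_le_mul_left this ha
    have h7 := card_le_card hsub
    rw [Nat.card_Icc] at h7
    have h8 : ⌈u1⌉₊ ≤ ⌊u2⌋₊ + 1 := by
      rw [Nat.ceil_le]
      push_cast
      have := Nat.lt_floor_add_one u2
      linarith
    have h9 : (S.card : ℝ) ≤ (⌊u2⌋₊ : ℝ) + 1 - ⌈u1⌉₊ := by
      have h10 : (S.card : ℝ) ≤ ((⌊u2⌋₊ + 1 - ⌈u1⌉₊ : ℕ) : ℝ) := by exact_mod_cast h7
      rw [Nat.cast_sub h8] at h10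
      push_cast at h10
      exact h10
    have h11 := Nat.floor_le h20
    have h12 := Nat.le_ceil u1
    have h13 := conc k hk a (M - E) (M + h + E) ha (by linarith) (by linarith)
    rw [← hu1, ← hu2] at h13
    have h14 : M + h + E - (M - E) = h + 2 * E := by ring
    rw [h14] at h13
    linarith
  -- lower bound
  have hlow : -1 + rh k a (M + h - E) * (h - 2 * E) ≤ (S.card : ℝ) := by
    set u3 := ps1 k a (M + E) with hu3
    set u4 := ps1 k a (M + h - E) with hu4
    have h30 : 0 < u3 := ps1_pos k a _ ha (by linarith)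
    have h40 : 0 ≤ u4 := ps1_nonneg k a _ ha (by linarith)
    have h34 : u3 ≤ u4 := ps1_mono k a _ _ ha (by linarith) (by linarith)
    have e3 : a * u3 ^ k = M + E := ps1_pow k hk a _ ha (by linarith)
    have e4 : a * u4 ^ k = M + h - E := ps1_pow k hk a _ ha (by linarith)
    have h4P : u4 ≤ P := by
      apply le_of_pow_le_pow_left₀ hkne (Nat.cast_nonneg _)
      have : a * u4 ^ k ≤ a * (P : ℝ) ^ k := by rw [e4]; exact hP
      exact le_of_mul_le_mul_left this ha
    have hsub : Ico ⌈u3⌉₊ ⌈u4⌉₊ ⊆ S := by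
      intro x hx
      rw [mem_Ico] at hx
      have hx1 : u3 ≤ x := Nat.ceil_le.1 hx.1
      have hx2 : (x : ℝ) < u4 := Nat.lt_ceil.1 hx.2
      have hx0 : 0 < x := by
        have : (0 : ℝ) < x := by linarith
        exact_mod_cast this
      have hxP : x ≤ P := by
        have : (x : ℝ) ≤ P := by linarith
        exact_mod_cast this
      have hx3 : x ∈ Ioc 0 P := mem_Ioc.2 ⟨hx0, hxP⟩
      rw [hS, mem_filter]
      have h4 := abs_le.1 (hg x hx3)
      refine ⟨hx3, ?_, ?_⟩
      · have h5 : a * u3 ^ k ≤ a * (x : ℝ) ^ k := mul_le_mul_of_nonneg_left (pow_le_pow_left₀ h30.le hx1 k) ha.le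
        rw [e3] at h5
        have h6 : (n' : ℝ) ≤ g x := by linarith [h4.1, h4.2]
        exact_mod_cast h6
      · have h5 : a * (x : ℝ) ^ k < a * u4 ^ k :=
          mul_lt_mul_of_pos_left (pow_lt_pow_left₀ hx2 (Nat.cast_nonneg _) hkne) ha
        rw [e4] at h5
        have h6 : (g x : ℝ) < n' + h := by linarith [h4.1, h4.2]
        exact_mod_cast h6
    have h7 := card_le_card hsub
    rw [Nat.card_Ico] at h7
    have h8 : ⌈u3⌉₊ ≤ ⌈u4⌉₊ := Nat.ceil_mono h34
    have h9 : (⌈u4⌉₊ : ℝ) - ⌈u3⌉₊ ≤ (S.card : ℝ) := by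
      have h10 : ((⌈u4⌉₊ - ⌈u3⌉₊ : ℕ) : ℝ) ≤ (S.card : ℝ) := by exact_mod_cast h7
      rw [Nat.cast_sub h8] at h10
      exact h10
    have h11 := Nat.ceil_lt_add_one h30.le
    have h12 := Nat.le_ceil u4
    have h13 := conc k hk a (M + h - E) (M + E) ha (by linarith) (by linarith)
    rw [← hu3, ← hu4] at h13
    have h14 : rh k a (M + h - E) * (M + E - (M + h - E)) = -(rh k a (M + h - E) * (h - 2 * E)) := by ring
    rw [h14] at h13
    linarith
  rw [abs_le]
  constructor
  · -- lower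
    have h1 := rh_slow k hk a M (M + h - E) ha hM (by linarith)
    have hρ' := rh_pos k hk a (M + h - E) ha (by linarith)
    have h2 : rh k a M * (1 - h / M) ≤ rh k a (M + h - E) := by
      rcases le_or_gt (1 - h / M) 0 with hc | hc
      · exact (mul_nonpos_of_nonneg_of_nonpos hρ.le hc).trans hρ'.le
      · calc rh k a M * (1 - h / M) ≤ rh k a (M + h - E) * ((M + h - E) / M) * (1 - h / M) :=
              mul_le_mul_of_nonneg_right h1 hc.le
          _ ≤ rh k a (M + h - E) * 1 := by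
              rw [mul_assoc]
              apply mul_le_mul_of_nonneg_left _ hρ'.le
              have e1 : (M + h - E) / M * (1 - h / M) = ((M + h - E) * (M - h)) / M ^ 2 := by field_simp
              rw [e1, div_le_one (by positivity)]
              have h5 : h / M < 1 := by linarith
              rw [div_lt_one hM] at h5
              nlinarith [mul_nonneg hE (by linarith : (0 : ℝ) ≤ M - h), sq_nonneg (h : ℝ)]
          _ = _ := mul_one _
    have h3 : rh k a M * (1 - h / M) * (h - 2 * E) ≤ rh k a (M + h - E) * (h - 2 * E) :=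
      mul_le_mul_of_nonneg_right h2 (by linarith)
    have h4 : rh k a M * (1 - h / M) * (h - 2 * E) =
        h * rh k a M - rh k a M * (2 * E + (h : ℝ) ^ 2 / M) + rh k a M * (2 * E * (h / M)) := by
      field_simp
      ring
    have h5 : 0 ≤ rh k a M * (2 * E * (h / M)) := by positivity
    have h6 : 0 ≤ rh k a M * (4 * E) := by positivity
    nlinarith
  · -- upper
    have h1 := rh_slow k hk a (M - E) M ha (by linarith) (by linarith)
    have h2 : M / (M - E) ≤ 1 + 2 * E / M := by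
      rw [div_le_iff₀ (by linarith)]
      have e1 : (1 + 2 * E / M) * (M - E) = M + E - 2 * E ^ 2 / M := by field_simp; ring
      rw [e1]
      have h3 : 2 * E ^ 2 / M ≤ E := by
        rw [div_le_iff₀ hM]
        nlinarith
      linarith
    have h3 : rh k a (M - E) ≤ rh k a M * (1 + 2 * E / M) := h1.trans (mul_le_mul_of_nonneg_left h2 hρ.le)
    have h4 : rh k a (M - E) * (h + 2 * E) ≤ rh k a M * (1 + 2 * E / M) * (h + 2 * E) :=
      mul_le_mul_of_nonneg_right h3 (by linarith)
    have h5 : rh k a M * (1 + 2 * E / M) * (h + 2 * E) ≤ h * rh k a M + rh k a M * (6 * E) := by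
      have h6 : 2 * E / M * (h + 2 * E) ≤ 4 * E := by
        rw [div_mul_eq_mul_div, div_le_iff₀ hM]
        nlinarith
      have h7 : rh k a M * (1 + 2 * E / M) * (h + 2 * E) =
          rh k a M * (h + 2 * E + 2 * E / M * (h + 2 * E)) := by ring
      rw [h7]
      have h8 : rh k a M * (h + 2 * E + 2 * E / M * (h + 2 * E)) ≤ rh k a M * (h + 2 * E + 4 * E) := by
        apply mul_le_mul_of_nonneg_left _ hρ.le
        linarith
      linarith
    have h6 : 0 ≤ rh k a M * ((h : ℝ) ^ 2 / M) := by positivity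
    linarith

end Pool.Agent.U914.WP
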