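import Mathlib
import Pool.Agent.U914.WP.HC

/-! Almost all polynomials in Waring's problem: the main term for arbitrary sets. -/

set_option autoImplicit false

open Finset MeasureTheory
open Pool.Agent.U518.WS (ms)

namespace Pool.Agent.U914.WP

theorem card_pi_le (s P : ℕ) (B : Fin s → Finset ℕ) (hB : ∀ i, B i ⊆ Ioc 0 P) :
    ((Fintype.piFinset B).card : ℝ) ≤ (P : ℝ) ^ s := by
  rw [Fintype.card_piFinset]
  push_cast
  calc ∏ i, ((B i).card : ℝ) ≤ ∏ _i : Fin s, (P : ℝ) := by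
        apply prod_le_prod (fun i _ => Nat.cast_nonneg _)
        intro i _
        have h1 := card_le_card (hB i)
        rw [Nat.card_Ioc, Nat.sub_zero] at h1
        exact_mod_cast h1
    _ = _ := by simp

theorem hb_card (d P : ℕ) (B : Fin (2 * (d + 1)) → Finset ℕ) (pr : ((Fin (2 * (d + 1)) → ℕ) × ℕ) → Prop)
    [DecidablePred pr] : (((hb d P B).filter pr).card : ℝ) =
      ∑ b ∈ Fintype.piFinset B, (((Ioc 0 P).filter fun x => pr (b, x)).card : ℝ) := by
  unfold hb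
  rw [card_filter]
  push_cast
  rw [sum_product]
  apply sum_congr rfl
  intro b _
  rw [card_filter]
  push_cast
  rfl

/-- **The main term at each scale, for arbitrary sets.** -/
theorem rel_scale (d : ℕ) (hd : 1 ≤ d) (a : ℝ) (ha : 0 < a) (θ : Fin d → ℝ) (κ : ℝ) (hκ1 : κ ≤ 1 / 100) :
    ∃ C0 : ℝ, 0 < C0 ∧ ∀ᶠ ν : ℕ in Filter.atTop, ∀ n : ℕ,
      a * (((2 ^ ν : ℕ) : ℝ) / 2) ^ (d + 1) ≤ 2 * n → 2 * (n : ℝ) ≤ a * ((2 ^ ν : ℕ) : ℝ) ^ (d + 1) →
      ∀ B : Fin (2 * (d + 1)) → Finset ℕ,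
      (∀ i, ∀ b ∈ B i, 0 < b ∧ 4 * ((d + 1 : ℕ) : ℝ) * (a * (b : ℝ) ^ (d + 1)) ≤ n) →
      Yb d a (2 ^ ν) (((2 ^ ν : ℕ) : ℝ) ^ ((1 : ℝ) / 4 - ((d + 1 : ℕ) : ℝ))) θ B ≤
        ENNReal.ofReal (((2 ^ ν : ℕ) : ℝ) ^ (((d + 1 : ℕ) : ℝ) + 1 - κ)) →
      |(((hb d (2 ^ ν) B).filter fun p => hz d a θ p = (n : ℤ)).card : ℝ) -
        ∑ b ∈ Fintype.piFinset B, rh (d + 1) a (n - a * ∑ i, (b i : ℝ) ^ (d + 1))| ≤
        C0 * ((2 ^ ν : ℕ) : ℝ) ^ (((d + 1 : ℕ) : ℝ) + 1 - κ) := by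
  set k : ℕ := d + 1 with hk
  have hkd : (k : ℝ) = (d : ℝ) + 1 := by rw [hk]; push_cast; rfl
  have hk2 : (2 : ℝ) ≤ k := by
    have : 2 ≤ k := by omega
    exact_mod_cast this
  have hk0 : (0 : ℝ) < k := by linarith
  have hpi := Real.pi_pos
  have hθ0 : 0 ≤ ∑ j, |θ j| := sum_nonneg fun j _ => abs_nonneg _
  set C1 : ℝ := (2 * k + 1) * (∑ j, |θ j| + 1) with hC1
  have hC10 : 0 < C1 := by positivity
  set c0 : ℝ := a / 2 ^ (k + 2) with hc0
  have hc00 : 0 < c0 := by positivity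
  set C2 : ℝ := 1 + (6 * C1 / (k * c0) + 4 / (k * c0 ^ 2)) with hC2
  have hC20 : 0 < C2 := by positivity
  refine ⟨2 + 8 * Real.pi + C2, by positivity, ?_⟩
  have htend : Filter.Tendsto (fun ν : ℕ => ((2 ^ ν : ℕ) : ℝ)) Filter.atTop Filter.atTop :=
    tendsto_natCast_atTop_atTop.comp (tendsto_pow_atTop_atTop_of_one_lt (by norm_num : 1 < 2))
  have ht16 : Filter.Tendsto (fun ν : ℕ => ((2 ^ ν : ℕ) : ℝ) ^ ((1 : ℝ) / 16)) Filter.atTop Filter.atTop :=
    (tendsto_rpow_atTop (by norm_num)).comp htend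
  filter_upwards [ht16.eventually_ge_atTop (2 * C1), ht16.eventually_ge_atTop (8 / c0),
    ht16.eventually_ge_atTop (8 / a), htend.eventually_ge_atTop 1] with ν h1 h2 h3 hp1
  intro n hn1 hn2 B hB hY
  set P : ℕ := 2 ^ ν with hP
  set p : ℝ := ((P : ℕ) : ℝ) with hp
  have hp0 : 0 < p := by linarith
  have hP1 : 1 ≤ P := Nat.one_le_two_pow
  have hpd : 0 < p ^ d := by positivity
  have hpk : p ^ k = p * p ^ d := by rw [hk, pow_succ]; ring
  have hq1 : 1 ≤ p ^ ((1 : ℝ) / 16) := Real.one_le_rpow hp1 (by norm_num)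
  have hq : p ^ ((1 : ℝ) / 16) * p ^ ((15 : ℝ) / 16) = p := by
    rw [← Real.rpow_add hp0]
    norm_num
  have hq16 : p ^ ((1 : ℝ) / 16) * p ^ ((1 : ℝ) / 16) ≤ p := by
    rw [← Real.rpow_add hp0]
    calc p ^ ((1 : ℝ) / 16 + 1 / 16) ≤ p ^ (1 : ℝ) := Real.rpow_le_rpow_of_exponent_le hp1 (by norm_num)
      _ = p := Real.rpow_one p
  set q : ℝ := p ^ ((1 : ℝ) / 16) with hqdef
  have hq0 : 0 < q := by linarith
  -- the window
  set h : ℕ := ⌈q * p ^ d⌉₊ with hh
  have hqp1 : 1 ≤ q * p ^ d := one_le_mul_of_one_le_of_one_le hq1 (one_le_pow₀ hp1)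
  have hh1 : q * p ^ d ≤ h := Nat.le_ceil _
  have hh2 : (h : ℝ) ≤ 2 * (q * p ^ d) := by
    have := Nat.ceil_lt_add_one (by positivity : 0 ≤ q * p ^ d)
    linarith
  have hh0 : (0 : ℝ) < h := by linarith
  have hhN : 1 ≤ h := by
    have : (0 : ℝ) < (h : ℝ) := hh0
    exact_mod_cast this
  -- the sets lie in the interval
  have hBP : ∀ i, B i ⊆ Ioc 0 P := by
    intro i b hb
    obtain ⟨hb1, hb2⟩ := hB i b hb
    rw [mem_Ioc]
    refine ⟨hb1, ?_⟩
    have h4 : a * (b : ℝ) ^ k ≤ a * p ^ k := by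
      have h5 : 0 ≤ a * (b : ℝ) ^ k := by positivity
      have h6 : 0 ≤ a * p ^ k := by positivity
      nlinarith
    have h5 : (b : ℝ) ≤ ((P : ℕ) : ℝ) := le_of_pow_le_pow_left₀ (by omega : k ≠ 0) hp0.le (le_of_mul_le_mul_left h4 ha)
    exact_mod_cast h5
  have hMb : ∀ b ∈ Fintype.piFinset B, (n : ℝ) / 2 ≤ n - a * ∑ i, (b i : ℝ) ^ k ∧
      (n : ℝ) - a * ∑ i, (b i : ℝ) ^ k ≤ n := by
    intro b hb
    rw [Fintype.mem_piFinset] at hb
    have h4 : ∑ i, (a * (b i : ℝ) ^ k) ≤ ∑ _i : Fin (2 * (d + 1)), (n : ℝ) / (4 * k) := by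
      apply sum_le_sum
      intro i _
      rw [le_div_iff₀ (by positivity)]
      have := (hB i _ (hb i)).2
      linarith
    rw [sum_const, card_univ, Fintype.card_fin, nsmul_eq_mul, ← mul_sum] at h4
    have h5 : ((2 * (d + 1) : ℕ) : ℝ) * ((n : ℝ) / (4 * k)) = n / 2 := by
      have : ((2 * (d + 1) : ℕ) : ℝ) = 2 * k := by rw [hk]; push_cast; ring
      rw [this]
      field_simp
      ring
    rw [h5] at h4
    have h6 : 0 ≤ a * ∑ i, (b i : ℝ) ^ k := by positivity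
    constructor <;> linarith
  have hnlow : 2 * c0 * p ^ k ≤ n := by
    have e1 : a * (p / 2) ^ k = 2 * (2 * c0 * p ^ k) := by
      have e0 : (2 : ℝ) ^ (k + 2) = 2 ^ k * 4 := by rw [pow_add]; norm_num
      rw [hc0, div_pow, e0]
      field_simp
      norm_num
    rw [e1] at hn1
    linarith
  have hn0 : (0 : ℝ) < n := lt_of_lt_of_le (by positivity) hnlow
  set E : ℝ := C1 * p ^ d with hE
  have hE0 : 0 < E := by positivity
  have hEh : 2 * E ≤ q * p ^ d := by
    rw [hE, ← mul_assoc]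
    exact mul_le_mul_of_nonneg_right h1 hpd.le
  have hqc : 8 * (q * p ^ d) ≤ c0 * p ^ k := by
    rw [div_le_iff₀ hc00] at h2
    rw [hpk]
    have h4 : 8 * q ≤ c0 * p := by nlinarith
    nlinarith
  have hqa : 8 * (q * p ^ d) ≤ a * p ^ k := by
    rw [div_le_iff₀ ha] at h3
    rw [hpk]
    have h4 : 8 * q ≤ a * p := by nlinarith
    nlinarith
  -- one variable
  have hone : ∀ b ∈ Fintype.piFinset B,
      |(((Ioc 0 P).filter fun x => (n : ℤ) ≤ hz d a θ (b, x) ∧ hz d a θ (b, x) < (n : ℤ) + h).card : ℝ) -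
        h * rh k a (n - a * ∑ i, (b i : ℝ) ^ k)| ≤ C2 := by
    intro b hb
    obtain ⟨hM1, hM2⟩ := hMb b hb
    set M : ℝ := (n : ℝ) - a * ∑ i, (b i : ℝ) ^ k with hM
    have hMlow : c0 * p ^ k ≤ M := by linarith
    have hM0 : 0 < M := lt_of_lt_of_le (by positivity) hMlow
    have hMp : M ≤ a * p ^ k / 2 := by linarith
    have hfilt : ((Ioc 0 P).filter fun x => (n : ℤ) ≤ hz d a θ (b, x) ∧ hz d a θ (b, x) < (n : ℤ) + h) =
        ((Ioc 0 P).filter fun x : ℕ => (n : ℤ) - zz (2 * (d + 1)) d a θ b ≤ ⌊pf d a θ x⌋ ∧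
          ⌊pf d a θ x⌋ < (n : ℤ) - zz (2 * (d + 1)) d a θ b + h) := by
      apply filter_congr
      intro x _
      unfold hz
      simp only
      constructor
      · rintro ⟨h4, h5⟩
        constructor <;> linarith
      · rintro ⟨h4, h5⟩
        constructor <;> linarith
    rw [hfilt]
    have hg : ∀ x ∈ Ioc 0 P, |((⌊pf d a θ x⌋ : ℤ) : ℝ) - (((n : ℤ) - zz (2 * (d + 1)) d a θ b : ℤ) : ℝ) -
        (a * (x : ℝ) ^ k - M)| ≤ E := by
      intro x hx
      have h4 := zz_near2 (2 * (d + 1)) d a θ P hP1 b (by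
        unfold fbx
        rw [Fintype.mem_piFinset] at hb ⊢
        exact fun i => hBP i (hb i))
      have h5 := zz_near2 1 d a θ P hP1 (fun _ => x) (by
        unfold fbx
        rw [Fintype.mem_piFinset]
        exact fun _ => hx)
      have h6 : (zz 1 d a θ (fun _ => x) : ℝ) = (⌊pf d a θ x⌋ : ℝ) := by
        unfold zz
        simp
      have h7 : ∑ _i : Fin 1, (x : ℝ) ^ (d + 1) = (x : ℝ) ^ k := by simp [hk]
      rw [h6, h7] at h5
      have e1 : ((⌊pf d a θ x⌋ : ℤ) : ℝ) - (((n : ℤ) - zz (2 * (d + 1)) d a θ b : ℤ) : ℝ) - (a * (x : ℝ) ^ k - M) =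
          ((zz (2 * (d + 1)) d a θ b : ℝ) - a * ∑ i, (b i : ℝ) ^ (d + 1)) + ((⌊pf d a θ x⌋ : ℝ) - a * (x : ℝ) ^ k) := by
        rw [hM]
        push_cast
        ring
      rw [e1]
      refine (abs_add_le _ _).trans ?_
      refine (add_le_add h4 h5).trans (le_of_eq ?_)
      rw [hE, hC1, hkd]
      push_cast
      ring
    have hmain := onevar k (by omega) a ha P h (fun x => ⌊pf d a θ x⌋) ((n : ℤ) - zz (2 * (d + 1)) d a θ b) M E hE0.le
      hg hM0 (by linarith) (by linarith) (by linarith) (by linarith)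
    refine hmain.trans ?_
    -- the error
    have hps : ps1 k a M ≤ p := by
      apply le_of_pow_le_pow_left₀ (by omega : k ≠ 0) hp0.le
      have h4 : a * ps1 k a M ^ k ≤ a * p ^ k := by
        rw [ps1_pow k (by omega) a M ha hM0.le]
        have : 0 ≤ a * p ^ k := by positivity
        linarith
      exact le_of_mul_le_mul_left h4 ha
    have hrh : rh k a M ≤ 1 / (k * c0) / p ^ d := by
      unfold rh
      calc ps1 k a M / (k * M) ≤ p / (k * (c0 * p ^ k)) := by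
            apply div_le_div₀ hp0.le hps (by positivity)
            exact mul_le_mul_of_nonneg_left hMlow hk0.le
        _ = _ := by
            rw [hpk]
            field_simp
    have hrh0 := (rh_pos k (by omega) a M ha hM0).le
    have hh2M : (h : ℝ) ^ 2 / M ≤ 4 / c0 * p ^ d := by
      rw [div_le_iff₀ hM0]
      calc (h : ℝ) ^ 2 ≤ (2 * (q * p ^ d)) ^ 2 := pow_le_pow_left₀ hh0.le hh2 2
        _ = 4 * (q * q) * (p ^ d * p ^ d) := by ring
        _ ≤ 4 * p * (p ^ d * p ^ d) := by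
            apply mul_le_mul_of_nonneg_right _ (by positivity)
            linarith
        _ = 4 / c0 * p ^ d * (c0 * p ^ k) := by
            rw [hpk]
            field_simp
        _ ≤ _ := mul_le_mul_of_nonneg_left hMlow (by positivity)
    calc 1 + rh k a M * (6 * E + (h : ℝ) ^ 2 / M) ≤ 1 + 1 / (k * c0) / p ^ d * (6 * E + 4 / c0 * p ^ d) := by
          apply add_le_add le_rfl
          apply mul_le_mul hrh _ (by positivity) (by positivity)
          linarith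
      _ = _ := by
          rw [hC2, hE]
          field_simp
  -- the window count
  have hW : |(((hb d P B).filter fun p => (n : ℤ) ≤ hz d a θ p ∧ hz d a θ p < (n : ℤ) + h).card : ℝ) / h -
      ∑ b ∈ Fintype.piFinset B, rh k a (n - a * ∑ i, (b i : ℝ) ^ k)| ≤ C2 * p ^ ((k : ℝ) + 1 - κ) := by
    rw [hb_card, sum_div, ← sum_sub_distrib]
    have h4 : ∀ b ∈ Fintype.piFinset B,
        |(((Ioc 0 P).filter fun x => (n : ℤ) ≤ hz d a θ (b, x) ∧ hz d a θ (b, x) < (n : ℤ) + h).card : ℝ) / h -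
        rh k a (n - a * ∑ i, (b i : ℝ) ^ k)| ≤ C2 / h := by
      intro b hb
      rw [le_div_iff₀ hh0]
      have h5 := hone b hb
      calc _ = |((((Ioc 0 P).filter fun x => (n : ℤ) ≤ hz d a θ (b, x) ∧ hz d a θ (b, x) < (n : ℤ) + h).card : ℝ) / h -
            rh k a (n - a * ∑ i, (b i : ℝ) ^ k)) * h| := by rw [abs_mul, abs_of_pos hh0]
        _ = |(((Ioc 0 P).filter fun x => (n : ℤ) ≤ hz d a θ (b, x) ∧ hz d a θ (b, x) < (n : ℤ) + h).card : ℝ) -
            h * rh k a (n - a * ∑ i, (b i : ℝ) ^ k)| := by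
            congr 1
            field_simp
        _ ≤ _ := h5
    calc _ ≤ ∑ b ∈ Fintype.piFinset B, C2 / h := (abs_sum_le_sum_abs _ _).trans (sum_le_sum h4)
      _ = ((Fintype.piFinset B).card : ℝ) * (C2 / h) := by rw [sum_const, nsmul_eq_mul]
      _ ≤ p ^ (2 * (d + 1)) * (C2 / (q * p ^ d)) := by
          apply mul_le_mul (card_pi_le _ P B hBP) _ (by positivity) (by positivity)
          exact div_le_div_of_nonneg_left hC20.le (by positivity) hh1
      _ = C2 * (p ^ (2 * (d + 1)) / (q * p ^ d)) := by ring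
      _ ≤ _ := by
          apply mul_le_mul_of_nonneg_left _ hC20.le
          rw [div_le_iff₀ (by positivity), hqdef]
          have e1 : p ^ (2 * (d + 1)) = p ^ (2 * (k : ℝ)) := by
            rw [← Real.rpow_natCast]
            push_cast
            rw [hkd]
          have e2 : p ^ d = p ^ (d : ℝ) := (Real.rpow_natCast p d).symm
          rw [e1, e2, ← Real.rpow_add hp0, ← Real.rpow_add hp0]
          apply Real.rpow_le_rpow_of_exponent_le hp1
          linarith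
  -- local constancy
  set T : ℝ := p ^ ((1 : ℝ) / 4 - (k : ℝ)) with hT
  have hT0 : 0 < T := by positivity
  have hloc : ∀ j < h, |(((hb d P B).filter fun x => hz d a θ x = (n : ℤ) + j).card : ℝ) -
      ((hb d P B).filter fun x => hz d a θ x = (n : ℤ)).card| ≤
      2 * p ^ ((k : ℝ) + 1 - κ) + p ^ (2 * (d + 1) + 1) * (2 * Real.pi * T * h) * (2 * T) := by
    intro j hj
    apply local_constB d a P θ T (p ^ ((k : ℝ) + 1 - κ)) h hT0 (by positivity) B hBP hY
    push_cast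
    rw [add_sub_cancel_left, abs_of_nonneg (Nat.cast_nonneg _)]
    exact_mod_cast hj.le
  have hwin := window (hb d P B) (hz d a θ) (n : ℤ) h hhN _ hloc
  have hD : p ^ (2 * (d + 1) + 1) * (2 * Real.pi * T * h) * (2 * T) ≤ 8 * Real.pi * p ^ ((k : ℝ) + 1 - κ) := by
    calc p ^ (2 * (d + 1) + 1) * (2 * Real.pi * T * h) * (2 * T) ≤
          p ^ (2 * (d + 1) + 1) * (2 * Real.pi * T * (2 * (q * p ^ d))) * (2 * T) := by gcongr
      _ = 8 * Real.pi * (p ^ (2 * (d + 1) + 1) * (T * T) * (q * p ^ d)) := by ring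
      _ ≤ _ := by
          apply mul_le_mul_of_nonneg_left _ (by positivity)
          have e1 : p ^ (2 * (d + 1) + 1) = p ^ (2 * (k : ℝ) + 1) := by
            rw [← Real.rpow_natCast]
            push_cast
            rw [hkd]
          have e2 : p ^ d = p ^ (d : ℝ) := (Real.rpow_natCast p d).symm
          rw [e1, e2, hT, hqdef, ← Real.rpow_add hp0, ← Real.rpow_add hp0, ← Real.rpow_add hp0, ← Real.rpow_add hp0]
          apply Real.rpow_le_rpow_of_exponent_le hp1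
          linarith
  calc _ ≤ |(((hb d P B).filter fun p => hz d a θ p = (n : ℤ)).card : ℝ) -
        (((hb d P B).filter fun p => (n : ℤ) ≤ hz d a θ p ∧ hz d a θ p < (n : ℤ) + h).card : ℝ) / h| +
        |(((hb d P B).filter fun p => (n : ℤ) ≤ hz d a θ p ∧ hz d a θ p < (n : ℤ) + h).card : ℝ) / h -
          ∑ b ∈ Fintype.piFinset B, rh k a (n - a * ∑ i, (b i : ℝ) ^ k)| := abs_sub_le _ _ _
    _ ≤ (2 * p ^ ((k : ℝ) + 1 - κ) + 8 * Real.pi * p ^ ((k : ℝ) + 1 - κ)) + C2 * p ^ ((k : ℝ) + 1 - κ) :=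
        add_le_add (hwin.trans (add_le_add le_rfl hD)) hW
    _ = _ := by ring

end Pool.Agent.U914.WP
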