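import Mathlib
import Pool.Agent.U914.WP.GK

/-! Almost all polynomials in Waring's problem: the asymptotic formula in mean square. -/

set_option autoImplicit false

open Finset MeasureTheory Complex
open Pool.Agent.U518.WS (ee norm_ee ee_add ee_sub ee_sum ee_neg ee_zero continuous_ee m1 ms meas_T)

namespace Pool.Agent.U914.WP

/-- the average of the characters over a window -/
noncomputable def Dw (h : ℕ) (α : ℝ) : ℂ := (1 / (h : ℂ)) * ∑ j ∈ range h, ee (-(α * j))

theorem Dw_cont (h : ℕ) : Continuous (Dw h) := by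
  unfold Dw
  apply Continuous.mul continuous_const
  exact continuous_finsetSum _ fun j _ => continuous_ee.comp (by fun_prop)

theorem Dw_eq (h : ℕ) (hh : 1 ≤ h) (α : ℝ) : 1 - Dw h α = (1 / (h : ℂ)) * ∑ j ∈ range h, (ee 0 - ee (-(α * j))) := by
  unfold Dw
  have hh0 : (h : ℂ) ≠ 0 := by
    have : h ≠ 0 := by omega
    exact_mod_cast this
  rw [sum_sub_distrib, sum_const, card_range, nsmul_eq_mul, mul_sub, ee_zero, mul_one, one_div, inv_mul_cancel₀ hh0]

theorem Dw_le (h : ℕ) (hh : 1 ≤ h) (α : ℝ) : ‖1 - Dw h α‖ ≤ 2 ∧ ‖1 - Dw h α‖ ≤ 2 * Real.pi * |α| * h := by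
  have hpi := Real.pi_pos
  have hh0 : (0 : ℝ) < h := by exact_mod_cast hh
  rw [Dw_eq h hh, norm_mul, norm_div, norm_one, norm_natCast]
  have h1 : ∀ B : ℝ, (∀ j ∈ range h, ‖ee 0 - ee (-(α * j))‖ ≤ B) → 1 / (h : ℝ) * ‖∑ j ∈ range h, (ee 0 - ee (-(α * j)))‖ ≤ B := by
    intro B hB
    have h2 : ‖∑ j ∈ range h, (ee 0 - ee (-(α * j)))‖ ≤ h * B := by
      refine (norm_sum_le _ _).trans ((sum_le_sum hB).trans (le_of_eq ?_))
      rw [sum_const, card_range, nsmul_eq_mul]
    calc 1 / (h : ℝ) * ‖∑ j ∈ range h, (ee 0 - ee (-(α * j)))‖ ≤ 1 / (h : ℝ) * (h * B) :=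
          mul_le_mul_of_nonneg_left h2 (by positivity)
      _ = B := by field_simp
  constructor
  · apply h1
    intro j _
    refine (norm_sub_le _ _).trans ?_
    rw [norm_ee, norm_ee]
    norm_num
  · apply h1
    intro j hj
    refine (ee_diff _ _).trans ?_
    have hjh : (j : ℝ) ≤ h := by
      have := (mem_range.1 hj).le
      exact_mod_cast this
    have e1 : |0 - -(α * j)| = |α| * j := by
      rw [zero_sub, neg_neg, abs_mul, abs_of_nonneg (Nat.cast_nonneg j : (0 : ℝ) ≤ j)]
    rw [e1, ← mul_assoc]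
    exact mul_le_mul_of_nonneg_left hjh (by positivity)

/-- **The deviation from the average over a window, in mean square.** -/
theorem dev2 (s d : ℕ) (a : ℝ) (P : ℕ) (θ : Fin d → ℝ) (T B : ℝ) (h : ℕ) (hh : 1 ≤ h) (hT : 0 < T) (hB : 0 ≤ B)
    (hY : Ym (2 * s) d a P T θ ≤ ENNReal.ofReal B) (J : Finset ℤ) :
    ∑ n ∈ J, ((((fbx s P).filter fun x => zz s d a θ x = n).card : ℝ) -
        (((fbx s P).filter fun x => n ≤ zz s d a θ x ∧ zz s d a θ x < n + h).card : ℝ) / h) ^ 2 ≤
      4 * B + (P : ℝ) ^ (2 * s) * (2 * Real.pi * T * h) ^ 2 * (2 * T) := by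
  classical
  have hpi := Real.pi_pos
  have hh0 : (0 : ℝ) < h := by exact_mod_cast hh
  set I0 : Set ℝ := Set.Icc (-(1 / 2) : ℝ) (1 / 2) with hI0
  set R : ℤ → ℝ := fun n => (((fbx s P).filter fun x => zz s d a θ x = n).card : ℝ) with hR
  have hRe : ∀ n : ℤ, ((R n : ℝ) : ℂ) = ∫ α in I0, ee (-(α * n)) * SF d a θ P α ^ s := by
    intro n
    rw [hR]
    simp only
    rw [count_z (fbx s P) (zz s d a θ) n]
    apply setIntegral_congr_fun measurableSet_Icc
    intro α _
    simp only
    rw [SF_pow]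
  have hci : ∀ n : ℤ, Continuous fun α : ℝ => ee (-(α * n)) * SF d a θ P α ^ s := fun n =>
    (continuous_ee.comp (by fun_prop)).mul ((SF_cont d a θ P).pow s)
  set G : ℝ → ℂ := fun α => SF d a θ P α ^ s * (1 - Dw h α) with hG
  have hGc : Continuous G := ((SF_cont d a θ P).pow s).mul (continuous_const.sub (Dw_cont h))
  have hwin : ∀ n : ℤ, (((fbx s P).filter fun x => n ≤ zz s d a θ x ∧ zz s d a θ x < n + h).card : ℝ) =
      ∑ j ∈ range h, R (n + j) := by
    intro n
    have h2 : ((fbx s P).filter fun x => n ≤ zz s d a θ x ∧ zz s d a θ x < n + h) =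
        (range h).biUnion fun j => (fbx s P).filter fun x => zz s d a θ x = n + j := by
      ext x
      simp only [mem_filter, mem_biUnion, mem_range]
      constructor
      · rintro ⟨hx, h3, h4⟩
        refine ⟨(zz s d a θ x - n).toNat, by omega, hx, by omega⟩
      · rintro ⟨j, hj, hx, h3⟩
        exact ⟨hx, by omega, by omega⟩
    rw [h2, card_biUnion]
    · push_cast
      rfl
    · intro i _ j _ hij
      rw [Function.onFun, disjoint_filter]
      intro x _ h3 h4
      apply hij
      omega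
  have hfc : ∀ n : ℤ, fc G n = ((R n - (∑ j ∈ range h, R (n + j)) / h : ℝ) : ℂ) := by
    intro n
    unfold fc
    have e1 : ∀ α : ℝ, ee (-(α * n)) * G α = ee (-(α * n)) * SF d a θ P α ^ s -
        ∑ j ∈ range h, (1 / (h : ℂ)) * (ee (-(α * ((n + j : ℤ) : ℝ))) * SF d a θ P α ^ s) := by
      intro α
      rw [hG]
      simp only
      unfold Dw
      have e2 : ∀ j : ℕ, ee (-(α * ((n + j : ℤ) : ℝ))) = ee (-(α * n)) * ee (-(α * j)) := by
        intro j
        rw [← ee_add]
        congr 1
        push_cast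
        ring
      simp only [e2]
      rw [← mul_sum]
      have e3 : ∑ i ∈ range h, ee (-(α * n)) * ee (-(α * i)) * SF d a θ P α ^ s =
          ee (-(α * n)) * SF d a θ P α ^ s * ∑ i ∈ range h, ee (-(α * i)) := by
        rw [mul_sum]
        apply sum_congr rfl
        intro i _
        ring
      rw [e3]
      ring
    have hi1 : Integrable (fun α : ℝ => ee (-(α * n)) * SF d a θ P α ^ s) (volume.restrict I0) :=
      (hci n).continuousOn.integrableOn_Icc
    have hi2 : ∀ j ∈ range h, Integrable (fun α : ℝ => (1 / (h : ℂ)) * (ee (-(α * ((n + j : ℤ) : ℝ))) *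
        SF d a θ P α ^ s)) (volume.restrict I0) := fun j _ =>
      (continuous_const.mul (hci (n + j))).continuousOn.integrableOn_Icc
    have e6 : ∫ α in I0, ee (-(α * n)) * G α = (∫ α in I0, ee (-(α * n)) * SF d a θ P α ^ s) -
        ∑ j ∈ range h, ∫ α in I0, (1 / (h : ℂ)) * (ee (-(α * ((n + j : ℤ) : ℝ))) * SF d a θ P α ^ s) := by
      rw [← integral_finsetSum _ hi2, ← integral_sub hi1 (integrable_finsetSum _ hi2)]
      exact integral_congr_ae (Filter.Eventually.of_forall e1)
    rw [e6, ← hRe]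
    have e4 : ∀ j ∈ range h, ∫ α in I0, (1 / (h : ℂ)) * (ee (-(α * ((n + j : ℤ) : ℝ))) * SF d a θ P α ^ s) =
        (1 / (h : ℂ)) * ((R (n + j) : ℝ) : ℂ) := by
      intro j _
      rw [integral_const_mul, ← hRe]
    rw [sum_congr rfl e4, ← mul_sum]
    push_cast
    ring
  have hb := bessel J G hGc
  have e5 : ∀ n : ℤ, ‖fc G n‖ ^ 2 = (R n - (((fbx s P).filter fun x => n ≤ zz s d a θ x ∧ zz s d a θ x < n + h).card : ℝ) / h) ^ 2 := by
    intro n
    rw [hfc, hwin, norm_real, Real.norm_eq_abs, sq_abs]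
  simp only [e5] at hb
  refine hb.trans ?_
  have hfin : ENNReal.ofReal (∫ α in I0, ‖G α‖ ^ 2) ≤
      ENNReal.ofReal (4 * B + (P : ℝ) ^ (2 * s) * (2 * Real.pi * T * h) ^ 2 * (2 * T)) := by
    have hi3 : Integrable (fun α : ℝ => ‖G α‖ ^ 2) (volume.restrict I0) :=
      (hGc.norm.pow 2).continuousOn.integrableOn_Icc
    rw [ofReal_integral_eq_lintegral_ofReal hi3 (Filter.Eventually.of_forall fun α => by positivity)]
    have hpt : ∀ α ∈ I0, ENNReal.ofReal (‖G α‖ ^ 2) ≤
        ENNReal.ofReal 4 * ({α : ℝ | T ≤ |α|} ∩ I0).indicator (fun α => ENNReal.ofReal (‖SF d a θ P α‖ ^ (2 * s))) α +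
        (Set.Icc (-T) T).indicator (fun _ => ENNReal.ofReal ((P : ℝ) ^ (2 * s) * (2 * Real.pi * T * h) ^ 2)) α := by
      intro α hα
      have hGn : ‖G α‖ ^ 2 = ‖SF d a θ P α‖ ^ (2 * s) * ‖1 - Dw h α‖ ^ 2 := by
        rw [hG]
        simp only
        rw [norm_mul, norm_pow, mul_pow, ← pow_mul, mul_comm s 2]
      rw [hGn]
      obtain ⟨hD1, hD2⟩ := Dw_le h hh α
      rcases le_or_gt T |α| with hc | hc
      · have hmem : α ∈ {α : ℝ | T ≤ |α|} ∩ I0 := ⟨hc, hα⟩
        rw [Set.indicator_of_mem hmem]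
        refine le_trans ?_ le_self_add
        rw [← ENNReal.ofReal_mul (by norm_num)]
        apply ENNReal.ofReal_le_ofReal
        rw [mul_comm]
        apply mul_le_mul_of_nonneg_right _ (by positivity)
        calc ‖1 - Dw h α‖ ^ 2 ≤ 2 ^ 2 := pow_le_pow_left₀ (norm_nonneg _) hD1 2
          _ = 4 := by norm_num
      · have hmem : α ∈ Set.Icc (-T) T := abs_le.1 hc.le
        rw [Set.indicator_of_mem hmem]
        refine le_trans ?_ le_add_self
        apply ENNReal.ofReal_le_ofReal
        apply mul_le_mul _ _ (by positivity) (by positivity)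
        · exact pow_le_pow_left₀ (norm_nonneg _) (SF_norm_le d a θ P α) _
        · apply pow_le_pow_left₀ (norm_nonneg _)
          refine hD2.trans ?_
          apply mul_le_mul_of_nonneg_right _ hh0.le
          exact mul_le_mul_of_nonneg_left hc.le (by positivity)
    refine (setLIntegral_mono' measurableSet_Icc hpt).trans ?_
    refine (setLIntegral_le_lintegral _ _).trans ?_
    have hm1 : Measurable (({α : ℝ | T ≤ |α|} ∩ I0).indicator (fun α => ENNReal.ofReal (‖SF d a θ P α‖ ^ (2 * s)))) := by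
      apply Measurable.indicator _ ((meas_T T).inter measurableSet_Icc)
      exact (ENNReal.continuous_ofReal.comp ((SF_cont d a θ P).norm.pow _)).measurable
    rw [lintegral_add_left (hm1.const_mul _), lintegral_const_mul _ hm1,
      lintegral_indicator ((meas_T T).inter measurableSet_Icc), lintegral_indicator_const measurableSet_Icc,
      Real.volume_Icc, ← ENNReal.ofReal_mul (by positivity)]
    calc _ ≤ ENNReal.ofReal 4 * ENNReal.ofReal B +
          ENNReal.ofReal ((P : ℝ) ^ (2 * s) * (2 * Real.pi * T * h) ^ 2 * (T - -T)) := by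
          apply add_le_add _ le_rfl
          exact mul_le_mul_right hY _
      _ = _ := by
          have hTT : T - -T = 2 * T := by ring
          rw [hTT, ← ENNReal.ofReal_mul (by norm_num), ← ENNReal.ofReal_add (by positivity) (by positivity)]
  exact (ENNReal.ofReal_le_ofReal_iff (by positivity)).1 hfin

end Pool.Agent.U914.WP
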