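import Mathlib
import Pool.Agent.U914.WP.GL

/-! Almost all polynomials in Waring's problem: the asymptotic formula in mean square, the theorem. -/

set_option autoImplicit false

open Finset MeasureTheory
open Pool.Agent.U518.WS (ms)

namespace Pool.Agent.U914.WP

/-- the error of the main term at one scale -/
theorem main_err (s d : ℕ) (a : ℝ) (ha : 0 < a) (θ : Fin d → ℝ) (hs : d + 1 ≤ s) :
    ∃ C0 : ℝ, 0 < C0 ∧ ∀ᶠ ν : ℕ in Filter.atTop, ∃ h : ℕ, 1 ≤ h ∧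
      (h : ℝ) ≤ 2 * ((2 ^ ν : ℕ) : ℝ) ^ ((d : ℝ) + 1 / 16) ∧ ∀ n : ℕ,
      a * (((2 ^ ν : ℕ) : ℝ) / 2) ^ (d + 1) ≤ 2 * n → 2 * (n : ℝ) ≤ a * ((2 ^ ν : ℕ) : ℝ) ^ (d + 1) →
      |(((fbx s (2 ^ ν)).filter fun x => (n : ℤ) ≤ zz s d a θ x ∧ zz s d a θ x < (n : ℤ) + h).card : ℝ) / h -
          SB d s a * (n : ℝ) ^ ((s : ℝ) / ((d + 1 : ℕ) : ℝ) - 1)| ≤
        C0 * ((2 ^ ν : ℕ) : ℝ) ^ ((s : ℝ) - ((d + 1 : ℕ) : ℝ) - 1 / 16) := by
  set k : ℕ := d + 1 with hk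
  have hkd : (k : ℝ) = d + 1 := by rw [hk]; push_cast; ring
  have hd0 : (0 : ℝ) ≤ d := Nat.cast_nonneg d
  have hk1 : (1 : ℝ) ≤ k := by linarith
  have hk0 : (0 : ℝ) < k := by linarith
  set σ : ℝ := (s : ℝ) / (k : ℝ) with hσ
  have hσ1 : 1 ≤ σ := by
    rw [hσ, le_div_iff₀ hk0, one_mul]
    exact_mod_cast hs
  have hkσ : (k : ℝ) * (σ - 1) = s - k := by
    rw [hσ]
    field_simp
  set C1 : ℝ := s * (∑ j, |θ j| + 1) with hC1
  have hC10 : 0 ≤ C1 := by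
    have : 0 ≤ ∑ j, |θ j| := sum_nonneg fun _ _ => abs_nonneg _
    positivity
  have hV := VB_pos k s
  have haσ : 0 < a ^ σ := by positivity
  have hSB : SB d s a = VB k s * (σ / a ^ σ) := rfl
  set C2 : ℝ := VB k s * (σ / a ^ σ) * a ^ (σ - 1) with hC2
  have hC20 : 0 < C2 := by positivity
  set K : ℝ := s * 2 ^ σ with hK
  have hK0 : 0 ≤ K := by positivity
  set C3 : ℝ := (3 + C1) * 2 ^ (k + 1) / a with hC3
  have hC30 : 0 < C3 := by positivity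
  have htend : Filter.Tendsto (fun ν : ℕ => ((2 ^ ν : ℕ) : ℝ)) Filter.atTop Filter.atTop :=
    tendsto_natCast_atTop_atTop.comp (tendsto_pow_atTop_atTop_of_one_lt (by norm_num : 1 < 2))
  have hev1 : ∀ᶠ ν : ℕ in Filter.atTop, ((2 ^ ν : ℕ) : ℝ) ^ (-(1 / 16 : ℝ)) ≤ 1 / (2 * C1 + 1) :=
    ((tendsto_rpow_neg_atTop (by norm_num : (0 : ℝ) < 1 / 16)).comp htend).eventually_le_const (by positivity)
  have hev2 : ∀ᶠ ν : ℕ in Filter.atTop, ((2 ^ ν : ℕ) : ℝ) ^ (-(15 / 16 : ℝ)) ≤ 1 / (2 * C3) :=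
    ((tendsto_rpow_neg_atTop (by norm_num : (0 : ℝ) < 15 / 16)).comp htend).eventually_le_const (by positivity)
  have hev3 : ∀ᶠ ν : ℕ in Filter.atTop, 8 * (s : ℝ) ≤ ((2 ^ ν : ℕ) : ℝ) := htend.eventually_ge_atTop _
  have hs1 : (1 : ℝ) ≤ s := by
    have : 1 ≤ s := by omega
    exact_mod_cast this
  refine ⟨C2 * ((2 * C1 + 1) + 2 * K * C3) + 2 * (VB k s * (s : ℝ) ^ 2), by positivity, ?_⟩
  filter_upwards [hev1, hev2, hev3] with ν he1 he2 he3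
  set P : ℕ := 2 ^ ν with hP
  set p : ℝ := (P : ℝ) with hp
  have hP1 : 1 ≤ P := Nat.one_le_two_pow
  have hp1 : 1 ≤ p := by
    rw [hp]
    exact_mod_cast hP1
  have hp0 : 0 < p := by linarith
  have hmul : ∀ x y : ℝ, p ^ x * p ^ y = p ^ (x + y) := fun x y => (Real.rpow_add hp0 x y).symm
  have hle : ∀ x y : ℝ, x ≤ y → p ^ x ≤ p ^ y := fun x y h => Real.rpow_le_rpow_of_exponent_le hp1 h
  have hpd : p ^ d = p ^ (d : ℝ) := (Real.rpow_natCast p d).symm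
  have hpk : p ^ k = p ^ (k : ℝ) := (Real.rpow_natCast p k).symm
  set X : ℝ := p ^ ((d : ℝ) + 1 / 16) with hX
  have hX1 : 1 ≤ X := Real.one_le_rpow hp1 (by positivity)
  have hhX : X ≤ (⌈X⌉₊ : ℝ) := Nat.le_ceil X
  have hhX2 : (⌈X⌉₊ : ℝ) ≤ 2 * X := by
    have := Nat.ceil_lt_add_one (by linarith : (0 : ℝ) ≤ X)
    linarith
  have hh1 : 1 ≤ ⌈X⌉₊ := Nat.one_le_ceil_iff.2 (by linarith)
  refine ⟨⌈X⌉₊, hh1, hhX2, fun n hn1 hn2 => ?_⟩
  set h : ℕ := ⌈X⌉₊ with hh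
  have hh0 : (0 : ℝ) < h := by linarith
  set C : ℝ := C1 * p ^ d with hC
  have hC0 : 0 ≤ C := by positivity
  have hpd1 : 1 ≤ p ^ d := one_le_pow₀ hp1
  have hpdX : p ^ d ≤ X := by
    rw [hpd, hX]
    exact hle _ _ (by linarith)
  -- the first ratio
  have hr1 : 2 * C + 1 ≤ (2 * C1 + 1) * p ^ (-(1 / 16 : ℝ)) * X := by
    have e1 : p ^ (-(1 / 16 : ℝ)) * X = p ^ d := by
      rw [hX, hmul, hpd]
      congr 1
      ring
    rw [mul_assoc, e1, hC]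
    linarith
  have hr1' : (2 * C1 + 1) * p ^ (-(1 / 16 : ℝ)) ≤ 1 := by
    have := mul_le_mul_of_nonneg_left he1 (by positivity : 0 ≤ 2 * C1 + 1)
    rwa [mul_one_div_cancel (by positivity)] at this
  have hCh : 2 * C + 1 ≤ h := by
    have h1 := mul_le_mul_of_nonneg_right hr1' (by linarith : (0 : ℝ) ≤ X)
    linarith
  have hu : (2 * C + 1) / h ≤ (2 * C1 + 1) * p ^ (-(1 / 16 : ℝ)) := by
    rw [div_le_iff₀ hh0]
    exact hr1.trans (mul_le_mul_of_nonneg_left hhX (by positivity))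
  -- the second ratio
  have hnlow : a * p ^ k ≤ 2 ^ (k + 1) * n := by
    rw [div_pow, ← mul_div_assoc, div_le_iff₀ (by positivity)] at hn1
    calc a * p ^ k ≤ 2 * n * 2 ^ k := hn1
      _ = _ := by ring
  have hXn : (3 + C1) * X ≤ C3 * p ^ (-(15 / 16 : ℝ)) * n := by
    have e1 : X = p ^ (-(15 / 16 : ℝ)) * p ^ k := by
      rw [hX, hpk, hmul, hkd]
      congr 1
      ring
    rw [e1, hC3]
    have h1 := mul_le_mul_of_nonneg_left hnlow (by positivity : 0 ≤ (3 + C1) * p ^ (-(15 / 16 : ℝ)) / a)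
    calc (3 + C1) * (p ^ (-(15 / 16 : ℝ)) * p ^ k) = (3 + C1) * p ^ (-(15 / 16 : ℝ)) / a * (a * p ^ k) := by
          field_simp
      _ ≤ (3 + C1) * p ^ (-(15 / 16 : ℝ)) / a * (2 ^ (k + 1) * n) := h1
      _ = _ := by ring
  have hn0 : (0 : ℝ) < n := by
    have h1 : 0 < a * p ^ k := by positivity
    have h2 : (0 : ℝ) < 2 ^ (k + 1) := by positivity
    by_contra hcon
    push Not at hcon
    have : (2 : ℝ) ^ (k + 1) * n ≤ 0 := mul_nonpos_of_nonneg_of_nonpos h2.le hcon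
    linarith
  have hsum : (h : ℝ) + C + 1 ≤ (3 + C1) * X := by
    have h1 : C ≤ C1 * X := mul_le_mul_of_nonneg_left hpdX hC10
    linarith
  have hr2 : C3 * p ^ (-(15 / 16 : ℝ)) ≤ 1 / 2 := by
    have := mul_le_mul_of_nonneg_left he2 hC30.le
    refine this.trans (le_of_eq ?_)
    field_simp
  have hhn : (h : ℝ) + C + 1 ≤ n / 2 := by
    have h1 := mul_le_mul_of_nonneg_right hr2 hn0.le
    linarith
  have ht : ((h : ℝ) + C + 1) / n ≤ C3 * p ^ (-(15 / 16 : ℝ)) := by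
    rw [div_le_iff₀ hn0]
    linarith
  have hns : 2 * (a * (s : ℝ) ^ k) ≤ n := by
    have h1 : (8 * (s : ℝ)) ^ k ≤ p ^ k := pow_le_pow_left₀ (by positivity) he3 k
    rw [mul_pow] at h1
    have h2 : (2 : ℝ) ^ (k + 2) ≤ 8 ^ k := by
      have e1 : (8 : ℝ) ^ k = 2 ^ (3 * k) := by
        rw [pow_mul]
        norm_num
      rw [e1]
      exact pow_le_pow_right₀ (by norm_num) (by omega)
    have h3 : (2 : ℝ) ^ (k + 2) * (s : ℝ) ^ k ≤ p ^ k := (mul_le_mul_of_nonneg_right h2 (by positivity)).trans h1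
    have h4 := mul_le_mul_of_nonneg_left h3 ha.le
    have h5 : 2 ^ (k + 1) * (2 * (a * (s : ℝ) ^ k)) ≤ 2 ^ (k + 1) * (n : ℝ) := by
      calc 2 ^ (k + 1) * (2 * (a * (s : ℝ) ^ k)) = a * (2 ^ (k + 2) * (s : ℝ) ^ k) := by ring
        _ ≤ a * p ^ k := h4
        _ ≤ _ := hnlow
    exact le_of_mul_le_mul_left h5 (by positivity)
  have hmain := main_term s d a ha θ (by omega) P h n hh1 C hC0 (fun x hx => by
    rw [hC, hC1]
    exact zz_near2 s d a θ P hP1 x hx) hCh hhn hn2 hns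
  have hns1 : (n : ℝ) ^ (σ - 1) ≤ a ^ (σ - 1) * p ^ ((s : ℝ) - k) := by
    have h1 : (n : ℝ) ≤ a * p ^ k := by linarith
    calc (n : ℝ) ^ (σ - 1) ≤ (a * p ^ k) ^ (σ - 1) := Real.rpow_le_rpow hn0.le h1 (by linarith)
      _ = a ^ (σ - 1) * p ^ ((s : ℝ) - k) := by
          rw [Real.mul_rpow ha.le (by positivity), hpk, ← Real.rpow_mul hp0.le, hkσ]
  have hVs : VB k s * (σ / a ^ σ) * (n : ℝ) ^ (σ - 1) ≤ C2 * p ^ ((s : ℝ) - k) := by
    have h1 := mul_le_mul_of_nonneg_left hns1 (by positivity : 0 ≤ VB k s * (σ / a ^ σ))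
    rw [hC2]
    linarith
  have hrat : (2 * C + 1) / h + 2 * K * ((h + C + 1) / n) ≤ ((2 * C1 + 1) + 2 * K * C3) * p ^ (-(1 / 16 : ℝ)) := by
    have h1 : p ^ (-(15 / 16 : ℝ)) ≤ p ^ (-(1 / 16 : ℝ)) := hle _ _ (by norm_num)
    have h2 : 2 * K * ((h + C + 1) / n) ≤ 2 * K * (C3 * p ^ (-(1 / 16 : ℝ))) := by
      apply mul_le_mul_of_nonneg_left _ (by positivity)
      exact ht.trans (mul_le_mul_of_nonneg_left h1 hC30.le)
    linarith
  have hE : 2 * (VB k s * ((s : ℝ) ^ 2 * (P : ℝ) ^ (s - 1))) / h ≤ 2 * (VB k s * (s : ℝ) ^ 2) * p ^ ((s : ℝ) - k - 1 / 16) := by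
    rw [div_le_iff₀ hh0]
    have e1 : (P : ℝ) ^ (s - 1) = p ^ ((s : ℝ) - k - 1 / 16) * X := by
      rw [hX, hmul, ← Real.rpow_natCast, Nat.cast_sub (by omega)]
      congr 1
      rw [hkd]
      push_cast
      ring
    rw [e1]
    have h1 : p ^ ((s : ℝ) - k - 1 / 16) * X ≤ p ^ ((s : ℝ) - k - 1 / 16) * h := mul_le_mul_of_nonneg_left hhX (by positivity)
    have h2 := mul_le_mul_of_nonneg_left h1 (by positivity : 0 ≤ 2 * (VB k s * (s : ℝ) ^ 2))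
    linarith
  rw [hSB]
  refine hmain.trans ?_
  have h0 : 0 ≤ (2 * C + 1) / h + 2 * K * ((h + C + 1) / n) := by positivity
  have h1 : VB k s * (σ / a ^ σ) * (n : ℝ) ^ (σ - 1) * ((2 * C + 1) / h + 2 * K * ((h + C + 1) / n)) ≤
      C2 * p ^ ((s : ℝ) - k) * (((2 * C1 + 1) + 2 * K * C3) * p ^ (-(1 / 16 : ℝ))) :=
    mul_le_mul hVs hrat h0 (by positivity)
  have h2 : C2 * p ^ ((s : ℝ) - k) * (((2 * C1 + 1) + 2 * K * C3) * p ^ (-(1 / 16 : ℝ))) =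
      C2 * ((2 * C1 + 1) + 2 * K * C3) * p ^ ((s : ℝ) - k - 1 / 16) := by
    have : p ^ ((s : ℝ) - k - 1 / 16) = p ^ ((s : ℝ) - k) * p ^ (-(1 / 16 : ℝ)) := by
      rw [hmul]
      congr 1
    rw [this]
    ring
  calc _ ≤ C2 * ((2 * C1 + 1) + 2 * K * C3) * p ^ ((s : ℝ) - k - 1 / 16) +
        2 * (VB k s * (s : ℝ) ^ 2) * p ^ ((s : ℝ) - k - 1 / 16) := add_le_add (h1.trans h2.le) hE
    _ = _ := by ring

/-- **The mean square at one scale.** -/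
theorem ms_scale (s d : ℕ) (a : ℝ) (ha : 0 < a) (θ : Fin d → ℝ) (hs : d + 1 ≤ s) (κ : ℝ)
    (hκ : 0 < κ) (hκ1 : κ ≤ 1 / 100) : ∃ C0 : ℝ, 0 < C0 ∧ ∀ᶠ ν : ℕ in Filter.atTop, ∀ J : Finset ℕ,
      (∀ n ∈ J, a * (((2 ^ ν : ℕ) : ℝ) / 2) ^ (d + 1) ≤ 2 * n ∧ 2 * (n : ℝ) ≤ a * ((2 ^ ν : ℕ) : ℝ) ^ (d + 1)) →
      Ym (2 * s) d a (2 ^ ν) (((2 ^ ν : ℕ) : ℝ) ^ ((1 : ℝ) / 4 - ((d + 1 : ℕ) : ℝ))) θ ≤
        ENNReal.ofReal (((2 ^ ν : ℕ) : ℝ) ^ (2 * (s : ℝ) - ((d + 1 : ℕ) : ℝ) - κ)) →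
      ∑ n ∈ J, ((((fbx s (2 ^ ν)).filter fun x => zz s d a θ x = (n : ℤ)).card : ℝ) -
          SB d s a * (n : ℝ) ^ ((s : ℝ) / ((d + 1 : ℕ) : ℝ) - 1)) ^ 2 ≤
        C0 * ((2 ^ ν : ℕ) : ℝ) ^ (2 * (s : ℝ) - ((d + 1 : ℕ) : ℝ) - κ) := by
  classical
  obtain ⟨C1, hC1, herr⟩ := main_err s d a ha θ hs
  set k : ℕ := d + 1 with hk
  have hkd : (k : ℝ) = d + 1 := by rw [hk]; push_cast; ring
  have hd0 : (0 : ℝ) ≤ d := Nat.cast_nonneg d
  have hpi := Real.pi_pos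
  refine ⟨2 * (4 + 32 * Real.pi ^ 2) + 2 * ((a + 1) * C1 ^ 2), by positivity, ?_⟩
  filter_upwards [herr] with ν herr J hJ hY
  obtain ⟨h, hh1, hhX, hmain⟩ := herr
  set P : ℕ := 2 ^ ν with hP
  set p : ℝ := (P : ℝ) with hp
  have hP1 : 1 ≤ P := Nat.one_le_two_pow
  have hp1 : 1 ≤ p := by
    rw [hp]
    exact_mod_cast hP1
  have hp0 : 0 < p := by linarith
  have hh0 : (0 : ℝ) < h := by exact_mod_cast hh1
  have hmul : ∀ x y : ℝ, p ^ x * p ^ y = p ^ (x + y) := fun x y => (Real.rpow_add hp0 x y).symm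
  have hle : ∀ x y : ℝ, x ≤ y → p ^ x ≤ p ^ y := fun x y h => Real.rpow_le_rpow_of_exponent_le hp1 h
  set Z : ℝ := p ^ (2 * (s : ℝ) - k - κ) with hZ
  have hZ0 : 0 < Z := by positivity
  set T : ℝ := p ^ ((1 : ℝ) / 4 - (k : ℝ)) with hT
  have hT0 : 0 < T := by positivity
  set R : ℕ → ℝ := fun n => (((fbx s P).filter fun x => zz s d a θ x = (n : ℤ)).card : ℝ) with hR
  set W : ℕ → ℝ := fun n =>
    (((fbx s P).filter fun x => (n : ℤ) ≤ zz s d a θ x ∧ zz s d a θ x < (n : ℤ) + h).card : ℝ) / h with hW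
  set Mn : ℕ → ℝ := fun n => SB d s a * (n : ℝ) ^ ((s : ℝ) / (k : ℝ) - 1) with hMn
  have h1 : ∑ n ∈ J, (R n - W n) ^ 2 ≤ (4 + 32 * Real.pi ^ 2) * Z := by
    have h2 := dev2 s d a P θ T Z h hh1 hT0 hZ0.le hY (J.image fun n : ℕ => (n : ℤ))
    rw [sum_image (fun x _ y _ h => by exact_mod_cast h)] at h2
    refine h2.trans ?_
    have e1 : (P : ℝ) ^ (2 * s) = p ^ (2 * (s : ℝ)) := by
      rw [← Real.rpow_natCast]
      push_cast
      rfl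
    have h3 : (2 * Real.pi * T * h) ^ 2 ≤ (2 * Real.pi * T * (2 * p ^ ((d : ℝ) + 1 / 16))) ^ 2 := by
      apply pow_le_pow_left₀ (by positivity)
      exact mul_le_mul_of_nonneg_left hhX (by positivity)
    have h4 : (P : ℝ) ^ (2 * s) * (2 * Real.pi * T * (2 * p ^ ((d : ℝ) + 1 / 16))) ^ 2 * (2 * T) =
        32 * Real.pi ^ 2 * p ^ (2 * (s : ℝ) - k - 9 / 8) := by
      rw [e1, hT]
      calc _ = 32 * Real.pi ^ 2 * (p ^ (2 * (s : ℝ)) * p ^ ((1 : ℝ) / 4 - (k : ℝ)) * p ^ ((1 : ℝ) / 4 - (k : ℝ)) *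
            p ^ ((d : ℝ) + 1 / 16) * p ^ ((d : ℝ) + 1 / 16) * p ^ ((1 : ℝ) / 4 - (k : ℝ))) := by ring
        _ = _ := by
            simp only [hmul]
            congr 2
            rw [hkd]
            ring
    have h5 : p ^ (2 * (s : ℝ) - k - 9 / 8) ≤ Z := hle _ _ (by linarith)
    have h6 : (P : ℝ) ^ (2 * s) * (2 * Real.pi * T * h) ^ 2 * (2 * T) ≤
        (P : ℝ) ^ (2 * s) * (2 * Real.pi * T * (2 * p ^ ((d : ℝ) + 1 / 16))) ^ 2 * (2 * T) := by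
      apply mul_le_mul_of_nonneg_right _ (by positivity)
      exact mul_le_mul_of_nonneg_left h3 (by positivity)
    have h7 : 32 * Real.pi ^ 2 * p ^ (2 * (s : ℝ) - k - 9 / 8) ≤ 32 * Real.pi ^ 2 * Z :=
      mul_le_mul_of_nonneg_left h5 (by positivity)
    linarith
  have hcard : (J.card : ℝ) ≤ (a + 1) * p ^ (k : ℝ) := by
    have h2 : J ⊆ range (⌊a * p ^ k / 2⌋₊ + 1) := by
      intro n hn
      rw [mem_range]
      have h3 := (hJ n hn).2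
      have h4 : (n : ℝ) ≤ a * p ^ k / 2 := by linarith
      have := Nat.le_floor h4
      omega
    have h3 := card_le_card h2
    rw [card_range] at h3
    have h4 : (J.card : ℝ) ≤ (⌊a * p ^ k / 2⌋₊ : ℝ) + 1 := by exact_mod_cast h3
    have h5 : (⌊a * p ^ k / 2⌋₊ : ℝ) ≤ a * p ^ k / 2 := Nat.floor_le (by positivity)
    have h6 : 1 ≤ p ^ k := one_le_pow₀ hp1
    have h7 : 0 ≤ a * p ^ k := by positivity
    rw [Real.rpow_natCast]
    linarith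
  have h8 : ∑ n ∈ J, (W n - Mn n) ^ 2 ≤ (a + 1) * C1 ^ 2 * Z := by
    calc ∑ n ∈ J, (W n - Mn n) ^ 2 ≤ ∑ _n ∈ J, (C1 * p ^ ((s : ℝ) - k - 1 / 16)) ^ 2 := by
          apply sum_le_sum
          intro n hn
          rw [← sq_abs (W n - Mn n)]
          exact pow_le_pow_left₀ (abs_nonneg _) (hmain n (hJ n hn).1 (hJ n hn).2) 2
      _ = J.card * (C1 * p ^ ((s : ℝ) - k - 1 / 16)) ^ 2 := by rw [sum_const, nsmul_eq_mul]
      _ ≤ (a + 1) * p ^ (k : ℝ) * (C1 * p ^ ((s : ℝ) - k - 1 / 16)) ^ 2 :=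
          mul_le_mul_of_nonneg_right hcard (by positivity)
      _ = (a + 1) * C1 ^ 2 * (p ^ (k : ℝ) * p ^ ((s : ℝ) - k - 1 / 16) * p ^ ((s : ℝ) - k - 1 / 16)) := by ring
      _ ≤ _ := by
          apply mul_le_mul_of_nonneg_left _ (by positivity)
          simp only [hmul]
          exact hle _ _ (by linarith)
  calc ∑ n ∈ J, (R n - Mn n) ^ 2 ≤ ∑ n ∈ J, (2 * (R n - W n) ^ 2 + 2 * (W n - Mn n) ^ 2) := by
        apply sum_le_sum
        intro n _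
        nlinarith [sq_nonneg ((R n - W n) - (W n - Mn n))]
    _ = 2 * ∑ n ∈ J, (R n - W n) ^ 2 + 2 * ∑ n ∈ J, (W n - Mn n) ^ 2 := by
        rw [sum_add_distrib, mul_sum, mul_sum]
    _ ≤ 2 * ((4 + 32 * Real.pi ^ 2) * Z) + 2 * ((a + 1) * C1 ^ 2 * Z) := by linarith
    _ = _ := by ring

theorem sum_biU (I : Finset ℕ) (b : ℕ → Finset ℕ) (f : ℕ → ℝ) (hf : ∀ n, 0 ≤ f n) :
    ∑ n ∈ I.biUnion b, f n ≤ ∑ μ ∈ I, ∑ n ∈ b μ, f n := by
  classical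
  induction I using Finset.induction_on with
  | empty => simp
  | insert c s hc ih =>
    rw [biUnion_insert, sum_insert hc]
    have h1 := sum_union_inter (s₁ := b c) (s₂ := s.biUnion b) (f := f)
    have h2 : 0 ≤ ∑ n ∈ b c ∩ s.biUnion b, f n := sum_nonneg fun n _ => hf n
    linarith

/-- **The asymptotic formula in mean square.** -/
theorem ms_asym (d : ℕ) (hd : 1 ≤ d) (a : ℝ) (ha : 0 < a) : ∃ τ : ℝ, 0 < τ ∧ ∀ᵐ θ : Fin d → ℝ, ∀ s : ℕ,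
    d + 2 ≤ s → ∀ᶠ X : ℕ in Filter.atTop,
      ∑ n ∈ Icc 1 X, ((rz s d a θ n : ℝ) - SB d s a * (n : ℝ) ^ ((s : ℝ) / ((d + 1 : ℕ) : ℝ) - 1)) ^ 2 ≤
        (X : ℝ) ^ (2 * (s : ℝ) / ((d + 1 : ℕ) : ℝ) - 1 - τ) := by
  obtain ⟨κ, hκ0, hκ1, hminor⟩ := minor_ae d hd a ha
  set k : ℕ := d + 1 with hk
  have hk2 : (2 : ℝ) ≤ k := by
    have : 2 ≤ k := by omega
    exact_mod_cast this
  have hk0 : (0 : ℝ) < k := by linarith
  refine ⟨κ / (2 * k), by positivity, ?_⟩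
  have hae := ae_par d (fun θ => ∀ s : ℕ, 2 * k + 1 ≤ s → ∀ᶠ ν : ℕ in Filter.atTop,
    Ym s d a (2 ^ ν) (((2 ^ ν : ℕ) : ℝ) ^ ((1 : ℝ) / 4 - (k : ℝ))) θ ≤
        ENNReal.ofReal (((2 ^ ν : ℕ) : ℝ) ^ ((s : ℝ) - (k : ℝ) - κ))) hminor
  filter_upwards [hae] with θ hθ s hs
  obtain ⟨C0, hC0, hsc⟩ := ms_scale s d a ha θ (by omega) κ hκ0 hκ1
  have hmin := hθ (2 * s) (by omega)
  obtain ⟨ν1, hν1⟩ := Filter.eventually_atTop.1 (hmin.and hsc)
  obtain ⟨n0, hn0⟩ := Filter.eventually_atTop.1 (rz_eq s d (by omega) a ha θ)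
  set E : ℝ := 2 * (s : ℝ) - k - κ with hE
  have hsk : (k : ℝ) + 1 ≤ s := by exact_mod_cast hs
  have hE0 : 0 < E := by linarith
  set c5 : ℝ := 2 * (2 / a) ^ ((k : ℝ)⁻¹) with hc5
  have hc50 : 0 < c5 := by positivity
  set N0 : ℕ := max n0 ⌈a * (2 ^ ν1) ^ k⌉₊ with hN0
  set Δ : ℕ → ℝ := fun n => ((rz s d a θ n : ℝ) - SB d s a * (n : ℝ) ^ ((s : ℝ) / (k : ℝ) - 1)) ^ 2 with hΔ
  have hΔ0 : ∀ n, 0 ≤ Δ n := fun n => sq_nonneg _
  set A : ℝ := ∑ n ∈ range N0, Δ n with hA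
  have hA0 : 0 ≤ A := sum_nonneg fun n _ => hΔ0 n
  obtain ⟨Cn, hCn, hnu⟩ := nu_q 1 (κ / 4) (by positivity)
  set C : ℝ := A + 2 * Cn * C0 * (2 * c5) ^ E * c5 ^ (κ / 4) with hC
  have hCp : 0 < C := by positivity
  have hev1 : ∀ᶠ X : ℕ in Filter.atTop, a * (2 ^ ν1) ^ k ≤ (X : ℝ) := tendsto_natCast_atTop_atTop.eventually_ge_atTop _
  have hev2 : ∀ᶠ X : ℕ in Filter.atTop, (X : ℝ) ^ (-(κ / (4 * k))) ≤ 1 / C :=
    ((tendsto_rpow_neg_atTop (by positivity : (0 : ℝ) < κ / (4 * k))).comp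
      tendsto_natCast_atTop_atTop).eventually_le_const (by positivity)
  filter_upwards [hev1, hev2, Filter.eventually_ge_atTop 1] with X hX1 hX2 hX3
  have hXr : (1 : ℝ) ≤ X := by exact_mod_cast hX3
  have hX0 : (0 : ℝ) < X := by linarith
  obtain ⟨ν, hν, hs1, hs2⟩ := scale2 k (by omega) a ha ν1 X (by linarith)
  set p : ℝ := ((2 ^ ν : ℕ) : ℝ) with hp
  have hp0 : 0 < p := by positivity
  have hpn : p ≤ c5 * (X : ℝ) ^ ((k : ℝ)⁻¹) := by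
    have h1 : (p / 2) ^ k ≤ 2 * X / a := by
      rw [le_div_iff₀ ha, mul_comm]
      exact hs1
    have h2 := Real.rpow_le_rpow (by positivity) h1 (by positivity : (0 : ℝ) ≤ (k : ℝ)⁻¹)
    rw [Real.pow_rpow_inv_natCast (by positivity) (by omega)] at h2
    have h3 : 2 * (X : ℝ) / a = 2 / a * X := by ring
    rw [h3, Real.mul_rpow (by positivity) hX0.le] at h2
    rw [hc5]
    linarith
  set band : ℕ → Finset ℕ := fun μ => (Icc N0 X).filter fun n : ℕ =>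
    a * (((2 ^ μ : ℕ) : ℝ) / 2) ^ k ≤ 2 * n ∧ 2 * (n : ℝ) ≤ a * ((2 ^ μ : ℕ) : ℝ) ^ k with hband
  have hcover : Icc N0 X ⊆ (Icc ν1 (ν + 1)).biUnion band := by
    intro n hn
    rw [mem_Icc] at hn
    have h1 : a * (2 ^ ν1) ^ k ≤ (n : ℝ) := by
      refine (Nat.le_ceil _).trans ?_
      exact_mod_cast (le_max_right _ _).trans hn.1
    obtain ⟨μ, hμ, hm1, hm2⟩ := scale2 k (by omega) a ha ν1 n (by
      have : (0 : ℝ) ≤ n := Nat.cast_nonneg n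
      linarith)
    rw [mem_biUnion]
    refine ⟨μ, ?_, ?_⟩
    · rw [mem_Icc]
      refine ⟨hμ, ?_⟩
      by_contra hcon
      push Not at hcon
      have h2 : a * (((2 ^ μ : ℕ) : ℝ) / 2) ^ k ≤ a * p ^ k := by
        have : (n : ℝ) ≤ X := by exact_mod_cast hn.2
        linarith
      have h3 := le_of_pow_le_pow_left₀ (by omega : k ≠ 0) hp0.le (le_of_mul_le_mul_left h2 ha)
      have h4 : ((2 ^ (ν + 2) : ℕ) : ℝ) ≤ ((2 ^ μ : ℕ) : ℝ) := by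
        exact_mod_cast Nat.pow_le_pow_right (by norm_num) (by omega : ν + 2 ≤ μ)
      have h5 : ((2 ^ (ν + 2) : ℕ) : ℝ) = 4 * p := by
        rw [hp]
        push_cast
        ring
      linarith
    · rw [hband, mem_filter, mem_Icc]
      exact ⟨hn, hm1, hm2⟩
  have hbandle : ∀ μ ∈ Icc ν1 (ν + 1), ∑ n ∈ band μ, Δ n ≤ C0 * (2 * p) ^ E := by
    intro μ hμ
    rw [mem_Icc] at hμ
    obtain ⟨hY, hS⟩ := hν1 μ hμ.1
    have h1 : ∑ n ∈ band μ, Δ n = ∑ n ∈ band μ, ((((fbx s (2 ^ μ)).filter fun x => zz s d a θ x = (n : ℤ)).card : ℝ) -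
          SB d s a * (n : ℝ) ^ ((s : ℝ) / (k : ℝ) - 1)) ^ 2 := by
      apply sum_congr rfl
      intro n hn
      rw [hband, mem_filter, mem_Icc] at hn
      rw [hΔ]
      simp only
      rw [hn0 n ((le_max_left _ _).trans hn.1.1) (2 ^ μ) hn.2.2]
    rw [h1]
    have hY' : Ym (2 * s) d a (2 ^ μ) (((2 ^ μ : ℕ) : ℝ) ^ ((1 : ℝ) / 4 - (k : ℝ))) θ ≤
        ENNReal.ofReal (((2 ^ μ : ℕ) : ℝ) ^ (2 * (s : ℝ) - (k : ℝ) - κ)) := by
      have e1 : ((2 * s : ℕ) : ℝ) = 2 * (s : ℝ) := by push_cast; ring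
      rw [e1] at hY
      exact hY
    refine (hS (band μ) (fun n hn => by
      rw [hband, mem_filter] at hn
      exact hn.2) hY').trans ?_
    apply mul_le_mul_of_nonneg_left _ hC0.le
    apply Real.rpow_le_rpow (Nat.cast_nonneg _) _ hE0.le
    have h4 : ((2 ^ μ : ℕ) : ℝ) ≤ ((2 ^ (ν + 1) : ℕ) : ℝ) := by
      exact_mod_cast Nat.pow_le_pow_right (by norm_num) hμ.2
    have h5 : ((2 ^ (ν + 1) : ℕ) : ℝ) = 2 * p := by
      rw [hp]
      push_cast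
      ring
    linarith
  have hbig : ∑ n ∈ Icc N0 X, Δ n ≤ (ν + 2) * (C0 * (2 * p) ^ E) := by
    calc ∑ n ∈ Icc N0 X, Δ n ≤ ∑ n ∈ (Icc ν1 (ν + 1)).biUnion band, Δ n :=
          sum_le_sum_of_subset_of_nonneg hcover fun n _ _ => hΔ0 n
      _ ≤ ∑ μ ∈ Icc ν1 (ν + 1), ∑ n ∈ band μ, Δ n := sum_biU _ _ _ hΔ0
      _ ≤ ∑ _μ ∈ Icc ν1 (ν + 1), C0 * (2 * p) ^ E := sum_le_sum hbandle
      _ ≤ _ := by
          rw [sum_const, nsmul_eq_mul, Nat.card_Icc]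
          apply mul_le_mul_of_nonneg_right _ (by positivity)
          have : ν + 1 + 1 - ν1 ≤ ν + 2 := by omega
          exact_mod_cast this
  have hall : ∑ n ∈ Icc 1 X, Δ n ≤ A + (ν + 2) * (C0 * (2 * p) ^ E) := by
    calc ∑ n ∈ Icc 1 X, Δ n ≤ ∑ n ∈ range N0 ∪ Icc N0 X, Δ n := by
          apply sum_le_sum_of_subset_of_nonneg
          · intro n hn
            rw [mem_Icc] at hn
            rw [mem_union, mem_range, mem_Icc]
            omega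
          · intro n _ _
            exact hΔ0 n
      _ ≤ ∑ n ∈ range N0, Δ n + ∑ n ∈ Icc N0 X, Δ n := by
          have h1 := sum_union_inter (s₁ := range N0) (s₂ := Icc N0 X) (f := Δ)
          have h2 : 0 ≤ ∑ n ∈ range N0 ∩ Icc N0 X, Δ n := sum_nonneg fun n _ => hΔ0 n
          linarith
      _ ≤ _ := by linarith
  have hν2 : (ν : ℝ) + 2 ≤ 2 * (Cn * p ^ (κ / 4)) := by
    have h1 := hnu ν
    rw [pow_one] at h1
    have h2 : (0 : ℝ) ≤ ν := Nat.cast_nonneg ν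
    linarith
  have h5 : p ^ (κ / 4) ≤ c5 ^ (κ / 4) * (X : ℝ) ^ (κ / (4 * k)) := by
    calc p ^ (κ / 4) ≤ (c5 * (X : ℝ) ^ ((k : ℝ)⁻¹)) ^ (κ / 4) := Real.rpow_le_rpow hp0.le hpn (by positivity)
      _ = _ := by
          rw [Real.mul_rpow hc50.le (by positivity), ← Real.rpow_mul hX0.le]
          congr 2
          field_simp
  have h6 : (2 * p) ^ E ≤ (2 * c5) ^ E * (X : ℝ) ^ (E / k) := by
    calc (2 * p) ^ E ≤ (2 * c5 * (X : ℝ) ^ ((k : ℝ)⁻¹)) ^ E := by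
          apply Real.rpow_le_rpow (by positivity) _ hE0.le
          linarith
      _ = _ := by
          rw [Real.mul_rpow (by positivity) (by positivity), ← Real.rpow_mul hX0.le]
          congr 2
          field_simp
  have h7 : (1 : ℝ) ≤ (X : ℝ) ^ (κ / (4 * k) + E / k) := Real.one_le_rpow hXr (by positivity)
  calc ∑ n ∈ Icc 1 X, Δ n ≤ A + (ν + 2) * (C0 * (2 * p) ^ E) := hall
    _ ≤ A * (X : ℝ) ^ (κ / (4 * k) + E / k) + (2 * (Cn * (c5 ^ (κ / 4) * (X : ℝ) ^ (κ / (4 * k))))) *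
          (C0 * ((2 * c5) ^ E * (X : ℝ) ^ (E / k))) := by
        apply add_le_add
        · exact le_mul_of_one_le_right hA0 h7
        · apply mul_le_mul _ _ (by positivity) (by positivity)
          · refine hν2.trans ?_
            apply mul_le_mul_of_nonneg_left _ (by norm_num)
            exact mul_le_mul_of_nonneg_left h5 hCn.le
          · exact mul_le_mul_of_nonneg_left h6 hC0.le
    _ = C * (X : ℝ) ^ (κ / (4 * k) + E / k) := by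
        rw [hC, Real.rpow_add hX0]
        ring
    _ = C * (X : ℝ) ^ (-(κ / (4 * k))) * (X : ℝ) ^ (2 * (s : ℝ) / k - 1 - κ / (2 * k)) := by
        rw [mul_assoc C, ← Real.rpow_add hX0, hE]
        congr 2
        field_simp
        ring
    _ ≤ C * (1 / C) * (X : ℝ) ^ (2 * (s : ℝ) / k - 1 - κ / (2 * k)) := by
        apply mul_le_mul_of_nonneg_right _ (by positivity)
        exact mul_le_mul_of_nonneg_left hX2 hCp.le
    _ = _ := by rw [mul_one_div_cancel hCp.ne', one_mul]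

end Pool.Agent.U914.WP
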