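import Mathlib
import Pool.Agent.U914.WP.HC
import Pool.Agent.U914.WP.GL

/-! Almost all polynomials in Waring's problem: any finite family of integers plus one value of the polynomial. -/

set_option autoImplicit false

open Finset MeasureTheory Complex
open Pool.Agent.U518.WS (ee norm_ee ee_add ee_sub ee_sum ee_neg ee_zero continuous_ee m1 ms meas_T)

namespace Pool.Agent.U914.WP

/-- the exponential sum of a finite family of integers -/
noncomputable def FW {ι : Type*} (W : Finset ι) (w : ι → ℤ) (α : ℝ) : ℂ := ∑ b ∈ W, ee (α * (w b : ℝ))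

theorem FW_cont {ι : Type*} (W : Finset ι) (w : ι → ℤ) : Continuous (FW W w) := by
  unfold FW
  apply continuous_finsetSum
  intro x _
  exact continuous_ee.comp (by fun_prop)

theorem FW_le {ι : Type*} (W : Finset ι) (w : ι → ℤ) (α : ℝ) : ‖FW W w α‖ ≤ W.card := by
  unfold FW
  refine (norm_sum_le _ _).trans ?_
  simp [norm_ee]

theorem FW_mul {ι κ : Type*} (W : Finset ι) (w : ι → ℤ) (V : Finset κ) (v : κ → ℤ) (α : ℝ) :
    FW W w α * FW V v α = ∑ p ∈ W ×ˢ V, ee (α * ((w p.1 + v p.2 : ℤ) : ℝ)) := by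
  unfold FW
  rw [sum_mul_sum, sum_product]
  apply sum_congr rfl
  intro x _
  apply sum_congr rfl
  intro y _
  rw [← ee_add]
  congr 1
  push_cast
  ring

theorem FW_prod {t : ℕ} (B : Fin t → Finset ℕ) (g : Fin t → ℕ → ℤ) (α : ℝ) :
    ∏ i, FW (B i) (g i) α = FW (Fintype.piFinset B) (fun b => ∑ i, g i (b i)) α := by
  unfold FW
  rw [Finset.prod_univ_sum]
  apply sum_congr rfl
  intro x _
  push_cast
  rw [mul_sum, ee_sum]

/-- **Monotonicity of even moments.** -/
theorem FW_mono (k : ℕ) (g : ℕ → ℤ) (B B' : Finset ℕ) (hB : B ⊆ B') :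
    ∫⁻ α in Set.Icc (-(1 / 2) : ℝ) (1 / 2), ENNReal.ofReal (‖FW B g α‖ ^ (2 * k)) ≤
      ∫⁻ α in Set.Icc (-(1 / 2) : ℝ) (1 / 2), ENNReal.ofReal (‖FW B' g α‖ ^ (2 * k)) := by
  have e1 : ∀ (B : Finset ℕ) (α : ℝ), ‖FW B g α‖ ^ (2 * k) =
      ‖∑ x ∈ Fintype.piFinset fun _ : Fin k => B, ee (α * ((∑ i, g (x i) : ℤ) : ℝ))‖ ^ 2 := by
    intro B α
    have h1 := FW_prod (fun _ : Fin k => B) (fun _ => g) α
    rw [prod_const, card_univ, Fintype.card_fin] at h1
    have h2 : ‖FW B g α‖ ^ (2 * k) = ‖FW B g α ^ k‖ ^ 2 := by rw [norm_pow, ← pow_mul, mul_comm]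
    rw [h2, h1]
    rfl
  simp only [e1]
  rw [pars, pars]
  apply ENNReal.ofReal_le_ofReal
  have h2 : (Fintype.piFinset fun _ : Fin k => B) ⊆ Fintype.piFinset fun _ : Fin k => B' :=
    Fintype.piFinset_subset _ _ fun _ => hB
  have h := card_le_card (filter_subset_filter
    (fun p : (Fin k → ℕ) × (Fin k → ℕ) => ∑ i, g (p.1 i) = ∑ i, g (p.2 i)) (product_subset_product h2 h2))
  exact_mod_cast h

/-- the bound over the arcs -/
theorem minorU {ι : Type*} (V : Finset ι) (v : ι → ℤ) (T A X : ℝ) (hX : 0 ≤ X) (Φ : ℝ → ENNReal) (hΦm : Measurable Φ)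
    (hΦ : ∀ α : ℝ, T ≤ |α| → |α| ≤ 1 / 2 → ENNReal.ofReal ‖FW V v α‖ ≤ ENNReal.ofReal A + Φ α)
    (hΦi : ∫⁻ α, Φ α ≤ ENNReal.ofReal X) (U : ℝ → ℝ) (hU : Continuous U) (hU0 : ∀ α, 0 ≤ U α) (Ub : ℝ)
    (hUb : ∀ α, U α ≤ Ub) (K : ℝ) (hA : 0 ≤ A)
    (hK : ∫⁻ α in Set.Icc (-(1 / 2) : ℝ) (1 / 2), ENNReal.ofReal (U α) ≤ ENNReal.ofReal K) (hK0 : 0 ≤ K) :
    ∫⁻ α in {α : ℝ | T ≤ |α|} ∩ Set.Icc (-(1 / 2) : ℝ) (1 / 2), ENNReal.ofReal (U α * ‖FW V v α‖) ≤
      ENNReal.ofReal (A * K + Ub * X) := by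
  set I0 : Set ℝ := Set.Icc (-(1 / 2) : ℝ) (1 / 2) with hI0
  have hUb0 : 0 ≤ Ub := (hU0 0).trans (hUb 0)
  have hUm : Measurable fun α => ENNReal.ofReal (U α) := (ENNReal.continuous_ofReal.comp hU).measurable
  have hpt : ∀ α ∈ {α : ℝ | T ≤ |α|} ∩ I0, ENNReal.ofReal (U α * ‖FW V v α‖) ≤
      ENNReal.ofReal A * I0.indicator (fun α => ENNReal.ofReal (U α)) α + ENNReal.ofReal Ub * Φ α := by
    intro α hα
    have hα2 : |α| ≤ 1 / 2 := abs_le.2 ⟨by linarith [hα.2.1], hα.2.2⟩
    rw [ENNReal.ofReal_mul (hU0 α)]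
    calc ENNReal.ofReal (U α) * ENNReal.ofReal ‖FW V v α‖ ≤ ENNReal.ofReal (U α) * (ENNReal.ofReal A + Φ α) :=
          mul_le_mul_right (hΦ α hα.1 hα2) _
      _ = ENNReal.ofReal A * ENNReal.ofReal (U α) + ENNReal.ofReal (U α) * Φ α := by rw [mul_add, mul_comm]
      _ ≤ _ := by
          apply add_le_add
          · rw [Set.indicator_of_mem hα.2]
          · exact mul_le_mul_left (ENNReal.ofReal_le_ofReal (hUb α)) _
  calc _ ≤ ∫⁻ α in {α : ℝ | T ≤ |α|} ∩ I0,
        (ENNReal.ofReal A * I0.indicator (fun α => ENNReal.ofReal (U α)) α + ENNReal.ofReal Ub * Φ α) :=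
        setLIntegral_mono' ((meas_T T).inter measurableSet_Icc) hpt
    _ ≤ ∫⁻ α, (ENNReal.ofReal A * I0.indicator (fun α => ENNReal.ofReal (U α)) α + ENNReal.ofReal Ub * Φ α) :=
        setLIntegral_le_lintegral _ _
    _ = ENNReal.ofReal A * (∫⁻ α in I0, ENNReal.ofReal (U α)) + ENNReal.ofReal Ub * ∫⁻ α, Φ α := by
        rw [lintegral_add_left ((hUm.indicator measurableSet_Icc).const_mul _),
          lintegral_const_mul _ (hUm.indicator measurableSet_Icc), lintegral_const_mul _ hΦm,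
          lintegral_indicator measurableSet_Icc]
    _ ≤ ENNReal.ofReal A * ENNReal.ofReal K + ENNReal.ofReal Ub * ENNReal.ofReal X :=
        add_le_add (mul_le_mul_right hK _) (mul_le_mul_right hΦi _)
    _ = _ := by
        rw [← ENNReal.ofReal_mul hA, ← ENNReal.ofReal_mul hUb0, ← ENNReal.ofReal_add (by positivity) (by positivity)]

/-- **Local constancy of Fourier coefficients.** -/
theorem fc_local (G : ℝ → ℂ) (hG : Continuous G) (Gb T Bd H : ℝ) (hGb : ∀ α, ‖G α‖ ≤ Gb) (hT : 0 < T) (hB0 : 0 ≤ Bd)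
    (hY : ∫⁻ α in {α : ℝ | T ≤ |α|} ∩ Set.Icc (-(1 / 2) : ℝ) (1 / 2), ENNReal.ofReal ‖G α‖ ≤ ENNReal.ofReal Bd)
    (n n' : ℤ) (h : |(n' : ℝ) - n| ≤ H) :
    ‖fc G n' - fc G n‖ ≤ 2 * Bd + Gb * (2 * Real.pi * T * H) * (2 * T) := by
  have hpi := Real.pi_pos
  have hH : 0 ≤ H := (abs_nonneg _).trans h
  have hGb0 : 0 ≤ Gb := (norm_nonneg _).trans (hGb 0)
  set I0 : Set ℝ := Set.Icc (-(1 / 2) : ℝ) (1 / 2) with hI0
  have hint : ∀ n : ℤ, IntegrableOn (fun α : ℝ => ee (-(α * n)) * G α) I0 := by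
    intro n
    apply ContinuousOn.integrableOn_Icc
    apply Continuous.continuousOn
    exact (continuous_ee.comp (by fun_prop)).mul hG
  have hdiff : fc G n' - fc G n = ∫ α in I0, (ee (-(α * n')) - ee (-(α * n))) * G α := by
    unfold fc
    rw [← integral_sub (hint n') (hint n)]
    apply integral_congr_ae
    exact Filter.Eventually.of_forall fun α => by simp only; ring
  have hfin : ENNReal.ofReal ‖fc G n' - fc G n‖ ≤
      ENNReal.ofReal (2 * Bd + Gb * (2 * Real.pi * T * H) * (2 * T)) := by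
    rw [ofReal_norm, hdiff]
    refine (enorm_integral_le_lintegral_enorm _).trans ?_
    have hpt : ∀ α ∈ I0, ‖(ee (-(α * n')) - ee (-(α * n))) * G α‖ₑ ≤
        ENNReal.ofReal 2 * ({α : ℝ | T ≤ |α|} ∩ I0).indicator (fun α => ENNReal.ofReal ‖G α‖) α +
        (Set.Icc (-T) T).indicator (fun _ => ENNReal.ofReal (Gb * (2 * Real.pi * T * H))) α := by
      intro α hα
      rw [← ofReal_norm, norm_mul]
      rcases le_or_gt T |α| with hc | hc
      · have hmem : α ∈ {α : ℝ | T ≤ |α|} ∩ I0 := ⟨hc, hα⟩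
        rw [Set.indicator_of_mem hmem]
        refine le_trans ?_ le_self_add
        rw [← ENNReal.ofReal_mul (by norm_num)]
        apply ENNReal.ofReal_le_ofReal
        apply mul_le_mul_of_nonneg_right _ (norm_nonneg _)
        refine (norm_sub_le _ _).trans ?_
        rw [norm_ee, norm_ee]
        norm_num
      · have hmem : α ∈ Set.Icc (-T) T := abs_le.1 hc.le
        rw [Set.indicator_of_mem hmem]
        refine le_trans ?_ le_add_self
        apply ENNReal.ofReal_le_ofReal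
        rw [mul_comm]
        apply mul_le_mul (hGb α) _ (norm_nonneg _) hGb0
        refine (ee_diff _ _).trans ?_
        have e1 : -(α * n') - -(α * n) = -(α * ((n' : ℝ) - n)) := by ring
        rw [e1, abs_neg, abs_mul, mul_assoc (2 * Real.pi)]
        exact mul_le_mul_of_nonneg_left (mul_le_mul hc.le h (abs_nonneg _) hT.le) (by positivity)
    refine (setLIntegral_mono' measurableSet_Icc hpt).trans ?_
    refine (setLIntegral_le_lintegral _ _).trans ?_
    have hm1 : Measurable (({α : ℝ | T ≤ |α|} ∩ I0).indicator (fun α => ENNReal.ofReal ‖G α‖)) :=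
      Measurable.indicator (ENNReal.continuous_ofReal.comp hG.norm).measurable ((meas_T T).inter measurableSet_Icc)
    rw [lintegral_add_left (hm1.const_mul _), lintegral_const_mul _ hm1,
      lintegral_indicator ((meas_T T).inter measurableSet_Icc), lintegral_indicator_const measurableSet_Icc,
      Real.volume_Icc, ← ENNReal.ofReal_mul (by positivity)]
    calc _ ≤ ENNReal.ofReal 2 * ENNReal.ofReal Bd +
          ENNReal.ofReal (Gb * (2 * Real.pi * T * H) * (T - -T)) := by
          apply add_le_add _ le_rfl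
          exact mul_le_mul_right hY _
      _ = _ := by
          have hTT : T - -T = 2 * T := by ring
          rw [hTT, ← ENNReal.ofReal_mul (by norm_num), ← ENNReal.ofReal_add (by positivity) (by positivity)]
  exact (ENNReal.ofReal_le_ofReal_iff (by positivity)).1 hfin

/-- **The deviation from the window average, in mean square.** -/
theorem fc_dev (G : ℝ → ℂ) (hG : Continuous G) (Gb T Bd : ℝ) (hGb : ∀ α, ‖G α‖ ≤ Gb) (hT : 0 < T) (hB0 : 0 ≤ Bd)
    (hY : ∫⁻ α in {α : ℝ | T ≤ |α|} ∩ Set.Icc (-(1 / 2) : ℝ) (1 / 2), ENNReal.ofReal (‖G α‖ ^ 2) ≤ ENNReal.ofReal Bd)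
    (h : ℕ) (hh : 1 ≤ h) (J : Finset ℤ) :
    ∑ n ∈ J, ‖fc G n - (1 / (h : ℂ)) * ∑ j ∈ range h, fc G (n + j)‖ ^ 2 ≤
      4 * Bd + Gb ^ 2 * (2 * Real.pi * T * h) ^ 2 * (2 * T) := by
  have hpi := Real.pi_pos
  have hh0 : (0 : ℝ) < h := by exact_mod_cast hh
  set I0 : Set ℝ := Set.Icc (-(1 / 2) : ℝ) (1 / 2) with hI0
  set G2 : ℝ → ℂ := fun α => G α * (1 - Dw h α) with hG2
  have hGc : Continuous G2 := hG.mul (continuous_const.sub (Dw_cont h))
  have hci : ∀ n : ℤ, Continuous fun α : ℝ => ee (-(α * n)) * G α := fun n =>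
    (continuous_ee.comp (by fun_prop)).mul hG
  have hfc : ∀ n : ℤ, fc G2 n = fc G n - (1 / (h : ℂ)) * ∑ j ∈ range h, fc G (n + j) := by
    intro n
    unfold fc
    have e1 : ∀ α : ℝ, ee (-(α * n)) * G2 α = ee (-(α * n)) * G α -
        ∑ j ∈ range h, (1 / (h : ℂ)) * (ee (-(α * ((n + j : ℤ) : ℝ))) * G α) := by
      intro α
      rw [hG2]
      simp only
      unfold Dw
      have e2 : ∀ j : ℕ, ee (-(α * ((n + j : ℤ) : ℝ))) = ee (-(α * n)) * ee (-(α * j)) := by
        intro j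
        rw [← ee_add]
        congr 1
        push_cast
        ring
      simp only [e2]
      rw [← mul_sum]
      have e3 : ∑ i ∈ range h, ee (-(α * n)) * ee (-(α * i)) * G α =
          ee (-(α * n)) * G α * ∑ i ∈ range h, ee (-(α * i)) := by
        rw [mul_sum]
        apply sum_congr rfl
        intro i _
        ring
      rw [e3]
      ring
    have hi1 : Integrable (fun α : ℝ => ee (-(α * n)) * G α) (volume.restrict I0) :=
      (hci n).continuousOn.integrableOn_Icc
    have hi2 : ∀ j ∈ range h, Integrable (fun α : ℝ => (1 / (h : ℂ)) * (ee (-(α * ((n + j : ℤ) : ℝ))) * G α))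
        (volume.restrict I0) := fun j _ => (continuous_const.mul (hci (n + j))).continuousOn.integrableOn_Icc
    have e6 : ∫ α in I0, ee (-(α * n)) * G2 α = (∫ α in I0, ee (-(α * n)) * G α) -
        ∑ j ∈ range h, ∫ α in I0, (1 / (h : ℂ)) * (ee (-(α * ((n + j : ℤ) : ℝ))) * G α) := by
      rw [← integral_finsetSum _ hi2, ← integral_sub hi1 (integrable_finsetSum _ hi2)]
      exact integral_congr_ae (Filter.Eventually.of_forall e1)
    rw [e6]
    congr 1
    rw [mul_sum]
    apply sum_congr rfl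
    intro j _
    rw [integral_const_mul]
  have hb := bessel J G2 hGc
  simp only [hfc] at hb
  refine hb.trans ?_
  have hfin : ENNReal.ofReal (∫ α in I0, ‖G2 α‖ ^ 2) ≤
      ENNReal.ofReal (4 * Bd + Gb ^ 2 * (2 * Real.pi * T * h) ^ 2 * (2 * T)) := by
    have hi3 : Integrable (fun α : ℝ => ‖G2 α‖ ^ 2) (volume.restrict I0) :=
      (hGc.norm.pow 2).continuousOn.integrableOn_Icc
    rw [ofReal_integral_eq_lintegral_ofReal hi3 (Filter.Eventually.of_forall fun α => by positivity)]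
    have hpt : ∀ α ∈ I0, ENNReal.ofReal (‖G2 α‖ ^ 2) ≤
        ENNReal.ofReal 4 * ({α : ℝ | T ≤ |α|} ∩ I0).indicator (fun α => ENNReal.ofReal (‖G α‖ ^ 2)) α +
        (Set.Icc (-T) T).indicator (fun _ => ENNReal.ofReal (Gb ^ 2 * (2 * Real.pi * T * h) ^ 2)) α := by
      intro α hα
      have hGn : ‖G2 α‖ ^ 2 = ‖G α‖ ^ 2 * ‖1 - Dw h α‖ ^ 2 := by
        rw [hG2]
        simp only
        rw [norm_mul, mul_pow]
      rw [hGn]
      obtain ⟨hD1, hD2⟩ := Dw_le h hh α
      rcases le_or_gt T |α| with hc | hc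
      · have hmem : α ∈ {α : ℝ | T ≤ |α|} ∩ I0 := ⟨hc, hα⟩
        rw [Set.indicator_of_mem hmem]
        refine le_trans ?_ le_self_add
        rw [← ENNReal.ofReal_mul (by norm_num)]
        apply ENNReal.ofReal_le_ofReal
        rw [mul_comm]
        apply mul_le_mul_of_nonneg_right _ (by positivity)
        calc ‖1 - Dw h α‖ ^ 2 ≤ 2 ^ 2 := pow_le_pow_left₀ (norm_nonneg _) hD1 2
          _ = 4 := by norm_num
      · have hmem : α ∈ Set.Icc (-T) T := abs_le.1 hc.le
        rw [Set.indicator_of_mem hmem]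
        refine le_trans ?_ le_add_self
        apply ENNReal.ofReal_le_ofReal
        apply mul_le_mul _ _ (by positivity) (by positivity)
        · exact pow_le_pow_left₀ (norm_nonneg _) (hGb α) _
        · apply pow_le_pow_left₀ (norm_nonneg _)
          refine hD2.trans ?_
          apply mul_le_mul_of_nonneg_right _ hh0.le
          exact mul_le_mul_of_nonneg_left hc.le (by positivity)
    refine (setLIntegral_mono' measurableSet_Icc hpt).trans ?_
    refine (setLIntegral_le_lintegral _ _).trans ?_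
    have hm1 : Measurable (({α : ℝ | T ≤ |α|} ∩ I0).indicator (fun α => ENNReal.ofReal (‖G α‖ ^ 2))) :=
      Measurable.indicator (ENNReal.continuous_ofReal.comp (hG.norm.pow 2)).measurable
        ((meas_T T).inter measurableSet_Icc)
    rw [lintegral_add_left (hm1.const_mul _), lintegral_const_mul _ hm1,
      lintegral_indicator ((meas_T T).inter measurableSet_Icc), lintegral_indicator_const measurableSet_Icc,
      Real.volume_Icc, ← ENNReal.ofReal_mul (by positivity)]
    calc _ ≤ ENNReal.ofReal 4 * ENNReal.ofReal Bd +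
          ENNReal.ofReal (Gb ^ 2 * (2 * Real.pi * T * h) ^ 2 * (T - -T)) := by
          apply add_le_add _ le_rfl
          exact mul_le_mul_right hY _
      _ = _ := by
          have hTT : T - -T = 2 * T := by ring
          rw [hTT, ← ENNReal.ofReal_mul (by norm_num), ← ENNReal.ofReal_add (by positivity) (by positivity)]
  exact (ENNReal.ofReal_le_ofReal_iff (by positivity)).1 hfin

end Pool.Agent.U914.WP
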