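import Mathlib
import Pool.Agent.U914.WP.KA

/-! Almost all polynomials in Waring's problem: domination on the minor arcs for almost all polynomials. -/

set_option autoImplicit false

open Finset MeasureTheory Complex
open Pool.Agent.U518.WS (ee norm_ee ee_add ee_sub ee_sum ee_neg ee_zero continuous_ee m1 ms gg gg_nonneg meas_T)

namespace Pool.Agent.U914.WP

/-- domination on the minor arcs -/
def Dom (k : ℕ) (g : ℕ → ℤ) (δ : ℝ) : Prop := ∀ᶠ ν : ℕ in Filter.atTop, ∃ Φ : ℝ → ENNReal, Measurable Φ ∧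
  (∀ α : ℝ, ((2 ^ ν : ℕ) : ℝ) ^ ((1 : ℝ) / 4 - (k : ℝ)) ≤ |α| → |α| ≤ 1 / 2 →
    ENNReal.ofReal ‖FW (Ioc 0 (2 ^ ν)) g α‖ ≤ ENNReal.ofReal (((2 ^ ν : ℕ) : ℝ) ^ (1 - δ)) + Φ α) ∧
  ∫⁻ α, Φ α ≤ ENNReal.ofReal (((2 ^ ν : ℕ) : ℝ) ^ (1 - (k : ℝ) - δ))

/-- the mean value -/
def MVp (k : ℕ) (g : ℕ → ℤ) : Prop := ∀ ε : ℝ, 0 < ε → ∀ᶠ ν : ℕ in Filter.atTop,
  ∫⁻ α in Set.Icc (-(1 / 2) : ℝ) (1 / 2), ENNReal.ofReal (‖FW (Ioc 0 (2 ^ ν)) g α‖ ^ (2 * k)) ≤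
    ENNReal.ofReal (((2 ^ ν : ℕ) : ℝ) ^ ((k : ℝ) + ε))

/-- the size -/
def Sz (k : ℕ) (a : ℝ) (g : ℕ → ℤ) (C : ℝ) : Prop := ∀ P x : ℕ, 1 ≤ x → x ≤ P →
  |(g x : ℝ) - a * (x : ℝ) ^ k| ≤ C * (P : ℝ) ^ (k - 1)

/-- the integer parts of the values -/
noncomputable def fl (d : ℕ) (a : ℝ) (θ : Fin d → ℝ) (n : ℕ) : ℤ := ⌊pf d a θ n⌋

theorem FW_fl (d : ℕ) (a : ℝ) (θ : Fin d → ℝ) (P : ℕ) (α : ℝ) : FW (Ioc 0 P) (fl d a θ) α = SF d a θ P α := rfl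

/-- the splitting into dyadic pieces -/
theorem SF_dom (d : ℕ) (a : ℝ) (ν I : ℕ) (hI : 2 * I ≤ ν) (θ : Fin d → ℝ) (T : ℝ)
    (w : ℕ → ℝ) (E : ℕ → Set ℝ) (hE : ∀ i, MeasurableSet (E i)) (A : ℕ → ℝ) (hA : ∀ i, 0 ≤ A i)
    (h : ∀ i < I, ∀ α : ℝ, T ≤ |α| → |α| ≤ 1 / 2 → (w i < |α| → α ∉ E i) →
      ‖SS d a θ (2 ^ (ν - 2 * (i + 1))) α‖ ≤ A i) :
    ∃ Φ : ℝ → ENNReal, Measurable Φ ∧ (∀ α : ℝ, T ≤ |α| → |α| ≤ 1 / 2 →
      ENNReal.ofReal ‖SF d a θ (2 ^ ν) α‖ ≤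
        ENNReal.ofReal (∑ i ∈ range I, A i + ((2 ^ (ν - 2 * I) : ℕ) : ℝ)) + Φ α) ∧
      ∫⁻ α, Φ α = ∑ i ∈ range I, XE d a (2 ^ (ν - 2 * (i + 1))) (E i) (w i) θ := by
  set I0 : Set ℝ := Set.Icc (-(1 / 2) : ℝ) (1 / 2) with hI0
  set E' : ℕ → Set ℝ := fun i => E i ∩ ({α : ℝ | w i ≤ |α|} ∩ I0) with hE'
  have hE'm : ∀ i, MeasurableSet (E' i) := fun i => (hE i).inter ((meas_T (w i)).inter measurableSet_Icc)
  set Sm : ℕ → ℝ → ENNReal := fun i α => ENNReal.ofReal ‖SS d a θ (2 ^ (ν - 2 * (i + 1))) α‖ with hSm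
  have hSmm : ∀ i, Measurable (Sm i) := by
    intro i
    apply ENNReal.measurable_ofReal.comp
    have h1 : Measurable fun α : ℝ => (θ, α) := measurable_const.prodMk measurable_id
    exact ((SS_meas d a _).comp h1).norm
  have hind : ∀ i, Measurable ((E' i).indicator (Sm i)) := fun i => (hSmm i).indicator (hE'm i)
  refine ⟨fun α => ∑ i ∈ range I, (E' i).indicator (Sm i) α, Finset.measurable_fun_sum _ fun i _ => hind i, ?_, ?_⟩
  · intro α hα1 hα2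
    have hα0 : α ∈ I0 := abs_le.1 hα2
    have h2 : ‖SF d a θ (2 ^ ν) α‖ ≤ ∑ i ∈ range I, ‖SS d a θ (2 ^ (ν - 2 * (i + 1))) α‖ + ((2 ^ (ν - 2 * I) : ℕ) : ℝ) := by
      rw [SF_split d a θ ν α I hI]
      refine (norm_add_le _ _).trans (add_le_add (norm_sum_le _ _) ?_)
      exact SF_norm_le d a θ _ α
    refine (ENNReal.ofReal_le_ofReal h2).trans ?_
    rw [ENNReal.ofReal_add (sum_nonneg fun i _ => norm_nonneg _) (Nat.cast_nonneg _),
      ENNReal.ofReal_sum_of_nonneg fun i _ => norm_nonneg _,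
      ENNReal.ofReal_add (sum_nonneg fun i _ => hA i) (Nat.cast_nonneg _),
      ENNReal.ofReal_sum_of_nonneg fun i _ => hA i]
    have h3 : ∑ i ∈ range I, ENNReal.ofReal ‖SS d a θ (2 ^ (ν - 2 * (i + 1))) α‖ ≤
        ∑ i ∈ range I, ENNReal.ofReal (A i) + ∑ i ∈ range I, (E' i).indicator (Sm i) α := by
      rw [← sum_add_distrib]
      apply sum_le_sum
      intro i hi
      by_cases hc : α ∈ E' i
      · rw [Set.indicator_of_mem hc]
        exact le_add_self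
      · refine le_trans ?_ le_self_add
        apply ENNReal.ofReal_le_ofReal
        apply h i (mem_range.1 hi) α hα1 hα2
        intro hw hmem
        exact hc ⟨hmem, hw.le, hα0⟩
    calc _ ≤ ∑ i ∈ range I, ENNReal.ofReal (A i) + ∑ i ∈ range I, (E' i).indicator (Sm i) α +
          ENNReal.ofReal ((2 ^ (ν - 2 * I) : ℕ) : ℝ) := add_le_add h3 le_rfl
      _ = _ := by rw [add_right_comm]
  · rw [lintegral_finsetSum _ fun i _ => hind i]
    unfold XE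
    apply sum_congr rfl
    intro i _
    rw [lintegral_indicator (hE'm i)]

/-- **Domination on the minor arcs for almost all polynomials.** -/
theorem dom_ae (d : ℕ) (hd : 1 ≤ d) (a : ℝ) (ha : 0 < a) : ∃ δ : ℝ, 0 < δ ∧ δ ≤ 1 / 1000 ∧
    ∀ᵐ θ : Fin d → ℝ, Dom (d + 1) (fl d a θ) δ := by
  obtain ⟨lam, hlam0, hlam1, E, hE, harc⟩ := arcs_ae d hd a ha
  set k : ℕ := d + 1 with hk
  have hk2 : (2 : ℝ) ≤ k := by
    have : 2 ≤ k := by omega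
    exact_mod_cast this
  obtain ⟨N, hN⟩ := exists_nat_ge (1024 * (k : ℝ) + 32 / lam)
  have h32 : 0 < 32 / lam := by positivity
  have hN0 : (0 : ℝ) < N := by linarith
  have hNk : 1024 * (k : ℝ) ≤ N := by linarith
  have hNl : 32 / lam ≤ N := by linarith
  set δ : ℝ := 2 / N with hδ
  have hδ0 : 0 < δ := by positivity
  have hδk : δ * k ≤ 1 / 512 := by
    rw [hδ, div_mul_eq_mul_div, div_le_div_iff₀ hN0 (by norm_num)]
    linarith
  have hδ1 : δ ≤ 1 / 1024 := by nlinarith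
  have hδl : δ ≤ lam / 16 := by
    rw [div_le_iff₀ hlam0] at hNl
    rw [hδ, div_le_div_iff₀ hN0 (by norm_num)]
    linarith
  refine ⟨δ / 2, by positivity, by linarith, ae_par d _ fun m => ?_⟩
  obtain ⟨Cn, hCn, hnu⟩ := nu_q 1 (δ / 4) (by positivity)
  have htend : Filter.Tendsto (fun ν : ℕ => ((2 ^ ν : ℕ) : ℝ)) Filter.atTop Filter.atTop :=
    tendsto_natCast_atTop_atTop.comp (tendsto_pow_atTop_atTop_of_one_lt (by norm_num : 1 < 2))
  have hev : ∀ᶠ ν : ℕ in Filter.atTop, (((2 ^ ν : ℕ) : ℝ)) ^ (-(δ / 4)) ≤ 1 / (34 * Cn) :=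
    ((tendsto_rpow_neg_atTop (by positivity : (0 : ℝ) < δ / 4)).comp htend).eventually_le_const (by positivity)
  filter_upwards [harc m] with t' harc
  obtain ⟨ν0, hν0⟩ := Filter.eventually_atTop.1 harc
  unfold Dom
  filter_upwards [hev, Filter.eventually_ge_atTop (2 * ν0)] with ν hev hν
  set I : ℕ := ν / N with hI
  have hN4 : 4 ≤ N := by
    have : (4 : ℝ) ≤ N := by linarith
    exact_mod_cast this
  have hI4 : I * 4 ≤ ν := by
    calc I * 4 ≤ I * N := Nat.mul_le_mul_left _ hN4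
      _ ≤ ν := Nat.div_mul_le_self ν N
  have hI2 : 2 * I ≤ ν := by omega
  set p : ℝ := ((2 ^ ν : ℕ) : ℝ) with hp
  have hp1 : 1 ≤ p := by
    rw [hp]
    exact_mod_cast Nat.one_le_two_pow
  have hp0 : 0 < p := by linarith
  have hpν : p = (2 : ℝ) ^ (ν : ℝ) := by rw [hp, Real.rpow_natCast]; push_cast; rfl
  have hIr : (I : ℝ) * N ≤ ν := by exact_mod_cast Nat.div_mul_le_self ν N
  have hIr2 : (ν : ℝ) < (I + 1) * N := by
    have := Nat.lt_div_mul_add (a := ν) (b := N) (by omega)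
    have h2 : (ν : ℝ) < (I : ℝ) * N + N := by exact_mod_cast this
    linarith
  have hδν1 : 2 * (I : ℝ) ≤ δ * ν := by
    rw [hδ, div_mul_eq_mul_div, le_div_iff₀ hN0]
    linarith
  have hδν2 : δ * ν ≤ 2 * I + 2 := by
    rw [hδ, div_mul_eq_mul_div, div_le_iff₀ hN0]
    linarith
  -- the sizes of the scales
  have hlow : ∀ i < I, p ^ (1 - δ) ≤ ((2 ^ (ν - 2 * (i + 1)) : ℕ) : ℝ) := by
    intro i hi
    rw [hpν, ← Real.rpow_mul (by norm_num)]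
    push_cast
    rw [← Real.rpow_natCast, Nat.cast_sub (by omega)]
    apply Real.rpow_le_rpow_of_exponent_le (by norm_num)
    have hi' : ((i : ℝ) + 1) ≤ I := by exact_mod_cast hi
    push_cast
    nlinarith
  have hhigh : ∀ i, ((2 ^ (ν - 2 * (i + 1)) : ℕ) : ℝ) ≤ p := by
    intro i
    rw [hp]
    exact_mod_cast Nat.pow_le_pow_right (by norm_num) (by omega)
  have hrest : ((2 ^ (ν - 2 * I) : ℕ) : ℝ) ≤ 4 * p ^ (1 - δ) := by
    have e1 : (4 : ℝ) = (2 : ℝ) ^ (2 : ℝ) := by norm_num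
    rw [hpν, ← Real.rpow_mul (by norm_num), e1, ← Real.rpow_add (by norm_num)]
    push_cast
    rw [← Real.rpow_natCast, Nat.cast_sub hI2]
    apply Real.rpow_le_rpow_of_exponent_le (by norm_num)
    push_cast
    linarith
  have hgood : ∀ i < I, ν0 ≤ ν - 2 * (i + 1) := fun i hi => by omega
  have hT : ∀ i < I, (((2 ^ (ν - 2 * (i + 1)) : ℕ) : ℝ)) ^ ((1 : ℝ) / 8 - (k : ℝ)) ≤ p ^ ((1 : ℝ) / 4 - (k : ℝ)) := by
    intro i hi
    calc (((2 ^ (ν - 2 * (i + 1)) : ℕ) : ℝ)) ^ ((1 : ℝ) / 8 - (k : ℝ)) ≤ (p ^ (1 - δ)) ^ ((1 : ℝ) / 8 - (k : ℝ)) :=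
          Real.rpow_le_rpow_of_nonpos (by positivity) (hlow i hi) (by linarith)
      _ = p ^ ((1 - δ) * ((1 : ℝ) / 8 - (k : ℝ))) := by rw [← Real.rpow_mul hp0.le]
      _ ≤ _ := Real.rpow_le_rpow_of_exponent_le hp1 (by nlinarith)
  have hAsum : ∑ i ∈ range I, 30 * (((2 ^ (ν - 2 * (i + 1)) : ℕ) : ℝ)) ^ (1 - lam / 16) + ((2 ^ (ν - 2 * I) : ℕ) : ℝ) ≤
      34 * ((ν : ℝ) + 1) * p ^ (1 - δ) := by
    have h1 : ∀ i ∈ range I, 30 * (((2 ^ (ν - 2 * (i + 1)) : ℕ) : ℝ)) ^ (1 - lam / 16) ≤ 30 * p ^ (1 - δ) := by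
      intro i _
      apply mul_le_mul_of_nonneg_left _ (by norm_num)
      calc (((2 ^ (ν - 2 * (i + 1)) : ℕ) : ℝ)) ^ (1 - lam / 16) ≤ p ^ (1 - lam / 16) :=
            Real.rpow_le_rpow (Nat.cast_nonneg _) (hhigh i) (by linarith)
        _ ≤ _ := Real.rpow_le_rpow_of_exponent_le hp1 (by linarith)
    have h2 := sum_le_sum h1
    rw [sum_const, card_range, nsmul_eq_mul] at h2
    have h3 : (I : ℝ) ≤ ν := by
      have : I ≤ ν := by omega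
      exact_mod_cast this
    have h4 : 0 < p ^ (1 - δ) := by positivity
    have h5 : (I : ℝ) * (30 * p ^ (1 - δ)) ≤ ν * (30 * p ^ (1 - δ)) := mul_le_mul_of_nonneg_right h3 (by positivity)
    have h6 : (0 : ℝ) ≤ ν := Nat.cast_nonneg ν
    nlinarith [mul_nonneg h6 h4.le]
  have hXsum : ∑ i ∈ range I, XE d a (2 ^ (ν - 2 * (i + 1))) (E (ν - 2 * (i + 1)))
      ((((2 ^ (ν - 2 * (i + 1)) : ℕ) : ℝ)) ^ (-(1 / 64 : ℝ))) (m + t') ≤
      ENNReal.ofReal (((ν : ℝ) + 1) * p ^ (1 - (k : ℝ) - 1 / 256)) := by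
    calc _ ≤ ∑ _i ∈ range I, ENNReal.ofReal (p ^ (1 - (k : ℝ) - 1 / 256)) := by
          apply sum_le_sum
          intro i hi
          rw [mem_range] at hi
          refine (hν0 _ (hgood i hi)).2.trans (ENNReal.ofReal_le_ofReal ?_)
          calc (((2 ^ (ν - 2 * (i + 1)) : ℕ) : ℝ)) ^ (1 - (k : ℝ) - 3 / 512) ≤ (p ^ (1 - δ)) ^ (1 - (k : ℝ) - 3 / 512) :=
                Real.rpow_le_rpow_of_nonpos (by positivity) (hlow i hi) (by linarith)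
            _ = p ^ ((1 - δ) * (1 - (k : ℝ) - 3 / 512)) := by rw [← Real.rpow_mul hp0.le]
            _ ≤ _ := Real.rpow_le_rpow_of_exponent_le hp1 (by nlinarith)
      _ = ENNReal.ofReal ((I : ℝ) * p ^ (1 - (k : ℝ) - 1 / 256)) := by
          rw [sum_const, card_range, nsmul_eq_mul, ENNReal.ofReal_mul (Nat.cast_nonneg _), ENNReal.ofReal_natCast]
      _ ≤ _ := by
          apply ENNReal.ofReal_le_ofReal
          apply mul_le_mul_of_nonneg_right _ (by positivity)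
          have h3 : (I : ℝ) ≤ ν := by
            have : I ≤ ν := by omega
            exact_mod_cast this
          linarith
  obtain ⟨Φ, hΦm, hΦ1, hΦ2⟩ := SF_dom d a ν I hI2 (m + t') (p ^ ((1 : ℝ) / 4 - (k : ℝ)))
    (fun i => (((2 ^ (ν - 2 * (i + 1)) : ℕ) : ℝ)) ^ (-(1 / 64 : ℝ))) (fun i => E (ν - 2 * (i + 1)))
    (fun i => hE _) (fun i => 30 * (((2 ^ (ν - 2 * (i + 1)) : ℕ) : ℝ)) ^ (1 - lam / 16)) (fun i => by positivity)
    (fun i hi α hα1 hα2 hα3 => (hν0 _ (hgood i hi)).1 α ((hT i hi).trans hα1) hα2 hα3)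
  have hnu' : (ν : ℝ) + 1 ≤ Cn * p ^ (δ / 4) := by
    have := hnu ν
    rwa [pow_one] at this
  have hmul : ∀ x y : ℝ, p ^ x * p ^ y = p ^ (x + y) := fun x y => (Real.rpow_add hp0 x y).symm
  have hone : 34 * Cn ≤ p ^ (δ / 4) := by
    have h1 : p ^ (-(δ / 4)) * p ^ (δ / 4) = 1 := by rw [hmul]; simp
    have h2 : 0 < p ^ (δ / 4) := by positivity
    have h3 := mul_le_mul_of_nonneg_right hev h2.le
    rw [h1] at h3
    calc 34 * Cn = 34 * Cn * 1 := by ring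
      _ ≤ 34 * Cn * (1 / (34 * Cn) * p ^ (δ / 4)) := mul_le_mul_of_nonneg_left h3 (by positivity)
      _ = _ := by field_simp
  have hnu2 : 34 * ((ν : ℝ) + 1) ≤ p ^ (δ / 2) := by
    calc 34 * ((ν : ℝ) + 1) ≤ 34 * (Cn * p ^ (δ / 4)) := by linarith
      _ = 34 * Cn * p ^ (δ / 4) := by ring
      _ ≤ p ^ (δ / 4) * p ^ (δ / 4) := mul_le_mul_of_nonneg_right hone (by positivity)
      _ = _ := by rw [hmul]; congr 1; ring
  refine ⟨Φ, hΦm, ?_, ?_⟩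
  · intro α hα1 hα2
    rw [FW_fl]
    refine (hΦ1 α hα1 hα2).trans (add_le_add (ENNReal.ofReal_le_ofReal ?_) le_rfl)
    refine hAsum.trans ?_
    calc 34 * ((ν : ℝ) + 1) * p ^ (1 - δ) ≤ p ^ (δ / 2) * p ^ (1 - δ) :=
          mul_le_mul_of_nonneg_right hnu2 (by positivity)
      _ = _ := by rw [hmul]; congr 1; ring
  · rw [hΦ2]
    refine hXsum.trans (ENNReal.ofReal_le_ofReal ?_)
    have hν0' : (0 : ℝ) ≤ ν := Nat.cast_nonneg ν
    calc ((ν : ℝ) + 1) * p ^ (1 - (k : ℝ) - 1 / 256) ≤ p ^ (δ / 2) * p ^ (1 - (k : ℝ) - 1 / 256) := by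
          apply mul_le_mul_of_nonneg_right _ (by positivity)
          linarith
      _ = p ^ (δ / 2 + (1 - (k : ℝ) - 1 / 256)) := hmul _ _
      _ ≤ _ := Real.rpow_le_rpow_of_exponent_le hp1 (by linarith)

theorem mv_ae (d : ℕ) (a : ℝ) (ha : 0 < a) : ∀ᵐ θ : Fin d → ℝ, MVp (d + 1) (fl d a θ) := by
  filter_upwards [KK_all d a ha] with θ h ε hε
  exact h ε hε

theorem sz_fl (d : ℕ) (a : ℝ) (θ : Fin d → ℝ) : Sz (d + 1) a (fl d a θ) (∑ j, |θ j| + 1) := by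
  intro P x hx1 hxP
  have h5 := zz_near2 1 d a θ P (hx1.trans hxP) (fun _ => x) (by
    unfold fbx
    rw [Fintype.mem_piFinset]
    exact fun _ => mem_Ioc.2 ⟨hx1, hxP⟩)
  have h6 : (zz 1 d a θ (fun _ => x) : ℝ) = (fl d a θ x : ℝ) := by
    unfold zz fl
    simp
  have h7 : ∑ _i : Fin 1, (x : ℝ) ^ (d + 1) = (x : ℝ) ^ (d + 1) := by simp
  rw [h6, h7] at h5
  rw [Nat.add_sub_cancel]
  simpa using h5

end Pool.Agent.U914.WP
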