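import Mathlib
import Pool.Agent.U914.WP.KB

/-! Almost all polynomials in Waring's problem: the asymptotic formula for any finite family of integers plus one
value of the polynomial. -/

set_option autoImplicit false

open Finset MeasureTheory Complex
open Pool.Agent.U518.WS (ee norm_ee ee_add ee_sub ee_sum ee_neg ee_zero continuous_ee m1 ms meas_T)

namespace Pool.Agent.U914.WP

theorem fc_count {ι : Type} (W : Finset ι) (w : ι → ℤ) (V : Finset ℕ) (g : ℕ → ℤ) (n : ℤ) :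
    fc (fun α => FW W w α * FW V g α) n =
      ((((W ×ˢ V).filter fun q => w q.1 + g q.2 = n).card : ℝ) : ℂ) := by
  have h1 := count_z (W ×ˢ V) (fun q : ι × ℕ => w q.1 + g q.2) n
  rw [h1]
  unfold fc
  apply setIntegral_congr_fun measurableSet_Icc
  intro α _
  simp only
  rw [FW_mul]

theorem win_sum {ι : Type*} (V : Finset ι) (z : ι → ℤ) (n : ℤ) (h : ℕ) :
    ((V.filter fun x => n ≤ z x ∧ z x < n + h).card : ℝ) =
      ∑ j ∈ range h, ((V.filter fun x => z x = n + j).card : ℝ) := by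
  classical
  have h2 : (V.filter fun x => n ≤ z x ∧ z x < n + h) = (range h).biUnion fun j => V.filter fun x => z x = n + j := by
    ext x
    simp only [mem_filter, mem_biUnion, mem_range]
    constructor
    · rintro ⟨hx, h3, h4⟩
      refine ⟨(z x - n).toNat, by omega, hx, by omega⟩
    · rintro ⟨j, hj, hx, h3⟩
      exact ⟨hx, by omega, by omega⟩
  rw [h2, card_biUnion]
  · push_cast
    rfl
  · intro i _ j _ hij
    rw [Function.onFun, disjoint_filter]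
    intro x _ h3 h4
    apply hij
    omega

theorem prod_card {ι : Type} (W : Finset ι) (V : Finset ℕ) (pr : ι × ℕ → Prop) [DecidablePred pr] :
    (((W ×ˢ V).filter pr).card : ℝ) = ∑ b ∈ W, ((V.filter fun x => pr (b, x)).card : ℝ) := by
  rw [card_filter]
  push_cast
  rw [sum_product]
  apply sum_congr rfl
  intro b _
  rw [card_filter]
  push_cast
  rfl

/-- the number of representations -/
noncomputable def RW {ι : Type} (W : Finset ι) (w : ι → ℤ) (P : ℕ) (g : ℕ → ℤ) (n : ℤ) : ℝ :=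
  (((W ×ˢ Ioc 0 P).filter fun q => w q.1 + g q.2 = n).card : ℝ)

/-- **The window count.** -/
theorem win_main (k : ℕ) (hk : 2 ≤ k) (a : ℝ) (ha : 0 < a) (g : ℕ → ℤ) (C1 : ℝ) (hC1 : 0 ≤ C1) (hsz : Sz k a g C1)
    (c0 : ℝ) (hc0 : 0 < c0) : ∃ C2 : ℝ, 0 < C2 ∧ ∀ᶠ ν : ℕ in Filter.atTop, ∃ h : ℕ, 1 ≤ h ∧
      ((2 ^ ν : ℕ) : ℝ) ^ ((k : ℝ) - 1 + 1 / 16) ≤ h ∧ (h : ℝ) ≤ 2 * ((2 ^ ν : ℕ) : ℝ) ^ ((k : ℝ) - 1 + 1 / 16) ∧
      ∀ (ι : Type) (W : Finset ι) (w : ι → ℤ) (n : ℤ),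
        (∀ b ∈ W, c0 * ((2 ^ ν : ℕ) : ℝ) ^ k ≤ (n : ℝ) - w b ∧ (n : ℝ) - w b ≤ a * ((2 ^ ν : ℕ) : ℝ) ^ k / 2) →
        |(∑ j ∈ range h, RW W w (2 ^ ν) g (n + j)) / h - ∑ b ∈ W, rh k a ((n : ℝ) - w b)| ≤ W.card * (C2 / h) := by
  have hk1 : (1 : ℝ) ≤ k := by
    have : 1 ≤ k := by omega
    exact_mod_cast this
  have hk0 : (0 : ℝ) < k := by linarith
  set C2 : ℝ := 1 + (6 * C1 / (k * c0) + 4 / (k * c0 ^ 2)) with hC2
  have hC20 : 0 < C2 := by positivity
  refine ⟨C2, hC20, ?_⟩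
  have htend : Filter.Tendsto (fun ν : ℕ => ((2 ^ ν : ℕ) : ℝ)) Filter.atTop Filter.atTop :=
    tendsto_natCast_atTop_atTop.comp (tendsto_pow_atTop_atTop_of_one_lt (by norm_num : 1 < 2))
  have ht16 : Filter.Tendsto (fun ν : ℕ => ((2 ^ ν : ℕ) : ℝ) ^ ((1 : ℝ) / 16)) Filter.atTop Filter.atTop :=
    (tendsto_rpow_atTop (by norm_num)).comp htend
  filter_upwards [ht16.eventually_ge_atTop (2 * C1), ht16.eventually_ge_atTop (8 / c0),
    ht16.eventually_ge_atTop (8 / a), htend.eventually_ge_atTop 1] with ν h1 h2 h3 hp1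
  set P : ℕ := 2 ^ ν with hP
  set p : ℝ := ((P : ℕ) : ℝ) with hp
  have hp0 : 0 < p := by linarith
  set d : ℕ := k - 1 with hd
  have hkd' : k = d + 1 := by omega
  have hkd : (k : ℝ) = (d : ℝ) + 1 := by rw [hkd']; push_cast; rfl
  have hpd : 0 < p ^ d := by positivity
  have hpk : p ^ k = p * p ^ d := by rw [hkd', pow_succ]; ring
  have hq1 : 1 ≤ p ^ ((1 : ℝ) / 16) := Real.one_le_rpow hp1 (by norm_num)
  have hq16 : p ^ ((1 : ℝ) / 16) * p ^ ((1 : ℝ) / 16) ≤ p := by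
    rw [← Real.rpow_add hp0]
    calc p ^ ((1 : ℝ) / 16 + 1 / 16) ≤ p ^ (1 : ℝ) := Real.rpow_le_rpow_of_exponent_le hp1 (by norm_num)
      _ = p := Real.rpow_one p
  have hqe : p ^ ((k : ℝ) - 1 + 1 / 16) = p ^ ((1 : ℝ) / 16) * p ^ d := by
    rw [← Real.rpow_natCast p d, ← Real.rpow_add hp0]
    congr 1
    rw [hkd]
    ring
  rw [hqe]
  set q : ℝ := p ^ ((1 : ℝ) / 16) with hqdef
  have hq0 : 0 < q := by linarith
  set h : ℕ := ⌈q * p ^ d⌉₊ with hh
  have hqp1 : 1 ≤ q * p ^ d := one_le_mul_of_one_le_of_one_le hq1 (one_le_pow₀ hp1)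
  have hh1 : q * p ^ d ≤ h := Nat.le_ceil _
  have hh2 : (h : ℝ) ≤ 2 * (q * p ^ d) := by
    have := Nat.ceil_lt_add_one (by positivity : 0 ≤ q * p ^ d)
    linarith
  have hh0 : (0 : ℝ) < h := by linarith
  have hhN : 1 ≤ h := by
    have : (0 : ℝ) < (h : ℝ) := hh0
    exact_mod_cast this
  refine ⟨h, hhN, hh1, hh2, fun ι W w n hn => ?_⟩
  set E : ℝ := C1 * p ^ d with hE
  have hE0 : 0 ≤ E := by positivity
  have hEh : 2 * E ≤ q * p ^ d := by
    rw [hE, ← mul_assoc]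
    exact mul_le_mul_of_nonneg_right h1 hpd.le
  have hqc : 8 * (q * p ^ d) ≤ c0 * p ^ k := by
    rw [div_le_iff₀ hc0] at h2
    rw [hpk]
    have h4 : 8 * q ≤ c0 * p := by nlinarith
    nlinarith
  have hqa : 8 * (q * p ^ d) ≤ a * p ^ k := by
    rw [div_le_iff₀ ha] at h3
    rw [hpk]
    have h4 : 8 * q ≤ a * p := by nlinarith
    nlinarith
  -- one variable
  have hone : ∀ b ∈ W,
      |(((Ioc 0 P).filter fun x => n ≤ w b + g x ∧ w b + g x < n + h).card : ℝ) -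
        h * rh k a ((n : ℝ) - w b)| ≤ C2 := by
    intro b hb
    obtain ⟨hMlow, hMp⟩ := hn b hb
    set M : ℝ := (n : ℝ) - w b with hM
    have hM0 : 0 < M := lt_of_lt_of_le (by positivity) hMlow
    have hfilt : ((Ioc 0 P).filter fun x => n ≤ w b + g x ∧ w b + g x < n + h) =
        ((Ioc 0 P).filter fun x : ℕ => n - w b ≤ g x ∧ g x < n - w b + h) := by
      apply filter_congr
      intro x _
      constructor
      · rintro ⟨h4, h5⟩
        constructor <;> linarith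
      · rintro ⟨h4, h5⟩
        constructor <;> linarith
    rw [hfilt]
    have hg : ∀ x ∈ Ioc 0 P, |((g x : ℤ) : ℝ) - ((n - w b : ℤ) : ℝ) - (a * (x : ℝ) ^ k - M)| ≤ E := by
      intro x hx
      rw [mem_Ioc] at hx
      have e1 : ((g x : ℤ) : ℝ) - ((n - w b : ℤ) : ℝ) - (a * (x : ℝ) ^ k - M) = (g x : ℝ) - a * (x : ℝ) ^ k := by
        rw [hM]
        push_cast
        ring
      rw [e1]
      exact hsz P x hx.1 hx.2
    have hmain := onevar k (by omega) a ha P h g (n - w b) M E hE0 hg hM0 (by linarith) (by linarith) (by linarith)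
      (by linarith)
    refine hmain.trans ?_
    have hps : ps1 k a M ≤ p := by
      apply le_of_pow_le_pow_left₀ (by omega : k ≠ 0) hp0.le
      have h4 : a * ps1 k a M ^ k ≤ a * p ^ k := by
        rw [ps1_pow k (by omega) a M ha hM0.le]
        have : 0 ≤ a * p ^ k := by positivity
        linarith
      exact le_of_mul_le_mul_left h4 ha
    have hrh : rh k a M ≤ 1 / (k * c0) / p ^ d := by
      unfold rh
      calc ps1 k a M / (k * M) ≤ p / (k * (c0 * p ^ k)) := by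
            apply div_le_div₀ hp0.le hps (by positivity)
            exact mul_le_mul_of_nonneg_left hMlow hk0.le
        _ = _ := by
            rw [hpk]
            field_simp
    have hrh0 := (rh_pos k (by omega) a M ha hM0).le
    have hh2M : (h : ℝ) ^ 2 / M ≤ 4 / c0 * p ^ d := by
      rw [div_le_iff₀ hM0]
      calc (h : ℝ) ^ 2 ≤ (2 * (q * p ^ d)) ^ 2 := pow_le_pow_left₀ hh0.le hh2 2
        _ = 4 * (q * q) * (p ^ d * p ^ d) := by ring
        _ ≤ 4 * p * (p ^ d * p ^ d) := by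
            apply mul_le_mul_of_nonneg_right _ (by positivity)
            linarith
        _ = 4 / c0 * p ^ d * (c0 * p ^ k) := by
            rw [hpk]
            field_simp
        _ ≤ _ := mul_le_mul_of_nonneg_left hMlow (by positivity)
    calc 1 + rh k a M * (6 * E + (h : ℝ) ^ 2 / M) ≤ 1 + 1 / (k * c0) / p ^ d * (6 * E + 4 / c0 * p ^ d) := by
          apply add_le_add le_rfl
          apply mul_le_mul hrh _ (by positivity) (by positivity)
          linarith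
      _ = _ := by
          rw [hC2, hE]
          field_simp
  have hws : ∑ j ∈ range h, RW W w P g (n + j) =
      ∑ b ∈ W, (((Ioc 0 P).filter fun x => n ≤ w b + g x ∧ w b + g x < n + h).card : ℝ) := by
    unfold RW
    rw [← win_sum (W ×ˢ Ioc 0 P) (fun q : ι × ℕ => w q.1 + g q.2) n h,
      prod_card W (Ioc 0 P) fun q => n ≤ w q.1 + g q.2 ∧ w q.1 + g q.2 < n + h]
  rw [hws, sum_div, ← sum_sub_distrib]
  have h4 : ∀ b ∈ W,
      |(((Ioc 0 P).filter fun x => n ≤ w b + g x ∧ w b + g x < n + h).card : ℝ) / h -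
        rh k a ((n : ℝ) - w b)| ≤ C2 / h := by
    intro b hb
    rw [le_div_iff₀ hh0]
    have h5 := hone b hb
    calc _ = |((((Ioc 0 P).filter fun x => n ≤ w b + g x ∧ w b + g x < n + h).card : ℝ) / h -
          rh k a ((n : ℝ) - w b)) * h| := by rw [abs_mul, abs_of_pos hh0]
      _ = |(((Ioc 0 P).filter fun x => n ≤ w b + g x ∧ w b + g x < n + h).card : ℝ) -
          h * rh k a ((n : ℝ) - w b)| := by
          congr 1
          field_simp
      _ ≤ _ := h5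
  calc _ ≤ ∑ b ∈ W, C2 / h := (abs_sum_le_sum_abs _ _).trans (sum_le_sum h4)
    _ = _ := by rw [sum_const, nsmul_eq_mul]

/-- **The machine.** -/
theorem machine (k : ℕ) (hk : 2 ≤ k) (a : ℝ) (ha : 0 < a) (g : ℕ → ℤ) (δ : ℝ) (hδ0 : 0 < δ) (hδ1 : δ ≤ 1 / 1000)
    (hdom : Dom k g δ) (C1 : ℝ) (hC1 : 0 ≤ C1) (hsz : Sz k a g C1) (c0 : ℝ) (hc0 : 0 < c0) :
    ∃ C : ℝ, 0 < C ∧ ∀ᶠ ν : ℕ in Filter.atTop, ∀ (ι : Type) (W : Finset ι) (w : ι → ℤ),
      (∀ n : ℤ, (∀ b ∈ W, c0 * ((2 ^ ν : ℕ) : ℝ) ^ k ≤ (n : ℝ) - w b ∧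
          (n : ℝ) - w b ≤ a * ((2 ^ ν : ℕ) : ℝ) ^ k / 2) → ∀ K : ℝ, 0 ≤ K →
        ∫⁻ α in Set.Icc (-(1 / 2) : ℝ) (1 / 2), ENNReal.ofReal ‖FW W w α‖ ≤ ENNReal.ofReal K →
        |RW W w (2 ^ ν) g n - ∑ b ∈ W, rh k a ((n : ℝ) - w b)| ≤
          C * (((2 ^ ν : ℕ) : ℝ) ^ (1 - δ) * K + W.card * ((2 ^ ν : ℕ) : ℝ) ^ (1 - (k : ℝ) - δ))) ∧
      (∀ J : Finset ℤ, (∀ n ∈ J, ∀ b ∈ W, c0 * ((2 ^ ν : ℕ) : ℝ) ^ k ≤ (n : ℝ) - w b ∧
          (n : ℝ) - w b ≤ a * ((2 ^ ν : ℕ) : ℝ) ^ k / 2) → ∀ K : ℝ, 0 ≤ K →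
        ∫⁻ α in Set.Icc (-(1 / 2) : ℝ) (1 / 2), ENNReal.ofReal (‖FW W w α‖ ^ 2) ≤ ENNReal.ofReal K →
        ∑ n ∈ J, (RW W w (2 ^ ν) g n - ∑ b ∈ W, rh k a ((n : ℝ) - w b)) ^ 2 ≤
          C * (((2 ^ ν : ℕ) : ℝ) ^ (2 - δ) * K + (W.card : ℝ) ^ 2 * ((2 ^ ν : ℕ) : ℝ) ^ (2 - (k : ℝ) - δ))) := by
  have hpi := Real.pi_pos
  have hk1 : (2 : ℝ) ≤ k := by exact_mod_cast hk
  obtain ⟨C2, hC20, hwin⟩ := win_main k hk a ha g C1 hC1 hsz c0 hc0
  have htend : Filter.Tendsto (fun ν : ℕ => ((2 ^ ν : ℕ) : ℝ)) Filter.atTop Filter.atTop :=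
    tendsto_natCast_atTop_atTop.comp (tendsto_pow_atTop_atTop_of_one_lt (by norm_num : 1 < 2))
  refine ⟨(2 + 8 * Real.pi + C2) + (8 + 64 * Real.pi ^ 2 + 2 * (a + 1) * C2 ^ 2), by positivity, ?_⟩
  filter_upwards [hdom, hwin, htend.eventually_ge_atTop 1] with ν hdom hwin hp1
  obtain ⟨Φ, hΦm, hΦ1, hΦ2⟩ := hdom
  obtain ⟨h, hhN, hh1, hh2, hwin⟩ := hwin
  intro ι W w
  set P : ℕ := 2 ^ ν with hP
  set p : ℝ := ((P : ℕ) : ℝ) with hp
  have hp0 : 0 < p := by linarith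
  have hh0 : (0 : ℝ) < h := by exact_mod_cast hhN
  have hmul : ∀ x y : ℝ, p ^ x * p ^ y = p ^ (x + y) := fun x y => (Real.rpow_add hp0 x y).symm
  have hle : ∀ x y : ℝ, x ≤ y → p ^ x ≤ p ^ y := fun x y h => Real.rpow_le_rpow_of_exponent_le hp1 h
  set T : ℝ := p ^ ((1 : ℝ) / 4 - (k : ℝ)) with hT
  have hT0 : 0 < T := by positivity
  set S : ℝ → ℂ := FW (Ioc 0 P) g with hS
  set F : ℝ → ℂ := FW W w with hF
  have hSc : Continuous S := FW_cont _ _
  have hFc : Continuous F := FW_cont _ _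
  have hSle : ∀ α, ‖S α‖ ≤ p := by
    intro α
    have h1 := FW_le (Ioc 0 P) g α
    rwa [Nat.card_Ioc, Nat.sub_zero] at h1
  have hFle : ∀ α, ‖F α‖ ≤ W.card := fun α => FW_le W w α
  have hW0 : (0 : ℝ) ≤ W.card := Nat.cast_nonneg _
  set G : ℝ → ℂ := fun α => F α * S α with hG
  have hGc : Continuous G := hFc.mul hSc
  have hGle : ∀ α, ‖G α‖ ≤ W.card * p := by
    intro α
    rw [hG]
    simp only
    rw [norm_mul]
    exact mul_le_mul (hFle α) (hSle α) (norm_nonneg _) hW0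
  have hRf : ∀ n : ℤ, fc G n = ((RW W w P g n : ℝ) : ℂ) := fun n => fc_count W w (Ioc 0 P) g n
  have hX0 : 0 ≤ p ^ (1 - (k : ℝ) - δ) := by positivity
  have hC2h : C2 / h ≤ C2 * p ^ (1 - (k : ℝ) - 1 / 16) := by
    rw [div_le_iff₀ hh0]
    have h4 : p ^ (1 - (k : ℝ) - 1 / 16) * p ^ ((k : ℝ) - 1 + 1 / 16) = 1 := by
      rw [hmul]
      have : 1 - (k : ℝ) - 1 / 16 + ((k : ℝ) - 1 + 1 / 16) = 0 := by ring
      rw [this, Real.rpow_zero]
    have h5 := mul_le_mul_of_nonneg_left hh1 (by positivity : 0 ≤ C2 * p ^ (1 - (k : ℝ) - 1 / 16))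
    rw [mul_assoc, h4, mul_one] at h5
    exact h5
  constructor
  · intro n hn K hK0 hK
    have hY := minorU (Ioc 0 P) g T (p ^ (1 - δ)) (p ^ (1 - (k : ℝ) - δ)) hX0 Φ hΦm hΦ1 hΦ2 (fun α => ‖F α‖) hFc.norm
      (fun α => norm_nonneg _) W.card hFle K (by positivity) hK hK0
    have hY' : ∫⁻ α in {α : ℝ | T ≤ |α|} ∩ Set.Icc (-(1 / 2) : ℝ) (1 / 2), ENNReal.ofReal ‖G α‖ ≤
        ENNReal.ofReal (p ^ (1 - δ) * K + W.card * p ^ (1 - (k : ℝ) - δ)) := by
      refine le_trans (le_of_eq ?_) hY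
      apply lintegral_congr
      intro α
      congr 1
      rw [hG]
      simp only
      rw [norm_mul]
    set Bd : ℝ := p ^ (1 - δ) * K + W.card * p ^ (1 - (k : ℝ) - δ) with hBd
    have hBd0 : 0 ≤ Bd := by positivity
    have hloc : ∀ j < h, |(((W ×ˢ Ioc 0 P).filter fun q => w q.1 + g q.2 = n + j).card : ℝ) -
        ((W ×ˢ Ioc 0 P).filter fun q => w q.1 + g q.2 = n).card| ≤
        2 * Bd + W.card * p * (2 * Real.pi * T * h) * (2 * T) := by
      intro j hj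
      have h4 := fc_local G hGc (W.card * p) T Bd h hGle hT0 hBd0 hY' n (n + j) (by
        push_cast
        rw [add_sub_cancel_left, abs_of_nonneg (Nat.cast_nonneg _)]
        exact_mod_cast hj.le)
      rw [hRf, hRf, ← ofReal_sub, norm_real, Real.norm_eq_abs] at h4
      exact h4
    have hw := window (W ×ˢ Ioc 0 P) (fun q : ι × ℕ => w q.1 + g q.2) n h hhN _ hloc
    rw [win_sum] at hw
    have hw2 := hwin ι W w n hn
    have hD : W.card * p * (2 * Real.pi * T * h) * (2 * T) ≤ 8 * Real.pi * (W.card * p ^ (1 - (k : ℝ) - δ)) := by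
      calc W.card * p * (2 * Real.pi * T * h) * (2 * T) ≤
            W.card * p * (2 * Real.pi * T * (2 * p ^ ((k : ℝ) - 1 + 1 / 16))) * (2 * T) := by gcongr
        _ = 8 * Real.pi * (W.card * (p ^ (1 : ℝ) * (T * T) * p ^ ((k : ℝ) - 1 + 1 / 16))) := by
            rw [Real.rpow_one]
            ring
        _ ≤ _ := by
            apply mul_le_mul_of_nonneg_left _ (by positivity)
            apply mul_le_mul_of_nonneg_left _ hW0
            rw [hT]
            simp only [hmul]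
            apply hle
            linarith
    have hE2 : W.card * (C2 / h) ≤ C2 * (W.card * p ^ (1 - (k : ℝ) - δ)) := by
      calc W.card * (C2 / h) ≤ W.card * (C2 * p ^ (1 - (k : ℝ) - 1 / 16)) := mul_le_mul_of_nonneg_left hC2h hW0
        _ ≤ W.card * (C2 * p ^ (1 - (k : ℝ) - δ)) := by
            apply mul_le_mul_of_nonneg_left _ hW0
            apply mul_le_mul_of_nonneg_left _ hC20.le
            apply hle
            linarith
        _ = _ := by ring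
    have hWX : 0 ≤ W.card * p ^ (1 - (k : ℝ) - δ) := by positivity
    have hAK : 0 ≤ p ^ (1 - δ) * K := by positivity
    calc |RW W w P g n - ∑ b ∈ W, rh k a ((n : ℝ) - w b)| ≤
          |RW W w P g n - (∑ j ∈ range h, RW W w P g (n + j)) / h| +
          |(∑ j ∈ range h, RW W w P g (n + j)) / h - ∑ b ∈ W, rh k a ((n : ℝ) - w b)| := abs_sub_le _ _ _
      _ ≤ (2 * Bd + 8 * Real.pi * (W.card * p ^ (1 - (k : ℝ) - δ))) + C2 * (W.card * p ^ (1 - (k : ℝ) - δ)) :=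
          add_le_add (hw.trans (add_le_add le_rfl hD)) (hw2.trans hE2)
      _ ≤ (2 * Bd + 8 * Real.pi * Bd) + C2 * Bd := by
          have h6 : W.card * p ^ (1 - (k : ℝ) - δ) ≤ Bd := by rw [hBd]; linarith
          gcongr
      _ = (2 + 8 * Real.pi + C2) * Bd := by ring
      _ ≤ _ := by
          apply mul_le_mul_of_nonneg_right _ hBd0
          have : 0 ≤ 8 + 64 * Real.pi ^ 2 + 2 * (a + 1) * C2 ^ 2 := by positivity
          linarith
  · intro J hJ K hK0 hK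
    rcases W.eq_empty_or_nonempty with hWe | ⟨b0, hb0⟩
    · subst hWe
      have h4 : ∀ n ∈ J, (RW (∅ : Finset ι) w P g n - ∑ b ∈ (∅ : Finset ι), rh k a ((n : ℝ) - w b)) ^ 2 = 0 := by
        intro n _
        unfold RW
        simp
      rw [sum_congr rfl h4, sum_const_zero]
      positivity
    have hpK : ∫⁻ α in Set.Icc (-(1 / 2) : ℝ) (1 / 2), ENNReal.ofReal (p * ‖F α‖ ^ 2) ≤ ENNReal.ofReal (p * K) := by
      simp only [ENNReal.ofReal_mul hp0.le]
      rw [lintegral_const_mul' _ _ ENNReal.ofReal_ne_top]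
      exact mul_le_mul_right hK _
    have hY := minorU (Ioc 0 P) g T (p ^ (1 - δ)) (p ^ (1 - (k : ℝ) - δ)) hX0 Φ hΦm hΦ1 hΦ2 (fun α => p * ‖F α‖ ^ 2)
      (continuous_const.mul (hFc.norm.pow 2)) (fun α => by positivity) (p * (W.card : ℝ) ^ 2)
      (fun α => mul_le_mul_of_nonneg_left (pow_le_pow_left₀ (norm_nonneg _) (hFle α) 2) hp0.le) (p * K)
      (by positivity) hpK (by positivity)
    set Bd : ℝ := p ^ (1 - δ) * (p * K) + p * (W.card : ℝ) ^ 2 * p ^ (1 - (k : ℝ) - δ) with hBd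
    have hBd0 : 0 ≤ Bd := by positivity
    have hY' : ∫⁻ α in {α : ℝ | T ≤ |α|} ∩ Set.Icc (-(1 / 2) : ℝ) (1 / 2), ENNReal.ofReal (‖G α‖ ^ 2) ≤
        ENNReal.ofReal Bd := by
      refine le_trans (lintegral_mono fun α => ENNReal.ofReal_le_ofReal ?_) hY
      rw [hG]
      simp only
      rw [norm_mul, mul_pow]
      calc ‖F α‖ ^ 2 * ‖S α‖ ^ 2 = ‖F α‖ ^ 2 * (‖S α‖ * ‖S α‖) := by ring
        _ ≤ ‖F α‖ ^ 2 * (p * ‖S α‖) := by
            apply mul_le_mul_of_nonneg_left _ (by positivity)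
            exact mul_le_mul_of_nonneg_right (hSle α) (norm_nonneg _)
        _ = _ := by ring
    have hBde : Bd = p ^ (2 - δ) * K + (W.card : ℝ) ^ 2 * p ^ (2 - (k : ℝ) - δ) := by
      have e1 : p ^ (1 - δ) * p = p ^ (2 - δ) := by
        nth_rewrite 2 [← Real.rpow_one p]
        rw [hmul]
        congr 1
        ring
      have e2 : p * p ^ (1 - (k : ℝ) - δ) = p ^ (2 - (k : ℝ) - δ) := by
        nth_rewrite 1 [← Real.rpow_one p]
        rw [hmul]
        congr 1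
        ring
      rw [hBd, ← e1, ← e2]
      ring
    have hdev := fc_dev G hGc (W.card * p) T Bd hGle hT0 hBd0 hY' h hhN J
    have hdev' : ∑ n ∈ J, (RW W w P g n - (∑ j ∈ range h, RW W w P g (n + j)) / h) ^ 2 ≤
        4 * Bd + (W.card * p) ^ 2 * (2 * Real.pi * T * h) ^ 2 * (2 * T) := by
      refine le_trans (le_of_eq ?_) hdev
      apply sum_congr rfl
      intro n _
      have e1 : fc G n - (1 / (h : ℂ)) * ∑ j ∈ range h, fc G (n + j) =
          ((RW W w P g n - (∑ j ∈ range h, RW W w P g (n + j)) / h : ℝ) : ℂ) := by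
        rw [hRf, sum_congr rfl fun (j : ℕ) _ => hRf (n + (j : ℤ))]
        push_cast
        ring
      rw [e1, norm_real, Real.norm_eq_abs, sq_abs]
    have hD : (W.card * p) ^ 2 * (2 * Real.pi * T * h) ^ 2 * (2 * T) ≤
        32 * Real.pi ^ 2 * ((W.card : ℝ) ^ 2 * p ^ (2 - (k : ℝ) - δ)) := by
      calc (W.card * p) ^ 2 * (2 * Real.pi * T * h) ^ 2 * (2 * T) ≤
            (W.card * p) ^ 2 * (2 * Real.pi * T * (2 * p ^ ((k : ℝ) - 1 + 1 / 16))) ^ 2 * (2 * T) := by gcongr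
        _ = 32 * Real.pi ^ 2 * ((W.card : ℝ) ^ 2 * ((p ^ (1 : ℝ) * p ^ (1 : ℝ)) * (T * T * T) *
              (p ^ ((k : ℝ) - 1 + 1 / 16) * p ^ ((k : ℝ) - 1 + 1 / 16)))) := by
            rw [Real.rpow_one]
            ring
        _ ≤ _ := by
            apply mul_le_mul_of_nonneg_left _ (by positivity)
            apply mul_le_mul_of_nonneg_left _ (by positivity)
            rw [hT]
            simp only [hmul]
            apply hle
            linarith
    have hJc : (J.card : ℝ) ≤ (a + 1) * p ^ (k : ℝ) := by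
      have h4 : J ⊆ Icc (w b0) (w b0 + ⌊a * p ^ k / 2⌋) := by
        intro n hn
        obtain ⟨h5, h6⟩ := hJ n hn b0 hb0
        rw [mem_Icc]
        have h7 : (0 : ℝ) ≤ c0 * p ^ k := by positivity
        constructor
        · have : (w b0 : ℝ) ≤ n := by linarith
          exact_mod_cast this
        · have h8 : ((n - w b0 : ℤ) : ℝ) ≤ a * p ^ k / 2 := by push_cast; exact h6
          have h9 := Int.le_floor.2 h8
          linarith
      have h5 := card_le_card h4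
      rw [Int.card_Icc] at h5
      have h6 : (0 : ℝ) ≤ a * p ^ k / 2 := by positivity
      have h7 : 0 ≤ ⌊a * p ^ k / 2⌋ := Int.floor_nonneg.2 h6
      have h8 : (w b0 + ⌊a * p ^ k / 2⌋ + 1 - w b0).toNat = ⌊a * p ^ k / 2⌋.toNat + 1 := by omega
      rw [h8] at h5
      have h9 : (J.card : ℝ) ≤ (⌊a * p ^ k / 2⌋.toNat : ℝ) + 1 := by exact_mod_cast h5
      have h10 : ((⌊a * p ^ k / 2⌋.toNat : ℕ) : ℝ) = ((⌊a * p ^ k / 2⌋ : ℤ) : ℝ) := by
        rw [← Int.cast_natCast, Int.toNat_of_nonneg h7]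
      rw [h10] at h9
      have h11 := Int.floor_le (a * p ^ k / 2)
      have h12 : 1 ≤ p ^ k := one_le_pow₀ hp1
      rw [Real.rpow_natCast]
      nlinarith
    have hE2 : ∑ n ∈ J, ((∑ j ∈ range h, RW W w P g (n + j)) / h - ∑ b ∈ W, rh k a ((n : ℝ) - w b)) ^ 2 ≤
        (a + 1) * C2 ^ 2 * ((W.card : ℝ) ^ 2 * p ^ (2 - (k : ℝ) - δ)) := by
      calc _ ≤ ∑ n ∈ J, (W.card * (C2 * p ^ (1 - (k : ℝ) - 1 / 16))) ^ 2 := by
            apply sum_le_sum
            intro n hn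
            rw [← sq_abs]
            apply pow_le_pow_left₀ (abs_nonneg _)
            exact (hwin ι W w n (hJ n hn)).trans (mul_le_mul_of_nonneg_left hC2h hW0)
        _ = J.card * (W.card * (C2 * p ^ (1 - (k : ℝ) - 1 / 16))) ^ 2 := by rw [sum_const, nsmul_eq_mul]
        _ ≤ ((a + 1) * p ^ (k : ℝ)) * (W.card * (C2 * p ^ (1 - (k : ℝ) - 1 / 16))) ^ 2 :=
            mul_le_mul_of_nonneg_right hJc (by positivity)
        _ = (a + 1) * C2 ^ 2 * ((W.card : ℝ) ^ 2 * (p ^ (k : ℝ) * (p ^ (1 - (k : ℝ) - 1 / 16) *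
              p ^ (1 - (k : ℝ) - 1 / 16)))) := by ring
        _ ≤ _ := by
            apply mul_le_mul_of_nonneg_left _ (by positivity)
            apply mul_le_mul_of_nonneg_left _ (by positivity)
            simp only [hmul]
            apply hle
            linarith
    have hpt : ∀ n ∈ J, (RW W w P g n - ∑ b ∈ W, rh k a ((n : ℝ) - w b)) ^ 2 ≤
        2 * (RW W w P g n - (∑ j ∈ range h, RW W w P g (n + j)) / h) ^ 2 +
        2 * ((∑ j ∈ range h, RW W w P g (n + j)) / h - ∑ b ∈ W, rh k a ((n : ℝ) - w b)) ^ 2 := by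
      intro n _
      set x := RW W w P g n
      set y := (∑ j ∈ range h, RW W w P g (n + j)) / (h : ℝ)
      set z := ∑ b ∈ W, rh k a ((n : ℝ) - w b)
      nlinarith [sq_nonneg (x - y - (y - z))]
    have hWX : 0 ≤ (W.card : ℝ) ^ 2 * p ^ (2 - (k : ℝ) - δ) := by positivity
    have hAK : 0 ≤ p ^ (2 - δ) * K := by positivity
    have hXB : (W.card : ℝ) ^ 2 * p ^ (2 - (k : ℝ) - δ) ≤ Bd := by rw [hBde]; linarith
    calc _ ≤ ∑ n ∈ J, (2 * (RW W w P g n - (∑ j ∈ range h, RW W w P g (n + j)) / h) ^ 2 +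
        2 * ((∑ j ∈ range h, RW W w P g (n + j)) / h - ∑ b ∈ W, rh k a ((n : ℝ) - w b)) ^ 2) := sum_le_sum hpt
      _ = 2 * ∑ n ∈ J, (RW W w P g n - (∑ j ∈ range h, RW W w P g (n + j)) / h) ^ 2 +
          2 * ∑ n ∈ J, ((∑ j ∈ range h, RW W w P g (n + j)) / h - ∑ b ∈ W, rh k a ((n : ℝ) - w b)) ^ 2 := by
          rw [sum_add_distrib, ← mul_sum, ← mul_sum]
      _ ≤ 2 * (4 * Bd + 32 * Real.pi ^ 2 * ((W.card : ℝ) ^ 2 * p ^ (2 - (k : ℝ) - δ))) +
          2 * ((a + 1) * C2 ^ 2 * ((W.card : ℝ) ^ 2 * p ^ (2 - (k : ℝ) - δ))) := by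
          apply add_le_add
          · exact mul_le_mul_of_nonneg_left (hdev'.trans (add_le_add le_rfl hD)) (by norm_num)
          · exact mul_le_mul_of_nonneg_left hE2 (by norm_num)
      _ ≤ 2 * (4 * Bd + 32 * Real.pi ^ 2 * Bd) + 2 * ((a + 1) * C2 ^ 2 * Bd) := by gcongr
      _ = (8 + 64 * Real.pi ^ 2 + 2 * (a + 1) * C2 ^ 2) * Bd := by ring
      _ ≤ ((2 + 8 * Real.pi + C2) + (8 + 64 * Real.pi ^ 2 + 2 * (a + 1) * C2 ^ 2)) * Bd := by
          apply mul_le_mul_of_nonneg_right _ hBd0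
          have : 0 ≤ 2 + 8 * Real.pi + C2 := by positivity
          linarith
      _ = _ := by rw [hBde]

end Pool.Agent.U914.WP
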