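import Mathlib
import Pool.Agent.U914.WP.KC
import Pool.Agent.U914.WP.GN

/-! Almost all polynomials in Waring's problem: products of exponential sums, and sums over dyadic ranges. -/

set_option autoImplicit false

open Finset MeasureTheory Complex
open Pool.Agent.U518.WS (ee norm_ee ee_add ee_sub ee_sum ee_neg ee_zero continuous_ee m1 ms meas_T)

namespace Pool.Agent.U914.WP

theorem prod_pow_le (t : ℕ) (ht : 1 ≤ t) (u : Fin t → ℝ) (hu0 : ∀ i, 0 ≤ u i) (hu1 : ∀ i, u i ≤ 1) (e : Fin t → ℕ)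
    (he : ∀ i, 1 ≤ e i) (c : ℕ) (hc : 1 ≤ ∑ i, (c : ℝ) / e i) : ∏ i, u i ^ c ≤ ∑ i, u i ^ e i := by
  obtain ⟨i0, _, hi0⟩ := exists_max_image (univ : Finset (Fin t)) (fun i => u i ^ e i) ⟨⟨0, ht⟩, mem_univ _⟩
  have hc0 : c ≠ 0 := by
    rintro rfl
    simp at hc
    linarith
  set V : ℝ := u i0 ^ e i0 with hV
  have hV0 : 0 ≤ V := pow_nonneg (hu0 i0) _
  have hV1 : V ≤ 1 := pow_le_one₀ (hu0 i0) (hu1 i0)
  have hVs : V ≤ ∑ i, u i ^ e i := single_le_sum (f := fun i => u i ^ e i) (fun i _ => pow_nonneg (hu0 i) _) (mem_univ i0)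
  refine le_trans ?_ hVs
  rcases hV0.eq_or_lt with hz | hpos
  · have h1 : u i0 = 0 := by
      rw [hV] at hz
      exact pow_eq_zero_iff (by have := he i0; omega) |>.1 hz.symm
    rw [prod_eq_zero (mem_univ i0) (by rw [h1, zero_pow hc0])]
    exact hV0
  · have h1 : ∀ i, u i ^ c ≤ V ^ ((c : ℝ) / e i) := by
      intro i
      have hei : (0 : ℝ) < e i := by exact_mod_cast he i
      have h2 : u i ^ c = (u i ^ e i) ^ ((c : ℝ) / e i) := by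
        rw [← Real.rpow_natCast (u i) (e i), ← Real.rpow_mul (hu0 i), ← Real.rpow_natCast (u i) c]
        congr 1
        field_simp
      rw [h2]
      exact Real.rpow_le_rpow (pow_nonneg (hu0 i) _) (hi0 i (mem_univ i)) (by positivity)
    calc ∏ i, u i ^ c ≤ ∏ i, V ^ ((c : ℝ) / e i) := prod_le_prod (fun i _ => pow_nonneg (hu0 i) _) fun i _ => h1 i
      _ = V ^ (∑ i, (c : ℝ) / e i) := (Real.rpow_sum_of_pos hpos _ _).symm
      _ ≤ V ^ (1 : ℝ) := Real.rpow_le_rpow_of_exponent_ge hpos hV1 hc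
      _ = V := Real.rpow_one V

/-- the mean value for intervals of any length -/
theorem mvY (k : ℕ) (g : ℕ → ℤ) (h : MVp k g) (ε : ℝ) (hε : 0 < ε) : ∀ᶠ Y : ℕ in Filter.atTop,
    ∫⁻ α in Set.Icc (-(1 / 2) : ℝ) (1 / 2), ENNReal.ofReal (‖FW (Ioc 0 Y) g α‖ ^ (2 * k)) ≤
      ENNReal.ofReal ((Y : ℝ) ^ ((k : ℝ) + ε)) := by
  obtain ⟨ν0, hν0⟩ := Filter.eventually_atTop.1 (h (ε / 2) (by positivity))
  have hev : ∀ᶠ Y : ℕ in Filter.atTop, (2 : ℝ) ^ ((k : ℝ) + ε / 2) ≤ (Y : ℝ) ^ (ε / 2) :=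
    ((tendsto_rpow_atTop (by positivity : (0 : ℝ) < ε / 2)).comp tendsto_natCast_atTop_atTop).eventually_ge_atTop _
  filter_upwards [hev, Filter.eventually_ge_atTop (2 ^ ν0), Filter.eventually_ge_atTop 1] with Y h1 h2 h3
  have hY0 : (0 : ℝ) < Y := by exact_mod_cast h3
  set μ : ℕ := Nat.log 2 Y with hμ
  have h4 : 2 ^ μ ≤ Y := Nat.pow_log_le_self 2 (by omega)
  have h5 : Y < 2 ^ (μ + 1) := Nat.lt_pow_succ_log_self (by norm_num) Y
  have h6 : ν0 ≤ μ + 1 := by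
    by_contra hcon
    push Not at hcon
    have h7 : 2 ^ (μ + 1) ≤ 2 ^ ν0 := Nat.pow_le_pow_right (by norm_num) (by omega)
    omega
  have h8 : Ioc 0 Y ⊆ Ioc 0 (2 ^ (μ + 1)) := Ioc_subset_Ioc_right h5.le
  refine (FW_mono k g _ _ h8).trans ((hν0 (μ + 1) h6).trans (ENNReal.ofReal_le_ofReal ?_))
  have h9 : ((2 ^ (μ + 1) : ℕ) : ℝ) ≤ 2 * Y := by
    have h10 : 2 ^ (μ + 1) ≤ 2 * Y := by rw [pow_succ]; omega
    exact_mod_cast h10
  have hk0 : (0 : ℝ) ≤ k := Nat.cast_nonneg k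
  calc ((2 ^ (μ + 1) : ℕ) : ℝ) ^ ((k : ℝ) + ε / 2) ≤ (2 * Y) ^ ((k : ℝ) + ε / 2) :=
        Real.rpow_le_rpow (Nat.cast_nonneg _) h9 (by linarith)
    _ = 2 ^ ((k : ℝ) + ε / 2) * (Y : ℝ) ^ ((k : ℝ) + ε / 2) := Real.mul_rpow (by norm_num) hY0.le
    _ ≤ (Y : ℝ) ^ (ε / 2) * (Y : ℝ) ^ ((k : ℝ) + ε / 2) := mul_le_mul_of_nonneg_right h1 (by positivity)
    _ = _ := by
        rw [← Real.rpow_add hY0]
        congr 1
        ring

/-- **Products of exponential sums.** -/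
theorem mv_prod (t : ℕ) (ht : 1 ≤ t) (k : Fin t → ℕ) (hk : ∀ i, 1 ≤ k i) (g : Fin t → ℕ → ℤ) (c : ℕ)
    (hc : 1 ≤ ∑ i, (c : ℝ) / ((2 * k i : ℕ) : ℝ)) (Y : Fin t → ℕ) (hY : ∀ i, 1 ≤ Y i) (M : Fin t → ℝ)
    (hM : ∀ i, 0 ≤ M i)
    (hmv : ∀ i, ∫⁻ α in Set.Icc (-(1 / 2) : ℝ) (1 / 2), ENNReal.ofReal (‖FW (Ioc 0 (Y i)) (g i) α‖ ^ (2 * k i)) ≤
      ENNReal.ofReal (M i)) :
    ∫⁻ α in Set.Icc (-(1 / 2) : ℝ) (1 / 2), ENNReal.ofReal
      (‖FW (Fintype.piFinset fun i => Ioc 0 (Y i)) (fun b => ∑ i, g i (b i)) α‖ ^ c) ≤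
      ENNReal.ofReal ((∏ i, (Y i : ℝ)) ^ c * ∑ i, M i / (Y i : ℝ) ^ (2 * k i)) := by
  have hYr : ∀ i, (0 : ℝ) < Y i := fun i => by exact_mod_cast hY i
  have hP0 : 0 ≤ (∏ i, (Y i : ℝ)) ^ c := by positivity
  have hpt : ∀ α : ℝ, ‖FW (Fintype.piFinset fun i => Ioc 0 (Y i)) (fun b => ∑ i, g i (b i)) α‖ ^ c ≤
      (∏ i, (Y i : ℝ)) ^ c * ∑ i, ‖FW (Ioc 0 (Y i)) (g i) α‖ ^ (2 * k i) / (Y i : ℝ) ^ (2 * k i) := by
    intro α
    rw [← FW_prod (fun i => Ioc 0 (Y i)) g α, norm_prod]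
    have h1 := prod_pow_le t ht (fun i => ‖FW (Ioc 0 (Y i)) (g i) α‖ / Y i) (fun i => by positivity) (fun i => by
      rw [div_le_one (hYr i)]
      have h2 := FW_le (Ioc 0 (Y i)) (g i) α
      rwa [Nat.card_Ioc, Nat.sub_zero] at h2) (fun i => 2 * k i) (fun i => by have := hk i; omega) c hc
    have h2 : (∏ i, ‖FW (Ioc 0 (Y i)) (g i) α‖) ^ c =
        (∏ i, (Y i : ℝ)) ^ c * ∏ i, (‖FW (Ioc 0 (Y i)) (g i) α‖ / Y i) ^ c := by
      rw [← prod_pow, ← prod_pow, ← prod_mul_distrib]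
      apply prod_congr rfl
      intro i _
      rw [← mul_pow]
      congr 1
      have := (hYr i).ne'
      field_simp
    rw [h2]
    apply mul_le_mul_of_nonneg_left _ hP0
    refine h1.trans (le_of_eq ?_)
    apply sum_congr rfl
    intro i _
    rw [div_pow]
  have hm : ∀ i, Measurable fun α : ℝ => ENNReal.ofReal (‖FW (Ioc 0 (Y i)) (g i) α‖ ^ (2 * k i) / (Y i : ℝ) ^ (2 * k i)) := by
    intro i
    exact (ENNReal.continuous_ofReal.comp (((FW_cont _ _).norm.pow _).div_const _)).measurable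
  calc _ ≤ ∫⁻ α in Set.Icc (-(1 / 2) : ℝ) (1 / 2), ENNReal.ofReal
          ((∏ i, (Y i : ℝ)) ^ c * ∑ i, ‖FW (Ioc 0 (Y i)) (g i) α‖ ^ (2 * k i) / (Y i : ℝ) ^ (2 * k i)) :=
        lintegral_mono fun α => ENNReal.ofReal_le_ofReal (hpt α)
    _ = ENNReal.ofReal ((∏ i, (Y i : ℝ)) ^ c) * ∑ i, ∫⁻ α in Set.Icc (-(1 / 2) : ℝ) (1 / 2), ENNReal.ofReal
          (‖FW (Ioc 0 (Y i)) (g i) α‖ ^ (2 * k i) / (Y i : ℝ) ^ (2 * k i)) := by
        rw [← lintegral_finsetSum _ fun i _ => hm i, ← lintegral_const_mul' _ _ ENNReal.ofReal_ne_top]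
        apply lintegral_congr
        intro α
        rw [ENNReal.ofReal_mul hP0, ENNReal.ofReal_sum_of_nonneg fun i _ => by positivity]
    _ ≤ ENNReal.ofReal ((∏ i, (Y i : ℝ)) ^ c) * ∑ i, ENNReal.ofReal (M i / (Y i : ℝ) ^ (2 * k i)) := by
        apply mul_le_mul_right
        apply sum_le_sum
        intro i _
        have h3 : ∀ α : ℝ, ENNReal.ofReal (‖FW (Ioc 0 (Y i)) (g i) α‖ ^ (2 * k i) / (Y i : ℝ) ^ (2 * k i)) =
            ENNReal.ofReal (1 / (Y i : ℝ) ^ (2 * k i)) * ENNReal.ofReal (‖FW (Ioc 0 (Y i)) (g i) α‖ ^ (2 * k i)) := by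
          intro α
          rw [← ENNReal.ofReal_mul (by positivity)]
          congr 1
          ring
        simp only [h3]
        rw [lintegral_const_mul' _ _ ENNReal.ofReal_ne_top]
        refine (mul_le_mul_right (hmv i) _).trans (le_of_eq ?_)
        rw [← ENNReal.ofReal_mul (by positivity)]
        congr 1
        ring
    _ = _ := by
        rw [← ENNReal.ofReal_sum_of_nonneg fun i _ => div_nonneg (hM i) (by positivity), ← ENNReal.ofReal_mul hP0]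

/-- **Sums over dyadic ranges.** -/
theorem dy_sum (k : ℕ) (hk : 2 ≤ k) (a : ℝ) (ha : 0 < a) (E κ : ℝ) (hE0 : 0 < E) (hκ0 : 0 < κ) (Δ : ℕ → ℝ)
    (hΔ0 : ∀ n, 0 ≤ Δ n) (C0 : ℝ) (hC0 : 0 < C0) (ν1 : ℕ)
    (hS : ∀ μ, ν1 ≤ μ → ∀ J : Finset ℕ, (∀ n ∈ J, a * (((2 ^ μ : ℕ) : ℝ) / 2) ^ k ≤ 2 * n ∧
      2 * (n : ℝ) ≤ a * ((2 ^ μ : ℕ) : ℝ) ^ k) → ∑ n ∈ J, Δ n ≤ C0 * ((2 ^ μ : ℕ) : ℝ) ^ E) :
    ∀ᶠ X : ℕ in Filter.atTop, ∑ n ∈ Icc 1 X, Δ n ≤ (X : ℝ) ^ (E / k + κ) := by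
  have hk2 : (2 : ℝ) ≤ k := by exact_mod_cast hk
  have hk0 : (0 : ℝ) < k := by linarith
  set c5 : ℝ := 2 * (2 / a) ^ ((k : ℝ)⁻¹) with hc5
  have hc50 : 0 < c5 := by positivity
  set N0 : ℕ := ⌈a * (2 ^ ν1) ^ k⌉₊ with hN0
  set A : ℝ := ∑ n ∈ range N0, Δ n with hA
  have hA0 : 0 ≤ A := sum_nonneg fun n _ => hΔ0 n
  set κ' : ℝ := k * κ / 2 with hκ'
  have hκ'0 : 0 < κ' := by positivity
  obtain ⟨Cn, hCn, hnu⟩ := nu_q 1 κ' hκ'0
  set C : ℝ := A + 2 * Cn * C0 * (2 * c5) ^ E * c5 ^ κ' with hC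
  have hCp : 0 < C := by positivity
  have hev1 : ∀ᶠ X : ℕ in Filter.atTop, a * (2 ^ ν1) ^ k ≤ (X : ℝ) := tendsto_natCast_atTop_atTop.eventually_ge_atTop _
  have hev2 : ∀ᶠ X : ℕ in Filter.atTop, (X : ℝ) ^ (-(κ / 2)) ≤ 1 / C :=
    ((tendsto_rpow_neg_atTop (by positivity : (0 : ℝ) < κ / 2)).comp
      tendsto_natCast_atTop_atTop).eventually_le_const (by positivity)
  filter_upwards [hev1, hev2, Filter.eventually_ge_atTop 1] with X hX1 hX2 hX3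
  have hXr : (1 : ℝ) ≤ X := by exact_mod_cast hX3
  have hX0 : (0 : ℝ) < X := by linarith
  obtain ⟨ν, hν, hs1, hs2⟩ := scale2 k (by omega) a ha ν1 X (by linarith)
  set p : ℝ := ((2 ^ ν : ℕ) : ℝ) with hp
  have hp0 : 0 < p := by positivity
  have hpn : p ≤ c5 * (X : ℝ) ^ ((k : ℝ)⁻¹) := by
    have h1 : (p / 2) ^ k ≤ 2 * X / a := by
      rw [le_div_iff₀ ha, mul_comm]
      exact hs1
    have h2 := Real.rpow_le_rpow (by positivity) h1 (by positivity : (0 : ℝ) ≤ (k : ℝ)⁻¹)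
    rw [Real.pow_rpow_inv_natCast (by positivity) (by omega)] at h2
    have h3 : 2 * (X : ℝ) / a = 2 / a * X := by ring
    rw [h3, Real.mul_rpow (by positivity) hX0.le] at h2
    rw [hc5]
    linarith
  set band : ℕ → Finset ℕ := fun μ => (Icc N0 X).filter fun n : ℕ =>
    a * (((2 ^ μ : ℕ) : ℝ) / 2) ^ k ≤ 2 * n ∧ 2 * (n : ℝ) ≤ a * ((2 ^ μ : ℕ) : ℝ) ^ k with hband
  have hcover : Icc N0 X ⊆ (Icc ν1 (ν + 1)).biUnion band := by
    intro n hn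
    rw [mem_Icc] at hn
    have h0 : ((N0 : ℕ) : ℝ) ≤ n := by exact_mod_cast hn.1
    have h1 : a * (2 ^ ν1) ^ k ≤ (n : ℝ) := (Nat.le_ceil _).trans h0
    obtain ⟨μ, hμ, hm1, hm2⟩ := scale2 k (by omega) a ha ν1 n (by
      have : (0 : ℝ) ≤ n := Nat.cast_nonneg n
      linarith)
    rw [mem_biUnion]
    refine ⟨μ, ?_, ?_⟩
    · rw [mem_Icc]
      refine ⟨hμ, ?_⟩
      by_contra hcon
      push Not at hcon
      have h2 : a * (((2 ^ μ : ℕ) : ℝ) / 2) ^ k ≤ a * p ^ k := by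
        have : (n : ℝ) ≤ X := by exact_mod_cast hn.2
        linarith
      have h3 := le_of_pow_le_pow_left₀ (by omega : k ≠ 0) hp0.le (le_of_mul_le_mul_left h2 ha)
      have h4 : ((2 ^ (ν + 2) : ℕ) : ℝ) ≤ ((2 ^ μ : ℕ) : ℝ) := by
        exact_mod_cast Nat.pow_le_pow_right (by norm_num) (by omega : ν + 2 ≤ μ)
      have h5 : ((2 ^ (ν + 2) : ℕ) : ℝ) = 4 * p := by
        rw [hp]
        push_cast
        ring
      linarith
    · rw [hband, mem_filter, mem_Icc]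
      exact ⟨hn, hm1, hm2⟩
  have hbandle : ∀ μ ∈ Icc ν1 (ν + 1), ∑ n ∈ band μ, Δ n ≤ C0 * (2 * p) ^ E := by
    intro μ hμ
    rw [mem_Icc] at hμ
    refine (hS μ hμ.1 (band μ) (fun n hn => by
      rw [hband, mem_filter] at hn
      exact hn.2)).trans ?_
    apply mul_le_mul_of_nonneg_left _ hC0.le
    apply Real.rpow_le_rpow (Nat.cast_nonneg _) _ hE0.le
    have h4 : ((2 ^ μ : ℕ) : ℝ) ≤ ((2 ^ (ν + 1) : ℕ) : ℝ) := by
      exact_mod_cast Nat.pow_le_pow_right (by norm_num) hμ.2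
    have h5 : ((2 ^ (ν + 1) : ℕ) : ℝ) = 2 * p := by
      rw [hp]
      push_cast
      ring
    linarith
  have hbig : ∑ n ∈ Icc N0 X, Δ n ≤ (ν + 2) * (C0 * (2 * p) ^ E) := by
    calc ∑ n ∈ Icc N0 X, Δ n ≤ ∑ n ∈ (Icc ν1 (ν + 1)).biUnion band, Δ n :=
          sum_le_sum_of_subset_of_nonneg hcover fun n _ _ => hΔ0 n
      _ ≤ ∑ μ ∈ Icc ν1 (ν + 1), ∑ n ∈ band μ, Δ n := sum_biU _ _ _ hΔ0
      _ ≤ ∑ _μ ∈ Icc ν1 (ν + 1), C0 * (2 * p) ^ E := sum_le_sum hbandle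
      _ ≤ _ := by
          rw [sum_const, nsmul_eq_mul, Nat.card_Icc]
          apply mul_le_mul_of_nonneg_right _ (by positivity)
          have : ν + 1 + 1 - ν1 ≤ ν + 2 := by omega
          exact_mod_cast this
  have hall : ∑ n ∈ Icc 1 X, Δ n ≤ A + (ν + 2) * (C0 * (2 * p) ^ E) := by
    calc ∑ n ∈ Icc 1 X, Δ n ≤ ∑ n ∈ range N0 ∪ Icc N0 X, Δ n := by
          apply sum_le_sum_of_subset_of_nonneg
          · intro n hn
            rw [mem_Icc] at hn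
            rw [mem_union, mem_range, mem_Icc]
            omega
          · intro n _ _
            exact hΔ0 n
      _ ≤ ∑ n ∈ range N0, Δ n + ∑ n ∈ Icc N0 X, Δ n := by
          have h1 := sum_union_inter (s₁ := range N0) (s₂ := Icc N0 X) (f := Δ)
          have h2 : 0 ≤ ∑ n ∈ range N0 ∩ Icc N0 X, Δ n := sum_nonneg fun n _ => hΔ0 n
          linarith
      _ ≤ _ := by linarith
  have hν2 : (ν : ℝ) + 2 ≤ 2 * (Cn * p ^ κ') := by
    have h1 := hnu ν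
    rw [pow_one] at h1
    have h2 : (0 : ℝ) ≤ ν := Nat.cast_nonneg ν
    linarith
  have h5 : p ^ κ' ≤ c5 ^ κ' * (X : ℝ) ^ (κ / 2) := by
    calc p ^ κ' ≤ (c5 * (X : ℝ) ^ ((k : ℝ)⁻¹)) ^ κ' := Real.rpow_le_rpow hp0.le hpn (by positivity)
      _ = _ := by
          rw [Real.mul_rpow hc50.le (by positivity), ← Real.rpow_mul hX0.le, hκ']
          congr 2
          field_simp
  have h6 : (2 * p) ^ E ≤ (2 * c5) ^ E * (X : ℝ) ^ (E / k) := by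
    calc (2 * p) ^ E ≤ (2 * c5 * (X : ℝ) ^ ((k : ℝ)⁻¹)) ^ E := by
          apply Real.rpow_le_rpow (by positivity) _ hE0.le
          linarith
      _ = _ := by
          rw [Real.mul_rpow (by positivity) (by positivity), ← Real.rpow_mul hX0.le]
          congr 2
          field_simp
  have h7 : (1 : ℝ) ≤ (X : ℝ) ^ (κ / 2 + E / k) := Real.one_le_rpow hXr (by positivity)
  calc ∑ n ∈ Icc 1 X, Δ n ≤ A + (ν + 2) * (C0 * (2 * p) ^ E) := hall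
    _ ≤ A * (X : ℝ) ^ (κ / 2 + E / k) + (2 * (Cn * (c5 ^ κ' * (X : ℝ) ^ (κ / 2)))) *
          (C0 * ((2 * c5) ^ E * (X : ℝ) ^ (E / k))) := by
        apply add_le_add
        · exact le_mul_of_one_le_right hA0 h7
        · apply mul_le_mul _ _ (by positivity) (by positivity)
          · refine hν2.trans ?_
            apply mul_le_mul_of_nonneg_left _ (by norm_num)
            exact mul_le_mul_of_nonneg_left h5 hCn.le
          · exact mul_le_mul_of_nonneg_left h6 hC0.le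
    _ = C * (X : ℝ) ^ (κ / 2 + E / k) := by
        rw [hC, Real.rpow_add hX0]
        ring
    _ = C * (X : ℝ) ^ (-(κ / 2)) * (X : ℝ) ^ (E / k + κ) := by
        rw [mul_assoc C, ← Real.rpow_add hX0]
        congr 2
        ring
    _ ≤ C * (1 / C) * (X : ℝ) ^ (E / k + κ) := by
        apply mul_le_mul_of_nonneg_right _ (by positivity)
        exact mul_le_mul_of_nonneg_left hX2 hCp.le
    _ = _ := by rw [mul_one_div_cancel hCp.ne', one_mul]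

end Pool.Agent.U914.WP
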