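import Mathlib
import Pool.Agent.U914.WP.KD

/-! Almost all polynomials in Waring's problem: mixed degrees, one scale. -/

set_option autoImplicit false

open Finset MeasureTheory

namespace Pool.Agent.U914.WP

/-- the lengths of the variables -/
noncomputable def YL (k : ℕ) (a η P : ℝ) : ℕ := ⌊(η * P / a) ^ ((k : ℝ)⁻¹)⌋₊

/-- sizes of one variable -/
theorem YL_facts (k : ℕ) (hk : 1 ≤ k) (a η : ℝ) (ha : 0 < a) (hη : 0 < η) (g : ℕ → ℤ) (C : ℝ) (hC : 0 ≤ C)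
    (hsz : Sz k a g C) (hmv : MVp k g) (κ : ℝ) (hκ : 0 < κ) (hκ1 : κ < 1) : ∃ b : ℝ, 0 < b ∧ ∀ᶠ P : ℝ in Filter.atTop,
      1 ≤ YL k a η P ∧ b * P ≤ (YL k a η P : ℝ) ^ k ∧
      (∀ x : ℕ, 1 ≤ x → x ≤ YL k a η P → |(g x : ℝ)| ≤ 2 * η * P) ∧
      ∫⁻ α in Set.Icc (-(1 / 2) : ℝ) (1 / 2), ENNReal.ofReal (‖FW (Ioc 0 (YL k a η P)) g α‖ ^ (2 * k)) ≤
        ENNReal.ofReal ((YL k a η P : ℝ) ^ ((k : ℝ) + k * κ)) ∧
      (YL k a η P : ℝ) ^ ((k : ℝ) + k * κ) / (YL k a η P : ℝ) ^ (2 * k) ≤ b ^ (κ - 1) * P ^ (κ - 1) := by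
  have hk0 : (0 : ℝ) < k := by exact_mod_cast hk
  have hkne : k ≠ 0 := by omega
  set b : ℝ := η / a / 2 ^ k with hb
  have hb0 : 0 < b := by positivity
  refine ⟨b, hb0, ?_⟩
  have ht : Filter.Tendsto (fun P : ℝ => (η * P / a) ^ ((k : ℝ)⁻¹)) Filter.atTop Filter.atTop := by
    apply (tendsto_rpow_atTop (by positivity : (0 : ℝ) < (k : ℝ)⁻¹)).comp
    exact (Filter.tendsto_id.const_mul_atTop hη).atTop_div_const ha
  have hYt : Filter.Tendsto (fun P : ℝ => YL k a η P) Filter.atTop Filter.atTop := tendsto_nat_floor_atTop.comp ht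
  have hYr : Filter.Tendsto (fun P : ℝ => ((YL k a η P : ℕ) : ℝ)) Filter.atTop Filter.atTop :=
    tendsto_natCast_atTop_atTop.comp hYt
  filter_upwards [hYt.eventually_ge_atTop 1, hYr.eventually_ge_atTop (C / a),
    hYt.eventually (mvY k g hmv (k * κ) (by positivity)), Filter.eventually_gt_atTop 0] with P h1 h2 h3 hP0
  set Y : ℕ := YL k a η P with hY
  set X : ℝ := (η * P / a) ^ ((k : ℝ)⁻¹) with hX
  have hX0 : 0 < X := by positivity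
  have hXk : X ^ k = η * P / a := Real.rpow_inv_natCast_pow (by positivity) hkne
  have hYX : (Y : ℝ) ≤ X := Nat.floor_le hX0.le
  have hY1 : (1 : ℝ) ≤ Y := by exact_mod_cast h1
  have hY0 : (0 : ℝ) < Y := by linarith
  have hYX2 : X / 2 ≤ Y := by
    have h4 : X < (Y : ℝ) + 1 := Nat.lt_floor_add_one X
    linarith
  have hYk : (Y : ℝ) ^ k ≤ η * P / a := by
    rw [← hXk]
    exact pow_le_pow_left₀ hY0.le hYX k
  have hYk2 : b * P ≤ (Y : ℝ) ^ k := by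
    calc b * P = (X / 2) ^ k := by
          rw [div_pow, hXk, hb]
          field_simp
      _ ≤ _ := pow_le_pow_left₀ (by positivity) hYX2 k
  refine ⟨h1, hYk2, ?_, h3, ?_⟩
  · intro x hx1 hx2
    have h4 := hsz Y x hx1 hx2
    have h5 : a * (x : ℝ) ^ k ≤ η * P := by
      have h6 : (x : ℝ) ^ k ≤ (Y : ℝ) ^ k := pow_le_pow_left₀ (Nat.cast_nonneg _) (by exact_mod_cast hx2) k
      have h7 := h6.trans hYk
      rw [le_div_iff₀ ha] at h7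
      linarith
    have h6 : C * (Y : ℝ) ^ (k - 1) ≤ η * P := by
      rw [div_le_iff₀ ha] at h2
      have e1 : (Y : ℝ) ^ k = Y * (Y : ℝ) ^ (k - 1) := by
        have : k = (k - 1) + 1 := by omega
        nth_rewrite 1 [this]
        rw [pow_succ]
        ring
      rw [e1, le_div_iff₀ ha] at hYk
      have h7 : C * (Y : ℝ) ^ (k - 1) ≤ Y * a * (Y : ℝ) ^ (k - 1) := mul_le_mul_of_nonneg_right h2 (by positivity)
      linarith
    have h7 : 0 ≤ a * (x : ℝ) ^ k := by positivity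
    rw [abs_le] at h4 ⊢
    constructor <;> linarith [h4.1, h4.2]
  · have e1 : (Y : ℝ) ^ ((k : ℝ) + k * κ) / (Y : ℝ) ^ (2 * k) = ((Y : ℝ) ^ k) ^ (κ - 1) := by
      rw [← Real.rpow_natCast (Y : ℝ) (2 * k), ← Real.rpow_sub hY0, ← Real.rpow_natCast (Y : ℝ) k,
        ← Real.rpow_mul hY0.le]
      congr 1
      push_cast
      ring
    rw [e1, ← Real.mul_rpow hb0.le hP0.le]
    exact Real.rpow_le_rpow_of_nonpos (by positivity) hYk2 (by linarith)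

/-- the family of the first variables -/
noncomputable def WM (t : ℕ) (k : Fin t → ℕ) (a : Fin t → ℝ) (η P : ℝ) : Finset (Fin t → ℕ) :=
  Fintype.piFinset fun i => Ioc 0 (YL (k i) (a i) η P)

/-- the sum of the first variables -/
def wM (t : ℕ) (g : Fin t → ℕ → ℤ) (b : Fin t → ℕ) : ℤ := ∑ i, g i (b i)

/-- **One scale, mixed degrees.** -/
theorem mixed_scale (t : ℕ) (ht : 1 ≤ t) (k0 : ℕ) (hk0 : 2 ≤ k0) (a0 : ℝ) (ha0 : 0 < a0) (g0 : ℕ → ℤ) (δ : ℝ)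
    (hδ0 : 0 < δ) (hδ1 : δ ≤ 1 / 1000) (hdom : Dom k0 g0 δ) (C1 : ℝ) (hC1 : 0 ≤ C1) (hsz0 : Sz k0 a0 g0 C1)
    (k : Fin t → ℕ) (hk : ∀ i, 1 ≤ k i) (a : Fin t → ℝ) (ha : ∀ i, 0 < a i) (g : Fin t → ℕ → ℤ)
    (hmv : ∀ i, MVp (k i) (g i)) (C : Fin t → ℝ) (hC : ∀ i, 0 ≤ C i) (hsz : ∀ i, Sz (k i) (a i) (g i) (C i)) :
    ∃ η c C3 : ℝ, 0 < η ∧ 0 < c ∧ 0 < C3 ∧ ∀ᶠ ν : ℕ in Filter.atTop,
      (c * ((2 ^ ν : ℕ) : ℝ) ^ ((k0 : ℝ) * ∑ i, 1 / (k i : ℝ)) ≤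
        ((WM t k a η (((2 ^ ν : ℕ) : ℝ) ^ (k0 : ℝ))).card : ℝ)) ∧
      ((2 ≤ ∑ i, 1 / (k i : ℝ)) → ∀ n : ℕ, a0 / (2 * 4 ^ k0) * ((2 ^ ν : ℕ) : ℝ) ^ (k0 : ℝ) ≤ n →
        (n : ℝ) ≤ a0 / 8 * ((2 ^ ν : ℕ) : ℝ) ^ (k0 : ℝ) →
        c * ((WM t k a η (((2 ^ ν : ℕ) : ℝ) ^ (k0 : ℝ))).card * ((2 ^ ν : ℕ) : ℝ) ^ (1 - (k0 : ℝ))) ≤
          RW (WM t k a η (((2 ^ ν : ℕ) : ℝ) ^ (k0 : ℝ))) (wM t g) (2 ^ ν) g0 n) ∧
      ((1 ≤ ∑ i, 1 / (k i : ℝ)) → ∀ J : Finset ℕ, (∀ n ∈ J, a0 / (2 * 4 ^ k0) * ((2 ^ ν : ℕ) : ℝ) ^ (k0 : ℝ) ≤ n ∧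
        (n : ℝ) ≤ a0 / 8 * ((2 ^ ν : ℕ) : ℝ) ^ (k0 : ℝ)) →
        ((J.filter fun n : ℕ => RW (WM t k a η (((2 ^ ν : ℕ) : ℝ) ^ (k0 : ℝ))) (wM t g) (2 ^ ν) g0 n <
          c * ((WM t k a η (((2 ^ ν : ℕ) : ℝ) ^ (k0 : ℝ))).card * ((2 ^ ν : ℕ) : ℝ) ^ (1 - (k0 : ℝ)))).card : ℝ) ≤
          C3 * ((2 ^ ν : ℕ) : ℝ) ^ ((k0 : ℝ) - δ / 2)) := by
  have hk0r : (2 : ℝ) ≤ k0 := by exact_mod_cast hk0
  have hk00 : (0 : ℝ) < k0 := by linarith
  have htr : (1 : ℝ) ≤ t := by exact_mod_cast ht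
  set η : ℝ := a0 / (8 * t * 4 ^ k0) with hη
  have hη0 : 0 < η := by positivity
  set κ : ℝ := δ / (4 * k0) with hκ
  have hκ0 : 0 < κ := by positivity
  have hκ1 : κ < 1 := by
    rw [hκ, div_lt_one (by positivity)]
    linarith
  have hκk : (k0 : ℝ) * κ = δ / 4 := by rw [hκ]; field_simp
  choose b hb0 hbf using fun i => YL_facts (k i) (hk i) (a i) η (ha i) hη0 (g i) (C i) (hC i) (hsz i) (hmv i) κ hκ0 hκ1
  set c0 : ℝ := a0 / (4 * 4 ^ k0) with hc0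
  have hc00 : 0 < c0 := by positivity
  obtain ⟨Cm, hCm, hmach⟩ := machine k0 hk0 a0 ha0 g0 δ hδ0 hδ1 hdom C1 hC1 hsz0 c0 hc00
  set c3 : ℝ := (c0 / a0) ^ ((k0 : ℝ)⁻¹) / (k0 * (a0 / 2)) with hc3
  have hc30 : 0 < c3 := by positivity
  set Cb : ℝ := ∑ i, b i ^ (κ - 1) with hCb
  have hCb0 : 0 ≤ Cb := sum_nonneg fun i _ => by have := hb0 i; positivity
  set cw : ℝ := ∏ i, b i ^ (((k i : ℕ) : ℝ)⁻¹) with hcw
  have hcw0 : 0 < cw := prod_pos fun i _ => by have := hb0 i; positivity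
  set c : ℝ := min cw (c3 / 2) with hc
  have hcp : 0 < c := lt_min hcw0 (by positivity)
  have hc1 : c ≤ cw := min_le_left _ _
  have hc2 : c ≤ c3 / 2 := min_le_right _ _
  refine ⟨η, c, Cm * (Cb + 1) / (c3 / 2) ^ 2, hη0, hcp, by positivity, ?_⟩
  have htend : Filter.Tendsto (fun ν : ℕ => ((2 ^ ν : ℕ) : ℝ)) Filter.atTop Filter.atTop :=
    tendsto_natCast_atTop_atTop.comp (tendsto_pow_atTop_atTop_of_one_lt (by norm_num : 1 < 2))
  have htk : Filter.Tendsto (fun ν : ℕ => ((2 ^ ν : ℕ) : ℝ) ^ (k0 : ℝ)) Filter.atTop Filter.atTop :=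
    (tendsto_rpow_atTop hk00).comp htend
  have hev1 : ∀ᶠ ν : ℕ in Filter.atTop, ((2 ^ ν : ℕ) : ℝ) ^ (-(3 * δ / 4)) ≤ c3 / 2 / (Cm * (Cb + 1)) :=
    ((tendsto_rpow_neg_atTop (by positivity : (0 : ℝ) < 3 * δ / 4)).comp htend).eventually_le_const (by positivity)
  have hbf' : ∀ᶠ ν : ℕ in Filter.atTop, ∀ i,
      1 ≤ YL (k i) (a i) η (((2 ^ ν : ℕ) : ℝ) ^ (k0 : ℝ)) ∧
      b i * ((2 ^ ν : ℕ) : ℝ) ^ (k0 : ℝ) ≤ (YL (k i) (a i) η (((2 ^ ν : ℕ) : ℝ) ^ (k0 : ℝ)) : ℝ) ^ k i ∧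
      (∀ x : ℕ, 1 ≤ x → x ≤ YL (k i) (a i) η (((2 ^ ν : ℕ) : ℝ) ^ (k0 : ℝ)) →
        |(g i x : ℝ)| ≤ 2 * η * ((2 ^ ν : ℕ) : ℝ) ^ (k0 : ℝ)) ∧
      ∫⁻ α in Set.Icc (-(1 / 2) : ℝ) (1 / 2), ENNReal.ofReal
          (‖FW (Ioc 0 (YL (k i) (a i) η (((2 ^ ν : ℕ) : ℝ) ^ (k0 : ℝ)))) (g i) α‖ ^ (2 * k i)) ≤
        ENNReal.ofReal ((YL (k i) (a i) η (((2 ^ ν : ℕ) : ℝ) ^ (k0 : ℝ)) : ℝ) ^ ((k i : ℝ) + k i * κ)) ∧
      (YL (k i) (a i) η (((2 ^ ν : ℕ) : ℝ) ^ (k0 : ℝ)) : ℝ) ^ ((k i : ℝ) + k i * κ) /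
          (YL (k i) (a i) η (((2 ^ ν : ℕ) : ℝ) ^ (k0 : ℝ)) : ℝ) ^ (2 * k i) ≤
        b i ^ (κ - 1) * (((2 ^ ν : ℕ) : ℝ) ^ (k0 : ℝ)) ^ (κ - 1) := by
    rw [Filter.eventually_all]
    intro i
    exact htk.eventually (hbf i)
  filter_upwards [hbf', hmach, hev1, htend.eventually_ge_atTop 1] with ν hbf hmach hev1 hp1
  set p : ℝ := ((2 ^ ν : ℕ) : ℝ) with hp
  have hp0 : 0 < p := by linarith
  have hpk : p ^ k0 = p ^ (k0 : ℝ) := (Real.rpow_natCast p k0).symm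
  rw [hpk] at hmach
  have hmul : ∀ x y : ℝ, p ^ x * p ^ y = p ^ (x + y) := fun x y => (Real.rpow_add hp0 x y).symm
  have hle : ∀ x y : ℝ, x ≤ y → p ^ x ≤ p ^ y := fun x y h => Real.rpow_le_rpow_of_exponent_le hp1 h
  set N : ℝ := p ^ (k0 : ℝ) with hN
  have hN0 : 0 < N := by positivity
  set Y : Fin t → ℕ := fun i => YL (k i) (a i) η N with hY
  have hWdef : WM t k a η N = Fintype.piFinset fun i => Ioc 0 (Y i) := rfl
  set W : Finset (Fin t → ℕ) := WM t k a η N with hW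
  have hY1 : ∀ i, 1 ≤ Y i := fun i => (hbf i).1
  have hYr : ∀ i, (0 : ℝ) < Y i := fun i => by exact_mod_cast hY1 i
  have hWc : (W.card : ℝ) = ∏ i, (Y i : ℝ) := by
    rw [hWdef, Fintype.card_piFinset]
    push_cast
    apply prod_congr rfl
    intro i _
    rw [Nat.card_Ioc, Nat.sub_zero]
  have hWpos : 0 < (W.card : ℝ) := by rw [hWc]; exact prod_pos fun i _ => hYr i
  -- the size of the family
  have hsize : cw * p ^ ((k0 : ℝ) * ∑ i, 1 / (k i : ℝ)) ≤ (W.card : ℝ) := by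
    rw [hWc, hcw]
    have e1 : p ^ ((k0 : ℝ) * ∑ i, 1 / (k i : ℝ)) = ∏ i, N ^ (((k i : ℕ) : ℝ)⁻¹) := by
      rw [mul_sum, Real.rpow_sum_of_pos hp0]
      apply prod_congr rfl
      intro i _
      rw [hN, ← Real.rpow_mul hp0.le, one_div]
    rw [e1, ← prod_mul_distrib]
    apply prod_le_prod
    · intro i _
      have := hb0 i
      positivity
    · intro i _
      have hki : k i ≠ 0 := by have := hk i; omega
      rw [← Real.mul_rpow (hb0 i).le hN0.le]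
      have h1 := Real.rpow_le_rpow (by have := hb0 i; positivity) (hbf i).2.1 (by positivity : (0 : ℝ) ≤ ((k i : ℕ) : ℝ)⁻¹)
      rwa [Real.pow_rpow_inv_natCast (Nat.cast_nonneg _) hki] at h1
  -- the range
  have hrange : ∀ n : ℕ, a0 / (2 * 4 ^ k0) * N ≤ n → (n : ℝ) ≤ a0 / 8 * N → ∀ x ∈ W,
      c0 * N ≤ (((n : ℕ) : ℤ) : ℝ) - (wM t g x : ℝ) ∧ (((n : ℕ) : ℤ) : ℝ) - (wM t g x : ℝ) ≤ a0 * N / 2 := by
    intro n hn1 hn2 x hx
    rw [hWdef, Fintype.mem_piFinset] at hx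
    have h1 : |(wM t g x : ℝ)| ≤ c0 * N := by
      unfold wM
      push_cast
      calc |∑ i, (g i (x i) : ℝ)| ≤ ∑ i, |(g i (x i) : ℝ)| := abs_sum_le_sum_abs _ _
        _ ≤ ∑ _i : Fin t, 2 * η * N := by
            apply sum_le_sum
            intro i _
            have h2 := mem_Ioc.1 (hx i)
            exact (hbf i).2.2.1 (x i) h2.1 h2.2
        _ = _ := by
            rw [sum_const, card_univ, Fintype.card_fin, nsmul_eq_mul, hη, hc0]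
            field_simp
            norm_num
    have h2 := abs_le.1 h1
    have h3 : a0 / (2 * 4 ^ k0) = 2 * c0 := by
      rw [hc0]
      field_simp
      norm_num
    have h4 : c0 ≤ a0 / 8 := by
      rw [hc0]
      apply div_le_div_of_nonneg_left ha0.le (by norm_num)
      have : (4 : ℝ) ^ 1 ≤ 4 ^ k0 := pow_le_pow_right₀ (by norm_num) (by omega)
      linarith
    rw [h3] at hn1
    have h5 : c0 * N ≤ a0 / 8 * N := mul_le_mul_of_nonneg_right h4 hN0.le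
    have h6 : 0 ≤ a0 * N := by positivity
    rw [Int.cast_natCast]
    constructor <;> linarith [h2.1, h2.2]
  -- the main term
  have hmainT : ∀ n : ℕ, a0 / (2 * 4 ^ k0) * N ≤ n → (n : ℝ) ≤ a0 / 8 * N →
      c3 * (W.card * p ^ (1 - (k0 : ℝ))) ≤ ∑ x ∈ W, rh k0 a0 ((((n : ℕ) : ℤ) : ℝ) - (wM t g x : ℝ)) := by
    intro n hn1 hn2
    calc c3 * (W.card * p ^ (1 - (k0 : ℝ))) = ∑ _x ∈ W, c3 * p ^ (1 - (k0 : ℝ)) := by
          rw [sum_const, nsmul_eq_mul]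
          ring
      _ ≤ _ := by
          apply sum_le_sum
          intro x hx
          obtain ⟨h1, h2⟩ := hrange n hn1 hn2 x hx
          set M : ℝ := (((n : ℕ) : ℤ) : ℝ) - (wM t g x : ℝ)
          have hM0 : 0 < M := lt_of_lt_of_le (by positivity) h1
          unfold rh
          have h3 := ps1_mono k0 a0 (c0 * N) M ha0 (by positivity) h1
          have h4 : ps1 k0 a0 (c0 * N) = (c0 / a0) ^ ((k0 : ℝ)⁻¹) * p := by
            unfold ps1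
            have e1 : c0 * N / a0 = c0 / a0 * p ^ k0 := by rw [hN, hpk]; ring
            rw [e1, Real.mul_rpow (by positivity) (by positivity), Real.pow_rpow_inv_natCast hp0.le (by omega)]
          calc c3 * p ^ (1 - (k0 : ℝ)) = ps1 k0 a0 (c0 * N) / (k0 * (a0 * N / 2)) := by
                rw [h4, hc3, Real.rpow_sub hp0, Real.rpow_one, ← hN]
                field_simp
            _ ≤ _ := by
                apply div_le_div₀ (ps1_nonneg k0 a0 M ha0 hM0.le) h3 (by positivity)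
                exact mul_le_mul_of_nonneg_left h2 hk00.le
  -- the mean values
  have hKc : ∀ cc : ℕ, 1 ≤ ∑ i, (cc : ℝ) / ((2 * k i : ℕ) : ℝ) →
      ∫⁻ α in Set.Icc (-(1 / 2) : ℝ) (1 / 2), ENNReal.ofReal (‖FW W (wM t g) α‖ ^ cc) ≤
        ENNReal.ofReal ((W.card : ℝ) ^ cc * (Cb * p ^ (-(k0 : ℝ) + δ / 4))) := by
    intro cc hcc
    have h1 := mv_prod t ht k hk g cc hcc Y hY1 (fun i => (Y i : ℝ) ^ ((k i : ℝ) + k i * κ)) (fun i => by positivity)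
      (fun i => (hbf i).2.2.2.1)
    refine h1.trans (ENNReal.ofReal_le_ofReal ?_)
    rw [hWc]
    apply mul_le_mul_of_nonneg_left _ (by positivity)
    calc ∑ i, (Y i : ℝ) ^ ((k i : ℝ) + k i * κ) / (Y i : ℝ) ^ (2 * k i) ≤ ∑ i, b i ^ (κ - 1) * N ^ (κ - 1) :=
          sum_le_sum fun i _ => (hbf i).2.2.2.2
      _ = Cb * N ^ (κ - 1) := by rw [hCb, sum_mul]
      _ = _ := by
          rw [hN, ← Real.rpow_mul hp0.le]
          congr 2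
          linarith
  have hsmall : Cm * (Cb + 1) * p ^ (-(3 * δ / 4)) ≤ c3 / 2 := by
    have h1 := mul_le_mul_of_nonneg_left hev1 (by positivity : 0 ≤ Cm * (Cb + 1))
    refine h1.trans (le_of_eq ?_)
    field_simp
  obtain ⟨hm1, hm2⟩ := hmach (Fin t → ℕ) W (wM t g)
  refine ⟨(mul_le_mul_of_nonneg_right hc1 (by positivity)).trans hsize, ?_, ?_⟩
  · intro hsum n hn1 hn2
    have hK := hKc 1 (by
      have e1 : ∑ i, ((1 : ℕ) : ℝ) / ((2 * k i : ℕ) : ℝ) = (∑ i, 1 / (k i : ℝ)) / 2 := by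
        rw [sum_div]
        apply sum_congr rfl
        intro i _
        have : (0 : ℝ) < k i := by exact_mod_cast hk i
        push_cast
        field_simp
      rw [e1]
      linarith)
    simp only [pow_one] at hK
    have h1 := hm1 ((n : ℕ) : ℤ) (hrange n hn1 hn2) _ (by positivity) hK
    have h2 := hmainT n hn1 hn2
    have h3 : Cm * (p ^ (1 - δ) * (W.card * (Cb * p ^ (-(k0 : ℝ) + δ / 4))) + W.card * p ^ (1 - (k0 : ℝ) - δ)) ≤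
        c3 / 2 * (W.card * p ^ (1 - (k0 : ℝ))) := by
      calc Cm * (p ^ (1 - δ) * (W.card * (Cb * p ^ (-(k0 : ℝ) + δ / 4))) + W.card * p ^ (1 - (k0 : ℝ) - δ)) =
            Cm * (W.card * (Cb * (p ^ (1 - δ) * p ^ (-(k0 : ℝ) + δ / 4)) + p ^ (1 - (k0 : ℝ) - δ))) := by ring
        _ ≤ Cm * (W.card * (Cb * p ^ (1 - (k0 : ℝ) - 3 * δ / 4) + p ^ (1 - (k0 : ℝ) - 3 * δ / 4))) := by
            rw [hmul]
            have e1 : 1 - δ + (-(k0 : ℝ) + δ / 4) = 1 - (k0 : ℝ) - 3 * δ / 4 := by ring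
            rw [e1]
            have h4 : p ^ (1 - (k0 : ℝ) - δ) ≤ p ^ (1 - (k0 : ℝ) - 3 * δ / 4) := hle _ _ (by linarith)
            gcongr
        _ = Cm * (Cb + 1) * p ^ (-(3 * δ / 4)) * (W.card * p ^ (1 - (k0 : ℝ))) := by
            have e1 : p ^ (1 - (k0 : ℝ) - 3 * δ / 4) = p ^ (-(3 * δ / 4)) * p ^ (1 - (k0 : ℝ)) := by
              rw [hmul]
              congr 1
              ring
            rw [e1]
            ring
        _ ≤ _ := mul_le_mul_of_nonneg_right hsmall (by positivity)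
    have h4 := (abs_le.1 h1).1
    have h5 : c * (W.card * p ^ (1 - (k0 : ℝ))) ≤ c3 / 2 * (W.card * p ^ (1 - (k0 : ℝ))) :=
      mul_le_mul_of_nonneg_right hc2 (by positivity)
    linarith
  · intro hsum J hJ
    have hK := hKc 2 (by
      have e1 : ∑ i, ((2 : ℕ) : ℝ) / ((2 * k i : ℕ) : ℝ) = ∑ i, 1 / (k i : ℝ) := by
        apply sum_congr rfl
        intro i _
        have : (0 : ℝ) < k i := by exact_mod_cast hk i
        push_cast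
        field_simp
      rw [e1]
      exact hsum)
    set J' : Finset ℕ := J.filter fun n : ℕ => RW W (wM t g) (2 ^ ν) g0 n <
      c * (W.card * p ^ (1 - (k0 : ℝ))) with hJ'
    have hJJ : ∀ n ∈ J', n ∈ J ∧ RW W (wM t g) (2 ^ ν) g0 n < c * (W.card * p ^ (1 - (k0 : ℝ))) := by
      intro n hn
      rw [hJ', mem_filter] at hn
      exact hn
    have h1 := hm2 (J'.map Nat.castEmbedding) (by
      intro m hm
      rw [mem_map] at hm
      obtain ⟨n, hn, rfl⟩ := hm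
      have h2 := hJ n (hJJ n hn).1
      exact hrange n h2.1 h2.2) _ (by positivity) hK
    rw [sum_map] at h1
    have h2 : ∀ n ∈ J', (c3 / 2 * (W.card * p ^ (1 - (k0 : ℝ)))) ^ 2 ≤
        (RW W (wM t g) (2 ^ ν) g0 (Nat.castEmbedding n) -
          ∑ x ∈ W, rh k0 a0 (((Nat.castEmbedding n : ℤ) : ℝ) - (wM t g x : ℝ))) ^ 2 := by
      intro n hn
      obtain ⟨h3, h4⟩ := hJJ n hn
      have h5 := hmainT n (hJ n h3).1 (hJ n h3).2
      have h6 : c * (W.card * p ^ (1 - (k0 : ℝ))) ≤ c3 / 2 * (W.card * p ^ (1 - (k0 : ℝ))) :=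
        mul_le_mul_of_nonneg_right hc2 (by positivity)
      have h7 : 0 ≤ c3 / 2 * (W.card * p ^ (1 - (k0 : ℝ))) := by positivity
      rw [← neg_sq (RW W (wM t g) (2 ^ ν) g0 (Nat.castEmbedding n) -
          ∑ x ∈ W, rh k0 a0 (((Nat.castEmbedding n : ℤ) : ℝ) - (wM t g x : ℝ)))]
      apply pow_le_pow_left₀ h7
      have h8 : ((Nat.castEmbedding n : ℤ)) = ((n : ℕ) : ℤ) := rfl
      rw [h8]
      linarith
    have h3 := sum_le_sum h2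
    rw [sum_const, nsmul_eq_mul] at h3
    have h4 := h3.trans h1
    have h5 : Cm * (p ^ (2 - δ) * ((W.card : ℝ) ^ 2 * (Cb * p ^ (-(k0 : ℝ) + δ / 4))) +
        (W.card : ℝ) ^ 2 * p ^ (2 - (k0 : ℝ) - δ)) ≤
        Cm * (Cb + 1) * ((W.card : ℝ) ^ 2 * p ^ (2 - (k0 : ℝ) - δ / 2)) := by
      calc _ = Cm * ((W.card : ℝ) ^ 2 * (Cb * (p ^ (2 - δ) * p ^ (-(k0 : ℝ) + δ / 4)) + p ^ (2 - (k0 : ℝ) - δ))) := by
            ring
        _ ≤ Cm * ((W.card : ℝ) ^ 2 * (Cb * p ^ (2 - (k0 : ℝ) - δ / 2) + p ^ (2 - (k0 : ℝ) - δ / 2))) := by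
            rw [hmul]
            have h6 : p ^ (2 - (k0 : ℝ) - δ) ≤ p ^ (2 - (k0 : ℝ) - δ / 2) := hle _ _ (by linarith)
            have h7 : p ^ (2 - δ + (-(k0 : ℝ) + δ / 4)) ≤ p ^ (2 - (k0 : ℝ) - δ / 2) := hle _ _ (by linarith)
            gcongr
        _ = _ := by ring
    have h6 : (c3 / 2 * (W.card * p ^ (1 - (k0 : ℝ)))) ^ 2 = (c3 / 2) ^ 2 * ((W.card : ℝ) ^ 2 *
        (p ^ (1 - (k0 : ℝ)) * p ^ (1 - (k0 : ℝ)))) := by ring
    rw [h6, hmul] at h4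
    have h7 : (J'.card : ℝ) * ((c3 / 2) ^ 2 * ((W.card : ℝ) ^ 2 * p ^ (1 - (k0 : ℝ) + (1 - (k0 : ℝ))))) ≤
        Cm * (Cb + 1) * ((W.card : ℝ) ^ 2 * p ^ (2 - (k0 : ℝ) - δ / 2)) := h4.trans h5
    have h8 : p ^ (2 - (k0 : ℝ) - δ / 2) = p ^ ((k0 : ℝ) - δ / 2) * p ^ (1 - (k0 : ℝ) + (1 - (k0 : ℝ))) := by
      rw [hmul]
      congr 1
      ring
    rw [h8] at h7
    have h9 : 0 < (W.card : ℝ) ^ 2 * p ^ (1 - (k0 : ℝ) + (1 - (k0 : ℝ))) := by positivity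
    have h10 : (J'.card : ℝ) * (c3 / 2) ^ 2 ≤ Cm * (Cb + 1) * p ^ ((k0 : ℝ) - δ / 2) := by
      apply le_of_mul_le_mul_right _ h9
      calc _ = (J'.card : ℝ) * ((c3 / 2) ^ 2 * ((W.card : ℝ) ^ 2 * p ^ (1 - (k0 : ℝ) + (1 - (k0 : ℝ))))) := by ring
        _ ≤ _ := h7
        _ = _ := by ring
    rw [div_mul_eq_mul_div, le_div_iff₀ (by positivity)]
    exact h10

end Pool.Agent.U914.WP
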