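import Mathlib
import Pool.Agent.U914.WP.KE

/-! Almost all polynomials in Waring's problem: mixed degrees, the theorem. -/

set_option autoImplicit false

open Finset MeasureTheory

namespace Pool.Agent.U914.WP

/-- `n` has at least `L` representations -/
def RepM (t : ℕ) (g0 : ℕ → ℤ) (g : Fin t → ℕ → ℤ) (L : ℝ) (n : ℕ) : Prop :=
  ∃ S : Finset ((Fin t → ℕ) × ℕ), L ≤ S.card ∧
    ∀ q ∈ S, (∀ i, 0 < q.1 i) ∧ 0 < q.2 ∧ ∑ i, g i (q.1 i) + g0 q.2 = (n : ℤ)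

theorem rep_of_RW (t : ℕ) (k : Fin t → ℕ) (a : Fin t → ℝ) (η N : ℝ) (g0 : ℕ → ℤ) (g : Fin t → ℕ → ℤ) (P n : ℕ) (L : ℝ)
    (h : L ≤ RW (WM t k a η N) (wM t g) P g0 n) : RepM t g0 g L n := by
  refine ⟨(WM t k a η N ×ˢ Ioc 0 P).filter fun q => wM t g q.1 + g0 q.2 = (n : ℤ), h, ?_⟩
  intro q hq
  rw [mem_filter, mem_product] at hq
  obtain ⟨⟨h1, h2⟩, h3⟩ := hq
  unfold WM at h1
  rw [Fintype.mem_piFinset] at h1
  exact ⟨fun i => (mem_Ioc.1 (h1 i)).1, (mem_Ioc.1 h2).1, h3⟩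

/-- the scale of `n`, one step up -/
theorem scale_up (k : ℕ) (hk : 2 ≤ k) (a : ℝ) (ha : 0 < a) (μ : ℕ) (n : ℕ)
    (h1 : a * (((2 ^ μ : ℕ) : ℝ) / 2) ^ k ≤ 2 * n) (h2 : 2 * (n : ℝ) ≤ a * ((2 ^ μ : ℕ) : ℝ) ^ k) :
    a / (2 * 4 ^ k) * ((2 ^ (μ + 1) : ℕ) : ℝ) ^ (k : ℝ) ≤ n ∧ (n : ℝ) ≤ a / 8 * ((2 ^ (μ + 1) : ℕ) : ℝ) ^ (k : ℝ) := by
  set q : ℝ := ((2 ^ μ : ℕ) : ℝ) with hq
  have hq0 : 0 < q := by positivity
  have e1 : ((2 ^ (μ + 1) : ℕ) : ℝ) = 2 * q := by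
    rw [hq]
    push_cast
    ring
  rw [e1, Real.rpow_natCast, mul_pow]
  have e4 : (4 : ℝ) ^ k = 2 ^ k * 2 ^ k := by
    rw [← mul_pow]
    norm_num
  have h2k : (4 : ℝ) ≤ 2 ^ k := by
    calc (4 : ℝ) = 2 ^ 2 := by norm_num
      _ ≤ 2 ^ k := pow_le_pow_right₀ (by norm_num) hk
  have hqk : 0 < q ^ k := by positivity
  constructor
  · rw [div_pow] at h1
    have e2 : a / (2 * 4 ^ k) * (2 ^ k * q ^ k) = a * (q ^ k / 2 ^ k) / 2 := by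
      rw [e4]
      field_simp
    rw [e2]
    linarith
  · have h3 : a * q ^ k * 4 ≤ a * q ^ k * 2 ^ k := mul_le_mul_of_nonneg_left h2k (by positivity)
    have e2 : a / 8 * (2 ^ k * q ^ k) = a * q ^ k * 2 ^ k / 8 := by ring
    rw [e2]
    linarith

/-- **Mixed degrees.** -/
theorem mixed (t : ℕ) (ht : 1 ≤ t) (k0 : ℕ) (hk0 : 2 ≤ k0) (a0 : ℝ) (ha0 : 0 < a0) (g0 : ℕ → ℤ) (δ : ℝ)
    (hδ0 : 0 < δ) (hδ1 : δ ≤ 1 / 1000) (hdom : Dom k0 g0 δ) (C1 : ℝ) (hC1 : 0 ≤ C1) (hsz0 : Sz k0 a0 g0 C1)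
    (k : Fin t → ℕ) (hk : ∀ i, 1 ≤ k i) (a : Fin t → ℝ) (ha : ∀ i, 0 < a i) (g : Fin t → ℕ → ℤ)
    (hmv : ∀ i, MVp (k i) (g i)) (C : Fin t → ℝ) (hC : ∀ i, 0 ≤ C i) (hsz : ∀ i, Sz (k i) (a i) (g i) (C i))
    (hs1 : 1 ≤ ∑ i, 1 / (k i : ℝ)) :
    ∃ c : ℝ, 0 < c ∧
      (2 ≤ ∑ i, 1 / (k i : ℝ) → ∀ᶠ n : ℕ in Filter.atTop,
        RepM t g0 g (c * (n : ℝ) ^ (1 / (k0 : ℝ) + ∑ i, 1 / (k i : ℝ) - 1)) n) ∧
      (∀ᶠ X : ℕ in Filter.atTop, ({n : ℕ | 1 ≤ n ∧ n ≤ X ∧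
        ¬ RepM t g0 g (c * (n : ℝ) ^ (1 / (k0 : ℝ) + ∑ i, 1 / (k i : ℝ) - 1)) n}.ncard : ℝ) ≤
          (X : ℝ) ^ (1 - δ / (4 * k0))) := by
  classical
  have hk0r : (2 : ℝ) ≤ k0 := by exact_mod_cast hk0
  have hk00 : (0 : ℝ) < k0 := by linarith
  obtain ⟨η, c, C3, hη, hc, hC3, hsc⟩ := mixed_scale t ht k0 hk0 a0 ha0 g0 δ hδ0 hδ1 hdom C1 hC1 hsz0 k hk a ha g hmv C hC
    hsz
  obtain ⟨ν1, hν1⟩ := Filter.eventually_atTop.1 hsc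
  set σ : ℝ := ∑ i, 1 / (k i : ℝ) with hσ
  set e : ℝ := 1 / (k0 : ℝ) + σ - 1 with he
  have he0 : 0 < e := by
    have : 0 < 1 / (k0 : ℝ) := by positivity
    linarith
  set c' : ℝ := c * c * (8 / a0) ^ e with hc'
  have hc'0 : 0 < c' := by positivity
  -- from the scale to the number of representations
  have hlow : ∀ μ : ℕ, ν1 ≤ μ + 1 → ∀ n : ℕ, (n : ℝ) ≤ a0 / 8 * ((2 ^ (μ + 1) : ℕ) : ℝ) ^ (k0 : ℝ) →
      c * ((WM t k a η (((2 ^ (μ + 1) : ℕ) : ℝ) ^ (k0 : ℝ))).card * ((2 ^ (μ + 1) : ℕ) : ℝ) ^ (1 - (k0 : ℝ))) ≤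
        RW (WM t k a η (((2 ^ (μ + 1) : ℕ) : ℝ) ^ (k0 : ℝ))) (wM t g) (2 ^ (μ + 1)) g0 n →
      RepM t g0 g (c' * (n : ℝ) ^ e) n := by
    intro μ hμ n hn hR
    obtain ⟨hs, _, _⟩ := hν1 (μ + 1) hμ
    apply rep_of_RW t k a η _ g0 g (2 ^ (μ + 1)) n
    refine le_trans ?_ hR
    set p : ℝ := ((2 ^ (μ + 1) : ℕ) : ℝ) with hp
    have hp0 : 0 < p := by positivity
    have h1 : (n : ℝ) ^ e ≤ (a0 / 8) ^ e * p ^ ((k0 : ℝ) * e) := by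
      calc (n : ℝ) ^ e ≤ (a0 / 8 * p ^ (k0 : ℝ)) ^ e := Real.rpow_le_rpow (Nat.cast_nonneg _) hn he0.le
        _ = _ := by rw [Real.mul_rpow (by positivity) (by positivity), ← Real.rpow_mul hp0.le]
    have h2 : (8 / a0) ^ e * (a0 / 8) ^ e = 1 := by
      rw [← Real.mul_rpow (by positivity) (by positivity)]
      have : 8 / a0 * (a0 / 8) = 1 := by field_simp
      rw [this, Real.one_rpow]
    have h3 : p ^ ((k0 : ℝ) * e) = p ^ ((k0 : ℝ) * σ) * p ^ (1 - (k0 : ℝ)) := by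
      rw [← Real.rpow_add hp0]
      congr 1
      rw [he]
      field_simp
      ring
    calc c' * (n : ℝ) ^ e ≤ c * c * (8 / a0) ^ e * ((a0 / 8) ^ e * p ^ ((k0 : ℝ) * e)) :=
          mul_le_mul_of_nonneg_left h1 hc'0.le
      _ = c * c * ((8 / a0) ^ e * (a0 / 8) ^ e) * p ^ ((k0 : ℝ) * e) := by ring
      _ = c * (c * p ^ ((k0 : ℝ) * σ) * p ^ (1 - (k0 : ℝ))) := by rw [h2, h3]; ring
      _ ≤ _ := by
          apply mul_le_mul_of_nonneg_left _ hc.le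
          exact mul_le_mul_of_nonneg_right hs (by positivity)
  refine ⟨c', hc'0, ?_, ?_⟩
  · intro hs2
    have hev1 : ∀ᶠ n : ℕ in Filter.atTop, a0 * (2 ^ ν1) ^ k0 ≤ (n : ℝ) :=
      tendsto_natCast_atTop_atTop.eventually_ge_atTop _
    filter_upwards [hev1] with n hn
    have hn0 : (0 : ℝ) ≤ n := Nat.cast_nonneg n
    obtain ⟨μ, hμ, hm1, hm2⟩ := scale2 k0 (by omega) a0 ha0 ν1 n (by linarith)
    obtain ⟨h1, h2⟩ := scale_up k0 hk0 a0 ha0 μ n hm1 hm2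
    obtain ⟨_, hall, _⟩ := hν1 (μ + 1) (by omega)
    exact hlow μ (by omega) n h2 (hall hs2 n h1 h2)
  · set Δ : ℕ → ℝ := fun n => if RepM t g0 g (c' * (n : ℝ) ^ e) n then 0 else 1 with hΔ
    have hΔ0 : ∀ n, 0 ≤ Δ n := by
      intro n
      rw [hΔ]
      simp only
      split_ifs <;> norm_num
    have hE : 0 < (k0 : ℝ) - δ / 2 := by linarith
    have hdy := dy_sum k0 hk0 a0 ha0 ((k0 : ℝ) - δ / 2) (δ / (4 * k0)) hE (by positivity) Δ hΔ0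
      (C3 * 2 ^ ((k0 : ℝ) - δ / 2)) (by positivity) ν1 (by
        intro μ hμ J hJ
        obtain ⟨_, _, haa⟩ := hν1 (μ + 1) (by omega)
        have hJ' : ∀ n ∈ J, a0 / (2 * 4 ^ k0) * ((2 ^ (μ + 1) : ℕ) : ℝ) ^ (k0 : ℝ) ≤ n ∧
            (n : ℝ) ≤ a0 / 8 * ((2 ^ (μ + 1) : ℕ) : ℝ) ^ (k0 : ℝ) := fun n hn =>
          scale_up k0 hk0 a0 ha0 μ n (hJ n hn).1 (hJ n hn).2
        have h1 := haa hs1 J hJ'
        have h2 : ∑ n ∈ J, Δ n ≤ ((J.filter fun n : ℕ =>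
            RW (WM t k a η (((2 ^ (μ + 1) : ℕ) : ℝ) ^ (k0 : ℝ))) (wM t g) (2 ^ (μ + 1)) g0 n <
            c * ((WM t k a η (((2 ^ (μ + 1) : ℕ) : ℝ) ^ (k0 : ℝ))).card *
              ((2 ^ (μ + 1) : ℕ) : ℝ) ^ (1 - (k0 : ℝ)))).card : ℝ) := by
          rw [card_filter, Nat.cast_sum]
          apply sum_le_sum
          intro n hn
          rw [hΔ]
          simp only
          split_ifs with h3 h4 h4
          · norm_num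
          · norm_num
          · norm_num
          · exfalso
            apply h3
            apply hlow μ (by omega) n (hJ' n hn).2
            push Not at h4
            exact h4
        refine h2.trans (h1.trans (le_of_eq ?_))
        have e1 : ((2 ^ (μ + 1) : ℕ) : ℝ) = 2 * ((2 ^ μ : ℕ) : ℝ) := by
          push_cast
          ring
        rw [e1, Real.mul_rpow (by norm_num) (Nat.cast_nonneg _), mul_assoc])
    filter_upwards [hdy] with X hX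
    have e1 : {n : ℕ | 1 ≤ n ∧ n ≤ X ∧ ¬ RepM t g0 g (c' * (n : ℝ) ^ e) n} =
        (((Icc 1 X).filter fun n : ℕ => ¬ RepM t g0 g (c' * (n : ℝ) ^ e) n : Finset ℕ) : Set ℕ) := by
      ext n
      simp only [coe_filter, mem_Icc, Set.mem_ofPred_eq]
      tauto
    rw [e1, Set.ncard_coe_finset, card_filter]
    push_cast
    have e2 : ∑ n ∈ Icc 1 X, (if ¬ RepM t g0 g (c' * (n : ℝ) ^ e) n then (1 : ℝ) else 0) = ∑ n ∈ Icc 1 X, Δ n := by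
      apply sum_congr rfl
      intro n _
      rw [hΔ]
      simp only
      split_ifs <;> rfl
    rw [e2]
    refine hX.trans (le_of_eq ?_)
    congr 1
    field_simp
    ring

/-- **Polynomials of all degrees.** -/
theorem mixed_poly (A : ℕ → ℝ) (hA : ∀ k, 0 < A k) : ∃ Ω : (k : ℕ) → Set (Fin (k - 1) → ℝ),
    (∀ k, 2 ≤ k → ∀ᵐ θ : Fin (k - 1) → ℝ, θ ∈ Ω k) ∧
    ∀ θ : (k : ℕ) → (Fin (k - 1) → ℝ), (∀ k, 2 ≤ k → θ k ∈ Ω k) →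
    ∀ (t k0 : ℕ) (k : Fin t → ℕ), 2 ≤ k0 → (∀ i, 2 ≤ k i) → 1 ≤ ∑ i, 1 / (k i : ℝ) →
      ∃ c τ : ℝ, 0 < c ∧ 0 < τ ∧
      (2 ≤ ∑ i, 1 / (k i : ℝ) → ∀ᶠ n : ℕ in Filter.atTop,
        RepM t (fun x => ⌊A k0 * (x : ℝ) ^ k0 + ∑ j : Fin (k0 - 1), θ k0 j * (x : ℝ) ^ ((j : ℕ) + 1)⌋)
          (fun i x => ⌊A (k i) * (x : ℝ) ^ k i + ∑ j : Fin (k i - 1), θ (k i) j * (x : ℝ) ^ ((j : ℕ) + 1)⌋)
          (c * (n : ℝ) ^ (1 / (k0 : ℝ) + ∑ i, 1 / (k i : ℝ) - 1)) n) ∧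
      (∀ᶠ X : ℕ in Filter.atTop, ({n : ℕ | 1 ≤ n ∧ n ≤ X ∧
        ¬ RepM t (fun x => ⌊A k0 * (x : ℝ) ^ k0 + ∑ j : Fin (k0 - 1), θ k0 j * (x : ℝ) ^ ((j : ℕ) + 1)⌋)
          (fun i x => ⌊A (k i) * (x : ℝ) ^ k i + ∑ j : Fin (k i - 1), θ (k i) j * (x : ℝ) ^ ((j : ℕ) + 1)⌋)
          (c * (n : ℝ) ^ (1 / (k0 : ℝ) + ∑ i, 1 / (k i : ℝ) - 1)) n}.ncard : ℝ) ≤ (X : ℝ) ^ (1 - τ)) := by
  set G : (k : ℕ) → (Fin (k - 1) → ℝ) → ℕ → ℤ := fun k θ x =>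
    ⌊A k * (x : ℝ) ^ k + ∑ j : Fin (k - 1), θ j * (x : ℝ) ^ ((j : ℕ) + 1)⌋ with hG
  refine ⟨fun k => {θ | ∃ δ : ℝ, 0 < δ ∧ δ ≤ 1 / 1000 ∧ Dom k (G k θ) δ ∧ MVp k (G k θ) ∧
    Sz k (A k) (G k θ) (∑ j, |θ j| + 1)}, ?_, ?_⟩
  · intro k hk
    obtain ⟨d, rfl⟩ : ∃ d, k = d + 1 := ⟨k - 1, by omega⟩
    obtain ⟨δ, hδ0, hδ1, hdom⟩ := dom_ae d (by omega) (A (d + 1)) (hA _)
    have hmv := mv_ae d (A (d + 1)) (hA _)
    filter_upwards [hdom, hmv] with θ h1 h2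
    exact ⟨δ, hδ0, hδ1, h1, h2, sz_fl d (A (d + 1)) θ⟩
  · intro θ hθ t k0 k hk0 hk hs1
    have ht : 1 ≤ t := by
      by_contra hcon
      have : t = 0 := by omega
      subst this
      simp at hs1
      linarith
    obtain ⟨δ, hδ0, hδ1, hdom, _, hsz0⟩ := hθ k0 hk0
    obtain ⟨c, hc, h1, h2⟩ := mixed t ht k0 hk0 (A k0) (hA k0) (G k0 (θ k0)) δ hδ0 hδ1 hdom _ (by positivity) hsz0 k
      (fun i => by have := hk i; omega) (fun i => A (k i)) (fun i => hA _) (fun i => G (k i) (θ (k i)))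
      (fun i => by
        obtain ⟨_, _, _, _, h, _⟩ := hθ (k i) (hk i)
        exact h) (fun i => ∑ j, |θ (k i) j| + 1) (fun i => by positivity) (fun i => by
        obtain ⟨_, _, _, _, _, h⟩ := hθ (k i) (hk i)
        exact h) hs1
    have hk00 : (0 : ℝ) < k0 := by
      have : 0 < k0 := by omega
      exact_mod_cast this
    exact ⟨c, δ / (4 * k0), hc, by positivity, h1, h2⟩

end Pool.Agent.U914.WP
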