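import Mathlib
import Pool.Agent.U914.WP.KF
import Pool.Agent.U914.WP.HD

/-! Almost all polynomials in Waring's problem: `k` variables from arbitrary sets and one full variable, in mean
square. -/

set_option autoImplicit false

open Finset MeasureTheory

namespace Pool.Agent.U914.WP

/-- the number of representations, all variables but one from given finite sets -/
noncomputable def rC (s : ℕ) (g : ℕ → ℤ) (B : Fin s → Finset ℕ) (n : ℕ) : ℕ :=
  {q : (Fin s → ℕ) × ℕ | (∀ i, q.1 i ∈ B i) ∧ 0 < q.2 ∧ ∑ i, g (q.1 i) + g q.2 = (n : ℤ)}.ncard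

/-- the sum of the variables from the sets -/
def wC (s : ℕ) (g : ℕ → ℤ) (b : Fin s → ℕ) : ℤ := ∑ i, g (b i)

theorem rC_eq (s d : ℕ) (a : ℝ) (ha : 0 < a) (θ : Fin d → ℝ) (K : ℝ) (hK : 0 < K) : ∀ᶠ N : ℝ in Filter.atTop, ∀ n P : ℕ,
    (n : ℝ) ≤ K * N → 2 * (K * N) ≤ a * (P : ℝ) ^ (d + 1) → ∀ B : Fin s → Finset ℕ,
    (rC s (fl d a θ) B n : ℝ) = RW (Fintype.piFinset B) (wC s (fl d a θ)) P (fl d a θ) n := by
  obtain ⟨B0, hB0, hg⟩ := pf_growth d a ha θ (1 / 4) (by norm_num)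
  have hev : ∀ᶠ N : ℝ in Filter.atTop, 2 * ((s + 1) * (B0 + 1)) ≤ K * N :=
    (Filter.tendsto_id.const_mul_atTop hK).eventually_ge_atTop _
  filter_upwards [hev] with N hN n P hn hP B
  unfold rC RW
  norm_cast
  rw [← Set.ncard_coe_finset]
  congr 1
  ext ⟨b, x⟩
  simp only [coe_filter, mem_product, Fintype.mem_piFinset, mem_Ioc, Set.mem_ofPred_eq]
  unfold wC
  constructor
  · rintro ⟨h1, h2, h3⟩
    refine ⟨⟨h1, h2, ?_⟩, h3⟩
    have h4 : ∀ j, -(B0 + 1) ≤ (fl d a θ (b j) : ℝ) := by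
      intro j
      have h5 := hg (b j)
      have h6 := (Int.lt_floor_add_one (pf d a θ (b j))).le
      have h7 : 0 ≤ (1 - 1 / 4) * a * (b j : ℝ) ^ (d + 1) := by
        have : 0 ≤ a * (b j : ℝ) ^ (d + 1) := by positivity
        linarith
      unfold fl
      linarith
    have h5 : -((s : ℝ) * (B0 + 1)) ≤ ∑ j, (fl d a θ (b j) : ℝ) := by
      calc -((s : ℝ) * (B0 + 1)) = ∑ _j : Fin s, -(B0 + 1) := by
            rw [sum_const, card_univ, Fintype.card_fin, nsmul_eq_mul]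
            ring
        _ ≤ _ := sum_le_sum fun j _ => h4 j
    have h6 : ∑ j, (fl d a θ (b j) : ℝ) + (fl d a θ x : ℝ) = n := by exact_mod_cast h3
    have h7 := hg x
    have h8 : pf d a θ x ≤ (fl d a θ x : ℝ) + 1 := (Int.lt_floor_add_one (pf d a θ x)).le
    have h9 : a * (x : ℝ) ^ (d + 1) ≤ a * (P : ℝ) ^ (d + 1) := by linarith
    have h10 := le_of_pow_le_pow_left₀ (by omega : d + 1 ≠ 0) (Nat.cast_nonneg _) (le_of_mul_le_mul_left h9 ha)
    exact_mod_cast h10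
  · rintro ⟨⟨h1, h2, _⟩, h3⟩
    exact ⟨h1, h2, h3⟩

/-- the scale of a real number -/
theorem scale_real (k : ℕ) (hk : 2 ≤ k) (a : ℝ) (ha : 0 < a) (K : ℝ) (hK : 0 < K) (ν1 : ℕ) :
    ∀ᶠ N : ℝ in Filter.atTop, ∃ ν : ℕ, ν1 ≤ ν ∧
      a * (((2 ^ ν : ℕ) : ℝ) / 2) ^ k ≤ 2 * (K * N) ∧ 2 * (K * N) ≤ a * ((2 ^ ν : ℕ) : ℝ) ^ k := by
  have hev : ∀ᶠ N : ℝ in Filter.atTop, a * (2 ^ ν1) ^ k ≤ 2 * (K * N) := by
    have h1 : Filter.Tendsto (fun N : ℝ => 2 * (K * N)) Filter.atTop Filter.atTop :=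
      (Filter.tendsto_id.const_mul_atTop hK).const_mul_atTop (by norm_num)
    exact h1.eventually_ge_atTop _
  filter_upwards [hev] with N hN
  exact scale2 k (by omega) a ha ν1 (K * N) hN

/-- the mean square of a product over sets -/
theorem mv_sets (k : ℕ) (hk : 1 ≤ k) (g : ℕ → ℤ) (P : ℕ) (M : ℝ) (hM : 0 ≤ M)
    (hmv : ∫⁻ α in Set.Icc (-(1 / 2) : ℝ) (1 / 2), ENNReal.ofReal (‖FW (Ioc 0 P) g α‖ ^ (2 * k)) ≤ ENNReal.ofReal M)
    (B : Fin k → Finset ℕ) (hB : ∀ i, B i ⊆ Ioc 0 P) :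
    ∫⁻ α in Set.Icc (-(1 / 2) : ℝ) (1 / 2), ENNReal.ofReal (‖FW (Fintype.piFinset B) (wC k g) α‖ ^ 2) ≤
      ENNReal.ofReal (k * M) := by
  have hpt : ∀ α : ℝ, ‖FW (Fintype.piFinset B) (wC k g) α‖ ^ 2 ≤ ∑ i, ‖FW (B i) g α‖ ^ (2 * k) := by
    intro α
    have h1 : FW (Fintype.piFinset B) (wC k g) α = ∏ i, FW (B i) g α := (FW_prod B (fun _ => g) α).symm
    rw [h1, norm_prod, ← prod_pow]
    refine (prod_le_sum_pow k hk (fun i => ‖FW (B i) g α‖ ^ 2) fun i => by positivity).trans (le_of_eq ?_)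
    apply sum_congr rfl
    intro i _
    rw [← pow_mul]
  have hm : ∀ i, Measurable fun α : ℝ => ENNReal.ofReal (‖FW (B i) g α‖ ^ (2 * k)) := fun i =>
    (ENNReal.continuous_ofReal.comp ((FW_cont _ _).norm.pow _)).measurable
  calc _ ≤ ∫⁻ α in Set.Icc (-(1 / 2) : ℝ) (1 / 2), ENNReal.ofReal (∑ i, ‖FW (B i) g α‖ ^ (2 * k)) :=
        lintegral_mono fun α => ENNReal.ofReal_le_ofReal (hpt α)
    _ = ∑ i, ∫⁻ α in Set.Icc (-(1 / 2) : ℝ) (1 / 2), ENNReal.ofReal (‖FW (B i) g α‖ ^ (2 * k)) := by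
        rw [← lintegral_finsetSum _ fun i _ => hm i]
        apply lintegral_congr
        intro α
        rw [ENNReal.ofReal_sum_of_nonneg fun i _ => by positivity]
    _ ≤ ∑ _i : Fin k, ENNReal.ofReal M := sum_le_sum fun i _ => (FW_mono k g _ _ (hB i)).trans hmv
    _ = _ := by
        rw [sum_const, card_univ, Fintype.card_fin, nsmul_eq_mul, ENNReal.ofReal_mul (Nat.cast_nonneg _),
          ENNReal.ofReal_natCast]

/-- sums over the sets are small -/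
theorem wC_size (s k : ℕ) (hk : 2 ≤ k) (a : ℝ) (ha : 0 < a) (g : ℕ → ℤ) (C : ℝ) (hC : 0 ≤ C) (hsz : Sz k a g C)
    (ε : ℝ) (hε : 0 < ε) : ∀ᶠ N : ℝ in Filter.atTop, ∀ b : Fin s → ℕ, (∀ i, 0 < b i ∧ a * (b i : ℝ) ^ k ≤ N) →
      |(wC s g b : ℝ) - ∑ i, a * (b i : ℝ) ^ k| ≤ ε * N := by
  have hk0 : (0 : ℝ) < k := by
    have : 0 < k := by omega
    exact_mod_cast this
  have hkr : (2 : ℝ) ≤ k := by exact_mod_cast hk
  set X : ℝ → ℝ := fun N => (N / a) ^ ((k : ℝ)⁻¹) with hX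
  have ht : Filter.Tendsto X Filter.atTop Filter.atTop :=
    (tendsto_rpow_atTop (by positivity : (0 : ℝ) < (k : ℝ)⁻¹)).comp (Filter.tendsto_id.atTop_div_const ha)
  filter_upwards [ht.eventually_ge_atTop 1, ht.eventually_ge_atTop (s * C / (ε * a)), Filter.eventually_gt_atTop 0] with N
    h1 h2 hN0 b hb
  have hX0 : 0 < X N := by linarith
  have hXk : X N ^ k = N / a := Real.rpow_inv_natCast_pow (by positivity) (by omega)
  set Y : ℕ := ⌊X N⌋₊ with hY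
  have hYX : (Y : ℝ) ≤ X N := Nat.floor_le hX0.le
  have hbY : ∀ i, b i ≤ Y := by
    intro i
    apply Nat.le_floor
    apply le_of_pow_le_pow_left₀ (by omega : k ≠ 0) hX0.le
    rw [hXk, le_div_iff₀ ha]
    linarith [(hb i).2]
  have h3 : (wC s g b : ℝ) - ∑ i, a * (b i : ℝ) ^ k = ∑ i, ((g (b i) : ℝ) - a * (b i : ℝ) ^ k) := by
    unfold wC
    push_cast
    rw [sum_sub_distrib]
  rw [h3]
  calc |∑ i, ((g (b i) : ℝ) - a * (b i : ℝ) ^ k)| ≤ ∑ i, |(g (b i) : ℝ) - a * (b i : ℝ) ^ k| := abs_sum_le_sum_abs _ _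
    _ ≤ ∑ _i : Fin s, C * X N ^ (k - 1) := by
        apply sum_le_sum
        intro i _
        refine (hsz Y (b i) (hb i).1 (hbY i)).trans ?_
        exact mul_le_mul_of_nonneg_left (pow_le_pow_left₀ (Nat.cast_nonneg _) hYX _) hC
    _ = s * C * X N ^ (k - 1) := by
        rw [sum_const, card_univ, Fintype.card_fin, nsmul_eq_mul]
        ring
    _ ≤ ε * a * X N * X N ^ (k - 1) := by
        apply mul_le_mul_of_nonneg_right _ (by positivity)
        rw [div_le_iff₀ (by positivity)] at h2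
        linarith
    _ = ε * (a * X N ^ k) := by
        have e1 : X N ^ k = X N * X N ^ (k - 1) := by
          have : k = (k - 1) + 1 := by omega
          nth_rewrite 1 [this]
          rw [pow_succ]
          ring
        rw [e1]
        ring
    _ = ε * N := by
        rw [hXk]
        field_simp

/-- **The mean square asymptotic formula relative to sets.** -/
theorem rel_ms (d : ℕ) (hd : 1 ≤ d) (a : ℝ) (ha : 0 < a) (δ : ℝ) (hδ0 : 0 < δ) (hδ1 : δ ≤ 1 / 1000) (θ : Fin d → ℝ)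
    (hdom : Dom (d + 1) (fl d a θ) δ) (hmv : MVp (d + 1) (fl d a θ)) :
    ∀ᶠ N : ℝ in Filter.atTop, ∀ J : Finset ℕ, (∀ n ∈ J, N ≤ n ∧ (n : ℝ) ≤ 2 ^ (d + 1) * N) →
      ∀ B : Fin (d + 1) → Finset ℕ, (∀ i, ∀ b ∈ B i, 0 < b ∧ 4 * ((d + 1 : ℕ) : ℝ) * (a * (b : ℝ) ^ (d + 1)) ≤ N) →
      ∑ n ∈ J, ((rC (d + 1) (fl d a θ) B n : ℝ) -
        ∑ b ∈ Fintype.piFinset B, rh (d + 1) a ((n : ℝ) - ∑ i, (fl d a θ (b i) : ℝ))) ^ 2 ≤
        N ^ (1 + 2 / ((d + 1 : ℕ) : ℝ) - δ / (4 * ((d + 1 : ℕ) : ℝ))) := by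
  set k : ℕ := d + 1 with hk
  have hk2 : 2 ≤ k := by omega
  have hk2r : (2 : ℝ) ≤ k := by exact_mod_cast hk2
  have hk0 : (0 : ℝ) < k := by linarith
  set g : ℕ → ℤ := fl d a θ with hg
  have hsz : Sz k a g (∑ j, |θ j| + 1) := sz_fl d a θ
  have hC1 : 0 ≤ ∑ j, |θ j| + 1 := by positivity
  set K : ℝ := 2 * 2 ^ k with hK
  have hK0 : 0 < K := by positivity
  have hKr : (1 : ℝ) ≤ 2 ^ k := one_le_pow₀ (by norm_num)
  set c0 : ℝ := a / (4 * K * 2 ^ k) with hc0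
  have hc00 : 0 < c0 := by positivity
  obtain ⟨Cm, hCm, hmach⟩ := machine k hk2 a ha g δ hδ0 hδ1 hdom _ hC1 hsz c0 hc00
  obtain ⟨ν1, hν1⟩ := Filter.eventually_atTop.1 (hmach.and (hmv (δ / 2) (by positivity)))
  set c5 : ℝ := 2 * (2 * K / a) ^ ((k : ℝ)⁻¹) with hc5
  have hc50 : 0 < c5 := by positivity
  set E : ℝ := (k : ℝ) + 2 - δ / 2 with hE
  have hE0 : 0 < E := by linarith
  have hev1 : ∀ᶠ N : ℝ in Filter.atTop, N ^ (-(δ / (4 * k))) ≤ 1 / (Cm * (k + 1) * c5 ^ E) :=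
    (tendsto_rpow_neg_atTop (by positivity : (0 : ℝ) < δ / (4 * k))).eventually_le_const (by positivity)
  filter_upwards [scale_real k hk2 a ha K hK0 ν1,
    rC_eq k d a ha θ K hK0, wC_size k k hk2 a ha g _ hC1 hsz (1 / 4) (by norm_num), hev1,
    Filter.eventually_gt_atTop 0] with N hsc hrC hwC hev1 hN0
  intro J hJ B hB
  obtain ⟨ν, hν, hs1, hs2⟩ := hsc
  obtain ⟨hm, hmv'⟩ := hν1 ν hν
  set p : ℝ := ((2 ^ ν : ℕ) : ℝ) with hp
  have hp0 : 0 < p := by positivity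
  have hp1 : 1 ≤ p := by rw [hp]; exact_mod_cast Nat.one_le_two_pow
  have hmul : ∀ x y : ℝ, p ^ x * p ^ y = p ^ (x + y) := fun x y => (Real.rpow_add hp0 x y).symm
  have hBP : ∀ i, B i ⊆ Ioc 0 (2 ^ ν) := by
    intro i b hb
    obtain ⟨hb1, hb2⟩ := hB i b hb
    rw [mem_Ioc]
    refine ⟨hb1, ?_⟩
    have h4 : a * (b : ℝ) ^ k ≤ a * p ^ k := by
      have h5 : 0 ≤ a * (b : ℝ) ^ k := by positivity
      have h6 : N ≤ K * N := by
        have : 1 ≤ K := by rw [hK]; linarith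
        nlinarith
      nlinarith
    have h5 : (b : ℝ) ≤ ((2 ^ ν : ℕ) : ℝ) :=
      le_of_pow_le_pow_left₀ (by omega : k ≠ 0) hp0.le (le_of_mul_le_mul_left h4 ha)
    exact_mod_cast h5
  set W : Finset (Fin k → ℕ) := Fintype.piFinset B with hW
  have hw : ∀ b ∈ W, |(wC k g b : ℝ)| ≤ N / 2 := by
    intro b hb
    rw [hW, Fintype.mem_piFinset] at hb
    have h1 := hwC b (fun i => by
      obtain ⟨h2, h3⟩ := hB i _ (hb i)
      refine ⟨h2, ?_⟩
      have h4 : 0 ≤ a * (b i : ℝ) ^ k := by positivity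
      nlinarith)
    have h2 : ∑ i, a * (b i : ℝ) ^ k ≤ N / 4 := by
      calc ∑ i, a * (b i : ℝ) ^ k ≤ ∑ _i : Fin k, N / (4 * k) := by
            apply sum_le_sum
            intro i _
            rw [le_div_iff₀ (by positivity)]
            have := (hB i _ (hb i)).2
            linarith
        _ = _ := by
            rw [sum_const, card_univ, Fintype.card_fin, nsmul_eq_mul]
            field_simp
    have h3 : 0 ≤ ∑ i, a * (b i : ℝ) ^ k := by positivity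
    rw [abs_le] at h1 ⊢
    constructor <;> linarith [h1.1, h1.2]
  have hKcard := mv_sets k (by omega) g (2 ^ ν) (p ^ ((k : ℝ) + δ / 2)) (by positivity) hmv' B hBP
  have hcardW : (W.card : ℝ) ≤ p ^ (k : ℝ) := by
    have h1 := card_pi_le k (2 ^ ν) B hBP
    rwa [← Real.rpow_natCast] at h1
  obtain ⟨_, hm2⟩ := hm (Fin k → ℕ) W (wC k g)
  have hlow : c0 * p ^ k ≤ N / 2 := by
    have e1 : a * (p / 2) ^ k = 2 * K * (2 * (c0 * p ^ k)) := by
      rw [hc0, div_pow]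
      field_simp
      norm_num
    rw [e1] at hs1
    have h2 : 2 * K * (2 * (c0 * p ^ k)) ≤ 2 * K * N := by linarith
    have h3 := le_of_mul_le_mul_left h2 (by positivity)
    linarith
  have hrange : ∀ n ∈ J, ∀ b ∈ W, c0 * p ^ k ≤ (((n : ℕ) : ℤ) : ℝ) - wC k g b ∧
      (((n : ℕ) : ℤ) : ℝ) - wC k g b ≤ a * p ^ k / 2 := by
    intro n hn b hb
    obtain ⟨h1, h2⟩ := hJ n hn
    have h3 := abs_le.1 (hw b hb)
    rw [Int.cast_natCast]
    have h4 : K * N = 2 * (2 ^ k * N) := by rw [hK]; ring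
    have h5 : N ≤ 2 ^ k * N := by nlinarith
    constructor <;> linarith [h3.1, h3.2]
  have h1 := hm2 (J.map Nat.castEmbedding) (by
    intro m hm
    rw [mem_map] at hm
    obtain ⟨n, hn, rfl⟩ := hm
    exact hrange n hn) _ (by positivity) hKcard
  rw [sum_map] at h1
  have h2 : ∑ n ∈ J, ((rC k g B n : ℝ) - ∑ b ∈ W, rh k a ((n : ℝ) - ∑ i, (g (b i) : ℝ))) ^ 2 =
      ∑ n ∈ J, (RW W (wC k g) (2 ^ ν) g (Nat.castEmbedding n) -
        ∑ b ∈ W, rh k a (((Nat.castEmbedding n : ℤ) : ℝ) - (wC k g b : ℝ))) ^ 2 := by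
    apply sum_congr rfl
    intro n hn
    obtain ⟨h3, h4⟩ := hJ n hn
    have h5 : (n : ℝ) ≤ K * N := by
      have h6 : K * N = 2 * (2 ^ k * N) := by rw [hK]; ring
      have h7 : 0 ≤ 2 ^ k * N := by positivity
      linarith
    have h6 : ((Nat.castEmbedding n : ℤ)) = ((n : ℕ) : ℤ) := rfl
    rw [h6]
    congr 2
    · exact hrC n (2 ^ ν) h5 hs2 B
    · apply sum_congr rfl
      intro b _
      unfold wC
      push_cast
      rfl
  rw [h2]
  refine h1.trans ?_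
  have hpn : p ≤ c5 * N ^ ((k : ℝ)⁻¹) := by
    have h1 : (p / 2) ^ k ≤ 2 * (K * N) / a := by
      rw [le_div_iff₀ ha, mul_comm]
      exact hs1
    have h2 := Real.rpow_le_rpow (by positivity) h1 (by positivity : (0 : ℝ) ≤ (k : ℝ)⁻¹)
    rw [Real.pow_rpow_inv_natCast (by positivity) (by omega)] at h2
    have h3 : 2 * (K * N) / a = 2 * K / a * N := by ring
    rw [h3, Real.mul_rpow (by positivity) hN0.le] at h2
    rw [hc5]
    linarith
  calc Cm * (p ^ (2 - δ) * (k * p ^ ((k : ℝ) + δ / 2)) + (W.card : ℝ) ^ 2 * p ^ (2 - (k : ℝ) - δ)) ≤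
        Cm * (k * (p ^ (2 - δ) * p ^ ((k : ℝ) + δ / 2)) + (p ^ (k : ℝ)) ^ 2 * p ^ (2 - (k : ℝ) - δ)) := by
        apply mul_le_mul_of_nonneg_left _ hCm.le
        apply add_le_add (le_of_eq (by ring))
        exact mul_le_mul_of_nonneg_right (pow_le_pow_left₀ (Nat.cast_nonneg _) hcardW 2) (by positivity)
    _ ≤ Cm * (k * p ^ E + p ^ E) := by
        apply mul_le_mul_of_nonneg_left _ hCm.le
        apply add_le_add
        · apply mul_le_mul_of_nonneg_left _ hk0.le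
          rw [hmul]
          exact Real.rpow_le_rpow_of_exponent_le hp1 (by rw [hE]; linarith)
        · rw [sq, hmul, hmul]
          exact Real.rpow_le_rpow_of_exponent_le hp1 (by rw [hE]; linarith)
    _ = Cm * (k + 1) * p ^ E := by ring
    _ ≤ Cm * (k + 1) * (c5 ^ E * N ^ (E / k)) := by
        apply mul_le_mul_of_nonneg_left _ (by positivity)
        calc p ^ E ≤ (c5 * N ^ ((k : ℝ)⁻¹)) ^ E := Real.rpow_le_rpow hp0.le hpn hE0.le
          _ = _ := by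
              rw [Real.mul_rpow hc50.le (by positivity), ← Real.rpow_mul hN0.le]
              congr 2
              field_simp
    _ = Cm * (k + 1) * c5 ^ E * N ^ (-(δ / (4 * k))) * N ^ (1 + 2 / (k : ℝ) - δ / (4 * k)) := by
        rw [mul_assoc (Cm * (k + 1) * c5 ^ E), ← Real.rpow_add hN0, mul_assoc (Cm * (k + 1))]
        congr 3
        rw [hE]
        field_simp
        ring
    _ ≤ Cm * (k + 1) * c5 ^ E * (1 / (Cm * (k + 1) * c5 ^ E)) * N ^ (1 + 2 / (k : ℝ) - δ / (4 * k)) := by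
        apply mul_le_mul_of_nonneg_right _ (by positivity)
        exact mul_le_mul_of_nonneg_left hev1 (by positivity)
    _ = _ := by rw [mul_one_div_cancel (by positivity), one_mul]

end Pool.Agent.U914.WP
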