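import Mathlib
import Pool.Agent.U914.WP.KG

/-! Almost all polynomials in Waring's problem: almost equal summands. -/

set_option autoImplicit false

open Finset MeasureTheory

namespace Pool.Agent.U914.WP

/-- the integers near `X` -/
noncomputable def Bn (X y : ℝ) : Finset ℕ := Icc ⌈X - y⌉₊ ⌊X + y⌋₊

theorem mem_Bn (X y : ℝ) (hy : 0 ≤ X + y) (b : ℕ) : b ∈ Bn X y ↔ |(b : ℝ) - X| ≤ y := by
  unfold Bn
  rw [mem_Icc, Nat.ceil_le, Nat.le_floor_iff hy, abs_le]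
  constructor
  · rintro ⟨h1, h2⟩
    constructor <;> linarith
  · rintro ⟨h1, h2⟩
    constructor <;> linarith

theorem card_Bn (X y : ℝ) (hy : 1 ≤ y) (hX : y ≤ X) : y ≤ ((Bn X y).card : ℝ) ∧ ((Bn X y).card : ℝ) ≤ 3 * y := by
  unfold Bn
  rw [Nat.card_Icc]
  have h1 := Nat.lt_floor_add_one (X + y)
  have h2 := Nat.ceil_lt_add_one (by linarith : 0 ≤ X - y)
  have h3 := Nat.floor_le (by linarith : 0 ≤ X + y)
  have h4 := Nat.le_ceil (X - y)
  have h5 : ⌈X - y⌉₊ ≤ ⌊X + y⌋₊ + 1 := by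
    rw [Nat.ceil_le]
    push_cast
    linarith
  rw [Nat.cast_sub h5]
  push_cast
  constructor <;> linarith

theorem pow_near (k : ℕ) (hk : 1 ≤ k) (X y : ℝ) (hX : 0 < X) (hy0 : 0 ≤ y) (hy : y ≤ X) (u : ℝ) (hu : |u - X| ≤ y) :
    |u ^ k - X ^ k| ≤ k * 2 ^ (k - 1) * X ^ (k - 1) * y := by
  have h1 := abs_pow_sub_pow_le u X k
  have hu2 := abs_le.1 hu
  have h2 : max |u| |X| ≤ 2 * X := by
    apply max_le
    · rw [abs_le]
      constructor <;> linarith
    · rw [abs_of_pos hX]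
      linarith
  have h3 : 0 ≤ max |u| |X| := le_max_of_le_left (abs_nonneg _)
  calc |u ^ k - X ^ k| ≤ |u - X| * k * max |u| |X| ^ (k - 1) := h1
    _ ≤ y * k * (2 * X) ^ (k - 1) := by gcongr
    _ = _ := by
        rw [mul_pow]
        ring

theorem pow_sep (k : ℕ) (hk : 1 ≤ k) (X u : ℝ) (hX : 0 < X) (hu : 0 ≤ u) :
    X ^ (k - 1) * |u - X| ≤ |u ^ k - X ^ k| := by
  have e1 : ∀ z : ℝ, z ^ k = z * z ^ (k - 1) := by
    intro z
    have : k = (k - 1) + 1 := by omega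
    nth_rewrite 1 [this]
    rw [pow_succ]
    ring
  rcases le_total X u with h | h
  · rw [abs_of_nonneg (by linarith), abs_of_nonneg (by
      have := pow_le_pow_left₀ hX.le h k
      linarith), e1 u, e1 X]
    have h1 : X ^ (k - 1) ≤ u ^ (k - 1) := pow_le_pow_left₀ hX.le h _
    have h2 := mul_le_mul_of_nonneg_left h1 hu
    nlinarith
  · rw [abs_of_nonpos (by linarith), abs_of_nonpos (by
      have := pow_le_pow_left₀ hu h k
      linarith), e1 u, e1 X]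
    have h1 : u ^ (k - 1) ≤ X ^ (k - 1) := pow_le_pow_left₀ hu h _
    have h2 := mul_le_mul_of_nonneg_left h1 hu
    nlinarith

/-- **Almost equal variables: the count for a product of short intervals and one free variable.** -/
theorem ae_core (d : ℕ) (hd : 1 ≤ d) (a : ℝ) (ha : 0 < a) (δ : ℝ) (hδ0 : 0 < δ) (hδ1 : δ ≤ 1 / 1000) (θ : Fin d → ℝ)
    (hdom : Dom (d + 1) (fl d a θ) δ) (hmv : MVp (d + 1) (fl d a θ)) (t : ℕ) (ht : 2 * (d + 1) ≤ t) (τ : ℝ) (hτ0 : 0 < τ)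
    (hτ : τ ≤ δ / (8 * ((d + 1 : ℕ) : ℝ) ^ 2)) :
    ∃ c2 C2 : ℝ, 0 < c2 ∧ 0 < C2 ∧ ∀ᶠ n : ℕ in Filter.atTop, ∃ P : ℕ,
      2 * (n : ℝ) ≤ a * (P : ℝ) ^ (d + 1) ∧ a * (P : ℝ) ^ (d + 1) ≤ 2 ^ (d + 2) * n ∧
      ∀ X : ℝ, 0 < X → a * ((t + 1 : ℕ) : ℝ) * X ^ (d + 1) = n →
      ∀ y : ℝ, (n : ℝ) ^ (1 / ((d + 1 : ℕ) : ℝ) - τ) ≤ y → y ≤ X / (((t + 1 : ℕ) : ℝ) * ((d + 1 : ℕ) : ℝ) * 2 ^ (d + 2)) →
      c2 * (y ^ t * (n : ℝ) ^ (1 / ((d + 1 : ℕ) : ℝ) - 1)) ≤
        RW (Fintype.piFinset fun _ : Fin t => Bn X y) (wC t (fl d a θ)) P (fl d a θ) n ∧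
      RW (Fintype.piFinset fun _ : Fin t => Bn X y) (wC t (fl d a θ)) P (fl d a θ) n ≤
        C2 * (y ^ t * (n : ℝ) ^ (1 / ((d + 1 : ℕ) : ℝ) - 1)) := by
  set k : ℕ := d + 1 with hk
  have hk2 : 2 ≤ k := by omega
  have hk2r : (2 : ℝ) ≤ k := by exact_mod_cast hk2
  have hk0 : (0 : ℝ) < k := by linarith
  have hkne : k ≠ 0 := by omega
  set g : ℕ → ℤ := fl d a θ with hg
  have hsz : Sz k a g (∑ j, |θ j| + 1) := sz_fl d a θ
  have hC1 : 0 ≤ ∑ j, |θ j| + 1 := by positivity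
  set s : ℝ := ((t + 1 : ℕ) : ℝ) with hs
  have hs1 : (1 : ℝ) ≤ s := by
    have : 1 ≤ t + 1 := by omega
    rw [hs]
    exact_mod_cast this
  have hst : s = t + 1 := by rw [hs]; push_cast; rfl
  have hs0 : 0 < s := by linarith
  set c0 : ℝ := a / (8 * s * 2 ^ k) with hc0
  have hc00 : 0 < c0 := by positivity
  obtain ⟨Cm, hCm, hmach⟩ := machine k hk2 a ha g δ hδ0 hδ1 hdom _ hC1 hsz c0 hc00
  set c3 : ℝ := (c0 / a) ^ ((k : ℝ)⁻¹) / (k * (a / 2)) with hc3
  have hc30 : 0 < c3 := by positivity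
  set C3 : ℝ := 1 / (k * c0) with hC3
  have hC30 : 0 < C3 := by positivity
  set cn : ℝ := (a / 2 ^ (k + 1)) ^ (1 / (k : ℝ) - τ) with hcn
  have hcn0 : 0 < cn := by positivity
  have hτk : τ * (2 * k * k) ≤ δ / 4 := by
    have h1 : δ / (8 * (k : ℝ) ^ 2) * (2 * k * k) = δ / 4 := by
      field_simp
      norm_num
    rw [← h1]
    exact mul_le_mul_of_nonneg_right hτ (by positivity)
  have hτ1 : τ ≤ 1 / k := by
    refine hτ.trans ?_
    rw [div_le_div_iff₀ (by positivity) hk0]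
    nlinarith
  set Ce : ℝ := Cm * (1 / cn ^ (2 * k) + 1) with hCe
  have hCe0 : 0 < Ce := by positivity
  have hev : ∀ᶠ ν : ℕ in Filter.atTop, ((2 ^ ν : ℕ) : ℝ) ^ (-(δ / 2)) ≤ c3 / 2 / Ce := by
    have htend : Filter.Tendsto (fun ν : ℕ => ((2 ^ ν : ℕ) : ℝ)) Filter.atTop Filter.atTop :=
      tendsto_natCast_atTop_atTop.comp (tendsto_pow_atTop_atTop_of_one_lt (by norm_num : 1 < 2))
    exact ((tendsto_rpow_neg_atTop (by positivity : (0 : ℝ) < δ / 2)).comp htend).eventually_le_const (by positivity)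
  obtain ⟨ν1, hν1⟩ := Filter.eventually_atTop.1 ((hmach.and (hmv (δ / 4) (by positivity))).and hev)
  set cl : ℝ := (2 ^ (k + 1) / a) ^ (1 / (k : ℝ) - 1) with hcl
  set Cl : ℝ := (2 / a) ^ (1 / (k : ℝ) - 1) with hCl
  have hcl0 : 0 < cl := by positivity
  have hCl0 : 0 < Cl := by positivity
  refine ⟨c3 / 2 * cl, (C3 + c3 / 2) * 3 ^ t * Cl, by positivity, by positivity, ?_⟩
  have hev1 : ∀ᶠ n : ℕ in Filter.atTop, a * (2 ^ ν1) ^ k ≤ (n : ℝ) := tendsto_natCast_atTop_atTop.eventually_ge_atTop _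
  have hwCev : ∀ᶠ n : ℕ in Filter.atTop, ∀ b : Fin t → ℕ, (∀ i, 0 < b i ∧ a * (b i : ℝ) ^ k ≤ n) →
      |(wC t g b : ℝ) - ∑ i, a * (b i : ℝ) ^ k| ≤ 1 / (4 * s) * n :=
    tendsto_natCast_atTop_atTop.eventually (wC_size t k hk2 a ha g _ hC1 hsz (1 / (4 * s)) (by positivity))
  filter_upwards [hev1, hwCev, Filter.eventually_ge_atTop 1] with n hn hwC hn1
  have hn0 : (0 : ℝ) < n := by exact_mod_cast hn1
  have hn1r : (1 : ℝ) ≤ n := by exact_mod_cast hn1
  obtain ⟨ν, hν, hsc1, hsc2⟩ := scale2 k (by omega) a ha ν1 n (by linarith)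
  obtain ⟨⟨hm, hmv'⟩, hsmall⟩ := hν1 ν hν
  refine ⟨2 ^ ν, hsc2, ?_, ?_⟩
  · rw [div_pow, ← mul_div_assoc, div_le_iff₀ (by positivity)] at hsc1
    calc a * ((2 ^ ν : ℕ) : ℝ) ^ k ≤ 2 * n * 2 ^ k := hsc1
      _ = _ := by
          rw [hk]
          ring
  intro X hX0 hXn y hy1 hy2
  set p : ℝ := ((2 ^ ν : ℕ) : ℝ) with hp
  have hp0 : 0 < p := by positivity
  have hp1 : 1 ≤ p := by rw [hp]; exact_mod_cast Nat.one_le_two_pow
  have hmul : ∀ x y : ℝ, p ^ x * p ^ y = p ^ (x + y) := fun x y => (Real.rpow_add hp0 x y).symm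
  have hpk : p ^ k = p ^ (k : ℝ) := (Real.rpow_natCast p k).symm
  have hnlow : a / 2 ^ (k + 1) * p ^ k ≤ n := by
    have e1 : a * (p / 2) ^ k = 2 * (a / 2 ^ (k + 1) * p ^ k) := by
      have e0 : (2 : ℝ) ^ (k + 1) = 2 ^ k * 2 := pow_succ 2 k
      rw [div_pow, e0]
      field_simp
    rw [e1] at hsc1
    linarith
  have hy1' : 1 ≤ y := by
    refine le_trans ?_ hy1
    apply Real.one_le_rpow hn1r
    linarith
  have hy0 : 0 < y := by linarith
  have h2k : (1 : ℝ) ≤ 2 ^ (d + 2) := one_le_pow₀ (by norm_num)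
  have hyX : y ≤ X := by
    refine hy2.trans (div_le_self hX0.le ?_)
    have h1 : (1 : ℝ) ≤ s * k := by nlinarith
    nlinarith
  -- the powers are close
  have hXk : a * X ^ k = n / s := by
    rw [eq_div_iff hs0.ne', ← hXn]
    ring
  have hclose : ∀ u : ℝ, |u - X| ≤ y → |a * u ^ k - n / s| ≤ n / (4 * s ^ 2) := by
    intro u hu
    have h1 := pow_near k (by omega) X y hX0 hy0.le hyX u hu
    rw [← hXk, ← mul_sub, abs_mul, abs_of_pos ha]
    have h2 : (k : ℝ) * 2 ^ (k - 1) * X ^ (k - 1) * y ≤ X ^ k / (4 * s) := by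
      have e1 : X ^ k = X * X ^ (k - 1) := by
        have : k = (k - 1) + 1 := by omega
        nth_rewrite 1 [this]
        rw [pow_succ]
        ring
      have e2 : (2 : ℝ) ^ (d + 2) = 4 * 2 ^ (k - 1) := by
        have : d + 2 = (k - 1) + 2 := by omega
        rw [this, pow_add]
        ring
      have h3 : y * (s * k * (4 * 2 ^ (k - 1))) ≤ X := by
        rw [← e2]
        rwa [le_div_iff₀ (by positivity)] at hy2
      rw [e1, le_div_iff₀ (by positivity)]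
      have h4 : 0 < X ^ (k - 1) := by positivity
      calc (k : ℝ) * 2 ^ (k - 1) * X ^ (k - 1) * y * (4 * s) = y * (s * k * (4 * 2 ^ (k - 1))) * X ^ (k - 1) := by ring
        _ ≤ X * X ^ (k - 1) := mul_le_mul_of_nonneg_right h3 h4.le
    calc a * |u ^ k - X ^ k| ≤ a * (X ^ k / (4 * s)) := mul_le_mul_of_nonneg_left (h1.trans h2) ha.le
      _ = a * X ^ k / (4 * s) := by ring
      _ = n / (4 * s ^ 2) := by
          rw [hXk]
          field_simp
  have hns : (n : ℝ) / (4 * s ^ 2) ≤ n / (4 * s) := by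
    apply div_le_div_of_nonneg_left hn0.le (by positivity)
    nlinarith
  have hBmem : ∀ b ∈ Bn X y, 0 < b ∧ a * (b : ℝ) ^ k ≤ n ∧ |a * (b : ℝ) ^ k - n / s| ≤ n / (4 * s ^ 2) := by
    intro b hb
    rw [mem_Bn X y (by linarith)] at hb
    have h1 := hclose b hb
    have h2 := abs_le.1 h1
    have h3 : (n : ℝ) / s ≤ n := div_le_self hn0.le hs1
    have h4 : (n : ℝ) / (4 * s) = n / s / 4 := by field_simp
    have h5 : 0 < (n : ℝ) / s := by positivity
    refine ⟨?_, ?_, h1⟩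
    · by_contra hcon
      have hb0 : b = 0 := by omega
      subst hb0
      rw [Nat.cast_zero, zero_pow hkne] at h2
      linarith [h2.1]
    · by_cases hs' : s = 1
      · have : t = 0 := by
          rw [hst] at hs'
          have : (t : ℝ) = 0 := by linarith
          exact_mod_cast this
        omega
      · have hs2 : (2 : ℝ) ≤ s := by
          rw [hst]
          have : 1 ≤ t := by omega
          have : (1 : ℝ) ≤ t := by exact_mod_cast this
          linarith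
        have h6 : (n : ℝ) / s ≤ n / 2 := div_le_div_of_nonneg_left hn0.le (by norm_num) hs2
        linarith [h2.2]
  have hBP : Bn X y ⊆ Ioc 0 (2 ^ ν) := by
    intro b hb
    obtain ⟨h1, h2, _⟩ := hBmem b hb
    rw [mem_Ioc]
    refine ⟨h1, ?_⟩
    have h4 : a * (b : ℝ) ^ k ≤ a * p ^ k := by
      have : 0 ≤ a * p ^ k := by positivity
      linarith
    have h5 : (b : ℝ) ≤ ((2 ^ ν : ℕ) : ℝ) := le_of_pow_le_pow_left₀ hkne hp0.le (le_of_mul_le_mul_left h4 ha)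
    exact_mod_cast h5
  obtain ⟨hcl1, hcl2⟩ := card_Bn X y hy1' hyX
  set m : ℝ := ((Bn X y).card : ℝ) with hm'
  have hm0 : 0 < m := by linarith
  set W : Finset (Fin t → ℕ) := Fintype.piFinset fun _ : Fin t => Bn X y with hW
  have hWc : (W.card : ℝ) = m ^ t := by
    rw [hW, Fintype.card_piFinset]
    simp [hm']
  -- the range
  have hrange : ∀ b ∈ W, c0 * p ^ k ≤ (((n : ℕ) : ℤ) : ℝ) - wC t g b ∧
      (((n : ℕ) : ℤ) : ℝ) - wC t g b ≤ a * p ^ k / 2 := by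
    intro b hb
    rw [hW, Fintype.mem_piFinset] at hb
    have h1 := hwC b (fun i => ⟨(hBmem _ (hb i)).1, (hBmem _ (hb i)).2.1⟩)
    have h2 : |∑ i, a * (b i : ℝ) ^ k - t * (n / s)| ≤ n / (4 * s) := by
      have e1 : ∑ i, a * (b i : ℝ) ^ k - t * (n / s) = ∑ i : Fin t, (a * (b i : ℝ) ^ k - n / s) := by
        rw [sum_sub_distrib, sum_const, card_univ, Fintype.card_fin, nsmul_eq_mul]
      rw [e1]
      calc |∑ i : Fin t, (a * (b i : ℝ) ^ k - n / s)| ≤ ∑ i : Fin t, |a * (b i : ℝ) ^ k - n / s| :=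
            abs_sum_le_sum_abs _ _
        _ ≤ ∑ _i : Fin t, (n : ℝ) / (4 * s ^ 2) := sum_le_sum fun i _ => (hBmem _ (hb i)).2.2
        _ = t * ((n : ℝ) / (4 * s ^ 2)) := by rw [sum_const, card_univ, Fintype.card_fin, nsmul_eq_mul]
        _ ≤ s * ((n : ℝ) / (4 * s ^ 2)) := by
            apply mul_le_mul_of_nonneg_right _ (by positivity)
            linarith
        _ = _ := by field_simp
    have h3 : (n : ℝ) - t * (n / s) = n / s := by
      have : (t : ℝ) = s - 1 := by linarith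
      rw [this]
      field_simp
      ring
    have h4 := abs_le.1 h1
    have h5 := abs_le.1 h2
    have h6 : 1 / (4 * s) * (n : ℝ) = n / s / 4 := by field_simp
    have h7 : (n : ℝ) / (4 * s) = n / s / 4 := by field_simp
    have h8 : (n : ℝ) / s ≤ n / 2 := by
      apply div_le_div_of_nonneg_left hn0.le (by norm_num)
      rw [hst]
      have : 1 ≤ t := by omega
      have : (1 : ℝ) ≤ t := by exact_mod_cast this
      linarith
    have h9 : c0 * p ^ k ≤ n / s / 2 := by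
      have e1 : c0 * p ^ k = a * (p / 2) ^ k / (8 * s) := by
        rw [hc0, div_pow]
        field_simp
      rw [e1]
      calc a * (p / 2) ^ k / (8 * s) ≤ 2 * n / (8 * s) := div_le_div_of_nonneg_right hsc1 (by positivity)
        _ = n / s / 4 := by
            field_simp
            norm_num
        _ ≤ _ := by
            have : 0 < (n : ℝ) / s := by positivity
            linarith
    rw [Int.cast_natCast]
    have h10 : 0 < (n : ℝ) / s := by positivity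
    constructor <;> linarith [h4.1, h4.2, h5.1, h5.2]
  -- the terms
  have hterm : ∀ b ∈ W, c3 * p ^ (1 - (k : ℝ)) ≤ rh k a ((((n : ℕ) : ℤ) : ℝ) - wC t g b) ∧
      rh k a ((((n : ℕ) : ℤ) : ℝ) - wC t g b) ≤ C3 * p ^ (1 - (k : ℝ)) := by
    intro b hb
    obtain ⟨h1, h2⟩ := hrange b hb
    set M : ℝ := (((n : ℕ) : ℤ) : ℝ) - wC t g b with hM
    have hM0 : 0 < M := lt_of_lt_of_le (by positivity) h1
    unfold rh
    constructor
    · have h3 := ps1_mono k a (c0 * p ^ k) M ha (by positivity) h1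
      have h4 : ps1 k a (c0 * p ^ k) = (c0 / a) ^ ((k : ℝ)⁻¹) * p := by
        unfold ps1
        have e1 : c0 * p ^ k / a = c0 / a * p ^ k := by ring
        rw [e1, Real.mul_rpow (by positivity) (by positivity), Real.pow_rpow_inv_natCast hp0.le hkne]
      calc c3 * p ^ (1 - (k : ℝ)) = ps1 k a (c0 * p ^ k) / (k * (a * p ^ k / 2)) := by
            rw [h4, hc3, Real.rpow_sub hp0, Real.rpow_one, ← hpk]
            field_simp
        _ ≤ _ := by
            apply div_le_div₀ (ps1_nonneg k a M ha hM0.le) h3 (by positivity)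
            exact mul_le_mul_of_nonneg_left h2 hk0.le
    · have hps : ps1 k a M ≤ p := by
        apply le_of_pow_le_pow_left₀ hkne hp0.le
        have h4 : a * ps1 k a M ^ k ≤ a * p ^ k := by
          rw [ps1_pow k (by omega) a M ha hM0.le]
          have : 0 ≤ a * p ^ k := by positivity
          linarith
        exact le_of_mul_le_mul_left h4 ha
      calc ps1 k a M / (k * M) ≤ p / (k * (c0 * p ^ k)) := by
            apply div_le_div₀ hp0.le hps (by positivity)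
            exact mul_le_mul_of_nonneg_left h1 hk0.le
        _ = _ := by
            rw [hC3, Real.rpow_sub hp0, Real.rpow_one, ← hpk]
            field_simp
  -- the mean value
  have hK : ∫⁻ α in Set.Icc (-(1 / 2) : ℝ) (1 / 2), ENNReal.ofReal ‖FW W (wC t g) α‖ ≤
      ENNReal.ofReal (m ^ (t - 2 * k) * p ^ ((k : ℝ) + δ / 4)) := by
    have hpt : ∀ α : ℝ, ‖FW W (wC t g) α‖ ≤ m ^ (t - 2 * k) * ‖FW (Bn X y) g α‖ ^ (2 * k) := by
      intro α
      have h1 : FW W (wC t g) α = ∏ _i : Fin t, FW (Bn X y) g α := (FW_prod (fun _ : Fin t => Bn X y) (fun _ => g) α).symm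
      rw [h1, norm_prod, prod_const, card_univ, Fintype.card_fin]
      have e1 : ‖FW (Bn X y) g α‖ ^ t = ‖FW (Bn X y) g α‖ ^ (t - 2 * k) * ‖FW (Bn X y) g α‖ ^ (2 * k) := by
        rw [← pow_add]
        congr 1
        omega
      rw [e1]
      exact mul_le_mul_of_nonneg_right (pow_le_pow_left₀ (norm_nonneg _) (FW_le _ _ _) _) (by positivity)
    calc _ ≤ ∫⁻ α in Set.Icc (-(1 / 2) : ℝ) (1 / 2), ENNReal.ofReal (m ^ (t - 2 * k) * ‖FW (Bn X y) g α‖ ^ (2 * k)) :=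
          lintegral_mono fun α => ENNReal.ofReal_le_ofReal (hpt α)
      _ = ENNReal.ofReal (m ^ (t - 2 * k)) * ∫⁻ α in Set.Icc (-(1 / 2) : ℝ) (1 / 2),
            ENNReal.ofReal (‖FW (Bn X y) g α‖ ^ (2 * k)) := by
          rw [← lintegral_const_mul' _ _ ENNReal.ofReal_ne_top]
          apply lintegral_congr
          intro α
          rw [ENNReal.ofReal_mul (by positivity)]
      _ ≤ ENNReal.ofReal (m ^ (t - 2 * k)) * ENNReal.ofReal (p ^ ((k : ℝ) + δ / 4)) :=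
          mul_le_mul_right ((FW_mono k g _ _ hBP).trans hmv') _
      _ = _ := by rw [ENNReal.ofReal_mul (by positivity)]
  obtain ⟨hm1, _⟩ := hm (Fin t → ℕ) W (wC t g)
  have hfin := hm1 ((n : ℕ) : ℤ) hrange _ (by positivity) hK
  have hmlow : cn * p ^ (1 - k * τ) ≤ m := by
    refine le_trans ?_ (hy1.trans hcl1)
    have h1 : (a / 2 ^ (k + 1) * p ^ k) ^ (1 / (k : ℝ) - τ) ≤ (n : ℝ) ^ (1 / (k : ℝ) - τ) :=
      Real.rpow_le_rpow (by positivity) hnlow (by linarith)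
    refine le_trans (le_of_eq ?_) h1
    rw [Real.mul_rpow (by positivity) (by positivity), hcn, hpk, ← Real.rpow_mul hp0.le]
    congr 2
    field_simp
  have herr : Cm * (p ^ (1 - δ) * (m ^ (t - 2 * k) * p ^ ((k : ℝ) + δ / 4)) + W.card * p ^ (1 - (k : ℝ) - δ)) ≤
      c3 / 2 * (m ^ t * p ^ (1 - (k : ℝ))) := by
    have h1 : p ^ (2 * (k : ℝ) - 2 * k * k * τ) ≤ 1 / cn ^ (2 * k) * m ^ (2 * k) := by
      rw [div_mul_eq_mul_div, one_mul, le_div_iff₀ (by positivity)]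
      calc p ^ (2 * (k : ℝ) - 2 * k * k * τ) * cn ^ (2 * k) = (cn * p ^ (1 - k * τ)) ^ (2 * k) := by
            rw [mul_pow, ← Real.rpow_natCast (p ^ (1 - k * τ)) (2 * k), ← Real.rpow_mul hp0.le, mul_comm]
            congr 2
            push_cast
            ring
        _ ≤ _ := pow_le_pow_left₀ (by positivity) hmlow _
    have h2 : p ^ (1 - δ) * p ^ ((k : ℝ) + δ / 4) ≤ p ^ (-(δ / 2)) * p ^ (1 - (k : ℝ)) * (1 / cn ^ (2 * k) * m ^ (2 * k)) := by
      calc p ^ (1 - δ) * p ^ ((k : ℝ) + δ / 4) = p ^ (1 - δ + ((k : ℝ) + δ / 4)) := hmul _ _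
        _ ≤ p ^ (-(δ / 2) + (1 - (k : ℝ)) + (2 * (k : ℝ) - 2 * k * k * τ)) := by
            apply Real.rpow_le_rpow_of_exponent_le hp1
            nlinarith
        _ = p ^ (-(δ / 2)) * p ^ (1 - (k : ℝ)) * p ^ (2 * (k : ℝ) - 2 * k * k * τ) := by rw [hmul, hmul]
        _ ≤ _ := mul_le_mul_of_nonneg_left h1 (by positivity)
    have h3 : p ^ (1 - (k : ℝ) - δ) ≤ p ^ (-(δ / 2)) * p ^ (1 - (k : ℝ)) := by
      rw [hmul]
      apply Real.rpow_le_rpow_of_exponent_le hp1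
      linarith
    have h4 : m ^ (t - 2 * k) * m ^ (2 * k) = m ^ t := by
      rw [← pow_add]
      congr 1
      omega
    have h5 : Ce * p ^ (-(δ / 2)) ≤ c3 / 2 := by
      have h6 := mul_le_mul_of_nonneg_left hsmall hCe0.le
      refine h6.trans (le_of_eq ?_)
      field_simp
    rw [hWc]
    calc Cm * (p ^ (1 - δ) * (m ^ (t - 2 * k) * p ^ ((k : ℝ) + δ / 4)) + m ^ t * p ^ (1 - (k : ℝ) - δ)) =
          Cm * (m ^ (t - 2 * k) * (p ^ (1 - δ) * p ^ ((k : ℝ) + δ / 4)) + m ^ t * p ^ (1 - (k : ℝ) - δ)) := by ring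
      _ ≤ Cm * (m ^ (t - 2 * k) * (p ^ (-(δ / 2)) * p ^ (1 - (k : ℝ)) * (1 / cn ^ (2 * k) * m ^ (2 * k))) +
            m ^ t * (p ^ (-(δ / 2)) * p ^ (1 - (k : ℝ)))) := by
          apply mul_le_mul_of_nonneg_left _ hCm.le
          apply add_le_add
          · exact mul_le_mul_of_nonneg_left h2 (by positivity)
          · exact mul_le_mul_of_nonneg_left h3 (by positivity)
      _ = Cm * ((m ^ (t - 2 * k) * m ^ (2 * k)) * (p ^ (-(δ / 2)) * p ^ (1 - (k : ℝ)) * (1 / cn ^ (2 * k))) +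
            m ^ t * (p ^ (-(δ / 2)) * p ^ (1 - (k : ℝ)))) := by ring
      _ = Ce * p ^ (-(δ / 2)) * (m ^ t * p ^ (1 - (k : ℝ))) := by
          rw [h4, hCe]
          ring
      _ ≤ _ := mul_le_mul_of_nonneg_right h5 (by positivity)
  have hsum1 : c3 * (m ^ t * p ^ (1 - (k : ℝ))) ≤ ∑ b ∈ W, rh k a ((((n : ℕ) : ℤ) : ℝ) - wC t g b) := by
    calc c3 * (m ^ t * p ^ (1 - (k : ℝ))) = ∑ _b ∈ W, c3 * p ^ (1 - (k : ℝ)) := by
          rw [sum_const, nsmul_eq_mul, hWc]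
          ring
      _ ≤ _ := sum_le_sum fun b hb => (hterm b hb).1
  have hsum2 : ∑ b ∈ W, rh k a ((((n : ℕ) : ℤ) : ℝ) - wC t g b) ≤ C3 * (m ^ t * p ^ (1 - (k : ℝ))) := by
    calc _ ≤ ∑ _b ∈ W, C3 * p ^ (1 - (k : ℝ)) := sum_le_sum fun b hb => (hterm b hb).2
      _ = _ := by
          rw [sum_const, nsmul_eq_mul, hWc]
          ring
  have hR := abs_le.1 (hfin.trans herr)
  have hkk : 1 / (k : ℝ) - 1 ≤ 0 := by
    have : 1 / (k : ℝ) ≤ 1 := by
      rw [div_le_one hk0]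
      linarith
    linarith
  have hpp : p ^ (1 - (k : ℝ)) = (p ^ k) ^ (1 / (k : ℝ) - 1) := by
    rw [hpk, ← Real.rpow_mul hp0.le]
    congr 1
    field_simp
  have hplow : cl * (n : ℝ) ^ (1 / (k : ℝ) - 1) ≤ p ^ (1 - (k : ℝ)) := by
    rw [hpp, hcl, ← Real.mul_rpow (by positivity) hn0.le]
    apply Real.rpow_le_rpow_of_nonpos (by positivity) _ hkk
    have h1 : 2 ^ (k + 1) / a * (a / 2 ^ (k + 1) * p ^ k) ≤ 2 ^ (k + 1) / a * n :=
      mul_le_mul_of_nonneg_left hnlow (by positivity)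
    refine le_trans (le_of_eq ?_) h1
    field_simp
  have hphigh : p ^ (1 - (k : ℝ)) ≤ Cl * (n : ℝ) ^ (1 / (k : ℝ) - 1) := by
    rw [hpp, hCl, ← Real.mul_rpow (by positivity) hn0.le]
    apply Real.rpow_le_rpow_of_nonpos (by positivity) _ hkk
    have h1 : 2 / a * (n : ℝ) = 2 * n / a := by ring
    rw [h1, div_le_iff₀ ha]
    linarith
  have hyt : y ^ t ≤ m ^ t := pow_le_pow_left₀ hy0.le hcl1 t
  have hyt2 : m ^ t ≤ 3 ^ t * y ^ t := by
    rw [← mul_pow]
    exact pow_le_pow_left₀ hm0.le hcl2 t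
  constructor
  · calc c3 / 2 * cl * (y ^ t * (n : ℝ) ^ (1 / (k : ℝ) - 1)) = c3 / 2 * (y ^ t * (cl * (n : ℝ) ^ (1 / (k : ℝ) - 1))) := by
          ring
      _ ≤ c3 / 2 * (m ^ t * p ^ (1 - (k : ℝ))) := by
          apply mul_le_mul_of_nonneg_left _ (by positivity)
          exact mul_le_mul hyt hplow (by positivity) (by positivity)
      _ ≤ _ := by linarith [hR.1]
  · calc RW W (wC t g) (2 ^ ν) g ((n : ℕ) : ℤ) ≤ (C3 + c3 / 2) * (m ^ t * p ^ (1 - (k : ℝ))) := by linarith [hR.2]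
      _ ≤ (C3 + c3 / 2) * (3 ^ t * y ^ t * (Cl * (n : ℝ) ^ (1 / (k : ℝ) - 1))) := by
          apply mul_le_mul_of_nonneg_left _ (by positivity)
          exact mul_le_mul hyt2 hphigh (by positivity) (by positivity)
      _ = _ := by ring

end Pool.Agent.U914.WP
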