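import Mathlib
import Pool.Agent.U914.WP.KI

/-! Almost all polynomials in Waring's problem: almost equal summands, the theorem. -/

set_option autoImplicit false

open Finset MeasureTheory

namespace Pool.Agent.U914.WP

/-- the representations with variables near `X` -/
def NS (t : ℕ) (g : ℕ → ℤ) (X Y : ℝ) (n : ℕ) : Set (Fin (t + 1) → ℕ) :=
  {x | (∀ i, |(x i : ℝ) - X| ≤ Y) ∧ ∑ i, g (x i) = (n : ℤ)}

theorem NS_finite (t : ℕ) (g : ℕ → ℤ) (X Y : ℝ) (n : ℕ) : (NS t g X Y n).Finite := by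
  apply Set.Finite.subset (Fintype.piFinset fun _ : Fin (t + 1) => range (⌊X + Y⌋₊ + 1)).finite_toSet
  intro x hx
  rw [mem_coe, Fintype.mem_piFinset]
  intro i
  rw [mem_range]
  have h1 := (abs_le.1 (hx.1 i)).2
  have h2 : x i ≤ ⌊X + Y⌋₊ := Nat.le_floor (by linarith)
  omega

/-- from below: all counted tuples have almost equal variables -/
theorem NS_ge (t k : ℕ) (hk : 1 ≤ k) (a : ℝ) (ha : 0 < a) (g : ℕ → ℤ) (X Y y : ℝ) (n P : ℕ) (hX : 0 < X)
    (hy : 0 ≤ y) (hyY : y ≤ Y)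
    (hfree : ∀ b : Fin t → ℕ, ∀ x : ℕ, (∀ i, |(b i : ℝ) - X| ≤ y) → 1 ≤ x → x ≤ P →
      wC t g b + g x = (n : ℤ) → |(x : ℝ) - X| ≤ Y) :
    RW (Fintype.piFinset fun _ : Fin t => Bn X y) (wC t g) P g n ≤ ((NS t g X Y n).ncard : ℝ) := by
  unfold RW
  norm_cast
  rw [← Set.ncard_coe_finset]
  apply Set.ncard_le_ncard_of_injOn (fun q : (Fin t → ℕ) × ℕ => (Fin.cons q.2 q.1 : Fin (t + 1) → ℕ))
    (ht := NS_finite t g X Y n)
  · rintro ⟨b, x⟩ hq
    rw [mem_coe, mem_filter, mem_product, Fintype.mem_piFinset, mem_Ioc] at hq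
    obtain ⟨⟨h1, h2⟩, h3⟩ := hq
    have h4 : ∀ i, |(b i : ℝ) - X| ≤ y := fun i => (mem_Bn X y (by linarith) (b i)).1 (h1 i)
    refine ⟨?_, ?_⟩
    · intro i
      refine Fin.cases ?_ ?_ i
      · simp only [Fin.cons_zero]
        exact hfree b x h4 h2.1 h2.2 h3
      · intro j
        simp only [Fin.cons_succ]
        exact (h4 j).trans hyY
    · rw [Fin.sum_univ_succ]
      simp only [Fin.cons_zero, Fin.cons_succ]
      unfold wC at h3
      simp only at h3
      linarith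
  · rintro ⟨b, x⟩ _ ⟨b', x'⟩ _ h
    have h0 := congrFun h 0
    simp only [Fin.cons_zero] at h0
    have h1 : b = b' := by
      funext i
      have := congrFun h i.succ
      simpa only [Fin.cons_succ] using this
    rw [h0, h1]

/-- from above -/
theorem NS_le (t : ℕ) (g : ℕ → ℤ) (X Y : ℝ) (n P : ℕ) (hX : 0 < X) (hY : 0 ≤ Y) (hYX : Y < X) (hP : X + Y ≤ P) :
    ((NS t g X Y n).ncard : ℝ) ≤ RW (Fintype.piFinset fun _ : Fin t => Bn X Y) (wC t g) P g n := by
  unfold RW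
  norm_cast
  rw [← Set.ncard_coe_finset]
  apply Set.ncard_le_ncard_of_injOn (fun x : Fin (t + 1) → ℕ => (Fin.tail x, x 0))
  · intro x hx
    rw [mem_coe, mem_filter, mem_product, Fintype.mem_piFinset, mem_Ioc]
    have h1 := abs_le.1 (hx.1 0)
    refine ⟨⟨?_, ?_, ?_⟩, ?_⟩
    · intro i
      rw [mem_Bn X Y (by linarith)]
      exact hx.1 i.succ
    · have : (0 : ℝ) < (x 0 : ℝ) := by linarith
      exact_mod_cast this
    · have : (x 0 : ℝ) ≤ P := by linarith
      exact_mod_cast this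
    · have h2 := hx.2
      rw [Fin.sum_univ_succ] at h2
      unfold wC Fin.tail
      simp only
      linarith
  · intro x _ x' _ h
    rw [Prod.mk.injEq] at h
    funext i
    refine Fin.cases ?_ ?_ i
    · exact h.2
    · intro j
      exact congrFun h.1 j

/-- **Almost equal summands.** -/
theorem almost_equal (d : ℕ) (hd : 1 ≤ d) (a : ℝ) (ha : 0 < a) : ∃ τ : ℝ, 0 < τ ∧ ∀ᵐ θ : Fin d → ℝ,
    ∀ t : ℕ, 2 * (d + 1) ≤ t → ∃ c C : ℝ, 0 < c ∧ 0 < C ∧ ∀ᶠ n : ℕ in Filter.atTop,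
      ∀ Y : ℝ, (n : ℝ) ^ (1 / ((d + 1 : ℕ) : ℝ) - τ) ≤ Y → Y ≤ c * (n : ℝ) ^ (1 / ((d + 1 : ℕ) : ℝ)) →
        c * (Y ^ t * (n : ℝ) ^ (1 / ((d + 1 : ℕ) : ℝ) - 1)) ≤
          ((NS t (fl d a θ) (((n : ℝ) / (a * ((t + 1 : ℕ) : ℝ))) ^ (1 / ((d + 1 : ℕ) : ℝ))) Y n).ncard : ℝ) ∧
        ((NS t (fl d a θ) (((n : ℝ) / (a * ((t + 1 : ℕ) : ℝ))) ^ (1 / ((d + 1 : ℕ) : ℝ))) Y n).ncard : ℝ) ≤
          C * (Y ^ t * (n : ℝ) ^ (1 / ((d + 1 : ℕ) : ℝ) - 1)) := by
  obtain ⟨δ, hδ0, hδ1, hdom⟩ := dom_ae d hd a ha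
  have hmv := mv_ae d a ha
  set k : ℕ := d + 1 with hk
  have hk2 : 2 ≤ k := by omega
  have hk2r : (2 : ℝ) ≤ k := by exact_mod_cast hk2
  have hk0 : (0 : ℝ) < k := by linarith
  have hkne : k ≠ 0 := by omega
  set τ0 : ℝ := δ / (8 * (k : ℝ) ^ 2) with hτ0
  have hτ00 : 0 < τ0 := by positivity
  have hτk : τ0 ≤ 1 / (2 * k) := by
    rw [hτ0, div_le_div_iff₀ (by positivity) (by positivity)]
    nlinarith
  refine ⟨τ0 / 2, by positivity, ?_⟩
  filter_upwards [hdom, hmv] with θ hdom hmv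
  intro t ht
  set g : ℕ → ℤ := fl d a θ with hg
  have hsz : Sz k a g (∑ j, |θ j| + 1) := sz_fl d a θ
  have hC1 : 0 ≤ ∑ j, |θ j| + 1 := by positivity
  set C1 : ℝ := ∑ j, |θ j| + 1 with hC1d
  obtain ⟨c2, C2, hc2, hC2, hcore⟩ := ae_core d hd a ha δ hδ0 hδ1 θ hdom hmv t ht τ0 hτ00 le_rfl
  set s : ℝ := ((t + 1 : ℕ) : ℝ) with hs
  have hst : s = t + 1 := by rw [hs]; push_cast; rfl
  have ht0 : (0 : ℝ) ≤ t := Nat.cast_nonneg t
  have hs1 : (1 : ℝ) ≤ s := by linarith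
  have hs0 : 0 < s := by linarith
  -- the constants
  set D : ℝ := s * k * 2 ^ (d + 2) with hD
  have hD1 : 1 ≤ D := by
    have h1 : (1 : ℝ) ≤ s * k := by nlinarith
    have h2 : (1 : ℝ) ≤ 2 ^ (d + 2) := one_le_pow₀ (by norm_num)
    rw [hD]
    nlinarith
  have hD0 : 0 < D := by linarith
  set cX : ℝ := (1 / (a * s)) ^ (1 / (k : ℝ)) with hcX
  have hcX0 : 0 < cX := by positivity
  set c : ℝ := min (cX / D) (c2 / D ^ t) with hc
  have hc0 : 0 < c := lt_min (by positivity) (by positivity)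
  have hcc1 : c ≤ cX / D := min_le_left _ _
  have hcc2 : c ≤ c2 / D ^ t := min_le_right _ _
  set C5 : ℝ := s * C1 / a * (2 ^ (k + 1) * s) with hC5
  refine ⟨c, C2, hc0, hC2, ?_⟩
  have htn : Filter.Tendsto (fun n : ℕ => (n : ℝ) ^ (τ0 / 2)) Filter.atTop Filter.atTop :=
    (tendsto_rpow_atTop (by positivity)).comp tendsto_natCast_atTop_atTop
  have htn2 : Filter.Tendsto (fun n : ℕ => (n : ℝ) ^ (1 / (k : ℝ) - τ0)) Filter.atTop Filter.atTop := by
    apply (tendsto_rpow_atTop _).comp tendsto_natCast_atTop_atTop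
    have h1 : 1 / (2 * (k : ℝ)) < 1 / k := by
      apply one_div_lt_one_div_of_lt hk0
      linarith
    linarith
  filter_upwards [hcore, htn.eventually_ge_atTop D,
    htn2.eventually_ge_atTop (2 * C5), Filter.eventually_ge_atTop 1] with n
    hcore hnD hnE hn1
  have hn0 : (0 : ℝ) < n := by exact_mod_cast hn1
  have hn1r : (1 : ℝ) ≤ n := by exact_mod_cast hn1
  intro Y hY1 hY2
  obtain ⟨P, hP1, hP2, hcore⟩ := hcore
  set X : ℝ := ((n : ℝ) / (a * s)) ^ (1 / (k : ℝ)) with hX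
  have hX0 : 0 < X := by positivity
  have hXk : X ^ k = n / (a * s) := by
    rw [hX, one_div]
    exact Real.rpow_inv_natCast_pow (by positivity) hkne
  have hXn : a * s * X ^ k = n := by
    rw [hXk]
    field_simp
  have hXc : X = cX * (n : ℝ) ^ (1 / (k : ℝ)) := by
    rw [hX, hcX, ← Real.mul_rpow (by positivity) hn0.le]
    congr 1
    field_simp
  have hYX : Y ≤ X / D := by
    rw [hXc]
    calc Y ≤ c * (n : ℝ) ^ (1 / (k : ℝ)) := hY2
      _ ≤ cX / D * (n : ℝ) ^ (1 / (k : ℝ)) := mul_le_mul_of_nonneg_right hcc1 (by positivity)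
      _ = _ := by ring
  have hY0 : 0 < Y := lt_of_lt_of_le (by positivity) hY1
  have hnn : (n : ℝ) ^ (1 / (k : ℝ) - τ0 / 2) = (n : ℝ) ^ (1 / (k : ℝ) - τ0) * (n : ℝ) ^ (τ0 / 2) := by
    rw [← Real.rpow_add hn0]
    congr 1
    ring
  have hYlow : (n : ℝ) ^ (1 / (k : ℝ) - τ0) ≤ Y := by
    refine le_trans ?_ hY1
    rw [hnn]
    have h1 : 1 ≤ (n : ℝ) ^ (τ0 / 2) := hD1.trans hnD
    have h2 : 0 < (n : ℝ) ^ (1 / (k : ℝ) - τ0) := by positivity
    nlinarith
  have hylow : (n : ℝ) ^ (1 / (k : ℝ) - τ0) ≤ Y / D := by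
    rw [le_div_iff₀ hD0]
    refine le_trans ?_ hY1
    rw [hnn]
    exact mul_le_mul_of_nonneg_left hnD (by positivity)
  have hyX : Y / D ≤ X / D := by
    apply div_le_div_of_nonneg_right _ hD0.le
    exact hYX.trans (div_le_self hX0.le hD1)
  have hYY : Y / D ≤ Y := div_le_self hY0.le hD1
  have hD4 : D = 4 * (s * (k * 2 ^ (k - 1))) := by
    have : d + 2 = (k - 1) + 2 := by omega
    rw [hD, this, pow_add]
    ring
  have hkk1 : (1 : ℝ) ≤ k * 2 ^ (k - 1) := by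
    have : (1 : ℝ) ≤ 2 ^ (k - 1) := one_le_pow₀ (by norm_num)
    nlinarith
  have hD4' : 4 ≤ D := by
    have : 1 ≤ s * ((k : ℝ) * 2 ^ (k - 1)) := by nlinarith
    rw [hD4]
    linarith
  have eX : ∀ z : ℝ, z ^ k = z * z ^ (k - 1) := by
    intro z
    have : k = (k - 1) + 1 := by omega
    nth_rewrite 1 [this]
    rw [pow_succ]
    ring
  have hXk1 : 0 < X ^ (k - 1) := by positivity
  -- short intervals lie below `P`
  have hnear : ∀ z : ℝ, 0 ≤ z → z ≤ X / D → X + z ≤ P := by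
    intro z hz0 hz
    have hzX : z ≤ X := hz.trans (div_le_self hX0.le hD1)
    have h1 := pow_near k (by omega) X z hX0 hz0 hzX (X + z) (by rw [add_sub_cancel_left, abs_of_nonneg hz0])
    have h2 : (k : ℝ) * 2 ^ (k - 1) * X ^ (k - 1) * z ≤ X ^ k := by
      rw [le_div_iff₀ hD0] at hz
      rw [eX X]
      calc (k : ℝ) * 2 ^ (k - 1) * X ^ (k - 1) * z = z * (k * 2 ^ (k - 1)) * X ^ (k - 1) := by ring
        _ ≤ z * D * X ^ (k - 1) := by
            apply mul_le_mul_of_nonneg_right _ hXk1.le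
            apply mul_le_mul_of_nonneg_left _ hz0
            rw [hD4]
            nlinarith
        _ ≤ X * X ^ (k - 1) := mul_le_mul_of_nonneg_right hz hXk1.le
    have h3 := (abs_le.1 h1).2
    apply le_of_pow_le_pow_left₀ hkne (Nat.cast_nonneg _)
    have h4 : a * (X + z) ^ k ≤ a * (P : ℝ) ^ k := by
      calc a * (X + z) ^ k ≤ a * (2 * X ^ k) := mul_le_mul_of_nonneg_left (by linarith) ha.le
        _ ≤ 2 * (a * s * X ^ k) := by
            have : 0 ≤ a * X ^ k := by positivity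
            nlinarith
        _ = 2 * n := by rw [hXn]
        _ ≤ _ := hP1
    exact le_of_mul_le_mul_left h4 ha
  have hPX : (P : ℝ) ^ (k - 1) ≤ 2 ^ (k + 1) * s * X ^ (k - 1) := by
    have h1 : X ≤ P := by
      have := hnear 0 le_rfl (by positivity)
      linarith
    have h2 : (P : ℝ) ^ k ≤ 2 ^ (k + 1) * s * X ^ k := by
      have h3 : a * (P : ℝ) ^ k ≤ a * (2 ^ (k + 1) * s * X ^ k) := by
        calc a * (P : ℝ) ^ k ≤ 2 ^ (d + 2) * n := hP2
          _ = 2 ^ (k + 1) * (a * s * X ^ k) := by rw [hXn]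
          _ = _ := by ring
      exact le_of_mul_le_mul_left h3 ha
    rw [eX X, eX (P : ℝ)] at h2
    have h3 : X * (P : ℝ) ^ (k - 1) ≤ X * (2 ^ (k + 1) * s * X ^ (k - 1)) := by
      calc X * (P : ℝ) ^ (k - 1) ≤ P * (P : ℝ) ^ (k - 1) := mul_le_mul_of_nonneg_right h1 (by positivity)
        _ ≤ _ := h2
        _ = _ := by ring
    exact le_of_mul_le_mul_left h3 hX0
  constructor
  · -- from below
    obtain ⟨h1, _⟩ := hcore X hX0 hXn (Y / D) hylow hyX
    have h2 : c * (Y ^ t * (n : ℝ) ^ (1 / (k : ℝ) - 1)) ≤ c2 * ((Y / D) ^ t * (n : ℝ) ^ (1 / (k : ℝ) - 1)) := by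
      calc c * (Y ^ t * (n : ℝ) ^ (1 / (k : ℝ) - 1)) ≤ c2 / D ^ t * (Y ^ t * (n : ℝ) ^ (1 / (k : ℝ) - 1)) :=
            mul_le_mul_of_nonneg_right hcc2 (by positivity)
        _ = _ := by
            rw [div_pow]
            field_simp
    refine h2.trans (h1.trans ?_)
    apply NS_ge t k (by omega) a ha g X Y (Y / D) n P hX0 (by positivity) hYY
    intro b x hb hx1 hx2 hsum
    set y : ℝ := Y / D with hy
    have hy0 : 0 < y := by positivity
    have hyXX : y ≤ X := hyX.trans (div_le_self hX0.le hD1)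
    have hbP : ∀ i, 1 ≤ b i ∧ b i ≤ P := by
      intro i
      have h3 := abs_le.1 (hb i)
      have h4 := hnear y hy0.le hyX
      have h5 : y < X := by
        refine lt_of_le_of_lt hyX ?_
        rw [div_lt_iff₀ hD0]
        nlinarith [hD4']
      constructor
      · have : (0 : ℝ) < b i := by linarith
        exact_mod_cast this
      · have : (b i : ℝ) ≤ P := by linarith
        exact_mod_cast this
    have h3 := hsz P x hx1 hx2
    have h4 : |(wC t g b : ℝ) - ∑ i, a * (b i : ℝ) ^ k| ≤ t * (C1 * (P : ℝ) ^ (k - 1)) := by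
      have e1 : (wC t g b : ℝ) - ∑ i, a * (b i : ℝ) ^ k = ∑ i, ((g (b i) : ℝ) - a * (b i : ℝ) ^ k) := by
        unfold wC
        push_cast
        rw [sum_sub_distrib]
      rw [e1]
      calc |∑ i, ((g (b i) : ℝ) - a * (b i : ℝ) ^ k)| ≤ ∑ i, |(g (b i) : ℝ) - a * (b i : ℝ) ^ k| :=
            abs_sum_le_sum_abs _ _
        _ ≤ ∑ _i : Fin t, C1 * (P : ℝ) ^ (k - 1) := sum_le_sum fun i _ => hsz P (b i) (hbP i).1 (hbP i).2
        _ = _ := by rw [sum_const, card_univ, Fintype.card_fin, nsmul_eq_mul]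
    have h5 : |∑ i, a * (b i : ℝ) ^ k - t * (a * X ^ k)| ≤ t * (a * (k * 2 ^ (k - 1) * X ^ (k - 1) * y)) := by
      have e1 : ∑ i, a * (b i : ℝ) ^ k - t * (a * X ^ k) = ∑ i : Fin t, (a * (b i : ℝ) ^ k - a * X ^ k) := by
        rw [sum_sub_distrib, sum_const, card_univ, Fintype.card_fin, nsmul_eq_mul]
      rw [e1]
      calc |∑ i : Fin t, (a * (b i : ℝ) ^ k - a * X ^ k)| ≤ ∑ i : Fin t, |a * (b i : ℝ) ^ k - a * X ^ k| :=
            abs_sum_le_sum_abs _ _
        _ ≤ ∑ _i : Fin t, a * (k * 2 ^ (k - 1) * X ^ (k - 1) * y) := by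
            apply sum_le_sum
            intro i _
            rw [← mul_sub, abs_mul, abs_of_pos ha]
            exact mul_le_mul_of_nonneg_left (pow_near k (by omega) X y hX0 hy0.le hyXX _ (hb i)) ha.le
        _ = _ := by rw [sum_const, card_univ, Fintype.card_fin, nsmul_eq_mul]
    have h6 : (wC t g b : ℝ) + (g x : ℝ) = n := by exact_mod_cast hsum
    have h7 : (n : ℝ) = a * X ^ k + t * (a * X ^ k) := by
      rw [← hXn, hst]
      ring
    have h8 : a * |(x : ℝ) ^ k - X ^ k| ≤ t * (a * (k * 2 ^ (k - 1) * X ^ (k - 1) * y)) + s * (C1 * (P : ℝ) ^ (k - 1)) := by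
      rw [← abs_of_pos ha, ← abs_mul, abs_of_pos ha, mul_sub, abs_le]
      have h9 := abs_le.1 h3
      have h10 := abs_le.1 h4
      have h11 := abs_le.1 h5
      rw [hst]
      constructor <;> linarith [h9.1, h9.2, h10.1, h10.2, h11.1, h11.2]
    have h9 := pow_sep k (by omega) X (x : ℝ) hX0 (Nat.cast_nonneg _)
    have h10 : X ^ (k - 1) * (a * |(x : ℝ) - X|) ≤ X ^ (k - 1) * (a * Y) := by
      calc X ^ (k - 1) * (a * |(x : ℝ) - X|) = a * (X ^ (k - 1) * |(x : ℝ) - X|) := by ring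
        _ ≤ a * |(x : ℝ) ^ k - X ^ k| := mul_le_mul_of_nonneg_left h9 ha.le
        _ ≤ t * (a * (k * 2 ^ (k - 1) * X ^ (k - 1) * y)) + s * (C1 * (P : ℝ) ^ (k - 1)) := h8
        _ ≤ s * (a * (k * 2 ^ (k - 1) * X ^ (k - 1) * y)) + s * (C1 * (2 ^ (k + 1) * s * X ^ (k - 1))) := by
            apply add_le_add
            · apply mul_le_mul_of_nonneg_right _ (by positivity)
              linarith
            · apply mul_le_mul_of_nonneg_left _ hs0.le
              exact mul_le_mul_of_nonneg_left hPX hC1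
        _ = X ^ (k - 1) * (a * (s * (k * 2 ^ (k - 1)) * y) + a * C5) := by
            rw [hC5]
            field_simp
        _ ≤ X ^ (k - 1) * (a * (Y / 4) + a * (Y / 2)) := by
            apply mul_le_mul_of_nonneg_left _ hXk1.le
            apply add_le_add
            · apply mul_le_mul_of_nonneg_left _ ha.le
              have e1 : s * (k * 2 ^ (k - 1)) = D / 4 := by rw [hD4]; ring
              rw [e1, hy]
              apply le_of_eq
              field_simp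
            · apply mul_le_mul_of_nonneg_left _ ha.le
              linarith
        _ ≤ _ := by
            apply mul_le_mul_of_nonneg_left _ hXk1.le
            nlinarith
    exact le_of_mul_le_mul_left (le_of_mul_le_mul_left h10 hXk1) ha
  · obtain ⟨_, h1⟩ := hcore X hX0 hXn Y hYlow hYX
    refine le_trans (NS_le t g X Y n P hX0 hY0.le ?_ ?_) h1
    · refine lt_of_le_of_lt hYX ?_
      rw [div_lt_iff₀ hD0]
      nlinarith [hD4']
    · exact hnear Y hY0.le hYX

end Pool.Agent.U914.WP
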