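import Mathlib
import Pool.Agent.U914.WP.KJ

/-! Almost all polynomials in Waring's problem: sums over boxes and integrals. -/

set_option autoImplicit false

open Finset MeasureTheory

namespace Pool.Agent.U914.WP

theorem rh_anti (k : ℕ) (hk : 1 ≤ k) (a x y : ℝ) (ha : 0 < a) (hx : 0 < x) (hxy : x ≤ y) : rh k a y ≤ rh k a x := by
  have hk0 : (0 : ℝ) < k := by exact_mod_cast hk
  have hk1 : (1 : ℝ) ≤ k := by exact_mod_cast hk
  have hy : 0 < y := by linarith
  have h1 := conc k hk a x y ha hx hy.le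
  have h2 := rh_pos k hk a x ha hx
  have h3 : ps1 k a x = rh k a x * (k * x) := by
    unfold rh
    field_simp
  have h4 : rh k a y = ps1 k a y / (k * y) := rfl
  rw [h4, div_le_iff₀ (by positivity)]
  rw [h3] at h1
  have h5 : k * x + (y - x) ≤ k * y := by nlinarith
  have h6 := mul_le_mul_of_nonneg_left h5 h2.le
  linarith

theorem rh_lip (k : ℕ) (hk : 1 ≤ k) (a m x y : ℝ) (ha : 0 < a) (hm : 0 < m) (hx : m ≤ x) (hy : m ≤ y) :
    |rh k a x - rh k a y| ≤ rh k a m * (|x - y| / m) := by
  wlog h : x ≤ y generalizing x y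
  · rw [abs_sub_comm, abs_sub_comm x y]
    exact this y x hy hx (le_of_not_ge h)
  have hx0 : 0 < x := by linarith
  have h1 := rh_anti k hk a x y ha hx0 h
  have h2 := rh_slow k hk a x y ha hx0 h
  have h3 := rh_anti k hk a m x ha hm hx
  have h4 := rh_pos k hk a x ha hx0
  have h5 := rh_pos k hk a y ha (by linarith)
  have h7 := rh_pos k hk a m ha hm
  rw [abs_of_nonneg (by linarith), abs_of_nonpos (by linarith : x - y ≤ 0)]
  have h6 : rh k a x - rh k a y ≤ rh k a y * ((y - x) / x) := by
    have : rh k a y * (y / x) = rh k a y + rh k a y * ((y - x) / x) := by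
      field_simp
      ring
    linarith
  have h8 : 0 ≤ y - x := by linarith
  calc rh k a x - rh k a y ≤ rh k a y * ((y - x) / x) := h6
    _ ≤ rh k a m * ((y - x) / m) := by
        apply mul_le_mul (h1.trans h3) _ (by positivity) h7.le
        exact div_le_div_of_nonneg_left h8 hm hx
    _ = _ := by
        congr 2
        ring

/-- the unit cube with upper corner `b` -/
def cube (t : ℕ) (b : Fin t → ℕ) : Set (Fin t → ℝ) := Set.pi Set.univ fun i => Set.Ioc ((b i : ℝ) - 1) (b i)

theorem cube_vol (t : ℕ) (b : Fin t → ℕ) : volume (cube t b) = 1 := by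
  unfold cube
  rw [Real.volume_pi_Ioc]
  simp

theorem cube_meas (t : ℕ) (b : Fin t → ℕ) : MeasurableSet (cube t b) :=
  MeasurableSet.univ_pi fun _ => measurableSet_Ioc

theorem box_union (t : ℕ) (U V : Fin t → ℕ) : Set.pi Set.univ (fun i => Set.Ioc (U i : ℝ) (V i)) =
    ⋃ b ∈ Fintype.piFinset (fun i => Ioc (U i) (V i)), cube t b := by
  ext u
  simp only [Set.mem_iUnion, exists_prop, Fintype.mem_piFinset, mem_Ioc, cube, Set.mem_pi, Set.mem_univ, true_implies,
    Set.mem_Ioc]
  constructor
  · intro h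
    refine ⟨fun i => ⌈u i⌉₊, fun i => ⟨?_, ?_⟩, fun i => ⟨?_, ?_⟩⟩
    · rw [Nat.lt_ceil]
      exact (h i).1
    · rw [Nat.ceil_le]
      exact (h i).2
    · have h1 := (h i).1
      have h2 : (0 : ℝ) ≤ U i := Nat.cast_nonneg _
      have := Nat.ceil_lt_add_one (by linarith : 0 ≤ u i)
      linarith
    · exact Nat.le_ceil _
  · rintro ⟨b, hb, hu⟩ i
    have h1 : ((U i : ℝ)) + 1 ≤ b i := by exact_mod_cast (hb i).1
    have h2 : ((b i : ℝ)) ≤ V i := by exact_mod_cast (hb i).2
    constructor <;> linarith [(hu i).1, (hu i).2]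

theorem cube_disj (t : ℕ) (b c : Fin t → ℕ) (h : b ≠ c) : Disjoint (cube t b) (cube t c) := by
  rw [Set.disjoint_left]
  intro u hu hc
  apply h
  funext i
  have h1 := hu i (Set.mem_univ i)
  have h2 := hc i (Set.mem_univ i)
  have h3 : (b i : ℝ) < c i + 1 := by linarith [h1.1, h1.2, h2.1, h2.2]
  have h4 : (c i : ℝ) < b i + 1 := by linarith [h1.1, h1.2, h2.1, h2.2]
  have h5 : b i < c i + 1 := by exact_mod_cast h3
  have h6 : c i < b i + 1 := by exact_mod_cast h4
  omega

/-- **Sums over boxes and integrals.** -/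
theorem cube_sum (t : ℕ) (U V : Fin t → ℕ) (φ : (Fin t → ℝ) → ℝ) (L : ℝ)
    (hφ : ∀ b ∈ Fintype.piFinset (fun i => Ioc (U i) (V i)), IntegrableOn φ (cube t b))
    (hL : ∀ b ∈ Fintype.piFinset (fun i => Ioc (U i) (V i)), ∀ u ∈ cube t b, |φ (fun i => (b i : ℝ)) - φ u| ≤ L) :
    |∑ b ∈ Fintype.piFinset (fun i => Ioc (U i) (V i)), φ (fun i => (b i : ℝ)) -
      ∫ u in Set.pi Set.univ (fun i => Set.Ioc (U i : ℝ) (V i)), φ u| ≤
      (Fintype.piFinset (fun i => Ioc (U i) (V i))).card * L := by
  rw [box_union, integral_biUnion_finset _ (fun b _ => cube_meas t b) (fun b _ c _ h => cube_disj t b c h) hφ,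
    ← sum_sub_distrib]
  refine (abs_sum_le_sum_abs _ _).trans ?_
  calc _ ≤ ∑ _b ∈ Fintype.piFinset (fun i => Ioc (U i) (V i)), L := by
        apply sum_le_sum
        intro b hb
        have hv : volume.real (cube t b) = 1 := by
          rw [Measure.real, cube_vol]
          rfl
        have hfin : volume (cube t b) ≠ ⊤ := by
          rw [cube_vol]
          exact ENNReal.one_ne_top
        have e1 : φ (fun i => (b i : ℝ)) = ∫ _u in cube t b, φ (fun i => (b i : ℝ)) := by
          rw [setIntegral_const, hv, one_smul]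
        have hc : Integrable (fun _ : Fin t → ℝ => φ (fun i => (b i : ℝ))) (volume.restrict (cube t b)) :=
          integrableOn_const (hs := hfin)
        rw [e1, ← integral_sub hc (hφ b hb), ← Real.norm_eq_abs]
        have h1 := norm_setIntegral_le_of_norm_le_const (μ := volume) (s := cube t b) (C := L)
          (f := fun u => φ (fun i => (b i : ℝ)) - φ u) (lt_top_iff_ne_top.2 hfin)
          (fun u hu => by rw [Real.norm_eq_abs]; exact hL b hb u hu)
        rw [hv, mul_one] at h1
        exact h1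
    _ = _ := by rw [sum_const, nsmul_eq_mul]

end Pool.Agent.U914.WP
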