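import Mathlib
import Pool.Agent.U914.WP.KL

/-! Almost all polynomials in Waring's problem: the count in boxes, in mean square. -/

set_option autoImplicit false

open Finset MeasureTheory

namespace Pool.Agent.U914.WP

/-- the mean square of a product over sets -/
theorem mv_sets2 (k t : ℕ) (hk : 1 ≤ k) (ht : k ≤ t) (g : ℕ → ℤ) (P : ℕ) (M : ℝ) (hM : 0 ≤ M)
    (hmv : ∫⁻ α in Set.Icc (-(1 / 2) : ℝ) (1 / 2), ENNReal.ofReal (‖FW (Ioc 0 P) g α‖ ^ (2 * k)) ≤ ENNReal.ofReal M)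
    (B : Fin t → Finset ℕ) (hB : ∀ i, B i ⊆ Ioc 0 P) :
    ∫⁻ α in Set.Icc (-(1 / 2) : ℝ) (1 / 2), ENNReal.ofReal (‖FW (Fintype.piFinset B) (wC t g) α‖ ^ 2) ≤
      ENNReal.ofReal (t * ((P : ℝ) ^ (2 * (t - k)) * M)) := by
  have hpt : ∀ α : ℝ, ‖FW (Fintype.piFinset B) (wC t g) α‖ ^ 2 ≤
      ∑ i, (P : ℝ) ^ (2 * (t - k)) * ‖FW (B i) g α‖ ^ (2 * k) := by
    intro α
    have h1 : FW (Fintype.piFinset B) (wC t g) α = ∏ i, FW (B i) g α := (FW_prod B (fun _ => g) α).symm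
    rw [h1, norm_prod, ← prod_pow]
    refine (prod_le_sum_pow t (by omega) (fun i => ‖FW (B i) g α‖ ^ 2) fun i => by positivity).trans ?_
    apply sum_le_sum
    intro i _
    have e1 : (‖FW (B i) g α‖ ^ 2) ^ t = ‖FW (B i) g α‖ ^ (2 * (t - k)) * ‖FW (B i) g α‖ ^ (2 * k) := by
      rw [← pow_add, ← pow_mul]
      congr 1
      omega
    rw [e1]
    apply mul_le_mul_of_nonneg_right _ (by positivity)
    apply pow_le_pow_left₀ (norm_nonneg _)
    refine (FW_le (B i) g α).trans ?_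
    have h2 := card_le_card (hB i)
    rw [Nat.card_Ioc, Nat.sub_zero] at h2
    exact_mod_cast h2
  have hm : ∀ i, Measurable fun α : ℝ => ENNReal.ofReal ((P : ℝ) ^ (2 * (t - k)) * ‖FW (B i) g α‖ ^ (2 * k)) := fun i =>
    (ENNReal.continuous_ofReal.comp (continuous_const.mul ((FW_cont _ _).norm.pow _))).measurable
  calc _ ≤ ∫⁻ α in Set.Icc (-(1 / 2) : ℝ) (1 / 2),
          ENNReal.ofReal (∑ i, (P : ℝ) ^ (2 * (t - k)) * ‖FW (B i) g α‖ ^ (2 * k)) :=
        lintegral_mono fun α => ENNReal.ofReal_le_ofReal (hpt α)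
    _ = ∑ i, ∫⁻ α in Set.Icc (-(1 / 2) : ℝ) (1 / 2),
          ENNReal.ofReal ((P : ℝ) ^ (2 * (t - k)) * ‖FW (B i) g α‖ ^ (2 * k)) := by
        rw [← lintegral_finsetSum _ fun i _ => hm i]
        apply lintegral_congr
        intro α
        rw [ENNReal.ofReal_sum_of_nonneg fun i _ => by positivity]
    _ ≤ ∑ _i : Fin t, ENNReal.ofReal ((P : ℝ) ^ (2 * (t - k)) * M) := by
        apply sum_le_sum
        intro i _
        have h1 : (0 : ℝ) ≤ (P : ℝ) ^ (2 * (t - k)) := by positivity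
        simp only [ENNReal.ofReal_mul h1]
        rw [lintegral_const_mul' _ _ ENNReal.ofReal_ne_top]
        exact mul_le_mul_right ((FW_mono k g _ _ (hB i)).trans hmv) _
    _ = _ := by
        rw [sum_const, card_univ, Fintype.card_fin, nsmul_eq_mul, ENNReal.ofReal_mul (Nat.cast_nonneg _),
          ENNReal.ofReal_natCast]

/-- **The count in boxes in mean square.** -/
theorem eq_ms (d : ℕ) (hd : 1 ≤ d) (a : ℝ) (ha : 0 < a) (δ : ℝ) (hδ0 : 0 < δ) (hδ1 : δ ≤ 1 / 1000) (θ : Fin d → ℝ)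
    (hdom : Dom (d + 1) (fl d a θ) δ) (hmv : MVp (d + 1) (fl d a θ)) (t : ℕ) (ht : d + 1 ≤ t) (η : ℝ) (hη0 : 0 < η)
    (hη1 : η ≤ 1) :
    ∀ᶠ N : ℕ in Filter.atTop, ∀ U V : Fin t → ℕ, a * ∑ i, (V i : ℝ) ^ (d + 1) ≤ (1 - η) * N →
      ∑ n ∈ Icc N (2 * N), ((rC t (fl d a θ) (fun i => Ioc (U i) (V i)) n : ℝ) -
        ∫ u in Set.pi Set.univ (fun i => Set.Ioc (U i : ℝ) (V i)), rh (d + 1) a (n - a * ∑ i, u i ^ (d + 1))) ^ 2 ≤
        (N : ℝ) ^ (2 * ((t + 1 : ℕ) : ℝ) / ((d + 1 : ℕ) : ℝ) - 1 - δ / (2 * ((d + 1 : ℕ) : ℝ))) := by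
  set k : ℕ := d + 1 with hk
  have hk2 : 2 ≤ k := by omega
  have hk2r : (2 : ℝ) ≤ k := by exact_mod_cast hk2
  have hk0 : (0 : ℝ) < k := by linarith
  have hkne : k ≠ 0 := by omega
  set g : ℕ → ℤ := fl d a θ with hg
  have hsz : Sz k a g (∑ j, |θ j| + 1) := sz_fl d a θ
  have hC1 : 0 ≤ ∑ j, |θ j| + 1 := by positivity
  set C1 : ℝ := ∑ j, |θ j| + 1 with hC1d
  have htr : (k : ℝ) ≤ t := by exact_mod_cast ht
  have ht0 : (0 : ℝ) < t := by linarith
  set c0 : ℝ := η * a / (16 * 2 ^ k) with hc0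
  have hc00 : 0 < c0 := by positivity
  obtain ⟨Cm, hCm, hmach⟩ := machine k hk2 a ha g δ hδ0 hδ1 hdom _ hC1 hsz c0 hc00
  obtain ⟨ν1, hν1⟩ := Filter.eventually_atTop.1 (hmach.and (hmv (δ / 4) (by positivity)))
  set c5 : ℝ := 2 * (2 * 4 / a) ^ ((k : ℝ)⁻¹) with hc5
  have hc50 : 0 < c5 := by positivity
  set E : ℝ := 2 * (t : ℝ) + 2 - k - 3 * δ / 4 with hE
  have hE0 : 0 < E := by
    rw [hE]
    linarith
  set C3 : ℝ := 1 / (k * c0) with hC3
  have hC30 : 0 < C3 := by positivity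
  set C7 : ℝ := C3 * (t * C1 / c0) + C3 * (a * t * k / c0) with hC7
  have hC70 : 0 ≤ C7 := by positivity
  set C6 : ℝ := 2 * (Cm * (t + 1)) + 2 * ((a + 1) * C7 ^ 2) with hC6
  have hC60 : 0 < C6 := by positivity
  have hev1 : ∀ᶠ N : ℝ in Filter.atTop, N ^ (-(δ / (4 * k))) ≤ 1 / (C6 * c5 ^ E) :=
    (tendsto_rpow_neg_atTop (by positivity : (0 : ℝ) < δ / (4 * k))).eventually_le_const (by positivity)
  have hnat := tendsto_natCast_atTop_atTop (R := ℝ)
  filter_upwards [hnat.eventually (scale_real k hk2 a ha 4 (by norm_num) ν1),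
    hnat.eventually (rC_eq t d a ha θ 4 (by norm_num)), hnat.eventually (wC_size t k hk2 a ha g _ hC1 hsz (η / 2)
      (by positivity)), hnat.eventually hev1, Filter.eventually_ge_atTop 1] with n hsc hrC hwC hev1 hn1
  intro U V hUV
  have hn0 : (0 : ℝ) < n := by exact_mod_cast hn1
  obtain ⟨ν, hν, hs1, hs2⟩ := hsc
  obtain ⟨hm, hmv'⟩ := hν1 ν hν
  have hrC' : ∀ m ∈ Icc n (2 * n), (rC t g (fun i => Ioc (U i) (V i)) m : ℝ) =
      RW (Fintype.piFinset fun i => Ioc (U i) (V i)) (wC t g) (2 ^ ν) g m := by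
    intro m hm
    have h1 : (m : ℝ) ≤ 2 * n := by exact_mod_cast (mem_Icc.1 hm).2
    exact hrC m (2 ^ ν) (by linarith) hs2 (fun i => Ioc (U i) (V i))
  set p : ℝ := ((2 ^ ν : ℕ) : ℝ) with hp
  have hp0 : 0 < p := by positivity
  have hp1 : 1 ≤ p := by rw [hp]; exact_mod_cast Nat.one_le_two_pow
  have hmul : ∀ x y : ℝ, p ^ x * p ^ y = p ^ (x + y) := fun x y => (Real.rpow_add hp0 x y).symm
  have hlow : 2 * (c0 * p ^ k) ≤ η * n := by
    have e1 : η * (a * (p / 2) ^ k) = 8 * (2 * (c0 * p ^ k)) := by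
      rw [hc0, div_pow]
      field_simp
      norm_num
    have h1 := mul_le_mul_of_nonneg_left hs1 hη0.le
    rw [e1] at h1
    linarith
  set B : Fin t → Finset ℕ := fun i => Ioc (U i) (V i) with hB
  set W : Finset (Fin t → ℕ) := Fintype.piFinset B with hW
  -- the members
  have hmem : ∀ b ∈ W, (∀ i, 0 < b i ∧ a * (b i : ℝ) ^ k ≤ n) ∧ a * ∑ i, (b i : ℝ) ^ k ≤ (1 - η) * n ∧
      ∀ i, b i ≤ 2 ^ ν := by
    intro b hb
    rw [hW, Fintype.mem_piFinset] at hb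
    have h1 : ∀ i, U i < b i ∧ b i ≤ V i := fun i => mem_Ioc.1 (hb i)
    have h2 : a * ∑ i, (b i : ℝ) ^ k ≤ (1 - η) * n := by
      refine le_trans (mul_le_mul_of_nonneg_left (sum_le_sum fun i _ => ?_) ha.le) hUV
      exact pow_le_pow_left₀ (Nat.cast_nonneg _) (by exact_mod_cast (h1 i).2) _
    have h3 : ∀ i, a * (b i : ℝ) ^ k ≤ n := by
      intro i
      have h4 : (b i : ℝ) ^ k ≤ ∑ i, (b i : ℝ) ^ k :=
        single_le_sum (f := fun i => (b i : ℝ) ^ k) (fun i _ => by positivity) (mem_univ i)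
      have h5 := mul_le_mul_of_nonneg_left h4 ha.le
      have h6 : 0 ≤ η * n := by positivity
      linarith
    refine ⟨fun i => ⟨by have := (h1 i).1; omega, h3 i⟩, h2, fun i => ?_⟩
    have h4 : a * (b i : ℝ) ^ k ≤ a * p ^ k := by
      have := h3 i
      linarith
    have h5 : (b i : ℝ) ≤ ((2 ^ ν : ℕ) : ℝ) := le_of_pow_le_pow_left₀ hkne hp0.le (le_of_mul_le_mul_left h4 ha)
    exact_mod_cast h5
  rcases W.eq_empty_or_nonempty with hWe | ⟨b0, hb0⟩
  · -- nothing to count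
    have h2 : Set.pi Set.univ (fun i => Set.Ioc (U i : ℝ) (V i)) = ∅ := by
      rw [box_union]
      have h3 : Fintype.piFinset (fun i => Ioc (U i) (V i)) = ∅ := hWe
      rw [h3]
      simp
    have h3 : ∀ m ∈ Icc n (2 * n), ((rC t g B m : ℝ) -
        ∫ u in Set.pi Set.univ (fun i => Set.Ioc (U i : ℝ) (V i)), rh k a (m - a * ∑ i, u i ^ k)) ^ 2 = 0 := by
      intro m hm
      have h1 : RW W (wC t g) (2 ^ ν) g ((m : ℕ) : ℤ) = 0 := by
        rw [hWe]
        unfold RW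
        simp
      rw [hrC' m hm, h1, h2, Measure.restrict_empty, integral_zero_measure, sub_zero]
      norm_num
    rw [sum_congr rfl h3, sum_const_zero]
    positivity
  have hBP : ∀ i, B i ⊆ Ioc 0 (2 ^ ν) := by
    intro i x hx
    have hb1 : Function.update b0 i x ∈ W := by
      rw [hW, Fintype.mem_piFinset] at hb0 ⊢
      intro j
      by_cases hj : j = i
      · subst hj
        rw [Function.update_self]
        exact hx
      · rw [Function.update_of_ne hj]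
        exact hb0 j
    obtain ⟨h1, _, h2⟩ := hmem _ hb1
    have h3 := (h1 i).1
    have h4 := h2 i
    rw [Function.update_self] at h3 h4
    rw [mem_Ioc]
    exact ⟨h3, h4⟩
  have hcardW : (W.card : ℝ) ≤ p ^ (t : ℝ) := by
    have h1 := card_pi_le t (2 ^ ν) B hBP
    rwa [← Real.rpow_natCast] at h1
  have hK := mv_sets2 k t (by omega) ht g (2 ^ ν) (p ^ ((k : ℝ) + δ / 4)) (by positivity) hmv' B hBP
  obtain ⟨_, hm2⟩ := hm (Fin t → ℕ) W (wC t g)
  -- the range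
  have hwb : ∀ b ∈ W, |(wC t g b : ℝ) - a * ∑ i, (b i : ℝ) ^ k| ≤ t * C1 * p ^ (k - 1) := by
    intro b hb
    obtain ⟨h1, _, h2⟩ := hmem b hb
    have h3 : (wC t g b : ℝ) - a * ∑ i, (b i : ℝ) ^ k = ∑ i, ((g (b i) : ℝ) - a * (b i : ℝ) ^ k) := by
      unfold wC
      push_cast
      rw [sum_sub_distrib, mul_sum]
    rw [h3]
    calc |∑ i, ((g (b i) : ℝ) - a * (b i : ℝ) ^ k)| ≤ ∑ i, |(g (b i) : ℝ) - a * (b i : ℝ) ^ k| :=
          abs_sum_le_sum_abs _ _
      _ ≤ ∑ _i : Fin t, C1 * p ^ (k - 1) := sum_le_sum fun i _ => hsz (2 ^ ν) (b i) (h1 i).1 (h2 i)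
      _ = _ := by
          rw [sum_const, card_univ, Fintype.card_fin, nsmul_eq_mul]
          ring
  have hJ : ∀ m ∈ Icc n (2 * n), (n : ℝ) ≤ m ∧ (m : ℝ) ≤ 2 * n := by
    intro m hm
    rw [mem_Icc] at hm
    exact ⟨by exact_mod_cast hm.1, by exact_mod_cast hm.2⟩
  have hrange2 : ∀ m ∈ Icc n (2 * n), ∀ b ∈ W, c0 * p ^ k ≤ (m : ℝ) - a * ∑ i, (b i : ℝ) ^ k := by
    intro m hm b hb
    obtain ⟨_, h2, _⟩ := hmem b hb
    have h3 : 0 < c0 * p ^ k := by positivity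
    have h4 := (hJ m hm).1
    linarith
  have hrange : ∀ m ∈ Icc n (2 * n), ∀ b ∈ W, c0 * p ^ k ≤ (((m : ℕ) : ℤ) : ℝ) - wC t g b ∧
      (((m : ℕ) : ℤ) : ℝ) - wC t g b ≤ a * p ^ k / 2 := by
    intro m hm b hb
    obtain ⟨h7, h8⟩ := hJ m hm
    obtain ⟨h1, h2, _⟩ := hmem b hb
    have h3 := hwC b h1
    rw [← mul_sum] at h3
    have h4 := abs_le.1 h3
    have h5 : 0 ≤ a * ∑ i, (b i : ℝ) ^ k := by positivity
    have h6 : η / 2 * n ≤ n := by nlinarith
    rw [Int.cast_natCast]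
    constructor <;> linarith [h4.1, h4.2]
  have hfin := hm2 ((Icc n (2 * n)).map Nat.castEmbedding) (by
    intro m hm
    rw [mem_map] at hm
    obtain ⟨m', hm', rfl⟩ := hm
    exact hrange m' hm') _ (by positivity) hK
  rw [sum_map] at hfin
  -- the size of the density
  have hc0p : 0 < c0 * p ^ k := by positivity
  have hpk1 : p ^ k = p * p ^ (k - 1) := by
    have : k = (k - 1) + 1 := by omega
    nth_rewrite 1 [this]
    rw [pow_succ]
    ring
  have hρ : rh k a (c0 * p ^ k) ≤ C3 * p ^ (1 - (k : ℝ)) := by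
    have hps : ps1 k a (c0 * p ^ k) ≤ p := by
      apply le_of_pow_le_pow_left₀ hkne hp0.le
      have h4 : a * ps1 k a (c0 * p ^ k) ^ k ≤ a * p ^ k := by
        rw [ps1_pow k (by omega) a _ ha hc0p.le]
        apply mul_le_mul_of_nonneg_right _ (by positivity)
        rw [hc0, div_le_iff₀ (by positivity)]
        have h5 : (1 : ℝ) ≤ 2 ^ k := one_le_pow₀ (by norm_num)
        nlinarith
      exact le_of_mul_le_mul_left h4 ha
    unfold rh
    calc ps1 k a (c0 * p ^ k) / (k * (c0 * p ^ k)) ≤ p / (k * (c0 * p ^ k)) :=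
          div_le_div_of_nonneg_right hps (by positivity)
      _ = _ := by
          rw [hC3, Real.rpow_sub hp0, Real.rpow_one, Real.rpow_natCast]
          field_simp
  have hρ0 : 0 ≤ rh k a (c0 * p ^ k) := (rh_pos k (by omega) a _ ha hc0p).le
  have hlip : ∀ x y D : ℝ, 0 ≤ D → c0 * p ^ k ≤ x → c0 * p ^ k ≤ y → |x - y| ≤ D * p ^ (k - 1) →
      |rh k a x - rh k a y| ≤ C3 * (D / c0) * p ^ (-(k : ℝ)) := by
    intro x y D hD hx hy hxy
    refine (rh_lip k (by omega) a (c0 * p ^ k) x y ha hc0p hx hy).trans ?_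
    calc rh k a (c0 * p ^ k) * (|x - y| / (c0 * p ^ k)) ≤
          C3 * p ^ (1 - (k : ℝ)) * (D * p ^ (k - 1) / (c0 * p ^ k)) := by
          apply mul_le_mul hρ _ (by positivity) (by positivity)
          exact div_le_div_of_nonneg_right hxy hc0p.le
      _ = _ := by
          rw [hpk1, Real.rpow_sub hp0, Real.rpow_one, Real.rpow_neg hp0.le, Real.rpow_natCast, hpk1]
          field_simp
  -- from the integer parts to the polynomial
  have hstep1 : ∀ m ∈ Icc n (2 * n),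
      |∑ b ∈ W, rh k a ((m : ℝ) - wC t g b) - ∑ b ∈ W, rh k a ((m : ℝ) - a * ∑ i, (b i : ℝ) ^ k)| ≤
      W.card * (C3 * (t * C1 / c0) * p ^ (-(k : ℝ))) := by
    intro m hm
    rw [← sum_sub_distrib]
    refine (abs_sum_le_sum_abs _ _).trans ?_
    calc _ ≤ ∑ _b ∈ W, C3 * (t * C1 / c0) * p ^ (-(k : ℝ)) := by
          apply sum_le_sum
          intro b hb
          apply hlip _ _ (t * C1) (by positivity) (by have := (hrange m hm b hb).1; rwa [Int.cast_natCast] at this)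
            (hrange2 m hm b hb)
          have e1 : (m : ℝ) - wC t g b - (m - a * ∑ i, (b i : ℝ) ^ k) = -((wC t g b : ℝ) - a * ∑ i, (b i : ℝ) ^ k) := by
            ring
          rw [e1, abs_neg]
          exact hwb b hb
      _ = _ := by rw [sum_const, nsmul_eq_mul]
  -- from the sum to the integral
  have hcubeb : ∀ b ∈ W, ∀ u ∈ cube t b, (a * ∑ i, u i ^ k ≤ a * ∑ i, (b i : ℝ) ^ k) ∧
      a * ∑ i, (b i : ℝ) ^ k - a * ∑ i, u i ^ k ≤ a * t * k * p ^ (k - 1) := by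
    intro b hb u hu
    obtain ⟨h1, _, h2⟩ := hmem b hb
    have h3 : ∀ i, 0 ≤ u i ∧ u i ≤ b i ∧ (b i : ℝ) - 1 ≤ u i := by
      intro i
      have h4 := hu i (Set.mem_univ i)
      have h5 : (1 : ℝ) ≤ b i := by exact_mod_cast (h1 i).1
      exact ⟨by linarith [h4.1], h4.2, h4.1.le⟩
    have h4 : ∀ i, u i ^ k ≤ (b i : ℝ) ^ k := fun i => pow_le_pow_left₀ (h3 i).1 (h3 i).2.1 _
    have h5 : ∀ i, (b i : ℝ) ^ k - u i ^ k ≤ k * p ^ (k - 1) := by
      intro i
      have h6 := abs_pow_sub_pow_le (b i : ℝ) (u i) k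
      have h7 : |(b i : ℝ) - u i| ≤ 1 := by
        rw [abs_le]
        constructor <;> linarith [(h3 i).2.1, (h3 i).2.2]
      have hbp : (b i : ℝ) ≤ p := by
        rw [hp]
        exact_mod_cast h2 i
      have h8 : max |(b i : ℝ)| |u i| ≤ p := by
        apply max_le
        · rw [abs_of_nonneg (Nat.cast_nonneg _)]
          exact hbp
        · rw [abs_of_nonneg (h3 i).1]
          linarith [(h3 i).2.1]
      have h9 : 0 ≤ max |(b i : ℝ)| |u i| := le_max_of_le_left (abs_nonneg _)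
      calc (b i : ℝ) ^ k - u i ^ k ≤ |(b i : ℝ) ^ k - u i ^ k| := le_abs_self _
        _ ≤ |(b i : ℝ) - u i| * k * max |(b i : ℝ)| |u i| ^ (k - 1) := h6
        _ ≤ 1 * k * p ^ (k - 1) := by gcongr
        _ = _ := by ring
    constructor
    · exact mul_le_mul_of_nonneg_left (sum_le_sum fun i _ => h4 i) ha.le
    · rw [← mul_sub, ← sum_sub_distrib]
      calc a * ∑ i, ((b i : ℝ) ^ k - u i ^ k) ≤ a * ∑ _i : Fin t, (k * p ^ (k - 1)) :=
            mul_le_mul_of_nonneg_left (sum_le_sum fun i _ => h5 i) ha.le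
        _ = _ := by
            rw [sum_const, card_univ, Fintype.card_fin, nsmul_eq_mul]
            ring
  have hstep2 : ∀ m ∈ Icc n (2 * n), |∑ b ∈ W, rh k a ((m : ℝ) - a * ∑ i, (b i : ℝ) ^ k) -
      ∫ u in Set.pi Set.univ (fun i => Set.Ioc (U i : ℝ) (V i)), rh k a (m - a * ∑ i, u i ^ k)| ≤
      W.card * (C3 * (a * t * k / c0) * p ^ (-(k : ℝ))) := by
    intro m hm
    apply cube_sum t U V (fun u => rh k a ((m : ℝ) - a * ∑ i, u i ^ k))
    · intro b hb
      have hfin : volume (cube t b) ≠ ⊤ := by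
        rw [cube_vol]
        exact ENNReal.one_ne_top
      apply Measure.integrableOn_of_bounded hfin (M := rh k a (c0 * p ^ k))
      · apply Measurable.aestronglyMeasurable
        unfold rh ps1
        fun_prop
      · rw [ae_restrict_iff' (cube_meas t b)]
        refine Filter.Eventually.of_forall fun u hu => ?_
        have h1 := (hcubeb b hb u hu).1
        have h2 := hrange2 m hm b hb
        have h3 : c0 * p ^ k ≤ (m : ℝ) - a * ∑ i, u i ^ k := by linarith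
        have h4 := rh_pos k (by omega) a _ ha (lt_of_lt_of_le hc0p h3)
        rw [Real.norm_eq_abs, abs_of_pos h4]
        exact rh_anti k (by omega) a _ _ ha hc0p h3
    · intro b hb u hu
      obtain ⟨h1, h2⟩ := hcubeb b hb u hu
      have h3 := hrange2 m hm b hb
      apply hlip _ _ (a * t * k) (by positivity) h3 (by linarith)
      rw [abs_le]
      have h4 : 0 ≤ a * t * k * p ^ (k - 1) := by positivity
      constructor <;> linarith
  -- the sum of the errors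
  have e3 : W.card * (C7 * p ^ (-(k : ℝ))) ≤ C7 * p ^ ((t : ℝ) - k) := by
    calc W.card * (C7 * p ^ (-(k : ℝ))) ≤ p ^ (t : ℝ) * (C7 * p ^ (-(k : ℝ))) :=
          mul_le_mul_of_nonneg_right hcardW (by positivity)
      _ = C7 * (p ^ (t : ℝ) * p ^ (-(k : ℝ))) := by ring
      _ = _ := by rw [hmul, ← sub_eq_add_neg]
  have hterm : ∀ m ∈ Icc n (2 * n), ((rC t g B m : ℝ) -
      ∫ u in Set.pi Set.univ (fun i => Set.Ioc (U i : ℝ) (V i)), rh k a (m - a * ∑ i, u i ^ k)) ^ 2 ≤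
      2 * (RW W (wC t g) (2 ^ ν) g (Nat.castEmbedding m) -
        ∑ b ∈ W, rh k a (((Nat.castEmbedding m : ℤ) : ℝ) - (wC t g b : ℝ))) ^ 2 +
      2 * (C7 ^ 2 * p ^ (2 * ((t : ℝ) - k))) := by
    intro m hm
    have h6 : ((Nat.castEmbedding m : ℤ)) = ((m : ℕ) : ℤ) := rfl
    rw [h6, Int.cast_natCast, hrC' m hm]
    have h3 := abs_le.1 (hstep1 m hm)
    have h4 := abs_le.1 (hstep2 m hm)
    set A : ℝ := RW W (wC t g) (2 ^ ν) g ((m : ℕ) : ℤ) - ∑ b ∈ W, rh k a ((m : ℝ) - (wC t g b : ℝ)) with hA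
    set D : ℝ := RW W (wC t g) (2 ^ ν) g ((m : ℕ) : ℤ) -
      ∫ u in Set.pi Set.univ (fun i => Set.Ioc (U i : ℝ) (V i)), rh k a (m - a * ∑ i, u i ^ k) with hD
    have h5 : |D - A| ≤ C7 * p ^ ((t : ℝ) - k) := by
      refine le_trans ?_ e3
      have e4 : W.card * (C7 * p ^ (-(k : ℝ))) = W.card * (C3 * (t * C1 / c0) * p ^ (-(k : ℝ))) +
          W.card * (C3 * (a * t * k / c0) * p ^ (-(k : ℝ))) := by
        rw [hC7]
        ring
      rw [e4, abs_le]
      constructor <;> linarith [h3.1, h3.2, h4.1, h4.2]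
    have h7 : (D - A) ^ 2 ≤ C7 ^ 2 * p ^ (2 * ((t : ℝ) - k)) := by
      calc (D - A) ^ 2 = |D - A| ^ 2 := (sq_abs _).symm
        _ ≤ (C7 * p ^ ((t : ℝ) - k)) ^ 2 := pow_le_pow_left₀ (abs_nonneg _) h5 2
        _ = _ := by
            rw [mul_pow, ← Real.rpow_natCast (p ^ ((t : ℝ) - k)) 2, ← Real.rpow_mul hp0.le]
            congr 2
            push_cast
            ring
    nlinarith [sq_nonneg (D - 2 * A), sq_nonneg (A - (D - A))]
  have hcJ : ((Icc n (2 * n)).card : ℝ) ≤ (a + 1) * p ^ (k : ℝ) := by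
    rw [Nat.card_Icc]
    have h1 : ((2 * n + 1 - n : ℕ) : ℝ) = n + 1 := by
      have : 2 * n + 1 - n = n + 1 := by omega
      rw [this]
      push_cast
      rfl
    rw [h1, Real.rpow_natCast]
    have h2 : (1 : ℝ) ≤ n := by exact_mod_cast hn1
    have h3 : 0 < p ^ k := by positivity
    nlinarith
  have htot : ∑ n' ∈ Icc n (2 * n), ((rC t g B n' : ℝ) -
      ∫ u in Set.pi Set.univ (fun i => Set.Ioc (U i : ℝ) (V i)), rh k a (n' - a * ∑ i, u i ^ k)) ^ 2 ≤ C6 * p ^ E := by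
    refine (sum_le_sum hterm).trans ?_
    rw [sum_add_distrib, ← mul_sum, sum_const, nsmul_eq_mul]
    have e1 : p ^ (2 - δ) * (t * (p ^ (2 * (t - k)) * p ^ ((k : ℝ) + δ / 4))) ≤ t * p ^ E := by
      have h2 : p ^ (2 * (t - k)) = p ^ (2 * ((t : ℝ) - k)) := by
        rw [← Real.rpow_natCast, Nat.cast_mul, Nat.cast_sub ht]
        push_cast
        rfl
      rw [h2]
      calc p ^ (2 - δ) * (t * (p ^ (2 * ((t : ℝ) - k)) * p ^ ((k : ℝ) + δ / 4))) =
            t * (p ^ (2 - δ) * (p ^ (2 * ((t : ℝ) - k)) * p ^ ((k : ℝ) + δ / 4))) := by ring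
        _ = t * p ^ E := by
            rw [hmul, hmul]
            congr 2
            rw [hE]
            ring
        _ ≤ _ := le_rfl
    have e2 : (W.card : ℝ) ^ 2 * p ^ (2 - (k : ℝ) - δ) ≤ p ^ E := by
      calc (W.card : ℝ) ^ 2 * p ^ (2 - (k : ℝ) - δ) ≤ (p ^ (t : ℝ)) ^ 2 * p ^ (2 - (k : ℝ) - δ) :=
            mul_le_mul_of_nonneg_right (pow_le_pow_left₀ (Nat.cast_nonneg _) hcardW 2) (by positivity)
        _ ≤ _ := by
            rw [sq, hmul, hmul]
            exact Real.rpow_le_rpow_of_exponent_le hp1 (by rw [hE]; linarith)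
    have e6 := mul_le_mul_of_nonneg_left (add_le_add e1 e2) hCm.le
    have e7 : ((Icc n (2 * n)).card : ℝ) * (2 * (C7 ^ 2 * p ^ (2 * ((t : ℝ) - k)))) ≤
        2 * ((a + 1) * C7 ^ 2) * p ^ E := by
      calc ((Icc n (2 * n)).card : ℝ) * (2 * (C7 ^ 2 * p ^ (2 * ((t : ℝ) - k)))) ≤
            (a + 1) * p ^ (k : ℝ) * (2 * (C7 ^ 2 * p ^ (2 * ((t : ℝ) - k)))) :=
            mul_le_mul_of_nonneg_right hcJ (by positivity)
        _ = 2 * ((a + 1) * C7 ^ 2) * (p ^ (k : ℝ) * p ^ (2 * ((t : ℝ) - k))) := by ring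
        _ ≤ _ := by
            apply mul_le_mul_of_nonneg_left _ (by positivity)
            rw [hmul]
            exact Real.rpow_le_rpow_of_exponent_le hp1 (by rw [hE]; linarith)
    calc _ ≤ 2 * (Cm * (t * p ^ E + p ^ E)) + 2 * ((a + 1) * C7 ^ 2) * p ^ E :=
          add_le_add (mul_le_mul_of_nonneg_left (hfin.trans e6) (by norm_num)) e7
      _ = _ := by
          rw [hC6]
          ring
  refine htot.trans ?_
  have hpn : p ≤ c5 * (n : ℝ) ^ ((k : ℝ)⁻¹) := by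
    have h1 : (p / 2) ^ k ≤ 2 * (4 * n) / a := by
      rw [le_div_iff₀ ha, mul_comm]
      exact hs1
    have h2 := Real.rpow_le_rpow (by positivity) h1 (by positivity : (0 : ℝ) ≤ (k : ℝ)⁻¹)
    rw [Real.pow_rpow_inv_natCast (by positivity) hkne] at h2
    have h3 : 2 * (4 * (n : ℝ)) / a = 2 * 4 / a * n := by ring
    rw [h3, Real.mul_rpow (by positivity) hn0.le] at h2
    rw [hc5]
    linarith
  have hts : (((t + 1 : ℕ) : ℝ)) = t + 1 := by push_cast; rfl
  calc C6 * p ^ E ≤ C6 * (c5 ^ E * (n : ℝ) ^ (E / k)) := by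
        apply mul_le_mul_of_nonneg_left _ hC60.le
        calc p ^ E ≤ (c5 * (n : ℝ) ^ ((k : ℝ)⁻¹)) ^ E := Real.rpow_le_rpow hp0.le hpn hE0.le
          _ = _ := by
              rw [Real.mul_rpow hc50.le (by positivity), ← Real.rpow_mul hn0.le]
              congr 2
              field_simp
    _ = C6 * c5 ^ E * (n : ℝ) ^ (-(δ / (4 * k))) * (n : ℝ) ^ (2 * ((t + 1 : ℕ) : ℝ) / k - 1 - δ / (2 * k)) := by
        rw [mul_assoc (C6 * c5 ^ E), ← Real.rpow_add hn0, mul_assoc C6]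
        congr 3
        rw [hE, hts]
        field_simp
        ring
    _ ≤ C6 * c5 ^ E * (1 / (C6 * c5 ^ E)) * (n : ℝ) ^ (2 * ((t + 1 : ℕ) : ℝ) / k - 1 - δ / (2 * k)) := by
        apply mul_le_mul_of_nonneg_right _ (by positivity)
        exact mul_le_mul_of_nonneg_left hev1 (by positivity)
    _ = _ := by rw [mul_one_div_cancel (by positivity), one_mul]

end Pool.Agent.U914.WP
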