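import Mathlib
import Pool.Agent.U914.WP.KM

/-! Almost all polynomials in Waring's problem: the number of sums of elements of arbitrary sets of values. -/

set_option autoImplicit false

open Finset MeasureTheory Complex

namespace Pool.Agent.U914.WP

/-- the mean square of the number of representations by any finite family -/
theorem sq_W {ι : Type} (W : Finset ι) (w : ι → ℤ) (J : Finset ℤ) :
    ENNReal.ofReal (∑ n ∈ J, ((W.filter fun x => w x = n).card : ℝ) ^ 2) ≤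
      ∫⁻ α in Set.Icc (-(1 / 2) : ℝ) (1 / 2), ENNReal.ofReal (‖FW W w α‖ ^ 2) := by
  have h1 := bessel J (FW W w) (FW_cont W w)
  have h2 : ∀ n : ℤ, ‖fc (FW W w) n‖ = ((W.filter fun x => w x = n).card : ℝ) := by
    intro n
    have h3 := count_z W w n
    have h4 : fc (FW W w) n = ((((W.filter fun x => w x = n).card : ℝ)) : ℂ) := by
      rw [h3]
      rfl
    rw [h4, norm_real, Real.norm_of_nonneg (Nat.cast_nonneg _)]
  simp only [h2] at h1
  refine (ENNReal.ofReal_le_ofReal h1).trans ?_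
  rw [ofReal_integral_eq_lintegral_ofReal]
  · exact ((FW_cont W w).norm.pow 2).continuousOn.integrableOn_Icc
  · exact Filter.Eventually.of_forall fun α => by positivity

/-- **The Cauchy–Schwarz bound for the number of values.** -/
theorem card_image_ge {ι : Type} (W : Finset ι) (w : ι → ℤ) (M : ℝ) (hM : 0 ≤ M)
    (h : ∫⁻ α in Set.Icc (-(1 / 2) : ℝ) (1 / 2), ENNReal.ofReal (‖FW W w α‖ ^ 2) ≤ ENNReal.ofReal M) :
    (W.card : ℝ) ^ 2 ≤ (W.image w).card * M := by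
  have h1 := (sq_W W w (W.image w)).trans h
  have h2 : ∑ n ∈ W.image w, ((W.filter fun x => w x = n).card : ℝ) ^ 2 ≤ M := (ENNReal.ofReal_le_ofReal_iff hM).1 h1
  have h3 : (W.card : ℝ) = ∑ n ∈ W.image w, ((W.filter fun x => w x = n).card : ℝ) := by
    have := card_eq_sum_card_image w W
    exact_mod_cast this
  rw [h3]
  refine (sq_sum_le_card_mul_sum_sq (s := W.image w)
    (f := fun n => ((W.filter fun x => w x = n).card : ℝ))).trans ?_
  exact mul_le_mul_of_nonneg_left h2 (Nat.cast_nonneg _)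

/-- the scale above a natural number -/
theorem scale_nat (P : ℕ) (hP : 1 ≤ P) : ∃ ν : ℕ, P ≤ 2 ^ ν ∧ 2 ^ ν ≤ 2 * P := by
  refine ⟨Nat.clog 2 P, Nat.le_pow_clog (by norm_num) P, ?_⟩
  rcases Nat.lt_or_ge 1 P with h | h
  · have h1 := Nat.pow_pred_clog_lt_self (b := 2) (by norm_num) h
    have h2 : 0 < Nat.clog 2 P := Nat.clog_pos (by norm_num) (by omega)
    have h3 : 2 ^ Nat.clog 2 P = 2 ^ (Nat.clog 2 P).pred * 2 := by
      rw [← pow_succ]
      congr 1
      exact (Nat.succ_pred_eq_of_pos h2).symm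
    omega
  · have : P = 1 := by omega
    subst this
    simp

/-- **Sumsets of arbitrary sets of values.** -/
theorem sumset (d : ℕ) (a : ℝ) (θ : Fin d → ℝ)
    (hKK : ∀ ε : ℝ, 0 < ε → ∀ᶠ ν : ℕ in Filter.atTop,
      KK d a (2 ^ ν) θ ≤ ENNReal.ofReal (((2 ^ ν : ℕ) : ℝ) ^ (((d + 1 : ℕ) : ℝ) + ε))) (l : ℕ) (hl : 1 ≤ l) (ε : ℝ)
    (hε : 0 < ε) :
    ∀ᶠ P : ℕ in Filter.atTop, ∀ B : Fin l → Finset ℕ, (∀ i, B i ⊆ Ioc 0 P) →
      (∏ i, ((B i).card : ℝ)) ^ 2 ≤ ((Fintype.piFinset B).image (wC l (fl d a θ))).card *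
        (P : ℝ) ^ (max (l : ℝ) (2 * l - ((d + 1 : ℕ) : ℝ)) + ε) := by
  set k : ℕ := d + 1 with hk
  obtain ⟨ν1, hν1⟩ := Filter.eventually_atTop.1 (hKK (ε / 2) (by positivity))
  set M : ℝ := max (l : ℝ) (2 * l - k) with hM
  have hl1 : (1 : ℝ) ≤ l := by exact_mod_cast hl
  have hM1 : 1 ≤ M := hl1.trans (le_max_left _ _)
  set C : ℝ := l * (2 * 2 ^ (M + ε / 2)) with hC
  have hC0 : 0 < C := by positivity
  have hev : ∀ᶠ P : ℕ in Filter.atTop, C ≤ (P : ℝ) ^ (ε / 2) :=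
    ((tendsto_rpow_atTop (by positivity : (0 : ℝ) < ε / 2)).comp tendsto_natCast_atTop_atTop).eventually_ge_atTop _
  filter_upwards [hev, Filter.eventually_ge_atTop (2 ^ ν1), Filter.eventually_ge_atTop 1] with P hP1 hP2 hP3
  intro B hB
  have hPr : (1 : ℝ) ≤ P := by exact_mod_cast hP3
  have hP0 : (0 : ℝ) < P := by linarith
  obtain ⟨ν, hν2, hν3⟩ := scale_nat P hP3
  have hν : ν1 ≤ ν := by
    have : 2 ^ ν1 ≤ 2 ^ ν := hP2.trans hν2
    exact (Nat.pow_le_pow_iff_right (by norm_num)).1 this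
  have h1 := KL_le l d a (2 ^ ν) Nat.one_le_two_pow θ (ε / 2) (by positivity) (hν1 ν hν)
  have hp : ((2 ^ ν : ℕ) : ℝ) ≤ 2 * P := by exact_mod_cast hν3
  have hp0 : (0 : ℝ) < ((2 ^ ν : ℕ) : ℝ) := by positivity
  set Q : ℝ := 2 * ((2 ^ ν : ℕ) : ℝ) ^ (M + ε / 2) with hQ
  have hQ0 : 0 ≤ Q := by positivity
  have h2 : ∫⁻ α in Set.Icc (-(1 / 2) : ℝ) (1 / 2), ENNReal.ofReal (‖FW (Ioc 0 (2 ^ ν)) (fl d a θ) α‖ ^ (2 * l)) ≤
      ENNReal.ofReal Q := h1
  have hB' : ∀ i, B i ⊆ Ioc 0 (2 ^ ν) := fun i =>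
    (hB i).trans (Ioc_subset_Ioc_right hν2)
  have h3 := mv_sets2 l l hl le_rfl (fl d a θ) (2 ^ ν) Q hQ0 h2 B hB'
  have h4 := card_image_ge _ _ _ (by positivity) h3
  rw [Fintype.card_piFinset] at h4
  push_cast at h4
  refine h4.trans ?_
  apply mul_le_mul_of_nonneg_left _ (Nat.cast_nonneg _)
  rw [Nat.sub_self, mul_zero, pow_zero, one_mul]
  calc (l : ℝ) * Q ≤ l * (2 * (2 * P) ^ (M + ε / 2)) := by
        rw [hQ]
        apply mul_le_mul_of_nonneg_left _ (by positivity)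
        apply mul_le_mul_of_nonneg_left _ (by norm_num)
        exact Real.rpow_le_rpow hp0.le hp (by positivity)
    _ = C * (P : ℝ) ^ (M + ε / 2) := by
        rw [Real.mul_rpow (by norm_num) hP0.le, hC]
        ring
    _ ≤ (P : ℝ) ^ (ε / 2) * (P : ℝ) ^ (M + ε / 2) := mul_le_mul_of_nonneg_right hP1 (by positivity)
    _ = _ := by
        rw [← Real.rpow_add hP0]
        congr 1
        ring

/-- **The number of sums of `l` values.** -/
theorem sums_count (d : ℕ) (a : ℝ) (ha : 0 < a) (θ : Fin d → ℝ)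
    (hKK : ∀ ε : ℝ, 0 < ε → ∀ᶠ ν : ℕ in Filter.atTop,
      KK d a (2 ^ ν) θ ≤ ENNReal.ofReal (((2 ^ ν : ℕ) : ℝ) ^ (((d + 1 : ℕ) : ℝ) + ε))) (l : ℕ) (hl : 1 ≤ l) (ε : ℝ)
    (hε : 0 < ε) :
    ∀ᶠ X : ℕ in Filter.atTop, (X : ℝ) ^ (min ((l : ℝ) / ((d + 1 : ℕ) : ℝ)) 1 - ε) ≤
      ({n : ℕ | 1 ≤ n ∧ n ≤ X ∧ ∃ x : Fin l → ℕ, (∀ i, 0 < x i) ∧ ∑ i, fl d a θ (x i) = (n : ℤ)}.ncard : ℝ) := by
  set k : ℕ := d + 1 with hk
  have hkne : k ≠ 0 := by omega
  have hk1 : (1 : ℝ) ≤ k := by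
    have : 1 ≤ k := by omega
    exact_mod_cast this
  have hk0 : (0 : ℝ) < k := by linarith
  have hl1 : (1 : ℝ) ≤ l := by exact_mod_cast hl
  have hl0 : (0 : ℝ) < l := by linarith
  set g : ℕ → ℤ := fl d a θ with hg
  have hsz : Sz k a g (∑ j, |θ j| + 1) := sz_fl d a θ
  have hC1 : 0 ≤ ∑ j, |θ j| + 1 := by positivity
  set C1 : ℝ := ∑ j, |θ j| + 1 with hC1d
  set Y : ℕ → ℝ := fun X => ((X : ℝ) / (2 * l * a)) ^ ((k : ℝ)⁻¹) with hY
  have hYt : Filter.Tendsto Y Filter.atTop Filter.atTop :=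
    (tendsto_rpow_atTop (by positivity : (0 : ℝ) < (k : ℝ)⁻¹)).comp
      (tendsto_natCast_atTop_atTop.atTop_div_const (by positivity))
  have hPt : Filter.Tendsto (fun X => ⌊Y X⌋₊) Filter.atTop Filter.atTop := tendsto_nat_floor_atTop.comp hYt
  have hPr : Filter.Tendsto (fun X => ((⌊Y X⌋₊ : ℕ) : ℝ)) Filter.atTop Filter.atTop :=
    tendsto_natCast_atTop_atTop.comp hPt
  set E : ℝ := min (l : ℝ) k - k * ε / 2 with hE
  set c : ℝ := (1 / 2) ^ (2 * l) * ((1 / 2) ^ E * (1 / (2 * l * a)) ^ (E / k)) with hc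
  have hc0 : 0 < c := by positivity
  set c' : ℝ := min c ((1 / 2) ^ (2 * l) * (1 / (2 * l * a)) ^ (E / k)) with hc'
  have hc'0 : 0 < c' := lt_min hc0 (by positivity)
  have hev : ∀ᶠ X : ℕ in Filter.atTop, 1 / c' ≤ (X : ℝ) ^ (ε / 2) :=
    ((tendsto_rpow_atTop (by positivity : (0 : ℝ) < ε / 2)).comp tendsto_natCast_atTop_atTop).eventually_ge_atTop _
  filter_upwards [hPt.eventually (sumset d a θ hKK l hl (k * ε / 2) (by positivity)), hPr.eventually_ge_atTop 1,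
    hPr.eventually_ge_atTop (C1 / a), hPr.eventually_ge_atTop (2 ^ k * (C1 + 1) / a), hYt.eventually_ge_atTop 1, hev,
    Filter.eventually_ge_atTop 1] with X hS hP1 hPa hPb hY1 hev hX1
  have hX0 : (0 : ℝ) < X := by exact_mod_cast hX1
  set P : ℕ := ⌊Y X⌋₊ with hP
  have hP0 : (0 : ℝ) < P := by linarith
  have hPY : (P : ℝ) ≤ Y X := Nat.floor_le (by linarith)
  have hYP : Y X ≤ 2 * P := by
    have := (Nat.lt_floor_add_one (Y X)).le
    linarith
  have hYk : Y X ^ k = X / (2 * l * a) := Real.rpow_inv_natCast_pow (by positivity) hkne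
  have hPk : 2 * l * a * (P : ℝ) ^ k ≤ X := by
    have h1 : (P : ℝ) ^ k ≤ X / (2 * l * a) := by
      rw [← hYk]
      exact pow_le_pow_left₀ hP0.le hPY k
    rw [le_div_iff₀ (by positivity)] at h1
    linarith
  have hpk : (P : ℝ) ^ k = P * (P : ℝ) ^ (k - 1) := by
    have : k = (k - 1) + 1 := by omega
    nth_rewrite 1 [this]
    rw [pow_succ]
    ring
  have hpk1 : 1 ≤ (P : ℝ) ^ (k - 1) := one_le_pow₀ hP1
  set B : Fin l → Finset ℕ := fun _ => Ioc (P / 2) P with hB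
  set W : Finset (Fin l → ℕ) := Fintype.piFinset B with hW
  have hS' := hS B fun i => Ioc_subset_Ioc_left (Nat.zero_le _)
  have hcard : (P : ℝ) / 2 ≤ ((Ioc (P / 2) P).card : ℝ) := by
    rw [Nat.card_Ioc]
    have h1 : P / 2 * 2 ≤ P := Nat.div_mul_le_self P 2
    have h2 : ((P - P / 2 : ℕ) : ℝ) = P - ((P / 2 : ℕ) : ℝ) := Nat.cast_sub (Nat.div_le_self P 2)
    rw [h2]
    have h3 : ((P / 2 : ℕ) : ℝ) * 2 ≤ P := by exact_mod_cast h1
    linarith
  -- the values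
  have hval : ∀ b ∈ Ioc (P / 2) P, 1 ≤ (g b : ℝ) ∧ (g b : ℝ) ≤ 2 * a * (P : ℝ) ^ k := by
    intro b hb
    rw [mem_Ioc] at hb
    have h1 := abs_le.1 (hsz P b (by omega) hb.2)
    have hbP : (b : ℝ) ≤ P := by exact_mod_cast hb.2
    have hbP2 : (P : ℝ) / 2 ≤ b := by
      have h2 : P < (P / 2 + 1) * 2 := by omega
      have h3 : (P : ℝ) ≤ ((P / 2 + 1 : ℕ) : ℝ) * 2 := by exact_mod_cast h2.le
      have h4 : ((P / 2 + 1 : ℕ) : ℝ) ≤ b := by exact_mod_cast hb.1
      linarith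
    have h3 : a * (b : ℝ) ^ k ≤ a * (P : ℝ) ^ k :=
      mul_le_mul_of_nonneg_left (pow_le_pow_left₀ (Nat.cast_nonneg _) hbP k) ha.le
    have h4 : a * ((P : ℝ) / 2) ^ k ≤ a * (b : ℝ) ^ k :=
      mul_le_mul_of_nonneg_left (pow_le_pow_left₀ (by positivity) hbP2 k) ha.le
    constructor
    · have h5 : (C1 + 1) * (P : ℝ) ^ (k - 1) ≤ a * ((P : ℝ) / 2) ^ k := by
        rw [div_le_iff₀ ha] at hPb
        rw [div_pow, hpk, ← mul_div_assoc, le_div_iff₀ (by positivity)]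
        calc (C1 + 1) * (P : ℝ) ^ (k - 1) * 2 ^ k = 2 ^ k * (C1 + 1) * (P : ℝ) ^ (k - 1) := by ring
          _ ≤ (P * a) * (P : ℝ) ^ (k - 1) := mul_le_mul_of_nonneg_right hPb (by positivity)
          _ = _ := by ring
      linarith [h1.1]
    · have h5 : C1 * (P : ℝ) ^ (k - 1) ≤ a * (P : ℝ) ^ k := by
        rw [div_le_iff₀ ha] at hPa
        rw [hpk]
        calc C1 * (P : ℝ) ^ (k - 1) ≤ (P * a) * (P : ℝ) ^ (k - 1) := mul_le_mul_of_nonneg_right hPa (by positivity)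
          _ = _ := by ring
      linarith [h1.2]
  have hw : ∀ b ∈ W, 1 ≤ wC l g b ∧ wC l g b ≤ X := by
    intro b hb
    rw [hW, Fintype.mem_piFinset] at hb
    have h1 : (wC l g b : ℝ) = ∑ i, (g (b i) : ℝ) := by
      unfold wC
      push_cast
      rfl
    have h2 : (1 : ℝ) ≤ wC l g b := by
      rw [h1]
      calc (1 : ℝ) ≤ ∑ _i : Fin l, (1 : ℝ) := by
            rw [sum_const, card_univ, Fintype.card_fin, nsmul_eq_mul, mul_one]
            exact hl1
        _ ≤ _ := sum_le_sum fun i _ => (hval _ (hb i)).1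
    have h3 : (wC l g b : ℝ) ≤ X := by
      rw [h1]
      calc ∑ i, (g (b i) : ℝ) ≤ ∑ _i : Fin l, 2 * a * (P : ℝ) ^ k := sum_le_sum fun i _ => (hval _ (hb i)).2
        _ = 2 * l * a * (P : ℝ) ^ k := by
            rw [sum_const, card_univ, Fintype.card_fin, nsmul_eq_mul]
            ring
        _ ≤ _ := hPk
    exact ⟨by exact_mod_cast h2, by exact_mod_cast h3⟩
  have himg : ((W.image (wC l g)).card : ℝ) ≤
      ({n : ℕ | 1 ≤ n ∧ n ≤ X ∧ ∃ x : Fin l → ℕ, (∀ i, 0 < x i) ∧ ∑ i, g (x i) = (n : ℤ)}.ncard : ℝ) := by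
    rw [← Set.ncard_coe_finset]
    have hfin : {n : ℕ | 1 ≤ n ∧ n ≤ X ∧ ∃ x : Fin l → ℕ, (∀ i, 0 < x i) ∧ ∑ i, g (x i) = (n : ℤ)}.Finite :=
      (Set.finite_Icc 1 X).subset fun n hn => ⟨hn.1, hn.2.1⟩
    refine Nat.cast_le.2 ?_
    apply Set.ncard_le_ncard_of_injOn Int.toNat (ht := hfin)
    · intro z hz
      rw [mem_coe, mem_image] at hz
      obtain ⟨b, hb, rfl⟩ := hz
      obtain ⟨h1, h2⟩ := hw b hb
      refine ⟨by omega, by omega, b, ?_, ?_⟩
      · intro i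
        rw [hW, Fintype.mem_piFinset] at hb
        have := (mem_Ioc.1 (hb i)).1
        omega
      · rw [Int.toNat_of_nonneg (by omega)]
        rfl
    · intro z hz z' hz' h
      rw [mem_coe, mem_image] at hz hz'
      obtain ⟨b, hb, rfl⟩ := hz
      obtain ⟨b', hb', rfl⟩ := hz'
      have h1 := (hw b hb).1
      have h2 := (hw b' hb').1
      omega
  refine le_trans ?_ himg
  -- the size
  have hprod : ∏ i, ((B i).card : ℝ) = ((Ioc (P / 2) P).card : ℝ) ^ l := by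
    have e1 : ∏ i, ((B i).card : ℝ) = ∏ _i : Fin l, ((Ioc (P / 2) P).card : ℝ) := rfl
    rw [e1, prod_const, card_univ, Fintype.card_fin]
  rw [hprod] at hS'
  have h1 : ((P : ℝ) / 2) ^ (2 * l) ≤ (W.image (wC l g)).card * (P : ℝ) ^ (max (l : ℝ) (2 * l - k) + k * ε / 2) := by
    refine le_trans ?_ hS'
    rw [← pow_mul, mul_comm l 2]
    exact pow_le_pow_left₀ (by positivity) hcard _
  have h2 : (1 / 2) ^ (2 * l) * (P : ℝ) ^ E ≤ (W.image (wC l g)).card := by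
    have h3 : 0 < (P : ℝ) ^ (max (l : ℝ) (2 * l - k) + k * ε / 2) := by positivity
    have h4 : (P : ℝ) ^ E * (P : ℝ) ^ (max (l : ℝ) (2 * l - k) + k * ε / 2) = (P : ℝ) ^ (2 * l) := by
      rw [← Real.rpow_add hP0, ← Real.rpow_natCast]
      congr 1
      rw [hE]
      push_cast
      rcases le_total (l : ℝ) k with h | h
      · rw [min_eq_left h, max_eq_left (by linarith)]
        ring
      · rw [min_eq_right h, max_eq_right (by linarith)]
        ring
    apply le_of_mul_le_mul_right _ h3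
    calc (1 / 2) ^ (2 * l) * (P : ℝ) ^ E * (P : ℝ) ^ (max (l : ℝ) (2 * l - k) + k * ε / 2) =
          (1 / 2) ^ (2 * l) * (P : ℝ) ^ (2 * l) := by rw [mul_assoc, h4]
      _ = ((P : ℝ) / 2) ^ (2 * l) := by
          rw [← mul_pow]
          congr 1
          ring
      _ ≤ _ := h1
  refine le_trans ?_ h2
  have h3 : c' * (X : ℝ) ^ (E / k) ≤ (1 / 2) ^ (2 * l) * (P : ℝ) ^ E := by
    have h4 : Y X ^ E = (1 / (2 * l * a)) ^ (E / k) * (X : ℝ) ^ (E / k) := by
      rw [hY]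
      simp only
      rw [← Real.rpow_mul (by positivity), ← Real.mul_rpow (by positivity) hX0.le]
      congr 1
      · field_simp
      · field_simp
    rcases le_total 0 E with hE0 | hE0
    · calc c' * (X : ℝ) ^ (E / k) ≤ c * (X : ℝ) ^ (E / k) :=
            mul_le_mul_of_nonneg_right (min_le_left _ _) (by positivity)
        _ = (1 / 2) ^ (2 * l) * ((1 / 2) ^ E * Y X ^ E) := by
            rw [h4, hc]
            ring
        _ = (1 / 2) ^ (2 * l) * (Y X / 2) ^ E := by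
            rw [← Real.mul_rpow (by norm_num) (by linarith)]
            congr 2
            ring
        _ ≤ _ := by
            apply mul_le_mul_of_nonneg_left _ (by positivity)
            exact Real.rpow_le_rpow (by linarith) (by linarith) hE0
    · calc c' * (X : ℝ) ^ (E / k) ≤ (1 / 2) ^ (2 * l) * (1 / (2 * l * a)) ^ (E / k) * (X : ℝ) ^ (E / k) :=
            mul_le_mul_of_nonneg_right (min_le_right _ _) (by positivity)
        _ = (1 / 2) ^ (2 * l) * Y X ^ E := by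
            rw [h4]
            ring
        _ ≤ _ := by
            apply mul_le_mul_of_nonneg_left _ (by positivity)
            exact Real.rpow_le_rpow_of_nonpos hP0 hPY hE0
  refine le_trans ?_ h3
  have h4 : min ((l : ℝ) / k) 1 - ε = E / k + -(ε / 2) := by
    have h5 : min ((l : ℝ) / k) 1 = min (l : ℝ) k / k := by
      rcases le_total (l : ℝ) k with h | h
      · rw [min_eq_left h, min_eq_left ((div_le_one hk0).2 h)]
      · rw [min_eq_right h, min_eq_right ((one_le_div hk0).2 h), div_self hk0.ne']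
    rw [h5, hE]
    field_simp
    ring
  rw [h4, Real.rpow_add hX0, mul_comm]
  apply mul_le_mul_of_nonneg_right _ (by positivity)
  rw [Real.rpow_neg hX0.le]
  rw [div_le_iff₀ hc'0] at hev
  rw [inv_le_iff_one_le_mul₀ (by positivity)]
  linarith

end Pool.Agent.U914.WP
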