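import Mathlib
import Pool.Agent.U914.WP.KN

/-! Almost all polynomials: values in shifted arbitrary sets. -/

set_option autoImplicit false

open Finset MeasureTheory

namespace Pool.Agent.U914.WP

/-- the number of values in the shifted set -/
noncomputable def cS (g : ℕ → ℤ) (S : Finset ℕ) (m : ℕ) : ℕ := {x : ℕ | 0 < x ∧ ∃ b ∈ S, g x = (m : ℤ) + b}.ncard

/-- the mean square over any set of integers -/
theorem ms_id (W : Finset ℕ) :
    ∫⁻ α in Set.Icc (-(1 / 2) : ℝ) (1 / 2), ENNReal.ofReal (‖FW W (fun b => -(b : ℤ)) α‖ ^ 2) ≤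
      ENNReal.ofReal (W.card : ℝ) := by
  unfold FW
  rw [pars]
  apply ENNReal.ofReal_le_ofReal
  have h : ((W ×ˢ W).filter fun p : ℕ × ℕ => -(p.1 : ℤ) = -(p.2 : ℤ)).card ≤ W.card := by
    apply card_le_card_of_injOn (fun p => p.1)
    · intro p hp
      rw [mem_coe, mem_filter, mem_product] at hp
      exact hp.1.1
    · intro p hp q hq hpq
      rw [mem_coe, mem_filter] at hp hq
      have h1 := hp.2
      have h2 := hq.2
      simp only at hpq
      have h3 : p.2 = q.2 := by omega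
      exact Prod.ext hpq h3
  exact_mod_cast h

theorem cS_eq (d : ℕ) (a : ℝ) (ha : 0 < a) (θ : Fin d → ℝ) (K : ℝ) (hK : 0 < K) : ∀ᶠ N : ℝ in Filter.atTop, ∀ m P : ℕ,
    2 * (K * N) ≤ a * (P : ℝ) ^ (d + 1) → ∀ S : Finset ℕ, (∀ b ∈ S, (m : ℝ) + b ≤ K * N) →
    (cS (fl d a θ) S m : ℝ) = RW S (fun b => -(b : ℤ)) P (fl d a θ) m := by
  obtain ⟨B0, hB0, hg⟩ := pf_growth d a ha θ (1 / 4) (by norm_num)
  have hev : ∀ᶠ N : ℝ in Filter.atTop, 2 * (B0 + 1) ≤ K * N :=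
    (Filter.tendsto_id.const_mul_atTop hK).eventually_ge_atTop _
  filter_upwards [hev] with N hN m P hP S hS
  unfold cS RW
  rw [Nat.cast_inj]
  have h1 : {x : ℕ | 0 < x ∧ ∃ b ∈ S, fl d a θ x = (m : ℤ) + b} =
      ((((S ×ˢ Ioc 0 P).filter fun q : ℕ × ℕ => -(q.1 : ℤ) + fl d a θ q.2 = (m : ℤ)).image fun q => q.2 : Finset ℕ) :
        Set ℕ) := by
    ext x
    simp only [coe_image, coe_filter, mem_product, mem_Ioc, Set.mem_image, Set.mem_ofPred_eq, Prod.exists,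
      exists_eq_right]
    constructor
    · rintro ⟨h1, b, hb, h2⟩
      refine ⟨b, ⟨hb, h1, ?_⟩, by omega⟩
      have h7 := hg x
      have h8 : pf d a θ x ≤ (fl d a θ x : ℝ) + 1 := (Int.lt_floor_add_one (pf d a θ x)).le
      have h6 : (fl d a θ x : ℝ) = m + b := by exact_mod_cast h2
      have h5 := hS b hb
      have h9 : a * (x : ℝ) ^ (d + 1) ≤ a * (P : ℝ) ^ (d + 1) := by linarith
      have h10 := le_of_pow_le_pow_left₀ (by omega : d + 1 ≠ 0) (Nat.cast_nonneg _) (le_of_mul_le_mul_left h9 ha)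
      exact_mod_cast h10
    · rintro ⟨b, ⟨hb, h1, _⟩, h2⟩
      exact ⟨h1, b, hb, by omega⟩
  rw [h1, Set.ncard_coe_finset]
  apply card_image_of_injOn
  intro p hp q hq hpq
  rw [mem_coe, mem_filter] at hp hq
  have h2 := hp.2
  have h3 := hq.2
  simp only at hpq
  rw [hpq] at h2
  have h4 : p.1 = q.1 := by omega
  exact Prod.ext h4 hpq

/-- **Values in shifted arbitrary sets, in mean square over the shifts.** -/
theorem shift_ms (d : ℕ) (hd : 1 ≤ d) (a : ℝ) (ha : 0 < a) (δ : ℝ) (hδ0 : 0 < δ) (hδ1 : δ ≤ 1 / 1000) (θ : Fin d → ℝ)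
    (hdom : Dom (d + 1) (fl d a θ) δ) :
    ∀ᶠ N : ℕ in Filter.atTop, ∀ S : Finset ℕ, (∀ b ∈ S, b ≤ N) →
      ∑ m ∈ Icc N (2 * N), ((cS (fl d a θ) S m : ℝ) - ∑ b ∈ S, rh (d + 1) a ((m : ℝ) + b)) ^ 2 ≤
        S.card * (N : ℝ) ^ (2 / ((d + 1 : ℕ) : ℝ) - δ / (2 * ((d + 1 : ℕ) : ℝ))) := by
  set k : ℕ := d + 1 with hk
  have hk2 : 2 ≤ k := by omega
  have hk2r : (2 : ℝ) ≤ k := by exact_mod_cast hk2
  have hk0 : (0 : ℝ) < k := by linarith
  have hkne : k ≠ 0 := by omega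
  set g : ℕ → ℤ := fl d a θ with hg
  have hsz : Sz k a g (∑ j, |θ j| + 1) := sz_fl d a θ
  have hC1 : 0 ≤ ∑ j, |θ j| + 1 := by positivity
  set c0 : ℝ := a / (8 * 2 ^ k) with hc0
  have hc00 : 0 < c0 := by positivity
  obtain ⟨Cm, hCm, hmach⟩ := machine k hk2 a ha g δ hδ0 hδ1 hdom _ hC1 hsz c0 hc00
  obtain ⟨ν1, hν1⟩ := Filter.eventually_atTop.1 hmach
  set c5 : ℝ := 2 * (2 * 4 / a) ^ ((k : ℝ)⁻¹) with hc5
  have hc50 : 0 < c5 := by positivity
  have hev1 : ∀ᶠ N : ℝ in Filter.atTop, N ^ (-(δ / (2 * k))) ≤ 1 / (Cm * (1 + a) * c5 ^ (2 - δ)) :=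
    (tendsto_rpow_neg_atTop (by positivity : (0 : ℝ) < δ / (2 * k))).eventually_le_const (by positivity)
  have hnat := tendsto_natCast_atTop_atTop (R := ℝ)
  filter_upwards [hnat.eventually (scale_real k hk2 a ha 4 (by norm_num) ν1),
    hnat.eventually (cS_eq d a ha θ 4 (by norm_num)), hnat.eventually hev1, Filter.eventually_ge_atTop 1] with N hsc hcS
    hev1 hN1
  intro S hS
  have hN0 : (0 : ℝ) < N := by exact_mod_cast hN1
  have hN1r : (1 : ℝ) ≤ N := by exact_mod_cast hN1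
  obtain ⟨ν, hν, hs1, hs2⟩ := hsc
  have hm := hν1 ν hν
  set p : ℝ := ((2 ^ ν : ℕ) : ℝ) with hp
  have hp0 : 0 < p := by positivity
  have hmul : ∀ x y : ℝ, p ^ x * p ^ y = p ^ (x + y) := fun x y => (Real.rpow_add hp0 x y).symm
  have hlow : c0 * p ^ k ≤ N := by
    have e1 : a * (p / 2) ^ k = 8 * (c0 * p ^ k) := by
      rw [hc0, div_pow]
      field_simp
    rw [e1] at hs1
    linarith
  have hb : ∀ b ∈ S, (0 : ℝ) ≤ b ∧ (b : ℝ) ≤ N := fun b hb => ⟨Nat.cast_nonneg _, by exact_mod_cast hS b hb⟩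
  have hJ : ∀ m ∈ Icc N (2 * N), (N : ℝ) ≤ m ∧ (m : ℝ) ≤ 2 * N := by
    intro m hm
    rw [mem_Icc] at hm
    exact ⟨by exact_mod_cast hm.1, by exact_mod_cast hm.2⟩
  have hrange : ∀ m ∈ Icc N (2 * N), ∀ b ∈ S, c0 * p ^ k ≤ (((m : ℕ) : ℤ) : ℝ) - ((-(b : ℤ) : ℤ) : ℝ) ∧
      (((m : ℕ) : ℤ) : ℝ) - ((-(b : ℤ) : ℤ) : ℝ) ≤ a * p ^ k / 2 := by
    intro m hm b hb'
    obtain ⟨h1, h2⟩ := hJ m hm
    obtain ⟨h3, h4⟩ := hb b hb'
    push_cast
    constructor <;> linarith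
  obtain ⟨_, hm2⟩ := hm ℕ S (fun b => -(b : ℤ))
  have hfin := hm2 ((Icc N (2 * N)).map Nat.castEmbedding) (by
    intro m hm
    rw [mem_map] at hm
    obtain ⟨m', hm', rfl⟩ := hm
    exact hrange m' hm') _ (Nat.cast_nonneg _) (ms_id S)
  rw [sum_map] at hfin
  have h2 : ∑ m ∈ Icc N (2 * N), ((cS g S m : ℝ) - ∑ b ∈ S, rh k a ((m : ℝ) + b)) ^ 2 =
      ∑ m ∈ Icc N (2 * N), (RW S (fun b => -(b : ℤ)) (2 ^ ν) g (Nat.castEmbedding m) -
        ∑ b ∈ S, rh k a (((Nat.castEmbedding m : ℤ) : ℝ) - ((-(b : ℤ) : ℤ) : ℝ))) ^ 2 := by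
    apply sum_congr rfl
    intro m hm
    obtain ⟨h3, h4⟩ := hJ m hm
    have h6 : ((Nat.castEmbedding m : ℤ)) = ((m : ℕ) : ℤ) := rfl
    rw [h6]
    congr 2
    · exact hcS m (2 ^ ν) hs2 S fun b hb' => by have := (hb b hb').2; linarith
    · apply sum_congr rfl
      intro b _
      congr 1
      push_cast
      ring
  rw [h2]
  refine hfin.trans ?_
  have hcard : (S.card : ℝ) ≤ a * p ^ (k : ℝ) := by
    have h3 : S ⊆ range (N + 1) := fun b hb' => mem_range.2 (by have := hS b hb'; omega)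
    have h4 := card_le_card h3
    rw [card_range] at h4
    have h5 : (S.card : ℝ) ≤ N + 1 := by exact_mod_cast h4
    rw [Real.rpow_natCast]
    linarith
  have hpn : p ≤ c5 * (N : ℝ) ^ ((k : ℝ)⁻¹) := by
    have h1 : (p / 2) ^ k ≤ 2 * (4 * N) / a := by
      rw [le_div_iff₀ ha, mul_comm]
      exact hs1
    have h2 := Real.rpow_le_rpow (by positivity) h1 (by positivity : (0 : ℝ) ≤ (k : ℝ)⁻¹)
    rw [Real.pow_rpow_inv_natCast (by positivity) hkne] at h2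
    have h3 : 2 * (4 * (N : ℝ)) / a = 2 * 4 / a * N := by ring
    rw [h3, Real.mul_rpow (by positivity) hN0.le] at h2
    rw [hc5]
    linarith
  have hS0 : (0 : ℝ) ≤ S.card := Nat.cast_nonneg _
  calc Cm * (p ^ (2 - δ) * S.card + (S.card : ℝ) ^ 2 * p ^ (2 - (k : ℝ) - δ)) ≤
        Cm * (p ^ (2 - δ) * S.card + S.card * (a * p ^ (k : ℝ)) * p ^ (2 - (k : ℝ) - δ)) := by
        apply mul_le_mul_of_nonneg_left _ hCm.le
        apply add_le_add le_rfl
        apply mul_le_mul_of_nonneg_right _ (by positivity)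
        rw [sq]
        exact mul_le_mul_of_nonneg_left hcard hS0
    _ = Cm * (p ^ (2 - δ) * S.card + S.card * a * (p ^ (k : ℝ) * p ^ (2 - (k : ℝ) - δ))) := by ring
    _ = Cm * (1 + a) * (S.card * p ^ (2 - δ)) := by
        rw [hmul]
        have : (k : ℝ) + (2 - k - δ) = 2 - δ := by ring
        rw [this]
        ring
    _ ≤ Cm * (1 + a) * (S.card * (c5 ^ (2 - δ) * (N : ℝ) ^ ((2 - δ) / k))) := by
        apply mul_le_mul_of_nonneg_left _ (by positivity)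
        apply mul_le_mul_of_nonneg_left _ hS0
        calc p ^ (2 - δ) ≤ (c5 * (N : ℝ) ^ ((k : ℝ)⁻¹)) ^ (2 - δ) :=
              Real.rpow_le_rpow hp0.le hpn (by linarith)
          _ = _ := by
              rw [Real.mul_rpow hc50.le (by positivity), ← Real.rpow_mul hN0.le]
              congr 2
              field_simp
    _ = Cm * (1 + a) * c5 ^ (2 - δ) * (N : ℝ) ^ (-(δ / (2 * k))) * (S.card * (N : ℝ) ^ (2 / (k : ℝ) - δ / (2 * k))) := by
        have e1 : (N : ℝ) ^ ((2 - δ) / k) = (N : ℝ) ^ (-(δ / (2 * k))) * (N : ℝ) ^ (2 / (k : ℝ) - δ / (2 * k)) := by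
          rw [← Real.rpow_add hN0]
          congr 1
          field_simp
          ring
        rw [e1]
        ring
    _ ≤ Cm * (1 + a) * c5 ^ (2 - δ) * (1 / (Cm * (1 + a) * c5 ^ (2 - δ))) *
          (S.card * (N : ℝ) ^ (2 / (k : ℝ) - δ / (2 * k))) := by
        apply mul_le_mul_of_nonneg_right _ (by positivity)
        exact mul_le_mul_of_nonneg_left hev1 (by positivity)
    _ = _ := by rw [mul_one_div_cancel (by positivity), one_mul]

end Pool.Agent.U914.WP
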