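import Mathlib
import Pool.Agent.U914.WP.KO

/-! Almost all polynomials: one value plus elements of arbitrary sets. -/

set_option autoImplicit false

open Finset MeasureTheory

namespace Pool.Agent.U914.WP

/-- the number of representations by an element of the set and a value -/
noncomputable def cP (g : ℕ → ℤ) (S : Finset ℕ) (n : ℕ) : ℕ := {x : ℕ | 0 < x ∧ ∃ b ∈ S, (b : ℤ) + g x = (n : ℤ)}.ncard

theorem ms_pos (W : Finset ℕ) :
    ∫⁻ α in Set.Icc (-(1 / 2) : ℝ) (1 / 2), ENNReal.ofReal (‖FW W (fun b => (b : ℤ)) α‖ ^ 2) ≤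
      ENNReal.ofReal (W.card : ℝ) := by
  unfold FW
  rw [pars]
  apply ENNReal.ofReal_le_ofReal
  have h : ((W ×ˢ W).filter fun p : ℕ × ℕ => (p.1 : ℤ) = (p.2 : ℤ)).card ≤ W.card := by
    apply card_le_card_of_injOn (fun p => p.1)
    · intro p hp
      rw [mem_coe, mem_filter, mem_product] at hp
      exact hp.1.1
    · intro p hp q hq hpq
      rw [mem_coe, mem_filter] at hp hq
      have h1 := hp.2
      have h2 := hq.2
      simp only at hpq
      have h3 : p.2 = q.2 := by omega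
      exact Prod.ext hpq h3
  exact_mod_cast h

theorem x_small (d : ℕ) (a : ℝ) (ha : 0 < a) (θ : Fin d → ℝ) (K : ℝ) (hK : 0 < K) : ∀ᶠ N : ℝ in Filter.atTop, ∀ P : ℕ,
    2 * (K * N) ≤ a * (P : ℝ) ^ (d + 1) → ∀ x : ℕ, (fl d a θ x : ℝ) ≤ K * N → x ≤ P := by
  obtain ⟨B0, hB0, hg⟩ := pf_growth d a ha θ (1 / 4) (by norm_num)
  have hev : ∀ᶠ N : ℝ in Filter.atTop, 2 * (B0 + 1) ≤ K * N :=
    (Filter.tendsto_id.const_mul_atTop hK).eventually_ge_atTop _
  filter_upwards [hev] with N hN P hP x hx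
  have h7 := hg x
  have h8 : pf d a θ x ≤ (fl d a θ x : ℝ) + 1 := (Int.lt_floor_add_one (pf d a θ x)).le
  have h9 : a * (x : ℝ) ^ (d + 1) ≤ a * (P : ℝ) ^ (d + 1) := by linarith
  have h10 := le_of_pow_le_pow_left₀ (by omega : d + 1 ≠ 0) (Nat.cast_nonneg _) (le_of_mul_le_mul_left h9 ha)
  exact_mod_cast h10

theorem cP_eq (g : ℕ → ℤ) (P : ℕ) (S : Finset ℕ) (n : ℕ) (h : ∀ x : ℕ, g x ≤ n → x ≤ P) :
    (cP g S n : ℝ) = RW S (fun b => (b : ℤ)) P g n := by
  unfold cP RW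
  rw [Nat.cast_inj]
  have h1 : {x : ℕ | 0 < x ∧ ∃ b ∈ S, (b : ℤ) + g x = (n : ℤ)} =
      ((((S ×ˢ Ioc 0 P).filter fun q : ℕ × ℕ => (q.1 : ℤ) + g q.2 = (n : ℤ)).image fun q => q.2 : Finset ℕ) :
        Set ℕ) := by
    ext x
    simp only [coe_image, coe_filter, mem_product, mem_Ioc, Set.mem_image, Set.mem_ofPred_eq, Prod.exists,
      exists_eq_right]
    constructor
    · rintro ⟨h1, b, hb, h2⟩
      exact ⟨b, ⟨hb, h1, h x (by omega)⟩, h2⟩
    · rintro ⟨b, ⟨hb, h1, _⟩, h2⟩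
      exact ⟨h1, b, hb, h2⟩
  rw [h1, Set.ncard_coe_finset]
  apply card_image_of_injOn
  intro p hp q hq hpq
  rw [mem_coe, mem_filter] at hp hq
  have h2 := hp.2
  have h3 := hq.2
  simp only at hpq
  rw [hpq] at h2
  have h4 : p.1 = q.1 := by omega
  exact Prod.ext h4 hpq

end Pool.Agent.U914.WP
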