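import Mathlib
import Pool.Agent.U914.WP.KP

/-! Almost all polynomials: one value plus an element of an arbitrary set, in mean square; primes. -/

set_option autoImplicit false

open Finset MeasureTheory

namespace Pool.Agent.U914.WP

/-- **An element of an arbitrary set plus a value, in mean square.** -/
theorem add_ms (d : ℕ) (hd : 1 ≤ d) (a : ℝ) (ha : 0 < a) (δ : ℝ) (hδ0 : 0 < δ) (hδ1 : δ ≤ 1 / 1000) (θ : Fin d → ℝ)
    (hdom : Dom (d + 1) (fl d a θ) δ) :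
    ∀ᶠ N : ℕ in Filter.atTop, ∀ S : Finset ℕ, (∀ b ∈ S, 2 * b ≤ N) →
      ∑ n ∈ Icc N (2 * N), ((cP (fl d a θ) S n : ℝ) - ∑ b ∈ S, rh (d + 1) a ((n : ℝ) - b)) ^ 2 ≤
        S.card * (N : ℝ) ^ (2 / ((d + 1 : ℕ) : ℝ) - δ / (2 * ((d + 1 : ℕ) : ℝ))) := by
  set k : ℕ := d + 1 with hk
  have hk2 : 2 ≤ k := by omega
  have hk2r : (2 : ℝ) ≤ k := by exact_mod_cast hk2
  have hk0 : (0 : ℝ) < k := by linarith
  have hkne : k ≠ 0 := by omega
  set g : ℕ → ℤ := fl d a θ with hg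
  have hsz : Sz k a g (∑ j, |θ j| + 1) := sz_fl d a θ
  have hC1 : 0 ≤ ∑ j, |θ j| + 1 := by positivity
  set c0 : ℝ := a / (16 * 2 ^ k) with hc0
  have hc00 : 0 < c0 := by positivity
  obtain ⟨Cm, hCm, hmach⟩ := machine k hk2 a ha g δ hδ0 hδ1 hdom _ hC1 hsz c0 hc00
  obtain ⟨ν1, hν1⟩ := Filter.eventually_atTop.1 hmach
  set c5 : ℝ := 2 * (2 * 4 / a) ^ ((k : ℝ)⁻¹) with hc5
  have hc50 : 0 < c5 := by positivity
  have hev1 : ∀ᶠ N : ℝ in Filter.atTop, N ^ (-(δ / (2 * k))) ≤ 1 / (Cm * (1 + a) * c5 ^ (2 - δ)) :=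
    (tendsto_rpow_neg_atTop (by positivity : (0 : ℝ) < δ / (2 * k))).eventually_le_const (by positivity)
  have hnat := tendsto_natCast_atTop_atTop (R := ℝ)
  filter_upwards [hnat.eventually (scale_real k hk2 a ha 4 (by norm_num) ν1),
    hnat.eventually (x_small d a ha θ 4 (by norm_num)), hnat.eventually hev1, Filter.eventually_ge_atTop 1] with N hsc
    hxs hev1 hN1
  intro S hS
  have hN0 : (0 : ℝ) < N := by exact_mod_cast hN1
  have hN1r : (1 : ℝ) ≤ N := by exact_mod_cast hN1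
  obtain ⟨ν, hν, hs1, hs2⟩ := hsc
  have hm := hν1 ν hν
  have hxs' := hxs (2 ^ ν) hs2
  set p : ℝ := ((2 ^ ν : ℕ) : ℝ) with hp
  have hp0 : 0 < p := by positivity
  have hmul : ∀ x y : ℝ, p ^ x * p ^ y = p ^ (x + y) := fun x y => (Real.rpow_add hp0 x y).symm
  have hlow : c0 * p ^ k ≤ N / 2 := by
    have e1 : a * (p / 2) ^ k = 16 * (c0 * p ^ k) := by
      rw [hc0, div_pow]
      field_simp
    rw [e1] at hs1
    linarith
  have hb : ∀ b ∈ S, (0 : ℝ) ≤ b ∧ (b : ℝ) ≤ N / 2 := fun b hb => ⟨Nat.cast_nonneg _, by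
    have h : (2 : ℝ) * b ≤ N := by exact_mod_cast hS b hb
    linarith⟩
  have hJ : ∀ m ∈ Icc N (2 * N), (N : ℝ) ≤ m ∧ (m : ℝ) ≤ 2 * N := by
    intro m hm
    rw [mem_Icc] at hm
    exact ⟨by exact_mod_cast hm.1, by exact_mod_cast hm.2⟩
  have hrange : ∀ m ∈ Icc N (2 * N), ∀ b ∈ S, c0 * p ^ k ≤ (((m : ℕ) : ℤ) : ℝ) - (((b : ℕ) : ℤ) : ℝ) ∧
      (((m : ℕ) : ℤ) : ℝ) - (((b : ℕ) : ℤ) : ℝ) ≤ a * p ^ k / 2 := by
    intro m hm b hb'
    obtain ⟨h1, h2⟩ := hJ m hm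
    obtain ⟨h3, h4⟩ := hb b hb'
    push_cast
    constructor <;> linarith
  obtain ⟨_, hm2⟩ := hm ℕ S (fun b => (b : ℤ))
  have hfin := hm2 ((Icc N (2 * N)).map Nat.castEmbedding) (by
    intro m hm
    rw [mem_map] at hm
    obtain ⟨m', hm', rfl⟩ := hm
    exact hrange m' hm') _ (Nat.cast_nonneg _) (ms_pos S)
  rw [sum_map] at hfin
  have h2 : ∑ m ∈ Icc N (2 * N), ((cP g S m : ℝ) - ∑ b ∈ S, rh k a ((m : ℝ) - b)) ^ 2 =
      ∑ m ∈ Icc N (2 * N), (RW S (fun b => (b : ℤ)) (2 ^ ν) g (Nat.castEmbedding m) -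
        ∑ b ∈ S, rh k a (((Nat.castEmbedding m : ℤ) : ℝ) - (((b : ℕ) : ℤ) : ℝ))) ^ 2 := by
    apply sum_congr rfl
    intro m hm
    obtain ⟨h3, h4⟩ := hJ m hm
    have h6 : ((Nat.castEmbedding m : ℤ)) = ((m : ℕ) : ℤ) := rfl
    rw [h6]
    congr 2
    · apply cP_eq g (2 ^ ν) S m
      intro x hx
      apply hxs' x
      have h7 : (fl d a θ x : ℝ) ≤ m := by exact_mod_cast hx
      linarith
  rw [h2]
  refine hfin.trans ?_
  have hcard : (S.card : ℝ) ≤ a * p ^ (k : ℝ) := by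
    have h3 : S ⊆ range (N + 1) := fun b hb' => mem_range.2 (by have := hS b hb'; omega)
    have h4 := card_le_card h3
    rw [card_range] at h4
    have h5 : (S.card : ℝ) ≤ N + 1 := by exact_mod_cast h4
    rw [Real.rpow_natCast]
    linarith
  have hpn : p ≤ c5 * (N : ℝ) ^ ((k : ℝ)⁻¹) := by
    have h1 : (p / 2) ^ k ≤ 2 * (4 * N) / a := by
      rw [le_div_iff₀ ha, mul_comm]
      exact hs1
    have h2 := Real.rpow_le_rpow (by positivity) h1 (by positivity : (0 : ℝ) ≤ (k : ℝ)⁻¹)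
    rw [Real.pow_rpow_inv_natCast (by positivity) hkne] at h2
    have h3 : 2 * (4 * (N : ℝ)) / a = 2 * 4 / a * N := by ring
    rw [h3, Real.mul_rpow (by positivity) hN0.le] at h2
    rw [hc5]
    linarith
  have hS0 : (0 : ℝ) ≤ S.card := Nat.cast_nonneg _
  calc Cm * (p ^ (2 - δ) * S.card + (S.card : ℝ) ^ 2 * p ^ (2 - (k : ℝ) - δ)) ≤
        Cm * (p ^ (2 - δ) * S.card + S.card * (a * p ^ (k : ℝ)) * p ^ (2 - (k : ℝ) - δ)) := by
        apply mul_le_mul_of_nonneg_left _ hCm.le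
        apply add_le_add le_rfl
        apply mul_le_mul_of_nonneg_right _ (by positivity)
        rw [sq]
        exact mul_le_mul_of_nonneg_left hcard hS0
    _ = Cm * (p ^ (2 - δ) * S.card + S.card * a * (p ^ (k : ℝ) * p ^ (2 - (k : ℝ) - δ))) := by ring
    _ = Cm * (1 + a) * (S.card * p ^ (2 - δ)) := by
        rw [hmul]
        have : (k : ℝ) + (2 - k - δ) = 2 - δ := by ring
        rw [this]
        ring
    _ ≤ Cm * (1 + a) * (S.card * (c5 ^ (2 - δ) * (N : ℝ) ^ ((2 - δ) / k))) := by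
        apply mul_le_mul_of_nonneg_left _ (by positivity)
        apply mul_le_mul_of_nonneg_left _ hS0
        calc p ^ (2 - δ) ≤ (c5 * (N : ℝ) ^ ((k : ℝ)⁻¹)) ^ (2 - δ) :=
              Real.rpow_le_rpow hp0.le hpn (by linarith)
          _ = _ := by
              rw [Real.mul_rpow hc50.le (by positivity), ← Real.rpow_mul hN0.le]
              congr 2
              field_simp
    _ = Cm * (1 + a) * c5 ^ (2 - δ) * (N : ℝ) ^ (-(δ / (2 * k))) * (S.card * (N : ℝ) ^ (2 / (k : ℝ) - δ / (2 * k))) := by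
        have e1 : (N : ℝ) ^ ((2 - δ) / k) = (N : ℝ) ^ (-(δ / (2 * k))) * (N : ℝ) ^ (2 / (k : ℝ) - δ / (2 * k)) := by
          rw [← Real.rpow_add hN0]
          congr 1
          field_simp
          ring
        rw [e1]
        ring
    _ ≤ Cm * (1 + a) * c5 ^ (2 - δ) * (1 / (Cm * (1 + a) * c5 ^ (2 - δ))) *
          (S.card * (N : ℝ) ^ (2 / (k : ℝ) - δ / (2 * k))) := by
        apply mul_le_mul_of_nonneg_right _ (by positivity)
        exact mul_le_mul_of_nonneg_left hev1 (by positivity)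
    _ = _ := by rw [mul_one_div_cancel (by positivity), one_mul]

/-- **Almost all integers are an element of the set plus a value.** -/
theorem rep_ae (d : ℕ) (hd : 1 ≤ d) (a : ℝ) (ha : 0 < a) (δ : ℝ) (hδ0 : 0 < δ) (hδ1 : δ ≤ 1 / 1000) (θ : Fin d → ℝ)
    (hdom : Dom (d + 1) (fl d a θ) δ) :
    ∀ᶠ N : ℕ in Filter.atTop, ∀ S : Finset ℕ, (∀ b ∈ S, 2 * b ≤ N) →
      (N : ℝ) ^ (1 - δ / (8 * ((d + 1 : ℕ) : ℝ))) ≤ S.card →
      (((Icc N (2 * N)).filter fun n => cP (fl d a θ) S n = 0).card : ℝ) ≤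
        (N : ℝ) ^ (1 - δ / (8 * ((d + 1 : ℕ) : ℝ))) := by
  have hms' := add_ms d hd a ha δ hδ0 hδ1 θ hdom
  set k : ℕ := d + 1 with hk
  have hk2r : (2 : ℝ) ≤ k := by exact_mod_cast (by omega : 2 ≤ k)
  have hk0 : (0 : ℝ) < k := by linarith
  set μ : ℝ := δ / (8 * k) with hμ
  have hμ0 : 0 < μ := by positivity
  set c : ℝ := (2 / a) ^ ((k : ℝ)⁻¹) / (2 * k) with hc
  have hc0 : 0 < c := by positivity
  have hnat := tendsto_natCast_atTop_atTop (R := ℝ)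
  have hev : ∀ᶠ N : ℝ in Filter.atTop, N ^ (-(2 * μ)) ≤ c ^ 2 :=
    (tendsto_rpow_neg_atTop (by positivity : (0 : ℝ) < 2 * μ)).eventually_le_const (by positivity)
  filter_upwards [hms', hnat.eventually hev, Filter.eventually_ge_atTop 1] with N hms hev hN1
  intro S hS hcard
  have hN0 : (0 : ℝ) < N := by exact_mod_cast hN1
  have h1 := hms S hS
  set E := (Icc N (2 * N)).filter fun n => cP (fl d a θ) S n = 0 with hE
  have hrh : rh k a (2 * N) = c * (N : ℝ) ^ ((k : ℝ)⁻¹ - 1) := by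
    unfold rh ps1
    have e1 : 2 * (N : ℝ) / a = 2 / a * N := by ring
    rw [e1, Real.mul_rpow (by positivity) hN0.le, Real.rpow_sub hN0, Real.rpow_one, hc]
    field_simp
  have hmain : ∀ n ∈ E, (S.card * (c * (N : ℝ) ^ ((k : ℝ)⁻¹ - 1))) ^ 2 ≤
      ((cP (fl d a θ) S n : ℝ) - ∑ b ∈ S, rh k a ((n : ℝ) - b)) ^ 2 := by
    intro n hn
    rw [hE, mem_filter, mem_Icc] at hn
    rw [hn.2, Nat.cast_zero, zero_sub, neg_sq]
    apply pow_le_pow_left₀ (by positivity)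
    rw [← hrh, ← nsmul_eq_mul]
    apply card_nsmul_le_sum
    intro b hb
    have h4 : (2 : ℝ) * b ≤ N := by exact_mod_cast hS b hb
    have h5 : (N : ℝ) ≤ n := by exact_mod_cast hn.1.1
    have h6 : (n : ℝ) ≤ 2 * N := by exact_mod_cast hn.1.2
    have h7 : (0 : ℝ) ≤ b := Nat.cast_nonneg _
    exact rh_anti k (by omega) a _ _ ha (by linarith) (by linarith)
  have h2 : (E.card : ℝ) * (S.card * (c * (N : ℝ) ^ ((k : ℝ)⁻¹ - 1))) ^ 2 ≤
      S.card * (N : ℝ) ^ (2 / (k : ℝ) - δ / (2 * k)) := by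
    refine le_trans ?_ h1
    rw [← nsmul_eq_mul]
    refine (card_nsmul_le_sum E _ _ hmain).trans ?_
    exact sum_le_sum_of_subset_of_nonneg (filter_subset _ _) fun _ _ _ => sq_nonneg _
  have hs0 : (0 : ℝ) < S.card := lt_of_lt_of_le (by positivity) hcard
  have h3 : (E.card : ℝ) * ((N : ℝ) ^ (1 - μ) * (N : ℝ) ^ (-(2 * μ)) * (N : ℝ) ^ (2 / (k : ℝ) - 2)) ≤
      (N : ℝ) ^ (2 / (k : ℝ) - 4 * μ) := by
    have e1 : ((N : ℝ) ^ ((k : ℝ)⁻¹ - 1)) ^ 2 = (N : ℝ) ^ (2 / (k : ℝ) - 2) := by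
      rw [← Real.rpow_natCast, ← Real.rpow_mul hN0.le]
      congr 1
      push_cast
      ring
    have e2 : δ / (2 * k) = 4 * μ := by
      rw [hμ]
      field_simp
      ring
    rw [e2] at h2
    have h4 : S.card * ((E.card : ℝ) * (S.card * c ^ 2 * (N : ℝ) ^ (2 / (k : ℝ) - 2))) ≤
        S.card * (N : ℝ) ^ (2 / (k : ℝ) - 4 * μ) := by
      rw [← e1]
      refine le_trans (le_of_eq ?_) h2
      ring
    have h5 := le_of_mul_le_mul_left h4 hs0
    refine le_trans ?_ h5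
    apply mul_le_mul_of_nonneg_left _ (Nat.cast_nonneg _)
    apply mul_le_mul_of_nonneg_right _ (by positivity)
    exact mul_le_mul hcard hev (by positivity) hs0.le
  have e3 : (N : ℝ) ^ (1 - μ) * (N : ℝ) ^ (-(2 * μ)) * (N : ℝ) ^ (2 / (k : ℝ) - 2) =
      (N : ℝ) ^ (2 / (k : ℝ) - 1 - 3 * μ) := by
    rw [← Real.rpow_add hN0, ← Real.rpow_add hN0]
    congr 1
    ring
  rw [e3] at h3
  have e4 : (N : ℝ) ^ (2 / (k : ℝ) - 4 * μ) = (N : ℝ) ^ (1 - μ) * (N : ℝ) ^ (2 / (k : ℝ) - 1 - 3 * μ) := by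
    rw [← Real.rpow_add hN0]
    congr 1
    ring
  rw [e4] at h3
  exact le_of_mul_le_mul_right h3 (by positivity)

theorem primes_half (ε : ℝ) (hε : 0 < ε) : ∀ᶠ N : ℕ in Filter.atTop,
    (N : ℝ) ^ (1 - ε) ≤ (((range (N / 2 + 1)).filter Nat.Prime).card : ℝ) := by
  have hlog := (isLittleO_log_rpow_atTop hε).bound (c := 1 / 9) (by norm_num)
  have hlog1 := (isLittleO_log_rpow_atTop (r := 1) one_pos).bound (c := 1 / 10) (by norm_num)
  have hnat := tendsto_natCast_atTop_atTop (R := ℝ)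
  filter_upwards [hnat.eventually hlog, hnat.eventually hlog1, Filter.eventually_ge_atTop 6] with N h1 h2 hN
  have hN0 : (0 : ℝ) < N := by exact_mod_cast (by omega : 0 < N)
  rw [Real.norm_of_nonneg (Real.log_natCast_nonneg N), Real.norm_of_nonneg (by positivity)] at h1 h2
  rw [Real.rpow_one] at h2
  set m := N / 2 with hm
  have hm1 : (N : ℝ) / 3 ≤ m := by
    have h : N ≤ 3 * m := by omega
    have h' : (N : ℝ) ≤ 3 * m := by exact_mod_cast h
    linarith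
  have hm2 : m + 1 ≤ N := by omega
  have hm3 : 3 ≤ m := by omega
  have hpi := Chebyshev.pi_ge m
  have hcard : ((range (m + 1)).filter Nat.Prime).card = Nat.primeCounting m := by
    rw [Nat.primeCounting, Nat.primeCounting', Nat.count_eq_card_filter_range]
  rw [hcard]
  refine le_trans ?_ hpi
  have hm0 : (0 : ℝ) < m := by linarith [div_pos hN0 (by norm_num : (0 : ℝ) < 3)]
  have hl : 0 < Real.log m := Real.log_pos (by exact_mod_cast (by omega : 1 < m))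
  have hl2 : Real.log m ≤ Real.log N := Real.log_le_log hm0 (by exact_mod_cast (by omega : m ≤ N))
  have hl3 : Real.log (m + 1) ≤ Real.log N := Real.log_le_log (by positivity) (by exact_mod_cast hm2)
  rw [le_div_iff₀ hl]
  calc (N : ℝ) ^ (1 - ε) * Real.log m ≤ (N : ℝ) ^ (1 - ε) * (1 / 9 * (N : ℝ) ^ ε) := by
        apply mul_le_mul_of_nonneg_left _ (by positivity)
        linarith
    _ = N / 9 := by
        have e : (N : ℝ) ^ (1 - ε) * (N : ℝ) ^ ε = N := by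
          rw [← Real.rpow_add hN0]
          simp
        calc (N : ℝ) ^ (1 - ε) * (1 / 9 * (N : ℝ) ^ ε) = ((N : ℝ) ^ (1 - ε) * (N : ℝ) ^ ε) / 9 := by ring
          _ = _ := by rw [e]
    _ ≤ m * Real.log 2 - Real.log (m + 1) := by
        have h5 := Real.log_two_gt_d9
        have h6 : (N : ℝ) / 3 * 0.69 ≤ m * Real.log 2 := mul_le_mul hm1 (by linarith) (by norm_num) hm0.le
        linarith

/-- **Almost all integers are a prime plus a value.** -/
theorem prime_ae (d : ℕ) (hd : 1 ≤ d) (a : ℝ) (ha : 0 < a) (δ : ℝ) (hδ0 : 0 < δ) (hδ1 : δ ≤ 1 / 1000) (θ : Fin d → ℝ)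
    (hdom : Dom (d + 1) (fl d a θ) δ) :
    ∀ᶠ N : ℕ in Filter.atTop,
      (({n : ℕ | N ≤ n ∧ n ≤ 2 * N ∧ ¬ ∃ p x : ℕ, p.Prime ∧ 0 < x ∧ (p : ℤ) + fl d a θ x = (n : ℤ)}.ncard : ℕ) : ℝ) ≤
        (N : ℝ) ^ (1 - δ / (8 * ((d + 1 : ℕ) : ℝ))) := by
  filter_upwards [rep_ae d hd a ha δ hδ0 hδ1 θ hdom, primes_half (δ / (8 * ((d + 1 : ℕ) : ℝ))) (by positivity)] with N h1 h2
  have h3 := h1 ((range (N / 2 + 1)).filter Nat.Prime) (fun b hb => by
    have := mem_range.1 (mem_filter.1 hb).1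
    omega) h2
  refine le_trans ?_ h3
  rw [Nat.cast_le, ← Set.ncard_coe_finset]
  apply Set.ncard_le_ncard _ (finite_toSet _)
  rintro n ⟨h4, h5, h6⟩
  rw [mem_coe, mem_filter, mem_Icc]
  refine ⟨⟨h4, h5⟩, ?_⟩
  unfold cP
  convert Set.ncard_empty ℕ
  rw [Set.eq_empty_iff_forall_notMem]
  rintro x ⟨h7, b, hb, h8⟩
  exact h6 ⟨b, x, (mem_filter.1 hb).2, h7, h8⟩

end Pool.Agent.U914.WP
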