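import Mathlib
import Pool.Agent.U914.WP.HD

/-! Almost all polynomials in Waring's problem: the relative asymptotic formula. -/

set_option autoImplicit false

open Finset MeasureTheory
open Pool.Agent.U518.WS (ms)

namespace Pool.Agent.U914.WP

/-- the number of representations, all variables but one from given finite sets -/
noncomputable def rB (d : ℕ) (a : ℝ) (θ : Fin d → ℝ) (B : Fin (2 * (d + 1)) → Finset ℕ) (n : ℕ) : ℕ :=
  {p : (Fin (2 * (d + 1)) → ℕ) × ℕ | (∀ i, p.1 i ∈ B i) ∧ 0 < p.2 ∧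
    ∑ i, ⌊pf d a θ (p.1 i)⌋ + ⌊pf d a θ p.2⌋ = (n : ℤ)}.ncard

theorem rB_eq (d : ℕ) (a : ℝ) (ha : 0 < a) (θ : Fin d → ℝ) : ∀ᶠ n : ℕ in Filter.atTop, ∀ P : ℕ,
    2 * (n : ℝ) ≤ a * (P : ℝ) ^ (d + 1) → ∀ B : Fin (2 * (d + 1)) → Finset ℕ,
    rB d a θ B n = ((hb d P B).filter fun p => hz d a θ p = (n : ℤ)).card := by
  obtain ⟨B0, hB0, hg⟩ := pf_growth d a ha θ (1 / 4) (by norm_num)
  have hev : ∀ᶠ n : ℕ in Filter.atTop, 2 * (((2 * (d + 1) : ℕ) + 1) * (B0 + 1)) ≤ (n : ℝ) :=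
    tendsto_natCast_atTop_atTop.eventually_ge_atTop _
  filter_upwards [hev] with n hn P hP B
  unfold rB
  rw [← Set.ncard_coe_finset]
  congr 1
  ext ⟨b, x⟩
  unfold hb
  simp only [coe_filter, mem_product, Fintype.mem_piFinset, mem_Ioc, Set.mem_ofPred_eq]
  unfold hz zz
  simp only
  constructor
  · rintro ⟨h1, h2, h3⟩
    refine ⟨⟨h1, h2, ?_⟩, h3⟩
    have h4 : ∀ j, -(B0 + 1) ≤ (⌊pf d a θ (b j)⌋ : ℝ) := by
      intro j
      have h5 := hg (b j)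
      have h6 := (Int.lt_floor_add_one (pf d a θ (b j))).le
      have h7 : 0 ≤ (1 - 1 / 4) * a * (b j : ℝ) ^ (d + 1) := by
        have : 0 ≤ a * (b j : ℝ) ^ (d + 1) := by positivity
        linarith
      linarith
    have h5 : -(((2 * (d + 1) : ℕ) : ℝ) * (B0 + 1)) ≤ ∑ j, (⌊pf d a θ (b j)⌋ : ℝ) := by
      calc -(((2 * (d + 1) : ℕ) : ℝ) * (B0 + 1)) = ∑ _j : Fin (2 * (d + 1)), -(B0 + 1) := by
            rw [sum_const, card_univ, Fintype.card_fin, nsmul_eq_mul]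
            ring
        _ ≤ _ := sum_le_sum fun j _ => h4 j
    have h6 : ∑ j, (⌊pf d a θ (b j)⌋ : ℝ) + (⌊pf d a θ x⌋ : ℝ) = n := by exact_mod_cast h3
    have h7 := hg x
    have h8 := (Int.lt_floor_add_one (pf d a θ x)).le
    have h9 : a * (x : ℝ) ^ (d + 1) ≤ a * (P : ℝ) ^ (d + 1) := by
      push_cast at hn h5
      linarith
    have h10 := le_of_pow_le_pow_left₀ (by omega : d + 1 ≠ 0) (Nat.cast_nonneg _) (le_of_mul_le_mul_left h9 ha)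
    exact_mod_cast h10
  · rintro ⟨⟨h1, h2, _⟩, h3⟩
    exact ⟨h1, h2, h3⟩

/-- **The relative asymptotic formula.** -/
theorem relative (d : ℕ) (hd : 1 ≤ d) (a : ℝ) (ha : 0 < a) : ∃ τ : ℝ, 0 < τ ∧ ∀ᵐ θ : Fin d → ℝ,
    ∀ᶠ n : ℕ in Filter.atTop, ∀ B : Fin (2 * (d + 1)) → Finset ℕ,
      (∀ i, ∀ b ∈ B i, 0 < b ∧ 4 * ((d + 1 : ℕ) : ℝ) * (a * (b : ℝ) ^ (d + 1)) ≤ n) →
      |(rB d a θ B n : ℝ) - ∑ b ∈ Fintype.piFinset B, rh (d + 1) a (n - a * ∑ i, (b i : ℝ) ^ (d + 1))| ≤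
        (n : ℝ) ^ (1 + 1 / ((d + 1 : ℕ) : ℝ) - τ) := by
  obtain ⟨κ, hκ0, hκ1, hminor⟩ := minorb_ae d hd a ha
  set k : ℕ := d + 1 with hk
  have hk2 : (2 : ℝ) ≤ k := by
    have : 2 ≤ k := by omega
    exact_mod_cast this
  have hk0 : (0 : ℝ) < k := by linarith
  refine ⟨κ / (2 * k), by positivity, ae_par d _ fun m => ?_⟩
  filter_upwards [hminor m] with t ht
  obtain ⟨C0, hC0, hsc⟩ := rel_scale d hd a ha (m + t) κ hκ1
  obtain ⟨ν1, hν1⟩ := Filter.eventually_atTop.1 (ht.and hsc)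
  have hsk : (0 : ℝ) ≤ (k : ℝ) + 1 - κ := by linarith
  set c5 : ℝ := 2 * (2 / a) ^ ((k : ℝ)⁻¹) with hc5
  have hc50 : 0 < c5 := by positivity
  have hev1 : ∀ᶠ n : ℕ in Filter.atTop, a * (2 ^ ν1) ^ k ≤ (n : ℝ) := tendsto_natCast_atTop_atTop.eventually_ge_atTop _
  have hev2 : ∀ᶠ n : ℕ in Filter.atTop, (n : ℝ) ^ (-(κ / (2 * k))) ≤ 1 / (C0 * c5 ^ ((k : ℝ) + 1 - κ)) :=
    ((tendsto_rpow_neg_atTop (by positivity : (0 : ℝ) < κ / (2 * k))).comp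
      tendsto_natCast_atTop_atTop).eventually_le_const (by positivity)
  filter_upwards [hev1, hev2, rB_eq d a ha (m + t)] with n hn1 hn2 hrz B hB
  have hn0 : (0 : ℝ) < n := lt_of_lt_of_le (by positivity) hn1
  obtain ⟨ν, hν, hs1, hs2⟩ := scale2 k (by omega) a ha ν1 n (by linarith)
  obtain ⟨hY, hS⟩ := hν1 ν hν
  rw [hrz (2 ^ ν) hs2 B]
  have hBP : ∀ i, B i ⊆ Ioc 0 (2 ^ ν) := by
    intro i b hb
    obtain ⟨hb1, hb2⟩ := hB i b hb
    rw [mem_Ioc]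
    refine ⟨hb1, ?_⟩
    have h4 : a * (b : ℝ) ^ k ≤ a * (((2 ^ ν : ℕ) : ℝ)) ^ k := by
      have h5 : 0 ≤ a * (b : ℝ) ^ k := by positivity
      have h6 : 0 ≤ a * (((2 ^ ν : ℕ) : ℝ)) ^ k := by positivity
      nlinarith
    have h5 := le_of_pow_le_pow_left₀ (by omega : k ≠ 0) (Nat.cast_nonneg _) (le_of_mul_le_mul_left h4 ha)
    exact_mod_cast h5
  refine (hS n hs1 hs2 B hB (hY B hBP)).trans ?_
  set p : ℝ := ((2 ^ ν : ℕ) : ℝ) with hp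
  have hp0 : 0 < p := by positivity
  have hpn : p ≤ c5 * (n : ℝ) ^ ((k : ℝ)⁻¹) := by
    have h1 : (p / 2) ^ k ≤ 2 * n / a := by
      rw [le_div_iff₀ ha, mul_comm]
      exact hs1
    have h2 := Real.rpow_le_rpow (by positivity) h1 (by positivity : (0 : ℝ) ≤ (k : ℝ)⁻¹)
    rw [Real.pow_rpow_inv_natCast (by positivity) (by omega)] at h2
    have h3 : 2 * (n : ℝ) / a = 2 / a * n := by ring
    rw [h3, Real.mul_rpow (by positivity) hn0.le] at h2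
    rw [hc5]
    linarith
  have h4 : p ^ ((k : ℝ) + 1 - κ) ≤ c5 ^ ((k : ℝ) + 1 - κ) * (n : ℝ) ^ (1 + 1 / (k : ℝ) - κ / k) := by
    calc p ^ ((k : ℝ) + 1 - κ) ≤ (c5 * (n : ℝ) ^ ((k : ℝ)⁻¹)) ^ ((k : ℝ) + 1 - κ) := Real.rpow_le_rpow hp0.le hpn hsk
      _ = c5 ^ ((k : ℝ) + 1 - κ) * (n : ℝ) ^ (1 + 1 / (k : ℝ) - κ / k) := by
          rw [Real.mul_rpow hc50.le (by positivity), ← Real.rpow_mul hn0.le]
          congr 2
          field_simp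
  calc C0 * p ^ ((k : ℝ) + 1 - κ) ≤ C0 * (c5 ^ ((k : ℝ) + 1 - κ) * (n : ℝ) ^ (1 + 1 / (k : ℝ) - κ / k)) :=
        mul_le_mul_of_nonneg_left h4 hC0.le
    _ = C0 * c5 ^ ((k : ℝ) + 1 - κ) * (n : ℝ) ^ (-(κ / (2 * k))) * (n : ℝ) ^ (1 + 1 / (k : ℝ) - κ / (2 * k)) := by
        rw [mul_assoc (C0 * c5 ^ ((k : ℝ) + 1 - κ)), ← Real.rpow_add hn0, mul_assoc]
        congr 3
        field_simp
        ring
    _ ≤ C0 * c5 ^ ((k : ℝ) + 1 - κ) * (1 / (C0 * c5 ^ ((k : ℝ) + 1 - κ))) * (n : ℝ) ^ (1 + 1 / (k : ℝ) - κ / (2 * k)) := by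
        apply mul_le_mul_of_nonneg_right _ (by positivity)
        exact mul_le_mul_of_nonneg_left hn2 (by positivity)
    _ = _ := by
        rw [mul_one_div_cancel (by positivity), one_mul]

/-- the density, as a power -/
theorem rh_eq (k : ℕ) (hk : 1 ≤ k) (a t : ℝ) (ha : 0 < a) (ht : 0 < t) :
    rh k a t = 1 / (k * a ^ ((1 : ℝ) / k)) * t ^ ((1 : ℝ) / k - 1) := by
  have hk0 : (0 : ℝ) < k := by exact_mod_cast hk
  unfold rh ps1
  rw [Real.div_rpow ht.le ha.le, Real.rpow_sub_one ht.ne', one_div (k : ℝ)]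
  have h1 : 0 < a ^ ((k : ℝ)⁻¹) := by positivity
  field_simp

/-- **Sets of small density.** -/
theorem rel_sets (d : ℕ) (hd : 1 ≤ d) (a : ℝ) (ha : 0 < a) (τ : ℝ) (hτ : 0 < τ) (θ : Fin d → ℝ)
    (h : ∀ᶠ n : ℕ in Filter.atTop, ∀ B : Fin (2 * (d + 1)) → Finset ℕ,
      (∀ i, ∀ b ∈ B i, 0 < b ∧ 4 * ((d + 1 : ℕ) : ℝ) * (a * (b : ℝ) ^ (d + 1)) ≤ n) →
      |(rB d a θ B n : ℝ) - ∑ b ∈ Fintype.piFinset B, rh (d + 1) a (n - a * ∑ i, (b i : ℝ) ^ (d + 1))| ≤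
        (n : ℝ) ^ (1 + 1 / ((d + 1 : ℕ) : ℝ) - τ))
    (c : ℝ) (hc1 : c ≤ 1) (hcτ : 2 * c < τ) : ∀ A : Fin (2 * (d + 1)) → Set ℕ,
    (∀ i, ∀ᶠ X : ℕ in Filter.atTop, (X : ℝ) ^ (1 - c) ≤ ((A i ∩ Set.Icc 1 X).ncard : ℝ)) →
    ∀ᶠ n : ℕ in Filter.atTop, ∃ b : Fin (2 * (d + 1)) → ℕ, ∃ x : ℕ, (∀ i, b i ∈ A i ∧ 0 < b i) ∧ 0 < x ∧
      ∑ i, ⌊pf d a θ (b i)⌋ + ⌊pf d a θ x⌋ = (n : ℤ) := by
  classical
  set k : ℕ := d + 1 with hk
  have hk2 : (2 : ℝ) ≤ k := by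
    have : 2 ≤ k := by omega
    exact_mod_cast this
  have hk0 : (0 : ℝ) < k := by linarith
  have hkne : k ≠ 0 := by omega
  intro A hA
  set Y : ℕ → ℕ := fun n => ⌊((n : ℝ) / (4 * k * a)) ^ ((k : ℝ)⁻¹)⌋₊ with hY
  have hYt : Filter.Tendsto Y Filter.atTop Filter.atTop := by
    rw [hY]
    apply tendsto_nat_floor_atTop.comp
    apply (tendsto_rpow_atTop (by positivity : (0 : ℝ) < (k : ℝ)⁻¹)).comp
    exact tendsto_natCast_atTop_atTop.atTop_div_const (by positivity)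
  have hYA : ∀ᶠ n : ℕ in Filter.atTop, ∀ i, ((Y n : ℕ) : ℝ) ^ (1 - c) ≤ ((A i ∩ Set.Icc 1 (Y n)).ncard : ℝ) := by
    rw [Filter.eventually_all]
    intro i
    exact hYt.eventually (hA i)
  set c3 : ℝ := (1 / (2 * a)) ^ ((k : ℝ)⁻¹) / k with hc3
  have hc30 : 0 < c3 := by positivity
  set c4 : ℝ := (1 / (4 * k * a)) ^ ((k : ℝ)⁻¹) / 2 with hc4
  have hc40 : 0 < c4 := by positivity
  set e6 : ℝ := (1 - c) * (2 * k) with he6
  have he60 : 0 ≤ e6 := by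
    rw [he6]
    apply mul_nonneg <;> linarith
  set c6 : ℝ := c3 * c4 ^ e6 with hc6
  have hc60 : 0 < c6 := by positivity
  have hev3 : ∀ᶠ n : ℕ in Filter.atTop, (n : ℝ) ^ (-(τ - 2 * c)) ≤ c6 / 2 :=
    ((tendsto_rpow_neg_atTop (by linarith : (0 : ℝ) < τ - 2 * c)).comp
      tendsto_natCast_atTop_atTop).eventually_le_const (by positivity)
  filter_upwards [h, hYA, hYt.eventually_ge_atTop 1, hev3, Filter.eventually_ge_atTop 1] with n hn hA' hY1 hn3 hn1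
  have hn0 : (0 : ℝ) < n := by exact_mod_cast hn1
  set X : ℝ := ((n : ℝ) / (4 * k * a)) ^ ((k : ℝ)⁻¹) with hX
  have hX0 : 0 < X := by positivity
  have hXk : X ^ k = (n : ℝ) / (4 * k * a) := Real.rpow_inv_natCast_pow (by positivity) hkne
  have hYn : Y n = ⌊X⌋₊ := rfl
  have hYX : ((Y n : ℕ) : ℝ) ≤ X := by rw [hYn]; exact Nat.floor_le hX0.le
  have hYX2 : X / 2 ≤ ((Y n : ℕ) : ℝ) := by
    have h1 := Nat.lt_floor_add_one X
    rw [← hYn] at h1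
    have h2 : (1 : ℝ) ≤ ((Y n : ℕ) : ℝ) := by exact_mod_cast hY1
    linarith
  set B : Fin (2 * (d + 1)) → Finset ℕ := fun i => (Icc 1 (Y n)).filter fun b => b ∈ A i with hB
  have hBc : ∀ i, ((B i).card : ℝ) = ((A i ∩ Set.Icc 1 (Y n)).ncard : ℝ) := by
    intro i
    rw [← Set.ncard_coe_finset]
    congr 2
    ext b
    rw [hB]
    simp only [coe_filter, mem_Icc, Set.mem_ofPred_eq, Set.mem_inter_iff, Set.mem_Icc]
    tauto
  have hBn : ∀ i, ∀ b ∈ B i, 0 < b ∧ 4 * (k : ℝ) * (a * (b : ℝ) ^ k) ≤ n := by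
    intro i b hb
    rw [hB, mem_filter, mem_Icc] at hb
    refine ⟨hb.1.1, ?_⟩
    have h1 : (b : ℝ) ≤ X := le_trans (by exact_mod_cast hb.1.2) hYX
    have h2 : (b : ℝ) ^ k ≤ X ^ k := pow_le_pow_left₀ (Nat.cast_nonneg _) h1 k
    rw [hXk, le_div_iff₀ (by positivity)] at h2
    linarith
  have hmain := hn B hBn
  -- the lower bound for the main term
  have hterm : ∀ b ∈ Fintype.piFinset B, c3 * (n : ℝ) ^ ((k : ℝ)⁻¹ - 1) ≤
      rh k a (n - a * ∑ i, (b i : ℝ) ^ k) := by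
    intro b hb
    rw [Fintype.mem_piFinset] at hb
    have h4 : ∑ i, (a * (b i : ℝ) ^ k) ≤ ∑ _i : Fin (2 * (d + 1)), (n : ℝ) / (4 * k) := by
      apply sum_le_sum
      intro i _
      rw [le_div_iff₀ (by positivity)]
      have := (hBn i _ (hb i)).2
      linarith
    rw [sum_const, card_univ, Fintype.card_fin, nsmul_eq_mul, ← mul_sum] at h4
    have h5 : ((2 * (d + 1) : ℕ) : ℝ) * ((n : ℝ) / (4 * k)) = n / 2 := by
      have : ((2 * (d + 1) : ℕ) : ℝ) = 2 * k := by rw [hk]; push_cast; ring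
      rw [this]
      field_simp
      ring
    rw [h5] at h4
    have h6 : 0 ≤ a * ∑ i, (b i : ℝ) ^ k := by positivity
    set M : ℝ := (n : ℝ) - a * ∑ i, (b i : ℝ) ^ k with hM
    have hM1 : (n : ℝ) / 2 ≤ M := by linarith
    have hM2 : M ≤ n := by linarith
    have hM0 : 0 < M := by linarith
    unfold rh
    have h7 := ps1_mono k a ((n : ℝ) / 2) M ha (by positivity) hM1
    have h8 : ps1 k a ((n : ℝ) / 2) = (1 / (2 * a)) ^ ((k : ℝ)⁻¹) * (n : ℝ) ^ ((k : ℝ)⁻¹) := by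
      unfold ps1
      rw [← Real.mul_rpow (by positivity) hn0.le]
      congr 1
      field_simp
    calc c3 * (n : ℝ) ^ ((k : ℝ)⁻¹ - 1) = ps1 k a ((n : ℝ) / 2) / (k * n) := by
          rw [h8, hc3, Real.rpow_sub_one hn0.ne']
          field_simp
      _ ≤ _ := by
          apply div_le_div₀ (ps1_nonneg k a M ha hM0.le) h7 (by positivity)
          exact mul_le_mul_of_nonneg_left hM2 hk0.le
  have hcardB : (c4 * (n : ℝ) ^ ((k : ℝ)⁻¹)) ^ e6 ≤ ((Fintype.piFinset B).card : ℝ) := by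
    have h1 : c4 * (n : ℝ) ^ ((k : ℝ)⁻¹) ≤ ((Y n : ℕ) : ℝ) := by
      refine le_trans (le_of_eq ?_) hYX2
      rw [hX, hc4, div_eq_mul_one_div (n : ℝ) (4 * k * a), Real.mul_rpow hn0.le (by positivity)]
      ring
    rw [Fintype.card_piFinset]
    push_cast
    calc (c4 * (n : ℝ) ^ ((k : ℝ)⁻¹)) ^ e6 ≤ ((Y n : ℕ) : ℝ) ^ e6 := Real.rpow_le_rpow (by positivity) h1 he60
      _ = ∏ _i : Fin (2 * (d + 1)), ((Y n : ℕ) : ℝ) ^ (1 - c) := by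
          rw [prod_const, card_univ, Fintype.card_fin, ← Real.rpow_natCast, ← Real.rpow_mul (Nat.cast_nonneg _), he6, hk]
          push_cast
          rfl
      _ ≤ _ := by
          apply prod_le_prod (fun i _ => by positivity)
          intro i _
          rw [hBc]
          exact hA' i
  have hsum : c6 * (n : ℝ) ^ (1 + 1 / (k : ℝ) - 2 * c) ≤
      ∑ b ∈ Fintype.piFinset B, rh k a (n - a * ∑ i, (b i : ℝ) ^ k) := by
    calc c6 * (n : ℝ) ^ (1 + 1 / (k : ℝ) - 2 * c) =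
          (c4 * (n : ℝ) ^ ((k : ℝ)⁻¹)) ^ e6 * (c3 * (n : ℝ) ^ ((k : ℝ)⁻¹ - 1)) := by
          rw [Real.mul_rpow hc40.le (by positivity), ← Real.rpow_mul hn0.le]
          have h1 : (n : ℝ) ^ (1 + 1 / (k : ℝ) - 2 * c) =
              (n : ℝ) ^ ((k : ℝ)⁻¹ * e6) * (n : ℝ) ^ ((k : ℝ)⁻¹ - 1) := by
            rw [← Real.rpow_add hn0]
            congr 1
            rw [he6]
            field_simp
            ring
          rw [h1, hc6]
          ring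
      _ ≤ ((Fintype.piFinset B).card : ℝ) * (c3 * (n : ℝ) ^ ((k : ℝ)⁻¹ - 1)) :=
          mul_le_mul_of_nonneg_right hcardB (by positivity)
      _ = ∑ _b ∈ Fintype.piFinset B, c3 * (n : ℝ) ^ ((k : ℝ)⁻¹ - 1) := by rw [sum_const, nsmul_eq_mul]
      _ ≤ _ := sum_le_sum hterm
  have herr : (n : ℝ) ^ (1 + 1 / (k : ℝ) - τ) ≤ c6 / 2 * (n : ℝ) ^ (1 + 1 / (k : ℝ) - 2 * c) := by
    calc (n : ℝ) ^ (1 + 1 / (k : ℝ) - τ) = (n : ℝ) ^ (-(τ - 2 * c)) * (n : ℝ) ^ (1 + 1 / (k : ℝ) - 2 * c) := by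
          rw [← Real.rpow_add hn0]
          congr 1
          ring
      _ ≤ _ := mul_le_mul_of_nonneg_right hn3 (by positivity)
  have hpos : 0 < c6 / 2 * (n : ℝ) ^ (1 + 1 / (k : ℝ) - 2 * c) := by positivity
  have hr : 0 < (rB d a θ B n : ℝ) := by
    have := (abs_le.1 hmain).1
    linarith
  have hr' : rB d a θ B n ≠ 0 := by
    have : 0 < rB d a θ B n := by exact_mod_cast hr
    omega
  unfold rB at hr'
  obtain ⟨⟨b, x⟩, hb, hx, hs⟩ := Set.nonempty_of_ncard_ne_zero hr'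
  refine ⟨b, x, fun i => ?_, hx, hs⟩
  have h1 := hb i
  rw [hB] at h1
  simp only [mem_filter, mem_Icc] at h1
  exact ⟨h1.2, h1.1.1⟩

end Pool.Agent.U914.WP
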