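import Mathlib
import Pool.Agent.U914.WP.KG

/-! Almost all polynomials in Waring's problem: `k` variables from sets of small density and one full variable
represent almost all numbers. -/

set_option autoImplicit false

open Finset MeasureTheory

namespace Pool.Agent.U914.WP

/-- **Almost all numbers, relative to sets.** -/
theorem rel_aa (d : ℕ) (hd : 1 ≤ d) (a : ℝ) (ha : 0 < a) (δ : ℝ) (hδ0 : 0 < δ) (hδ1 : δ ≤ 1 / 1000) (θ : Fin d → ℝ)
    (hdom : Dom (d + 1) (fl d a θ) δ) (hmv : MVp (d + 1) (fl d a θ)) (τ : ℝ) (hτ : 0 < τ)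
    (hτδ : τ ≤ δ / (16 * ((d + 1 : ℕ) : ℝ))) : ∀ A : Fin (d + 1) → Set ℕ,
    (∀ i, ∀ᶠ X : ℕ in Filter.atTop, (X : ℝ) ^ (1 - τ) ≤ ((A i ∩ Set.Icc 1 X).ncard : ℝ)) →
    ∀ᶠ X : ℕ in Filter.atTop, ({n : ℕ | 1 ≤ n ∧ n ≤ X ∧ ¬ ∃ b : Fin (d + 1) → ℕ, ∃ x : ℕ,
      (∀ i, b i ∈ A i ∧ 0 < b i) ∧ 0 < x ∧ ∑ i, fl d a θ (b i) + fl d a θ x = (n : ℤ)}.ncard : ℝ) ≤
        (X : ℝ) ^ (1 - τ) := by
  classical
  set k : ℕ := d + 1 with hk
  intro A hA
  have hk2 : 2 ≤ k := by omega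
  have hk2r : (2 : ℝ) ≤ k := by exact_mod_cast hk2
  have hk0 : (0 : ℝ) < k := by linarith
  have hkne : k ≠ 0 := by omega
  set g : ℕ → ℤ := fl d a θ with hg
  have hsz : Sz k a g (∑ j, |θ j| + 1) := sz_fl d a θ
  have hC1 : 0 ≤ ∑ j, |θ j| + 1 := by positivity
  have hms := rel_ms d hd a ha δ hδ0 hδ1 θ hdom hmv
  have h4τ : 4 * τ ≤ δ / (4 * k) := by
    have h1 : δ / (4 * k) = 4 * (δ / (16 * k)) := by
      field_simp
      norm_num
    rw [h1]
    linarith
  have hτ1 : τ < 1 := by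
    have h1 : δ / (4 * k) ≤ 1 := by
      rw [div_le_one (by positivity)]
      linarith
    linarith
  set Y : ℝ → ℕ := fun N => ⌊(N / (4 * k * a)) ^ ((k : ℝ)⁻¹)⌋₊ with hY
  have hYt : Filter.Tendsto Y Filter.atTop Filter.atTop := by
    rw [hY]
    apply tendsto_nat_floor_atTop.comp
    apply (tendsto_rpow_atTop (by positivity : (0 : ℝ) < (k : ℝ)⁻¹)).comp
    exact Filter.tendsto_id.atTop_div_const (by positivity)
  have hYA : ∀ᶠ N : ℝ in Filter.atTop, ∀ i, ((Y N : ℕ) : ℝ) ^ (1 - τ) ≤ ((A i ∩ Set.Icc 1 (Y N)).ncard : ℝ) := by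
    rw [Filter.eventually_all]
    intro i
    exact hYt.eventually (hA i)
  set c3 : ℝ := (1 / (2 * a)) ^ ((k : ℝ)⁻¹) / (k * (2 * 2 ^ k)) with hc3
  have hc30 : 0 < c3 := by positivity
  set c4 : ℝ := (1 / (4 * k * a)) ^ ((k : ℝ)⁻¹) / 2 with hc4
  have hc40 : 0 < c4 := by positivity
  set e6 : ℝ := (1 - τ) * k with he6
  have he60 : 0 ≤ e6 := by
    rw [he6]
    apply mul_nonneg <;> linarith
  set c6 : ℝ := c3 * c4 ^ e6 with hc6
  have hc60 : 0 < c6 := by positivity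
  set E0 : ℝ := 1 - δ / (4 * k) + 2 * τ with hE0
  have hE00 : 0 < E0 := by
    have h1 : δ / (4 * k) ≤ 1 / 2 := by
      rw [div_le_div_iff₀ (by positivity) (by norm_num)]
      linarith
    linarith
  set Bad : ℕ → Prop := fun n => ¬ ∃ b : Fin k → ℕ, ∃ x : ℕ, (∀ i, b i ∈ A i ∧ 0 < b i) ∧ 0 < x ∧
    ∑ i, g (b i) + g x = (n : ℤ) with hBad
  -- one band
  have hband : ∀ᶠ N : ℝ in Filter.atTop, ∀ J : Finset ℕ, (∀ n ∈ J, N ≤ n ∧ (n : ℝ) ≤ 2 ^ k * N) →
      (∀ n ∈ J, Bad n) → (J.card : ℝ) ≤ 1 / c6 ^ 2 * N ^ E0 := by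
    filter_upwards [hms, hYA, hYt.eventually_ge_atTop 1, wC_size k k hk2 a ha g _ hC1 hsz (1 / 4) (by norm_num),
      Filter.eventually_gt_atTop 0] with N hms hA' hY1 hwC hN0 J hJ hJB
    set X : ℝ := (N / (4 * k * a)) ^ ((k : ℝ)⁻¹) with hX
    have hX0 : 0 < X := by positivity
    have hXk : X ^ k = N / (4 * k * a) := Real.rpow_inv_natCast_pow (by positivity) hkne
    have hYn : Y N = ⌊X⌋₊ := rfl
    have hYX : ((Y N : ℕ) : ℝ) ≤ X := by rw [hYn]; exact Nat.floor_le hX0.le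
    have hYX2 : X / 2 ≤ ((Y N : ℕ) : ℝ) := by
      have h1 := Nat.lt_floor_add_one X
      rw [← hYn] at h1
      have h2 : (1 : ℝ) ≤ ((Y N : ℕ) : ℝ) := by exact_mod_cast hY1
      linarith
    set B : Fin k → Finset ℕ := fun i => (Icc 1 (Y N)).filter fun b => b ∈ A i with hB
    have hBc : ∀ i, ((B i).card : ℝ) = ((A i ∩ Set.Icc 1 (Y N)).ncard : ℝ) := by
      intro i
      rw [← Set.ncard_coe_finset]
      congr 2
      ext b
      rw [hB]
      simp only [coe_filter, mem_Icc, Set.mem_ofPred_eq, Set.mem_inter_iff, Set.mem_Icc]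
      tauto
    have hBn : ∀ i, ∀ b ∈ B i, 0 < b ∧ 4 * (k : ℝ) * (a * (b : ℝ) ^ k) ≤ N := by
      intro i b hb
      rw [hB, mem_filter, mem_Icc] at hb
      refine ⟨hb.1.1, ?_⟩
      have h1 : (b : ℝ) ≤ X := le_trans (by exact_mod_cast hb.1.2) hYX
      have h2 : (b : ℝ) ^ k ≤ X ^ k := pow_le_pow_left₀ (Nat.cast_nonneg _) h1 k
      rw [hXk, le_div_iff₀ (by positivity)] at h2
      linarith
    have h1 := hms J hJ B hBn
    have hw : ∀ b ∈ Fintype.piFinset B, |(wC k g b : ℝ)| ≤ N / 2 := by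
      intro b hb
      rw [Fintype.mem_piFinset] at hb
      have h1 := hwC b (fun i => by
        obtain ⟨h2, h3⟩ := hBn i _ (hb i)
        refine ⟨h2, ?_⟩
        have h4 : 0 ≤ a * (b i : ℝ) ^ k := by positivity
        nlinarith)
      have h2 : ∑ i, a * (b i : ℝ) ^ k ≤ N / 4 := by
        calc ∑ i, a * (b i : ℝ) ^ k ≤ ∑ _i : Fin k, N / (4 * k) := by
              apply sum_le_sum
              intro i _
              rw [le_div_iff₀ (by positivity)]
              have := (hBn i _ (hb i)).2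
              linarith
          _ = _ := by
              rw [sum_const, card_univ, Fintype.card_fin, nsmul_eq_mul]
              field_simp
      have h3 : 0 ≤ ∑ i, a * (b i : ℝ) ^ k := by positivity
      rw [abs_le] at h1 ⊢
      constructor <;> linarith [h1.1, h1.2]
    have hcardB : (c4 * N ^ ((k : ℝ)⁻¹)) ^ e6 ≤ ((Fintype.piFinset B).card : ℝ) := by
      have h1 : c4 * N ^ ((k : ℝ)⁻¹) ≤ ((Y N : ℕ) : ℝ) := by
        refine le_trans (le_of_eq ?_) hYX2
        rw [hX, hc4, div_eq_mul_one_div N (4 * k * a), Real.mul_rpow hN0.le (by positivity)]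
        ring
      rw [Fintype.card_piFinset]
      push_cast
      calc (c4 * N ^ ((k : ℝ)⁻¹)) ^ e6 ≤ ((Y N : ℕ) : ℝ) ^ e6 := Real.rpow_le_rpow (by positivity) h1 he60
        _ = ∏ _i : Fin k, ((Y N : ℕ) : ℝ) ^ (1 - τ) := by
            rw [prod_const, card_univ, Fintype.card_fin, ← Real.rpow_natCast, ← Real.rpow_mul (Nat.cast_nonneg _)]
        _ ≤ _ := by
            apply prod_le_prod (fun i _ => by positivity)
            intro i _
            rw [hBc]
            exact hA' i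
    have hmain : ∀ n ∈ J, c6 * N ^ (1 / (k : ℝ) - τ) ≤
        ∑ b ∈ Fintype.piFinset B, rh k a ((n : ℝ) - ∑ i, (g (b i) : ℝ)) := by
      intro n hn
      obtain ⟨hn1, hn2⟩ := hJ n hn
      have hterm : ∀ b ∈ Fintype.piFinset B, c3 * N ^ ((k : ℝ)⁻¹ - 1) ≤ rh k a ((n : ℝ) - ∑ i, (g (b i) : ℝ)) := by
        intro b hb
        have h2 := abs_le.1 (hw b hb)
        have e1 : ((wC k g b : ℤ) : ℝ) = ∑ i, (g (b i) : ℝ) := by
          unfold wC
          push_cast
          rfl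
        rw [e1] at h2
        set M : ℝ := (n : ℝ) - ∑ i, (g (b i) : ℝ) with hM
        have h2k : (1 : ℝ) ≤ 2 ^ k := one_le_pow₀ (by norm_num)
        have hM1 : N / 2 ≤ M := by linarith
        have hM2 : M ≤ 2 * 2 ^ k * N := by nlinarith
        have hM0 : 0 < M := by linarith
        unfold rh
        have h7 := ps1_mono k a (N / 2) M ha (by positivity) hM1
        have h8 : ps1 k a (N / 2) = (1 / (2 * a)) ^ ((k : ℝ)⁻¹) * N ^ ((k : ℝ)⁻¹) := by
          unfold ps1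
          rw [← Real.mul_rpow (by positivity) hN0.le]
          congr 1
          field_simp
        calc c3 * N ^ ((k : ℝ)⁻¹ - 1) = ps1 k a (N / 2) / (k * (2 * 2 ^ k * N)) := by
              rw [h8, hc3, Real.rpow_sub_one hN0.ne']
              field_simp
          _ ≤ _ := by
              apply div_le_div₀ (ps1_nonneg k a M ha hM0.le) h7 (by positivity)
              exact mul_le_mul_of_nonneg_left hM2 hk0.le
      calc c6 * N ^ (1 / (k : ℝ) - τ) = (c4 * N ^ ((k : ℝ)⁻¹)) ^ e6 * (c3 * N ^ ((k : ℝ)⁻¹ - 1)) := by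
            rw [Real.mul_rpow hc40.le (by positivity), ← Real.rpow_mul hN0.le]
            have h1 : N ^ (1 / (k : ℝ) - τ) = N ^ ((k : ℝ)⁻¹ * e6) * N ^ ((k : ℝ)⁻¹ - 1) := by
              rw [← Real.rpow_add hN0]
              congr 1
              rw [he6]
              field_simp
              ring
            rw [h1, hc6]
            ring
        _ ≤ ((Fintype.piFinset B).card : ℝ) * (c3 * N ^ ((k : ℝ)⁻¹ - 1)) :=
            mul_le_mul_of_nonneg_right hcardB (by positivity)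
        _ = ∑ _b ∈ Fintype.piFinset B, c3 * N ^ ((k : ℝ)⁻¹ - 1) := by rw [sum_const, nsmul_eq_mul]
        _ ≤ _ := sum_le_sum hterm
    have hzero : ∀ n ∈ J, (rC k g B n : ℝ) = 0 := by
      intro n hn
      have h2 := hJB n hn
      have h3 : {q : (Fin k → ℕ) × ℕ | (∀ i, q.1 i ∈ B i) ∧ 0 < q.2 ∧ ∑ i, g (q.1 i) + g q.2 = (n : ℤ)} = ∅ := by
        ext ⟨b, x⟩
        simp only [Set.mem_ofPred_eq, Set.mem_empty_iff_false, iff_false]
        rintro ⟨h4, h5, h6⟩
        apply h2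
        refine ⟨b, x, fun i => ?_, h5, h6⟩
        have h7 := h4 i
        rw [hB] at h7
        simp only [mem_filter, mem_Icc] at h7
        exact ⟨h7.2, h7.1.1⟩
      unfold rC
      rw [h3]
      simp
    have h2 : (J.card : ℝ) * (c6 * N ^ (1 / (k : ℝ) - τ)) ^ 2 ≤ N ^ (1 + 2 / (k : ℝ) - δ / (4 * k)) := by
      calc (J.card : ℝ) * (c6 * N ^ (1 / (k : ℝ) - τ)) ^ 2 = ∑ _n ∈ J, (c6 * N ^ (1 / (k : ℝ) - τ)) ^ 2 := by
            rw [sum_const, nsmul_eq_mul]
        _ ≤ ∑ n ∈ J, ((rC k g B n : ℝ) - ∑ b ∈ Fintype.piFinset B, rh k a ((n : ℝ) - ∑ i, (g (b i) : ℝ))) ^ 2 := by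
            apply sum_le_sum
            intro n hn
            rw [hzero n hn, zero_sub, neg_sq]
            exact pow_le_pow_left₀ (by positivity) (hmain n hn) 2
        _ ≤ _ := h1
    have h3 : N ^ (1 + 2 / (k : ℝ) - δ / (4 * k)) = N ^ E0 * (N ^ (1 / (k : ℝ) - τ)) ^ 2 := by
      rw [sq, ← Real.rpow_add hN0, ← Real.rpow_add hN0]
      congr 1
      rw [hE0]
      ring
    rw [h3, mul_pow, ← mul_assoc] at h2
    have h4 : 0 < (N ^ (1 / (k : ℝ) - τ)) ^ 2 := by positivity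
    have h5 := le_of_mul_le_mul_right h2 h4
    rw [div_mul_eq_mul_div, one_mul, le_div_iff₀ (by positivity)]
    exact h5
  -- sum over the bands
  set Δ : ℕ → ℝ := fun n => if Bad n then 1 else 0 with hΔ
  have hΔ0 : ∀ n, 0 ≤ Δ n := by
    intro n
    rw [hΔ]
    simp only
    split_ifs <;> norm_num
  have htend : Filter.Tendsto (fun ν : ℕ => a * (((2 ^ ν : ℕ) : ℝ) / 2) ^ k / 2) Filter.atTop Filter.atTop := by
    have h1 : Filter.Tendsto (fun ν : ℕ => ((2 ^ ν : ℕ) : ℝ)) Filter.atTop Filter.atTop :=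
      tendsto_natCast_atTop_atTop.comp (tendsto_pow_atTop_atTop_of_one_lt (by norm_num : 1 < 2))
    have h2 : Filter.Tendsto (fun ν : ℕ => (((2 ^ ν : ℕ) : ℝ) / 2) ^ k) Filter.atTop Filter.atTop :=
      (Filter.tendsto_pow_atTop hkne).comp (h1.atTop_div_const (by norm_num))
    exact (h2.const_mul_atTop ha).atTop_div_const (by norm_num)
  obtain ⟨ν1, hν1⟩ := Filter.eventually_atTop.1 (htend.eventually hband)
  have hdy := dy_sum k hk2 a ha (k * E0) τ (by positivity) hτ Δ hΔ0 (1 / c6 ^ 2 * a ^ E0) (by positivity) ν1 (by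
    intro μ hμ J hJ
    set q : ℝ := ((2 ^ μ : ℕ) : ℝ) with hq
    have hq0 : 0 < q := by positivity
    have h1 := hν1 μ hμ (J.filter Bad) (fun n hn => by
      rw [mem_filter] at hn
      obtain ⟨h2, h3⟩ := hJ n hn.1
      constructor
      · linarith
      · have e1 : 2 ^ k * (a * (q / 2) ^ k / 2) = a * q ^ k / 2 := by
          rw [div_pow]
          field_simp
        rw [e1]
        linarith) (fun n hn => (mem_filter.1 hn).2)
    have h2 : ∑ n ∈ J, Δ n = ((J.filter Bad).card : ℝ) := by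
      rw [card_filter, Nat.cast_sum]
      apply sum_congr rfl
      intro n _
      rw [hΔ]
      simp only
      split_ifs <;> norm_num
    rw [h2]
    refine h1.trans ?_
    rw [mul_assoc]
    apply mul_le_mul_of_nonneg_left _ (by positivity)
    have e2 : a ^ E0 * q ^ (k * E0) = (a * q ^ k) ^ E0 := by
      rw [Real.mul_rpow ha.le (by positivity), ← Real.rpow_natCast q k, ← Real.rpow_mul hq0.le]
    rw [e2]
    apply Real.rpow_le_rpow (by positivity) _ hE00.le
    have h3 : (q / 2) ^ k ≤ q ^ k := pow_le_pow_left₀ (by positivity) (by linarith) k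
    have h4 : a * (q / 2) ^ k ≤ a * q ^ k := mul_le_mul_of_nonneg_left h3 ha.le
    have h5 : 0 ≤ a * (q / 2) ^ k := by positivity
    linarith)
  filter_upwards [hdy, Filter.eventually_ge_atTop 1] with X hX hX1
  have e1 : {n : ℕ | 1 ≤ n ∧ n ≤ X ∧ ¬ ∃ b : Fin k → ℕ, ∃ x : ℕ,
      (∀ i, b i ∈ A i ∧ 0 < b i) ∧ 0 < x ∧ ∑ i, g (b i) + g x = (n : ℤ)} =
      (((Icc 1 X).filter Bad : Finset ℕ) : Set ℕ) := by
    ext n
    simp only [coe_filter, mem_Icc, Set.mem_ofPred_eq]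
    tauto
  rw [e1, Set.ncard_coe_finset, card_filter, Nat.cast_sum]
  have e2 : ∑ n ∈ Icc 1 X, ((if Bad n then 1 else 0 : ℕ) : ℝ) = ∑ n ∈ Icc 1 X, Δ n := by
    apply sum_congr rfl
    intro n _
    rw [hΔ]
    simp only
    split_ifs <;> norm_num
  rw [e2]
  refine hX.trans ?_
  apply Real.rpow_le_rpow_of_exponent_le (by exact_mod_cast hX1)
  have e3 : (k : ℝ) * E0 / k = E0 := by field_simp
  rw [e3, hE0]
  linarith

end Pool.Agent.U914.WP
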