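import Mathlib
import Pool.Agent.U914.WP.GN

/-! Almost all polynomials in Waring's problem: the asymptotic formula with `k + 1` summands for almost all numbers. -/

set_option autoImplicit false

open Finset MeasureTheory

namespace Pool.Agent.U914.WP

/-- **The asymptotic formula for almost all numbers.** -/
theorem aa_full (d : ℕ) (hd : 1 ≤ d) (a : ℝ) (ha : 0 < a) : ∃ τ : ℝ, 0 < τ ∧ ∀ᵐ θ : Fin d → ℝ,
    (∀ s : ℕ, d + 2 ≤ s → ∀ᶠ X : ℕ in Filter.atTop,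
      ∑ n ∈ Icc 1 X, ((rz s d a θ n : ℝ) - SB d s a * (n : ℝ) ^ ((s : ℝ) / ((d + 1 : ℕ) : ℝ) - 1)) ^ 2 ≤
        (X : ℝ) ^ (2 * (s : ℝ) / ((d + 1 : ℕ) : ℝ) - 1 - τ)) ∧
    ∀ᶠ X : ℕ in Filter.atTop, ({n : ℕ | n ≤ X ∧ (n : ℝ) ^ ((1 : ℝ) / ((d + 1 : ℕ) : ℝ) - τ) <
      |(rz (d + 2) d a θ n : ℝ) - SB d (d + 2) a * (n : ℝ) ^ ((1 : ℝ) / ((d + 1 : ℕ) : ℝ))|}.ncard : ℝ) ≤
        (X : ℝ) ^ (1 - τ) := by
  classical
  obtain ⟨τ0, hτ0, hms⟩ := ms_asym d hd a ha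
  set k : ℕ := d + 1 with hk
  have hk2 : (2 : ℝ) ≤ k := by
    have : 2 ≤ k := by omega
    exact_mod_cast this
  have hk0 : (0 : ℝ) < k := by linarith
  set τ : ℝ := min (τ0 / 8) (1 / (4 * k)) with hτ
  have hτp : 0 < τ := lt_min (by positivity) (by positivity)
  have hτ1 : τ ≤ τ0 / 8 := min_le_left _ _
  have hτ2 : τ ≤ 1 / (4 * k) := min_le_right _ _
  have hτk : τ ≤ 1 / k := by
    refine hτ2.trans ?_
    apply one_div_le_one_div_of_le hk0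
    linarith
  have hτ8 : τ ≤ 1 / 8 := by
    refine hτ2.trans ?_
    apply one_div_le_one_div_of_le (by norm_num)
    linarith
  refine ⟨τ, hτp, ?_⟩
  filter_upwards [hms] with θ hθ
  constructor
  · intro s hs
    filter_upwards [hθ s hs, Filter.eventually_ge_atTop 1] with X hX hX1
    refine hX.trans ?_
    apply Real.rpow_le_rpow_of_exponent_le
    · exact_mod_cast hX1
    · linarith
  have hev1 : ∀ᶠ X : ℕ in Filter.atTop, (X : ℝ) ^ (-τ) ≤ 1 / 4 :=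
    ((tendsto_rpow_neg_atTop hτp).comp tendsto_natCast_atTop_atTop).eventually_le_const (by norm_num)
  filter_upwards [hθ (d + 2) le_rfl, hev1, Filter.eventually_ge_atTop 1] with X hX hX2 hX1
  have hXr : (1 : ℝ) ≤ X := by exact_mod_cast hX1
  have hX0 : (0 : ℝ) < X := by linarith
  have hexp : (((d + 2 : ℕ) : ℝ)) / (k : ℝ) - 1 = 1 / k := by
    rw [hk]
    push_cast
    field_simp
    ring
  have hexp2 : 2 * (((d + 2 : ℕ) : ℝ)) / (k : ℝ) - 1 - τ0 = 1 + 2 / k - τ0 := by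
    have : 2 * (((d + 2 : ℕ) : ℝ)) / (k : ℝ) = 2 * ((((d + 2 : ℕ) : ℝ)) / (k : ℝ)) := by ring
    rw [this]
    have h2 : (((d + 2 : ℕ) : ℝ)) / (k : ℝ) = 1 + 1 / k := by linarith
    rw [h2]
    ring
  rw [hexp2] at hX
  simp only [hexp] at hX
  set Δ : ℕ → ℝ := fun n => (rz (d + 2) d a θ n : ℝ) - SB d (d + 2) a * (n : ℝ) ^ ((1 : ℝ) / k) with hΔ
  set Y : ℝ := (X : ℝ) ^ (1 - 2 * τ) with hY
  have hY0 : 0 < Y := by positivity
  have hY1 : 1 ≤ Y := Real.one_le_rpow hXr (by linarith)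
  set B2 : Finset ℕ := (Icc 1 X).filter fun n : ℕ => Y < n ∧ (n : ℝ) ^ ((1 : ℝ) / k - τ) < |Δ n| with hB2
  have hsub : {n : ℕ | n ≤ X ∧ (n : ℝ) ^ ((1 : ℝ) / k - τ) < |Δ n|} ⊆ ((range (⌊Y⌋₊ + 1) ∪ B2 : Finset ℕ) : Set ℕ) := by
    intro n hn
    obtain ⟨hn1, hn2⟩ := hn
    rw [coe_union, Set.mem_union, mem_coe, mem_coe, mem_range, hB2, mem_filter, mem_Icc]
    rcases le_or_gt (n : ℝ) Y with hc | hc
    · left
      have := Nat.le_floor hc
      omega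
    · right
      refine ⟨⟨?_, hn1⟩, hc, hn2⟩
      have : (0 : ℝ) < n := by linarith
      have h0 : 0 < n := by exact_mod_cast this
      omega
  have hcard : ({n : ℕ | n ≤ X ∧ (n : ℝ) ^ ((1 : ℝ) / k - τ) < |Δ n|}.ncard : ℝ) ≤ (⌊Y⌋₊ + 1 : ℕ) + (B2.card : ℝ) := by
    have h1 := Set.ncard_le_ncard hsub (finite_toSet _)
    rw [Set.ncard_coe_finset] at h1
    have h2 := h1.trans (card_union_le _ _)
    rw [card_range] at h2
    exact_mod_cast h2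
  have hB2card : (B2.card : ℝ) * Y ^ (2 * ((1 : ℝ) / k - τ)) ≤ (X : ℝ) ^ (1 + 2 / k - τ0) := by
    have h1 : ∑ n ∈ B2, Y ^ (2 * ((1 : ℝ) / k - τ)) ≤ ∑ n ∈ B2, Δ n ^ 2 := by
      apply sum_le_sum
      intro n hn
      rw [hB2, mem_filter] at hn
      obtain ⟨_, hn1, hn2⟩ := hn
      have h3 : Y ^ ((1 : ℝ) / k - τ) ≤ |Δ n| :=
        (Real.rpow_le_rpow hY0.le hn1.le (by linarith)).trans hn2.le
      calc Y ^ (2 * ((1 : ℝ) / k - τ)) = (Y ^ ((1 : ℝ) / k - τ)) ^ 2 := by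
            rw [← Real.rpow_natCast, ← Real.rpow_mul hY0.le]
            congr 1
            push_cast
            ring
        _ ≤ |Δ n| ^ 2 := pow_le_pow_left₀ (by positivity) h3 2
        _ = Δ n ^ 2 := sq_abs _
    rw [sum_const, nsmul_eq_mul] at h1
    refine h1.trans (le_trans ?_ hX)
    apply sum_le_sum_of_subset_of_nonneg (filter_subset _ _)
    intro n _ _
    positivity
  have hB2le : (B2.card : ℝ) ≤ (X : ℝ) ^ (1 - 2 * τ) := by
    have e1 : Y ^ (2 * ((1 : ℝ) / k - τ)) = (X : ℝ) ^ ((1 - 2 * τ) * (2 * ((1 : ℝ) / k - τ))) := by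
      rw [hY, ← Real.rpow_mul hX0.le]
    rw [e1] at hB2card
    have h2 : (X : ℝ) ^ (1 + 2 / k - τ0) ≤
        (X : ℝ) ^ (1 - 2 * τ) * (X : ℝ) ^ ((1 - 2 * τ) * (2 * ((1 : ℝ) / k - τ))) := by
      rw [← Real.rpow_add hX0]
      apply Real.rpow_le_rpow_of_exponent_le hXr
      have h3 : (1 : ℝ) / k ≤ 1 / 2 := one_div_le_one_div_of_le (by norm_num) hk2
      have h4 : τ * (1 / k) ≤ τ * (1 / 2) := mul_le_mul_of_nonneg_left h3 hτp.le
      have h5 : 0 ≤ τ * τ := by positivity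
      have h6 : (2 : ℝ) / k = 2 * (1 / k) := by ring
      rw [h6]
      nlinarith
    exact le_of_mul_le_mul_right (hB2card.trans h2) (by positivity)
  have hfl : ((⌊Y⌋₊ + 1 : ℕ) : ℝ) ≤ 2 * Y := by
    push_cast
    have := Nat.floor_le hY0.le
    linarith
  calc _ ≤ ((⌊Y⌋₊ + 1 : ℕ) : ℝ) + (B2.card : ℝ) := hcard
    _ ≤ 2 * Y + Y := add_le_add hfl hB2le
    _ = 3 * ((X : ℝ) ^ (-τ) * (X : ℝ) ^ (1 - τ)) := by
        rw [← Real.rpow_add hX0, hY]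
        have : -τ + (1 - τ) = 1 - 2 * τ := by ring
        rw [this]
        ring
    _ ≤ 3 * (1 / 4 * (X : ℝ) ^ (1 - τ)) := by
        apply mul_le_mul_of_nonneg_left _ (by norm_num)
        exact mul_le_mul_of_nonneg_right hX2 (by positivity)
    _ ≤ (X : ℝ) ^ (1 - τ) := by
        have : 0 < (X : ℝ) ^ (1 - τ) := by positivity
        linarith

end Pool.Agent.U914.WP
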