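import Mathlib
import Pool.Agent.U914.WP.KQ

/-! Almost all polynomials: one value plus elements of two arbitrary sets; two primes. -/

set_option autoImplicit false

open Finset MeasureTheory

namespace Pool.Agent.U914.WP

/-- the number of representations by two elements of sets and a value -/
noncomputable def cQ (g : ℕ → ℤ) (S S' : Finset ℕ) (n : ℕ) : ℕ :=
  {q : (ℕ × ℕ) × ℕ | (q.1.1 ∈ S ∧ q.1.2 ∈ S') ∧ 0 < q.2 ∧ (q.1.1 : ℤ) + (q.1.2 : ℤ) + g q.2 = (n : ℤ)}.ncard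

/-- the first moment of the product of two sets -/
theorem mv_pair (S S' : Finset ℕ) :
    ∫⁻ α in Set.Icc (-(1 / 2) : ℝ) (1 / 2), ENNReal.ofReal ‖FW (S ×ˢ S') (fun q : ℕ × ℕ => (q.1 : ℤ) + (q.2 : ℤ)) α‖ ≤
      ENNReal.ofReal (Real.sqrt ((S.card : ℝ) * S'.card)) := by
  rcases S.eq_empty_or_nonempty with h | hS
  · subst h
    simp [FW]
  rcases S'.eq_empty_or_nonempty with h | hS'
  · subst h
    simp [FW]
  have hs : (0 : ℝ) < S.card := by exact_mod_cast hS.card_pos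
  have hs' : (0 : ℝ) < S'.card := by exact_mod_cast hS'.card_pos
  set u : ℝ := Real.sqrt S.card with hu
  set v : ℝ := Real.sqrt S'.card with hv
  have hu0 : 0 < u := Real.sqrt_pos.2 hs
  have hv0 : 0 < v := Real.sqrt_pos.2 hs'
  have hu2 : u * u = S.card := Real.mul_self_sqrt hs.le
  have hv2 : v * v = S'.card := Real.mul_self_sqrt hs'.le
  have huv : Real.sqrt ((S.card : ℝ) * S'.card) = u * v := Real.sqrt_mul hs.le _
  rw [huv]
  set F : ℝ → ℝ := fun α => ‖FW S (fun b => (b : ℤ)) α‖ with hF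
  set F' : ℝ → ℝ := fun α => ‖FW S' (fun b => (b : ℤ)) α‖ with hF'
  have hFc : Continuous F := (FW_cont _ _).norm
  have hF'c : Continuous F' := (FW_cont _ _).norm
  have hpt : ∀ α : ℝ, ‖FW (S ×ˢ S') (fun q : ℕ × ℕ => (q.1 : ℤ) + (q.2 : ℤ)) α‖ ≤
      v / (2 * u) * F α ^ 2 + u / (2 * v) * F' α ^ 2 := by
    intro α
    have h1 : FW (S ×ˢ S') (fun q : ℕ × ℕ => (q.1 : ℤ) + (q.2 : ℤ)) α =
        FW S (fun b => (b : ℤ)) α * FW S' (fun b => (b : ℤ)) α := (FW_mul S _ S' _ α).symm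
    rw [h1, norm_mul]
    have h2 : v / (2 * u) * F α ^ 2 + u / (2 * v) * F' α ^ 2 - F α * F' α = (v * F α - u * F' α) ^ 2 / (2 * (u * v)) := by
      field_simp
      ring
    have h3 : 0 ≤ (v * F α - u * F' α) ^ 2 / (2 * (u * v)) := by positivity
    linarith
  have hmeas : Measurable (fun α => ENNReal.ofReal (v / (2 * u)) * ENNReal.ofReal (F α ^ 2)) :=
    ((ENNReal.continuous_ofReal.comp (hFc.pow 2)).measurable).const_mul _
  calc _ ≤ ∫⁻ α in Set.Icc (-(1 / 2) : ℝ) (1 / 2), (ENNReal.ofReal (v / (2 * u)) * ENNReal.ofReal (F α ^ 2) +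
          ENNReal.ofReal (u / (2 * v)) * ENNReal.ofReal (F' α ^ 2)) := by
        apply lintegral_mono
        intro α
        simp only
        rw [← ENNReal.ofReal_mul (by positivity), ← ENNReal.ofReal_mul (by positivity),
          ← ENNReal.ofReal_add (by positivity) (by positivity)]
        exact ENNReal.ofReal_le_ofReal (hpt α)
    _ = ENNReal.ofReal (v / (2 * u)) * (∫⁻ α in Set.Icc (-(1 / 2) : ℝ) (1 / 2), ENNReal.ofReal (F α ^ 2)) +
          ENNReal.ofReal (u / (2 * v)) * (∫⁻ α in Set.Icc (-(1 / 2) : ℝ) (1 / 2), ENNReal.ofReal (F' α ^ 2)) := by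
        rw [lintegral_add_left hmeas,
          lintegral_const_mul' _ _ ENNReal.ofReal_ne_top, lintegral_const_mul' _ _ ENNReal.ofReal_ne_top]
    _ ≤ ENNReal.ofReal (v / (2 * u)) * ENNReal.ofReal (S.card : ℝ) +
          ENNReal.ofReal (u / (2 * v)) * ENNReal.ofReal (S'.card : ℝ) :=
        add_le_add (mul_le_mul_right (ms_pos S) _) (mul_le_mul_right (ms_pos S') _)
    _ = _ := by
        rw [← ENNReal.ofReal_mul (by positivity), ← ENNReal.ofReal_mul (by positivity),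
          ← ENNReal.ofReal_add (by positivity) (by positivity)]
        congr 1
        rw [← hu2, ← hv2]
        field_simp
        ring

theorem cQ_eq (g : ℕ → ℤ) (P : ℕ) (S S' : Finset ℕ) (n : ℕ) (h : ∀ x : ℕ, g x ≤ n → x ≤ P) :
    (cQ g S S' n : ℝ) = RW (S ×ˢ S') (fun q : ℕ × ℕ => (q.1 : ℤ) + (q.2 : ℤ)) P g n := by
  unfold cQ RW
  rw [Nat.cast_inj, ← Set.ncard_coe_finset]
  congr 1
  ext ⟨⟨b, b'⟩, x⟩
  simp only [coe_filter, mem_product, mem_Ioc, Set.mem_ofPred_eq]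
  constructor
  · rintro ⟨h1, h2, h3⟩
    exact ⟨⟨h1, h2, h x (by omega)⟩, h3⟩
  · rintro ⟨⟨h1, h2, _⟩, h3⟩
    exact ⟨h1, h2, h3⟩

/-- **Elements of two arbitrary sets plus a value.** -/
theorem pair_pt (d : ℕ) (hd : 1 ≤ d) (a : ℝ) (ha : 0 < a) (δ : ℝ) (hδ0 : 0 < δ) (hδ1 : δ ≤ 1 / 1000) (θ : Fin d → ℝ)
    (hdom : Dom (d + 1) (fl d a θ) δ) :
    ∀ᶠ N : ℕ in Filter.atTop, ∀ S S' : Finset ℕ, (∀ b ∈ S, 4 * b ≤ N) → (∀ b ∈ S', 4 * b ≤ N) →
      |(cQ (fl d a θ) S S' N : ℝ) - ∑ q ∈ S ×ˢ S', rh (d + 1) a ((N : ℝ) - ((q.1 : ℝ) + q.2))| ≤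
        Real.sqrt ((S.card : ℝ) * S'.card) *
          (N : ℝ) ^ (1 / ((d + 1 : ℕ) : ℝ) - δ / (2 * ((d + 1 : ℕ) : ℝ))) := by
  set k : ℕ := d + 1 with hk
  have hk2 : 2 ≤ k := by omega
  have hk2r : (2 : ℝ) ≤ k := by exact_mod_cast hk2
  have hk0 : (0 : ℝ) < k := by linarith
  have hkne : k ≠ 0 := by omega
  set g : ℕ → ℤ := fl d a θ with hg
  have hsz : Sz k a g (∑ j, |θ j| + 1) := sz_fl d a θ
  have hC1 : 0 ≤ ∑ j, |θ j| + 1 := by positivity
  set c0 : ℝ := a / (16 * 2 ^ k) with hc0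
  have hc00 : 0 < c0 := by positivity
  obtain ⟨Cm, hCm, hmach⟩ := machine k hk2 a ha g δ hδ0 hδ1 hdom _ hC1 hsz c0 hc00
  obtain ⟨ν1, hν1⟩ := Filter.eventually_atTop.1 hmach
  set c5 : ℝ := 2 * (2 * 4 / a) ^ ((k : ℝ)⁻¹) with hc5
  have hc50 : 0 < c5 := by positivity
  have hev1 : ∀ᶠ N : ℝ in Filter.atTop, N ^ (-(δ / (2 * k))) ≤ 1 / (Cm * (1 + a) * c5 ^ (1 - δ)) :=
    (tendsto_rpow_neg_atTop (by positivity : (0 : ℝ) < δ / (2 * k))).eventually_le_const (by positivity)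
  have hnat := tendsto_natCast_atTop_atTop (R := ℝ)
  filter_upwards [hnat.eventually (scale_real k hk2 a ha 4 (by norm_num) ν1),
    hnat.eventually (x_small d a ha θ 4 (by norm_num)), hnat.eventually hev1, Filter.eventually_ge_atTop 1] with N hsc
    hxs hev1 hN1
  intro S S' hS hS'
  have hN0 : (0 : ℝ) < N := by exact_mod_cast hN1
  have hN1r : (1 : ℝ) ≤ N := by exact_mod_cast hN1
  obtain ⟨ν, hν, hs1, hs2⟩ := hsc
  have hm := hν1 ν hν
  have hxs' := hxs (2 ^ ν) hs2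
  set p : ℝ := ((2 ^ ν : ℕ) : ℝ) with hp
  have hp0 : 0 < p := by positivity
  have hmul : ∀ x y : ℝ, p ^ x * p ^ y = p ^ (x + y) := fun x y => (Real.rpow_add hp0 x y).symm
  have hlow : c0 * p ^ k ≤ N / 2 := by
    have e1 : a * (p / 2) ^ k = 16 * (c0 * p ^ k) := by
      rw [hc0, div_pow]
      field_simp
    rw [e1] at hs1
    linarith
  have hb : ∀ b ∈ S, (0 : ℝ) ≤ b ∧ (b : ℝ) ≤ N / 4 := fun b hb => ⟨Nat.cast_nonneg _, by
    have h : (4 : ℝ) * b ≤ N := by exact_mod_cast hS b hb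
    linarith⟩
  have hb' : ∀ b ∈ S', (0 : ℝ) ≤ b ∧ (b : ℝ) ≤ N / 4 := fun b hb => ⟨Nat.cast_nonneg _, by
    have h : (4 : ℝ) * b ≤ N := by exact_mod_cast hS' b hb
    linarith⟩
  obtain ⟨hm1, _⟩ := hm (ℕ × ℕ) (S ×ˢ S') (fun q : ℕ × ℕ => (q.1 : ℤ) + (q.2 : ℤ))
  have hfin := hm1 ((N : ℕ) : ℤ) (by
    intro q hq
    rw [mem_product] at hq
    obtain ⟨h3, h4⟩ := hb q.1 hq.1
    obtain ⟨h5, h6⟩ := hb' q.2 hq.2
    push_cast
    constructor <;> linarith) _ (Real.sqrt_nonneg _) (mv_pair S S')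
  rw [← cQ_eq g (2 ^ ν) S S' N (by
    intro x hx
    apply hxs' x
    have h7 : (fl d a θ x : ℝ) ≤ N := by exact_mod_cast hx
    linarith)] at hfin
  have h2 : ∑ q ∈ S ×ˢ S', rh k a ((N : ℝ) - ((q.1 : ℝ) + q.2)) =
      ∑ q ∈ S ×ˢ S', rh k a ((((N : ℕ) : ℤ) : ℝ) - (((q.1 : ℤ) + (q.2 : ℤ) : ℤ) : ℝ)) := by
    apply sum_congr rfl
    intro q _
    congr 1
    push_cast
    ring
  rw [h2]
  refine hfin.trans ?_
  set r : ℝ := Real.sqrt ((S.card : ℝ) * S'.card) with hr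
  have hr0 : 0 ≤ r := Real.sqrt_nonneg _
  have hr2 : ((S ×ˢ S').card : ℝ) = r * r := by
    rw [hr, Real.mul_self_sqrt (by positivity), card_product]
    push_cast
    ring
  have hcard1 : ∀ T : Finset ℕ, (∀ b ∈ T, 4 * b ≤ N) → (T.card : ℝ) ≤ a * p ^ (k : ℝ) := by
    intro T hT
    have h3 : T ⊆ range (N + 1) := fun b hb' => mem_range.2 (by have := hT b hb'; omega)
    have h4 := card_le_card h3
    rw [card_range] at h4
    have h5 : (T.card : ℝ) ≤ N + 1 := by exact_mod_cast h4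
    rw [Real.rpow_natCast]
    linarith
  have hcard : r ≤ a * p ^ (k : ℝ) := by
    rw [hr]
    apply Real.sqrt_le_iff.2 ⟨by positivity, ?_⟩
    rw [sq]
    exact mul_le_mul (hcard1 S hS) (hcard1 S' hS') (Nat.cast_nonneg _) (by positivity)
  have hpn : p ≤ c5 * (N : ℝ) ^ ((k : ℝ)⁻¹) := by
    have h1 : (p / 2) ^ k ≤ 2 * (4 * N) / a := by
      rw [le_div_iff₀ ha, mul_comm]
      exact hs1
    have h2 := Real.rpow_le_rpow (by positivity) h1 (by positivity : (0 : ℝ) ≤ (k : ℝ)⁻¹)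
    rw [Real.pow_rpow_inv_natCast (by positivity) hkne] at h2
    have h3 : 2 * (4 * (N : ℝ)) / a = 2 * 4 / a * N := by ring
    rw [h3, Real.mul_rpow (by positivity) hN0.le] at h2
    rw [hc5]
    linarith
  rw [hr2]
  calc Cm * (p ^ (1 - δ) * r + r * r * p ^ (1 - (k : ℝ) - δ)) ≤
        Cm * (p ^ (1 - δ) * r + r * (a * p ^ (k : ℝ)) * p ^ (1 - (k : ℝ) - δ)) := by
        apply mul_le_mul_of_nonneg_left _ hCm.le
        apply add_le_add le_rfl
        apply mul_le_mul_of_nonneg_right _ (by positivity)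
        exact mul_le_mul_of_nonneg_left hcard hr0
    _ = Cm * (p ^ (1 - δ) * r + r * a * (p ^ (k : ℝ) * p ^ (1 - (k : ℝ) - δ))) := by ring
    _ = Cm * (1 + a) * (r * p ^ (1 - δ)) := by
        rw [hmul]
        have : (k : ℝ) + (1 - k - δ) = 1 - δ := by ring
        rw [this]
        ring
    _ ≤ Cm * (1 + a) * (r * (c5 ^ (1 - δ) * (N : ℝ) ^ ((1 - δ) / k))) := by
        apply mul_le_mul_of_nonneg_left _ (by positivity)
        apply mul_le_mul_of_nonneg_left _ hr0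
        calc p ^ (1 - δ) ≤ (c5 * (N : ℝ) ^ ((k : ℝ)⁻¹)) ^ (1 - δ) :=
              Real.rpow_le_rpow hp0.le hpn (by linarith)
          _ = _ := by
              rw [Real.mul_rpow hc50.le (by positivity), ← Real.rpow_mul hN0.le]
              congr 2
              field_simp
    _ = Cm * (1 + a) * c5 ^ (1 - δ) * (N : ℝ) ^ (-(δ / (2 * k))) * (r * (N : ℝ) ^ (1 / (k : ℝ) - δ / (2 * k))) := by
        have e1 : (N : ℝ) ^ ((1 - δ) / k) = (N : ℝ) ^ (-(δ / (2 * k))) * (N : ℝ) ^ (1 / (k : ℝ) - δ / (2 * k)) := by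
          rw [← Real.rpow_add hN0]
          congr 1
          field_simp
          ring
        rw [e1]
        ring
    _ ≤ Cm * (1 + a) * c5 ^ (1 - δ) * (1 / (Cm * (1 + a) * c5 ^ (1 - δ))) *
          (r * (N : ℝ) ^ (1 / (k : ℝ) - δ / (2 * k))) := by
        apply mul_le_mul_of_nonneg_right _ (by positivity)
        exact mul_le_mul_of_nonneg_left hev1 (by positivity)
    _ = _ := by rw [mul_one_div_cancel (by positivity), one_mul]

/-- **Every large integer is a sum of elements of the two sets and a value.** -/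
theorem pair_rep (d : ℕ) (hd : 1 ≤ d) (a : ℝ) (ha : 0 < a) (δ : ℝ) (hδ0 : 0 < δ) (hδ1 : δ ≤ 1 / 1000) (θ : Fin d → ℝ)
    (hdom : Dom (d + 1) (fl d a θ) δ) :
    ∀ᶠ N : ℕ in Filter.atTop, ∀ S S' : Finset ℕ, (∀ b ∈ S, 4 * b ≤ N) → (∀ b ∈ S', 4 * b ≤ N) →
      (N : ℝ) ^ (1 - δ / (8 * ((d + 1 : ℕ) : ℝ))) ≤ S.card → (N : ℝ) ^ (1 - δ / (8 * ((d + 1 : ℕ) : ℝ))) ≤ S'.card →
      0 < cQ (fl d a θ) S S' N := by
  have hms' := pair_pt d hd a ha δ hδ0 hδ1 θ hdom
  set k : ℕ := d + 1 with hk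
  have hk2r : (2 : ℝ) ≤ k := by exact_mod_cast (by omega : 2 ≤ k)
  have hk0 : (0 : ℝ) < k := by linarith
  set μ : ℝ := δ / (8 * k) with hμ
  have hμ0 : 0 < μ := by positivity
  set c : ℝ := (1 / a) ^ ((k : ℝ)⁻¹) / k with hc
  have hc0 : 0 < c := by positivity
  have hnat := tendsto_natCast_atTop_atTop (R := ℝ)
  have hev : ∀ᶠ N : ℝ in Filter.atTop, N ^ (-(3 * μ)) < c :=
    (tendsto_rpow_neg_atTop (by positivity : (0 : ℝ) < 3 * μ)).eventually_lt_const hc0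
  filter_upwards [hms', hnat.eventually hev, Filter.eventually_ge_atTop 1] with N hms hev hN1
  intro S S' hS hS' hcS hcS'
  have hN0 : (0 : ℝ) < N := by exact_mod_cast hN1
  have h1 := hms S S' hS hS'
  have hrh : rh k a N = c * (N : ℝ) ^ ((k : ℝ)⁻¹ - 1) := by
    unfold rh ps1
    have e1 : (N : ℝ) / a = 1 / a * N := by ring
    rw [e1, Real.mul_rpow (by positivity) hN0.le, Real.rpow_sub hN0, Real.rpow_one, hc]
    field_simp
  set r : ℝ := Real.sqrt ((S.card : ℝ) * S'.card) with hr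
  have hr2 : ((S ×ˢ S').card : ℝ) = r * r := by
    rw [hr, Real.mul_self_sqrt (by positivity), card_product]
    push_cast
    ring
  have hrN : (N : ℝ) ^ (1 - μ) ≤ r := by
    rw [hr]
    apply Real.le_sqrt_of_sq_le
    rw [sq]
    exact mul_le_mul hcS hcS' (by positivity) (Nat.cast_nonneg _)
  have hr0 : 0 < r := lt_of_lt_of_le (by positivity) hrN
  have hmain : r * r * (c * (N : ℝ) ^ ((k : ℝ)⁻¹ - 1)) ≤
      ∑ q ∈ S ×ˢ S', rh k a ((N : ℝ) - ((q.1 : ℝ) + q.2)) := by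
    rw [← hrh, ← hr2, ← nsmul_eq_mul]
    apply card_nsmul_le_sum
    intro q hq
    rw [mem_product] at hq
    have h4 : (4 : ℝ) * q.1 ≤ N := by exact_mod_cast hS q.1 hq.1
    have h5 : (4 : ℝ) * q.2 ≤ N := by exact_mod_cast hS' q.2 hq.2
    have h6 : (0 : ℝ) ≤ q.1 := Nat.cast_nonneg _
    have h7 : (0 : ℝ) ≤ q.2 := Nat.cast_nonneg _
    exact rh_anti k (by omega) a _ _ ha (by linarith) (by linarith)
  have e2 : δ / (2 * k) = 4 * μ := by
    rw [hμ]
    field_simp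
    ring
  rw [e2] at h1
  have h3 : r * (N : ℝ) ^ (1 / (k : ℝ) - 4 * μ) < r * r * (c * (N : ℝ) ^ ((k : ℝ)⁻¹ - 1)) := by
    have e3 : (N : ℝ) ^ (1 / (k : ℝ) - 4 * μ) = (N : ℝ) ^ (1 - μ) * (N : ℝ) ^ (-(3 * μ)) * (N : ℝ) ^ ((k : ℝ)⁻¹ - 1) := by
      rw [← Real.rpow_add hN0, ← Real.rpow_add hN0]
      congr 1
      ring
    rw [e3]
    calc r * ((N : ℝ) ^ (1 - μ) * (N : ℝ) ^ (-(3 * μ)) * (N : ℝ) ^ ((k : ℝ)⁻¹ - 1)) <
          r * ((N : ℝ) ^ (1 - μ) * c * (N : ℝ) ^ ((k : ℝ)⁻¹ - 1)) := by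
          apply mul_lt_mul_of_pos_left _ hr0
          apply mul_lt_mul_of_pos_right _ (by positivity)
          exact mul_lt_mul_of_pos_left hev (by positivity)
      _ ≤ r * (r * c * (N : ℝ) ^ ((k : ℝ)⁻¹ - 1)) := by
          apply mul_le_mul_of_nonneg_left _ hr0.le
          apply mul_le_mul_of_nonneg_right _ (by positivity)
          exact mul_le_mul_of_nonneg_right hrN hc0.le
      _ = _ := by ring
  have h8 := (abs_le.1 h1).1
  have h9 : (0 : ℝ) < (cQ (fl d a θ) S S' N : ℝ) := by linarith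
  exact_mod_cast h9

theorem primes_quarter (ε : ℝ) (hε : 0 < ε) : ∀ᶠ N : ℕ in Filter.atTop,
    (N : ℝ) ^ (1 - ε) ≤ (((range (N / 4 + 1)).filter Nat.Prime).card : ℝ) := by
  have hlog := (isLittleO_log_rpow_atTop hε).bound (c := 1 / 9) (by norm_num)
  have hlog1 := (isLittleO_log_rpow_atTop (r := 1) one_pos).bound (c := 1 / 50) (by norm_num)
  have hnat := tendsto_natCast_atTop_atTop (R := ℝ)
  filter_upwards [hnat.eventually hlog, hnat.eventually hlog1, Filter.eventually_ge_atTop 16] with N h1 h2 hN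
  have hN0 : (0 : ℝ) < N := by exact_mod_cast (by omega : 0 < N)
  rw [Real.norm_of_nonneg (Real.log_natCast_nonneg N), Real.norm_of_nonneg (by positivity)] at h1 h2
  rw [Real.rpow_one] at h2
  set m := N / 4 with hm
  have hm1 : (N : ℝ) / 5 ≤ m := by
    have h : N ≤ 5 * m := by omega
    have h' : (N : ℝ) ≤ 5 * m := by exact_mod_cast h
    linarith
  have hm2 : m + 1 ≤ N := by omega
  have hm3 : 3 ≤ m := by omega
  have hpi := Chebyshev.pi_ge m
  have hcard : ((range (m + 1)).filter Nat.Prime).card = Nat.primeCounting m := by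
    rw [Nat.primeCounting, Nat.primeCounting', Nat.count_eq_card_filter_range]
  rw [hcard]
  refine le_trans ?_ hpi
  have hm0 : (0 : ℝ) < m := by linarith [div_pos hN0 (by norm_num : (0 : ℝ) < 5)]
  have hl : 0 < Real.log m := Real.log_pos (by exact_mod_cast (by omega : 1 < m))
  have hl2 : Real.log m ≤ Real.log N := Real.log_le_log hm0 (by exact_mod_cast (by omega : m ≤ N))
  have hl3 : Real.log (m + 1) ≤ Real.log N := Real.log_le_log (by positivity) (by exact_mod_cast hm2)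
  rw [le_div_iff₀ hl]
  calc (N : ℝ) ^ (1 - ε) * Real.log m ≤ (N : ℝ) ^ (1 - ε) * (1 / 9 * (N : ℝ) ^ ε) := by
        apply mul_le_mul_of_nonneg_left _ (by positivity)
        linarith
    _ = N / 9 := by
        have e : (N : ℝ) ^ (1 - ε) * (N : ℝ) ^ ε = N := by
          rw [← Real.rpow_add hN0]
          simp
        calc (N : ℝ) ^ (1 - ε) * (1 / 9 * (N : ℝ) ^ ε) = ((N : ℝ) ^ (1 - ε) * (N : ℝ) ^ ε) / 9 := by ring
          _ = _ := by rw [e]
    _ ≤ m * Real.log 2 - Real.log (m + 1) := by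
        have h5 := Real.log_two_gt_d9
        have h6 : (N : ℝ) / 5 * 0.69 ≤ m * Real.log 2 := mul_le_mul hm1 (by linarith) (by norm_num) hm0.le
        linarith

end Pool.Agent.U914.WP
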